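import Pool.Agent.Work.MP_e10cd8_co.All.AAsym
import Pool.Agent.Work.MP_e10cd8_co.Exact.XAsym

-- merged part: Pool.Agent.Work.MP_e10cd8_co.Uni.LNum
section
-- merged part: Pool.Agent.Work.MP_e10cd8_co.Four.Sparse1
section
/-! Sparse sets of flags: the sample lemma, the bad flags, the rounds (paper 3). -/

namespace Pool.Agent.Work.MP_e10cd8_co.Four
namespace PG
open Finset

variable {q : ℕ} {Pt : Type} [Fintype Pt] [DecidableEq Pt] (G : PG q Pt)

theorem Sparse1_sel {α : Type} {X Y : Finset α} (h : X ⊆ Y) (p : α → Prop) :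
    (selIn X p).card ≤ (selIn Y p).card :=
  card_le_card fun _ k => mem_selIn.2 ⟨h (mem_selIn.1 k).1, (mem_selIn.1 k).2⟩

theorem Sparse1_flag {z : Pt × Pt} : z ∈ G.flags ↔ z.1 ∈ G.pl z.2 := mem_sel

theorem Sparse1_Pof {m : ℝ} {T : Finset (Pt × Pt)} {a : Pt} :
    a ∈ G.Pof m T ↔ ((selIn T fun u => a ∈ G.pl u.2).card : ℝ) ≤ 2 * m := mem_sel

theorem Sparse1_Pio {m : ℝ} {T : Finset (Pt × Pt)} {b : Pt} :
    b ∈ G.Pio m T ↔ ((selIn T fun u => u.1 ∈ G.pl b).card : ℝ) ≤ 2 * m := mem_sel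

theorem Sparse1_mbad {x m : ℝ} {T : Finset (Pt × Pt)} {z : Pt × Pt} :
    z ∈ G.bad x m T ↔ z.1 ∈ G.pl z.2 ∧ z.1 ∈ G.Pof m T ∧ z.2 ∈ G.Pio m T ∧
      z.2 ∈ G.low x (G.Pof m T) ∧ z.1 ∈ G.low x (G.Pio m T) := mem_sel

theorem Sparse1_pool {X Y : Finset Pt} {z : Pt × Pt} :
    z ∈ G.pool X Y ↔ z.1 ∈ G.pl z.2 ∧ z.1 ∈ X ∧ z.2 ∈ Y := mem_sel

theorem sparse_mono {d : ℕ} {Z Z' : Finset (Pt × Pt)} (h : G.sparse d Z) (h' : Z' ⊆ Z) :
    G.sparse d Z' := by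
  exact ⟨h'.trans h.1, fun z hz => ⟨(Sparse1_sel h' _).trans (h.2 z (h' hz)).1,
    (Sparse1_sel h' _).trans (h.2 z (h' hz)).2⟩⟩

/-- the threshold test for a family of properties -/
theorem Sparse1_test {ι κ : Type} [DecidableEq ι] [Fintype κ] (Z : Finset ι) (p : κ → ι → Prop)
    {m d : ℝ} (hm : 0 < m) (hd : m ≤ d) :
    Pr (m / d) Z (fun T => ¬ ∀ a, (((selIn Z (p a)).card : ℝ) ≤ d →
        ((selIn T (p a)).card : ℝ) ≤ 2 * m) ∧
      (((selIn T (p a)).card : ℝ) ≤ 2 * m → ((selIn Z (p a)).card : ℝ) ≤ 4 * d)) ≤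
      Fintype.card κ * Real.exp (-m / 3) := by
  have d0 : 0 < d := hm.trans_le hd
  have h0 : 0 ≤ m / d := by positivity
  have h1 : m / d ≤ 1 := (div_le_one d0).2 hd
  have e : ∀ a, ∀ T ⊆ Z, T ∩ selIn Z (p a) = selIn T (p a) := fun a T hT => by
    ext u
    simp only [mem_inter, mem_selIn]
    exact ⟨fun k => ⟨k.1, k.2.2⟩, fun k => ⟨k.1, hT k.1, k.2⟩⟩
  have e' : ∀ a, selIn Z (p a) ∩ Z = selIn Z (p a) := fun a => inter_eq_left.2 (selIn_subset _ _)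
  refine (Pr_mono h0 h1 fun T _ k => ?_).trans ((Pr_exists h0 h1 univ fun a T =>
    ¬ ((((selIn Z (p a)).card : ℝ) ≤ d → ((selIn T (p a)).card : ℝ) ≤ 2 * m) ∧
      (((selIn T (p a)).card : ℝ) ≤ 2 * m → ((selIn Z (p a)).card : ℝ) ≤ 4 * d))).trans ?_)
  · obtain ⟨a, ha⟩ := not_forall.1 k
    exact ⟨a, mem_univ a, ha⟩
  rw [← card_univ, ← nsmul_eq_mul]
  refine sum_le_card_nsmul _ _ _ fun a _ => ?_
  by_cases k : ((selIn Z (p a)).card : ℝ) ≤ 4 * d
  · by_cases l : ((selIn Z (p a)).card : ℝ) ≤ d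
    · refine (Pr_mono h0 h1 fun T hT n => ?_).trans (thr_up h0 h1 (selIn Z (p a)) hm.le ?_)
      · rw [e a T hT]
        exact not_le.1 fun o => n ⟨fun _ => o, fun _ => k⟩
      · rw [e']
        exact (mul_le_mul_of_nonneg_left l h0).trans (div_mul_cancel₀ m d0.ne').le
    · refine (Ex_mono h0 h1 (g := fun _ => Real.exp (-m / 3)) fun T _ => ?_).trans (Ex_const _).le
      rw [ind_neg (not_not.2 ⟨fun o => absurd o l, fun _ => k⟩)]
      exact (Real.exp_pos _).le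
  · refine (Pr_mono h0 h1 fun T hT n => ?_).trans (thr_down h0 h1 (selIn Z (p a)) hm.le ?_)
    · rw [e a T hT]
      by_contra o
      exact n ⟨fun l => absurd (l.trans (by linarith)) k, fun l => absurd l o⟩
    · rw [e']
      refine le_trans (le_of_eq ?_) (mul_le_mul_of_nonneg_left (not_le.1 k).le h0)
      field_simp

/-- double counting: few elements have a plane that is not low -/
theorem Sparse1_cnt {ι : Type} (Z : Finset ι) (f : ι → Pt) {x D : ℝ} (hx : 0 < x) (hD : 0 ≤ D)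
    (P : Finset Pt) (h : ∀ a ∈ P, ((selIn Z fun u => a ∈ G.pl (f u)).card : ℝ) ≤ D) :
    ((selIn Z fun u => f u ∉ G.low x P).card : ℝ) ≤ D * q / x := by
  have q0 : (0 : ℝ) < q := Nat.cast_pos.2 (lt_of_lt_of_le two_pos G.two_le)
  rcases P.eq_empty_or_nonempty with rfl | hP
  · rw [eq_empty_of_forall_notMem (s := selIn Z fun u => f u ∉ G.low x ∅) fun u hu =>
      (mem_selIn.1 hu).2 (G.mem_low.2 (by simp [cnt])), card_empty, Nat.cast_zero]
    positivity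
  have p0 : (0 : ℝ) < P.card := Nat.cast_pos.2 hP.card_pos
  have e : ∀ u, (G.cnt P (f u) : ℝ) = ∑ a ∈ P, ind (a ∈ G.pl (f u)) := fun u => by
    rw [← card_selIn, cnt]
    refine congrArg _ (congrArg _ ?_)
    ext a
    rw [mem_inter, mem_selIn, and_comm]
  have h1 : ((selIn Z fun u => f u ∉ G.low x P).card : ℝ) * (x * P.card / q) ≤ P.card * D := by
    calc _ ≤ ∑ u ∈ selIn Z fun u => f u ∉ G.low x P, (G.cnt P (f u) : ℝ) := by
          rw [← nsmul_eq_mul]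
          exact card_nsmul_le_sum _ _ _ fun u hu =>
            (not_le.1 fun k => (mem_selIn.1 hu).2 (G.mem_low.2 k)).le
      _ ≤ ∑ u ∈ Z, (G.cnt P (f u) : ℝ) :=
          sum_le_sum_of_subset_of_nonneg (selIn_subset _ _) fun _ _ _ => Nat.cast_nonneg _
      _ = ∑ a ∈ P, ((selIn Z fun u => a ∈ G.pl (f u)).card : ℝ) := by
          simp only [e, card_selIn]
          exact sum_comm
      _ ≤ _ := by
          rw [← nsmul_eq_mul]
          exact sum_le_card_nsmul _ _ _ h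
  rw [le_div_iff₀ hx]
  rw [← mul_div_assoc, div_le_iff₀ q0] at h1
  exact le_of_mul_le_mul_right (by linarith) p0

/-- SL. `m = 15 log q`, `η = m / d`; `thr_up`, `thr_down` for the sets of flags whose plane contains
a given point and dually, Markov for `|T|`. Then all flags of `Z` lie in `Pof × Pio`, each point of
`Pof` is on fewer than `4 d` planes of `Z`; double counting bounds by `4 d q / x` the flags whose
plane is not low for `Pof`, and dually. -/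
theorem sl (hq : 1000 ≤ q) {x : ℝ} (hx : 0 < x) {d : ℕ} (hd : 15 * Real.log q ≤ d)
    {Z : Finset (Pt × Pt)} (hZ : G.sparse d Z) :
    ∃ T ⊆ Z, (T.card : ℝ) ≤ 150 * Real.log q * Z.card / d ∧
      ((Z \ G.bad x (15 * Real.log q) T).card : ℝ) ≤ 8 * d * q / x := by
  have q1 : (1000 : ℝ) ≤ q := by exact_mod_cast hq
  have q0 : (0 : ℝ) < q := by linarith
  have hm : 0 < 15 * Real.log q := mul_pos (by norm_num) (Real.log_pos (by linarith))
  have d0 : (0 : ℝ) < d := hm.trans_le hd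
  rcases Z.eq_empty_or_nonempty with rfl | hne
  · refine ⟨∅, Subset.rfl, by simp, ?_⟩
    rw [empty_sdiff, card_empty, Nat.cast_zero]
    positivity
  have z0 : (0 : ℝ) < Z.card := Nat.cast_pos.2 hne.card_pos
  have h0 : 0 ≤ 15 * Real.log q / d := by positivity
  have h1 : 15 * Real.log q / d ≤ 1 := (div_le_one d0).2 hd
  have a1 := Sparse1_test Z (fun (a : Pt) u => a ∈ G.pl u.2) hm hd
  have a2 := Sparse1_test Z (fun (b : Pt) u => u.1 ∈ G.pl b) hm hd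
  have a3 := markov h0 h1 (Ω := Z) (f := fun T => ((T ∩ Z).card : ℝ))
    (fun _ _ => Nat.cast_nonneg _) (t := 150 * Real.log q * Z.card / d) (by
      rw [show 150 * Real.log q = 10 * (15 * Real.log q) by ring]; positivity)
  have a4 : 15 * Real.log q / d * Z.card / (150 * Real.log q * Z.card / d) = 1 / 10 := by
    have : Real.log q ≠ 0 := fun k => by rw [k, mul_zero] at hm; exact hm.false
    field_simp
    norm_num
  rw [Ex_card, inter_self, a4] at a3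
  have a5 : Fintype.card Pt * Real.exp (-(15 * Real.log q) / 3) ≤ 1 / 10 := by
    rw [show -(15 * Real.log q) / 3 = -((5 : ℕ) * Real.log q) by push_cast; ring, Real.exp_neg,
      Real.exp_nat_mul, Real.exp_log q0, ← div_eq_mul_inv, div_le_iff₀ (by positivity)]
    refine G.card_pt_le.trans ?_
    have : 0 ≤ (q : ℝ) ^ 3 * ((q : ℝ) ^ 2 - 20) := mul_nonneg (by positivity) (by nlinarith)
    linarith
  obtain ⟨T, hT, k⟩ := exists_of_Pr_lt_one (((Pr_or h0 h1 _ _).trans (add_le_add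
    ((Pr_or h0 h1 _ _).trans (add_le_add (a1.trans a5) (a2.trans a5))) a3)).trans_lt (by norm_num))
  obtain ⟨k1, k3⟩ := not_or.1 k
  obtain ⟨k1, k2⟩ := not_or.1 k1
  rw [not_not] at k1 k2
  rw [inter_eq_left.2 hT] at k3
  refine ⟨T, hT, (not_le.1 k3).le, ?_⟩
  have b1 := G.Sparse1_cnt Z Prod.snd hx (D := 4 * d) (by positivity)
    (G.Pof (15 * Real.log q) T) fun a ha => (k1 a).2 (G.Sparse1_Pof.1 ha)
  have b2 := G.Sparse1_cnt Z Prod.fst hx (D := 4 * d) (by positivity)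
    (G.Pio (15 * Real.log q) T) fun b hb => by
      simpa only [G.symm b] using (k2 b).2 (G.Sparse1_Pio.1 hb)
  have b3 : Z \ G.bad x (15 * Real.log q) T ⊆
      (selIn Z fun u => u.2 ∉ G.low x (G.Pof (15 * Real.log q) T)) ∪
        selIn Z fun u => u.1 ∉ G.low x (G.Pio (15 * Real.log q) T) := fun z hz => by
    have c := (mem_sdiff.1 hz).1
    by_contra n
    rw [mem_union, mem_selIn, mem_selIn, not_or] at n
    exact (mem_sdiff.1 hz).2 (G.Sparse1_mbad.2 ⟨G.Sparse1_flag.1 (hZ.1 c),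
      G.Sparse1_Pof.2 ((k1 z.1).1 (Nat.cast_le.2 (hZ.2 z c).1)),
      G.Sparse1_Pio.2 ((k2 z.2).1 (Nat.cast_le.2 (hZ.2 z c).2)),
      not_not.1 fun o => n.1 ⟨c, o⟩, not_not.1 fun o => n.2 ⟨c, o⟩⟩)
  have b4 := (Nat.cast_le (α := ℝ)).2 ((card_le_card b3).trans (card_union_le _ _))
  rw [Nat.cast_add] at b4
  refine (b4.trans (add_le_add b1 b2)).trans (le_of_eq ?_)
  ring

theorem Sparse1_bad {x : ℝ} (hx : x ≤ 1 / 4) (m : ℝ) (T : Finset (Pt × Pt)) :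
    ∃ r : ℝ, 0 ≤ r ∧ r ≤ 3 / 2 * (q : ℝ) ^ 2 ∧ ((G.bad x m T).card : ℝ) ≤ 3 * q * r ∧
      r ^ 2 = ((G.Pof m T ∩ G.low x (G.Pio m T)).card : ℝ) *
        (G.Pio m T ∩ G.low x (G.Pof m T)).card := by
  have q0 : (0 : ℝ) < q := Nat.cast_pos.2 (lt_of_lt_of_le two_pos G.two_le)
  have h1 : G.bad x m T ⊆
      G.pool (G.Pof m T ∩ G.low x (G.Pio m T)) (G.Pio m T ∩ G.low x (G.Pof m T)) := fun z hz => by
    obtain ⟨a, b, c, d, e⟩ := G.Sparse1_mbad.1 hz
    exact G.Sparse1_pool.2 ⟨a, mem_inter.2 ⟨b, e⟩, mem_inter.2 ⟨c, d⟩⟩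
  have h2 := ((Nat.cast_le (α := ℝ)).2 (card_le_card h1)).trans (G.card_pool_le _ _)
  have h3 : ((G.Pof m T ∩ G.low x (G.Pio m T)).card : ℝ) *
      (G.Pio m T ∩ G.low x (G.Pof m T)).card ≤ (G.low x (G.Pio m T)).card * (G.Pio m T).card :=
    mul_le_mul (Nat.cast_le.2 (card_le_card inter_subset_right))
      (Nat.cast_le.2 (card_le_card inter_subset_left)) (Nat.cast_nonneg _) (Nat.cast_nonneg _)
  have h4 := G.card_low_le (x := x) (by linarith) (G.Pio m T)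
  have h5 : (0 : ℝ) ≤ ((G.Pof m T ∩ G.low x (G.Pio m T)).card : ℝ) *
    (G.Pio m T ∩ G.low x (G.Pof m T)).card := by positivity
  generalize ((G.Pof m T ∩ G.low x (G.Pio m T)).card : ℝ) *
    (G.Pio m T ∩ G.low x (G.Pof m T)).card = y at *
  have h6 : 9 / 16 ≤ (1 - x) ^ 2 := by nlinarith
  have h7 : y * (9 / 16) ≤ (q : ℝ) ^ 4 :=
    (mul_le_mul h3 h6 (by norm_num) (h5.trans h3)).trans h4
  have h8 : Real.sqrt y ≤ 3 / 2 * (q : ℝ) ^ 2 :=
    Real.sqrt_le_iff.2 ⟨by positivity, by nlinarith [pow_pos q0 4]⟩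
  refine ⟨Real.sqrt y, Real.sqrt_nonneg _, h8, h2.trans ?_, Real.sq_sqrt h5⟩
  have h9 : y / q ≤ 2 * q * Real.sqrt y := by
    rw [div_le_iff₀ q0]
    nlinarith [Real.mul_self_sqrt h5, mul_le_mul_of_nonneg_left h8 (Real.sqrt_nonneg y),
      mul_nonneg (Real.sqrt_nonneg y) (sq_nonneg (q : ℝ))]
  linarith

/-- `bad ⊆ pool (Pof ∩ low Pio) (Pio ∩ low Pof)`, the product of the sizes is at most `2 q^4`
(`card_low_le`), `card_pool_le` -/
theorem card_bad_le {x : ℝ} (hx : x ≤ 1 / 4) (m : ℝ) (T : Finset (Pt × Pt)) :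
    ((G.bad x m T).card : ℝ) ≤ 5 * (q : ℝ) ^ 3 := by
  obtain ⟨r, -, h1, h2, -⟩ := G.Sparse1_bad hx m T
  have q0 : (0 : ℝ) ≤ q := Nat.cast_nonneg _
  nlinarith [mul_le_mul_of_nonneg_left h1 q0, pow_nonneg q0 3]

theorem bad_subset_pool {x E : ℝ} (hx : x ≤ 1 / 4) (hE : 1 ≤ E) {F : Finset (Finset Pt)}
    (hF : G.Cont x (9 * E ^ 2) F) (m : ℝ) (T : Finset (Pt × Pt))
    (h : (q : ℝ) ^ 3 / E ≤ (G.bad x m T).card) :
    ∃ X ∈ F, ∃ Y ∈ F, G.bad x m T ⊆ G.pool X Y ∧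
      ((G.pool X Y).card : ℝ) ≤ 2700 * E ^ 2 * (q : ℝ) ^ 3 := by
  obtain ⟨r, r0, -, h2, h3⟩ := G.Sparse1_bad hx m T
  have q0 : (0 : ℝ) < q := Nat.cast_pos.2 (lt_of_lt_of_le two_pos G.two_le)
  have e0 : 0 < E := by linarith
  have a1 : (q : ℝ) ^ 2 ≤ 3 * E * r := by
    have := (div_le_iff₀ e0).1 (h.trans h2)
    exact le_of_mul_le_mul_left (by linarith) q0
  have a2 : (q : ℝ) ^ 4 ≤ r ^ 2 * (9 * E ^ 2) := by
    have := pow_le_pow_left₀ (by positivity) a1 2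
    linarith
  have c : ∀ {A B A' B' : Finset Pt}, A ⊆ A' → B ⊆ B' →
      (A.card : ℝ) * B.card ≤ A'.card * B'.card := fun k l =>
    mul_le_mul (Nat.cast_le.2 (card_le_card k)) (Nat.cast_le.2 (card_le_card l))
      (Nat.cast_nonneg _) (Nat.cast_nonneg _)
  have ext : ∀ P : Finset Pt, r ^ 2 ≤ ((G.low x P).card : ℝ) * P.card → G.Ext x P (9 * E ^ 2) :=
    fun P k => by
      have l := a2.trans (mul_le_mul_of_nonneg_right k (by positivity))
      refine ⟨nonempty_iff_ne_empty.2 fun n => ?_, l⟩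
      rw [n, card_empty, Nat.cast_zero, mul_zero, zero_mul] at l
      exact l.not_gt (by positivity)
  obtain ⟨Y, hY, y1, y2⟩ := hF _ (ext (G.Pof m T) (by
    rw [h3, mul_comm]; exact c inter_subset_right inter_subset_left))
  obtain ⟨X, hX, x1, x2⟩ := hF _ (ext (G.Pio m T) (by
    rw [h3]; exact c inter_subset_right inter_subset_left))
  refine ⟨X, hX, Y, hY, fun z hz => ?_, (G.card_pool_le X Y).trans ?_⟩
  · obtain ⟨a, -, -, d, e⟩ := G.Sparse1_mbad.1 hz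
    exact G.Sparse1_pool.2 ⟨a, x1 e, y1 d⟩
  have a3 : r ^ 2 ≤ ((G.Pof m T).card : ℝ) * (G.Pio m T).card := by
    rw [h3]; exact c inter_subset_left inter_subset_left
  have a4 : (X.card : ℝ) * Y.card * r ^ 2 ≤ 256 * (q : ℝ) ^ 8 := by
    have k := mul_le_mul x2 y2 (by positivity) (by positivity)
    have l := mul_le_mul_of_nonneg_left a3 (show (0 : ℝ) ≤ X.card * Y.card by positivity)
    linarith
  have a5 : (X.card : ℝ) * Y.card ≤ (48 * E * (q : ℝ) ^ 2) ^ 2 := by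
    have k := mul_le_mul_of_nonneg_left a2 (show (0 : ℝ) ≤ X.card * Y.card by positivity)
    have l := mul_le_mul_of_nonneg_right a4 (show (0 : ℝ) ≤ 9 * E ^ 2 by positivity)
    exact le_of_mul_le_mul_right (by linarith) (pow_pos q0 4)
  have a6 : Real.sqrt (X.card * Y.card) ≤ 48 * E * (q : ℝ) ^ 2 :=
    Real.sqrt_le_iff.2 ⟨by positivity, a5⟩
  have a7 : (X.card : ℝ) * Y.card / q ≤ 2304 * E ^ 2 * (q : ℝ) ^ 3 :=
    (div_le_iff₀ q0).2 (by linarith)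
  have a8 : E * (q : ℝ) ^ 3 ≤ E ^ 2 * (q : ℝ) ^ 3 :=
    mul_le_mul_of_nonneg_right (by nlinarith) (by positivity)
  have a9 := mul_le_mul_of_nonneg_left a6 q0.le
  have a10 : 0 ≤ E ^ 2 * (q : ℝ) ^ 3 := by positivity
  linarith

/-- Downward induction on `j`: for `Z' ⊆ Z` and `T'` with `|Z'| - ℓ ≤ |Z' ∩ bad T'|`,
`|Z| - (R - j) ℓ ≤ |Z'|` and `q^3 / exp (2^j) ≤ |bad T'|` put `Z'' = Z' ∩ bad T'`, take `T''` from
`sl`; stop if `j = 0` or `|bad T''| < q^3 exp (-2^(j-1))`, else continue with `j - 1`. Start: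
`bad T` is nonempty and `q^3 ≤ exp (2^R)`. -/
theorem rounds (hq : 1000 ≤ q) {x : ℝ} (hx : 0 < x) (hx' : x ≤ 1 / 4) {d R : ℕ}
    (hd : 15 * Real.log q ≤ d) (hR : 3 * Real.log q ≤ 2 ^ R) (F : ℕ → Finset (Finset Pt))
    (hF : ∀ j ≤ R, G.Cont x (9 * Real.exp (2 ^ j) ^ 2) (F j)) {Z : Finset (Pt × Pt)}
    (hZ : G.sparse d Z) (hl : 8 * d * q / x < Z.card) :
    ∃ j ≤ R, ∃ X ∈ F j, ∃ Y ∈ F j, ∃ T ⊆ Z, T ⊆ G.pool X Y ∧
      ((G.pool X Y).card : ℝ) ≤ 2700 * Real.exp (2 ^ j) ^ 2 * (q : ℝ) ^ 3 ∧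
      (T.card : ℝ) ≤ 150 * Real.log q * Z.card / d ∧
      ((G.bad x (15 * Real.log q) T).card : ℝ) ≤ 9 * Real.exp (-(2 ^ j / 2)) * (q : ℝ) ^ 3 ∧
      (Z.card : ℝ) - (R + 2) * (8 * d * q / x) ≤ (Z ∩ G.bad x (15 * Real.log q) T).card := by
  have q1 : (1000 : ℝ) ≤ q := by exact_mod_cast hq
  have q0 : (0 : ℝ) < q := by linarith
  have l0 : 0 ≤ Real.log q := Real.log_nonneg (by linarith)
  have e0 : 0 ≤ 8 * d * q / x := by positivity
  have cut : ∀ W B : Finset (Pt × Pt), ((W \ B).card : ℝ) ≤ 8 * d * q / x →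
      (W.card : ℝ) - 8 * d * q / x ≤ (W ∩ B).card := fun W B k => by
    have := congrArg (Nat.cast (R := ℝ)) (card_sdiff_add_card_inter W B)
    rw [Nat.cast_add] at this
    linarith
  have step : ∀ j ≤ R, ∀ W ⊆ Z, ∀ T', W ⊆ G.bad x (15 * Real.log q) T' →
      (Z.card : ℝ) - (R + 1 - j) * (8 * d * q / x) ≤ W.card →
      (q : ℝ) ^ 3 / Real.exp (2 ^ j) ≤ (G.bad x (15 * Real.log q) T').card →
      (∃ j ≤ R, ∃ X ∈ F j, ∃ Y ∈ F j, ∃ T ⊆ Z, T ⊆ G.pool X Y ∧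
        ((G.pool X Y).card : ℝ) ≤ 2700 * Real.exp (2 ^ j) ^ 2 * (q : ℝ) ^ 3 ∧
        (T.card : ℝ) ≤ 150 * Real.log q * Z.card / d ∧
        ((G.bad x (15 * Real.log q) T).card : ℝ) ≤ 9 * Real.exp (-(2 ^ j / 2)) * (q : ℝ) ^ 3 ∧
        (Z.card : ℝ) - (R + 2) * (8 * d * q / x) ≤ (Z ∩ G.bad x (15 * Real.log q) T).card) ∨
      ∃ T, (Z.card : ℝ) - (R + 2 - j) * (8 * d * q / x) ≤
          (W ∩ G.bad x (15 * Real.log q) T).card ∧
        9 * Real.exp (-(2 ^ j / 2)) * (q : ℝ) ^ 3 < (G.bad x (15 * Real.log q) T).card := by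
    intro j hj W hW T' w1 w2 w3
    obtain ⟨T, t1, t2, t3⟩ := G.sl hq hx hd (G.sparse_mono hZ hW)
    obtain ⟨X, hX, Y, hY, p1, p2⟩ := G.bad_subset_pool hx' (Real.one_le_exp (by positivity))
      (hF j hj) _ T' w3
    have t4 := cut W _ t3
    have t5 : (Z.card : ℝ) - (R + 2 - j) * (8 * d * q / x) ≤
      (W ∩ G.bad x (15 * Real.log q) T).card := by linarith
    rcases le_or_gt ((G.bad x (15 * Real.log q) T).card : ℝ)
      (9 * Real.exp (-(2 ^ j / 2)) * (q : ℝ) ^ 3) with k | k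
    · refine Or.inl ⟨j, hj, X, hX, Y, hY, T, t1.trans hW, (t1.trans w1).trans p1, p2,
        t2.trans ?_, k, ?_⟩
      · have := (Nat.cast_le (α := ℝ)).2 (card_le_card hW)
        gcongr
      · have a := (Nat.cast_le (α := ℝ)).2 (card_le_card
          (inter_subset_inter_right (u := G.bad x (15 * Real.log q) T) hW))
        have b := mul_nonneg (Nat.cast_nonneg (α := ℝ) j) e0
        linarith
    · exact Or.inr ⟨T, t5, k⟩
  have main : ∀ j ≤ R, ∀ W ⊆ Z, ∀ T', W ⊆ G.bad x (15 * Real.log q) T' →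
      (Z.card : ℝ) - (R + 1 - j) * (8 * d * q / x) ≤ W.card →
      (q : ℝ) ^ 3 / Real.exp (2 ^ j) ≤ (G.bad x (15 * Real.log q) T').card →
      ∃ j ≤ R, ∃ X ∈ F j, ∃ Y ∈ F j, ∃ T ⊆ Z, T ⊆ G.pool X Y ∧
        ((G.pool X Y).card : ℝ) ≤ 2700 * Real.exp (2 ^ j) ^ 2 * (q : ℝ) ^ 3 ∧
        (T.card : ℝ) ≤ 150 * Real.log q * Z.card / d ∧
        ((G.bad x (15 * Real.log q) T).card : ℝ) ≤ 9 * Real.exp (-(2 ^ j / 2)) * (q : ℝ) ^ 3 ∧
        (Z.card : ℝ) - (R + 2) * (8 * d * q / x) ≤ (Z ∩ G.bad x (15 * Real.log q) T).card := by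
    intro j
    induction j with
    | zero =>
      intro hj W hW T' w1 w2 w3
      refine (step 0 hj W hW T' w1 w2 w3).resolve_right ?_
      rintro ⟨T, -, k⟩
      have a : 3 / 4 ≤ Real.exp (-(1 / 4)) := by linarith [Real.add_one_le_exp (-(1 / 4) : ℝ)]
      have b : 9 / 16 ≤ Real.exp (-(2 ^ 0 / 2)) := by
        rw [show -((2 : ℝ) ^ 0 / 2) = -(1 / 4) + -(1 / 4) by norm_num, Real.exp_add]
        nlinarith
      have c := G.card_bad_le hx' (15 * Real.log q) T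
      nlinarith [pow_pos q0 3]
    | succ i ih =>
      intro hj W hW T' w1 w2 w3
      rcases step (i + 1) hj W hW T' w1 w2 w3 with k | ⟨T, k1, k2⟩
      · exact k
      refine ih (Nat.le_of_succ_le hj) (W ∩ G.bad x (15 * Real.log q) T)
        (inter_subset_left.trans hW) T inter_subset_right (le_trans (le_of_eq ?_) k1)
        (le_trans ?_ k2.le)
      · push_cast
        ring
      · rw [show -((2 : ℝ) ^ (i + 1) / 2) = -2 ^ i by ring, Real.exp_neg, div_eq_inv_mul]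
        have : 0 ≤ (Real.exp (2 ^ i))⁻¹ * (q : ℝ) ^ 3 := by positivity
        linarith
  obtain ⟨T, -, -, t3⟩ := G.sl hq hx hd hZ
  have t4 := cut Z _ t3
  refine main R le_rfl _ inter_subset_left T inter_subset_right (by linarith) ?_
  have a : 0 < (Z ∩ G.bad x (15 * Real.log q) T).card := (Nat.cast_pos (α := ℝ)).1 (by linarith)
  refine le_trans ((div_le_one (Real.exp_pos _)).2 ?_)
    (Nat.one_le_cast.2 (a.trans_le (card_le_card inter_subset_right)))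
  refine le_trans (le_of_eq ?_) (Real.exp_le_exp.2 hR)
  rw [show 3 * Real.log q = (3 : ℕ) * Real.log q by norm_num, Real.exp_nat_mul, Real.exp_log q0]

end PG
end Pool.Agent.Work.MP_e10cd8_co.Four
end

-- merged part: Pool.Agent.Work.MP_e10cd8_co.All.Val
section
/-! Valid samples (paper 3). -/

namespace Pool.Agent.Work.MP_e10cd8_co.All

open Finset Four

namespace GP

variable {q t : ℕ} {Pt : Type} [Fintype Pt] [DecidableEq Pt] (G : GP q t Pt)

/-- at most `|A| gs u` points, each with at most `gs (t + 1 - u)` hyperplanes; `gs_mul_le` -/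
theorem card_popP_le (T0 : Finset (Pt × Pt)) {u : ℕ} (h1 : 1 ≤ u) (h2 : u ≤ t) {A : Finset Pt}
    (hA : ∀ a ∈ A, G.rk (G.spn T0 a) = u) :
    ((G.popP T0 u A).card : ℝ) * q ≤ 4 * A.card * (q : ℝ) ^ t := by
  have hq := G.two_le
  have a1 : (G.popP T0 u A).card ≤ gs q (t + 1 - u) * (A.biUnion (G.spn T0)).card := by
    refine card_le_mul_card_image_of_maps_to (f := Prod.fst) (fun z hz => (mem_sel.1 hz).1) _
      fun a _ => ?_
    by_cases k : G.rk (G.spn T0 a) = u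
    · rw [← k, ← G.card_perp]
      refine card_le_card_of_injOn Prod.snd (fun z hz => ?_) fun z hz z' hz' e => ?_
      · obtain ⟨b1, b2⟩ := mem_filter.1 (mem_coe.1 hz)
        exact mem_coe.2 (G.mem_perp.2 (b2 ▸ (mem_sel.1 b1).2.2))
      · exact Prod.ext ((mem_filter.1 (mem_coe.1 hz)).2.trans
          (mem_filter.1 (mem_coe.1 hz')).2.symm) e
    · refine le_trans (card_eq_zero.2 (eq_empty_of_forall_notMem fun z hz => k ?_)).le
        (Nat.zero_le _)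
      obtain ⟨b1, b2⟩ := mem_filter.1 hz
      exact b2 ▸ (mem_sel.1 b1).2.1
  have a2 : (A.biUnion (G.spn T0)).card ≤ A.card * gs q u :=
    card_biUnion_le_card_mul _ _ _ fun a ha => by rw [G.card_spn, hA a ha]
  have a3 : (G.popP T0 u A).card * q * q ≤ 4 * A.card * q ^ t * q := by
    calc (G.popP T0 u A).card * q * q
        ≤ gs q (t + 1 - u) * (A.card * gs q u) * q * q := by
          gcongr
          exact a1.trans (Nat.mul_le_mul_left _ a2)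
      _ = A.card * ((gs q (t + 1 - u) * q) * (gs q u * q)) := by ring
      _ ≤ A.card * ((2 * q ^ (t + 1 - u)) * (2 * q ^ u)) :=
          Nat.mul_le_mul_left _ (Nat.mul_le_mul (gs_mul_le hq _) (gs_mul_le hq _))
      _ = 4 * A.card * (q ^ (t + 1 - u) * q ^ u) := by ring
      _ = _ := by rw [← pow_add, Nat.sub_add_cancel (by omega), pow_succ, mul_assoc (4 * A.card)]
  exact_mod_cast Nat.le_of_mul_le_mul_right a3 (by omega)

/-- A flag whose hyperplane is not low is new for more than `x |P'| / (2 q)` points of `P'` (double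
counting) or its point lies in the span of that many points of `P'` (`dominate2` with `m = M`). -/
theorem val_loss {T0 Z Z' : Finset (Pt × Pt)} {u d w M : ℕ} {x e : ℝ} (hx : 0 < x) (he : 0 ≤ e)
    (hC : G.Cl1 T0 u d Z) (hN : G.NoPop T0 u w M Z) (hM : 2 * (q : ℝ) ≤ x * M) (h' : Z' ⊆ Z)
    {P' : Finset Pt} (hP : ∀ a ∈ P', G.rk (G.spn T0 a) = u ∧ ((G.nw T0 Z' a).card : ℝ) ≤ e) :
    ((selIn Z' fun z => z.2 ∉ G.low x P').card : ℝ) ≤ 2 * e * q / x + 2 * w := by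
  have q0 : (0 : ℝ) < q := Nat.cast_pos.2 (lt_of_lt_of_le two_pos G.two_le)
  rcases P'.eq_empty_or_nonempty with rfl | hne
  · rw [eq_empty_of_forall_notMem (s := selIn Z' fun z => z.2 ∉ G.low x ∅) fun z hz =>
      (mem_selIn.1 hz).2 (G.mem_low.2 (by simp [cnt])), card_empty, Nat.cast_zero]
    positivity
  have p0 : (0 : ℝ) < P'.card := Nat.cast_pos.2 hne.card_pos
  obtain ⟨δ, hδ⟩ : ∃ δ, δ = x * P'.card / q / 2 := ⟨_, rfl⟩
  have δ0 : 0 < δ := by rw [hδ]; positivity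
  have a1 : ((selIn Z' fun z => δ ≤ (selIn P' fun a =>
      a ∈ G.pl z.2 ∧ z.1 ∉ G.spn T0 a).card).card : ℝ) ≤ 2 * e * q / x := by
    have b1 : ((selIn Z' fun z => δ ≤ (selIn P' fun a =>
        a ∈ G.pl z.2 ∧ z.1 ∉ G.spn T0 a).card).card : ℝ) * δ ≤ P'.card * e := by
      calc _ ≤ ∑ z ∈ selIn Z' fun z => δ ≤ (selIn P' fun a =>
              a ∈ G.pl z.2 ∧ z.1 ∉ G.spn T0 a).card,
              ((selIn P' fun a => a ∈ G.pl z.2 ∧ z.1 ∉ G.spn T0 a).card : ℝ) := by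
            rw [← nsmul_eq_mul]
            exact card_nsmul_le_sum _ _ _ fun z hz => (mem_selIn.1 hz).2
        _ ≤ ∑ z ∈ Z', ((selIn P' fun a => a ∈ G.pl z.2 ∧ z.1 ∉ G.spn T0 a).card : ℝ) :=
            sum_le_sum_of_subset_of_nonneg (selIn_subset _ _) fun _ _ _ => Nat.cast_nonneg _
        _ = ∑ a ∈ P', ((G.nw T0 Z' a).card : ℝ) := by
            simp only [nw, card_selIn]
            exact sum_comm
        _ ≤ _ := by
            rw [← nsmul_eq_mul]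
            exact sum_le_card_nsmul _ _ _ fun a ha => (hP a ha).2
    refine le_of_mul_le_mul_right (b1.trans (le_of_eq ?_)) δ0
    rw [hδ]
    field_simp
  obtain ⟨T, t1, t2, t3⟩ := dominate2 P' (selIn Z' fun z => δ ≤ (selIn P' fun a =>
      z.1 ∈ G.spn T0 a).card) (fun z a => z.1 ∈ G.spn T0 a) δ0 (fun z hz => (mem_selIn.1 hz).2) M
    (by
      rw [hδ, show x * P'.card / q / 2 * M = P'.card * (x * M / (2 * q)) by field_simp]
      exact le_mul_of_one_le_right p0.le ((one_le_div (by positivity)).2 hM))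
  have a2 := hN T t2 fun a ha => (hP a (t1 ha)).1
  have a3 : (selIn (selIn Z' fun z => δ ≤ (selIn P' fun a => z.1 ∈ G.spn T0 a).card)
      fun z => ∃ a ∈ T, z.1 ∈ G.spn T0 a) ⊆ Z ∩ G.popP T0 u T := fun z hz => by
    obtain ⟨b1, b2⟩ := mem_selIn.1 hz
    have b3 := h' (mem_selIn.1 b1).1
    exact mem_inter.2 ⟨b3, mem_sel.2 ⟨mem_biUnion.2 b2, hC.rank z b3, hC.sub z b3⟩⟩
  have a4 : ((selIn Z' fun z => δ ≤ (selIn P' fun a => z.1 ∈ G.spn T0 a).card).card : ℝ) ≤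
      2 * w := by
    have := card_le_card a3
    exact_mod_cast (show _ ≤ 2 * w by omega)
  refine le_trans ?_ (add_le_add a1 a4)
  rw [← Nat.cast_add, Nat.cast_le]
  refine le_trans (card_le_card fun z hz => ?_) (card_union_le _ _)
  obtain ⟨b1, b2⟩ := mem_selIn.1 hz
  rw [mem_low, not_le] at b2
  have b3 : G.cnt P' z.2 ≤ (selIn P' fun a => a ∈ G.pl z.2 ∧ z.1 ∉ G.spn T0 a).card +
      (selIn P' fun a => z.1 ∈ G.spn T0 a).card := by
    refine le_trans (card_le_card fun a ha => ?_) (card_union_le _ _)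
    obtain ⟨c1, c2⟩ := mem_inter.1 ha
    by_cases k : z.1 ∈ G.spn T0 a
    · exact mem_union_right _ (mem_selIn.2 ⟨c2, k⟩)
    · exact mem_union_left _ (mem_selIn.2 ⟨c2, c1, k⟩)
  have b4 := (Nat.cast_le (α := ℝ)).2 b3
  rw [Nat.cast_add] at b4
  by_contra n
  rw [mem_union, mem_selIn, mem_selIn, not_or, not_and, not_and] at n
  have c1 := not_le.1 (n.1 b1)
  have c2 := not_le.1 (n.2 b1)
  linarith

/-- sample `Z'` at rate `am0 / ad`; `Four.Sparse1_test` on both sides, `markov` for the size;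
`val_loss` with `e = 4 ad`, for the second side applied to the swapped sets -/
theorem smp {H D k : ℕ} (h : NP q t H D k) {x : ℝ} (hx : 1 / (H : ℝ) ≤ x)
    {T0 Z : Finset (Pt × Pt)} {u v : ℕ} (hZ : Z ⊆ G.flags) (hk : Z.card ≤ k)
    (h1 : G.Cl1 T0 u (ad q H k) Z) (h2 : G.Cl1 (sw T0) v (ad q H k) (sw Z))
    (n1 : G.NoPop T0 u (aw H k) (3 * H * q) Z)
    (n2 : G.NoPop (sw T0) v (aw H k) (3 * H * q) (sw Z)) :
    G.Smp (G.PPf T0 u (am0 q t)) (fun T => G.PPf (sw T0) v (am0 q t) (sw T)) x H k Z := by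
  intro Z' h'
  have q1 := h.q_ge
  have H1 := h.H_ge'
  have H2 := h.H_ge
  have k0 := h.k_pos
  have q0 : (0 : ℝ) < q := by linarith
  have H0 : (0 : ℝ) < H := by linarith
  have x0 : 0 < x := lt_of_lt_of_le (by positivity) hx
  have L0 : 0 < Real.log q := Real.log_pos (by linarith)
  have hm : 0 < am0 q t := by unfold am0; positivity
  have hd := h.am0_le
  have d0 : (0 : ℝ) < ad q H k := hm.trans_le hd
  have t0 : 0 < at0 q H := by unfold at0; positivity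
  have h0 : 0 ≤ am0 q t / ad q H k := by positivity
  have h01 : am0 q t / ad q H k ≤ 1 := (div_le_one d0).2 hd
  have a1 := PG.Sparse1_test Z' (fun (a : Pt) z => a ∈ G.pl z.2 ∧ z.1 ∉ G.spn T0 a) hm hd
  have a2 := PG.Sparse1_test Z' (fun (b : Pt) z => b ∈ G.pl z.1 ∧ z.2 ∉ G.spn (sw T0) b) hm hd
  have a3 := markov h0 h01 (Ω := Z') (f := fun T => ((T ∩ Z').card : ℝ))
    (fun _ _ => Nat.cast_nonneg _) t0
  rw [Ex_card, inter_self] at a3
  have a4 : am0 q t / ad q H k * Z'.card / at0 q H ≤ 1 / 10 := by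
    have b1 : (Z'.card : ℝ) ≤ k := by exact_mod_cast (card_le_card h').trans hk
    have b2 : (k : ℝ) ≤ ad q H k * (H ^ 3 * q) := (div_le_iff₀ (by positivity)).1 h.ad_ge
    have b3 : (30 : ℝ) * (t + 1) ≤ H := by
      have c1 : (1 : ℝ) ≤ t + 1 := by linarith [Nat.cast_nonneg (α := ℝ) t]
      have c2 : ((t : ℝ) + 1) ^ 1 ≤ (t + 1) ^ 4 := pow_le_pow_right₀ c1 (by norm_num)
      rw [pow_one] at c2
      linarith
    rw [div_le_iff₀ t0, div_mul_eq_mul_div, div_le_iff₀ d0]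
    calc am0 q t * Z'.card ≤ am0 q t * (ad q H k * (H ^ 3 * q)) :=
          mul_le_mul_of_nonneg_left (b1.trans b2) hm.le
      _ = (30 * (t + 1)) * (1 / 10 * (H ^ 3 * q * Real.log q) * ad q H k) := by
          unfold am0
          ring
      _ ≤ H * (1 / 10 * (H ^ 3 * q * Real.log q) * ad q H k) :=
          mul_le_mul_of_nonneg_right b3 (by positivity)
      _ = _ := by
          unfold at0
          ring
  have a5 : Fintype.card Pt * Real.exp (-am0 q t / 3) ≤ 1 / 10 := by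
    rw [show -am0 q t / 3 = -(((t + 1 : ℕ) : ℝ) * Real.log q) by unfold am0; push_cast; ring,
      Real.exp_neg, Real.exp_nat_mul, Real.exp_log q0, ← div_eq_mul_inv,
      div_le_iff₀ (by positivity), pow_succ]
    refine G.card_pt_le.trans ?_
    have : 0 ≤ (q : ℝ) ^ t * ((q : ℝ) - 20) := mul_nonneg (by positivity) (by linarith)
    linarith
  obtain ⟨T, hT, k'⟩ := exists_of_Pr_lt_one (((Pr_or h0 h01 _ _).trans (add_le_add
    ((Pr_or h0 h01 _ _).trans (add_le_add (a1.trans a5) (a2.trans a5))) (a3.trans a4))).trans_lt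
      (by norm_num))
  obtain ⟨k1, k3⟩ := not_or.1 k'
  obtain ⟨k1, k2⟩ := not_or.1 k1
  rw [not_not] at k1 k2
  rw [inter_eq_left.2 hT] at k3
  have e2 : ∀ (W : Finset (Pt × Pt)) (b : Pt), (G.nw (sw T0) (sw W) b).card =
      (selIn W fun z => b ∈ G.pl z.1 ∧ z.2 ∉ G.spn (sw T0) b).card := fun W b =>
    card_selIn_sw W _
  have hM : 2 * (q : ℝ) ≤ x * (3 * H * q : ℕ) := by
    have b1 : 1 ≤ x * H := (div_le_iff₀ H0).1 hx
    have b2 := mul_le_mul_of_nonneg_right b1 q0.le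
    push_cast
    linarith
  have hb : 2 * (4 * (ad q H k : ℝ)) * q / x + 2 * aw H k ≤ 5 * k / H := by
    have b1 : (ad q H k : ℝ) * (H ^ 3 * q) ≤ 2 * k := (le_div_iff₀ (by positivity)).1 h.ad_le
    have b2 : 2 * (4 * (ad q H k : ℝ)) * q / x ≤ 2 * (4 * (ad q H k : ℝ)) * q / (1 / H) :=
      div_le_div_of_nonneg_left (by positivity) (by positivity) hx
    have b3 : 2 * (4 * (ad q H k : ℝ)) * q / (1 / H) ≤ k / H := by
      rw [div_div_eq_mul_div, div_one, le_div_iff₀ H0]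
      refine le_of_mul_le_mul_right ?_ H0
      have c1 : 16 * (k : ℝ) ≤ k * H := by nlinarith
      nlinarith
    have b4 := h.aw_le
    have b5 : 5 * (k : ℝ) / H = k / H + 2 * (2 * k / H) := by ring
    linarith
  refine ⟨T, hT, (not_le.1 k3).le, fun z hz => ?_, fun P' hP' => ?_, fun Q' hQ' => ?_⟩
  · have z2 : z.swap ∈ sw Z := mem_sw.2 (by rwa [Prod.swap_swap])
    refine G.mem_pool.2 ⟨G.mem_flags.1 (hZ hz), mem_sel.2 ⟨h1.rank z hz, (k1 z.1).1 ?_⟩,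
      mem_sel.2 ⟨h2.rank z.swap z2, ?_⟩⟩
    · exact Nat.cast_le.2 ((PG.Sparse1_sel h' _).trans (h1.few z hz))
    · rw [e2]
      refine (k2 z.2).1 (Nat.cast_le.2 ((PG.Sparse1_sel h' _).trans ?_))
      rw [← e2]
      exact h2.few z.swap z2
  · refine (G.val_loss x0 (by positivity) h1 n1 hM h' fun a ha => ?_).trans hb
    obtain ⟨c1, c2⟩ := mem_sel.1 (hP' ha)
    exact ⟨c1, (k1 a).2 c2⟩
  · have := G.val_loss x0 (e := 4 * (ad q H k : ℝ)) (by positivity) h2 n2 hM (sw_mono h')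
      (P' := Q') fun b hb => by
        obtain ⟨c1, c2⟩ := mem_sel.1 (hQ' hb)
        rw [e2] at c2 ⊢
        exact ⟨c1, (k2 b).2 c2⟩
    rw [card_selIn_sw] at this
    exact this.trans hb

theorem valid_BB {PP QQ : Finset (Pt × Pt) → Finset Pt} {x : ℝ} {H k : ℕ}
    {Z Z' T : Finset (Pt × Pt)} (h' : Z' ⊆ Z) (hv : G.Valid PP QQ x H k Z Z' T) :
    (Z'.card : ℝ) - 10 * k / H ≤ (Z ∩ G.BB x (PP T) (QQ T)).card := by
  have a1 := hv.lp _ Subset.rfl
  have a2 := hv.lq _ Subset.rfl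
  have a3 : Z' ⊆ (Z ∩ G.BB x (PP T) (QQ T)) ∪ ((selIn Z' fun z => z.2 ∉ G.low x (PP T)) ∪
      selIn Z' fun z => z.1 ∉ G.low x (QQ T)) := fun z hz => by
    by_contra n
    rw [mem_union, mem_union, mem_selIn, mem_selIn, not_or, not_or, not_and, not_and] at n
    obtain ⟨c1, c2, c3⟩ := G.mem_pool.1 (hv.all (h' hz))
    exact n.1 (mem_inter.2 ⟨h' hz, G.mem_pool.2 ⟨c1, mem_inter.2 ⟨c2, not_not.1 (n.2.2 hz)⟩,
      mem_inter.2 ⟨c3, not_not.1 (n.2.1 hz)⟩⟩⟩)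
  have a4 := (Nat.cast_le (α := ℝ)).2 ((card_le_card a3).trans ((card_union_le _ _).trans
    (Nat.add_le_add_left (card_union_le _ _) _)))
  rw [Nat.cast_add, Nat.cast_add] at a4
  have a5 : 10 * (k : ℝ) / H = 5 * k / H + 5 * k / H := by ring
  linarith

end GP

end Pool.Agent.Work.MP_e10cd8_co.All
end

-- merged part: Pool.Agent.Work.MP_e10cd8_co.All.Red
section
/-! The fine reduction and the pools of parents (paper 5). -/

namespace Pool.Agent.Work.MP_e10cd8_co.All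

open Finset Four

theorem Red_cover {α : Type} {A B C : Finset α} (h : ∀ a ∈ A, a ∈ B ∨ a ∈ C) :
    A.card ≤ B.card + C.card := by
  classical
  exact (card_le_card fun a ha => mem_union.2 (h a ha)).trans (card_union_le _ _)

theorem Red_swap {α : Type} (A : Finset α) (r : α → α → Prop) :
    ∑ a ∈ A, (selIn A fun b => r a b).card = ∑ b ∈ A, (selIn A fun a => r a b).card := by
  have : ((∑ a ∈ A, (selIn A fun b => r a b).card : ℕ) : ℝ) =
      ((∑ b ∈ A, (selIn A fun a => r a b).card : ℕ) : ℝ) := by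
    push_cast
    simp only [card_selIn]
    exact sum_comm
  exact_mod_cast this

namespace GP

variable {q t : ℕ} {Pt : Type} [Fintype Pt] [DecidableEq Pt] (G : GP q t Pt)

/-- `δ z` = number of `u ∈ Z2`, `u ≠ z`, with `z.1 ∈ pl u.2` (equivalently `u.1 ∈ pl z.2`); `s*` the
least value with half of `Z2` at or below it, `s = max s* (16 D)`. A neighbour `z'` of `z` that is
not a parent has `z ∈ nw T Z2 z'.1` or `z.swap ∈ nw (sw T) (sw Z2) z'.2`, so there are at most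
`2 D |Z2|` such pairs and at most `|Z2| / 4` flags with more than `s / 2` of them. -/
theorem red2 {T Z2 : Finset (Pt × Pt)} {u v D : ℕ} (hZ : G.indep Z2) (h1 : G.Cl1 T u D Z2)
    (h2 : G.Cl1 (sw T) v D (sw Z2)) :
    ∃ s, 16 * D ≤ s ∧ ∃ Zs ⊆ Z2, Z2.card ≤ 2 * Zs.card ∧ G.sparse (s + 1) Zs ∧
      (s = 16 * D ∨ ∃ Zl ⊆ Z2, Z2.card ≤ 4 * Zl.card ∧
        ∀ z ∈ Zl, s ≤ 2 * (selIn Z2 fun z' => G.par T z' z).card) := by
  classical
  let δ : Pt × Pt → ℕ := fun z => (selIn Z2 fun w => w ≠ z ∧ z.1 ∈ G.pl w.2).card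
  let np : Pt × Pt → ℕ := fun z => (selIn Z2 fun w => z.1 ∈ G.pl w.2 ∧ ¬ G.par T w z).card
  have hex : ∃ s, Z2.card ≤ 2 * (selIn Z2 fun z => δ z ≤ s).card := by
    refine ⟨Z2.card, ?_⟩
    have : Z2.card ≤ (selIn Z2 fun z => δ z ≤ Z2.card).card :=
      card_le_card fun z hz => mem_selIn.2 ⟨hz, card_le_card (selIn_subset _ _)⟩
    omega
  have hsum : ∑ z ∈ Z2, np z ≤ Z2.card * (2 * D) := by
    rw [Red_swap Z2 fun z w => z.1 ∈ G.pl w.2 ∧ ¬ G.par T w z, ← smul_eq_mul]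
    refine sum_le_card_nsmul _ _ _ fun w hw => ?_
    have e1 := h1.few w hw
    have e2 := h2.few w.swap (mem_sw.2 (by rwa [Prod.swap_swap]))
    rw [← card_sw] at e2
    have := Red_cover (A := selIn Z2 fun z => z.1 ∈ G.pl w.2 ∧ ¬ G.par T w z)
      (B := G.nw T Z2 w.1) (C := sw (G.nw (sw T) (sw Z2) w.swap.1)) fun z hz => by
        obtain ⟨hz, k1, k2⟩ := mem_selIn.1 hz
        by_cases k : z.1 ∈ G.spn T w.1
        · exact Or.inr (mem_sw.2 (mem_selIn.2 ⟨mem_sw.2 (by rwa [Prod.swap_swap]),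
            (G.symm _ _).1 k1, fun k' => k2 ⟨k, k'⟩⟩))
        · exact Or.inl (mem_selIn.2 ⟨hz, (hZ.2 z hz w hw).1 k1, k⟩)
    omega
  obtain ⟨s, hs⟩ : ∃ s, s = max (Nat.find hex) (16 * D) := ⟨_, rfl⟩
  refine ⟨s, hs ▸ le_max_right _ _, selIn Z2 fun z => δ z ≤ s, selIn_subset _ _, ?_, ?_, ?_⟩
  · refine (Nat.find_spec hex).trans (Nat.mul_le_mul_left _ (card_le_card fun z hz => ?_))
    exact mem_selIn.2 ⟨(mem_selIn.1 hz).1, (mem_selIn.1 hz).2.trans (hs ▸ le_max_left _ _)⟩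
  · have key : ∀ z ∈ selIn Z2 fun z => δ z ≤ s, ∀ A : Finset (Pt × Pt),
        (∀ w ∈ A, w ∈ Z2 ∧ z.1 ∈ G.pl w.2) → A.card ≤ s + 1 := fun z hz A hA => by
      have e : δ z ≤ s := (mem_selIn.1 hz).2
      have := Red_cover (A := A) (B := selIn Z2 fun w => w ≠ z ∧ z.1 ∈ G.pl w.2) (C := {z})
        fun w hw => by
          by_cases k : w = z
          · exact Or.inr (mem_singleton.2 k)
          · exact Or.inl (mem_selIn.2 ⟨(hA w hw).1, k, (hA w hw).2⟩)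
      rw [card_singleton] at this
      exact this.trans (Nat.add_le_add_right e 1)
    refine ⟨(selIn_subset _ _).trans hZ.1, fun z hz => ⟨key z hz _ fun w hw => ?_,
      key z hz _ fun w hw => ?_⟩⟩
    · exact ⟨(mem_selIn.1 (mem_selIn.1 hw).1).1, (mem_selIn.1 hw).2⟩
    · have k := (mem_selIn.1 (mem_selIn.1 hw).1).1
      exact ⟨k, (hZ.2 w k z (mem_selIn.1 hz).1).1 (mem_selIn.1 hw).2⟩
  · by_cases hc : s = 16 * D
    · exact Or.inl hc
    have hs1 : s = Nat.find hex := by omega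
    have hs2 : 16 * D + 1 ≤ s := by omega
    have hmin := Nat.find_min hex (m := s - 1) (by omega)
    refine Or.inr ⟨selIn Z2 fun z => s ≤ δ z ∧ 2 * np z ≤ s, selIn_subset _ _, ?_, fun z hz => ?_⟩
    · have b1 : (selIn Z2 fun z => s < 2 * np z).card * s ≤ 2 * ∑ z ∈ Z2, np z := by
        rw [← smul_eq_mul, mul_sum]
        exact (card_nsmul_le_sum _ _ _ fun z hz => (mem_selIn.1 hz).2.le).trans
          (sum_le_sum_of_subset (selIn_subset _ _))
      have b2 : 4 * (selIn Z2 fun z => s < 2 * np z).card ≤ Z2.card := by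
        refine Nat.le_of_mul_le_mul_right (c := 16 * D + 1) ?_ (by omega)
        have := Nat.mul_le_mul_left (selIn Z2 fun z => s < 2 * np z).card hs2
        nlinarith
      have b3 := Red_cover (A := Z2) (B := selIn Z2 fun z => δ z ≤ s - 1)
        (C := selIn Z2 fun z => s ≤ δ z) fun z hz => by
          simp only [mem_selIn, hz, true_and]
          omega
      have b4 := Red_cover (A := selIn Z2 fun z => s ≤ δ z)
        (B := selIn Z2 fun z => s ≤ δ z ∧ 2 * np z ≤ s) (C := selIn Z2 fun z => s < 2 * np z)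
        fun z hz => by
          obtain ⟨k1, k2⟩ := mem_selIn.1 hz
          simp only [mem_selIn, k1, k2, true_and]
          omega
      omega
    · obtain ⟨-, k1, k2⟩ := mem_selIn.1 hz
      have : δ z ≤ (selIn Z2 fun z' => G.par T z' z).card + np z :=
        Red_cover fun w hw => by
          obtain ⟨e1, -, e2⟩ := mem_selIn.1 hw
          by_cases k : G.par T w z
          · exact Or.inl (mem_selIn.2 ⟨e1, k⟩)
          · exact Or.inr (mem_selIn.2 ⟨e1, e2, k⟩)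
      omega

/-- `span_class` with `d = D`, `red2`, `fine_le`, `H_ge` -/
theorem exists_fine {H D k : ℕ} (h : NP q t H D k) {Z : Finset (Pt × Pt)} (hZ : G.indep Z)
    (hk : Z.card ≤ k) (hk' : k ≤ 2 * t ^ 2 * Z.card) :
    ∃ T2 Z2 Zs u v s, G.Fine H D k Z T2 Z2 Zs u v s ∧
      (s = 16 * D ∨ ∃ Zl, G.Kids H k T2 Z2 Zl s) := by
  have hH := h.H_ge
  have hH' := h.H_ge'
  have hD := h.D_ge
  have hD0 : (0 : ℝ) < D := lt_of_lt_of_le (by positivity) hD
  have hD1 : 1 ≤ D := by exact_mod_cast hD0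
  obtain ⟨T2, t2, t2c, u, v, Z2, z2, z2c, c1, c2⟩ := G.span_class hZ hD1
  obtain ⟨s, s16, Zs, zs, zsc, sp, hs⟩ := G.red2 (G.indep_mono hZ z2) c1 c2
  have hH0 : (0 : ℝ) < H := lt_of_lt_of_le (by positivity) hH'
  have ht : (0 : ℝ) ≤ t := Nat.cast_nonneg t
  have ht4 : (t : ℝ) ^ 4 ≤ (t + 1) ^ 4 := pow_le_pow_left₀ ht (by linarith) 4
  have main : ∀ n : ℕ, Z2.card ≤ 4 * n → 10000 * (k : ℝ) / H ≤ n := fun n hn => by
    have e1 : k ≤ 2 * t ^ 2 * (2 * t ^ 2 * (4 * n)) :=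
      hk'.trans (Nat.mul_le_mul_left _ (z2c.trans (Nat.mul_le_mul_left _ hn)))
    have e2 : (k : ℝ) ≤ 16 * (t : ℝ) ^ 4 * n := by
      have : (k : ℝ) ≤ 2 * (t : ℝ) ^ 2 * (2 * (t : ℝ) ^ 2 * (4 * n)) := by exact_mod_cast e1
      linarith
    have e3 : 160000 * (t : ℝ) ^ 4 ≤ H := by
      have : (0 : ℝ) ≤ (t : ℝ) ^ 4 := by positivity
      linarith
    have e4 := mul_le_mul_of_nonneg_right e3 (Nat.cast_nonneg (α := ℝ) n)
    rw [div_le_iff₀ hH0]
    linarith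
  have small : 1000 * (k : ℝ) / H ≤ 10000 * (k : ℝ) / H :=
    div_le_div_of_nonneg_right (by linarith [Nat.cast_nonneg (α := ℝ) k]) hH0.le
  refine ⟨T2, Z2, Zs, u, v, s, ⟨hk, small.trans (main _ ?_), t2, ?_, z2, c1, c2, s16, zs,
    small.trans (main _ (by omega)), sp⟩, hs.imp_right ?_⟩
  · have := card_le_card z2
    omega
  · have e1 : T2.card * D ≤ 8 * (t + 1) * k := t2c.trans (Nat.mul_le_mul_left _ hk)
    have e2 : (T2.card : ℝ) * D ≤ 8 * (t + 1) * k := by exact_mod_cast e1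
    have e3 := h.fine_le
    refine le_of_mul_le_mul_left ?_ hD0
    linarith
  · rintro ⟨Zl, zl, zlc, hm⟩
    exact ⟨Zl, zl, main _ zlc, hm⟩

theorem Red_mem (T : Finset (Pt × Pt)) (P Q : Finset Pt) (z' z : Pt × Pt) :
    z ∈ G.ppool T P Q z' ↔ z.1 ∈ G.spn T z'.1 ∩ P ∧ z.2 ∈ G.spn (sw T) z'.2 ∩ Q ∧
      G.rk (G.spn T z.1) = G.rk (G.spn T z'.1) ∧ G.spn T z.1 ⊆ G.pl z.2 ∧
      G.rk (G.spn (sw T) z.2) = G.rk (G.spn (sw T) z'.2) ∧ G.spn (sw T) z.2 ⊆ G.pl z.1 := by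
  rw [ppool, mem_sel]

theorem mem_ppool {T Z2 : Finset (Pt × Pt)} {u v D : ℕ} (h1 : G.Cl1 T u D Z2)
    (h2 : G.Cl1 (sw T) v D (sw Z2)) {P Q : Finset Pt} {z z' : Pt × Pt} (hz : z ∈ Z2)
    (hz' : z' ∈ Z2) (hp : z ∈ G.pool P Q) (h : G.par T z' z) : z ∈ G.ppool T P Q z' := by
  obtain ⟨a, b⟩ := z
  obtain ⟨a', b'⟩ := z'
  obtain ⟨-, p1, p2⟩ := G.mem_pool.1 hp
  have r1 := h2.rank (b, a) (mem_sw.2 hz)
  have r2 := h2.rank (b', a') (mem_sw.2 hz')
  have r3 := h2.sub (b, a) (mem_sw.2 hz)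
  exact (G.Red_mem T P Q _ _).2 ⟨mem_inter.2 ⟨h.1, p1⟩, mem_inter.2 ⟨h.2, p2⟩,
    (h1.rank _ hz).trans (h1.rank _ hz').symm, h1.sub _ hz, r1.trans r2.symm, r3⟩

theorem Red_fib (T W : Finset (Pt × Pt)) (X : Finset Pt) {u : ℕ} (hu' : u ≤ t)
    (h : ∀ z ∈ W, z.1 ∈ X ∧ G.rk (G.spn T z.1) = u ∧ G.spn T z.1 ⊆ G.pl z.2) :
    (W.card : ℝ) * (q : ℝ) ^ u ≤ 2 * X.card * (q : ℝ) ^ t := by
  have e1 : W.card ≤ 2 * q ^ (t - u) * X.card := by
    refine card_le_mul_card_image_of_maps_to (f := Prod.fst) (fun z hz => (h z hz).1) _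
      fun a _ => ?_
    rcases (W.filter fun z => z.1 = a).eq_empty_or_nonempty with k | ⟨w, hw⟩
    · rw [k]
      exact Nat.zero_le _
    · obtain ⟨hw', rfl⟩ := mem_filter.1 hw
      have e : (G.perp (G.spn T w.1)).card ≤ 2 * q ^ (t - u) := by
        rw [card_perp, (h w hw').2.1, show t + 1 - u = t - u + 1 by omega]
        exact (gs_succ_le G.two_le _).2
      refine (card_le_card_of_injOn Prod.snd (fun z hz => ?_) fun z hz y hy k => ?_).trans e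
      · obtain ⟨k1, k2⟩ := mem_filter.1 (mem_coe.1 hz)
        exact mem_coe.2 (G.mem_perp.2 (k2 ▸ (h z k1).2.2))
      · exact Prod.ext ((mem_filter.1 (mem_coe.1 hz)).2.trans
          (mem_filter.1 (mem_coe.1 hy)).2.symm) k
  have e2 : W.card * q ^ u ≤ 2 * X.card * q ^ t := by
    have e3 : q ^ t = q ^ (t - u) * q ^ u := by rw [← pow_add, Nat.sub_add_cancel hu']
    calc W.card * q ^ u ≤ 2 * q ^ (t - u) * X.card * q ^ u := Nat.mul_le_mul_right _ e1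
      _ = 2 * X.card * q ^ t := by rw [e3]; ring
  exact_mod_cast e2

/-- each point has at most `gs (t + 1 - u)` hyperplanes containing its span -/
theorem card_ppool_left (T : Finset (Pt × Pt)) (P Q : Finset Pt) (z' : Pt × Pt) {u : ℕ}
    (hu : G.rk (G.spn T z'.1) = u) (hu' : u ≤ t) :
    ((G.ppool T P Q z').card : ℝ) * (q : ℝ) ^ u ≤
      2 * (G.spn T z'.1 ∩ P).card * (q : ℝ) ^ t := by
  refine G.Red_fib T _ _ hu' fun z hz => ?_
  obtain ⟨k1, -, k2, k3, -⟩ := (G.Red_mem T P Q z' z).1 hz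
  exact ⟨k1, k2.trans hu, k3⟩

theorem card_ppool_right (T : Finset (Pt × Pt)) (P Q : Finset Pt) (z' : Pt × Pt) {v : ℕ}
    (hv : G.rk (G.spn (sw T) z'.2) = v) (hv' : v ≤ t) :
    ((G.ppool T P Q z').card : ℝ) * (q : ℝ) ^ v ≤
      2 * (G.spn (sw T) z'.2 ∩ Q).card * (q : ℝ) ^ t := by
  rw [← card_sw]
  refine G.Red_fib (sw T) _ _ hv' fun z hz => ?_
  obtain ⟨-, k1, -, -, k2, k3⟩ := (G.Red_mem T P Q z' _).1 (mem_sw.1 hz)
  exact ⟨k1, k2.trans hv, k3⟩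

theorem card_ppool_tiny (T : Finset (Pt × Pt)) (P Q : Finset Pt) (z' : Pt × Pt)
    (h : G.rk (G.spn T z'.1) + G.rk (G.spn (sw T) z'.2) ≤ t) :
    ((G.ppool T P Q z').card : ℝ) * (q : ℝ) ^ 2 ≤ 4 * (q : ℝ) ^ t := by
  have e1 : (G.ppool T P Q z').card ≤ (G.spn T z'.1).card * (G.spn (sw T) z'.2).card := by
    rw [← card_product]
    refine card_le_card fun z hz => ?_
    obtain ⟨k1, k2, -⟩ := (G.Red_mem T P Q z' z).1 hz
    exact mem_product.2 ⟨(mem_inter.1 k1).1, (mem_inter.1 k2).1⟩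
  rw [card_spn, card_spn] at e1
  have e2 := Nat.mul_le_mul (gs_mul_le G.two_le (G.rk (G.spn T z'.1)))
    (gs_mul_le G.two_le (G.rk (G.spn (sw T) z'.2)))
  have e3 := Nat.pow_le_pow_right (n := q) (by have := G.two_le; omega) h
  rw [pow_add] at e3
  have e4 : (G.ppool T P Q z').card * q ^ 2 ≤ 4 * q ^ t := by
    have := Nat.mul_le_mul_right (q ^ 2) e1
    nlinarith
  exact_mod_cast e4

end GP

end Pool.Agent.Work.MP_e10cd8_co.All
end

-- merged part: Pool.Agent.Work.MP_e10cd8_co.Exact.St2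
section
/-! The second sample, whose tests fail only on average (paper G). -/

namespace Pool.Agent.Work.MP_e10cd8_co.Four
namespace PG
open Finset

variable {q : ℕ} {Pt : Type} [Fintype Pt] [DecidableEq Pt] (G : PG q Pt)

/-- Markov for five statistics at once -/
theorem St2_pick {ι : Type} [DecidableEq ι] {η : ℝ} (h0 : 0 ≤ η) (h1 : η ≤ 1) {Z : Finset ι}
    {f1 f2 f3 f4 f5 : Finset ι → ℝ} {t1 t2 t3 t4 t5 : ℝ} (e1 : Ex η Z f1 ≤ t1) (e2 : Ex η Z f2 ≤ t2)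
    (e3 : Ex η Z f3 ≤ t3) (e4 : Ex η Z f4 ≤ t4) (e5 : Ex η Z f5 ≤ t5)
    (hf : ∀ T, 0 ≤ f1 T ∧ 0 ≤ f2 T ∧ 0 ≤ f3 T ∧ 0 ≤ f4 T ∧ 0 ≤ f5 T) (p1 : 0 < t1) (p2 : 0 < t2)
    (p3 : 0 < t3) (p4 : 0 < t4) (p5 : 0 < t5) :
    ∃ T ⊆ Z, f1 T ≤ 5 * t1 ∧ f2 T ≤ 5 * t2 ∧ f3 T ≤ 5 * t3 ∧ f4 T ≤ 5 * t4 ∧ f5 T ≤ 5 * t5 := by
  obtain ⟨T, hT, k⟩ := exists_ge_Ex (Ω := Z) h0 h1 fun T =>
    -1 * (t1⁻¹ * f1 T + t2⁻¹ * f2 T + t3⁻¹ * f3 T + t4⁻¹ * f4 T + t5⁻¹ * f5 T)
  simp only [Ex_mul_left, Ex_add] at k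
  obtain ⟨a1, a2, a3, a4, a5⟩ := hf T
  have c : ∀ {t y : ℝ}, 0 < t → t⁻¹ * y ≤ 5 → y ≤ 5 * t := fun h l =>
    ((inv_mul_le_iff₀ h).1 l).trans_eq (mul_comm _ _)
  refine ⟨T, hT, c p1 ?_, c p2 ?_, c p3 ?_, c p4 ?_, c p5 ?_⟩ <;>
    linarith [(inv_mul_le_one₀ p1).2 e1, (inv_mul_le_one₀ p2).2 e2, (inv_mul_le_one₀ p3).2 e3,
      (inv_mul_le_one₀ p4).2 e4, (inv_mul_le_one₀ p5).2 e5, mul_nonneg (inv_pos.2 p1).le a1,
      mul_nonneg (inv_pos.2 p2).le a2, mul_nonneg (inv_pos.2 p3).le a3,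
      mul_nonneg (inv_pos.2 p4).le a4, mul_nonneg (inv_pos.2 p5).le a5]

/-- the two tests on one side -/
theorem St2_side {ι κ : Type} [DecidableEq ι] (Z : Finset ι) (p : κ → ι → Prop) (g : ι → κ)
    (X : Finset κ) {m d : ℝ} (hm : 15 ≤ m) (hd : m ≤ d)
    (hg : ∀ z ∈ Z, ((selIn Z (p (g z))).card : ℝ) ≤ d) :
    Ex (m / d) Z (fun T => ((selIn Z fun z =>
        ¬ ((selIn T (p (g z))).card : ℝ) ≤ 2 * m).card : ℝ)) ≤ Z.card * Real.exp (-m / 3) ∧
      Ex (m / d) Z (fun T => ∑ a ∈ X, ((selIn Z (p a)).card : ℝ) *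
        ind (((selIn T (p a)).card : ℝ) ≤ 2 * m ∧ 4 * d ≤ (selIn Z (p a)).card)) ≤
        X.card * (9 * d * Real.exp (-m / 6)) := by
  have m0 : 0 < m := by linarith
  have d0 : 0 < d := m0.trans_le hd
  have h0 : 0 ≤ m / d := by positivity
  have h1 : m / d ≤ 1 := (div_le_one d0).2 hd
  have e : ∀ a, ∀ T ⊆ Z, T ∩ selIn Z (p a) = selIn T (p a) := fun a T hT => by
    ext u
    simp only [mem_inter, mem_selIn]
    exact ⟨fun k => ⟨k.1, k.2.2⟩, fun k => ⟨k.1, hT k.1, k.2⟩⟩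
  have e' : ∀ a, selIn Z (p a) ∩ Z = selIn Z (p a) := fun a => inter_eq_left.2 (selIn_subset _ _)
  rw [Ex_card_selIn, Ex_sum, ← nsmul_eq_mul, ← nsmul_eq_mul]
  refine ⟨sum_le_card_nsmul _ _ _ fun z hz => ?_, sum_le_card_nsmul _ _ _ fun a _ => ?_⟩
  · refine (Pr_mono h0 h1 fun T hT n => ?_).trans (thr_up h0 h1 (selIn Z (p (g z))) m0.le ?_)
    · rw [e _ T hT]
      exact not_le.1 n
    · rw [e']
      exact (mul_le_mul_of_nonneg_left (hg z hz) h0).trans (div_mul_cancel₀ m d0.ne').le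
  rw [Ex_mul_left]
  by_cases k : 4 * d ≤ (selIn Z (p a)).card
  swap
  · rw [Ex_congr (g := fun _ => 0) fun T _ => ind_neg fun o => k o.2, Ex_const, mul_zero]
    positivity
  obtain ⟨u, hu⟩ : ∃ u, ((selIn Z (p a)).card : ℝ) = d * u := ⟨_, (mul_div_cancel₀ _ d0.ne').symm⟩
  have u4 : 4 ≤ u := le_of_mul_le_mul_left (by linarith) d0
  have a1 := (Pr_mono (p := fun T => ((selIn T (p a)).card : ℝ) ≤ 2 * m ∧
    4 * d ≤ (selIn Z (p a)).card) h0 h1 fun T hT n => by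
      rw [e _ T hT]
      nlinarith [n.1]).trans (thr_down (Ω := Z) h0 h1 (selIn Z (p a)) (m := m * u / 4)
        (by positivity) (le_of_eq (by rw [e', hu]; field_simp)))
  refine (mul_le_mul_of_nonneg_left a1 (Nat.cast_nonneg _)).trans ?_
  have a2 := Real.add_one_le_exp (m * (u - 2) / 12)
  rw [hu, show -m / 6 = m * (u - 2) / 12 + -(m * u / 4) / 3 by ring, Real.exp_add, ← mul_assoc,
    mul_comm 9 d, mul_assoc d 9]
  gcongr
  nlinarith

/-- double counting from an average bound -/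
theorem St2_cnt {ι : Type} (Z : Finset ι) (f : ι → Pt) (p : Pt → ι → Prop)
    (hp : ∀ a u, p a u ↔ a ∈ G.pl (f u)) (c : Pt → Prop) {x d r : ℝ} (hd : 0 ≤ d)
    {P X : Finset Pt} (hP : P ⊆ X) (hc : ∀ a ∈ P, c a) (r0 : 0 ≤ r) (hr : r * X.card < P.card)
    (h : ∑ a ∈ X, ((selIn Z (p a)).card : ℝ) * ind (c a ∧ 4 * d ≤ (selIn Z (p a)).card) ≤
      5 * (X.card * (9 * d * r))) :
    x * (selIn Z fun u => f u ∉ G.low x P).card ≤ 49 * d * q := by
  have q0 : (0 : ℝ) < q := Nat.cast_pos.2 (lt_of_lt_of_le two_pos G.two_le)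
  have p0 : (0 : ℝ) < P.card := lt_of_le_of_lt (by positivity) hr
  have e : ∀ u, (G.cnt P (f u) : ℝ) = ∑ a ∈ P, ind (p a u) := fun u => by
    rw [← card_selIn, cnt]
    refine congrArg _ (congrArg _ ?_)
    ext a
    rw [mem_inter, mem_selIn, and_comm, hp]
  have h1 : ((selIn Z fun u => f u ∉ G.low x P).card : ℝ) * (x * P.card / q) ≤
      P.card * (4 * d) + 5 * (X.card * (9 * d * r)) := by
    calc _ ≤ ∑ u ∈ selIn Z fun u => f u ∉ G.low x P, (G.cnt P (f u) : ℝ) := by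
          rw [← nsmul_eq_mul]
          exact card_nsmul_le_sum _ _ _ fun u hu =>
            (not_le.1 fun k => (mem_selIn.1 hu).2 (G.mem_low.2 k)).le
      _ ≤ ∑ u ∈ Z, (G.cnt P (f u) : ℝ) :=
          sum_le_sum_of_subset_of_nonneg (selIn_subset _ _) fun _ _ _ => Nat.cast_nonneg _
      _ = ∑ a ∈ P, ((selIn Z (p a)).card : ℝ) := by
          simp only [e, card_selIn]
          exact sum_comm
      _ ≤ ∑ a ∈ P, (4 * d + ((selIn Z (p a)).card : ℝ) *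
            ind (c a ∧ 4 * d ≤ (selIn Z (p a)).card)) := sum_le_sum fun a ha => by
          by_cases k : 4 * d ≤ (selIn Z (p a)).card
          · rw [ind_pos ⟨hc a ha, k⟩]
            linarith
          · rw [ind_neg fun o => k o.2]
            linarith [not_le.1 k]
      _ ≤ _ := by
          rw [sum_add_distrib, sum_const, nsmul_eq_mul]
          exact add_le_add le_rfl ((sum_le_sum_of_subset_of_nonneg hP fun _ _ _ =>
            mul_nonneg (Nat.cast_nonneg _) (ind_nonneg _)).trans h)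
  rw [← mul_div_assoc, div_le_iff₀ q0] at h1
  have h2 := mul_le_mul_of_nonneg_left hr.le (mul_nonneg hd q0.le)
  exact le_of_mul_le_mul_right (by linarith) p0

theorem St2_size (X0 Y0 : Finset Pt) {m x Om : ℝ} (hx0 : 0 < x) (hx : x ≤ 1 / 4)
    (hO : (X0.card : ℝ) * Y0.card ≤ Om * (q : ℝ) ^ 4) (hz : Real.exp (-m / 6) * Om ≤ x ^ 2)
    (T : Finset (Pt × Pt)) : ((G.st2 X0 Y0 m x T).card : ℝ) ≤ 2 * x * (q : ℝ) ^ 3 := by
  have q0 : (0 : ℝ) < q := Nat.cast_pos.2 (lt_of_lt_of_le two_pos G.two_le)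
  have q3 : 0 < x * (q : ℝ) ^ 3 := by positivity
  unfold st2
  have a1 : ((X0 ∩ G.Pof m T).card : ℝ) ≤ X0.card := Nat.cast_le.2 (card_le_card inter_subset_left)
  have a2 : ((Y0 ∩ G.Pio m T).card : ℝ) ≤ Y0.card := Nat.cast_le.2 (card_le_card inter_subset_left)
  generalize X0 ∩ G.Pof m T = P at a1 ⊢
  generalize Y0 ∩ G.Pio m T = Q at a2 ⊢
  split_ifs with h
  · have a3 : (P.card : ℝ) * Q.card ≤ (x * (q : ℝ) ^ 2) ^ 2 := by
      have b1 := mul_le_mul_of_nonneg_left hO (Real.exp_pos (-m / 6)).le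
      have b2 := mul_le_mul_of_nonneg_right hz (pow_pos q0 4).le
      rcases h with h | h
      · linarith [mul_le_mul h a2 (Nat.cast_nonneg _) (by positivity)]
      · linarith [mul_le_mul a1 h (Nat.cast_nonneg _) (Nat.cast_nonneg _)]
    have a4 := mul_le_mul_of_nonneg_left (Real.sqrt_le_iff.2 ⟨by positivity, a3⟩) q0.le
    have a5 : (P.card : ℝ) * Q.card / q ≤ x * (x * (q : ℝ) ^ 3) :=
      (div_le_iff₀ q0).2 (by linarith)
    nlinarith [G.card_pool_le P Q]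
  have a3 : G.pool (P ∩ G.low x Q) (Q ∩ G.low x P) ⊆
      (G.low x P).biUnion fun b => (G.pl b ∩ P).image (·, b) := fun z hz => by
    obtain ⟨a, b, c⟩ := G.Sparse1_pool.1 hz
    exact mem_biUnion.2 ⟨z.2, (mem_inter.1 c).2,
      mem_image.2 ⟨z.1, mem_inter.2 ⟨a, (mem_inter.1 b).1⟩, rfl⟩⟩
  have a4 := (Nat.cast_le (α := ℝ)).2 ((card_le_card a3).trans card_biUnion_le)
  rw [Nat.cast_sum] at a4
  have a5 := a4.trans (sum_le_card_nsmul _ _ _ fun b hb =>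
    ((Nat.cast_le (α := ℝ)).2 card_image_le).trans (G.mem_low.1 hb))
  have a6 := G.card_low_le (x := x) (by linarith) P
  have a7 : ((G.low x P).card : ℝ) * P.card * (1 / 2) ≤ (q : ℝ) ^ 4 :=
    (mul_le_mul_of_nonneg_left (by nlinarith) (by positivity)).trans a6
  rw [nsmul_eq_mul, ← mul_div_assoc, le_div_iff₀ q0] at a5
  exact le_of_mul_le_mul_right (by linarith [mul_le_mul_of_nonneg_left a7 hx0.le]) q0

/-- Rate `η = m / d`, `ζ = exp (-m/6)`, `y a` = number of planes of `Z'` through `a`. Four Markov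
events of probability `1/10`: `|T'| > 10 η |Z'|`; more than `20 exp (-m/3) |Z'| ≤ 0.14 |Z'|` flags
outside `P' × Q'` (`thr_up`); `∑ a ∈ P' with y a ≥ 4 d, y a > 90 d ζ |X0|` (`thr_down` with
`η y / 4` in place of `m`, and `y exp (-η y / 12) ≤ 9 d ζ` for `y ≥ 4 d`); dually. In the second
branch `∑ a ∈ P', y a ≤ 94 d |P'|`, so at most `94 d q / x ≤ |Z'| / 8` planes of `Z'` are not low.
Sizes: `card_pool_le` in the first branch, `card_low_le` in the second. -/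
theorem stage2 {X0 Y0 : Finset Pt} {Z' : Finset (Pt × Pt)} {d : ℕ} {m x Om : ℝ}
    (hZ : G.sparse d Z') (hsub : Z' ⊆ G.pool X0 Y0) (hm : 15 ≤ m) (hd : m ≤ d) (hx0 : 0 < x)
    (hx : x ≤ 1 / 4) (hq : 752 * d * q ≤ x * Z'.card)
    (hO : (X0.card : ℝ) * Y0.card ≤ Om * (q : ℝ) ^ 4) (hz : Real.exp (-m / 6) * Om ≤ x ^ 2) :
    ∃ T' ⊆ Z', (T'.card : ℝ) ≤ 10 * m * Z'.card / d ∧
      Z'.card ≤ 2 * (Z' ∩ G.st2 X0 Y0 m x T').card ∧
      ((G.st2 X0 Y0 m x T').card : ℝ) ≤ 2 * x * (q : ℝ) ^ 3 := by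
  have q0 : (0 : ℝ) < q := Nat.cast_pos.2 (lt_of_lt_of_le two_pos G.two_le)
  have m0 : 0 < m := by linarith
  have d0 : (0 : ℝ) < d := m0.trans_le hd
  have z0 : (0 : ℝ) < Z'.card :=
    (mul_pos_iff_of_pos_left hx0).1 ((mul_pos (mul_pos (by norm_num) d0) q0).trans_le hq)
  obtain ⟨z, hz0⟩ := card_pos.1 (Nat.cast_pos.1 z0)
  have x0 : (0 : ℝ) < X0.card := Nat.cast_pos.2 (card_pos.2 ⟨_, (G.Sparse1_pool.1 (hsub hz0)).2.1⟩)
  have y0 : (0 : ℝ) < Y0.card := Nat.cast_pos.2 (card_pos.2 ⟨_, (G.Sparse1_pool.1 (hsub hz0)).2.2⟩)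
  obtain ⟨a1, a2⟩ := St2_side Z' (fun (a : Pt) u => a ∈ G.pl u.2) Prod.fst X0 hm hd
    fun z h => Nat.cast_le.2 (hZ.2 z h).1
  obtain ⟨a3, a4⟩ := St2_side Z' (fun (b : Pt) u => u.1 ∈ G.pl b) Prod.snd Y0 hm hd
    fun z h => Nat.cast_le.2 (hZ.2 z h).2
  obtain ⟨T, hT, k0, k1, k2, k3, k4⟩ := St2_pick (by positivity) ((div_le_one d0).2 hd)
    (Ex_card Z').le a1 a3 a2 a4 (fun _ => ⟨Nat.cast_nonneg _, Nat.cast_nonneg _, Nat.cast_nonneg _,
      sum_nonneg fun _ _ => mul_nonneg (Nat.cast_nonneg _) (ind_nonneg _),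
      sum_nonneg fun _ _ => mul_nonneg (Nat.cast_nonneg _) (ind_nonneg _)⟩)
    (by rw [inter_self]; positivity) (by positivity) (by positivity) (by positivity) (by positivity)
  rw [inter_self, inter_eq_left.2 hT, div_mul_eq_mul_div, ← mul_div_assoc] at k0
  refine ⟨T, hT, k0.trans (div_le_div_of_nonneg_right (by linarith [mul_pos m0 z0]) d0.le), ?_,
    G.St2_size X0 Y0 hx0 hx hO hz T⟩
  have e5 : Real.exp (-m / 3) ≤ 1 / 36 := by
    have h1 := Real.quadratic_le_exp_of_nonneg (x := m / 6) (by positivity)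
    rw [show -m / 3 = -(m / 6 + m / 6) by ring, Real.exp_neg, Real.exp_add, one_div]
    have h2 : 6 ≤ Real.exp (m / 6) := by nlinarith
    exact inv_anti₀ (by norm_num) (by nlinarith)
  have e6 := mul_le_mul_of_nonneg_left e5 z0.le
  have c : ∀ {A B C : Finset (Pt × Pt)}, A ⊆ B ∪ C → (A.card : ℝ) ≤ B.card + C.card := fun h => by
    exact_mod_cast (card_le_card h).trans (card_union_le _ _)
  have b0 := (c (A := Z' \ G.pool (X0 ∩ G.Pof m T) (Y0 ∩ G.Pio m T)) fun z hz => by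
    have o := (mem_sdiff.1 hz).1
    obtain ⟨o1, o2, o3⟩ := G.Sparse1_pool.1 (hsub o)
    by_contra n
    rw [mem_union, mem_selIn, mem_selIn, not_or] at n
    exact (mem_sdiff.1 hz).2 (G.Sparse1_pool.2 ⟨o1,
      mem_inter.2 ⟨o2, G.Sparse1_Pof.2 (not_not.1 fun l => n.1 ⟨o, l⟩)⟩,
      mem_inter.2 ⟨o3, G.Sparse1_Pio.2 (not_not.1 fun l => n.2 ⟨o, l⟩)⟩⟩)).trans (add_le_add k1 k2)
  have b1 := congrArg (Nat.cast (R := ℝ)) (card_sdiff_add_card_inter Z' (G.st2 X0 Y0 m x T))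
  rw [← Nat.cast_le (α := ℝ)]
  push_cast at b1 ⊢
  suffices ((Z' \ G.st2 X0 Y0 m x T).card : ℝ) ≤ Z'.card / 2 by linarith
  unfold st2
  split_ifs with h
  · linarith
  obtain ⟨h1, h2⟩ := not_or.1 h
  have b2 := G.St2_cnt Z' Prod.snd _ (fun _ _ => Iff.rfl) _ (x := x) d0.le inter_subset_left
    (fun a ha => G.Sparse1_Pof.1 (mem_inter.1 ha).2) (Real.exp_pos _).le (not_le.1 h1) k3
  have b3 := G.St2_cnt Z' Prod.fst _ (fun _ _ => G.symm _ _) _ (x := x) d0.le inter_subset_left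
    (fun a ha => G.Sparse1_Pio.1 (mem_inter.1 ha).2) (Real.exp_pos _).le (not_le.1 h2) k4
  generalize X0 ∩ G.Pof m T = P at b0 b2 b3 ⊢
  generalize Y0 ∩ G.Pio m T = Q at b0 b2 b3 ⊢
  have b4 := c (A := Z' \ G.pool (P ∩ G.low x Q) (Q ∩ G.low x P)) (B := Z' \ G.pool P Q)
    (C := (selIn Z' fun u => u.2 ∉ G.low x P) ∪ selIn Z' fun u => u.1 ∉ G.low x Q) fun z hz => by
      have o := (mem_sdiff.1 hz).1
      by_contra n
      simp only [mem_union, mem_sdiff, mem_selIn, o, true_and, not_or, not_not] at n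
      obtain ⟨o1, o2, o3⟩ := G.Sparse1_pool.1 n.1
      exact (mem_sdiff.1 hz).2
        (G.Sparse1_pool.2 ⟨o1, mem_inter.2 ⟨o2, n.2.2⟩, mem_inter.2 ⟨o3, n.2.1⟩⟩)
  have b5 := c (B := selIn Z' fun u => u.2 ∉ G.low x P) (C := selIn Z' fun u => u.1 ∉ G.low x Q)
    Subset.rfl
  have b6 : ((selIn Z' fun u => u.2 ∉ G.low x P).card : ℝ) +
      (selIn Z' fun u => u.1 ∉ G.low x Q).card ≤ Z'.card / 5 :=
    le_of_mul_le_mul_left (by linarith [mul_pos d0 q0]) hx0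
  linarith

end PG
end Pool.Agent.Work.MP_e10cd8_co.Four
end

-- merged part: Pool.Agent.Work.MP_e10cd8_co.All.ASt2
section
/-! The second sample. Copy `Exact/St2` (reuse `St2_pick`, `St2_side`). -/

namespace Pool.Agent.Work.MP_e10cd8_co.All

open Finset Four

namespace GP

variable {q t : ℕ} {Pt : Type} [Fintype Pt] [DecidableEq Pt] (G : GP q t Pt)

/-- double counting from an average bound -/
theorem ASt2_cnt {ι : Type} (Z : Finset ι) (f : ι → Pt) (p : Pt → ι → Prop)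
    (hp : ∀ a u, p a u ↔ a ∈ G.pl (f u)) (c : Pt → Prop) {x d r : ℝ} (hd : 0 ≤ d)
    {P X : Finset Pt} (hP : P ⊆ X) (hc : ∀ a ∈ P, c a) (r0 : 0 ≤ r) (hr : r * X.card < P.card)
    (h : ∑ a ∈ X, ((selIn Z (p a)).card : ℝ) * ind (c a ∧ 4 * d ≤ (selIn Z (p a)).card) ≤
      5 * (X.card * (9 * d * r))) :
    x * (selIn Z fun u => f u ∉ G.low x P).card ≤ 49 * d * q := by
  have q0 : (0 : ℝ) < q := Nat.cast_pos.2 (lt_of_lt_of_le two_pos G.two_le)
  have p0 : (0 : ℝ) < P.card := lt_of_le_of_lt (by positivity) hr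
  have e : ∀ u, (G.cnt P (f u) : ℝ) = ∑ a ∈ P, ind (p a u) := fun u => by
    rw [← card_selIn, cnt]
    refine congrArg _ (congrArg _ ?_)
    ext a
    rw [mem_inter, mem_selIn, and_comm, hp]
  have h1 : ((selIn Z fun u => f u ∉ G.low x P).card : ℝ) * (x * P.card / q) ≤
      P.card * (4 * d) + 5 * (X.card * (9 * d * r)) := by
    calc _ ≤ ∑ u ∈ selIn Z fun u => f u ∉ G.low x P, (G.cnt P (f u) : ℝ) := by
          rw [← nsmul_eq_mul]
          exact card_nsmul_le_sum _ _ _ fun u hu =>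
            (not_le.1 fun k => (mem_selIn.1 hu).2 (G.mem_low.2 k)).le
      _ ≤ ∑ u ∈ Z, (G.cnt P (f u) : ℝ) :=
          sum_le_sum_of_subset_of_nonneg (selIn_subset _ _) fun _ _ _ => Nat.cast_nonneg _
      _ = ∑ a ∈ P, ((selIn Z (p a)).card : ℝ) := by
          simp only [e, card_selIn]
          exact sum_comm
      _ ≤ ∑ a ∈ P, (4 * d + ((selIn Z (p a)).card : ℝ) *
            ind (c a ∧ 4 * d ≤ (selIn Z (p a)).card)) := sum_le_sum fun a ha => by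
          by_cases k : 4 * d ≤ (selIn Z (p a)).card
          · rw [ind_pos ⟨hc a ha, k⟩]
            linarith
          · rw [ind_neg fun o => k o.2]
            linarith [not_le.1 k]
      _ ≤ _ := by
          rw [sum_add_distrib, sum_const, nsmul_eq_mul]
          exact add_le_add le_rfl ((sum_le_sum_of_subset_of_nonneg hP fun _ _ _ =>
            mul_nonneg (Nat.cast_nonneg _) (ind_nonneg _)).trans h)
  rw [← mul_div_assoc, div_le_iff₀ q0] at h1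
  have h2 := mul_le_mul_of_nonneg_left hr.le (mul_nonneg hd q0.le)
  exact le_of_mul_le_mul_right (by linarith) p0

theorem ASt2_Pof {m : ℝ} {T : Finset (Pt × Pt)} {a : Pt} :
    a ∈ G.Pof m T ↔ ((selIn T fun u => a ∈ G.pl u.2).card : ℝ) ≤ 2 * m := mem_sel

theorem ASt2_Pio {m : ℝ} {T : Finset (Pt × Pt)} {b : Pt} :
    b ∈ G.Pio m T ↔ ((selIn T fun u => u.1 ∈ G.pl b).card : ℝ) ≤ 2 * m := mem_sel

theorem ASt2_size (X0 Y0 : Finset Pt) {m x Om : ℝ} (hx0 : 0 < x) (hx : x ≤ 1 / 4)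
    (hO : (X0.card : ℝ) * Y0.card ≤ Om * (q : ℝ) ^ (t + 1)) (hz : Real.exp (-m / 6) * Om ≤ x ^ 2)
    (T : Finset (Pt × Pt)) : ((G.st2 X0 Y0 m x T).card : ℝ) ≤ 2 * x * (q : ℝ) ^ t := by
  have q0 : (0 : ℝ) < q := Nat.cast_pos.2 (lt_of_lt_of_le two_pos G.two_le)
  unfold st2
  have a1 : ((X0 ∩ G.Pof m T).card : ℝ) ≤ X0.card := Nat.cast_le.2 (card_le_card inter_subset_left)
  have a2 : ((Y0 ∩ G.Pio m T).card : ℝ) ≤ Y0.card := Nat.cast_le.2 (card_le_card inter_subset_left)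
  generalize X0 ∩ G.Pof m T = P at a1 ⊢
  generalize Y0 ∩ G.Pio m T = Q at a2 ⊢
  split_ifs with h
  · have a3 : (P.card : ℝ) * Q.card ≤ x ^ 2 * (q : ℝ) ^ (t + 1) := by
      have b1 := mul_le_mul_of_nonneg_left hO (Real.exp_pos (-m / 6)).le
      have b2 := mul_le_mul_of_nonneg_right hz (pow_pos q0 (t + 1)).le
      rcases h with h | h
      · linarith [mul_le_mul h a2 (Nat.cast_nonneg _) (by positivity)]
      · linarith [mul_le_mul a1 h (Nat.cast_nonneg _) (Nat.cast_nonneg _)]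
    exact (G.card_pool_le P Q hx0.le a3).trans
      (mul_le_mul_of_nonneg_right (by nlinarith) (pow_pos q0 t).le)
  exact G.card_pool_low_le hx0.le hx inter_subset_left inter_subset_right

theorem stage2 {X0 Y0 : Finset Pt} {Z' : Finset (Pt × Pt)} {d : ℕ} {m x Om : ℝ}
    (hZ : G.sparse d Z') (hsub : Z' ⊆ G.pool X0 Y0) (hm : 15 ≤ m) (hd : m ≤ d) (hx0 : 0 < x)
    (hx : x ≤ 1 / 4) (hq : 752 * d * q ≤ x * Z'.card)
    (hO : (X0.card : ℝ) * Y0.card ≤ Om * (q : ℝ) ^ (t + 1))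
    (hz : Real.exp (-m / 6) * Om ≤ x ^ 2) :
    ∃ T' ⊆ Z', (T'.card : ℝ) ≤ 10 * m * Z'.card / d ∧
      Z'.card ≤ 2 * (Z' ∩ G.st2 X0 Y0 m x T').card ∧
      ((G.st2 X0 Y0 m x T').card : ℝ) ≤ 2 * x * (q : ℝ) ^ t := by
  have q0 : (0 : ℝ) < q := Nat.cast_pos.2 (lt_of_lt_of_le two_pos G.two_le)
  have m0 : 0 < m := by linarith
  have d0 : (0 : ℝ) < d := m0.trans_le hd
  have z0 : (0 : ℝ) < Z'.card :=
    (mul_pos_iff_of_pos_left hx0).1 ((mul_pos (mul_pos (by norm_num) d0) q0).trans_le hq)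
  obtain ⟨z, hz0⟩ := card_pos.1 (Nat.cast_pos.1 z0)
  have x0 : (0 : ℝ) < X0.card := Nat.cast_pos.2 (card_pos.2 ⟨_, (G.mem_pool.1 (hsub hz0)).2.1⟩)
  have y0 : (0 : ℝ) < Y0.card := Nat.cast_pos.2 (card_pos.2 ⟨_, (G.mem_pool.1 (hsub hz0)).2.2⟩)
  obtain ⟨a1, a2⟩ := PG.St2_side Z' (fun (a : Pt) u => a ∈ G.pl u.2) Prod.fst X0 hm hd
    fun z h => Nat.cast_le.2 (hZ.2 z h).1
  obtain ⟨a3, a4⟩ := PG.St2_side Z' (fun (b : Pt) u => u.1 ∈ G.pl b) Prod.snd Y0 hm hd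
    fun z h => Nat.cast_le.2 (hZ.2 z h).2
  obtain ⟨T, hT, k0, k1, k2, k3, k4⟩ := PG.St2_pick (by positivity) ((div_le_one d0).2 hd)
    (Ex_card Z').le a1 a3 a2 a4 (fun _ => ⟨Nat.cast_nonneg _, Nat.cast_nonneg _, Nat.cast_nonneg _,
      sum_nonneg fun _ _ => mul_nonneg (Nat.cast_nonneg _) (ind_nonneg _),
      sum_nonneg fun _ _ => mul_nonneg (Nat.cast_nonneg _) (ind_nonneg _)⟩)
    (by rw [inter_self]; positivity) (by positivity) (by positivity) (by positivity) (by positivity)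
  rw [inter_self, inter_eq_left.2 hT, div_mul_eq_mul_div, ← mul_div_assoc] at k0
  refine ⟨T, hT, k0.trans (div_le_div_of_nonneg_right (by linarith [mul_pos m0 z0]) d0.le), ?_,
    G.ASt2_size X0 Y0 hx0 hx hO hz T⟩
  have e5 : Real.exp (-m / 3) ≤ 1 / 36 := by
    have h1 := Real.quadratic_le_exp_of_nonneg (x := m / 6) (by positivity)
    rw [show -m / 3 = -(m / 6 + m / 6) by ring, Real.exp_neg, Real.exp_add, one_div]
    have h2 : 6 ≤ Real.exp (m / 6) := by nlinarith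
    exact inv_anti₀ (by norm_num) (by nlinarith)
  have e6 := mul_le_mul_of_nonneg_left e5 z0.le
  have c : ∀ {A B C : Finset (Pt × Pt)}, A ⊆ B ∪ C → (A.card : ℝ) ≤ B.card + C.card := fun h => by
    exact_mod_cast (card_le_card h).trans (card_union_le _ _)
  have b0 := (c (A := Z' \ G.pool (X0 ∩ G.Pof m T) (Y0 ∩ G.Pio m T)) fun z hz => by
    have o := (mem_sdiff.1 hz).1
    obtain ⟨o1, o2, o3⟩ := G.mem_pool.1 (hsub o)
    by_contra n
    rw [mem_union, mem_selIn, mem_selIn, not_or] at n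
    exact (mem_sdiff.1 hz).2 (G.mem_pool.2 ⟨o1,
      mem_inter.2 ⟨o2, G.ASt2_Pof.2 (not_not.1 fun l => n.1 ⟨o, l⟩)⟩,
      mem_inter.2 ⟨o3, G.ASt2_Pio.2 (not_not.1 fun l => n.2 ⟨o, l⟩)⟩⟩)).trans (add_le_add k1 k2)
  have b1 := congrArg (Nat.cast (R := ℝ)) (card_sdiff_add_card_inter Z' (G.st2 X0 Y0 m x T))
  rw [← Nat.cast_le (α := ℝ)]
  push_cast at b1 ⊢
  suffices ((Z' \ G.st2 X0 Y0 m x T).card : ℝ) ≤ Z'.card / 2 by linarith
  unfold st2
  split_ifs with h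
  · linarith
  obtain ⟨h1, h2⟩ := not_or.1 h
  have b2 := G.ASt2_cnt Z' Prod.snd _ (fun _ _ => Iff.rfl) _ (x := x) d0.le inter_subset_left
    (fun a ha => G.ASt2_Pof.1 (mem_inter.1 ha).2) (Real.exp_pos _).le (not_le.1 h1) k3
  have b3 := G.ASt2_cnt Z' Prod.fst _ (fun _ _ => G.symm _ _) _ (x := x) d0.le inter_subset_left
    (fun a ha => G.ASt2_Pio.1 (mem_inter.1 ha).2) (Real.exp_pos _).le (not_le.1 h2) k4
  generalize X0 ∩ G.Pof m T = P at b0 b2 b3 ⊢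
  generalize Y0 ∩ G.Pio m T = Q at b0 b2 b3 ⊢
  have b4 := c (A := Z' \ G.pool (P ∩ G.low x Q) (Q ∩ G.low x P)) (B := Z' \ G.pool P Q)
    (C := (selIn Z' fun u => u.2 ∉ G.low x P) ∪ selIn Z' fun u => u.1 ∉ G.low x Q) fun z hz => by
      have o := (mem_sdiff.1 hz).1
      by_contra n
      simp only [mem_union, mem_sdiff, mem_selIn, o, true_and, not_or, not_not] at n
      obtain ⟨o1, o2, o3⟩ := G.mem_pool.1 n.1
      exact (mem_sdiff.1 hz).2
        (G.mem_pool.2 ⟨o1, mem_inter.2 ⟨o2, n.2.2⟩, mem_inter.2 ⟨o3, n.2.1⟩⟩)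
  have b5 := c (B := selIn Z' fun u => u.2 ∉ G.low x P) (C := selIn Z' fun u => u.1 ∉ G.low x Q)
    Subset.rfl
  have b6 : ((selIn Z' fun u => u.2 ∉ G.low x P).card : ℝ) +
      (selIn Z' fun u => u.1 ∉ G.low x Q).card ≤ Z'.card / 5 :=
    le_of_mul_le_mul_left (by linarith [mul_pos d0 q0]) hx0
  linarith

end GP

end Pool.Agent.Work.MP_e10cd8_co.All
end

-- merged part: Pool.Agent.Work.MP_e10cd8_co.All.Hit
section
/-! The two final pools (paper 5). -/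

namespace Pool.Agent.Work.MP_e10cd8_co.All

open Finset Four

namespace GP

variable {q t : ℕ} {Pt : Type} [Fintype Pt] [DecidableEq Pt] (G : GP q t Pt)

/-- `stage2` on `Zs` with `d = s + 1`, `m = am2`, `Om = 29 exp j ^ 2`; `ax_sq_ge`, `am2_bounds`;
the sample has at most `780 ℓ k / (16 D)` elements; `ax ≤ 1/4` forces `s ≤ k` -/
theorem hit_st2 {H D k : ℕ} (h : NP q t H D k) {Z T2 Z2 Zs : Finset (Pt × Pt)} {u v s j : ℕ}
    (hF : G.Fine H D k Z T2 Z2 Zs u v s) {P Q : Finset Pt} (hZ : Z ⊆ G.pool P Q)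
    (hO : (P.card : ℝ) * Q.card ≤ 29 * Real.exp j ^ 2 * (q : ℝ) ^ (t + 1))
    (hj : (j : ℝ) ≤ 4 * Real.log (Real.log q)) (hx : ax q H k s ≤ 1 / 4) :
    s ≤ k ∧ ∃ A ⊆ Z, (A.card : ℝ) ≤ at0 q H ∧
      3 * (k : ℝ) / H ≤ (Z ∩ G.st2 P Q (am2 q) (ax q H k s) A).card ∧
      ((G.st2 P Q (am2 q) (ax q H k s) A).card : ℝ) ≤ 2 * ax q H k s * (q : ℝ) ^ t := by
  have H1 : (1 : ℝ) ≤ H := le_trans (by norm_num) h.H_ge'
  have H0 : (0 : ℝ) < H := by linarith
  have q1 : (1 : ℝ) ≤ q := le_trans (by norm_num) h.q_ge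
  have k0 := h.k_pos
  have l0 : 0 ≤ Real.log (Real.log q) := le_trans zero_le_one h.ell_ge
  have s0 : (0 : ℝ) ≤ s := Nat.cast_nonneg _
  have D0 : (0 : ℝ) ≤ D := Nat.cast_nonneg _
  have sD : 16 * (D : ℝ) ≤ s := by exact_mod_cast hF.s16
  have x0 : 0 < ax q H k s := by
    unfold ax
    positivity
  have zz : Zs ⊆ Z := hF.zs.trans hF.z2
  have zk : (Zs.card : ℝ) ≤ k := by exact_mod_cast (card_le_card zz).trans hF.hk
  have e1 : ax q H k s * (1000 * (k : ℝ) / H) = 1000 * ((s + 1) * q) := by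
    unfold ax
    field_simp
  have sq0 : (0 : ℝ) ≤ (s + 1) * q := by positivity
  refine ⟨?_, ?_⟩
  · have h1 : (H : ℝ) * (s + 1) * q ≤ 1 / 4 * k := by
      rw [← div_le_iff₀ k0]
      exact hx
    have h2 : ((s : ℝ) + 1) * 1 ≤ (s + 1) * q := mul_le_mul_of_nonneg_left q1 (by linarith)
    have h3 := mul_le_mul_of_nonneg_right H1 sq0
    have h4 : (s : ℝ) ≤ k := by linarith
    exact_mod_cast h4
  obtain ⟨A, a1, a2, a3, a4⟩ := G.stage2 (m := am2 q) (x := ax q H k s) hF.sp (zz.trans hZ)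
    h.am2_bounds.1 (by
      have := h.am2_bounds.2
      push_cast
      linarith) x0 hx (by
      have := mul_le_mul_of_nonneg_left hF.zsc x0.le
      push_cast
      linarith) hO (h.ax_sq_ge s j hj)
  refine ⟨A, a1.trans zz, a2.trans ?_, ?_, a4⟩
  · have t0 : 0 ≤ at0 q H := by
      have h1 := h.le_at0
      by_contra h2
      have h3 := mul_le_mul_of_nonneg_left (not_le.1 h2).le (show (0 : ℝ) ≤ 5 * H ^ 2 by positivity)
      linarith
    rw [div_le_iff₀ (by positivity)]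
    have h1 := mul_le_mul_of_nonneg_left (zk.trans h.le_at0) l0
    have h2 : (H : ℝ) ^ 2 ≤ H ^ 3 := pow_le_pow_right₀ H1 (by norm_num)
    have h3 := mul_le_mul_of_nonneg_right h2 l0
    have h4 : 3900 * ((H : ℝ) ^ 2 * Real.log (Real.log q)) ≤ s + 1 := by linarith [h.hD2]
    have h5 := mul_le_mul_of_nonneg_left h4 t0
    unfold am2
    push_cast
    linarith
  · have h1 : Zs.card ≤ 2 * (Z ∩ G.st2 P Q (am2 q) (ax q H k s) A).card :=
      a3.trans (Nat.mul_le_mul_left _ (card_le_card (inter_subset_inter_right zz)))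
    have h2 : (Zs.card : ℝ) ≤ 2 * (Z ∩ G.st2 P Q (am2 q) (ax q H k s) A).card := by
      exact_mod_cast h1
    have h3 := hF.zsc
    have h4 : 0 ≤ (k : ℝ) / H := by positivity
    rw [mul_div_assoc] at h3 ⊢
    linarith

/-- `dominate2` with `K` = flags of `Z2` whose pool has at most `θ` elements, `d = s / 2`,
`m = ⌈2 k / s⌉₊ ≤ 4 k / s` (as `s ≤ 2 k`); `mem_ppool`, `fine_le` -/
theorem hit_par {H D k : ℕ} (h : NP q t H D k) {Z T2 Z2 Zs : Finset (Pt × Pt)} {u v s : ℕ}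
    (hF : G.Fine H D k Z T2 Z2 Zs u v s) {P Q : Finset Pt} (hZ : Z ⊆ G.pool P Q) {θ : ℝ}
    (hθ : 0 ≤ θ) {Zl : Finset (Pt × Pt)} (hl : Zl ⊆ Z2) (hc : 1000 * (k : ℝ) / H ≤ Zl.card)
    (hp : ∀ z ∈ Zl, s ≤ 2 * (selIn Z2 fun z' => G.par T2 z' z ∧
      ((G.ppool T2 P Q z').card : ℝ) ≤ θ).card) :
    ∃ B ⊆ Z, 2 * (B.card : ℝ) ≤ at0 q H ∧
      3 * (k : ℝ) / H ≤ (Z ∩ B.biUnion (G.ppool T2 P Q)).card ∧
      ((B.biUnion (G.ppool T2 P Q)).card : ℝ) ≤ 4 * k * θ / s := by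
  have H0 : (0 : ℝ) < H := lt_of_lt_of_le (by norm_num) h.H_ge'
  have k0 := h.k_pos
  have D0 : (0 : ℝ) < D := lt_of_lt_of_le (by positivity) h.D_ge
  have sD : 16 * (D : ℝ) ≤ s := by exact_mod_cast hF.s16
  have s0 : (0 : ℝ) < s := by linarith
  have zk : Z2.card ≤ k := (card_le_card hF.z2).trans hF.hk
  have sk : (s : ℝ) ≤ 2 * k := by
    have h1 : (0 : ℝ) < Zl.card := lt_of_lt_of_le (by positivity) hc
    obtain ⟨z, hz⟩ := card_pos.1 (Nat.cast_pos.1 h1)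
    exact_mod_cast (hp z hz).trans
      (Nat.mul_le_mul_left _ ((card_le_card (selIn_subset _ _)).trans zk))
  obtain ⟨B, b1, b2, b3⟩ := dominate2
    (selIn Z2 fun z' => ((G.ppool T2 P Q z').card : ℝ) ≤ θ) Zl (fun z z' => G.par T2 z' z)
    (d := (s : ℝ) / 2) (by positivity) (fun z hz => by
      have h1 : s ≤ 2 * (selIn (selIn Z2 fun z' => ((G.ppool T2 P Q z').card : ℝ) ≤ θ)
          fun z' => G.par T2 z' z).card :=
        (hp z hz).trans (Nat.mul_le_mul_left _ (card_le_card fun y hy => by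
          rw [mem_selIn] at hy
          exact mem_selIn.2 ⟨mem_selIn.2 ⟨hy.1, hy.2.2⟩, hy.2.1⟩))
      rw [div_le_iff₀' (by norm_num)]
      exact_mod_cast h1) ⌈2 * (k : ℝ) / s⌉₊ (by
      have h1 : ((selIn Z2 fun z' => ((G.ppool T2 P Q z').card : ℝ) ≤ θ).card : ℝ) ≤ k := by
        exact_mod_cast (card_le_card (selIn_subset _ _)).trans zk
      have h2 := Nat.le_ceil (2 * (k : ℝ) / s)
      rw [div_le_iff₀ s0] at h2
      linarith)
  have bz : B ⊆ Z2 := b1.trans (selIn_subset _ _)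
  have c1 : (B.card : ℝ) * s ≤ 4 * k := by
    have h1 : (B.card : ℝ) ≤ ⌈2 * (k : ℝ) / s⌉₊ := by exact_mod_cast b2
    have h2 := Nat.ceil_lt_add_one (show 0 ≤ 2 * (k : ℝ) / s by positivity)
    have h3 : (B.card : ℝ) - 1 ≤ 2 * (k : ℝ) / s := by linarith
    rw [le_div_iff₀ s0] at h3
    linarith
  refine ⟨B, bz.trans hF.z2, ?_, ?_, ?_⟩
  · have h1 := h.fine_le
    have h2 := mul_le_mul_of_nonneg_left sD (Nat.cast_nonneg (α := ℝ) B.card)
    have h3 : (0 : ℝ) ≤ t * k := by positivity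
    refine le_of_mul_le_mul_left ?_ D0
    linarith
  · have h1 : Zl.card ≤ 2 * (Z ∩ B.biUnion (G.ppool T2 P Q)).card :=
      b3.trans (Nat.mul_le_mul_left _ (card_le_card fun z hz => by
        obtain ⟨h2, a, h3, h4⟩ := mem_selIn.1 hz
        have h5 := hF.z2 (hl h2)
        exact mem_inter.2 ⟨h5, mem_biUnion.2
          ⟨a, h3, G.mem_ppool hF.cl1 hF.cl2 (hl h2) (bz h3) (hZ h5) h4⟩⟩))
    have h2 : (Zl.card : ℝ) ≤ 2 * (Z ∩ B.biUnion (G.ppool T2 P Q)).card := by exact_mod_cast h1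
    have h4 : 0 ≤ (k : ℝ) / H := by positivity
    rw [mul_div_assoc] at hc ⊢
    linarith
  · have h1 : ((B.biUnion (G.ppool T2 P Q)).card : ℝ) ≤ ∑ a ∈ B, ((G.ppool T2 P Q a).card : ℝ) := by
      exact_mod_cast card_biUnion_le
    have h2 := sum_le_card_nsmul B (fun a => ((G.ppool T2 P Q a).card : ℝ)) θ
      fun a ha => (mem_selIn.1 (b1 ha)).2
    rw [nsmul_eq_mul] at h2
    have h3 := mul_le_mul_of_nonneg_right (h1.trans h2) s0.le
    have h4 := mul_le_mul_of_nonneg_right c1 hθ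
    rw [le_div_iff₀ s0]
    linarith

end GP

end Pool.Agent.Work.MP_e10cd8_co.All
end

-- merged part: Pool.Agent.Work.MP_e10cd8_co.All.CapA
section
/-! Case A: the general containers (paper 6). -/

namespace Pool.Agent.Work.MP_e10cd8_co.All

open Finset Four

theorem CapA_lam {q i j : ℕ} (hij : i ≤ j) (hl : 1 ≤ Real.log (Real.log q)) :
    0 ≤ lam q (9 * Real.exp i ^ 2) ∧
      lam q (9 * Real.exp i ^ 2) ≤ 4 + 3 * max (j : ℝ) (Real.log (Real.log q)) := by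
  have e : Real.log (9 * Real.exp i ^ 2) = Real.log 9 + 2 * i := by
    rw [Real.log_mul (by norm_num) (by positivity), Real.log_pow, Real.log_exp]
    norm_num
  have a1 : Real.log 9 ≤ 3 := by
    rw [Real.log_le_iff_le_exp (by norm_num)]
    have b1 : Real.exp 3 = Real.exp 1 ^ 3 := by rw [← Real.exp_nat_mul]; norm_num
    have b2 : (2.7 : ℝ) ≤ Real.exp 1 := le_trans (by norm_num) Real.exp_one_gt_d9.le
    have b3 := pow_le_pow_left₀ (by norm_num) b2 3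
    rw [b1]
    refine le_trans (by norm_num) b3
  have a2 : 0 ≤ Real.log 9 := Real.log_nonneg (by norm_num)
  have a3 : (i : ℝ) ≤ j := by exact_mod_cast hij
  have a4 : (0 : ℝ) ≤ i := Nat.cast_nonneg _
  have a5 := le_max_left (j : ℝ) (Real.log (Real.log q))
  have a6 := le_max_right (j : ℝ) (Real.log (Real.log q))
  unfold lam
  rw [e]
  constructor <;> linarith

theorem CapA_num {q t H D k : ℕ} (h : NP q t H D k) {M : ℝ} (hM : 0 ≤ M) :
    M + 2 * (H * q * Real.log q * (4 + 3 * M)) ≤ k * (M / 2 + 1) / (4 * H) := by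
  have hH := h.H_ge'
  have hq := h.q_ge
  have hL := h.L_ge
  have hk := h.hk1
  have H0 : (0 : ℝ) < H := by linarith
  have H1 : (1 : ℝ) ≤ H := by linarith
  have L1 : 1 ≤ Real.log q := by
    have : (1 : ℝ) ≤ (H : ℝ) ^ 6 := one_le_pow₀ H1
    linarith
  have w0 : (1 : ℝ) ≤ q * Real.log q := one_le_mul_of_one_le_of_one_le (by linarith) L1
  have w1 : (1 : ℝ) ≤ H * (q * Real.log q) := one_le_mul_of_one_le_of_one_le H1 w0
  have a1 : 56 * (H : ℝ) ^ 2 ≤ (H : ℝ) ^ 6 := by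
    have b1 : (56 : ℝ) ≤ (H : ℝ) ^ 4 := le_trans (by linarith) (le_self_pow₀ H1 (by norm_num))
    calc 56 * (H : ℝ) ^ 2 ≤ (H : ℝ) ^ 4 * (H : ℝ) ^ 2 :=
          mul_le_mul_of_nonneg_right b1 (by positivity)
      _ = _ := by ring
  have a2 : 56 * (H : ℝ) ^ 2 * (q * Real.log q) ≤ k := by
    refine le_trans (mul_le_mul_of_nonneg_right a1 (by linarith)) ?_
    rw [← mul_assoc]
    exact hk
  rw [le_div_iff₀ (by linarith), mul_assoc (H : ℝ) q]
  generalize (q : ℝ) * Real.log q = w at w0 w1 a2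
  have a3 : M ≤ H * w * M := le_mul_of_one_le_left hM w1
  have a4 : M + 2 * (H * w * (4 + 3 * M)) ≤ 14 * (H * w) * (M / 2 + 1) := by nlinarith
  calc (M + 2 * (H * w * (4 + 3 * M))) * (4 * H) ≤ 14 * (H * w) * (M / 2 + 1) * (4 * H) :=
        mul_le_mul_of_nonneg_right a4 (by linarith)
    _ = 56 * (H : ℝ) ^ 2 * w * (M / 2 + 1) := by ring
    _ ≤ _ := mul_le_mul_of_nonneg_right a2 (by linarith)

theorem CapA_one {q t H D k : ℕ} (h : NP q t H D k) : 1 ≤ (k : ℝ) / H := by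
  have hH := h.H_ge'
  have H0 : (0 : ℝ) < H := by linarith
  have a1 := h.one_le_div
  have a2 : (k : ℝ) / H ^ 2 ≤ k / H :=
    div_le_div_of_nonneg_left (Nat.cast_nonneg _) H0 (le_self_pow₀ (by linarith) (by norm_num))
  linarith

namespace GP

variable {q t : ℕ} {Pt : Type} [Fintype Pt] [DecidableEq Pt] (G : GP q t Pt)

/-- union over `i ≤ j` of the squares of the families of `KLp` at `Om = 9 exp i ^ 2`;
`lam ≤ 4 + 3 max j ℓ`; `ext_of_BB`, `pool_of_cont` -/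
theorem kl_pairs {H D k : ℕ} (h : NP q t H D k) {x A Γ : ℝ} (hx : x ≤ 1 / 8) (hA0 : 0 ≤ A)
    (hA : A ≤ H) (hΓ0 : 1 ≤ Γ) (hΓ : Γ ≤ H) (hK : G.KLp x A Γ) :
    ∃ F : ℕ → Finset (Finset Pt × Finset Pt), Monotone F ∧
      (∀ j : ℕ, ((F j).card : ℝ) ≤
        Real.exp (k * (max (j : ℝ) (Real.log (Real.log q)) / 2 + 1) / (4 * H))) ∧
      ∀ (j : ℕ) (P Q : Finset Pt), (q : ℝ) ^ t / Real.exp j ≤ (G.BB x P Q).card →
        ∃ XY ∈ F j, G.BB x P Q ⊆ G.pool XY.1 XY.2 ∧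
          ((G.pool XY.1 XY.2).card : ℝ) ≤ (H : ℝ) ^ 3 * Real.exp (4 * j) * (q : ℝ) ^ t := by
  classical
  have hl := h.ell_ge
  have hH := h.H_ge'
  have hq := h.q_ge
  have L0 : 0 ≤ Real.log q := Real.log_nonneg (by linarith)
  have E1 : ∀ i : ℕ, 1 ≤ Real.exp i := fun i => Real.one_le_exp (Nat.cast_nonneg _)
  have O1 : ∀ i : ℕ, 1 ≤ 9 * Real.exp i ^ 2 := fun i => by
    have : 1 ≤ Real.exp i ^ 2 := one_le_pow₀ (E1 i)
    linarith
  choose Φ c1 c2 using fun i : ℕ => hK (9 * Real.exp i ^ 2) (O1 i)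
  refine ⟨fun j => (range (j + 1)).biUnion fun i => Φ i ×ˢ Φ i, fun a b hab => ?_, fun j => ?_,
    fun j P Q hB => ?_⟩
  · exact biUnion_subset_biUnion_of_subset_left _ (range_mono (by omega))
  · have m1 := le_max_left (j : ℝ) (Real.log (Real.log q))
    have j0 : (0 : ℝ) ≤ j := Nat.cast_nonneg _
    have a0 := CapA_num h (j0.trans m1)
    have a1 : ∀ i ∈ range (j + 1), (((Φ i ×ˢ Φ i).card : ℕ) : ℝ) ≤
        Real.exp (2 * (H * q * Real.log q * (4 + 3 * max (j : ℝ) (Real.log (Real.log q))))) := by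
      intro i hi
      obtain ⟨b1, b2⟩ := CapA_lam (Nat.lt_succ_iff.1 (mem_range.1 hi)) hl
      have b3 : ((Φ i).card : ℝ) ≤
          Real.exp (H * q * Real.log q * (4 + 3 * max (j : ℝ) (Real.log (Real.log q)))) := by
        refine (c1 i).trans (Real.exp_le_exp.2 ?_)
        refine mul_le_mul ?_ b2 b1 (by positivity)
        exact mul_le_mul_of_nonneg_right (mul_le_mul_of_nonneg_right hA (by linarith)) L0
      rw [card_product, two_mul, Real.exp_add]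
      push_cast
      exact mul_le_mul b3 b3 (Nat.cast_nonneg _) (Real.exp_pos _).le
    have a2 : ((((range (j + 1)).biUnion fun i => Φ i ×ˢ Φ i).card : ℕ) : ℝ) ≤
        ∑ i ∈ range (j + 1), (((Φ i ×ˢ Φ i).card : ℕ) : ℝ) := by
      exact_mod_cast card_biUnion_le
    have a3 := sum_le_card_nsmul _ _ _ a1
    rw [card_range, nsmul_eq_mul] at a3
    have a4 : ((j + 1 : ℕ) : ℝ) ≤ Real.exp (max (j : ℝ) (Real.log (Real.log q))) := by
      have := Real.add_one_le_exp (max (j : ℝ) (Real.log (Real.log q)))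
      push_cast
      linarith
    refine (a2.trans a3).trans ((mul_le_mul_of_nonneg_right a4 (Real.exp_pos _).le).trans ?_)
    rw [← Real.exp_add]
    exact Real.exp_le_exp.2 a0
  · have hx4 : x ≤ 1 / 4 := by linarith
    obtain ⟨e1, e2, -⟩ := G.ext_of_BB hx4 (E1 j) P Q hB
    obtain ⟨Y, y1, y2, y3⟩ := c2 j P trivial e1
    obtain ⟨X, x1, x2, x3⟩ := c2 j Q trivial e2
    obtain ⟨p1, p2⟩ := G.pool_of_cont hx4 (E1 j) hΓ0 P Q hB x2 x3 y2 y3
    refine ⟨(X, Y), mem_biUnion.2 ⟨j, self_mem_range_succ j, mem_product.2 ⟨x1, y1⟩⟩, p1,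
      p2.trans (mul_le_mul_of_nonneg_right ?_ (by positivity))⟩
    have j0 : (0 : ℝ) ≤ j := Nat.cast_nonneg _
    have b1 : Real.exp j ^ 2 ≤ Real.exp (4 * j) := by
      rw [sq, ← Real.exp_add]
      exact Real.exp_le_exp.2 (by linarith)
    have b2 : Γ ^ 2 ≤ (H : ℝ) ^ 2 := pow_le_pow_left₀ (by linarith) hΓ 2
    have b3 : 12 * Γ ^ 2 ≤ (H : ℝ) ^ 3 := by
      have b4 : 12 * (H : ℝ) ^ 2 ≤ H * (H : ℝ) ^ 2 :=
        mul_le_mul_of_nonneg_right (by linarith) (by positivity)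
      have b5 : (H : ℝ) ^ 3 = H * (H : ℝ) ^ 2 := by ring
      linarith
    exact mul_le_mul b3 b1 (by positivity) (by positivity)

/-- the top level qualifies -/
theorem CapA_top {H D k : ℕ} (h : NP q t H D k) {PP QQ : Finset (Pt × Pt) → Finset Pt} {x : ℝ}
    {Z Z' T : Finset (Pt × Pt)} (h' : Z' ⊆ Z) (hc : 100 * (k : ℝ) / H ≤ Z'.card)
    (hv : G.Valid PP QQ x H k Z Z' T) :
    3 * (k : ℝ) / H ≤ (Z ∩ G.BB x (PP T) (QQ T)).card ∧
      (q : ℝ) ^ t / Real.exp (aJ q t) ≤ (G.BB x (PP T) (QQ T)).card := by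
  have a1 := G.valid_BB h' hv
  have a2 := CapA_one h
  have a3 : ((Z ∩ G.BB x (PP T) (QQ T)).card : ℝ) ≤ (G.BB x (PP T) (QQ T)).card := by
    exact_mod_cast card_le_card inter_subset_right
  rw [mul_div_assoc] at a1 hc ⊢
  refine ⟨by linarith, ((div_le_one (Real.exp_pos _)).2 (h.pow_le_exp_aJ)).trans (by linarith)⟩

/-- the size of the low flags at their level -/
theorem CapA_lev {x : ℝ} (hx : x ≤ 1 / 4) {j : ℕ} {P Q : Finset Pt}
    (hmin : ∀ i < j, ¬ (q : ℝ) ^ t / Real.exp i ≤ (G.BB x P Q).card) :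
    ((G.BB x P Q).card : ℝ) ≤ 5 * Real.exp (-j) * (q : ℝ) ^ t := by
  have q3 : (0 : ℝ) ≤ (q : ℝ) ^ t := by positivity
  rcases j with _ | i
  · refine (G.card_BB_le hx _ _).trans ?_
    simp only [Nat.cast_zero, neg_zero, Real.exp_zero]
    linarith
  · refine (not_le.1 (hmin i (Nat.lt_succ_self i))).le.trans ?_
    rw [div_eq_mul_inv, ← Real.exp_neg, mul_comm]
    refine mul_le_mul_of_nonneg_right ?_ q3
    have a1 : Real.exp (-(i : ℝ)) = Real.exp 1 * Real.exp (-((i + 1 : ℕ) : ℝ)) := by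
      rw [← Real.exp_add]
      congr 1
      push_cast
      ring
    have a3 : Real.exp 1 ≤ 5 := Real.exp_one_lt_d9.le.trans (by norm_num)
    rw [a1]
    exact mul_le_mul_of_nonneg_right a3 (Real.exp_pos _).le

/-- the tiny pools of the parents -/
theorem CapA_par {H D k : ℕ} (h : NP q t H D k) {Z T2 Z2 Zs : Finset (Pt × Pt)} {u v s : ℕ}
    (hF : G.Fine H D k Z T2 Z2 Zs u v s) {P Q : Finset Pt} (hZ : Z ⊆ G.pool P Q)
    (huv : u + v ≤ t) {Zl : Finset (Pt × Pt)} (hl : G.Kids H k T2 Z2 Zl s) :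
    ∃ B ⊆ Z, 2 * (B.card : ℝ) ≤ at0 q H ∧
      3 * (k : ℝ) / H ≤ (Z ∩ B.biUnion (G.ppool T2 P Q)).card ∧
      ((B.biUnion (G.ppool T2 P Q)).card : ℝ) ≤
        Real.exp (-(Real.log (Real.log q) / 2)) * (q : ℝ) ^ t := by
  have hH := h.H_ge'
  have hq := h.q_ge
  have q2 : (0 : ℝ) < (q : ℝ) ^ 2 := pow_pos (by linarith) 2
  have a2 := CapA_one h
  have hb := hl.big
  obtain ⟨B, b1, b2, b3, b4⟩ := G.hit_par h hF hZ (θ := 4 * (q : ℝ) ^ t / (q : ℝ) ^ 2)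
    (by positivity) hl.sub (by rw [mul_div_assoc] at hb ⊢; linarith) (fun z hz => by
      refine (hl.many z hz).trans (Nat.mul_le_mul_left 2 (card_le_card fun z' hz' => ?_))
      rw [mem_selIn] at hz' ⊢
      refine ⟨hz'.1, hz'.2, ?_⟩
      rw [le_div_iff₀ q2]
      refine G.card_ppool_tiny T2 P Q z' ?_
      have r1 := hF.cl1.rank z' hz'.1
      have r2 := hF.cl2.rank z'.swap (mem_sw.2 (by simpa using hz'.1))
      rw [Prod.fst_swap] at r2
      rw [r1, r2]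
      exact huv)
  refine ⟨B, b1, b2, b3, b4.trans ?_⟩
  have s1 : (1 : ℝ) ≤ s := by
    have d1 := h.D_ge
    have d2 : (1 : ℝ) ≤ (H : ℝ) ^ 3 := one_le_pow₀ (by linarith)
    have d3 : 16 * (D : ℝ) ≤ s := by exact_mod_cast hF.s16
    linarith
  refine (div_le_self (by positivity) s1).trans ?_
  have e : 4 * (k : ℝ) * (4 * (q : ℝ) ^ t / (q : ℝ) ^ 2) = 16 * k * (q : ℝ) ^ t / (q : ℝ) ^ 2 := by
    ring
  rw [e, div_le_iff₀ q2, mul_right_comm (Real.exp _)]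
  exact mul_le_mul_of_nonneg_right (h.tiny_le) (by positivity)

/-- `lev T` = least `j` with `q^t / exp j ≤ |BB|` (`0` if there is none; for valid `T` the level
`aJ` qualifies by `valid_BB`), so `|BB| ≤ 5 exp (-j) q^t` (`card_BB_le`). `two_rounds`; menu item
`0` if `ℓ ≤ j`; else item `s + 2` (`hit_st2`, `ax_small`) or item `1` (`hit_par` with
`θ = 4 q^t / q^2`, `card_ppool_tiny`, `tiny_le`). -/
theorem cap_A {H D k : ℕ} (h : NP q t H D k) {x A Γ : ℝ} (hx : x ≤ 1 / 8) (hA0 : 0 ≤ A)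
    (hA : A ≤ H) (hΓ0 : 1 ≤ Γ) (hΓ : Γ ≤ H) (hK : G.KLp x A Γ) :
    ∃ F : ℕ → Finset (Finset Pt × Finset Pt),
      (∀ j : ℕ, ((F j).card : ℝ) ≤
        Real.exp (k * (max (j : ℝ) (Real.log (Real.log q)) / 2 + 1) / (4 * H))) ∧
      ∀ (PP QQ : Finset (Pt × Pt) → Finset Pt) (Z T2 Z2 Zs : Finset (Pt × Pt)) (u v s : ℕ),
        G.Smp PP QQ x H k Z → G.Fine H D k Z T2 Z2 Zs u v s →
        (s = 16 * D ∨ (u + v ≤ t ∧ ∃ Zl, G.Kids H k T2 Z2 Zl s)) →
        ∃ j ≤ aJ q t, hits (G.Cov PP QQ x H k j (F j)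
          ((H : ℝ) ^ 3 * Real.exp (-(max (j : ℝ) (Real.log (Real.log q)) / 2)))) (aw H k) Z := by
  classical
  obtain ⟨F, hFm, hFc, hF⟩ := G.kl_pairs h hx hA0 hA hΓ0 hΓ hK
  refine ⟨F, hFc, ?_⟩
  intro PP QQ Z T2 Z2 Zs u v s hS hFi hs
  have hx4 : x ≤ 1 / 4 := by linarith
  have hH := h.H_ge'
  have hl := h.ell_ge
  have k1 := CapA_one h
  have hZ : 100 * (k : ℝ) / H ≤ Z.card := by
    have := hFi.big
    rw [mul_div_assoc] at this ⊢
    linarith
  let lev : Finset (Pt × Pt) → ℕ := fun T =>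
    if hT : ∃ j : ℕ, (q : ℝ) ^ t / Real.exp j ≤ (G.BB x (PP T) (QQ T)).card then Nat.find hT
    else 0
  have hlev : ∀ T, (q : ℝ) ^ t / Real.exp (aJ q t) ≤ (G.BB x (PP T) (QQ T)).card →
      (q : ℝ) ^ t / Real.exp (lev T) ≤ (G.BB x (PP T) (QQ T)).card ∧ lev T ≤ aJ q t ∧
      ∀ i < lev T, ¬ (q : ℝ) ^ t / Real.exp i ≤ (G.BB x (PP T) (QQ T)).card := by
    intro T hT
    have hex : ∃ j : ℕ, (q : ℝ) ^ t / Real.exp j ≤ (G.BB x (PP T) (QQ T)).card := ⟨_, hT⟩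
    have e : lev T = Nat.find hex := dif_pos hex
    rw [e]
    exact ⟨Nat.find_spec hex, Nat.find_min' hex hT, fun i hi => Nat.find_min hex hi⟩
  obtain ⟨Ts, Z', h', hc, hv, hit⟩ := G.two_rounds h hx hS hZ lev F hFm
    (fun Z' h' hc T hv => (hlev T (G.CapA_top h h' hc hv).2).1)
    (fun T hv => by
      obtain ⟨XY, c1, c2, c3⟩ := hF (lev T) _ _ (hlev T (G.CapA_top h Subset.rfl hZ hv).2).1
      refine ⟨XY, c1, c3, ?_⟩
      have a1 := G.valid_BB Subset.rfl hv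
      have a2 := hFi.big
      have a3 : ((Z ∩ G.BB x (PP T) (QQ T)).card : ℝ) ≤ (Z ∩ G.pool XY.1 XY.2).card := by
        exact_mod_cast card_le_card (inter_subset_inter_left c2)
      rw [mul_div_assoc] at a1 a2 ⊢
      linarith)
  obtain ⟨t1, t2⟩ := G.CapA_top h h' hc hv
  obtain ⟨hQ, hJ, hmin⟩ := hlev Ts t2
  refine ⟨lev Ts, hJ, ?_⟩
  generalize lev Ts = j at hit hQ hmin
  have j0 : (0 : ℝ) ≤ j := Nat.cast_nonneg _
  have qt : (0 : ℝ) ≤ (q : ℝ) ^ t := by positivity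
  have H3 : (5 : ℝ) ≤ (H : ℝ) ^ 3 :=
    le_trans (by linarith) (le_self_pow₀ (by linarith) (by norm_num))
  have a0 : 0 ≤ at0 q H := le_trans (by positivity) hFi.t2c
  rcases le_or_gt (Real.log (Real.log q)) j with hj | hj
  · rw [max_eq_left hj]
    refine hit ∅ ∅ 0 _ (empty_subset _) (empty_subset _) (by simpa using a0) (by omega) ?_ t1
    refine (G.CapA_lev hx4 hmin).trans (mul_le_mul_of_nonneg_right ?_ qt)
    exact mul_le_mul H3 (Real.exp_le_exp.2 (by linarith)) (Real.exp_pos _).le (by positivity)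
  rw [max_eq_right hj.le]
  have hE : Real.exp (-(Real.log (Real.log q) / 2)) * (q : ℝ) ^ t ≤
      (H : ℝ) ^ 3 * Real.exp (-(Real.log (Real.log q) / 2)) * (q : ℝ) ^ t :=
    mul_le_mul_of_nonneg_right (le_mul_of_one_le_left (Real.exp_pos _).le (by linarith)) qt
  rcases hs with hs | ⟨huv, Zl, hZl⟩
  · obtain ⟨-, -, -, hO, -⟩ := G.ext_of_BB hx4 (Real.one_le_exp j0) _ _ hQ
    obtain ⟨x1, x2⟩ := h.ax_small
    rw [← hs] at x1 x2
    obtain ⟨hsk, A', b1, b2, b3, b4⟩ := G.hit_st2 h hFi hv.all hO (by linarith) x2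
    refine hit A' ∅ (s + 2) _ b1 (empty_subset _) (by simpa using b2) (by omega) ?_ b3
    exact b4.trans ((mul_le_mul_of_nonneg_right x1 qt).trans hE)
  · obtain ⟨B, b1, b2, b3, b4⟩ := G.CapA_par h hFi hv.all huv hZl
    have := hFi.t2c
    exact hit T2 B 1 _ hFi.t2 b1 (by linarith) (by omega) (b4.trans hE) b3

end GP

end Pool.Agent.Work.MP_e10cd8_co.All
end

-- merged part: Pool.Agent.Work.MP_e10cd8_co.All.Rich
section
/-! Cheap containers from rich subspaces (paper 7). -/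

namespace Pool.Agent.Work.MP_e10cd8_co.All

open Finset Four

namespace GP

variable {q t : ℕ} {Pt : Type} [Fintype Pt] [DecidableEq Pt] (G : GP q t Pt)

omit [Fintype Pt] in
theorem Rich_cs (Rs : Finset (Finset Pt)) (P : Finset Pt) {g : ℕ}
    (h : ∀ R ∈ Rs, ∀ R' ∈ Rs, R ≠ R' → (R ∩ R').card ≤ g) :
    (∑ R ∈ Rs, ((R ∩ P).card : ℝ)) ^ 2 ≤ (Rs.biUnion id ∩ P).card *
      (∑ R ∈ Rs, ((R ∩ P).card : ℝ) + (Rs.card : ℝ) ^ 2 * g) := by
  have e1 : ∀ R ∈ Rs, ((R ∩ P).card : ℝ) =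
      ∑ a ∈ Rs.biUnion id ∩ P, if a ∈ R then (1 : ℝ) else 0 := fun R hR => by
    rw [sum_boole]
    refine congrArg (fun S : Finset Pt => (S.card : ℝ)) (ext fun a => ?_)
    rw [mem_filter, mem_inter, mem_inter]
    exact ⟨fun k => ⟨⟨mem_biUnion.2 ⟨R, hR, k.1⟩, k.2⟩, k.1⟩, fun k => ⟨k.2, k.1.2⟩⟩
  have e2 : ∀ R ∈ Rs, ∀ R' ∈ Rs, ∑ a ∈ Rs.biUnion id ∩ P,
      (if a ∈ R then (1 : ℝ) else 0) * (if a ∈ R' then (1 : ℝ) else 0) ≤
      (if R = R' then ((R ∩ P).card : ℝ) else 0) + g := fun R hR R' hR' => by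
    simp only [ite_zero_mul_ite_zero, mul_one, sum_boole]
    by_cases k : R = R'
    · rw [if_pos k]
      refine le_add_of_le_of_nonneg (Nat.cast_le.2 (card_le_card fun a ha => ?_)) (Nat.cast_nonneg _)
      rw [mem_filter, mem_inter] at ha
      exact mem_inter.2 ⟨ha.2.1, ha.1.2⟩
    · rw [if_neg k, zero_add]
      exact Nat.cast_le.2 ((card_le_card fun a ha => mem_inter.2 (mem_filter.1 ha).2).trans
        (h R hR R' hR' k))
  conv_lhs => rw [sum_congr rfl e1, sum_comm]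
  refine sq_sum_le_card_mul_sum_sq.trans (mul_le_mul_of_nonneg_left ?_ (Nat.cast_nonneg _))
  simp only [sq, sum_mul_sum]
  rw [sum_comm]
  refine (sum_le_sum fun R hR => (sum_comm.trans_le (sum_le_sum (e2 R hR)))).trans (le_of_eq ?_)
  simp only [sum_add_distrib, sum_const, nsmul_eq_mul, mul_assoc]
  exact congrArg (· + _) (sum_congr rfl fun R hR => by rw [sum_ite_eq, if_pos hR])

/-- `I = ∑ R, |R ∩ P| ≥ h ρ`; Cauchy-Schwarz for the multiplicities gives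
`I^2 ≤ |P'| (I + h^2 gs (u - 1))` (`card_inter_closed`), and `h^2 gs (u - 1) ≤ 2 h q^u / q` -/
theorem rich_union {u : ℕ} (hu : 1 ≤ u) {E : ℝ} (hE : 1 ≤ E) (P : Finset Pt)
    {Rs : Finset (Finset Pt)} (hc : Rs.card ≤ q)
    (h : ∀ R ∈ Rs, G.cl R = R ∧ G.rk R = u ∧ (q : ℝ) ^ u ≤ E * q * (R ∩ P).card) :
    Rs.card * (q : ℝ) ^ u ≤ 3 * E ^ 2 * q * (Rs.biUnion id ∩ P).card ∧
      ((Rs.biUnion id).card : ℝ) ≤ 6 * E ^ 2 * (Rs.biUnion id ∩ P).card := by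
  have q2 := G.two_le
  have q0 : (0 : ℝ) < q := Nat.cast_pos.2 (by omega)
  have hc' : (Rs.card : ℝ) ≤ q := Nat.cast_le.2 hc
  have g1 : (gs q (u - 1) : ℝ) * q * q ≤ 2 * (q : ℝ) ^ u := by
    have h1 : (gs q (u - 1) : ℝ) * q ≤ 2 * (q : ℝ) ^ (u - 1) := by
      exact_mod_cast gs_mul_le q2 (u - 1)
    calc _ ≤ 2 * (q : ℝ) ^ (u - 1) * q := mul_le_mul_of_nonneg_right h1 q0.le
      _ = _ := by rw [mul_assoc, ← pow_succ, Nat.sub_add_cancel hu]
  have g2 : (gs q u : ℝ) * q ≤ 2 * (q : ℝ) ^ u := by exact_mod_cast gs_mul_le q2 u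
  have cs := Rich_cs Rs P (g := gs q (u - 1)) fun R hR R' hR' hne => by
    have := G.card_inter_closed (h R hR).1 (h R' hR').1 hne ((h R hR).2.1.trans (h R' hR').2.1.symm)
    rwa [(h R hR).2.1] at this
  have i1 : Rs.card * (q : ℝ) ^ u ≤ E * q * ∑ R ∈ Rs, ((R ∩ P).card : ℝ) := by
    rw [mul_sum, ← nsmul_eq_mul]
    exact card_nsmul_le_sum _ _ _ fun R hR => (h R hR).2.2
  have u1 : ((Rs.biUnion id).card : ℝ) ≤ Rs.card * gs q u := by
    have : (Rs.biUnion id).card ≤ Rs.card * gs q u :=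
      card_biUnion_le_card_mul _ _ _ fun R hR => by
        rw [id, ← (h R hR).1, G.card_cl, (h R hR).2.1]
    exact_mod_cast this
  have I0 : 0 ≤ ∑ R ∈ Rs, ((R ∩ P).card : ℝ) := sum_nonneg fun _ _ => Nat.cast_nonneg _
  generalize ∑ R ∈ Rs, ((R ∩ P).card : ℝ) = I at cs i1 I0
  have n0 : (0 : ℝ) ≤ (Rs.biUnion id ∩ P).card := Nat.cast_nonneg _
  generalize ((Rs.biUnion id ∩ P).card : ℝ) = n at cs n0 ⊢
  have h0 : (0 : ℝ) ≤ Rs.card := Nat.cast_nonneg _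
  generalize (Rs.card : ℝ) = m at cs i1 u1 hc' h0 ⊢
  have g0 : (0 : ℝ) ≤ gs q (u - 1) := Nat.cast_nonneg _
  have E0 : 0 ≤ E := zero_le_one.trans hE
  have k1 : m ^ 2 * gs q (u - 1) ≤ 2 * E * I := by
    refine le_of_mul_le_mul_right ?_ q0
    calc m ^ 2 * gs q (u - 1) * q = m * (m * (gs q (u - 1) * q)) := by ring
      _ ≤ m * (q * (gs q (u - 1) * q)) := by gcongr
      _ = m * (gs q (u - 1) * q * q) := by ring
      _ ≤ m * (2 * (q : ℝ) ^ u) := mul_le_mul_of_nonneg_left g1 h0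
      _ ≤ 2 * E * I * q := by linarith only [i1]
  have k2 : I ≤ 3 * E * n := by
    rcases I0.eq_or_lt with e | e
    · rw [← e]
      positivity
    · refine le_of_mul_le_mul_right ?_ e
      have k3 : I + m ^ 2 * gs q (u - 1) ≤ 3 * E * I := by
        linarith only [k1, mul_le_mul_of_nonneg_right hE I0]
      linarith only [cs, mul_le_mul_of_nonneg_left k3 n0]
  have k4 : m * (q : ℝ) ^ u ≤ 3 * E ^ 2 * q * n := by
    linarith only [i1, mul_le_mul_of_nonneg_left k2 (mul_nonneg E0 q0.le)]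
  refine ⟨k4, le_of_mul_le_mul_right ?_ q0⟩
  linarith only [k4, mul_le_mul_of_nonneg_right u1 q0.le, mul_le_mul_of_nonneg_left g2 h0]

theorem Rich_count (hq : 1000 ≤ q) (j : ℕ) {B : Finset Pt → Finset (Finset Pt)}
    (hB : ∀ U, ((B U).card : ℝ) ≤
      Real.exp (300 * (t + 1) * q * Real.log q * (1 + Real.log (6 * Real.exp j ^ 2))))
    {C : Finset (Finset Pt)} (hC : C.card ≤ ((sel fun R => G.cl R = R).card + 1) ^ q) :
    (((C ×ˢ C).biUnion fun x => insert x.1 (B x.2) ×ˢ insert x.2 (B x.1)).card : ℝ) ≤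
      Real.exp (2000 * (t + 1) ^ 2 * q * Real.log q * (1 + j)) := by
  have q1 : (1000 : ℝ) ≤ q := by exact_mod_cast hq
  have q0 : (0 : ℝ) < q := by linarith only [q1]
  have t2 : (2 : ℝ) ≤ t := by exact_mod_cast G.ht
  have j0 : (0 : ℝ) ≤ j := Nat.cast_nonneg j
  have L1 : 1 ≤ Real.log q := by
    rw [Real.le_log_iff_exp_le q0]
    linarith only [Real.exp_one_lt_d9, q1]
  obtain ⟨M, hM⟩ : ∃ M : ℝ, M = (t + 1) * q * Real.log q := ⟨_, rfl⟩
  have M1 : 1 ≤ M := by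
    rw [hM]
    exact one_le_mul_of_one_le_of_one_le
      (one_le_mul_of_one_le_of_one_le (by linarith only [t2]) (by linarith only [q1])) L1
  obtain ⟨N, hN⟩ : ∃ N : ℝ, N = (t + 1) * M := ⟨_, rfl⟩
  have N3 : 3 * M ≤ N := hN ▸ mul_le_mul_of_nonneg_right (by linarith only [t2]) (by linarith only [M1])
  have c1 : (C.card : ℝ) ≤ Real.exp (2 * N) := by
    have h1 : 2 ≤ q ^ ((t + 1) * (t + 1)) :=
      le_trans (by omega) (Nat.le_self_pow (by positivity) q)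
    have h2 : C.card ≤ (q ^ ((t + 1) * (t + 1)) * q ^ ((t + 1) * (t + 1))) ^ q :=
      hC.trans (Nat.pow_le_pow_left (by nlinarith only [G.card_closed_le, h1]) q)
    rw [← pow_add, ← pow_mul] at h2
    refine (Nat.cast_le.2 h2).trans (le_of_eq ?_)
    rw [Nat.cast_pow, ← Real.exp_log (pow_pos q0 _), Real.log_pow, hN, hM]
    push_cast
    ring_nf
  have b1 : ∀ U V, ((insert U (B V)).card : ℝ) ≤ Real.exp (N + N * (600 + 200 * j)) := fun U V => by
    have h1 : Real.log (6 * Real.exp j ^ 2) ≤ 5 + 2 * j := by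
      rw [Real.log_mul (by norm_num) (by positivity), Real.log_pow, Real.log_exp]
      push_cast
      linarith only [Real.log_le_sub_one_of_pos (show (0 : ℝ) < 6 by norm_num)]
    have h2 : ((B V).card : ℝ) ≤ Real.exp (N * (600 + 200 * j)) := by
      refine (hB V).trans (Real.exp_le_exp.2 ?_)
      calc _ = 100 * (3 * M) * (1 + Real.log (6 * Real.exp j ^ 2)) := by rw [hM]; ring
        _ ≤ 100 * (3 * M) * (6 + 2 * j) :=
          mul_le_mul_of_nonneg_left (by linarith only [h1]) (by linarith only [M1])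
        _ ≤ 100 * N * (6 + 2 * j) := by gcongr
        _ = _ := by ring
    have h3 : 1 ≤ Real.exp (N * (600 + 200 * j)) :=
      Real.one_le_exp (mul_nonneg (by linarith only [N3, M1]) (by linarith only [j0]))
    have h4 : 2 ≤ Real.exp N := by linarith only [Real.add_one_le_exp N, N3, M1]
    have h5 : ((insert U (B V)).card : ℝ) ≤ (B V).card + 1 := by exact_mod_cast card_insert_le U (B V)
    rw [Real.exp_add]
    linarith only [h2, h3, h5, mul_le_mul_of_nonneg_right h4 (zero_le_one.trans h3)]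
  refine (Boost_bi _ _ (Real.exp (2 * N) * Real.exp (2 * N))
    (Real.exp (N + N * (600 + 200 * j)) * Real.exp (N + N * (600 + 200 * j))) (by positivity) ?_
    fun x _ => ?_).trans ?_
  · rw [card_product, Nat.cast_mul]
    exact mul_le_mul c1 c1 (Nat.cast_nonneg _) (Real.exp_pos _).le
  · rw [card_product, Nat.cast_mul]
    exact mul_le_mul (b1 _ _) (b1 _ _) (Nat.cast_nonneg _) (Real.exp_pos _).le
  · rw [← Real.exp_add, ← Real.exp_add, ← Real.exp_add, Real.exp_le_exp]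
    have e : 2000 * ((t : ℝ) + 1) ^ 2 * q * Real.log q * (1 + j) = 2000 * N * (1 + j) := by
      rw [hN, hM]
      ring
    have N0 : 0 ≤ N := by linarith only [N3, M1]
    rw [e]
    linarith only [N0, mul_nonneg N0 j0]

/-- For each pair of sets of at most `q` closed sets (`card_small_le`, `card_closed_le`) with unions
`U`, `V` take `BV ×ˢ BU`, `{U} ×ˢ BU`, `BV ×ˢ {V}`, where `BU = boost U (6 exp j ^ 2)`. If both given
sets have at least `q` members choose `q` of each; otherwise use the smaller one whole and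
`Q' = ∅` or `P' = ∅`. `card_pool_le`. -/
theorem rich_fam (hq : 1000 ≤ q) (j : ℕ) :
    ∃ F : Finset (Finset Pt × Finset Pt),
      (F.card : ℝ) ≤ Real.exp (2000 * (t + 1) ^ 2 * q * Real.log q * (1 + j)) ∧
      ∀ (P Q : Finset Pt) (u v : ℕ) (Rs Ss : Finset (Finset Pt)), 1 ≤ u → 1 ≤ v → t + 1 ≤ u + v →
        Rs.Nonempty → Ss.Nonempty →
        (∀ R ∈ Rs, G.cl R = R ∧ G.rk R = u ∧ (q : ℝ) ^ u ≤ Real.exp j * q * (R ∩ P).card) →
        (∀ S ∈ Ss, G.cl S = S ∧ G.rk S = v ∧ (q : ℝ) ^ v ≤ Real.exp j * q * (S ∩ Q).card) →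
        ∃ XY ∈ F, ((G.pool XY.1 XY.2).card : ℝ) ≤ 156 * Real.exp (4 * j) * (q : ℝ) ^ t ∧
          ∃ P' ⊆ P, ∃ Q' ⊆ Q,
            (G.low (1 / 8) P' ⊆ XY.2 ∧ G.low (1 / 8) Q' ⊆ XY.1) ∨
            (G.low (1 / 8) P' ⊆ XY.2 ∧ ∀ R ∈ Rs, R ⊆ XY.1) ∨
            (G.low (1 / 8) Q' ⊆ XY.1 ∧ ∀ S ∈ Ss, S ⊆ XY.2) := by
  have E1 : 1 ≤ Real.exp j := Real.one_le_exp (Nat.cast_nonneg j)
  have E2 : 1 ≤ Real.exp j ^ 2 := one_le_pow₀ E1
  have q0 : (0 : ℝ) < q := Nat.cast_pos.2 (by omega)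
  choose B hB1 hB2 using fun U => G.boost hq U (Om := 6 * Real.exp j ^ 2) (by linarith only [E2])
  set C := (selIn (sel fun R => G.cl R = R).powerset fun T => T.card ≤ q).image
    fun T => T.biUnion id with hC
  refine ⟨(C ×ˢ C).biUnion fun x => insert x.1 (B x.2) ×ˢ insert x.2 (B x.1),
    G.Rich_count hq j hB1 (card_image_le.trans (card_small_le _ _)), ?_⟩
  have key : ∀ (P : Finset Pt) (u : ℕ) (Rs : Finset (Finset Pt)), 1 ≤ u → Rs.Nonempty →
      Rs.card ≤ q →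
      (∀ R ∈ Rs, G.cl R = R ∧ G.rk R = u ∧ (q : ℝ) ^ u ≤ Real.exp j * q * (R ∩ P).card) →
      Rs.biUnion id ∈ C ∧ ∃ Y ∈ B (Rs.biUnion id), G.low (1 / 8) (Rs.biUnion id ∩ P) ⊆ Y ∧
        (Y.card : ℝ) * (Rs.card * (q : ℝ) ^ u) ≤ 12 * Real.exp j ^ 2 * q * (q : ℝ) ^ (t + 1) ∧
        ((Rs.biUnion id).card : ℝ) * Y.card ≤ (12 * Real.exp j ^ 2) ^ 2 * (q : ℝ) ^ (t + 1) := by
    intro P u Rs hu hne hc h
    obtain ⟨h1, h2⟩ := G.rich_union hu E1 P hc h
    have h3 : (Rs.biUnion id ∩ P).Nonempty := by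
      rw [← card_pos]
      refine Nat.pos_of_ne_zero fun k => ?_
      rw [k, Nat.cast_zero, mul_zero] at h1
      exact absurd h1 (not_le.2 (mul_pos (Nat.cast_pos.2 hne.card_pos) (pow_pos q0 u)))
    obtain ⟨Y, y1, y2, y3⟩ := hB2 (Rs.biUnion id) _ inter_subset_left h3 h2
    have y0 : (0 : ℝ) ≤ Y.card := Nat.cast_nonneg _
    refine ⟨mem_image.2 ⟨Rs, mem_selIn.2 ⟨mem_powerset.2 fun R hR =>
      (mem_sel (p := fun R => G.cl R = R)).2 (h R hR).1, hc⟩, rfl⟩, Y, y1, y2, ?_, ?_⟩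
    · linarith only [mul_le_mul_of_nonneg_left h1 y0,
        mul_le_mul_of_nonneg_left y3 (show 0 ≤ 3 * Real.exp j ^ 2 * q by positivity)]
    · have h4 : 24 * Real.exp j ^ 2 ≤ (12 * Real.exp j ^ 2) ^ 2 := by nlinarith only [E2]
      linarith only [mul_le_mul_of_nonneg_right h2 y0,
        mul_le_mul_of_nonneg_left y3 (show 0 ≤ 6 * Real.exp j ^ 2 by positivity),
        mul_le_mul_of_nonneg_right h4 (pow_pos q0 (t + 1)).le]
  have fin : ∀ X Y : Finset Pt,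
      (X.card : ℝ) * Y.card ≤ (12 * Real.exp j ^ 2) ^ 2 * (q : ℝ) ^ (t + 1) →
      ((G.pool X Y).card : ℝ) ≤ 156 * Real.exp (4 * j) * (q : ℝ) ^ t := fun X Y h => by
    refine (G.card_pool_le X Y (by positivity) h).trans
      (mul_le_mul_of_nonneg_right ?_ (pow_pos q0 t).le)
    rw [show Real.exp (4 * j) = Real.exp j ^ 4 by exact_mod_cast Real.exp_nat_mul j 4]
    nlinarith only [E2]
  intro P Q u v Rs Ss hu hv huv hR hS h1 h2
  by_cases c1 : Rs.card ≤ q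
  · obtain ⟨m, Y, y1, y2, -, y4⟩ := key P u Rs hu hR c1 h1
    exact ⟨(Rs.biUnion id, Y), mem_biUnion.2 ⟨(_, _), mk_mem_product m m,
      mk_mem_product (mem_insert_self _ _) (mem_insert_of_mem y1)⟩, fin _ _ y4, _,
      inter_subset_right, ∅, empty_subset _,
      Or.inr (Or.inl ⟨y2, fun R hR => subset_biUnion_of_mem id hR⟩)⟩
  by_cases c2 : Ss.card ≤ q
  · obtain ⟨m, Y, y1, y2, -, y4⟩ := key Q v Ss hv hS c2 h2
    exact ⟨(Y, Ss.biUnion id), mem_biUnion.2 ⟨(_, _), mk_mem_product m m,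
      mk_mem_product (mem_insert_of_mem y1) (mem_insert_self _ _)⟩,
      fin _ _ (by rwa [mul_comm] at y4), ∅, empty_subset _, _, inter_subset_right,
      Or.inr (Or.inr ⟨y2, fun R hR => subset_biUnion_of_mem id hR⟩)⟩
  obtain ⟨Rs', r1, r2⟩ := exists_subset_card_eq (not_le.1 c1).le
  obtain ⟨Ss', s1, s2⟩ := exists_subset_card_eq (not_le.1 c2).le
  obtain ⟨m, Y, y1, y2, y3, -⟩ := key P u Rs' hu (card_pos.1 (by omega)) r2.le
    fun R hR => h1 R (r1 hR)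
  obtain ⟨m', X, x1, x2, x3, -⟩ := key Q v Ss' hv (card_pos.1 (by omega)) s2.le
    fun R hR => h2 R (s1 hR)
  refine ⟨(X, Y), mem_biUnion.2 ⟨(_, _), mk_mem_product m m',
    mk_mem_product (mem_insert_of_mem x1) (mem_insert_of_mem y1)⟩, fin _ _ ?_, _,
    inter_subset_right, _, inter_subset_right, Or.inl ⟨y2, x2⟩⟩
  rw [r2] at y3
  rw [s2] at x3
  have q1 : (1 : ℝ) ≤ q := by exact_mod_cast le_trans (by norm_num) hq
  have k1 : (q : ℝ) ^ (t + 1) ≤ (q : ℝ) ^ v * (q : ℝ) ^ u := by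
    rw [← pow_add]
    exact pow_le_pow_right₀ q1 (by omega)
  refine le_of_mul_le_mul_right ?_ (show 0 < (q : ℝ) ^ 2 * (q : ℝ) ^ (t + 1) by positivity)
  calc (X.card : ℝ) * Y.card * ((q : ℝ) ^ 2 * (q : ℝ) ^ (t + 1))
      ≤ (X.card : ℝ) * Y.card * ((q : ℝ) ^ 2 * ((q : ℝ) ^ v * (q : ℝ) ^ u)) := by gcongr
    _ = (X.card * (q * (q : ℝ) ^ v)) * (Y.card * (q * (q : ℝ) ^ u)) := by ring
    _ ≤ (12 * Real.exp j ^ 2 * q * (q : ℝ) ^ (t + 1)) *
        (12 * Real.exp j ^ 2 * q * (q : ℝ) ^ (t + 1)) :=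
      mul_le_mul x3 y3 (by positivity) (by positivity)
    _ = _ := by ring

end GP

end Pool.Agent.Work.MP_e10cd8_co.All
end

-- merged part: Pool.Agent.Work.MP_e10cd8_co.All.CapB
section
/-! Case B: the cheap containers (paper 7). -/

namespace Pool.Agent.Work.MP_e10cd8_co.All

open Finset Four

namespace GP

variable {q t : ℕ} {Pt : Type} [Fintype Pt] [DecidableEq Pt] (G : GP q t Pt)

/-- the increasing family of container pairs -/
theorem CapB_fam {H D k : ℕ} (h : NP q t H D k) {α : Type} [DecidableEq α] (F0 : ℕ → Finset α)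
    (hF0 : ∀ j : ℕ, ((F0 j).card : ℝ) ≤
      Real.exp (2000 * (t + 1) ^ 2 * q * Real.log q * (1 + j))) (j : ℕ) :
    (((range (j + 1)).biUnion F0).card : ℝ) ≤ Real.exp (k * ((j : ℝ) / 2 + 1) / (4 * H)) := by
  have hq := h.q_ge
  have hH := h.H_ge'
  have hH4 := h.H_ge
  have hL0 := h.L_ge
  have hk := h.hk1
  have hj : (0 : ℝ) ≤ j := Nat.cast_nonneg _
  have ht : (0 : ℝ) ≤ t := Nat.cast_nonneg _
  have hH1 : (1 : ℝ) ≤ H := by linarith only [hH]
  have hL : (1 : ℝ) ≤ Real.log q := by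
    have := one_le_pow₀ (n := 6) hH1
    linarith only [this, hL0]
  have hA : (1 : ℝ) ≤ q * Real.log q := one_le_mul_of_one_le_of_one_le (by linarith only [hq]) hL
  have hc : (1 : ℝ) ≤ ((t : ℝ) + 1) ^ 2 := one_le_pow₀ (by linarith only [ht])
  have hc4 : ((t : ℝ) + 1) ^ 2 ≤ ((t : ℝ) + 1) ^ 4 :=
    pow_le_pow_right₀ (by linarith only [ht]) (by norm_num)
  have hH2 : (H : ℝ) ^ 2 ≤ (H : ℝ) ^ 6 := pow_le_pow_right₀ hH1 (by norm_num)
  obtain ⟨B, hB⟩ : ∃ B : ℝ, B = ((t : ℝ) + 1) ^ 2 * (q * Real.log q) := ⟨_, rfl⟩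
  have hB1 : 1 ≤ B := hB ▸ one_le_mul_of_one_le_of_one_le hc hA
  have hkB : 10 ^ 6 * B * H ≤ k := by
    have a1 : (10 : ℝ) ^ 6 * ((t : ℝ) + 1) ^ 2 ≤ H := by linarith only [hc4, hH4]
    have a2 := mul_le_mul_of_nonneg_right a1 (by linarith only [hH1] : (0 : ℝ) ≤ H)
    have a3 : (10 : ℝ) ^ 6 * ((t : ℝ) + 1) ^ 2 * H ≤ (H : ℝ) ^ 6 := by linarith only [a2, hH2]
    have a4 := mul_le_mul_of_nonneg_right a3 (by linarith only [hA] : (0 : ℝ) ≤ q * Real.log q)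
    rw [hB]
    linarith only [a4, hk]
  have h1 : (((range (j + 1)).biUnion F0).card : ℝ) ≤ ∑ i ∈ range (j + 1), ((F0 i).card : ℝ) := by
    exact_mod_cast card_biUnion_le
  have h2 : ∀ i ∈ range (j + 1), ((F0 i).card : ℝ) ≤ Real.exp (2000 * B * (1 + j)) := by
    intro i hi
    refine (hF0 i).trans (Real.exp_le_exp.2 ?_)
    have a1 : (i : ℝ) ≤ j := by exact_mod_cast Nat.lt_succ_iff.1 (mem_range.1 hi)
    have a2 := mul_le_mul_of_nonneg_left a1 (by linarith only [hB1] : 0 ≤ B)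
    have e1 : 2000 * ((t : ℝ) + 1) ^ 2 * q * Real.log q = 2000 * B := by rw [hB]; ring
    rw [e1]
    linarith only [a2]
  have h3 := sum_le_card_nsmul _ _ _ h2
  rw [card_range, nsmul_eq_mul] at h3
  have h4 : ((j + 1 : ℕ) : ℝ) ≤ Real.exp j := by
    push_cast
    exact Real.add_one_le_exp _
  calc _ ≤ Real.exp j * Real.exp (2000 * B * (1 + j)) :=
        h1.trans (h3.trans (mul_le_mul_of_nonneg_right h4 (Real.exp_pos _).le))
    _ = Real.exp (j + 2000 * B * (1 + j)) := (Real.exp_add _ _).symm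
    _ ≤ _ := by
        refine Real.exp_le_exp.2 ?_
        rw [le_div_iff₀ (by linarith only [hH1])]
        have a1 := mul_le_mul_of_nonneg_right hB1 hj
        have a2 : j + 2000 * B * (1 + j) ≤ 250000 * B * ((j : ℝ) / 2 + 1) := by
          linarith only [a1, hj, hB1]
        have a3 := mul_le_mul_of_nonneg_right a2 (by linarith only [hH1] : (0 : ℝ) ≤ 4 * H)
        have a4 := mul_le_mul_of_nonneg_right hkB (by linarith only [hj] : 0 ≤ (j : ℝ) / 2 + 1)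
        linarith only [a3, a4]

/-- both spans of the flag meet the allowed sets in many points -/
def CapB_rich (T2 : Finset (Pt × Pt)) (P Q : Finset Pt) (u v j : ℕ) (z' : Pt × Pt) : Prop :=
  (q : ℝ) ^ u ≤ Real.exp j * q * (G.spn T2 z'.1 ∩ P).card ∧
    (q : ℝ) ^ v ≤ Real.exp j * q * (G.spn (sw T2) z'.2 ∩ Q).card

/-- the level condition -/
def CapB_Q (x : ℝ) (T2 Z2 Zl : Finset (Pt × Pt)) (P Q : Finset Pt) (u v j : ℕ) : Prop :=
  (q : ℝ) ^ t / Real.exp j ≤ (G.BB x P Q).card ∧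
    Zl.card ≤ 2 * (selIn Zl fun z => ∃ z' ∈ Z2, G.par T2 z' z ∧ G.CapB_rich T2 P Q u v j z').card

theorem CapB_one {H D k : ℕ} (h : NP q t H D k) : 1 ≤ (k : ℝ) / H := by
  have hH := h.H_ge'
  have a1 := h.one_le_div
  have a2 : (k : ℝ) / H ^ 2 ≤ k / H :=
    div_le_div_of_nonneg_left (Nat.cast_nonneg _) (by linarith only [hH])
      (le_self_pow₀ (by linarith only [hH]) (by norm_num))
  linarith only [a1, a2]

omit [Fintype Pt] [DecidableEq Pt] in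
theorem CapB_pt {H D k : ℕ} (h : NP q t H D k) {u : ℕ} (hu : u ≤ t) {R : Finset Pt}
    (hR : R.Nonempty) : (q : ℝ) ^ u ≤ Real.exp (aJ q t) * q * R.card := by
  have hq : (1 : ℝ) ≤ q := by linarith only [h.q_ge]
  have a1 : (1 : ℝ) ≤ R.card := by exact_mod_cast card_pos.2 hR
  have a2 := (pow_le_pow_right₀ hq hu).trans h.pow_le_exp_aJ
  rw [mul_assoc]
  exact a2.trans (le_mul_of_one_le_right (Real.exp_pos _).le (one_le_mul_of_one_le_of_one_le hq a1))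

theorem CapB_top {H D k : ℕ} (h : NP q t H D k) {x : ℝ}
    {PP QQ : Finset (Pt × Pt) → Finset Pt} {Z T2 Z2 Zs Zl Z' T : Finset (Pt × Pt)} {u v s : ℕ}
    (hF : G.Fine H D k Z T2 Z2 Zs u v s) (hK : G.Kids H k T2 Z2 Zl s) (h' : Z' ⊆ Z)
    (hc : 100 * (k : ℝ) / H ≤ Z'.card) (hv : G.Valid PP QQ x H k Z Z' T) :
    G.CapB_Q x T2 Z2 Zl (PP T) (QQ T) u v (aJ q t) := by
  constructor
  · have a1 := G.valid_BB h' hv
    have a2 : ((Z ∩ G.BB x (PP T) (QQ T)).card : ℝ) ≤ (G.BB x (PP T) (QQ T)).card := by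
      exact_mod_cast card_le_card inter_subset_right
    have a3 := CapB_one h
    have a4 : (q : ℝ) ^ t / Real.exp (aJ q t) ≤ 1 :=
      (div_le_one (Real.exp_pos _)).2 h.pow_le_exp_aJ
    rw [mul_div_assoc] at a1 hc
    linarith only [a1, a2, a3, a4, hc]
  · have : Zl ⊆ selIn Zl fun z => ∃ z' ∈ Z2, G.par T2 z' z ∧
        G.CapB_rich T2 (PP T) (QQ T) u v (aJ q t) z' := by
      intro z hz
      have hp := G.mem_pool.1 (hv.all (hF.z2 (hK.sub hz)))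
      exact mem_selIn.2 ⟨hz, z, hK.sub hz, ⟨G.mem_spn _ _, G.mem_spn _ _⟩,
        CapB_pt h hF.cl1.le_t ⟨z.1, mem_inter.2 ⟨G.mem_spn _ _, hp.2.1⟩⟩,
        CapB_pt h hF.cl2.le_t ⟨z.2, mem_inter.2 ⟨G.mem_spn _ _, hp.2.2⟩⟩⟩
    have := card_le_card this
    omega

theorem CapB_rk2 {T2 Z2 : Finset (Pt × Pt)} {v D : ℕ} (h : G.Cl1 (sw T2) v D (sw Z2))
    {z : Pt × Pt} (hz : z ∈ Z2) : G.rk (G.spn (sw T2) z.2) = v :=
  h.rank z.swap (mem_sw.2 (by rwa [Prod.swap_swap]))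

/-- the container pair holds many flags -/
theorem CapB_pair {H D k j : ℕ} (h : NP q t H D k) {x : ℝ} (hx : x ≤ 1 / 8)
    {PP QQ : Finset (Pt × Pt) → Finset Pt} {Z T2 Z2 Zs Zl T : Finset (Pt × Pt)} {u v s : ℕ}
    (hF : G.Fine H D k Z T2 Z2 Zs u v s) (hK : G.Kids H k T2 Z2 Zl s)
    (hv : G.Valid PP QQ x H k Z Z T) (hQ : G.CapB_Q x T2 Z2 Zl (PP T) (QQ T) u v j)
    {F : Finset (Finset Pt × Finset Pt)}
    (hR : ∀ Rs Ss : Finset (Finset Pt), Rs.Nonempty → Ss.Nonempty →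
      (∀ R ∈ Rs, G.cl R = R ∧ G.rk R = u ∧ (q : ℝ) ^ u ≤ Real.exp j * q * (R ∩ PP T).card) →
      (∀ S ∈ Ss, G.cl S = S ∧ G.rk S = v ∧ (q : ℝ) ^ v ≤ Real.exp j * q * (S ∩ QQ T).card) →
      ∃ XY ∈ F, ((G.pool XY.1 XY.2).card : ℝ) ≤ 156 * Real.exp (4 * j) * (q : ℝ) ^ t ∧
        ∃ P' ⊆ PP T, ∃ Q' ⊆ QQ T,
          (G.low (1 / 8) P' ⊆ XY.2 ∧ G.low (1 / 8) Q' ⊆ XY.1) ∨
          (G.low (1 / 8) P' ⊆ XY.2 ∧ ∀ R ∈ Rs, R ⊆ XY.1) ∨
          (G.low (1 / 8) Q' ⊆ XY.1 ∧ ∀ S ∈ Ss, S ⊆ XY.2)) :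
    ∃ XY ∈ F, ((G.pool XY.1 XY.2).card : ℝ) ≤ (H : ℝ) ^ 3 * Real.exp (4 * j) * (q : ℝ) ^ t ∧
      100 * (k : ℝ) / H ≤ (Z ∩ G.pool XY.1 XY.2).card := by
  classical
  have hH := h.H_ge'
  have k1 := CapB_one h
  have hb := hK.big
  have hW := hQ.2
  rw [mul_div_assoc] at hb
  obtain ⟨W, hWd⟩ : ∃ W, W = selIn Zl fun z => ∃ z' ∈ Z2, G.par T2 z' z ∧
    G.CapB_rich T2 (PP T) (QQ T) u v j z' := ⟨_, rfl⟩
  rw [← hWd] at hW
  have hW' : (Zl.card : ℝ) ≤ 2 * W.card := by exact_mod_cast hW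
  obtain ⟨K, hKd⟩ : ∃ K, K = selIn Z2 (G.CapB_rich T2 (PP T) (QQ T) u v j) := ⟨_, rfl⟩
  have hWK : ∀ z ∈ W, z ∈ Zl ∧ ∃ z' ∈ K, G.par T2 z' z := by
    intro z hz
    rw [hWd, mem_selIn] at hz
    obtain ⟨a, z', b, c, d⟩ := hz
    exact ⟨a, z', hKd ▸ mem_selIn.2 ⟨b, d⟩, c⟩
  have hKm : ∀ z ∈ K, z ∈ Z2 ∧ G.CapB_rich T2 (PP T) (QQ T) u v j z := fun z hz =>
    mem_selIn.1 (hKd ▸ hz)
  have hKn : K.Nonempty := by
    have : (0 : ℝ) < W.card := by linarith only [hb, hW', k1]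
    obtain ⟨z, hz⟩ : W.Nonempty := card_pos.1 (by exact_mod_cast this)
    obtain ⟨-, z', a, -⟩ := hWK z hz
    exact ⟨z', a⟩
  obtain ⟨XY, hXY, c0, P', hP', Q', hQ', c⟩ := hR (K.image fun z => G.spn T2 z.1)
    (K.image fun z => G.spn (sw T2) z.2) (hKn.image _) (hKn.image _)
    (fun R hR' => by
      obtain ⟨z, hz, rfl⟩ := mem_image.1 hR'
      exact ⟨G.cl_spn _ _, hF.cl1.rank z (hKm z hz).1, (hKm z hz).2.1⟩)
    (fun R hR' => by
      obtain ⟨z, hz, rfl⟩ := mem_image.1 hR'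
      exact ⟨G.cl_spn _ _, G.CapB_rk2 hF.cl2 (hKm z hz).1, (hKm z hz).2.2⟩)
  refine ⟨XY, hXY, c0.trans ?_, ?_⟩
  · have a1 : (H : ℝ) ≤ (H : ℝ) ^ 3 := le_self_pow₀ (by linarith only [hH]) (by norm_num)
    exact mul_le_mul_of_nonneg_right (mul_le_mul_of_nonneg_right (by linarith only [a1, hH])
      (Real.exp_pos _).le) (pow_nonneg (Nat.cast_nonneg _) _)
  · have b1 := hv.lp P' hP'
    have b2 := hv.lq Q' hQ'
    have b3 : W ⊆ (Z ∩ G.pool XY.1 XY.2) ∪ (selIn Z fun z => z.2 ∉ G.low x P') ∪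
        selIn Z fun z => z.1 ∉ G.low x Q' := by
      intro z hz
      obtain ⟨hl, z', hz', hp⟩ := hWK z hz
      have hZ := hF.z2 (hK.sub hl)
      rw [mem_union, mem_union, mem_selIn, mem_selIn, mem_inter, G.mem_pool]
      by_cases e1 : z.2 ∈ G.low x P'
      · by_cases e2 : z.1 ∈ G.low x Q'
        · refine Or.inl (Or.inl ⟨hZ, (G.mem_pool.1 (hv.all hZ)).1, ?_⟩)
          have f1 := G.low_mono hx _ e1
          have f2 := G.low_mono hx _ e2
          rcases c with c | c | c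
          · exact ⟨c.2 f2, c.1 f1⟩
          · exact ⟨c.2 _ (mem_image_of_mem _ hz') hp.1, c.1 f1⟩
          · exact ⟨c.1 f2, c.2 _ (mem_image_of_mem _ hz') hp.2⟩
        · exact Or.inr ⟨hZ, e2⟩
      · exact Or.inl (Or.inr ⟨hZ, e1⟩)
    have b4 := (card_le_card b3).trans ((card_union_le _ _).trans
      (Nat.add_le_add_right (card_union_le _ _) _))
    have b5 : (W.card : ℝ) ≤ (Z ∩ G.pool XY.1 XY.2).card +
        (selIn Z fun z => z.2 ∉ G.low x P').card +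
          (selIn Z fun z => z.1 ∉ G.low x Q').card := by exact_mod_cast b4
    rw [mul_div_assoc] at b1 b2 ⊢
    linarith only [b1, b2, b5, hb, hW', k1]

theorem CapB_div {a b r E Q : ℝ} (hb : 0 < b) (hE : 0 < E) (hQ : 0 ≤ Q) (h1 : a * b ≤ 2 * r * Q)
    (h2 : E * r < b) : a ≤ 2 * Q / E := by
  rw [le_div_iff₀ hE]
  have a1 := mul_le_mul_of_nonneg_right h1 hE.le
  have a2 := mul_le_mul_of_nonneg_right h2.le hQ
  exact le_of_mul_le_mul_right (by linarith only [a1, a2]) hb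

/-- a parent that is not rich has a small pool -/
theorem CapB_poor {H D k i : ℕ} (h : NP q t H D k) {Z T2 Z2 Zs : Finset (Pt × Pt)} {u v s : ℕ}
    (hF : G.Fine H D k Z T2 Z2 Zs u v s) (P Q : Finset Pt) {z : Pt × Pt} (hz : z ∈ Z2)
    (hn : ¬ G.CapB_rich T2 P Q u v i z) :
    ((G.ppool T2 P Q z).card : ℝ) ≤ 2 * (q : ℝ) ^ t / (Real.exp i * q) := by
  have q0 : (0 : ℝ) < q := by linarith only [h.q_ge]
  rw [CapB_rich, not_and_or, not_le, not_le] at hn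
  rcases hn with hn | hn
  · exact CapB_div (pow_pos q0 _) (mul_pos (Real.exp_pos _) q0) (pow_pos q0 _).le
      (G.card_ppool_left T2 P Q z (hF.cl1.rank z hz) hF.cl1.le_t) hn
  · exact CapB_div (pow_pos q0 _) (mul_pos (Real.exp_pos _) q0) (pow_pos q0 _).le
      (G.card_ppool_right T2 P Q z (G.CapB_rk2 hF.cl2 hz) hF.cl2.le_t) hn

theorem CapB_exp (i : ℕ) :
    Real.exp (((i + 1 : ℕ) : ℝ) / 2) ≤ 3 * Real.exp (-(((i + 1 : ℕ) : ℝ) / 2)) * Real.exp i ∧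
    1 ≤ 3 * Real.exp (-(((i + 1 : ℕ) : ℝ) / 2)) * Real.exp i := by
  have a1 : Real.exp (((i + 1 : ℕ) : ℝ) / 2) =
      Real.exp 1 * (Real.exp (-(((i + 1 : ℕ) : ℝ) / 2)) * Real.exp i) := by
    rw [← Real.exp_add, ← Real.exp_add]
    refine congrArg Real.exp ?_
    push_cast
    ring
  have a3 : Real.exp 1 ≤ 3 := Real.exp_one_lt_d9.le.trans (by norm_num)
  have a4 := mul_le_mul_of_nonneg_right a3
    (mul_pos (Real.exp_pos (-(((i + 1 : ℕ) : ℝ) / 2))) (Real.exp_pos i)).le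
  have a5 : 1 ≤ Real.exp (((i + 1 : ℕ) : ℝ) / 2) :=
    Real.one_le_exp (div_nonneg (Nat.cast_nonneg _) (by norm_num))
  constructor <;> linarith only [a1, a4, a5]

theorem CapB_s {H D k : ℕ} (h : NP q t H D k) {s : ℕ} (hs : 16 * D ≤ s) : (1 : ℝ) ≤ s := by
  have a1 := h.D_ge
  have a2 : (1 : ℝ) ≤ (H : ℝ) ^ 3 := one_le_pow₀ (by linarith only [h.H_ge'])
  have a3 : 16 * (D : ℝ) ≤ s := by exact_mod_cast hs
  linarith only [a1, a2, a3]

/-- the size of the union of the pools of the parents -/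
theorem CapB_par {H D k i s : ℕ} (h : NP q t H D k) (hs : (1 : ℝ) ≤ s)
    (hg : (k : ℝ) ≤ 16 * H * Real.exp (((i + 1 : ℕ) : ℝ) / 2) * q * s) :
    4 * k * (2 * (q : ℝ) ^ t / (Real.exp i * q)) / s ≤
      (H : ℝ) ^ 3 * Real.exp (-(((i + 1 : ℕ) : ℝ) / 2)) * (q : ℝ) ^ t := by
  have q0 : (0 : ℝ) < q := by linarith only [h.q_ge]
  have hH := h.H_ge'
  have s0 : (0 : ℝ) < s := by linarith only [hs]
  have hE := Real.exp_pos i
  have hM := Real.exp_pos (-(((i + 1 : ℕ) : ℝ) / 2))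
  have a1 := (CapB_exp i).1
  generalize Real.exp (-(((i + 1 : ℕ) : ℝ) / 2)) = M at *
  generalize Real.exp (((i + 1 : ℕ) : ℝ) / 2) = N at *
  generalize Real.exp i = E at *
  have H0 : (0 : ℝ) ≤ H := Nat.cast_nonneg _
  have a2 : (k : ℝ) ≤ 48 * H * (M * E * q * s) := by
    have := mul_le_mul_of_nonneg_right a1 (mul_nonneg H0 (mul_pos q0 s0).le)
    linarith only [this, hg]
  have a3 : 384 * (H : ℝ) ≤ (H : ℝ) ^ 3 := by
    have b1 : (H : ℝ) ≤ (H : ℝ) ^ 2 := le_self_pow₀ (by linarith only [hH]) (by norm_num)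
    have b2 := mul_le_mul_of_nonneg_right (by linarith only [b1, hH] : 384 ≤ (H : ℝ) ^ 2) H0
    linarith only [b2]
  have a4 := mul_le_mul_of_nonneg_right a3 (mul_pos (mul_pos (mul_pos hM hE) q0) s0).le
  have a5 : 8 * (k : ℝ) ≤ (H : ℝ) ^ 3 * (M * E * q * s) := by linarith only [a2, a4]
  have a6 := mul_le_mul_of_nonneg_right a5 (pow_pos q0 t).le
  rw [← mul_div_assoc, div_div, div_le_iff₀ (mul_pos (mul_pos hE q0) s0)]
  linarith only [a6]

/-- the level of the second sample -/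
theorem CapB_ax {H D k j s : ℕ} (h : NP q t H D k) (hs : (1 : ℝ) ≤ s)
    (hg : 16 * H * Real.exp ((j : ℝ) / 2) * q * s < k) :
    (j : ℝ) ≤ 4 * Real.log (Real.log q) ∧ ax q H k s ≤ 1 / 4 ∧
      2 * ax q H k s ≤ (H : ℝ) ^ 3 * Real.exp (-((j : ℝ) / 2)) := by
  have q0 : (0 : ℝ) < q := by linarith only [h.q_ge]
  have hH : (1 : ℝ) ≤ H := by linarith only [h.H_ge']
  have H3 : (1 : ℝ) ≤ (H : ℝ) ^ 3 := one_le_pow₀ hH
  have k0 := h.k_pos
  have hE := Real.exp_pos ((j : ℝ) / 2)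
  have hE1 : 1 ≤ Real.exp ((j : ℝ) / 2) :=
    Real.one_le_exp (div_nonneg (Nat.cast_nonneg _) (by norm_num))
  have hL : (0 : ℝ) < Real.log q := by
    have a1 := h.L_ge
    have a2 : (1 : ℝ) ≤ (H : ℝ) ^ 6 := one_le_pow₀ hH
    linarith only [a1, a2]
  have x0 : 0 ≤ ax q H k s :=
    div_nonneg (mul_nonneg (mul_nonneg (Nat.cast_nonneg _) (by linarith only [hs])) q0.le) k0.le
  have hx : ax q H k s * Real.exp ((j : ℝ) / 2) ≤ 1 / 8 := by
    rw [ax, div_mul_eq_mul_div, div_le_iff₀ k0]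
    have := mul_le_mul_of_nonneg_left hs
      (mul_nonneg (mul_nonneg (by linarith only [hH] : (0 : ℝ) ≤ H) hE.le) q0.le)
    linarith only [this, hg]
  refine ⟨?_, ?_, ?_⟩
  · have a1 : Real.exp ((j : ℝ) / 2) * q ≤ Real.log q ^ 2 * q := by
      have b1 := mul_le_mul_of_nonneg_left (one_le_mul_of_one_le_of_one_le hH hs)
        (mul_pos hE q0).le
      have b2 := mul_pos hE q0
      linarith only [b1, b2, hg, h.k_le]
    have a2 := (Real.le_log_iff_exp_le (pow_pos hL 2)).2 (le_of_mul_le_mul_right a1 q0)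
    rw [Real.log_pow] at a2
    push_cast at a2
    linarith only [a2]
  · have := mul_le_mul_of_nonneg_left hE1 x0
    linarith only [this, hx]
  · rw [Real.exp_neg, ← div_eq_mul_inv, le_div_iff₀ hE]
    linarith only [hx, H3]

/-- `F j` = union of the families of `rich_fam` for levels up to `j`. `z' ∈ Z2` is `j`-rich for
`T` if `q^u ≤ exp j * q * |spn T2 z'.1 ∩ PP T|` and dually. `lev T` = least `j` with
`q^t / exp j ≤ |BB|` and half of `Zl` having a `j`-rich parent in `Z2` (`0` if there is none; level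
`aJ` qualifies: `valid_BB`, every flag of `Zl` has a parent, `mem_spn`, `Valid.all`). For `H2`:
`Rs`, `Ss` are the images of the rich flags; losses by `Valid.lp`, `Valid.lq`, `low_mono`.
Outcome: item `0` if `j = 0` or `|BB| < exp (1 - j) q^t`. Else more than half of `Zl` has only
parents with pools at most `θ = 2 exp (1 - j) q^t / q` (`card_ppool_left`, `card_ppool_right`): if
`k ≤ 16 H exp (j/2) q s` use `hit_par`, else `hit_st2` (`ax ≤ exp (-j/2) / 8`, `k_le`). -/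
theorem cap_B {H D k : ℕ} (h : NP q t H D k) {x : ℝ} (hx : x ≤ 1 / 8) :
    ∃ F : ℕ → Finset (Finset Pt × Finset Pt),
      (∀ j : ℕ, ((F j).card : ℝ) ≤ Real.exp (k * ((j : ℝ) / 2 + 1) / (4 * H))) ∧
      ∀ (PP QQ : Finset (Pt × Pt) → Finset Pt) (Z T2 Z2 Zs Zl : Finset (Pt × Pt)) (u v s : ℕ),
        G.Smp PP QQ x H k Z → G.Fine H D k Z T2 Z2 Zs u v s → t + 1 ≤ u + v →
        G.Kids H k T2 Z2 Zl s →
        ∃ j ≤ aJ q t, hits (G.Cov PP QQ x H k j (F j)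
          ((H : ℝ) ^ 3 * Real.exp (-((j : ℝ) / 2)))) (aw H k) Z := by
  classical
  choose F0 hF0 hF1 using G.rich_fam h.hq
  refine ⟨fun j => (range (j + 1)).biUnion F0, CapB_fam h F0 hF0, ?_⟩
  intro PP QQ Z T2 Z2 Zs Zl u v s hS hF huv hK
  have k1 := CapB_one h
  have hH : (10 : ℝ) ^ 7 ≤ (H : ℝ) ^ 3 :=
    h.H_ge'.trans (le_self_pow₀ (by linarith only [h.H_ge']) (by norm_num))
  have hZ : 100 * (k : ℝ) / H ≤ Z.card := by
    have := hF.big
    rw [mul_div_assoc] at this ⊢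
    linarith only [this, k1]
  obtain ⟨lev, hlev⟩ : ∃ lev : Finset (Pt × Pt) → ℕ, ∀ T,
      G.CapB_Q x T2 Z2 Zl (PP T) (QQ T) u v (aJ q t) →
        G.CapB_Q x T2 Z2 Zl (PP T) (QQ T) u v (lev T) ∧ lev T ≤ aJ q t ∧
          ∀ i < lev T, ¬ G.CapB_Q x T2 Z2 Zl (PP T) (QQ T) u v i := by
    refine ⟨fun T => if hT : ∃ j, G.CapB_Q x T2 Z2 Zl (PP T) (QQ T) u v j then Nat.find hT else 0,
      fun T hT => ?_⟩
    have hT' : ∃ j, G.CapB_Q x T2 Z2 Zl (PP T) (QQ T) u v j := ⟨_, hT⟩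
    simp only [dif_pos hT']
    exact ⟨Nat.find_spec hT', Nat.find_min' hT' hT, fun i hi => Nat.find_min hT' hi⟩
  obtain ⟨Ts, Z', h', hc, hv, hit⟩ := G.two_rounds h hx hS hZ lev
    (fun j => (range (j + 1)).biUnion F0)
    (fun i j hij => biUnion_subset_biUnion_of_subset_left _ (range_subset_range.2 (by omega)))
    (fun Z' h' hc T hv => (hlev T (G.CapB_top h hF hK h' hc hv)).1.1)
    (fun T hv => by
      obtain ⟨XY, a, b⟩ := G.CapB_pair h hx hF hK hv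
        (hlev T (G.CapB_top h hF hK Subset.rfl hZ hv)).1
        (fun Rs Ss => hF1 (lev T) (PP T) (QQ T) u v Rs Ss hF.cl1.one_le hF.cl2.one_le huv)
      exact ⟨XY, mem_biUnion.2 ⟨lev T, mem_range.2 (Nat.lt_succ_self _), a⟩, b⟩)
  obtain ⟨hQ, hJ, hmin⟩ := hlev Ts (G.CapB_top h hF hK h' hc hv)
  refine ⟨lev Ts, hJ, ?_⟩
  generalize lev Ts = j at hit hQ hmin
  have qt : (0 : ℝ) ≤ (q : ℝ) ^ t := pow_nonneg (Nat.cast_nonneg _) _
  have hx4 : x ≤ 1 / 4 := by linarith only [hx]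
  have ha : (0 : ℝ) ≤ at0 q H := (Nat.cast_nonneg _).trans hv.card
  have hB : ∀ β : ℝ, ((G.BB x (PP Ts) (QQ Ts)).card : ℝ) ≤ β * (q : ℝ) ^ t →
      hits (G.Cov PP QQ x H k j ((range (j + 1)).biUnion F0) β) (aw H k) Z := by
    intro β hβ
    refine hit ∅ ∅ 0 β (empty_subset _) (empty_subset _) (by simpa using ha) (by omega) hβ ?_
    have a1 := G.valid_BB h' hv
    rw [mul_div_assoc] at a1 hc ⊢
    exact le_trans (by linarith only [hc, k1]) a1
  rcases j with _ | i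
  · refine hB _ ((G.card_BB_le hx4 _ _).trans (mul_le_mul_of_nonneg_right ?_ qt))
    simp only [Nat.cast_zero, zero_div, neg_zero, Real.exp_zero]
    linarith only [hH]
  have hn := hmin i (Nat.lt_succ_self i)
  rw [CapB_Q, not_and_or, not_le, not_le] at hn
  rcases hn with hn | hn
  · refine hB _ (hn.le.trans ?_)
    rw [div_le_iff₀ (Real.exp_pos _)]
    have a1 := mul_le_mul_of_nonneg_right (by linarith only [hH] : 3 ≤ (H : ℝ) ^ 3)
      (mul_pos (Real.exp_pos (-(((i + 1 : ℕ) : ℝ) / 2))) (Real.exp_pos i)).le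
    have a2 : 1 ≤ (H : ℝ) ^ 3 * (Real.exp (-(((i + 1 : ℕ) : ℝ) / 2)) * Real.exp i) := by
      linarith only [a1, (CapB_exp i).2]
    linarith only [mul_le_mul_of_nonneg_right a2 qt]
  have hs := CapB_s h hF.s16
  rcases le_or_gt (k : ℝ) (16 * H * Real.exp (((i + 1 : ℕ) : ℝ) / 2) * q * s) with hg | hg
  · obtain ⟨B, b1, b2, b3, b4⟩ := G.hit_par h hF hv.all
      (θ := 2 * (q : ℝ) ^ t / (Real.exp i * q))
      (div_nonneg (by linarith only [qt]) (mul_nonneg (Real.exp_pos _).le (Nat.cast_nonneg _)))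
      (Zl := selIn Zl fun z => ¬ ∃ z' ∈ Z2, G.par T2 z' z ∧
        G.CapB_rich T2 (PP Ts) (QQ Ts) u v i z') ((selIn_subset _ _).trans hK.sub)
      (by
        have c1 : Zl ⊆ (selIn Zl fun z => ∃ z' ∈ Z2, G.par T2 z' z ∧
            G.CapB_rich T2 (PP Ts) (QQ Ts) u v i z') ∪ selIn Zl fun z => ¬ ∃ z' ∈ Z2,
              G.par T2 z' z ∧ G.CapB_rich T2 (PP Ts) (QQ Ts) u v i z' := by
          intro z hz
          rw [mem_union, mem_selIn, mem_selIn]
          exact (em _).imp (fun e => ⟨hz, e⟩) fun e => ⟨hz, e⟩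
        have c2 := (card_le_card c1).trans (card_union_le _ _)
        have c3 : Zl.card ≤ 2 * (selIn Zl fun z => ¬ ∃ z' ∈ Z2,
            G.par T2 z' z ∧ G.CapB_rich T2 (PP Ts) (QQ Ts) u v i z').card := by omega
        have c4 : (Zl.card : ℝ) ≤ 2 * (selIn Zl fun z => ¬ ∃ z' ∈ Z2,
            G.par T2 z' z ∧ G.CapB_rich T2 (PP Ts) (QQ Ts) u v i z').card := by exact_mod_cast c3
        have c5 := hK.big
        rw [mul_div_assoc] at c5 ⊢
        linarith only [c4, c5, k1])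
      (fun z hz => by
        rw [mem_selIn] at hz
        refine (hK.many z hz.1).trans (Nat.mul_le_mul_left 2 (card_le_card fun z' hz' => ?_))
        rw [mem_selIn] at hz' ⊢
        exact ⟨hz'.1, hz'.2, G.CapB_poor h hF _ _ hz'.1 fun e => hz.2 ⟨z', hz'.1, hz'.2, e⟩⟩)
    exact hit T2 B 1 _ hF.t2 b1 (by linarith only [hF.t2c, b2]) (by omega)
      (b4.trans (CapB_par h hs hg)) b3
  · obtain ⟨c1, c2, c3⟩ := CapB_ax h hs hg
    obtain ⟨d1, A, d2, d3, d4, d5⟩ := G.hit_st2 h hF hv.all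
      (G.ext_of_BB hx4 (Real.one_le_exp (Nat.cast_nonneg _)) _ _ hQ.1).2.2.2.1 c1 c2
    exact hit A ∅ (s + 2) _ d2 (empty_subset _) (by simpa using d3) (by omega)
      (d5.trans (mul_le_mul_of_nonneg_right c3 qt)) d4

end GP

end Pool.Agent.Work.MP_e10cd8_co.All
end

-- merged part: Pool.Agent.Work.MP_e10cd8_co.All.ACover
section
/-! The cover of all independent sets (paper 3, 8). Compare `Four/Cover`. -/

namespace Pool.Agent.Work.MP_e10cd8_co.All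

open Finset Four

theorem ACover_cnt {ι : Type} [DecidableEq ι] (Ω : Finset ι) {x : ℝ} (hx : 0 < x) (m n : ℕ)
    (h : (Ω.card : ℝ) + 1 ≤ x ^ m) :
    ((selIn Ω.powerset fun T => T.card ≤ n).card : ℝ) ≤ Real.exp (m * n * Real.log x) := by
  have h1 : ((selIn Ω.powerset fun T => T.card ≤ n).card : ℝ) ≤ ((Ω.card : ℝ) + 1) ^ n := by
    exact_mod_cast card_small_le Ω n
  refine h1.trans ((pow_le_pow_left₀ (by positivity) h n).trans (le_of_eq ?_))
  rw [← Nat.cast_mul, Real.exp_nat_mul, Real.exp_log hx, pow_mul]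

theorem ACover_fam {φ κ : Type} [DecidableEq φ] {q t H D k : ℕ} (h : NP q t H D k) (I : Finset κ)
    (f : κ → Finset φ) (hI : (I.card : ℝ) ≤ Real.exp (k / H))
    (hf : ∀ i ∈ I, ((f i).card : ℝ) ≤ (H : ℝ) ^ 3 * (q : ℝ) ^ t) :
    wtC (ap q t H k) (aw H k) (I.image fun i => ((∅ : Finset φ), f i)) ≤
      Real.exp (-(9 * k / H)) := by
  refine (wtC_image_le (ap_nonneg q t H k) _ I _).trans ?_
  refine (sum_le_card_nsmul _ _ (Real.exp (-((10 + 0) * k / H))) fun i hi => ?_).trans ?_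
  · rw [card_empty, pow_zero, one_mul]
    refine h.pool_factor le_rfl ?_
    rw [neg_zero, Real.exp_zero, mul_one]
    exact hf i hi
  · rw [nsmul_eq_mul]
    refine (mul_le_mul_of_nonneg_right hI (Real.exp_pos _).le).trans ?_
    rw [← Real.exp_add]
    exact Real.exp_le_exp.2 (le_of_eq (by ring))

theorem ACover_t {q t H D k : ℕ} (h : NP q t H D k) : 16 * ((t : ℝ) + 1) ^ 2 ≤ H := by
  have h1 := h.H_ge
  have h2 : (1 : ℝ) ≤ (t : ℝ) + 1 := by linarith [Nat.cast_nonneg (α := ℝ) t]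
  have h3 : ((t : ℝ) + 1) ^ 2 ≤ ((t : ℝ) + 1) ^ 4 := pow_le_pow_right₀ h2 (by norm_num)
  have h4 : (0 : ℝ) ≤ ((t : ℝ) + 1) ^ 2 := by positivity
  linarith

theorem ACover_div {q t H D k : ℕ} (h : NP q t H D k) {c : ℝ} (hc : c ≤ (H : ℝ) ^ 5) :
    c * q * Real.log q ≤ k / H := by
  have H0 : (0 : ℝ) < H := lt_of_lt_of_le (by norm_num) h.H_ge'
  have L0 : 0 ≤ Real.log q := le_trans (by positivity) h.L_ge
  rw [le_div_iff₀ H0]
  refine le_trans ?_ h.hk1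
  calc c * q * Real.log q * H ≤ (H : ℝ) ^ 5 * q * Real.log q * H := by gcongr
    _ = _ := by ring

theorem ACover_Hq {q t H D k : ℕ} (h : NP q t H D k) : 10 ^ 6 * (H : ℝ) ^ 6 ≤ q := by
  have q0 := h.q_ge
  have := Real.log_le_sub_one_of_pos (show (0 : ℝ) < q by linarith)
  linarith [h.L_ge]

theorem ACover_sw_inter {Pt : Type} [DecidableEq Pt] (Z Y : Finset (Pt × Pt)) :
    sw Z ∩ sw Y = sw (Z ∩ Y) := by
  ext z
  simp only [mem_inter, mem_sw]

namespace GP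

variable {q t : ℕ} {Pt : Type} [Fintype Pt] [DecidableEq Pt] (G : GP q t Pt)

/-- members `(∅, popP T0 u A)` over `A` with at most `3 H q` points of rank `u`; their number is at
most `exp t0` (`card_small_le`, `card_pt_succ_le`); `card_popP_le`, `pool_factor` with `y = 0` -/
theorem pop_cover {H D k : ℕ} (h : NP q t H D k) (T0 : Finset (Pt × Pt)) {u : ℕ} (h1 : 1 ≤ u)
    (h2 : u ≤ t) :
    ∃ C C' : Finset (Finset (Pt × Pt) × Finset (Pt × Pt)),
      wtC (ap q t H k) (aw H k) C ≤ Real.exp (-(9 * k / H)) ∧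
      wtC (ap q t H k) (aw H k) C' ≤ Real.exp (-(9 * k / H)) ∧
      ∀ Z, ¬ G.NoPop T0 u (aw H k) (3 * H * q) Z → hits C (aw H k) Z ∧ hits C' (aw H k) (sw Z) := by
  have H1 := h.H_ge'
  have q0 := h.q_ge
  have qp : (0 : ℝ) < q := by linarith
  have ht := ACover_t h
  have t0 : (0 : ℝ) ≤ t := Nat.cast_nonneg _
  have hI : ((selIn (selIn (univ : Finset Pt).powerset fun A => A.card ≤ 3 * H * q)
      fun A => ∀ a ∈ A, G.rk (G.spn T0 a) = u).card : ℝ) ≤ Real.exp (k / H) := by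
    refine le_trans (Nat.cast_le.2 (card_le_card (selIn_subset _ _))) ?_
    refine (ACover_cnt _ qp (t + 1) _ (by exact_mod_cast G.card_pt_succ_le)).trans
      (Real.exp_le_exp.2 (le_trans (le_of_eq ?_) (ACover_div h (c := (t + 1) * (3 * H)) ?_)))
    · push_cast
      ring
    · have a1 : 3 * ((t : ℝ) + 1) ≤ H := by nlinarith
      have a2 : (H : ℝ) ^ 2 ≤ (H : ℝ) ^ 5 := pow_le_pow_right₀ (by linarith) (by norm_num)
      nlinarith
  have hf : ∀ A ∈ selIn (selIn (univ : Finset Pt).powerset fun A => A.card ≤ 3 * H * q)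
      fun A => ∀ a ∈ A, G.rk (G.spn T0 a) = u,
      ((G.popP T0 u A).card : ℝ) ≤ (H : ℝ) ^ 3 * (q : ℝ) ^ t := fun A hA => by
    simp only [mem_selIn] at hA
    have a1 := G.card_popP_le T0 h1 h2 hA.2
    have a2 : (A.card : ℝ) ≤ 3 * H * q := by exact_mod_cast hA.1.2
    have a3 : 12 * (H : ℝ) ≤ (H : ℝ) ^ 3 := by
      have : (12 : ℝ) ≤ (H : ℝ) ^ 2 := by nlinarith
      nlinarith
    refine le_of_mul_le_mul_right (a1.trans ?_) qp
    calc 4 * (A.card : ℝ) * (q : ℝ) ^ t ≤ 4 * (3 * H * q) * (q : ℝ) ^ t := by gcongr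
      _ = 12 * H * (q : ℝ) ^ t * q := by ring
      _ ≤ _ := by gcongr
  refine ⟨_, _, ACover_fam h _ (G.popP T0 u) hI hf,
    ACover_fam h _ (fun A => sw (G.popP T0 u A)) hI fun A hA => by rw [card_sw]; exact hf A hA,
    fun Z hZ => ?_⟩
  simp only [NoPop, not_forall, not_lt] at hZ
  obtain ⟨A, a1, a2, a3⟩ := hZ
  have hA : A ∈ selIn (selIn (univ : Finset Pt).powerset fun A => A.card ≤ 3 * H * q)
      fun A => ∀ a ∈ A, G.rk (G.spn T0 a) = u :=
    mem_selIn.2 ⟨mem_selIn.2 ⟨mem_powerset.2 (subset_univ _), a1⟩, a2⟩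
  refine ⟨⟨(∅, G.popP T0 u A), mem_image.2 ⟨A, hA, rfl⟩, empty_subset _, ?_⟩,
    ⟨(∅, sw (G.popP T0 u A)), mem_image.2 ⟨A, hA, rfl⟩, empty_subset _, ?_⟩⟩
  · rwa [sdiff_empty]
  · rwa [sdiff_empty, ACover_sw_inter, card_sw]

/-- for fixed coarse data: the two covers of `pop_cover` and the covers of `cap_A`, `cap_B` for
levels up to `aJ` (`wt_Cov`); `smp`, `exists_fine` -/
theorem class_cover {H D k : ℕ} (h : NP q t H D k) {x A Γ : ℝ} (hx0 : 1 / (H : ℝ) ≤ x)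
    (hx : x ≤ 1 / 8) (hA0 : 0 ≤ A) (hA : A ≤ H) (hΓ0 : 1 ≤ Γ) (hΓ : Γ ≤ H) (hK : G.KLp x A Γ)
    (T0 : Finset (Pt × Pt)) (u v : ℕ) :
    ∃ C : Finset (Finset (Pt × Pt) × Finset (Pt × Pt)),
      wtC (ap q t H k) (aw H k) C ≤ 4 * q * Real.exp (-(9 * k / H)) ∧
      ∀ Z, G.indep Z → Z.card ≤ k → k ≤ 2 * t ^ 2 * Z.card → G.Cl1 T0 u (ad q H k) Z →
        G.Cl1 (sw T0) v (ad q H k) (sw Z) → hits C (aw H k) Z := by
  by_cases huv : (1 ≤ u ∧ u ≤ t) ∧ 1 ≤ v ∧ v ≤ t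
  swap
  · refine ⟨∅, ?_, fun Z _ _ _ c1 c2 => (huv ⟨⟨c1.one_le, c1.le_t⟩, c2.one_le, c2.le_t⟩).elim⟩
    rw [wtC, sum_empty]
    positivity
  obtain ⟨C1, C1', w1, -, g1⟩ := G.pop_cover h T0 huv.1.1 huv.1.2
  obtain ⟨C2', C2, -, w2, g2⟩ := G.pop_cover h (sw T0) huv.2.1 huv.2.2
  obtain ⟨FA, fa, ga⟩ := G.cap_A h hx hA0 hA hΓ0 hΓ hK
  obtain ⟨FB, fb, gb⟩ := G.cap_B h hx
  have p0 := ap_nonneg q t H k
  have q0 := h.q_ge
  have hJ : ((aJ q t + 1 : ℕ) : ℝ) ≤ q := Nat.cast_le.2 h.aJ_le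
  have e0 := Real.exp_pos (-(9 * (k : ℝ) / H))
  have key : ∀ C : ℕ → Finset (Finset (Pt × Pt) × Finset (Pt × Pt)),
      (∀ j, wtC (ap q t H k) (aw H k) (C j) ≤ Real.exp (-(9 * k / H))) →
      wtC (ap q t H k) (aw H k) ((range (aJ q t + 1)).biUnion C) ≤
        q * Real.exp (-(9 * k / H)) := fun C hC => by
    refine (wtC_biUnion_le p0 _ _ _).trans ((sum_le_card_nsmul _ _ _ fun j _ => hC j).trans ?_)
    rw [nsmul_eq_mul, card_range]
    exact mul_le_mul_of_nonneg_right hJ e0.le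
  have wa := key (fun j => G.Cov (G.PPf T0 u (am0 q t))
      (fun T => G.PPf (sw T0) v (am0 q t) (sw T)) x H k j (FA j)
      ((H : ℝ) ^ 3 * Real.exp (-(max (j : ℝ) (Real.log (Real.log q)) / 2)))) fun j => by
    have j0 : (0 : ℝ) ≤ j := Nat.cast_nonneg _
    have j1 := le_max_left (j : ℝ) (Real.log (Real.log q))
    exact G.wt_Cov h _ _ x j _ (by linarith) (by linarith) (fa j) le_rfl
  have wb := key (fun j => G.Cov (G.PPf T0 u (am0 q t))
      (fun T => G.PPf (sw T0) v (am0 q t) (sw T)) x H k j (FB j)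
      ((H : ℝ) ^ 3 * Real.exp (-((j : ℝ) / 2)))) fun j => by
    have j0 : (0 : ℝ) ≤ j := Nat.cast_nonneg _
    exact G.wt_Cov h _ _ x j _ (by linarith) (by linarith) (fb j) le_rfl
  refine ⟨C1 ∪ C2 ∪ (_ ∪ _), ((wtC_union_le p0 _ _ _).trans (add_le_add
    ((wtC_union_le p0 _ _ _).trans (add_le_add w1 w2))
    ((wtC_union_le p0 _ _ _).trans (add_le_add wa wb)))).trans ?_, fun Z hZ z1 z2 c1 c2 => ?_⟩
  · have := mul_le_mul_of_nonneg_right q0 e0.le
    linarith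
  by_cases n1 : G.NoPop T0 u (aw H k) (3 * H * q) Z
  swap
  · exact hits_mono (subset_union_left.trans subset_union_left) Subset.rfl (g1 Z n1).1
  by_cases n2 : G.NoPop (sw T0) v (aw H k) (3 * H * q) (sw Z)
  swap
  · have := (g2 _ n2).2
    rw [sw_sw] at this
    exact hits_mono (subset_union_right.trans subset_union_left) Subset.rfl this
  have hS := G.smp h hx0 hZ.1 z1 c1 c2 n1 n2
  obtain ⟨T2, Z2, Zs, u', v', s, hF, hs⟩ := G.exists_fine h hZ z1 z2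
  by_cases hc : s = 16 * D ∨ (u' + v' ≤ t ∧ ∃ Zl, G.Kids H k T2 Z2 Zl s)
  · obtain ⟨j, hj, hh⟩ := ga _ _ Z T2 Z2 Zs u' v' s hS hF hc
    exact hits_mono ((subset_biUnion_of_mem _ (mem_range.2 (Nat.lt_succ_of_le hj))).trans
      (subset_union_left.trans subset_union_right)) Subset.rfl hh
  · obtain ⟨Zl, hl⟩ := hs.resolve_left fun e => hc (Or.inl e)
    have huv' : t + 1 ≤ u' + v' := by
      by_contra hn
      exact hc (Or.inr ⟨by omega, Zl, hl⟩)
    obtain ⟨j, hj, hh⟩ := gb _ _ Z T2 Z2 Zs Zl u' v' s hS hF huv' hl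
    exact hits_mono ((subset_biUnion_of_mem _ (mem_range.2 (Nat.lt_succ_of_le hj))).trans
      (subset_union_right.trans subset_union_right)) Subset.rfl hh

/-- union over `T0 ⊆ flags` with at most `8 (t + 1) H^3 q` elements (at most `exp t0` sets:
`card_small_le`, `card_flags`) and `u, v ≤ t`; `span_class` with `d = ad`, `hits_mono` -/
theorem cover_all {H D k : ℕ} (h : NP q t H D k) {x A Γ : ℝ} (hx0 : 1 / (H : ℝ) ≤ x)
    (hx : x ≤ 1 / 8) (hA0 : 0 ≤ A) (hA : A ≤ H) (hΓ0 : 1 ≤ Γ) (hΓ : Γ ≤ H) (hK : G.KLp x A Γ) :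
    ∃ C : Finset (Finset (Pt × Pt) × Finset (Pt × Pt)),
      wtC (ap q t H k) (aw H k) C * G.flags.card ≤ 1 ∧
      ∀ I, G.indep I → I.card = k → hits C (aw H k) I := by
  choose f wf hf using G.class_cover h hx0 hx hA0 hA hΓ0 hΓ hK
  have p0 := ap_nonneg q t H k
  have H1 := h.H_ge'
  have q0 := h.q_ge
  have qp : (0 : ℝ) < q := by linarith
  have ht := ACover_t h
  have t0 : (0 : ℝ) ≤ t := Nat.cast_nonneg _
  have hq := ACover_Hq h
  have H6 : (H : ℝ) ≤ (H : ℝ) ^ 6 := le_self_pow₀ (by linarith) (by norm_num)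
  have H5 : (H : ℝ) ≤ (H : ℝ) ^ 5 := le_self_pow₀ (by linarith) (by norm_num)
  have fl := G.card_flags.2
  have f0 : (0 : ℝ) ≤ G.flags.card := Nat.cast_nonneg _
  have q2 : (q : ℝ) ≤ (q : ℝ) ^ (2 * t) := le_self_pow₀ (by linarith) (by have := h.ht; omega)
  have fl1 : (G.flags.card : ℝ) + 1 ≤ (q : ℝ) ^ (2 * t) := by
    have := mul_le_mul_of_nonneg_left q0 f0
    linarith
  have hI : ((selIn G.flags.powerset fun T => T.card ≤ 8 * (t + 1) * (H ^ 3 * q)).card : ℝ) ≤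
      Real.exp (k / H) := by
    refine (ACover_cnt _ qp (2 * t) _ fl1).trans (Real.exp_le_exp.2 (le_trans (le_of_eq ?_)
      (ACover_div h (c := 2 * t * (8 * (t + 1)) * (H : ℝ) ^ 3) ?_)))
    · push_cast
      ring
    · have a1 : 2 * (t : ℝ) * (8 * (t + 1)) ≤ H := by nlinarith
      calc 2 * (t : ℝ) * (8 * (t + 1)) * (H : ℝ) ^ 3 ≤ H * (H : ℝ) ^ 3 := by gcongr
        _ = (H : ℝ) ^ 4 := by ring
        _ ≤ _ := pow_le_pow_right₀ (by linarith) (by norm_num)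
  have hE : ((t : ℝ) + 1) ^ 2 * (4 * q) * G.flags.card ≤ Real.exp (k / H) := by
    have a1 : (q : ℝ) ^ (2 * t + 1) ≤ Real.exp (k / H) := by
      rw [← Real.exp_log (pow_pos qp (2 * t + 1)), Real.log_pow]
      refine Real.exp_le_exp.2 (le_trans ?_ (ACover_div h (c := 2 * t + 1) (by nlinarith)))
      have L0 : 0 ≤ Real.log q := le_trans (by positivity) h.L_ge
      push_cast
      refine mul_le_mul_of_nonneg_right ?_ L0
      exact le_mul_of_one_le_right (by linarith) (by linarith)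
    calc ((t : ℝ) + 1) ^ 2 * (4 * q) * G.flags.card
        = 4 * ((t : ℝ) + 1) ^ 2 * (G.flags.card * q) := by ring
      _ ≤ 4 * ((t : ℝ) + 1) ^ 2 * (4 * (q : ℝ) ^ (2 * t)) := by gcongr
      _ = (q : ℝ) ^ (2 * t) * (16 * ((t : ℝ) + 1) ^ 2) := by ring
      _ ≤ (q : ℝ) ^ (2 * t) * q := mul_le_mul_of_nonneg_left (by linarith) (by positivity)
      _ ≤ _ := by rw [← pow_succ]; exact a1
  refine ⟨((selIn G.flags.powerset fun T => T.card ≤ 8 * (t + 1) * (H ^ 3 * q)) ×ˢ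
    range (t + 1) ×ˢ range (t + 1)).biUnion fun y => f y.1 y.2.1 y.2.2, ?_, fun I hI' hk => ?_⟩
  · have a1 := (wtC_biUnion_le p0 (aw H k) ((selIn G.flags.powerset fun T =>
      T.card ≤ 8 * (t + 1) * (H ^ 3 * q)) ×ˢ range (t + 1) ×ˢ range (t + 1))
      fun y => f y.1 y.2.1 y.2.2).trans (sum_le_card_nsmul _ _ _ fun y _ => wf y.1 y.2.1 y.2.2)
    rw [nsmul_eq_mul, card_product, card_product, card_range] at a1
    push_cast at a1
    have e0 := Real.exp_pos (-(9 * (k : ℝ) / H))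
    have k0 : (0 : ℝ) ≤ k / H := by positivity
    refine (mul_le_mul_of_nonneg_right a1 f0).trans ?_
    calc _ = ((selIn G.flags.powerset fun T => T.card ≤ 8 * (t + 1) * (H ^ 3 * q)).card : ℝ) *
          (((t : ℝ) + 1) ^ 2 * (4 * q) * G.flags.card) * Real.exp (-(9 * k / H)) := by ring
      _ ≤ Real.exp (k / H) * Real.exp (k / H) * Real.exp (-(9 * k / H)) := by gcongr
      _ ≤ 1 := by
        rw [← Real.exp_add, ← Real.exp_add, Real.exp_le_one_iff, mul_div_assoc]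
        linarith
  have d1 : 1 ≤ ad q H k := Nat.le_add_left _ _
  obtain ⟨T, t1, t2, u, v, Z, z1, z2, c1, c2⟩ := G.span_class hI' d1
  rw [hk] at t2 z2
  have d2 : k ≤ H ^ 3 * q * ad q H k := by
    have := h.ad_ge
    rw [div_le_iff₀' (by positivity)] at this
    exact_mod_cast this
  have t3 : T.card ≤ 8 * (t + 1) * (H ^ 3 * q) := by
    refine Nat.le_of_mul_le_mul_right (t2.trans ?_) d1
    rw [mul_assoc (8 * (t + 1))]
    exact Nat.mul_le_mul_left _ d2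
  refine hits_mono (subset_biUnion_of_mem (fun y : Finset (Pt × Pt) × ℕ × ℕ => f y.1 y.2.1 y.2.2)
    (x := (T, u, v)) ?_) z1 (hf T u v Z (G.indep_mono hI' z1) (hk ▸ card_le_card z1) z2 c1 c2)
  exact mem_product.2 ⟨mem_selIn.2 ⟨mem_powerset.2 (t1.trans hI'.1), t3⟩, mem_product.2
    ⟨mem_range.2 (Nat.lt_succ_of_le c1.le_t), mem_range.2 (Nat.lt_succ_of_le c2.le_t)⟩⟩

/-- `sample` with `Ω = flags`, `card_flags` -/
theorem host {H D k : ℕ} (h : NP q t H D k) {x A Γ : ℝ} (hx0 : 1 / (H : ℝ) ≤ x)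
    (hx : x ≤ 1 / 8) (hA0 : 0 ≤ A) (hA : A ≤ H) (hΓ0 : 1 ≤ Γ) (hΓ : Γ ≤ H) (hK : G.KLp x A Γ) :
    ∃ X ⊆ G.flags, (k : ℝ) * (q : ℝ) ^ t / (q * (H : ℝ) ^ 10) - 1 ≤ X.card ∧
      ∀ I ⊆ X, G.indep I → I.card ≠ k := by
  obtain ⟨C, h1, h2⟩ := G.cover_all h hx0 hx hA0 hA hΓ0 hΓ hK
  have p0 := ap_nonneg q t H k
  have H1 := h.H_ge'
  have Hp : (0 : ℝ) < H := by linarith
  have q0 := h.q_ge
  have qp : (0 : ℝ) < q := by linarith
  have h3 : (k : ℝ) * (q : ℝ) ^ t / (q * (H : ℝ) ^ 10) ≤ ap q t H k * G.flags.card := by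
    refine le_of_mul_le_mul_right ?_ qp
    rw [mul_assoc]
    refine le_trans (le_of_eq ?_) (mul_le_mul_of_nonneg_left G.card_flags.1 p0)
    rw [ap, two_mul, pow_add]
    field_simp
  have h4 : 1 < (k : ℝ) * (q : ℝ) ^ t / (q * (H : ℝ) ^ 10) := by
    rw [one_lt_div (by positivity)]
    have a1 : (q : ℝ) ≤ k := Nat.cast_le.2 h.q_le_k
    have a2 : (q : ℝ) ^ 2 ≤ (q : ℝ) ^ t := pow_le_pow_right₀ (by linarith) h.ht
    have a3 := ACover_Hq h
    have a4 : (H : ℝ) ^ 5 ≤ (H : ℝ) ^ 6 := pow_le_pow_right₀ (by linarith) (by norm_num)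
    have a5 : (H : ℝ) ^ 5 < q := by linarith [pow_pos Hp 6]
    have a6 : ((H : ℝ) ^ 5) ^ 2 < (q : ℝ) ^ 2 := pow_lt_pow_left₀ a5 (by positivity) (by norm_num)
    rw [← pow_mul] at a6
    calc (q : ℝ) * (H : ℝ) ^ 10 < q * (q : ℝ) ^ t := mul_lt_mul_of_pos_left (a6.trans_le a2) qp
      _ ≤ _ := by gcongr
  obtain ⟨X, x1, x2, x3⟩ := sample G.flags p0 h.ap_le_one (aw H k) C h1 (h4.trans_le h3)
  exact ⟨X, x1, by linarith, fun I hI hi e => x3 I hI (h2 I hi e)⟩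

/-- pull `arc` back along an injection `Fin N → X`; `no_tt` -/
theorem digraph {X : Finset (Pt × Pt)} (hX : X ⊆ G.flags) {k : ℕ}
    (h : ∀ I ⊆ X, G.indep I → I.card ≠ k) {N : ℕ} (hN : N ≤ X.card) :
    ∃ D : Digraph (Fin N), (∀ v, ¬ D.Adj v v) ∧
      (¬ ∃ S : Finset (Fin N), S.card = k ∧ ∀ u ∈ S, ∀ v ∈ S, ¬ D.Adj u v) ∧
      ¬ ∃ f : Fin (t + 1) → Fin N, Function.Injective f ∧ ∀ i j, i < j → D.Adj (f i) (f j) := by
  obtain ⟨e⟩ : Nonempty (Fin N ↪ X) := Function.Embedding.nonempty_of_card_le (by simpa using hN)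
  refine ⟨⟨fun u v => G.arc (e u).1 (e v).1⟩, fun v hv => hv.2 hv.1, ?_, ?_⟩
  · rintro ⟨S, h1, h2⟩
    have hs : S.image (fun u => (e u).1) ⊆ X := fun z hz => by
      obtain ⟨u, -, rfl⟩ := mem_image.1 hz
      exact (e u).2
    refine h _ hs ⟨hs.trans hX, fun z hz z' hz' => ?_⟩ ?_
    · obtain ⟨u, hu, rfl⟩ := mem_image.1 hz
      obtain ⟨v, hv, rfl⟩ := mem_image.1 hz'
      exact ⟨fun a => by_contra fun b => h2 u hu v hv ⟨a, b⟩,
        fun a => by_contra fun b => h2 v hv u hu ⟨a, b⟩⟩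
    · rw [card_image_of_injective _ fun u v a => e.injective (Subtype.ext a), h1]
  · rintro ⟨f, -, hf⟩
    exact G.no_tt (fun i => (e (f i)).1) (fun i => hX (e (f i)).2) hf

end GP

end Pool.Agent.Work.MP_e10cd8_co.All
end

-- merged part: Pool.Agent.Work.MP_e10cd8_co.Uni.LNum
section
/-! A one-round cover: the lower bound with a loss polynomial in the dimension and in `log q`.
The numerical lemmas are those of `All/ANum`, `All/Val`, `All/ACover` under other side conditions. -/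

namespace Pool.Agent.Work.MP_e10cd8_co.Uni
open Finset Pool.Agent.Work.MP_e10cd8_co.Four Pool.Agent.Work.MP_e10cd8_co.All

/-- side conditions of the one-round count -/
structure NQ (q t H k : ℕ) : Prop where
  ht : 2 ≤ t
  hH : 10 ^ 6 * (t + 1) ^ 4 ≤ H
  hq : 1000 ≤ q
  hL : 2 * t * Real.log q ≤ H
  hHq : 10 ^ 6 * (H : ℝ) ^ 6 ≤ q
  hk1 : (H : ℝ) ^ 6 * q * Real.log q ≤ k
  hk2 : (k : ℝ) ≤ 5 * (H : ℝ) ^ 6 * q * Real.log q

namespace NQ
variable {q t H k : ℕ}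

theorem H_ge (h : NQ q t H k) : (10 : ℝ) ^ 6 * (t + 1) ^ 4 ≤ H := by
  exact_mod_cast h.hH

theorem H_ge' (h : NQ q t H k) : (10 : ℝ) ^ 7 ≤ H := by
  have h1 := h.H_ge
  have h2 : (3 : ℝ) ≤ (t : ℝ) + 1 := by
    have : (2 : ℝ) ≤ t := by exact_mod_cast h.ht
    linarith
  have h3 : (3 : ℝ) ^ 4 ≤ ((t : ℝ) + 1) ^ 4 := pow_le_pow_left₀ (by norm_num) h2 4
  linarith

theorem q_ge (h : NQ q t H k) : (1000 : ℝ) ≤ q := by
  exact_mod_cast h.hq

theorem ANum_H1 (h : NQ q t H k) : (1 : ℝ) ≤ H := le_trans (by norm_num) h.H_ge'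

theorem ANum_H0 (h : NQ q t H k) : (0 : ℝ) < H := lt_of_lt_of_le one_pos h.ANum_H1

theorem ANum_q0 (h : NQ q t H k) : (0 : ℝ) < q := lt_of_lt_of_le (by norm_num) h.q_ge

theorem ANum_tH (h : NQ q t H k) : 1000 * ((t : ℝ) + 1) ≤ H := by
  have h1 := h.H_ge
  have h2 : (1 : ℝ) ≤ (t : ℝ) + 1 := le_add_of_nonneg_left (Nat.cast_nonneg t)
  have h3 : (t : ℝ) + 1 ≤ ((t : ℝ) + 1) ^ 4 := le_self_pow₀ h2 (by norm_num)
  linarith

theorem ANum_L3 (h : NQ q t H k) : 3 ≤ Real.log q := by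
  have h1 := h.q_ge
  rw [Real.le_log_iff_exp_le h.ANum_q0]
  have e : Real.exp 3 = Real.exp 1 ^ 3 := by rw [← Real.exp_nat_mul]; norm_num
  have e1 : Real.exp 1 ≤ 3 := Real.exp_one_lt_d9.le.trans (by norm_num)
  have e2 : Real.exp 1 ^ 3 ≤ 3 ^ 3 := pow_le_pow_left₀ (Real.exp_pos 1).le e1 3
  rw [e]
  linarith

theorem k_pos (h : NQ q t H k) : (0 : ℝ) < k := by
  have h1 := h.ANum_H0
  have h2 := h.ANum_q0
  have h3 : 0 < Real.log q := lt_of_lt_of_le (by norm_num) h.ANum_L3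
  exact lt_of_lt_of_le (by positivity) h.hk1

theorem ANum_qL (h : NQ q t H k) : q * Real.log q ≤ k := by
  have h1 : (1 : ℝ) ≤ (H : ℝ) ^ 6 := one_le_pow₀ h.ANum_H1
  have h2 := h.ANum_q0
  have h3 : 0 < Real.log q := lt_of_lt_of_le (by norm_num) h.ANum_L3
  calc q * Real.log q = 1 * q * Real.log q := by ring
    _ ≤ (H : ℝ) ^ 6 * q * Real.log q := by gcongr
    _ ≤ (k : ℝ) := h.hk1

theorem ANum_at0 (h : NQ q t H k) : at0 q H ≤ k / H ^ 2 := by
  have h1 := h.ANum_H0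
  rw [le_div_iff₀ (by positivity)]
  calc at0 q H * (H : ℝ) ^ 2 = (H : ℝ) ^ 6 * q * Real.log q := by unfold at0; ring
    _ ≤ (k : ℝ) := h.hk1

theorem q_le_k (h : NQ q t H k) : q ≤ k := by
  have h1 := h.ANum_qL
  have h2 := h.ANum_L3
  have h3 := h.ANum_q0
  have h4 : (q : ℝ) ≤ q * Real.log q := le_mul_of_one_le_right h3.le (by linarith)
  exact_mod_cast h4.trans h1

theorem one_le_div (h : NQ q t H k) : 1000 ≤ (k : ℝ) / H ^ 2 := by
  refine le_trans ?_ h.ANum_at0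
  have h1 : (1 : ℝ) ≤ (H : ℝ) ^ 4 := one_le_pow₀ h.ANum_H1
  have h2 := h.q_ge
  have h3 : 1 ≤ Real.log q := le_trans (by norm_num) h.ANum_L3
  calc (1000 : ℝ) = 1 * 1000 * 1 := by norm_num
    _ ≤ (H : ℝ) ^ 4 * q * Real.log q := by gcongr

theorem aw_ge (h : NQ q t H k) : (k : ℝ) / H ≤ aw H k := by
  have h0 : 0 < H := by exact_mod_cast h.ANum_H0
  have h1 : k ≤ aw H k * H := by
    have := Nat.lt_div_mul_add (a := k) h0
    unfold aw
    rw [add_mul, one_mul]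
    exact this.le
  rw [div_le_iff₀ h.ANum_H0]
  exact_mod_cast h1

theorem ANum_kH (h : NQ q t H k) : (k : ℝ) / H = H * (k / H ^ 2) := by
  have h1 := h.ANum_H0.ne'
  field_simp

theorem aw_le (h : NQ q t H k) : (aw H k : ℝ) ≤ 2 * k / H := by
  have h0 := Nat.cast_div_le (α := ℝ) (m := k) (n := H)
  have h1 := h.ANum_kH
  have h2 := h.one_le_div
  have h3 := h.H_ge'
  have h4 : (k : ℝ) / H ^ 2 ≤ k / H := by nlinarith
  unfold aw
  rw [Nat.cast_add, Nat.cast_one, mul_div_assoc]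
  linarith

theorem ad_ge (h : NQ q t H k) : (k : ℝ) / (H ^ 3 * q) ≤ ad q H k := by
  have h0 : 0 < H ^ 3 * q :=
    Nat.mul_pos (pow_pos (by exact_mod_cast h.ANum_H0) 3) (by exact_mod_cast h.ANum_q0)
  have h1 : k ≤ ad q H k * (H ^ 3 * q) := by
    have := Nat.lt_div_mul_add (a := k) h0
    unfold ad
    rw [add_mul, one_mul]
    exact this.le
  have h2 := h.ANum_H0
  have h3 := h.ANum_q0
  rw [div_le_iff₀ (by positivity)]
  exact_mod_cast h1

theorem ANum_quot (h : NQ q t H k) : (H : ℝ) ^ 3 * Real.log q ≤ (k : ℝ) / (H ^ 3 * q) := by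
  have h2 := h.ANum_H0
  have h3 := h.ANum_q0
  rw [le_div_iff₀ (by positivity)]
  calc (H : ℝ) ^ 3 * Real.log q * (H ^ 3 * q) = (H : ℝ) ^ 6 * q * Real.log q := by ring
    _ ≤ (k : ℝ) := h.hk1

theorem ad_le (h : NQ q t H k) : (ad q H k : ℝ) ≤ 2 * k / (H ^ 3 * q) := by
  have h0 := Nat.cast_div_le (α := ℝ) (m := k) (n := H ^ 3 * q)
  have h1 := h.ANum_quot
  have h2 : (1 : ℝ) ≤ (H : ℝ) ^ 3 := one_le_pow₀ h.ANum_H1
  have L1 : 1 ≤ Real.log q := le_trans (by norm_num) h.ANum_L3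
  have h3 : 1 ≤ (H : ℝ) ^ 3 * Real.log q := one_le_mul_of_one_le_of_one_le h2 L1
  unfold ad
  rw [Nat.cast_mul, Nat.cast_pow] at h0
  rw [Nat.cast_add, Nat.cast_one, mul_div_assoc]
  linarith

theorem am0_le (h : NQ q t H k) : am0 q t ≤ ad q H k := by
  have h1 := h.ANum_tH
  have h2 : (H : ℝ) ≤ (H : ℝ) ^ 3 := le_self_pow₀ h.ANum_H1 (by norm_num)
  have h3 : (0 : ℝ) ≤ t := Nat.cast_nonneg t
  have L0 : 0 ≤ Real.log q := le_trans (by norm_num) h.ANum_L3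
  have h4 : 3 * ((t : ℝ) + 1) ≤ (H : ℝ) ^ 3 := by linarith
  exact (mul_le_mul_of_nonneg_right h4 L0).trans (h.ANum_quot.trans h.ad_ge)

theorem pool_factor (h : NQ q t H k) {B : ℕ} {y : ℝ} (hy : 0 ≤ y)
    (hB : (B : ℝ) ≤ (H : ℝ) ^ 3 * Real.exp (-y) * (q : ℝ) ^ t) :
    (B.choose (aw H k) : ℝ) * ap q t H k ^ aw H k ≤ Real.exp (-((10 + y) * k / H)) := by
  have q0 := h.ANum_q0
  have H0 := h.ANum_H0
  have w1 : 1 ≤ aw H k := by unfold aw; exact Nat.le_add_left 1 _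
  have w0 : (0 : ℝ) < aw H k := by exact_mod_cast w1
  have p0 := ap_nonneg q t H k
  have e1 : Real.exp 1 ≤ 3 := Real.exp_one_lt_d9.le.trans (by norm_num)
  have e2 : Real.exp 10 ≤ 3 ^ 10 := by
    have e : Real.exp 10 = Real.exp 1 ^ 10 := by rw [← Real.exp_nat_mul]; norm_num
    rw [e]
    exact pow_le_pow_left₀ (Real.exp_pos 1).le e1 10
  have H6 : (10 : ℝ) ^ 7 ≤ (H : ℝ) ^ 6 := h.H_ge'.trans (le_self_pow₀ h.ANum_H1 (by norm_num))
  have e3 : 3 / (H : ℝ) ^ 6 ≤ Real.exp (-10) := by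
    rw [Real.exp_neg, ← one_div, div_le_div_iff₀ (by positivity) (Real.exp_pos _)]
    linarith
  have e4 : 3 / (H : ℝ) ^ 6 * Real.exp (-y) ≤ Real.exp (-(10 + y)) := by
    rw [neg_add, Real.exp_add]
    exact mul_le_mul_of_nonneg_right e3 (Real.exp_pos _).le
  have key : Real.exp 1 * B * ap q t H k / aw H k ≤ Real.exp (-(10 + y)) := by
    rw [div_le_iff₀ w0]
    calc Real.exp 1 * B * ap q t H k
        ≤ 3 * ((H : ℝ) ^ 3 * Real.exp (-y) * (q : ℝ) ^ t) * ap q t H k := by gcongr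
      _ = 3 / (H : ℝ) ^ 6 * Real.exp (-y) * (k / H) := by unfold ap; field_simp
      _ ≤ _ := mul_le_mul e4 h.aw_ge (by positivity) (Real.exp_pos _).le
  refine (choose_mul_pow_le B _ w1 p0).trans ((pow_le_pow_left₀ (by positivity) key _).trans ?_)
  rw [← Real.exp_nat_mul, Real.exp_le_exp, mul_div_assoc, mul_neg, neg_le_neg_iff, mul_comm]
  exact mul_le_mul_of_nonneg_right h.aw_ge (by linarith)

theorem ap_le_one (h : NQ q t H k) : ap q t H k ≤ 1 := by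
  have H1 := h.H_ge'
  have q1 : (1 : ℝ) ≤ q := le_trans (by norm_num) h.q_ge
  have L0 : 0 ≤ Real.log q := le_trans (by norm_num) h.ANum_L3
  have t2 : (2 : ℝ) ≤ t := by exact_mod_cast h.ht
  have h2 : 5 * Real.log q ≤ (H : ℝ) ^ 4 := by
    have := h.hL
    have : (H : ℝ) ^ 2 ≤ (H : ℝ) ^ 4 := pow_le_pow_right₀ h.ANum_H1 (by norm_num)
    nlinarith
  have h3 : (q : ℝ) ≤ (q : ℝ) ^ t := le_self_pow₀ q1 (by have := h.ht; omega)
  refine div_le_one_of_le₀ (h.hk2.trans ?_) (by positivity)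
  calc 5 * (H : ℝ) ^ 6 * q * Real.log q = H ^ 6 * (5 * Real.log q) * q := by ring
    _ ≤ H ^ 6 * H ^ 4 * (q : ℝ) ^ t := by gcongr
    _ = _ := by ring

end NQ

theorem Qfam {φ κ : Type} [DecidableEq φ] {q t H k : ℕ} (h : NQ q t H k) (I : Finset κ)
    (f : κ → Finset φ) (hI : (I.card : ℝ) ≤ Real.exp (k / H))
    (hf : ∀ i ∈ I, ((f i).card : ℝ) ≤ (H : ℝ) ^ 3 * (q : ℝ) ^ t) :
    wtC (ap q t H k) (aw H k) (I.image fun i => ((∅ : Finset φ), f i)) ≤
      Real.exp (-(9 * k / H)) := by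
  refine (wtC_image_le (ap_nonneg q t H k) _ I _).trans ?_
  refine (sum_le_card_nsmul _ _ (Real.exp (-((10 + 0) * k / H))) fun i hi => ?_).trans ?_
  · rw [card_empty, pow_zero, one_mul]
    refine h.pool_factor le_rfl ?_
    rw [neg_zero, Real.exp_zero, mul_one]
    exact hf i hi
  · rw [nsmul_eq_mul]
    refine (mul_le_mul_of_nonneg_right hI (Real.exp_pos _).le).trans ?_
    rw [← Real.exp_add]
    exact Real.exp_le_exp.2 (le_of_eq (by ring))

theorem Qt {q t H k : ℕ} (h : NQ q t H k) : 16 * ((t : ℝ) + 1) ^ 2 ≤ H := by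
  have h1 := h.H_ge
  have h2 : (1 : ℝ) ≤ (t : ℝ) + 1 := by linarith [Nat.cast_nonneg (α := ℝ) t]
  have h3 : ((t : ℝ) + 1) ^ 2 ≤ ((t : ℝ) + 1) ^ 4 := pow_le_pow_right₀ h2 (by norm_num)
  have h4 : (0 : ℝ) ≤ ((t : ℝ) + 1) ^ 2 := by positivity
  linarith

theorem Qdiv {q t H k : ℕ} (h : NQ q t H k) {c : ℝ} (hc : c ≤ (H : ℝ) ^ 5) :
    c * q * Real.log q ≤ k / H := by
  have H0 : (0 : ℝ) < H := lt_of_lt_of_le (by norm_num) h.H_ge'
  have L0 : 0 ≤ Real.log q := le_trans (by norm_num) h.ANum_L3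
  rw [le_div_iff₀ H0]
  refine le_trans ?_ h.hk1
  calc c * q * Real.log q * H ≤ (H : ℝ) ^ 5 * q * Real.log q * H := by gcongr
    _ = _ := by ring

variable {q t : ℕ} {Pt : Type} [Fintype Pt] [DecidableEq Pt] (G : GP q t Pt)

theorem smp {H k : ℕ} (h : NQ q t H k) {x : ℝ} (hx : 1 / (H : ℝ) ≤ x)
    {T0 Z : Finset (Pt × Pt)} {u v : ℕ} (hZ : Z ⊆ G.flags) (hk : Z.card ≤ k)
    (h1 : G.Cl1 T0 u (ad q H k) Z) (h2 : G.Cl1 (sw T0) v (ad q H k) (sw Z))
    (n1 : G.NoPop T0 u (aw H k) (3 * H * q) Z)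
    (n2 : G.NoPop (sw T0) v (aw H k) (3 * H * q) (sw Z)) :
    G.Smp (G.PPf T0 u (am0 q t)) (fun T => G.PPf (sw T0) v (am0 q t) (sw T)) x H k Z := by
  intro Z' h'
  have q1 := h.q_ge
  have H1 := h.H_ge'
  have H2 := h.H_ge
  have k0 := h.k_pos
  have q0 : (0 : ℝ) < q := by linarith
  have H0 : (0 : ℝ) < H := by linarith
  have x0 : 0 < x := lt_of_lt_of_le (by positivity) hx
  have L0 : 0 < Real.log q := Real.log_pos (by linarith)
  have hm : 0 < am0 q t := by unfold am0; positivity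
  have hd := h.am0_le
  have d0 : (0 : ℝ) < ad q H k := hm.trans_le hd
  have t0 : 0 < at0 q H := by unfold at0; positivity
  have h0 : 0 ≤ am0 q t / ad q H k := by positivity
  have h01 : am0 q t / ad q H k ≤ 1 := (div_le_one d0).2 hd
  have a1 := PG.Sparse1_test Z' (fun (a : Pt) z => a ∈ G.pl z.2 ∧ z.1 ∉ G.spn T0 a) hm hd
  have a2 := PG.Sparse1_test Z' (fun (b : Pt) z => b ∈ G.pl z.1 ∧ z.2 ∉ G.spn (sw T0) b) hm hd
  have a3 := markov h0 h01 (Ω := Z') (f := fun T => ((T ∩ Z').card : ℝ))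
    (fun _ _ => Nat.cast_nonneg _) t0
  rw [Ex_card, inter_self] at a3
  have a4 : am0 q t / ad q H k * Z'.card / at0 q H ≤ 1 / 10 := by
    have b1 : (Z'.card : ℝ) ≤ k := by exact_mod_cast (card_le_card h').trans hk
    have b2 : (k : ℝ) ≤ ad q H k * (H ^ 3 * q) := (div_le_iff₀ (by positivity)).1 h.ad_ge
    have b3 : (30 : ℝ) * (t + 1) ≤ H := by
      have c1 : (1 : ℝ) ≤ t + 1 := by linarith [Nat.cast_nonneg (α := ℝ) t]
      have c2 : ((t : ℝ) + 1) ^ 1 ≤ (t + 1) ^ 4 := pow_le_pow_right₀ c1 (by norm_num)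
      rw [pow_one] at c2
      linarith
    rw [div_le_iff₀ t0, div_mul_eq_mul_div, div_le_iff₀ d0]
    calc am0 q t * Z'.card ≤ am0 q t * (ad q H k * (H ^ 3 * q)) :=
          mul_le_mul_of_nonneg_left (b1.trans b2) hm.le
      _ = (30 * (t + 1)) * (1 / 10 * (H ^ 3 * q * Real.log q) * ad q H k) := by
          unfold am0
          ring
      _ ≤ H * (1 / 10 * (H ^ 3 * q * Real.log q) * ad q H k) :=
          mul_le_mul_of_nonneg_right b3 (by positivity)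
      _ = _ := by
          unfold at0
          ring
  have a5 : Fintype.card Pt * Real.exp (-am0 q t / 3) ≤ 1 / 10 := by
    rw [show -am0 q t / 3 = -(((t + 1 : ℕ) : ℝ) * Real.log q) by unfold am0; push_cast; ring,
      Real.exp_neg, Real.exp_nat_mul, Real.exp_log q0, ← div_eq_mul_inv,
      div_le_iff₀ (by positivity), pow_succ]
    refine G.card_pt_le.trans ?_
    have : 0 ≤ (q : ℝ) ^ t * ((q : ℝ) - 20) := mul_nonneg (by positivity) (by linarith)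
    linarith
  obtain ⟨T, hT, k'⟩ := exists_of_Pr_lt_one (((Pr_or h0 h01 _ _).trans (add_le_add
    ((Pr_or h0 h01 _ _).trans (add_le_add (a1.trans a5) (a2.trans a5))) (a3.trans a4))).trans_lt
      (by norm_num))
  obtain ⟨k1, k3⟩ := not_or.1 k'
  obtain ⟨k1, k2⟩ := not_or.1 k1
  rw [not_not] at k1 k2
  rw [inter_eq_left.2 hT] at k3
  have e2 : ∀ (W : Finset (Pt × Pt)) (b : Pt), (G.nw (sw T0) (sw W) b).card =
      (selIn W fun z => b ∈ G.pl z.1 ∧ z.2 ∉ G.spn (sw T0) b).card := fun W b =>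
    card_selIn_sw W _
  have hM : 2 * (q : ℝ) ≤ x * (3 * H * q : ℕ) := by
    have b1 : 1 ≤ x * H := (div_le_iff₀ H0).1 hx
    have b2 := mul_le_mul_of_nonneg_right b1 q0.le
    push_cast
    linarith
  have hb : 2 * (4 * (ad q H k : ℝ)) * q / x + 2 * aw H k ≤ 5 * k / H := by
    have b1 : (ad q H k : ℝ) * (H ^ 3 * q) ≤ 2 * k := (le_div_iff₀ (by positivity)).1 h.ad_le
    have b2 : 2 * (4 * (ad q H k : ℝ)) * q / x ≤ 2 * (4 * (ad q H k : ℝ)) * q / (1 / H) :=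
      div_le_div_of_nonneg_left (by positivity) (by positivity) hx
    have b3 : 2 * (4 * (ad q H k : ℝ)) * q / (1 / H) ≤ k / H := by
      rw [div_div_eq_mul_div, div_one, le_div_iff₀ H0]
      refine le_of_mul_le_mul_right ?_ H0
      have c1 : 16 * (k : ℝ) ≤ k * H := by nlinarith
      nlinarith
    have b4 := h.aw_le
    have b5 : 5 * (k : ℝ) / H = k / H + 2 * (2 * k / H) := by ring
    linarith
  refine ⟨T, hT, (not_le.1 k3).le, fun z hz => ?_, fun P' hP' => ?_, fun Q' hQ' => ?_⟩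
  · have z2 : z.swap ∈ sw Z := mem_sw.2 (by rwa [Prod.swap_swap])
    refine G.mem_pool.2 ⟨G.mem_flags.1 (hZ hz), mem_sel.2 ⟨h1.rank z hz, (k1 z.1).1 ?_⟩,
      mem_sel.2 ⟨h2.rank z.swap z2, ?_⟩⟩
    · exact Nat.cast_le.2 ((PG.Sparse1_sel h' _).trans (h1.few z hz))
    · rw [e2]
      refine (k2 z.2).1 (Nat.cast_le.2 ((PG.Sparse1_sel h' _).trans ?_))
      rw [← e2]
      exact h2.few z.swap z2
  · refine (G.val_loss x0 (by positivity) h1 n1 hM h' fun a ha => ?_).trans hb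
    obtain ⟨c1, c2⟩ := mem_sel.1 (hP' ha)
    exact ⟨c1, (k1 a).2 c2⟩
  · have := G.val_loss x0 (e := 4 * (ad q H k : ℝ)) (by positivity) h2 n2 hM (sw_mono h')
      (P' := Q') fun b hb => by
        obtain ⟨c1, c2⟩ := mem_sel.1 (hQ' hb)
        rw [e2] at c2 ⊢
        exact ⟨c1, (k2 b).2 c2⟩
    rw [card_selIn_sw] at this
    exact this.trans hb

theorem pop_cover {H k : ℕ} (h : NQ q t H k) (T0 : Finset (Pt × Pt)) {u : ℕ} (h1 : 1 ≤ u)
    (h2 : u ≤ t) :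
    ∃ C C' : Finset (Finset (Pt × Pt) × Finset (Pt × Pt)),
      wtC (ap q t H k) (aw H k) C ≤ Real.exp (-(9 * k / H)) ∧
      wtC (ap q t H k) (aw H k) C' ≤ Real.exp (-(9 * k / H)) ∧
      ∀ Z, ¬ G.NoPop T0 u (aw H k) (3 * H * q) Z → hits C (aw H k) Z ∧ hits C' (aw H k) (sw Z) := by
  have H1 := h.H_ge'
  have q0 := h.q_ge
  have qp : (0 : ℝ) < q := by linarith
  have ht := Qt h
  have t0 : (0 : ℝ) ≤ t := Nat.cast_nonneg _
  have hI : ((selIn (selIn (univ : Finset Pt).powerset fun A => A.card ≤ 3 * H * q)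
      fun A => ∀ a ∈ A, G.rk (G.spn T0 a) = u).card : ℝ) ≤ Real.exp (k / H) := by
    refine le_trans (Nat.cast_le.2 (card_le_card (selIn_subset _ _))) ?_
    refine (ACover_cnt _ qp (t + 1) _ (by exact_mod_cast G.card_pt_succ_le)).trans
      (Real.exp_le_exp.2 (le_trans (le_of_eq ?_) (Qdiv h (c := (t + 1) * (3 * H)) ?_)))
    · push_cast
      ring
    · have a1 : 3 * ((t : ℝ) + 1) ≤ H := by nlinarith
      have a2 : (H : ℝ) ^ 2 ≤ (H : ℝ) ^ 5 := pow_le_pow_right₀ (by linarith) (by norm_num)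
      nlinarith
  have hf : ∀ A ∈ selIn (selIn (univ : Finset Pt).powerset fun A => A.card ≤ 3 * H * q)
      fun A => ∀ a ∈ A, G.rk (G.spn T0 a) = u,
      ((G.popP T0 u A).card : ℝ) ≤ (H : ℝ) ^ 3 * (q : ℝ) ^ t := fun A hA => by
    simp only [mem_selIn] at hA
    have a1 := G.card_popP_le T0 h1 h2 hA.2
    have a2 : (A.card : ℝ) ≤ 3 * H * q := by exact_mod_cast hA.1.2
    have a3 : 12 * (H : ℝ) ≤ (H : ℝ) ^ 3 := by
      have : (12 : ℝ) ≤ (H : ℝ) ^ 2 := by nlinarith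
      nlinarith
    refine le_of_mul_le_mul_right (a1.trans ?_) qp
    calc 4 * (A.card : ℝ) * (q : ℝ) ^ t ≤ 4 * (3 * H * q) * (q : ℝ) ^ t := by gcongr
      _ = 12 * H * (q : ℝ) ^ t * q := by ring
      _ ≤ _ := by gcongr
  refine ⟨_, _, Qfam h _ (G.popP T0 u) hI hf,
    Qfam h _ (fun A => sw (G.popP T0 u A)) hI fun A hA => by rw [card_sw]; exact hf A hA,
    fun Z hZ => ?_⟩
  simp only [GP.NoPop, not_forall, not_lt] at hZ
  obtain ⟨A, a1, a2, a3⟩ := hZ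
  have hA : A ∈ selIn (selIn (univ : Finset Pt).powerset fun A => A.card ≤ 3 * H * q)
      fun A => ∀ a ∈ A, G.rk (G.spn T0 a) = u :=
    mem_selIn.2 ⟨mem_selIn.2 ⟨mem_powerset.2 (subset_univ _), a1⟩, a2⟩
  refine ⟨⟨(∅, G.popP T0 u A), mem_image.2 ⟨A, hA, rfl⟩, empty_subset _, ?_⟩,
    ⟨(∅, sw (G.popP T0 u A)), mem_image.2 ⟨A, hA, rfl⟩, empty_subset _, ?_⟩⟩
  · rwa [sdiff_empty]
  · rwa [sdiff_empty, ACover_sw_inter, card_sw]

end Pool.Agent.Work.MP_e10cd8_co.Uni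
end
end

-- merged part: Pool.Agent.Work.MP_e10cd8_co.All.Rich
section

end

-- merged part: Pool.Agent.Work.MP_e10cd8_co.Gap.Rich3
section
/-! Cheap container pairs from rich subspaces of all ranks. -/

namespace Pool.Agent.Work.MP_e10cd8_co.Gap

open Finset Four All

variable {q t : ℕ} {Pt : Type} [Fintype Pt] [DecidableEq Pt]

theorem rich3_count (G : GP q t Pt) (hq : 1000 ≤ q) (j : ℕ) {B : Finset Pt → Finset (Finset Pt)}
    (hB : ∀ U, ((B U).card : ℝ) ≤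
      Real.exp (300 * (t + 1) * q * Real.log q * (1 + Real.log (6 * (t + 1) * Real.exp j ^ 2))))
    {C : Finset (Finset Pt)} (hC : C.card ≤ ((sel fun R => G.cl R = R).card + 1) ^ q) :
    (((C ×ˢ C).biUnion fun x => insert x.1 (B x.2) ×ˢ insert x.2 (B x.1)).card : ℝ) ≤
      Real.exp (3000 * (t + 1) * (t + 1 + j) * q * Real.log q) := by
  have q1 : (1000 : ℝ) ≤ q := by exact_mod_cast hq
  have q0 : (0 : ℝ) < q := by linarith only [q1]
  have t2 : (2 : ℝ) ≤ t := by exact_mod_cast G.ht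
  have j0 : (0 : ℝ) ≤ j := Nat.cast_nonneg j
  have L1 : 1 ≤ Real.log q := by
    rw [Real.le_log_iff_exp_le q0]
    linarith only [Real.exp_one_lt_d9, q1]
  obtain ⟨M, hM⟩ : ∃ M : ℝ, M = (t + 1) * q * Real.log q := ⟨_, rfl⟩
  have M1 : 1 ≤ M := by
    rw [hM]
    exact one_le_mul_of_one_le_of_one_le
      (one_le_mul_of_one_le_of_one_le (by linarith only [t2]) (by linarith only [q1])) L1
  have c1 : (C.card : ℝ) ≤ Real.exp (2 * ((t + 1) * M)) := by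
    have h1 : 2 ≤ q ^ ((t + 1) * (t + 1)) :=
      le_trans (by omega) (Nat.le_self_pow (by positivity) q)
    have h2 : C.card ≤ (q ^ ((t + 1) * (t + 1)) * q ^ ((t + 1) * (t + 1))) ^ q :=
      hC.trans (Nat.pow_le_pow_left (by nlinarith only [G.card_closed_le, h1]) q)
    rw [← pow_add, ← pow_mul] at h2
    refine (Nat.cast_le.2 h2).trans (le_of_eq ?_)
    rw [Nat.cast_pow, ← Real.exp_log (pow_pos q0 _), Real.log_pow, hM]
    push_cast
    ring_nf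
  have b1 : ∀ U V, ((insert U (B V)).card : ℝ) ≤ Real.exp (M + 300 * M * (6 + t + 2 * j)) :=
    fun U V => by
    have h1 : Real.log (6 * (t + 1) * Real.exp j ^ 2) ≤ 5 + t + 2 * j := by
      rw [Real.log_mul (by positivity) (by positivity), Real.log_mul (by norm_num) (by positivity),
        Real.log_pow, Real.log_exp]
      push_cast
      linarith only [Real.log_le_sub_one_of_pos (show (0 : ℝ) < 6 by norm_num),
        Real.log_le_sub_one_of_pos (show (0 : ℝ) < t + 1 by positivity)]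
    have h2 : ((B V).card : ℝ) ≤ Real.exp (300 * M * (6 + t + 2 * j)) := by
      refine (hB V).trans (Real.exp_le_exp.2 ?_)
      calc _ = 300 * M * (1 + Real.log (6 * (t + 1) * Real.exp j ^ 2)) := by rw [hM]; ring
        _ ≤ _ := mul_le_mul_of_nonneg_left (by linarith only [h1]) (by linarith only [M1])
    have h3 : 1 ≤ Real.exp (300 * M * (6 + t + 2 * j)) :=
      Real.one_le_exp (mul_nonneg (by linarith only [M1]) (by linarith only [j0, t2]))
    have h4 : 2 ≤ Real.exp M := by linarith only [Real.add_one_le_exp M, M1]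
    have h5 : ((insert U (B V)).card : ℝ) ≤ (B V).card + 1 := by exact_mod_cast card_insert_le U (B V)
    rw [Real.exp_add]
    linarith only [h2, h3, h5, mul_le_mul_of_nonneg_right h4 (zero_le_one.trans h3)]
  refine (GP.Boost_bi _ _ (Real.exp (2 * ((t + 1) * M)) * Real.exp (2 * ((t + 1) * M)))
    (Real.exp (M + 300 * M * (6 + t + 2 * j)) * Real.exp (M + 300 * M * (6 + t + 2 * j)))
    (by positivity) ?_ fun x _ => ?_).trans ?_
  · rw [card_product, Nat.cast_mul]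
    exact mul_le_mul c1 c1 (Nat.cast_nonneg _) (Real.exp_pos _).le
  · rw [card_product, Nat.cast_mul]
    exact mul_le_mul (b1 _ _) (b1 _ _) (Nat.cast_nonneg _) (Real.exp_pos _).le
  · rw [← Real.exp_add, ← Real.exp_add, ← Real.exp_add, Real.exp_le_exp]
    have e : 3000 * ((t : ℝ) + 1) * (t + 1 + j) * q * Real.log q = 3000 * M * (t + 1 + j) := by
      rw [hM]
      ring
    have M0 : 0 ≤ M := by linarith only [M1]
    rw [e]
    linarith only [M0, mul_nonneg M0 j0, mul_le_mul_of_nonneg_left t2 M0]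

/-- the union of few rich spans of any ranks is rich -/
theorem rich3_union (G : GP q t Pt) {E : ℝ} (hE : 1 ≤ E) (P : Finset Pt)
    {Rs : Finset (Finset Pt)} (hc : Rs.card ≤ q)
    (h : ∀ R ∈ Rs, G.cl R = R ∧ 1 ≤ G.rk R ∧ G.rk R ≤ t ∧
      (q : ℝ) ^ G.rk R ≤ E * q * (R ∩ P).card) :
    ((Rs.biUnion id).card : ℝ) ≤ 6 * (t + 1) * E ^ 2 * (Rs.biUnion id ∩ P).card := by
  have a1 : Rs.biUnion id ⊆ (Icc 1 t).biUnion fun u =>
      (selIn Rs fun R => G.rk R = u).biUnion id := fun a ha => by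
    obtain ⟨R, hR, k⟩ := mem_biUnion.1 ha
    exact mem_biUnion.2 ⟨_, mem_Icc.2 ⟨(h R hR).2.1, (h R hR).2.2.1⟩,
      mem_biUnion.2 ⟨R, mem_selIn.2 ⟨hR, rfl⟩, k⟩⟩
  refine (Nat.cast_le.2 (card_le_card a1)).trans ((GP.Boost_bi _ _ (t + 1)
    (6 * E ^ 2 * (Rs.biUnion id ∩ P).card) (by positivity) (by simp) fun u hu => ?_).trans
      (le_of_eq (by ring)))
  refine (G.rich_union (mem_Icc.1 hu).1 hE P ((card_le_card (selIn_subset _ _)).trans hc)
    fun R hR => ?_).2.trans (mul_le_mul_of_nonneg_left (Nat.cast_le.2 (card_le_card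
      (inter_subset_inter_right (biUnion_subset_biUnion_of_subset_left _ (selIn_subset _ _)))))
      (by positivity))
  obtain ⟨k1, rfl⟩ := mem_selIn.1 hR
  exact ⟨(h R k1).1, rfl, (h R k1).2.2.2⟩

theorem rich3_small {β γ : Type} [DecidableEq γ] (K : Finset β) (f : β → γ) (c : β → ℕ × ℕ)
    {s : ℕ} (hc : ∀ y ∈ K, c y ∈ range s ×ˢ range s) (n : ℕ) :
    ((selIn K fun y => ((selIn K fun y' => c y' = c y).image f).card ≤ n).image f).card ≤
      s ^ 2 * n := by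
  refine (card_le_card (t := (selIn (range s ×ˢ range s) fun w =>
    ((selIn K fun y' => c y' = w).image f).card ≤ n).biUnion fun w =>
      (selIn K fun y' => c y' = w).image f) fun R hR => ?_).trans
    ((card_biUnion_le_card_mul _ _ n fun w hw => (mem_selIn.1 hw).2).trans
      (Nat.mul_le_mul_right _ ((card_le_card (selIn_subset _ _)).trans ?_)))
  · obtain ⟨y, hy, rfl⟩ := mem_image.1 hR
    obtain ⟨k1, k2⟩ := mem_selIn.1 hy
    exact mem_biUnion.2 ⟨c y, mem_selIn.2 ⟨hc y k1, k2⟩,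
      mem_image_of_mem _ (mem_selIn.2 ⟨k1, rfl⟩)⟩
  · rw [card_product, card_range, sq]

/-- either some class of ranks has many spans on both sides, or few spans serve half of `W` -/
theorem rich3 (G : GP q t Pt) (hq : 1000 ≤ q) (hq2 : (t + 1) ^ 2 ≤ q) (j : ℕ) :
    ∃ F : Finset (Finset Pt × Finset Pt),
      (F.card : ℝ) ≤ Real.exp (3000 * (t + 1) * (t + 1 + j) * q * Real.log q) ∧
      ∀ (P Q : Finset Pt) (K : Finset (Finset Pt × Finset Pt)),
        (∀ y ∈ K, G.cl y.1 = y.1 ∧ G.cl y.2 = y.2 ∧ G.rk y.1 ≤ t ∧ G.rk y.2 ≤ t ∧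
          t + 1 ≤ G.rk y.1 + G.rk y.2 ∧ (q : ℝ) ^ G.rk y.1 ≤ Real.exp j * q * (y.1 ∩ P).card ∧
          (q : ℝ) ^ G.rk y.2 ≤ Real.exp j * q * (y.2 ∩ Q).card) →
        ∀ W : Finset (Pt × Pt), W.Nonempty → (∀ z ∈ W, ∃ y ∈ K, z.1 ∈ y.1 ∧ z.2 ∈ y.2) →
        ∃ XY ∈ F, ((G.pool XY.1 XY.2).card : ℝ) ≤
            600 * (t + 1) ^ 4 * Real.exp (4 * j) * (q : ℝ) ^ t ∧
          ∃ P' ⊆ P, ∃ Q' ⊆ Q, ∃ W' ⊆ W, W.card ≤ 2 * W'.card ∧
            ∀ z ∈ W', z.2 ∈ G.low (1 / 8) P' → z.1 ∈ G.low (1 / 8) Q' →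
              z.1 ∈ XY.1 ∧ z.2 ∈ XY.2 := by
  have E1 : 1 ≤ Real.exp j := Real.one_le_exp (Nat.cast_nonneg j)
  have E2 : 1 ≤ Real.exp j ^ 2 := one_le_pow₀ E1
  have q0 : (0 : ℝ) < q := Nat.cast_pos.2 (by omega)
  have s1 : (1 : ℝ) ≤ t + 1 := by linarith only [Nat.cast_nonneg (α := ℝ) t]
  have sE : 1 ≤ ((t : ℝ) + 1) * Real.exp j ^ 2 := one_le_mul_of_one_le_of_one_le s1 E2
  choose B hB1 hB2 using fun U => G.boost hq U (Om := 6 * (t + 1) * Real.exp j ^ 2)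
    (by linarith only [sE])
  set C := (selIn (sel fun R => G.cl R = R).powerset fun T => T.card ≤ q).image
    fun T => T.biUnion id with hC
  refine ⟨(C ×ˢ C).biUnion fun x => insert x.1 (B x.2) ×ˢ insert x.2 (B x.1),
    rich3_count G hq j hB1 (card_image_le.trans (card_small_le _ _)), ?_⟩
  obtain ⟨e, he⟩ : ∃ e : ℝ, e = 24 * ((t + 1) ^ 2 * Real.exp j ^ 2) := ⟨_, rfl⟩
  have e1 : 24 * ((t + 1) * Real.exp j ^ 2) ≤ e := by
    rw [he]
    gcongr
    exact le_self_pow₀ s1 (by norm_num)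
  have e24 : 24 ≤ e := by linarith only [e1, sE]
  have key : ∀ (P : Finset Pt) (Rs : Finset (Finset Pt)), Rs.Nonempty → Rs.card ≤ q →
      (∀ R ∈ Rs, G.cl R = R ∧ 1 ≤ G.rk R ∧ G.rk R ≤ t ∧
        (q : ℝ) ^ G.rk R ≤ Real.exp j * q * (R ∩ P).card) →
      Rs.biUnion id ∈ C ∧ ∃ Y ∈ B (Rs.biUnion id), G.low (1 / 8) (Rs.biUnion id ∩ P) ⊆ Y ∧
        (Y.card : ℝ) * (Rs.biUnion id ∩ P).card ≤ 4 * (q : ℝ) ^ (t + 1) ∧
        ((Rs.biUnion id).card : ℝ) * Y.card ≤ e ^ 2 * (q : ℝ) ^ (t + 1) := by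
    intro P Rs ⟨R0, hR0⟩ hc h
    have h2 := rich3_union G E1 P hc h
    have h3 : (Rs.biUnion id ∩ P).Nonempty := by
      refine Nonempty.mono (inter_subset_inter_right (subset_biUnion_of_mem id hR0)) ?_
      rw [← card_pos]
      refine Nat.pos_of_ne_zero fun k => ?_
      have h1 := (h R0 hR0).2.2.2
      rw [id] at k
      rw [k, Nat.cast_zero, mul_zero] at h1
      exact absurd h1 (not_le.2 (pow_pos q0 _))
    obtain ⟨Y, y1, y2, y3⟩ := hB2 (Rs.biUnion id) _ inter_subset_left h3 h2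
    have y0 : (0 : ℝ) ≤ Y.card := Nat.cast_nonneg _
    refine ⟨mem_image.2 ⟨Rs, mem_selIn.2 ⟨mem_powerset.2 fun R hR =>
      (mem_sel (p := fun R => G.cl R = R)).2 (h R hR).1, hc⟩, rfl⟩, Y, y1, y2, y3, ?_⟩
    have h4 : 24 * ((t + 1) * Real.exp j ^ 2) ≤ e ^ 2 :=
      e1.trans (le_self_pow₀ (by linarith only [e24]) (by norm_num))
    linarith only [mul_le_mul_of_nonneg_right h2 y0,
      mul_le_mul_of_nonneg_left y3 (show 0 ≤ 6 * ((t : ℝ) + 1) * Real.exp j ^ 2 by positivity),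
      mul_le_mul_of_nonneg_right h4 (pow_pos q0 (t + 1)).le]
  have fin : ∀ X Y : Finset Pt, (X.card : ℝ) * Y.card ≤ e ^ 2 * (q : ℝ) ^ (t + 1) →
      ((G.pool X Y).card : ℝ) ≤ 600 * (t + 1) ^ 4 * Real.exp (4 * j) * (q : ℝ) ^ t :=
    fun X Y h => by
    refine (G.card_pool_le X Y (by linarith only [e24]) h).trans
      (mul_le_mul_of_nonneg_right ?_ (pow_pos q0 t).le)
    rw [show Real.exp (4 * j) = Real.exp j ^ 4 by exact_mod_cast Real.exp_nat_mul j 4]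
    have a1 : e ^ 2 = 576 * ((t + 1) ^ 4 * Real.exp j ^ 4) := by rw [he]; ring
    have a2 := mul_le_mul_of_nonneg_right e24 (show 0 ≤ e by linarith only [e24])
    linarith only [a1, a2, sq e]
  intro P Q K hK W hW hWK
  obtain ⟨n, hn⟩ : ∃ n, n = q / (t + 1) ^ 2 := ⟨_, rfl⟩
  have n1 : (t + 1) ^ 2 * n ≤ q := hn ▸ Nat.mul_div_le _ _
  have n0 : 1 ≤ n := hn ▸ (Nat.one_le_div_iff (by positivity)).2 hq2
  have n2 : q ≤ 2 * ((t + 1) ^ 2 * n) := by
    have a1 : q < (t + 1) ^ 2 * (n + 1) := hn ▸ Nat.lt_mul_div_succ q (by positivity)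
    have a2 := Nat.mul_le_mul_left ((t + 1) ^ 2) n0
    rw [mul_add] at a1
    omega
  have n3 : n ≤ q := le_trans (Nat.le_mul_of_pos_left n (by positivity)) n1
  have k1 : ∀ y ∈ K, G.cl y.1 = y.1 ∧ 1 ≤ G.rk y.1 ∧ G.rk y.1 ≤ t ∧
      (q : ℝ) ^ G.rk y.1 ≤ Real.exp j * q * (y.1 ∩ P).card := fun y hy => by
    obtain ⟨a1, -, a3, a4, a5, a6, -⟩ := hK y hy
    exact ⟨a1, by omega, a3, a6⟩
  have k2 : ∀ y ∈ K, G.cl y.2 = y.2 ∧ 1 ≤ G.rk y.2 ∧ G.rk y.2 ≤ t ∧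
      (q : ℝ) ^ G.rk y.2 ≤ Real.exp j * q * (y.2 ∩ Q).card := fun y hy => by
    obtain ⟨-, a2, a3, a4, a5, -, a7⟩ := hK y hy
    exact ⟨a2, by omega, a4, a7⟩
  obtain ⟨c, hc⟩ : ∃ c : Finset Pt × Finset Pt → ℕ × ℕ, ∀ y, c y = (G.rk y.1, G.rk y.2) :=
    ⟨_, fun _ => rfl⟩
  have c1 : ∀ y ∈ K, c y ∈ range (t + 1) ×ˢ range (t + 1) := fun y hy => by
    rw [hc]
    exact mk_mem_product (mem_range.2 (Nat.lt_succ_of_le (k1 y hy).2.2.1))
      (mem_range.2 (Nat.lt_succ_of_le (k2 y hy).2.2.1))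
  by_cases hb : ∃ y ∈ K, n ≤ ((selIn K fun y' => c y' = c y).image Prod.fst).card ∧
      n ≤ ((selIn K fun y' => c y' = c y).image Prod.snd).card
  · obtain ⟨y, hy, b1, b2⟩ := hb
    obtain ⟨Rs, r1, r2⟩ := exists_subset_card_eq b1
    obtain ⟨Ss, t1, t2⟩ := exists_subset_card_eq b2
    have r3 : ∀ R ∈ Rs, (G.cl R = R ∧ 1 ≤ G.rk R ∧ G.rk R ≤ t ∧
        (q : ℝ) ^ G.rk R ≤ Real.exp j * q * (R ∩ P).card) ∧ G.rk R = G.rk y.1 := fun R hR => by
      obtain ⟨y', hy', rfl⟩ := mem_image.1 (r1 hR)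
      obtain ⟨a1, a2⟩ := mem_selIn.1 hy'
      rw [hc, hc] at a2
      exact ⟨k1 y' a1, congrArg Prod.fst a2⟩
    have t3 : ∀ R ∈ Ss, (G.cl R = R ∧ 1 ≤ G.rk R ∧ G.rk R ≤ t ∧
        (q : ℝ) ^ G.rk R ≤ Real.exp j * q * (R ∩ Q).card) ∧ G.rk R = G.rk y.2 := fun R hR => by
      obtain ⟨y', hy', rfl⟩ := mem_image.1 (t1 hR)
      obtain ⟨a1, a2⟩ := mem_selIn.1 hy'
      rw [hc, hc] at a2
      exact ⟨k2 y' a1, congrArg Prod.snd a2⟩
    obtain ⟨m, Y, y1, y2, y3, -⟩ := key P Rs (card_pos.1 (by omega)) (by omega)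
      fun R hR => (r3 R hR).1
    obtain ⟨m', X, x1, x2, x3, -⟩ := key Q Ss (card_pos.1 (by omega)) (by omega)
      fun R hR => (t3 R hR).1
    have y4 := (G.rich_union (k1 y hy).2.1 E1 P (Rs := Rs) (by omega) fun R hR =>
      ⟨(r3 R hR).1.1, (r3 R hR).2, (r3 R hR).2 ▸ (r3 R hR).1.2.2.2⟩).1
    have x4 := (G.rich_union (k2 y hy).2.1 E1 Q (Rs := Ss) (by omega) fun R hR =>
      ⟨(t3 R hR).1.1, (t3 R hR).2, (t3 R hR).2 ▸ (t3 R hR).1.2.2.2⟩).1
    rw [r2] at y4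
    rw [t2] at x4
    refine ⟨(X, Y), mem_biUnion.2 ⟨(_, _), mk_mem_product m m',
      mk_mem_product (mem_insert_of_mem x1) (mem_insert_of_mem y1)⟩, fin _ _ ?_, _,
      inter_subset_right, _, inter_subset_right, W, Subset.rfl, by omega,
      fun z _ a b => ⟨x2 b, y2 a⟩⟩
    have q1 : (1 : ℝ) ≤ q := by exact_mod_cast le_trans (by norm_num) hq
    have a1 : (q : ℝ) ^ (t + 1) ≤ (q : ℝ) ^ G.rk y.2 * (q : ℝ) ^ G.rk y.1 := by
      rw [← pow_add]
      exact pow_le_pow_right₀ q1 (by have := (hK y hy).2.2.2.2.1; omega)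
    have a2 : (q : ℝ) ≤ 2 * ((t + 1) ^ 2 * n) := by exact_mod_cast n2
    have a3 : ∀ (V m : ℝ) (u : ℕ), 0 ≤ V → V * m ≤ 4 * (q : ℝ) ^ (t + 1) →
        n * (q : ℝ) ^ u ≤ 3 * Real.exp j ^ 2 * q * m →
        V * (n * (q : ℝ) ^ u) ≤ e * n * (q : ℝ) ^ (t + 1) := fun V m u h0 h1 h2 => by
      calc V * (n * (q : ℝ) ^ u) ≤ V * (3 * Real.exp j ^ 2 * q * m) :=
            mul_le_mul_of_nonneg_left h2 h0
        _ = 3 * Real.exp j ^ 2 * q * (V * m) := by ring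
        _ ≤ 3 * Real.exp j ^ 2 * (2 * ((t + 1) ^ 2 * n)) * (4 * (q : ℝ) ^ (t + 1)) := by
            refine (mul_le_mul_of_nonneg_left h1 (by positivity)).trans ?_
            gcongr
        _ = _ := by rw [he]; ring
    have n4 : (0 : ℝ) < n := Nat.cast_pos.2 n0
    have e0 : 0 ≤ e := by linarith only [e24]
    refine le_of_mul_le_mul_right ?_ (show 0 < (n : ℝ) ^ 2 * (q : ℝ) ^ (t + 1) by positivity)
    calc (X.card : ℝ) * Y.card * ((n : ℝ) ^ 2 * (q : ℝ) ^ (t + 1))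
        ≤ (X.card : ℝ) * Y.card * ((n : ℝ) ^ 2 * ((q : ℝ) ^ G.rk y.2 * (q : ℝ) ^ G.rk y.1)) := by
          gcongr
      _ = (X.card * (n * (q : ℝ) ^ G.rk y.2)) * (Y.card * (n * (q : ℝ) ^ G.rk y.1)) := by ring
      _ ≤ (e * n * (q : ℝ) ^ (t + 1)) * (e * n * (q : ℝ) ^ (t + 1)) :=
        mul_le_mul (a3 _ _ _ (Nat.cast_nonneg _) x3 x4) (a3 _ _ _ (Nat.cast_nonneg _) y3 y4)
          (by positivity) (by positivity)
      _ = _ := by ring
  obtain ⟨Rs, hRs⟩ : ∃ Rs, Rs = (selIn K fun y =>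
    ((selIn K fun y' => c y' = c y).image Prod.fst).card ≤ n).image Prod.fst := ⟨_, rfl⟩
  obtain ⟨Ss, hSs⟩ : ∃ Ss, Ss = (selIn K fun y =>
    ((selIn K fun y' => c y' = c y).image Prod.snd).card ≤ n).image Prod.snd := ⟨_, rfl⟩
  have r1 : Rs.card ≤ q := hRs ▸ (rich3_small K Prod.fst c c1 n).trans n1
  have t1 : Ss.card ≤ q := hSs ▸ (rich3_small K Prod.snd c c1 n).trans n1
  have w1 : W.card ≤ (selIn W fun z => z.1 ∈ Rs.biUnion id).card +
      (selIn W fun z => z.2 ∈ Ss.biUnion id).card := by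
    refine (card_le_card fun z hz => ?_).trans (card_union_le _ _)
    obtain ⟨y, hy, a1, a2⟩ := hWK z hz
    rcases not_and_or.1 (fun k => hb ⟨y, hy, k⟩) with k | k
    · exact mem_union_left _ (mem_selIn.2 ⟨hz, mem_biUnion.2 ⟨y.1, hRs.ge
        (mem_image_of_mem _ (mem_selIn.2 ⟨hy, (not_le.1 k).le⟩)), a1⟩⟩)
    · exact mem_union_right _ (mem_selIn.2 ⟨hz, mem_biUnion.2 ⟨y.2, hSs.ge
        (mem_image_of_mem _ (mem_selIn.2 ⟨hy, (not_le.1 k).le⟩)), a2⟩⟩)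
  have w0 := hW.card_pos
  by_cases w2 : W.card ≤ 2 * (selIn W fun z => z.1 ∈ Rs.biUnion id).card
  · obtain ⟨z, hz⟩ := card_pos.1 (show 0 < (selIn W fun z => z.1 ∈ Rs.biUnion id).card by omega)
    obtain ⟨R, hR, -⟩ := mem_biUnion.1 (mem_selIn.1 hz).2
    obtain ⟨m, Y, y1, y2, -, y4⟩ := key P Rs ⟨R, hR⟩ r1 fun R hR => by
      obtain ⟨y, hy, rfl⟩ := mem_image.1 (hRs.le hR)
      exact k1 y (mem_selIn.1 hy).1
    exact ⟨(Rs.biUnion id, Y), mem_biUnion.2 ⟨(_, _), mk_mem_product m m,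
      mk_mem_product (mem_insert_self _ _) (mem_insert_of_mem y1)⟩, fin _ _ y4, _,
      inter_subset_right, ∅, empty_subset _, _, selIn_subset _ _, w2,
      fun z hz a _ => ⟨(mem_selIn.1 hz).2, y2 a⟩⟩
  · obtain ⟨z, hz⟩ := card_pos.1 (show 0 < (selIn W fun z => z.2 ∈ Ss.biUnion id).card by omega)
    obtain ⟨R, hR, -⟩ := mem_biUnion.1 (mem_selIn.1 hz).2
    obtain ⟨m, Y, y1, y2, -, y4⟩ := key Q Ss ⟨R, hR⟩ t1 fun R hR => by
      obtain ⟨y, hy, rfl⟩ := mem_image.1 (hSs.le hR)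
      exact k2 y (mem_selIn.1 hy).1
    exact ⟨(Y, Ss.biUnion id), mem_biUnion.2 ⟨(_, _), mk_mem_product m m,
      mk_mem_product (mem_insert_of_mem y1) (mem_insert_self _ _)⟩,
      fin _ _ (by rwa [mul_comm] at y4), ∅, empty_subset _, _, inter_subset_right,
      selIn W fun z => z.2 ∈ Ss.biUnion id, selIn_subset _ _, by omega,
      fun z hz _ b => ⟨y2 b, (mem_selIn.1 hz).2⟩⟩

end Pool.Agent.Work.MP_e10cd8_co.Gap
end
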