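import Pool.Agent.Work.MP_e10cd8_co.All.AAsym
import Pool.Agent.Work.MP_e10cd8_co.Gap.Rich3

-- merged part: Pool.Agent.Work.MP_e10cd8_co.All.GeoB
section

end

-- merged part: Pool.Agent.Work.MP_e10cd8_co.Gap.T4D
section
/-! Definitions for the fourth moment sum. Paper: team store file h70_e10cd8_gap.md, part A1. -/

namespace Pool.Agent.Work.MP_e10cd8_co.Gap

open Finset Four All

noncomputable section

variable {q t : ℕ} {Pt : Type} [Fintype Pt] [DecidableEq Pt]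

/-- normalised mass of `A` -/
def ms (q : ℕ) (P A : Finset Pt) : ℝ := q * ((A ∩ P).card : ℝ) / P.card

def psi (G : GP q t Pt) (a b : Pt) : ℝ := q * ind (a ∈ G.pl b) - 1

def RR (G : GP q t Pt) (b1 b2 b3 b4 : Pt) : ℝ :=
  ∑ a, psi G a b1 * psi G a b2 * psi G a b3 * psi G a b4 + ((q : ℝ) - 1) ^ 3

def XX (G : GP q t Pt) (P : Finset Pt) (b h : Pt) : ℝ := ms q P (G.pl b ∩ G.pl h)

def MM (G : GP q t Pt) (P : Finset Pt) (b1 b2 b3 : Pt) : ℝ :=
  ms q P (G.pl b1 ∩ G.pl b2 ∩ G.pl b3)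

/-- weight of `h` on the line through two hyperplanes -/
def om (G : GP q t Pt) (b1 b2 h : Pt) : ℝ :=
  if b1 = b2 then q * ind (h = b1) else ind (h ∈ G.cl {b1, b2})

/-- the pencil through `b` and `h`, without `b` -/
def pen (G : GP q t Pt) (b h : Pt) : Finset Pt := (G.cl {b, h}).erase b

end

end Pool.Agent.Work.MP_e10cd8_co.Gap
end

-- merged part: Pool.Agent.Work.MP_e10cd8_co.All.ADefs
section

end

-- merged part: Pool.Agent.Work.MP_e10cd8_co.Gap.BDefs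
section
/-!
Definitions for the host with absolute constants.
Paper: team store file h70_e10cd8_gap.md, part B.
-/

namespace Pool.Agent.Work.MP_e10cd8_co.Gap

open Finset Four All

noncomputable section

/-- side conditions of the final count -/
structure NG (q t H D k : ℕ) : Prop where
  ht : 2 ≤ t
  hH : 10 ^ 7 ≤ H
  htL : (t : ℝ) ≤ Real.log q
  hbig : 10 ^ 7 * Real.log q ^ 6 ≤ q
  hD1 : (D : ℝ) ^ 2 ≤ Real.log q
  hD2 : 1000 * (H : ℝ) ^ 3 * Real.log (Real.log q) ≤ D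
  hk1 : (H : ℝ) ^ 6 * t * q * Real.log q ≤ k
  hk2 : (k : ℝ) ≤ 5 * (H : ℝ) ^ 6 * t * q * Real.log q

/-- sampling probability -/
def bp (q t H k : ℕ) : ℝ := (k : ℝ) / ((H : ℝ) ^ 10 * Real.exp t * (q : ℝ) ^ t)

def bt0 (q t H : ℕ) : ℝ := (H : ℝ) ^ 4 * t * q * Real.log q

def bm2 (q : ℕ) : ℝ := 120 * Real.log (Real.log q)

variable {q t : ℕ} {Pt : Type} [Fintype Pt] [DecidableEq Pt] (G : GP q t Pt)

/-- containers at sharp cost, the same text as `KLs` -/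
def KLb (x A Γ : ℝ) : Prop :=
  ∀ Om : ℝ, 1 ≤ Om → ∃ F : Finset (Finset Pt),
    (F.card : ℝ) ≤ Real.exp (A * t * q * Real.log q * (t + lam q Om)) ∧
      G.Cont x Om Γ (fun _ => True) F

/-- flags whose point lies in a span of no larger rank of a member of `A` -/
def popQ (T0 : Finset (Pt × Pt)) (A : Finset Pt) : Finset (Pt × Pt) :=
  sel fun z => ∃ a ∈ A, z.1 ∈ G.spn T0 a ∧ G.rk (G.spn T0 a) ≤ G.rk (G.spn T0 z.1) ∧
    G.spn T0 z.1 ⊆ G.pl z.2

/-- `T` is a valid sample of the part `Z'` of `Z` -/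
structure Valid (PP QQ : Finset (Pt × Pt) → Finset Pt) (x : ℝ) (H k : ℕ)
    (Z Z' T : Finset (Pt × Pt)) : Prop where
  sub : T ⊆ Z'
  card : (T.card : ℝ) ≤ bt0 q t H
  all : Z ⊆ G.pool (PP T) (QQ T)
  lp : ∀ P' ⊆ PP T, ((selIn Z' fun z => z.2 ∉ G.low x P').card : ℝ) ≤ 5 * k / H
  lq : ∀ Q' ⊆ QQ T, ((selIn Z' fun z => z.1 ∉ G.low x Q').card : ℝ) ≤ 5 * k / H

def Smp (PP QQ : Finset (Pt × Pt) → Finset Pt) (x : ℝ) (H k : ℕ) (Z : Finset (Pt × Pt)) : Prop :=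
  ∀ Z' ⊆ Z, ∃ T, Valid G PP QQ x H k Z Z' T

/-- `u` is a parent of `z` with the same large ranks -/
def hi (T : Finset (Pt × Pt)) (u z : Pt × Pt) : Prop :=
  G.par T u z ∧ G.rk (G.spn T z.1) = G.rk (G.spn T u.1) ∧
    G.rk (G.spn (sw T) z.2) = G.rk (G.spn (sw T) u.2) ∧
    t + 1 ≤ G.rk (G.spn T u.1) + G.rk (G.spn (sw T) u.2)

/-- the possible cheap children of `u` -/
def cpool (T : Finset (Pt × Pt)) (u : Pt × Pt) : Finset (Pt × Pt) :=
  sel fun z => G.par T u z ∧ G.spn T z.1 ⊆ G.pl z.2 ∧ G.spn (sw T) z.2 ⊆ G.pl z.1 ∧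
    (G.rk (G.spn T u.1) < G.rk (G.spn T z.1) ∨
      G.rk (G.spn (sw T) u.2) < G.rk (G.spn (sw T) z.2) ∨
      G.rk (G.spn T u.1) + G.rk (G.spn (sw T) u.2) ≤ t)

/-- the menu of final pools -/
def mn (x : ℝ) (H k : ℕ) (P Q : Finset Pt) (A B : Finset (Pt × Pt)) : ℕ → Finset (Pt × Pt)
  | 0 => G.BB x P Q
  | 1 => B.biUnion (G.ppool A P Q)
  | 2 => B.biUnion (cpool G A)
  | s + 3 => G.st2 P Q (bm2 q) (ax q H k s) A

/-- the cover of level `j` over the family `F` of container pairs -/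
def Cov (PP QQ : Finset (Pt × Pt) → Finset Pt) (x : ℝ) (H k j : ℕ)
    (F : Finset (Finset Pt × Finset Pt)) (β : ℝ) : Finset (Finset (Pt × Pt) × Finset (Pt × Pt)) :=
  sel fun y => ∃ XY ∈ F, ∃ T1 W : Finset (Pt × Pt), T1 ⊆ G.pool XY.1 XY.2 ∧
    ((G.pool XY.1 XY.2).card : ℝ) ≤ (H : ℝ) ^ 4 * Real.exp t * Real.exp (4 * j) * (q : ℝ) ^ t ∧
    (T1.card : ℝ) ≤ bt0 q t H ∧ W ⊆ G.pool (PP T1) (QQ T1) ∧
    ((G.pool (PP T1) (QQ T1)).card : ℝ) ≤ 35 * Real.exp (2 * j) * (q : ℝ) ^ t ∧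
    (W.card : ℝ) ≤ 2 * bt0 q t H ∧ Disjoint T1 W ∧ y.1 = T1 ∪ W ∧
    (∃ Ts ⊆ y.1, ∃ A ⊆ y.1, ∃ B ⊆ y.1, ∃ i ≤ k + 3, y.2 = mn G x H k (PP Ts) (QQ Ts) A B i) ∧
    (y.2.card : ℝ) ≤ β * (q : ℝ) ^ t

/-- outcome of the fine reduction -/
structure Fine (H D k : ℕ) (Z T2 Zs : Finset (Pt × Pt)) (s : ℕ) : Prop where
  ind : G.indep Z
  hk : Z.card ≤ k
  big : 1000 * (k : ℝ) / H ≤ Z.card
  t2 : T2 ⊆ Z
  t2c : 2 * (T2.card : ℝ) ≤ bt0 q t H
  s16 : 16 * t * D ≤ s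
  zs : Zs ⊆ Z
  zsc : 1000 * (k : ℝ) / H ≤ Zs.card
  sp : G.sparse (s + 1) Zs

/-- a large part of `Z` has many parents of the kind `rel` -/
structure Kids {α : Type} (rel : α → α → Prop) (c : ℝ) (H k : ℕ) (Z Zl : Finset α) (s : ℕ) :
    Prop where
  sub : Zl ⊆ Z
  big : c * (k : ℝ) / H ≤ Zl.card
  many : ∀ z ∈ Zl, s ≤ 16 * (selIn Z fun u => rel u z).card

end

end Pool.Agent.Work.MP_e10cd8_co.Gap
end

-- merged part: Pool.Agent.Work.MP_e10cd8_co.Four.Prob3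
section

end

-- merged part: Pool.Agent.Work.MP_e10cd8_co.Gap.BNum
section
/-! Numerical consequences of the side conditions. Compare `All/ANum`. -/

namespace Pool.Agent.Work.MP_e10cd8_co.Gap

open Finset Four All

theorem bp_nonneg (q t H k : ℕ) : 0 ≤ bp q t H k := by
  unfold bp
  positivity

namespace NG
variable {q t H D k : ℕ}

theorem H_ge' (h : NG q t H D k) : (10 : ℝ) ^ 7 ≤ H := by
  exact_mod_cast h.hH

theorem t2 (h : NG q t H D k) : (2 : ℝ) ≤ t := by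
  exact_mod_cast h.ht

theorem q_ge (h : NG q t H D k) : (1000 : ℝ) ≤ q := by
  have h1 : (1 : ℝ) ≤ Real.log q ^ 6 := one_le_pow₀ (by linarith [h.t2, h.htL])
  linarith [h.hbig]

theorem hq (h : NG q t H D k) : 1000 ≤ q := by
  exact_mod_cast h.q_ge

theorem H1 (h : NG q t H D k) : (1 : ℝ) ≤ H := le_trans (by norm_num) h.H_ge'

theorem H0 (h : NG q t H D k) : (0 : ℝ) < H := lt_of_lt_of_le one_pos h.H1

theorem q0 (h : NG q t H D k) : (0 : ℝ) < q := lt_of_lt_of_le (by norm_num) h.q_ge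

theorem L3 (h : NG q t H D k) : 3 ≤ Real.log q := by
  have h1 := h.q_ge
  rw [Real.le_log_iff_exp_le h.q0]
  have e : Real.exp 3 = Real.exp 1 ^ 3 := by rw [← Real.exp_nat_mul]; norm_num
  have e1 : Real.exp 1 ≤ 3 := Real.exp_one_lt_d9.le.trans (by norm_num)
  have e2 : Real.exp 1 ^ 3 ≤ 3 ^ 3 := pow_le_pow_left₀ (Real.exp_pos 1).le e1 3
  rw [e]
  linarith

theorem L0 (h : NG q t H D k) : 0 < Real.log q := lt_of_lt_of_le (by norm_num) h.L3

theorem ell_ge (h : NG q t H D k) : 1 ≤ Real.log (Real.log q) := by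
  have h1 := h.L3
  rw [Real.le_log_iff_exp_le (by linarith)]
  have := Real.exp_one_lt_d9
  linarith

theorem D_ge (h : NG q t H D k) : 1000 * (H : ℝ) ^ 3 ≤ D := by
  have h3 : (0 : ℝ) ≤ 1000 * (H : ℝ) ^ 3 := by positivity
  exact (le_mul_of_one_le_right h3 h.ell_ge).trans h.hD2

theorem D1 (h : NG q t H D k) : (1000 : ℝ) ≤ D := by
  have h2 : (1 : ℝ) ≤ (H : ℝ) ^ 3 := one_le_pow₀ h.H1
  linarith [h.D_ge]

theorem L_ge (h : NG q t H D k) : 10 ^ 6 * (H : ℝ) ^ 6 ≤ Real.log q := by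
  have h1 := pow_le_pow_left₀ (by positivity) h.D_ge 2
  calc 10 ^ 6 * (H : ℝ) ^ 6 = (1000 * (H : ℝ) ^ 3) ^ 2 := by ring
    _ ≤ _ := h1.trans h.hD1

theorem Hq (h : NG q t H D k) : 10 ^ 6 * (H : ℝ) ^ 6 ≤ q := by
  have := Real.log_le_sub_one_of_pos h.q0
  linarith [h.L_ge]

theorem L_pow (h : NG q t H D k) {i : ℕ} (hi : i ≤ 6) : 1000 * Real.log q ^ i ≤ q := by
  have h1 : Real.log q ^ i ≤ Real.log q ^ 6 := pow_le_pow_right₀ (by linarith [h.L3]) hi
  have h2 := pow_pos h.L0 6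
  linarith [h.hbig]

/-- the side condition of the containers -/
theorem t6 (h : NG q t H D k) : 10 ^ 7 * t ^ 6 ≤ q := by
  have h1 := pow_le_pow_left₀ (Nat.cast_nonneg (α := ℝ) t) h.htL 6
  have h2 : 10 ^ 7 * (t : ℝ) ^ 6 ≤ q := by linarith [h.hbig]
  exact_mod_cast h2

theorem t_sq (h : NG q t H D k) : 16 * (t + 1) ^ 2 ≤ q := by
  have h1 := h.L_pow (i := 2) (by norm_num)
  have h2 := pow_le_pow_left₀ (Nat.cast_nonneg (α := ℝ) t) h.htL 2
  have h3 := h.t2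
  have h4 : 16 * ((t : ℝ) + 1) ^ 2 ≤ q := by nlinarith
  exact_mod_cast h4

theorem w1 (h : NG q t H D k) : 1000 ≤ (t : ℝ) * q * Real.log q := by
  have h1 := h.t2
  have h2 := h.q_ge
  have h3 := h.L3
  calc (1000 : ℝ) = 1 * 1000 * 1 := by norm_num
    _ ≤ _ := by gcongr <;> linarith

theorem qL (h : NG q t H D k) : (t : ℝ) * q * Real.log q ≤ k := by
  have h1 : (1 : ℝ) ≤ (H : ℝ) ^ 6 := one_le_pow₀ h.H1
  refine le_trans ?_ h.hk1
  rw [mul_assoc ((H : ℝ) ^ 6), mul_assoc ((H : ℝ) ^ 6)]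
  exact le_mul_of_one_le_left (by linarith [h.w1]) h1

theorem k_pos (h : NG q t H D k) : (0 : ℝ) < k := by linarith [h.qL, h.w1]

theorem k_le (h : NG q t H D k) : (k : ℝ) ≤ q * Real.log q ^ 3 := by
  have h1 := h.L_ge
  have h2 := h.q0
  have h3 := h.L0
  have h4 : (0 : ℝ) ≤ (H : ℝ) ^ 6 := by positivity
  have h5 : 5 * (H : ℝ) ^ 6 ≤ Real.log q := by linarith
  have h6 := h.htL
  calc (k : ℝ) ≤ 5 * (H : ℝ) ^ 6 * t * q * Real.log q := h.hk2
    _ ≤ Real.log q * Real.log q * q * Real.log q := by gcongr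
    _ = q * Real.log q ^ 3 := by ring

theorem at0_le (h : NG q t H D k) : bt0 q t H ≤ k / H ^ 2 := by
  have h1 := h.H0
  rw [le_div_iff₀ (by positivity)]
  calc bt0 q t H * (H : ℝ) ^ 2 = (H : ℝ) ^ 6 * t * q * Real.log q := by unfold bt0; ring
    _ ≤ (k : ℝ) := h.hk1

theorem le_at0 (h : NG q t H D k) : (k : ℝ) ≤ 5 * H ^ 2 * bt0 q t H := by
  calc (k : ℝ) ≤ 5 * (H : ℝ) ^ 6 * t * q * Real.log q := h.hk2
    _ = 5 * H ^ 2 * bt0 q t H := by unfold bt0; ring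

theorem t0_ge (h : NG q t H D k) : 1000 * (H : ℝ) ^ 4 ≤ bt0 q t H := by
  have h1 := mul_le_mul_of_nonneg_left h.w1 (pow_pos h.H0 4).le
  unfold bt0
  linarith

theorem t0_pos (h : NG q t H D k) : 0 < bt0 q t H :=
  lt_of_lt_of_le (by have := h.H0; positivity) h.t0_ge

theorem q_le_k (h : NG q t H D k) : q ≤ k := by
  have h2 := h.L3
  have h3 := h.q0
  have h5 := h.t2
  have h4 : (q : ℝ) ≤ t * q * Real.log q := by
    calc (q : ℝ) = 1 * q * 1 := by ring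
      _ ≤ _ := by gcongr <;> linarith
  exact_mod_cast h4.trans h.qL

theorem one_le_div (h : NG q t H D k) : 1000 ≤ (k : ℝ) / H ^ 2 := by
  have h1 : (1 : ℝ) ≤ (H : ℝ) ^ 4 := one_le_pow₀ h.H1
  linarith [h.at0_le, h.t0_ge]

theorem kH (h : NG q t H D k) : (k : ℝ) / H = H * (k / H ^ 2) := by
  have h1 := h.H0.ne'
  field_simp

theorem one (h : NG q t H D k) : 1 ≤ (k : ℝ) / H := by
  rw [h.kH]
  exact one_le_mul_of_one_le_of_one_le h.H1 (by linarith [h.one_le_div])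

theorem div (h : NG q t H D k) {c : ℝ} (hc : c ≤ (H : ℝ) ^ 5) :
    c * (t * q * Real.log q) ≤ k / H := by
  have H0 := h.H0
  have w := h.w1
  rw [le_div_iff₀ H0]
  refine le_trans ?_ h.hk1
  calc c * (t * q * Real.log q) * H ≤ (H : ℝ) ^ 5 * (t * q * Real.log q) * H := by gcongr
    _ = _ := by ring

theorem bp_le_one (h : NG q t H D k) : bp q t H k ≤ 1 := by
  have h1 : (1 : ℝ) ≤ (H : ℝ) ^ 10 * Real.exp t :=
    one_le_mul_of_one_le_of_one_le (one_le_pow₀ h.H1) (Real.one_le_exp (Nat.cast_nonneg _))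
  have q1 : (1 : ℝ) ≤ q := le_trans (by norm_num) h.q_ge
  have h2 : Real.log q ^ 3 ≤ q := by linarith [h.L_pow (i := 3) (by norm_num), pow_pos h.L0 3]
  have h3 : (q : ℝ) ^ 2 ≤ (q : ℝ) ^ t := pow_le_pow_right₀ q1 h.ht
  refine div_le_one_of_le₀ ?_ (by positivity)
  calc (k : ℝ) ≤ q * Real.log q ^ 3 := h.k_le
    _ ≤ q * q := by gcongr
    _ = 1 * (q : ℝ) ^ 2 := by ring
    _ ≤ (H : ℝ) ^ 10 * Real.exp t * (q : ℝ) ^ t := by gcongr

theorem aw_ge (h : NG q t H D k) : (k : ℝ) / H ≤ aw H k := by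
  have h0 : 0 < H := by exact_mod_cast h.H0
  have h1 : k ≤ aw H k * H := by
    have := Nat.lt_div_mul_add (a := k) h0
    unfold aw
    rw [add_mul, one_mul]
    exact this.le
  rw [div_le_iff₀ h.H0]
  exact_mod_cast h1

theorem aw_le (h : NG q t H D k) : (aw H k : ℝ) ≤ 2 * k / H := by
  have h0 := Nat.cast_div_le (α := ℝ) (m := k) (n := H)
  have h1 := h.one
  unfold aw
  rw [Nat.cast_add, Nat.cast_one, mul_div_assoc]
  linarith

theorem aw_add_le (h : NG q t H D k) : (aw H k : ℝ) + 3 * bt0 q t H ≤ 3 * k / H := by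
  have h0 := h.aw_le
  have h1 := h.kH
  have h2 := h.one_le_div
  have h3 := h.H_ge'
  have h4 : 3 * ((k : ℝ) / H ^ 2) ≤ k / H := by nlinarith
  have h5 := h.at0_le
  rw [mul_div_assoc] at h0 ⊢
  linarith

theorem ad_nat (h : NG q t H D k) : k ≤ ad q H k * (H ^ 3 * q) := by
  have h0 : 0 < H ^ 3 * q :=
    Nat.mul_pos (pow_pos (by exact_mod_cast h.H0) 3) (by exact_mod_cast h.q0)
  have := Nat.lt_div_mul_add (a := k) h0
  unfold ad
  rw [add_mul, one_mul]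
  exact this.le

theorem ad_ge (h : NG q t H D k) : (k : ℝ) / (H ^ 3 * q) ≤ ad q H k := by
  have h2 := h.H0
  have h3 := h.q0
  rw [div_le_iff₀ (by positivity)]
  exact_mod_cast h.ad_nat

theorem quot (h : NG q t H D k) : (H : ℝ) ^ 3 * (t * Real.log q) ≤ (k : ℝ) / (H ^ 3 * q) := by
  have h2 := h.H0
  have h3 := h.q0
  rw [le_div_iff₀ (by positivity)]
  calc (H : ℝ) ^ 3 * (t * Real.log q) * (H ^ 3 * q) = (H : ℝ) ^ 6 * t * q * Real.log q := by ring
    _ ≤ (k : ℝ) := h.hk1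

theorem ad_le (h : NG q t H D k) : (ad q H k : ℝ) ≤ 2 * k / (H ^ 3 * q) := by
  have h0 := Nat.cast_div_le (α := ℝ) (m := k) (n := H ^ 3 * q)
  have h1 := h.quot
  have h2 : (1 : ℝ) ≤ (H : ℝ) ^ 3 := one_le_pow₀ h.H1
  have L1 : (1 : ℝ) ≤ t * Real.log q :=
    one_le_mul_of_one_le_of_one_le (by linarith [h.t2]) (by linarith [h.L3])
  have h3 := one_le_mul_of_one_le_of_one_le h2 L1
  unfold ad
  rw [Nat.cast_mul, Nat.cast_pow] at h0
  rw [Nat.cast_add, Nat.cast_one, mul_div_assoc]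
  linarith

theorem am0_le (h : NG q t H D k) : am0 q t ≤ ad q H k := by
  have h1 := h.H_ge'
  have h2 : (H : ℝ) ≤ (H : ℝ) ^ 3 := le_self_pow₀ h.H1 (by norm_num)
  have h3 := h.t2
  have L0 := h.L0
  refine le_trans ?_ (h.quot.trans h.ad_ge)
  calc am0 q t = 3 * (t + 1) * Real.log q := rfl
    _ ≤ (H : ℝ) ^ 3 * t * Real.log q := mul_le_mul_of_nonneg_right (by nlinarith) L0.le
    _ = _ := by ring

theorem bm2_bounds (h : NG q t H D k) : 15 ≤ bm2 q ∧ bm2 q ≤ D := by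
  have h1 := h.ell_ge
  have h2 : (1 : ℝ) ≤ (H : ℝ) ^ 3 := one_le_pow₀ h.H1
  have h3 : (120 : ℝ) ≤ 1000 * (H : ℝ) ^ 3 := by linarith
  unfold bm2
  exact ⟨by linarith, (mul_le_mul_of_nonneg_right h3 (by linarith)).trans h.hD2⟩

/-- room for the fine samples -/
theorem fine_le (h : NG q t H D k) : 100 * (k : ℝ) ≤ D * bt0 q t H := by
  have h1 := h.H1
  have h5 := h.t0_pos
  calc 100 * (k : ℝ) ≤ 100 * (5 * H ^ 2 * bt0 q t H) :=
        mul_le_mul_of_nonneg_left h.le_at0 (by positivity)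
    _ = 500 * (H ^ 2 * bt0 q t H) := by ring
    _ ≤ 1000 * H * (H ^ 2 * bt0 q t H) := mul_le_mul_of_nonneg_right (by linarith) (by positivity)
    _ = 1000 * (H : ℝ) ^ 3 * bt0 q t H := by ring
    _ ≤ D * bt0 q t H := mul_le_mul_of_nonneg_right h.D_ge h5.le

theorem s_ge (h : NG q t H D k) {s : ℕ} (hs : 16 * t * D ≤ s) :
    32 * (D : ℝ) ≤ s ∧ (1000 : ℝ) ≤ s := by
  have h1 : 16 * (t : ℝ) * D ≤ s := by exact_mod_cast hs
  have h2 := h.D1
  have h3 := mul_le_mul_of_nonneg_right h.t2 (Nat.cast_nonneg (α := ℝ) D)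
  constructor <;> linarith

theorem pow_le_exp_aJ (h : NG q t H D k) : (q : ℝ) ^ t ≤ Real.exp (aJ q t) := by
  rw [← Real.exp_log (pow_pos h.q0 t), Real.log_pow, Real.exp_le_exp]
  have := Nat.lt_floor_add_one (t * Real.log q)
  unfold aJ
  rw [Nat.cast_add, Nat.cast_one]
  exact this.le

theorem aJ_le (h : NG q t H D k) : aJ q t + 1 ≤ q := by
  have L3 := h.L3
  have h6 := Nat.floor_le (show 0 ≤ t * Real.log q by positivity)
  have h7 := h.L_pow (i := 2) (by norm_num)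
  have h8 := mul_le_mul_of_nonneg_right h.htL h.L0.le
  have h9 : ((aJ q t + 1 : ℕ) : ℝ) ≤ q := by
    unfold aJ
    rw [Nat.cast_add, Nat.cast_add, Nat.cast_one]
    nlinarith
  exact_mod_cast h9

theorem ax_sq_ge (h : NG q t H D k) (s j : ℕ) (hj : (j : ℝ) ≤ 6 * Real.log (Real.log q)) :
    Real.exp (-bm2 q / 6) * (29 * Real.exp j ^ 2) ≤ ax q H k s ^ 2 := by
  have L3 := h.L3
  have L0 := h.L0
  have k0 := h.k_pos
  have q0 := h.q0
  have eL : Real.exp (Real.log (Real.log q)) = Real.log q := Real.exp_log L0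
  have L29 : 29 ≤ Real.log q ^ 2 := by
    have h1 := h.L_ge
    have h2 : (1 : ℝ) ≤ (H : ℝ) ^ 6 := one_le_pow₀ h.H1
    nlinarith
  have e1 : Real.exp (-bm2 q / 6) = 1 / Real.log q ^ 20 := by
    rw [← eL, ← Real.exp_nat_mul, one_div, ← Real.exp_neg]
    unfold bm2
    congr 1
    push_cast
    ring
  have e2 : Real.exp j ≤ Real.log q ^ 6 := by
    rw [← eL, ← Real.exp_nat_mul, Real.exp_le_exp]
    exact_mod_cast hj
  have e3 : 1 / Real.log q ^ 3 ≤ ax q H k s := by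
    have s1 : (1 : ℝ) ≤ (s : ℝ) + 1 := le_add_of_nonneg_left (Nat.cast_nonneg s)
    have s2 : (1 : ℝ) ≤ (H : ℝ) * (s + 1) := one_le_mul_of_one_le_of_one_le h.H1 s1
    unfold ax
    rw [div_le_div_iff₀ (by positivity) k0, one_mul]
    calc (k : ℝ) ≤ q * Real.log q ^ 3 := h.k_le
      _ = 1 * q * Real.log q ^ 3 := by ring
      _ ≤ _ := by gcongr
  calc Real.exp (-bm2 q / 6) * (29 * Real.exp j ^ 2)
      ≤ 1 / Real.log q ^ 20 * (Real.log q ^ 2 * (Real.log q ^ 6) ^ 2) := by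
        rw [e1]
        gcongr
    _ = (1 / Real.log q ^ 3) ^ 2 := by field_simp
    _ ≤ ax q H k s ^ 2 := pow_le_pow_left₀ (by positivity) e3 2

theorem E_sq (h : NG q t H D k) :
    Real.exp (-(Real.log (Real.log q) / 2)) ^ 2 * Real.log q = 1 := by
  have L0 := h.L0
  have e : Real.exp (-(Real.log (Real.log q) / 2)) ^ 2 = (Real.log q)⁻¹ := by
    rw [← Real.exp_nat_mul]
    have : ((2 : ℕ) : ℝ) * -(Real.log (Real.log q) / 2) = -Real.log (Real.log q) := by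
      push_cast
      ring
    rw [this, Real.exp_neg, Real.exp_log L0]
  rw [e, inv_mul_cancel₀ L0.ne']

theorem ax_small (h : NG q t H D k) :
    2 * ax q H k (16 * t * D) ≤ Real.exp (-(Real.log (Real.log q) / 2)) ∧
      ax q H k (16 * t * D) ≤ 1 / 4 := by
  have L3 := h.L3
  have L0 := h.L0
  have k0 := h.k_pos
  have q0 := h.q0
  have D1 := h.D1
  have H0 := h.H0
  have hE := h.E_sq
  have t2 := h.t2
  have E0 := Real.exp_pos (-(Real.log (Real.log q) / 2))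
  generalize Real.exp (-(Real.log (Real.log q) / 2)) = E at hE E0 ⊢
  have h1 : 34 ≤ (H : ℝ) ^ 5 := le_trans (le_trans (by norm_num) h.H_ge')
    (le_self_pow₀ h.H1 (by norm_num))
  have h2 : 2 * ax q H k (16 * t * D) * Real.log q ≤ D := by
    have a1 : ((16 * t * D : ℕ) : ℝ) + 1 ≤ 17 * (t * D) := by push_cast; nlinarith
    unfold ax
    rw [← mul_div_assoc, div_mul_eq_mul_div, div_le_iff₀ k0]
    calc 2 * ((H : ℝ) * (((16 * t * D : ℕ) : ℝ) + 1) * q) * Real.log q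
        ≤ 2 * ((H : ℝ) * (17 * (t * D)) * q) * Real.log q := by gcongr
      _ = D * (34 * (H * t * q * Real.log q)) := by ring
      _ ≤ D * ((H : ℝ) ^ 5 * (H * t * q * Real.log q)) := by gcongr
      _ = D * ((H : ℝ) ^ 6 * t * q * Real.log q) := by ring
      _ ≤ D * k := mul_le_mul_of_nonneg_left h.hk1 (by linarith)
  have h3 : D * E ≤ 1 := by
    refine le_of_pow_le_pow_left₀ (n := 2) (by norm_num) zero_le_one ?_
    calc (D * E) ^ 2 = E ^ 2 * (D : ℝ) ^ 2 := by ring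
      _ ≤ E ^ 2 * Real.log q := mul_le_mul_of_nonneg_left h.hD1 (by positivity)
      _ = 1 ^ 2 := by rw [hE, one_pow]
  have h4 : 2 * ax q H k (16 * t * D) ≤ E := by
    calc 2 * ax q H k (16 * t * D) = 2 * ax q H k (16 * t * D) * (E ^ 2 * Real.log q) := by
          rw [hE, mul_one]
      _ = 2 * ax q H k (16 * t * D) * Real.log q * E * E := by ring
      _ ≤ D * E * E := by gcongr
      _ ≤ 1 * E := mul_le_mul_of_nonneg_right h3 E0.le
      _ = E := one_mul E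
  have h5 : 2 * E ≤ 1 :=
    (mul_le_mul_of_nonneg_right (show (2 : ℝ) ≤ D by linarith) E0.le).trans h3
  exact ⟨h4, by linarith⟩

theorem tiny_le (h : NG q t H D k) :
    (k : ℝ) ≤ Real.exp (-(Real.log (Real.log q) / 2)) * (q : ℝ) ^ 2 := by
  have L0 := h.L0
  have q0 := h.q0
  have hE := h.E_sq
  have E0 := Real.exp_pos (-(Real.log (Real.log q) / 2))
  have E1 : Real.exp (-(Real.log (Real.log q) / 2)) ≤ 1 := by
    have := h.ell_ge
    exact Real.exp_le_one_iff.2 (by linarith)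
  generalize Real.exp (-(Real.log (Real.log q) / 2)) = E at hE E0 E1 ⊢
  have h4 : Real.log q ^ 4 ≤ q := by linarith [h.L_pow (i := 4) (by norm_num), pow_pos L0 4]
  have h5 : E ^ 2 ≤ E := pow_le_of_le_one E0.le E1 (by norm_num)
  calc (k : ℝ) ≤ q * Real.log q ^ 3 := h.k_le
    _ = q * Real.log q ^ 3 * (E ^ 2 * Real.log q) := by rw [hE, mul_one]
    _ = E ^ 2 * (q * Real.log q ^ 4) := by ring
    _ ≤ E * (q * q) := by gcongr
    _ = E * (q : ℝ) ^ 2 := by ring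

theorem pool_factor (h : NG q t H D k) {B : ℕ} {y : ℝ} (hy : 0 ≤ y)
    (hB : (B : ℝ) ≤ (H : ℝ) ^ 4 * Real.exp (-y) * (q : ℝ) ^ t) :
    (B.choose (aw H k) : ℝ) * bp q t H k ^ aw H k ≤ Real.exp (-((10 + y + t) * k / H)) := by
  have q0 := h.q0
  have H0 := h.H0
  have t2 := h.t2
  have w1 : 1 ≤ aw H k := by unfold aw; exact Nat.le_add_left 1 _
  have w0 : (0 : ℝ) < aw H k := by exact_mod_cast w1
  have p0 := bp_nonneg q t H k
  have e1 : Real.exp 1 ≤ 3 := Real.exp_one_lt_d9.le.trans (by norm_num)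
  have e2 : Real.exp 10 ≤ 3 ^ 10 := by
    have e : Real.exp 10 = Real.exp 1 ^ 10 := by rw [← Real.exp_nat_mul]; norm_num
    rw [e]
    exact pow_le_pow_left₀ (Real.exp_pos 1).le e1 10
  have H6 : (10 : ℝ) ^ 7 ≤ (H : ℝ) ^ 5 := h.H_ge'.trans (le_self_pow₀ h.H1 (by norm_num))
  have e3 : 3 / (H : ℝ) ^ 5 ≤ Real.exp (-10) := by
    rw [Real.exp_neg, ← one_div, div_le_div_iff₀ (by positivity) (Real.exp_pos _)]
    linarith
  have e4 : 3 / (H : ℝ) ^ 5 * Real.exp (-y) * Real.exp (-t) ≤ Real.exp (-(10 + y + t)) := by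
    rw [neg_add, neg_add, Real.exp_add, Real.exp_add]
    gcongr
  have key : Real.exp 1 * B * bp q t H k / aw H k ≤ Real.exp (-(10 + y + t)) := by
    rw [div_le_iff₀ w0]
    calc Real.exp 1 * B * bp q t H k
        ≤ 3 * ((H : ℝ) ^ 4 * Real.exp (-y) * (q : ℝ) ^ t) * bp q t H k := by gcongr
      _ = 3 / (H : ℝ) ^ 5 * Real.exp (-y) * Real.exp (-t) * (k / H) := by
          unfold bp
          rw [Real.exp_neg (t : ℝ)]
          field_simp
      _ ≤ _ := mul_le_mul e4 h.aw_ge (by positivity) (Real.exp_pos _).le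
  refine (choose_mul_pow_le B _ w1 p0).trans ((pow_le_pow_left₀ (by positivity) key _).trans ?_)
  rw [← Real.exp_nat_mul, Real.exp_le_exp, mul_div_assoc, mul_neg, neg_le_neg_iff, mul_comm]
  exact mul_le_mul_of_nonneg_right h.aw_ge (by linarith)

end NG

end Pool.Agent.Work.MP_e10cd8_co.Gap
end

-- merged part: Pool.Agent.Work.MP_e10cd8_co.Gap.BRnd
section
/-! Two rounds (paper 4). -/

namespace Pool.Agent.Work.MP_e10cd8_co.Gap

open Finset Four All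

variable {q t : ℕ} {Pt : Type} [Fintype Pt] [DecidableEq Pt] (G : GP q t Pt)

/-- `T0` valid for `Z`, pair from `H2`, `T1` valid for `Z ∩ pool`; `Ts` is the one of larger level.
`W = (T0 ∪ A ∪ B) \ T1 ⊆ Z ⊆ pool (PP T1) (QQ T1)`, whose size is bounded by `ext_of_BB`;
`aw_add_le`. -/
theorem two_rounds {H D k : ℕ} (h : NG q t H D k) {PP QQ : Finset (Pt × Pt) → Finset Pt} {x : ℝ}
    (hx : x ≤ 1 / 8) {Z : Finset (Pt × Pt)} (hS : Smp G PP QQ x H k Z)
    (hZ : 100 * (k : ℝ) / H ≤ Z.card) (lev : Finset (Pt × Pt) → ℕ)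
    (F : ℕ → Finset (Finset Pt × Finset Pt)) (hF : Monotone F)
    (H1 : ∀ Z' ⊆ Z, 100 * (k : ℝ) / H ≤ Z'.card → ∀ T, Valid G PP QQ x H k Z Z' T →
      (q : ℝ) ^ t / Real.exp (lev T) ≤ (G.BB x (PP T) (QQ T)).card)
    (H2 : ∀ T, Valid G PP QQ x H k Z Z T → ∃ XY ∈ F (lev T),
      ((G.pool XY.1 XY.2).card : ℝ) ≤ (H : ℝ) ^ 4 * Real.exp t * Real.exp (4 * lev T) * (q : ℝ) ^ t ∧
      100 * (k : ℝ) / H ≤ (Z ∩ G.pool XY.1 XY.2).card) :
    ∃ Ts Z', Z' ⊆ Z ∧ 100 * (k : ℝ) / H ≤ Z'.card ∧ Valid G PP QQ x H k Z Z' Ts ∧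
      ∀ (A B : Finset (Pt × Pt)) (i : ℕ) (β : ℝ), A ⊆ Z → B ⊆ Z →
        (A.card : ℝ) + B.card ≤ bt0 q t H → i ≤ k + 3 →
        ((mn G x H k (PP Ts) (QQ Ts) A B i).card : ℝ) ≤ β * (q : ℝ) ^ t →
        3 * (k : ℝ) / H ≤ (Z ∩ mn G x H k (PP Ts) (QQ Ts) A B i).card →
        hits (Cov G PP QQ x H k (lev Ts) (F (lev Ts)) β) (aw H k) Z := by
  obtain ⟨T0, hT0⟩ := hS Z Subset.rfl
  obtain ⟨XY, hXY, hpool, hbig⟩ := H2 T0 hT0
  obtain ⟨T1, hT1⟩ := hS (Z ∩ G.pool XY.1 XY.2) inter_subset_left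
  have hB1 := H1 _ inter_subset_left hbig T1 hT1
  have hE : (1 : ℝ) ≤ Real.exp (lev T1) := Real.one_le_exp (Nat.cast_nonneg _)
  have hp1 := (G.ext_of_BB (by linarith) hE (PP T1) (QQ T1) hB1).2.2.2.2
  have hT0Z : T0 ⊆ Z := hT0.sub
  have hT1Z : T1 ⊆ Z := hT1.sub.trans inter_subset_left
  have key : ∀ Ts, (Ts = T0 ∨ Ts = T1) → lev T0 ≤ lev Ts → lev T1 ≤ lev Ts →
      ∀ (A B : Finset (Pt × Pt)) (i : ℕ) (β : ℝ), A ⊆ Z → B ⊆ Z →
        (A.card : ℝ) + B.card ≤ bt0 q t H → i ≤ k + 3 →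
        ((mn G x H k (PP Ts) (QQ Ts) A B i).card : ℝ) ≤ β * (q : ℝ) ^ t →
        3 * (k : ℝ) / H ≤ (Z ∩ mn G x H k (PP Ts) (QQ Ts) A B i).card →
        hits (Cov G PP QQ x H k (lev Ts) (F (lev Ts)) β) (aw H k) Z := by
    intro Ts hTs h0 h1 A B i β hA hB hAB hi hβ h3
    have h0' : (lev T0 : ℝ) ≤ lev Ts := by exact_mod_cast h0
    have h1' : (lev T1 : ℝ) ≤ lev Ts := by exact_mod_cast h1
    have hWZ : (T0 ∪ A ∪ B) \ T1 ⊆ Z :=
      sdiff_subset.trans (union_subset (union_subset hT0Z hA) hB)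
    have hWn : ((T0 ∪ A ∪ B) \ T1).card ≤ T0.card + A.card + B.card :=
      (card_le_card sdiff_subset).trans ((card_union_le _ _).trans
        (Nat.add_le_add_right (card_union_le _ _) _))
    have hW : (((T0 ∪ A ∪ B) \ T1).card : ℝ) ≤ 2 * bt0 q t H := by
      have h4 : (((T0 ∪ A ∪ B) \ T1).card : ℝ) ≤ T0.card + A.card + B.card := by
        exact_mod_cast hWn
      have := hT0.card
      linarith
    have hsub : T0 ∪ A ∪ B ⊆ T1 ∪ (T0 ∪ A ∪ B) \ T1 := by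
      rw [union_sdiff_self_eq_union]
      exact subset_union_right
    have hTs' : Ts ⊆ T1 ∪ (T0 ∪ A ∪ B) \ T1 := by
      rcases hTs with rfl | rfl
      · exact (subset_union_left.trans subset_union_left).trans hsub
      · exact subset_union_left
    refine ⟨(T1 ∪ (T0 ∪ A ∪ B) \ T1, mn G x H k (PP Ts) (QQ Ts) A B i), ?_,
      union_subset hT1Z hWZ, ?_⟩
    · refine mem_sel.2 ⟨XY, hF h0 hXY, T1, (T0 ∪ A ∪ B) \ T1,
        hT1.sub.trans inter_subset_right, hpool.trans ?_, hT1.card, hWZ.trans hT1.all,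
        hp1.trans ?_, hW, disjoint_sdiff, rfl,
        ⟨Ts, hTs', A, (subset_union_right.trans subset_union_left).trans hsub, B,
          subset_union_right.trans hsub, i, hi, rfl⟩, hβ⟩
      · gcongr
      · rw [← Real.exp_nat_mul]
        push_cast
        gcongr
    · have h4 := card_le_card_sdiff_add_card (s := Z ∩ mn G x H k (PP Ts) (QQ Ts) A B i)
        (t := T1 ∪ (T0 ∪ A ∪ B) \ T1)
      have h5 := card_union_le T1 ((T0 ∪ A ∪ B) \ T1)
      have h6 : ((Z ∩ mn G x H k (PP Ts) (QQ Ts) A B i).card : ℝ) ≤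
          (((Z ∩ mn G x H k (PP Ts) (QQ Ts) A B i) \ (T1 ∪ (T0 ∪ A ∪ B) \ T1)).card : ℝ) +
            (T1.card + ((T0 ∪ A ∪ B) \ T1).card) := by
        exact_mod_cast h4.trans (Nat.add_le_add_left h5 _)
      have h7 := h.aw_add_le
      have h8 := hT1.card
      have h9 : (aw H k : ℝ) ≤
          (((Z ∩ mn G x H k (PP Ts) (QQ Ts) A B i) \ (T1 ∪ (T0 ∪ A ∪ B) \ T1)).card : ℝ) := by
        linarith
      exact_mod_cast h9
  rcases le_total (lev T0) (lev T1) with hl | hl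
  · exact ⟨T1, _, inter_subset_left, hbig, hT1, key T1 (Or.inr rfl) hl le_rfl⟩
  · exact ⟨T0, Z, Subset.rfl, hZ, hT0, key T0 (Or.inl rfl) le_rfl hl⟩

end Pool.Agent.Work.MP_e10cd8_co.Gap
end

-- merged part: Pool.Agent.Work.MP_e10cd8_co.All.Red
section

end

-- merged part: Pool.Agent.Work.MP_e10cd8_co.Gap.Tri
section
/-! The coarse dichotomy and the fine trichotomy without rank classes. -/

namespace Pool.Agent.Work.MP_e10cd8_co.Gap

open Finset Four All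

section
variable {α : Type}

/-- number of related pairs -/
noncomputable def tc (Z : Finset α) (r : α → α → Prop) : ℕ :=
  ∑ z ∈ Z, (selIn Z fun u => r u z).card

theorem tc_swap (Z : Finset α) (r : α → α → Prop) : tc Z (fun u z => r z u) = tc Z r :=
  Red_swap Z r

theorem tc_or {Z : Finset α} {r r1 r2 : α → α → Prop}
    (h : ∀ u ∈ Z, ∀ z ∈ Z, r u z → r1 u z ∨ r2 u z) : tc Z r ≤ tc Z r1 + tc Z r2 := by
  rw [tc, tc, tc, ← sum_add_distrib]
  refine sum_le_sum fun z hz => Red_cover fun u hu => ?_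
  obtain ⟨k1, k2⟩ := mem_selIn.1 hu
  exact (h u k1 z hz k2).imp (fun k => mem_selIn.2 ⟨k1, k⟩) fun k => mem_selIn.2 ⟨k1, k⟩

theorem tc_le {Z : Finset α} {r : α → α → Prop} {c e : ℕ}
    (h : ∀ z ∈ Z, c * (selIn Z fun u => r u z).card ≤ e) : c * tc Z r ≤ Z.card * e := by
  rw [tc, mul_sum, ← smul_eq_mul]
  exact sum_le_card_nsmul _ _ _ h

theorem tc_markov {Z : Finset α} {r : α → α → Prop} {e : ℕ}
    (h : 2 * tc Z r ≤ Z.card * (e + 1)) :
    Z.card ≤ 2 * (selIn Z fun z => (selIn Z fun u => r u z).card ≤ e).card := by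
  have b1 : (selIn Z fun z => e + 1 ≤ (selIn Z fun u => r u z).card).card * (e + 1) ≤ tc Z r := by
    rw [← smul_eq_mul]
    exact (card_nsmul_le_sum _ _ _ fun z hz => (mem_selIn.1 hz).2).trans
      (sum_le_sum_of_subset (selIn_subset _ _))
  have b2 : 2 * (selIn Z fun z => e + 1 ≤ (selIn Z fun u => r u z).card).card ≤ Z.card := by
    refine Nat.le_of_mul_le_mul_right (c := e + 1) ?_ (by omega)
    rw [mul_assoc]
    exact (Nat.mul_le_mul_left 2 b1).trans h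
  have b3 := Red_cover (A := Z) (B := selIn Z fun z => (selIn Z fun u => r u z).card ≤ e)
    (C := selIn Z fun z => e + 1 ≤ (selIn Z fun u => r u z).card) fun z hz => by
      rw [mem_selIn, mem_selIn]
      exact (le_or_gt _ e).imp (fun k => ⟨hz, k⟩) fun k => ⟨hz, k⟩
  omega

end

variable {q t : ℕ} {Pt : Type} [Fintype Pt] [DecidableEq Pt]

theorem tri_gs (hq : 2 ≤ q) {a b n : ℕ} (h : a + b ≤ n) :
    gs q a * gs q b * q ^ 2 ≤ 4 * q ^ n := by
  have e2 := Nat.mul_le_mul (gs_mul_le hq a) (gs_mul_le hq b)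
  have e3 := Nat.pow_le_pow_right (n := q) (by omega) h
  rw [pow_add] at e3
  calc gs q a * gs q b * q ^ 2 = gs q a * q * (gs q b * q) := by ring
    _ ≤ 2 * q ^ a * (2 * q ^ b) := e2
    _ = 4 * (q ^ a * q ^ b) := by ring
    _ ≤ _ := Nat.mul_le_mul_left 4 e3

theorem tri_cnt (G : GP q t Pt) (T W : Finset (Pt × Pt)) (a : Pt) (v : ℕ)
    (h : ∀ z ∈ W, z.1 ∈ G.spn T a ∧ v ≤ G.rk (G.spn T z.1) ∧ G.spn T z.1 ⊆ G.pl z.2) :
    W.card ≤ gs q (G.rk (G.spn T a)) * gs q (t + 1 - v) := by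
  rw [← G.card_spn, mul_comm]
  refine card_le_mul_card_image_of_maps_to (f := Prod.fst) (fun z hz => (h z hz).1) _
    fun b _ => ?_
  rcases (W.filter fun z => z.1 = b).eq_empty_or_nonempty with k | ⟨w, hw⟩
  · rw [k]
    exact Nat.zero_le _
  · obtain ⟨hw', rfl⟩ := mem_filter.1 hw
    have e : (G.perp (G.spn T w.1)).card ≤ gs q (t + 1 - v) := by
      rw [G.card_perp]
      exact (gs_strictMono G.two_le).monotone (Nat.sub_le_sub_left (h w hw').2.1 _)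
    refine (card_le_card_of_injOn Prod.snd (fun z hz => ?_) fun z hz y hy k => ?_).trans e
    · obtain ⟨k1, k2⟩ := mem_filter.1 (mem_coe.1 hz)
      exact mem_coe.2 (G.mem_perp.2 (k2 ▸ (h z k1).2.2))
    · exact Prod.ext ((mem_filter.1 (mem_coe.1 hz)).2.trans
        (mem_filter.1 (mem_coe.1 hy)).2.symm) k

theorem card_popQ (G : GP q t Pt) (T : Finset (Pt × Pt)) (A : Finset Pt) :
    ((popQ G T A).card : ℝ) * q ≤ 4 * A.card * (q : ℝ) ^ t := by
  have hq := G.two_le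
  have a1 : popQ G T A ⊆ A.biUnion fun a => popQ G T {a} := fun z hz => by
    obtain ⟨a, ha, k⟩ := mem_sel.1 hz
    exact mem_biUnion.2 ⟨a, ha, mem_sel.2 ⟨a, mem_singleton_self a, k⟩⟩
  have a2 : ∀ a ∈ A, (popQ G T {a}).card * q ^ 2 ≤ 4 * q ^ (t + 1) := fun a _ => by
    have := G.rk_le (G.spn T a)
    refine (Nat.mul_le_mul_right _ (tri_cnt G T _ a (G.rk (G.spn T a)) fun z hz => ?_)).trans
      (tri_gs hq (by omega))
    obtain ⟨b, hb, k⟩ := mem_sel.1 hz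
    rw [mem_singleton.1 hb] at k
    exact k
  have a3 : (popQ G T A).card * q * q ≤ 4 * A.card * q ^ t * q := by
    calc (popQ G T A).card * q * q = (popQ G T A).card * q ^ 2 := by ring
      _ ≤ (∑ a ∈ A, (popQ G T {a}).card) * q ^ 2 :=
        Nat.mul_le_mul_right _ ((card_le_card a1).trans card_biUnion_le)
      _ ≤ A.card * (4 * q ^ (t + 1)) := by
        rw [sum_mul, ← smul_eq_mul]
        exact sum_le_card_nsmul _ _ _ a2
      _ = _ := by ring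
  exact_mod_cast Nat.le_of_mul_le_mul_right a3 (by omega)

theorem tri_low (G : GP q t Pt) (T W : Finset (Pt × Pt)) (a : Pt)
    (h : ∀ z ∈ W, z.1 ∈ G.spn T a ∧ G.rk (G.spn T a) < G.rk (G.spn T z.1) ∧
      G.spn T z.1 ⊆ G.pl z.2) : W.card * q ^ 2 ≤ 4 * q ^ t := by
  rcases W.eq_empty_or_nonempty with rfl | ⟨z, hz⟩
  · simp
  have h1 := G.rk_le_of_subset_pl (h z hz).2.2
  have h2 := (h z hz).2.1
  exact (Nat.mul_le_mul_right _ (tri_cnt G T W a (G.rk (G.spn T a) + 1) h)).trans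
    (tri_gs G.two_le (by omega))

theorem card_cpool (G : GP q t Pt) (T : Finset (Pt × Pt)) (u : Pt × Pt) :
    ((cpool G T u).card : ℝ) * (q : ℝ) ^ 2 ≤ 12 * (q : ℝ) ^ t := by
  have a1 := tri_low G T (selIn (cpool G T u) fun z => G.rk (G.spn T u.1) < G.rk (G.spn T z.1)) u.1
    fun z hz => by
      obtain ⟨k1, k2⟩ := mem_selIn.1 hz
      obtain ⟨k3, k4, -⟩ := mem_sel.1 k1
      exact ⟨k3.1, k2, k4⟩
  have a2 := tri_low G (sw T) (sw (selIn (cpool G T u) fun z =>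
    G.rk (G.spn (sw T) u.2) < G.rk (G.spn (sw T) z.2))) u.2 fun z hz => by
      obtain ⟨k1, k2⟩ := mem_selIn.1 (mem_sw.1 hz)
      obtain ⟨k3, -, k4, -⟩ := mem_sel.1 k1
      exact ⟨k3.2, k2, k4⟩
  rw [card_sw] at a2
  have a3 : (selIn (cpool G T u) fun _ =>
      G.rk (G.spn T u.1) + G.rk (G.spn (sw T) u.2) ≤ t).card * q ^ 2 ≤ 4 * q ^ t := by
    rcases (selIn (cpool G T u) fun _ =>
      G.rk (G.spn T u.1) + G.rk (G.spn (sw T) u.2) ≤ t).eq_empty_or_nonempty with k | ⟨z, hz⟩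
    · rw [k]
      simp
    refine (Nat.mul_le_mul_right _ ?_).trans (tri_gs G.two_le (mem_selIn.1 hz).2)
    rw [← G.card_spn, ← G.card_spn, ← card_product]
    exact card_le_card fun y hy => mem_product.2 (mem_sel.1 (mem_selIn.1 hy).1).1
  have a4 := Red_cover (A := cpool G T u)
    (B := selIn (cpool G T u) fun z => G.rk (G.spn T u.1) < G.rk (G.spn T z.1))
    (C := (selIn (cpool G T u) fun z => G.rk (G.spn (sw T) u.2) < G.rk (G.spn (sw T) z.2)) ∪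
      selIn (cpool G T u) fun _ => G.rk (G.spn T u.1) + G.rk (G.spn (sw T) u.2) ≤ t)
    fun z hz => by
      rcases (mem_sel.1 hz).2.2.2 with k | k | k
      · exact Or.inl (mem_selIn.2 ⟨hz, k⟩)
      · exact Or.inr (mem_union_left _ (mem_selIn.2 ⟨hz, k⟩))
      · exact Or.inr (mem_union_right _ (mem_selIn.2 ⟨hz, k⟩))
  have a5 := Nat.mul_le_mul_right (q ^ 2) (a4.trans (Nat.add_le_add_left (card_union_le _ _) _))
  rw [add_mul, add_mul] at a5
  exact_mod_cast (show (cpool G T u).card * q ^ 2 ≤ 12 * q ^ t by omega)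

theorem tri_sparse (G : GP q t Pt) {Z : Finset (Pt × Pt)} (hZ : G.indep Z) (e : ℕ) :
    G.sparse e (selIn Z fun z => (selIn Z fun u => z.1 ∈ G.pl u.2).card ≤ e) := by
  refine ⟨(selIn_subset _ _).trans hZ.1, fun z hz => ?_⟩
  obtain ⟨k1, k2⟩ := mem_selIn.1 hz
  refine ⟨le_trans (card_le_card fun u hu => ?_) k2, le_trans (card_le_card fun u hu => ?_) k2⟩
  · exact mem_selIn.2 ⟨(mem_selIn.1 (mem_selIn.1 hu).1).1, (mem_selIn.1 hu).2⟩
  · have k := (mem_selIn.1 (mem_selIn.1 hu).1).1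
    exact mem_selIn.2 ⟨k, (hZ.2 u k z k1).1 (mem_selIn.1 hu).2⟩

/-- many flags lie in the spans of few points, or a quarter of the flags is sparse -/
theorem coarse2 (G : GP q t Pt) {I : Finset (Pt × Pt)} (hI : G.indep I) {d m : ℕ} (hd : 1 ≤ d)
    (hm : I.card ≤ d * m) (w : ℕ) :
    ∃ T0 ⊆ I, T0.card * d ≤ 8 * (t + 1) * I.card ∧
      ((∃ A : Finset Pt, A.card ≤ m ∧ w ≤ (I ∩ popQ G T0 A).card) ∨
        ∃ Z ⊆ I, G.sparse (8 * d) Z ∧ I.card ≤ 4 * Z.card + 4 * w) := by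
  obtain ⟨T, hT, hc, hg⟩ := G.span_good hI hd
  refine ⟨T, hT, hc, ?_⟩
  obtain ⟨Zg, hZg⟩ : ∃ Zg, Zg = selIn I fun z =>
    (G.nw T I z.1).card ≤ d ∧ (G.nw (sw T) (sw I) z.2).card ≤ d := ⟨_, rfl⟩
  rw [← hZg] at hg
  have g1 : Zg ⊆ I := hZg ▸ selIn_subset _ _
  have g2 : ∀ z ∈ Zg, (G.nw T I z.1).card ≤ d := fun z hz => (mem_selIn.1 (hZg ▸ hz)).2.1
  obtain ⟨pq, hpq⟩ : ∃ pq : Pt × Pt → Pt × Pt → Prop, ∀ u z, pq u z ↔
    z.1 ∈ G.spn T u.1 ∧ G.rk (G.spn T u.1) ≤ G.rk (G.spn T z.1) := ⟨_, fun _ _ => Iff.rfl⟩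
  by_cases hU : 2 * w ≤ (selIn Zg fun z => d ≤ (selIn I fun u => pq u z).card).card
  · obtain ⟨B, -, b2, b3⟩ := dominate2 I (selIn Zg fun z => d ≤ (selIn I fun u => pq u z).card)
      (fun z u => pq u z) (d := d) (by exact_mod_cast hd)
      (fun z hz => by exact_mod_cast (mem_selIn.1 hz).2) m (by exact_mod_cast hm)
    refine Or.inl ⟨B.image Prod.fst, card_image_le.trans b2, ?_⟩
    have := card_le_card (show (selIn (selIn Zg fun z => d ≤ (selIn I fun u => pq u z).card)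
        fun z => ∃ a ∈ B, pq a z) ⊆ I ∩ popQ G T (B.image Prod.fst) from fun z hz => by
      obtain ⟨k1, a, ha, k2⟩ := mem_selIn.1 hz
      have k3 := g1 (mem_selIn.1 k1).1
      exact mem_inter.2 ⟨k3, mem_sel.2 ⟨a.1, mem_image_of_mem _ ha, ((hpq _ _).1 k2).1,
        ((hpq _ _).1 k2).2, G.spn_subset_pl hI hT k3⟩⟩)
    omega
  obtain ⟨Z', hZ'⟩ : ∃ Z', Z' = selIn Zg fun z => (selIn I fun u => pq u z).card ≤ d := ⟨_, rfl⟩
  have z1 : Z' ⊆ Zg := hZ' ▸ selIn_subset _ _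
  have z2 : Z' ⊆ I := z1.trans g1
  have c1 := Red_cover (A := Zg) (B := selIn Zg fun z => d ≤ (selIn I fun u => pq u z).card)
    (C := Z') fun z hz => by
      rw [hZ', mem_selIn, mem_selIn]
      exact (le_total d _).imp (fun k => ⟨hz, k⟩) fun k => ⟨hz, k⟩
  have t1 : 1 * tc Z' pq ≤ Z'.card * d := tc_le fun z hz => by
    rw [one_mul]
    exact le_trans (card_le_card fun u hu => mem_selIn.2 ⟨z2 (mem_selIn.1 hu).1,
      (mem_selIn.1 hu).2⟩) (mem_selIn.1 (hZ'.le hz)).2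
  have t2 : 1 * tc Z' (fun u z => u ∈ G.nw T I z.1) ≤ Z'.card * d := tc_le fun z hz => by
    rw [one_mul]
    exact le_trans (card_le_card fun u hu => (mem_selIn.1 hu).2) (g2 z (z1 hz))
  have t3 := tc_swap Z' fun u z => z ∈ G.nw T I u.1
  have t4 := tc_or (Z := Z') (r := fun u z => u.1 ∈ G.pl z.2 ∧
    G.rk (G.spn T u.1) ≤ G.rk (G.spn T z.1)) (r1 := pq) (r2 := fun u z => z ∈ G.nw T I u.1)
    fun u _ z hz k => by
      by_cases k1 : z.1 ∈ G.spn T u.1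
      · exact Or.inl ((hpq _ _).2 ⟨k1, k.2⟩)
      · exact Or.inr (mem_selIn.2 ⟨z2 hz, k.1, k1⟩)
  have t5 := tc_swap Z' fun u z => u.1 ∈ G.pl z.2 ∧ G.rk (G.spn T u.1) ≤ G.rk (G.spn T z.1)
  have t6 := tc_or (Z := Z') (r := fun u z => z.1 ∈ G.pl u.2)
    (r1 := fun u z => u.1 ∈ G.pl z.2 ∧ G.rk (G.spn T u.1) ≤ G.rk (G.spn T z.1))
    (r2 := fun u z => z.1 ∈ G.pl u.2 ∧ G.rk (G.spn T z.1) ≤ G.rk (G.spn T u.1))
    fun u hu z hz k => (le_total _ _).imp
      (fun k1 => ⟨(hI.2 z (z2 hz) u (z2 hu)).1 k, k1⟩) fun k1 => ⟨k, k1⟩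
  have t7 := tc_markov (Z := Z') (r := fun u z => z.1 ∈ G.pl u.2) (e := 8 * d) (by
    have : Z'.card * (8 * d + 1) = 8 * (Z'.card * d) + Z'.card := by ring
    omega)
  exact Or.inr ⟨_, (selIn_subset _ _).trans z2, tri_sparse G (G.indep_mono hI z2) _, by omega⟩

/-- the least sparse level is minimal, or many flags have many cheap parents, or many flags have
many parents of the same large ranks -/
theorem fine3 (G : GP q t Pt) {Z : Finset (Pt × Pt)} (hZ : G.indep Z) {d w : ℕ} (hd : 1 ≤ d)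
    (hw : 26 * w ≤ Z.card) :
    ∃ T2 ⊆ Z, T2.card * d ≤ 8 * (t + 1) * Z.card ∧ ∃ s, 16 * d ≤ s ∧
      ∃ Zs ⊆ Z, w ≤ Zs.card ∧ G.sparse (s + 1) Zs ∧ (s = 16 * d ∨
        (∃ Zl ⊆ Z, w ≤ Zl.card ∧
          ∀ z ∈ Zl, s ≤ 16 * (selIn Z fun u => z ∈ cpool G T2 u).card) ∨
        ∃ Zl ⊆ Z, 10 * w ≤ Zl.card ∧
          ∀ z ∈ Zl, s ≤ 16 * (selIn Z fun u => hi G T2 u z).card) := by
  classical
  obtain ⟨T, hT, hc, hg⟩ := G.span_good hZ hd
  refine ⟨T, hT, hc, ?_⟩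
  have hex : ∃ s, 16 * d ≤ s ∧ ∃ Zs ⊆ Z, w ≤ Zs.card ∧ G.sparse (s + 1) Zs := by
    have k : ∀ p, (selIn Z p).card ≤ 16 * d + Z.card + 1 := fun p =>
      (card_le_card (selIn_subset _ _)).trans (by omega)
    exact ⟨16 * d + Z.card, by omega, Z, Subset.rfl, by omega, hZ.1, fun z _ => ⟨k _, k _⟩⟩
  obtain ⟨s, hs⟩ : ∃ s, s = Nat.find hex := ⟨_, rfl⟩
  obtain ⟨s1, Zs, s2, s3, s4⟩ := hs ▸ Nat.find_spec hex
  refine ⟨s, s1, Zs, s2, s3, s4, ?_⟩
  by_contra n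
  rw [not_or, not_or] at n
  obtain ⟨n0, n1, n2⟩ := n
  refine Nat.find_min hex (m := s - 1) (by omega) ⟨by omega, ?_⟩
  rw [show s - 1 + 1 = s by omega]
  have e1 : ¬ w ≤ (selIn Z fun z => s ≤ 16 * (selIn Z fun u => z ∈ cpool G T u).card).card :=
    fun k => n1 ⟨_, selIn_subset _ _, k, fun z hz => (mem_selIn.1 hz).2⟩
  have e2 : ¬ 10 * w ≤ (selIn Z fun z => s ≤ 16 * (selIn Z fun u => hi G T u z).card).card :=
    fun k => n2 ⟨_, selIn_subset _ _, k, fun z hz => (mem_selIn.1 hz).2⟩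
  obtain ⟨Z', hZ'⟩ : ∃ Z', Z' = selIn Z fun z =>
    ((G.nw T Z z.1).card ≤ d ∧ (G.nw (sw T) (sw Z) z.2).card ≤ d) ∧
      16 * (selIn Z fun u => z ∈ cpool G T u).card ≤ s ∧
      16 * (selIn Z fun u => hi G T u z).card ≤ s := ⟨_, rfl⟩
  have z1 : Z' ⊆ Z := hZ' ▸ selIn_subset _ _
  have z2 := fun z (hz : z ∈ Z') => (mem_selIn.1 (hZ' ▸ hz)).2
  have c1 := Red_cover (A := selIn Z fun z =>
      (G.nw T Z z.1).card ≤ d ∧ (G.nw (sw T) (sw Z) z.2).card ≤ d) (B := Z')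
    (C := (selIn Z fun z => s ≤ 16 * (selIn Z fun u => z ∈ cpool G T u).card) ∪
      selIn Z fun z => s ≤ 16 * (selIn Z fun u => hi G T u z).card) fun z hz => by
      obtain ⟨k1, k2⟩ := mem_selIn.1 hz
      rcases le_total s (16 * (selIn Z fun u => z ∈ cpool G T u).card) with k3 | k3
      · exact Or.inr (mem_union_left _ (mem_selIn.2 ⟨k1, k3⟩))
      rcases le_total s (16 * (selIn Z fun u => hi G T u z).card) with k4 | k4
      · exact Or.inr (mem_union_right _ (mem_selIn.2 ⟨k1, k4⟩))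
      · exact Or.inl (hZ' ▸ mem_selIn.2 ⟨k1, k2, k3, k4⟩)
  have c2 := c1.trans (Nat.add_le_add_left (card_union_le _ _) _)
  have up : ∀ p : Pt × Pt → Prop, (selIn Z' p).card ≤ (selIn Z p).card := fun p =>
    card_le_card fun u hu => mem_selIn.2 ⟨z1 (mem_selIn.1 hu).1, (mem_selIn.1 hu).2⟩
  obtain ⟨nb, hnb⟩ : ∃ nb : Pt × Pt → Pt × Pt → Prop, ∀ u z, nb u z ↔
    z ∈ G.nw T Z u.1 ∨ z ∈ sw (G.nw (sw T) (sw Z) u.2) := ⟨_, fun _ _ => Iff.rfl⟩
  have t1 : 1 * tc Z' (fun u z => nb z u) ≤ Z'.card * (2 * d) := tc_le fun z hz => by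
    have a := Red_cover (A := selIn Z' fun u => nb z u) fun u hu => (hnb _ _).1 (mem_selIn.1 hu).2
    rw [card_sw] at a
    have := (z2 z hz).1
    omega
  have t2 := tc_swap Z' nb
  have t3 : 16 * tc Z' (fun u z => z ∈ cpool G T u) ≤ Z'.card * s := tc_le fun z hz =>
    (Nat.mul_le_mul_left 16 (up _)).trans (z2 z hz).2.1
  have t4 := tc_swap Z' fun u z => z ∈ cpool G T u
  have t5 : 16 * tc Z' (hi G T) ≤ Z'.card * s := tc_le fun z hz =>
    (Nat.mul_le_mul_left 16 (up _)).trans (z2 z hz).2.2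
  have pr : ∀ u ∈ Z', ∀ z ∈ Z', z.1 ∈ G.pl u.2 → nb u z ∨ G.par T u z := fun u hu z hz k => by
    by_cases k1 : z.1 ∈ G.spn T u.1
    · by_cases k2 : z.2 ∈ G.spn (sw T) u.2
      · exact Or.inr ⟨k1, k2⟩
      · exact Or.inl ((hnb _ _).2 (Or.inr (mem_sw.2 (mem_selIn.2
          ⟨mem_sw.2 (by rw [Prod.swap_swap]; exact z1 hz), (G.symm _ _).1 k, k2⟩))))
    · exact Or.inl ((hnb _ _).2 (Or.inl (mem_selIn.2
        ⟨z1 hz, (hZ.2 z (z1 hz) u (z1 hu)).1 k, k1⟩)))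
  have t6 := tc_or (Z := Z') (r := fun u z => z.1 ∈ G.pl u.2) (r1 := nb)
    (r2 := fun u z => z.1 ∈ G.pl u.2 ∧ G.par T u z) fun u hu z hz k =>
      (pr u hu z hz k).imp_right fun k1 => ⟨k, k1⟩
  have t7 := tc_or (Z := Z') (r := fun u z => z.1 ∈ G.pl u.2 ∧ G.par T u z)
    (r1 := fun u z => nb z u) (r2 := fun u z => G.par T u z ∧ G.par T z u) fun u hu z hz k =>
      (pr z hz u hu ((hZ.2 z (z1 hz) u (z1 hu)).1 k.1)).imp_right fun k1 => ⟨k.2, k1⟩
  have cs : ∀ z ∈ Z', G.spn T z.1 ⊆ G.pl z.2 ∧ G.spn (sw T) z.2 ⊆ G.pl z.1 := fun z hz =>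
    ⟨G.spn_subset_pl hZ hT (z1 hz), G.spn_subset_pl (z := z.swap) (G.indep_sw hZ) (sw_mono hT)
      (mem_sw.2 (z1 hz))⟩
  have t8 := tc_or (Z := Z') (r := fun u z => G.par T u z ∧ G.par T z u)
    (r1 := fun u z => z ∈ cpool G T u) (r2 := fun u z => u ∈ cpool G T z ∨ hi G T u z)
    fun u hu z hz k => by
      by_contra m
      rw [not_or, not_or] at m
      obtain ⟨m1, m2, m3⟩ := not_or.1 (fun h => m.1 (mem_sel.2 ⟨k.1, (cs z hz).1, (cs z hz).2, h⟩))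
        |>.imp_right not_or.1
      obtain ⟨m4, m5, -⟩ := not_or.1 (fun h => m.2.1 (mem_sel.2 ⟨k.2, (cs u hu).1, (cs u hu).2, h⟩))
        |>.imp_right not_or.1
      exact m.2.2 ⟨k.1, le_antisymm (not_lt.1 m1) (not_lt.1 m4),
        le_antisymm (not_lt.1 m2) (not_lt.1 m5), not_le.1 m3⟩
  have t9 := tc_or (Z := Z') (r := fun u z => u ∈ cpool G T z ∨ hi G T u z)
    (r1 := fun u z => u ∈ cpool G T z) (r2 := hi G T) fun _ _ _ _ k => k
  have t10 := tc_markov (Z := Z') (r := fun u z => z.1 ∈ G.pl u.2) (e := s) (by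
    have b1 : Z'.card * (s + 1) = Z'.card * s + Z'.card := by ring
    have b2 := Nat.mul_le_mul_left Z'.card s1
    have b3 : Z'.card * (16 * d) = 8 * (Z'.card * (2 * d)) := by ring
    omega)
  exact ⟨_, (selIn_subset _ _).trans z1, by omega, tri_sparse G (G.indep_mono hZ z1) _⟩

end Pool.Agent.Work.MP_e10cd8_co.Gap
end

-- merged part: Pool.Agent.Work.MP_e10cd8_co.All.AWt
section

end

-- merged part: Pool.Agent.Work.MP_e10cd8_co.Gap.BWt
section
/-! The weight of a cover (paper 4). Compare `Exact/Wt`, `Exact/WtA`. -/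

namespace Pool.Agent.Work.MP_e10cd8_co.Gap

open Finset Four All

theorem BWt_exp {q t H D k : ℕ} (h : NG q t H D k) : (k : ℝ) + 4 ≤ Real.exp (bt0 q t H) := by
  have h1 := h.H_ge'
  have h2 : (H : ℝ) ^ 4 ≤ bt0 q t H := by linarith [h.t0_ge, pow_pos h.H0 4]
  have h3 := h.le_at0
  have h4 : (20 : ℝ) ≤ (H : ℝ) ^ 2 := by nlinarith
  have h5 : 20 * (H : ℝ) ^ 2 ≤ bt0 q t H := by
    refine le_trans ?_ h2
    rw [show (H : ℝ) ^ 4 = (H : ℝ) ^ 2 * (H : ℝ) ^ 2 by ring]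
    exact mul_le_mul_of_nonneg_right h4 (by positivity)
  have t0 : 0 ≤ bt0 q t H := by linarith
  have h6 := Real.quadratic_le_exp_of_nonneg t0
  have h7 := mul_le_mul_of_nonneg_right h5 t0
  nlinarith

theorem BWt_small {φ : Type} [DecidableEq φ] {q t H D k : ℕ} (h : NG q t H D k) (Ω : Finset φ)
    {a : ℝ} (s : ℝ) (ha : 0 ≤ a) (hΩ : (Ω.card : ℝ) ≤ (H : ℝ) ^ 4 * Real.exp t * Real.exp a * (q : ℝ) ^ t) :
    ∑ T ∈ selIn Ω.powerset (fun T => (T.card : ℝ) ≤ s), bp q t H k ^ T.card ≤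
      Real.exp (s * a + bt0 q t H) := by
  have h1 := h.H_ge'
  have q0 : (0 : ℝ) < q := by linarith [h.q_ge]
  have H0 : (0 : ℝ) < H := by linarith
  have e0 := Real.exp_pos a
  have e1 : 1 ≤ Real.exp a := Real.one_le_exp ha
  have p0 := bp_nonneg q t H k
  have t0 : 0 ≤ bt0 q t H := h.t0_pos.le
  refine (sum_small_le Ω (x := 1 / Real.exp a) p0 (by positivity)
    (div_le_one_of_le₀ e1 e0.le)).trans (Real.exp_le_exp.2 ?_)
  rw [one_div_one_div, Real.log_exp]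
  have b : 1 / Real.exp a * bp q t H k * Ω.card ≤ k / (H : ℝ) ^ 6 := by
    calc _ ≤ 1 / Real.exp a * bp q t H k * ((H : ℝ) ^ 4 * Real.exp t * Real.exp a * (q : ℝ) ^ t) := by gcongr
      _ = _ := by unfold bp; field_simp
  have c : (k : ℝ) / (H : ℝ) ^ 6 ≤ bt0 q t H := by
    rw [div_le_iff₀ (by positivity)]
    refine h.le_at0.trans ?_
    have c1 : (5 : ℝ) ≤ (H : ℝ) ^ 4 :=
      le_trans (by linarith) (le_self_pow₀ (by linarith) (by norm_num))
    have c2 : 5 * (H : ℝ) ^ 2 ≤ (H : ℝ) ^ 6 := by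
      rw [show (H : ℝ) ^ 6 = (H : ℝ) ^ 4 * (H : ℝ) ^ 2 by ring]
      exact mul_le_mul_of_nonneg_right c1 (by positivity)
    rw [mul_comm (bt0 q t H)]
    exact mul_le_mul_of_nonneg_right c2 t0
  linarith

variable {q t : ℕ} {Pt : Type} [Fintype Pt] [DecidableEq Pt] (G : GP q t Pt)

/-- the items of the menu over the set `U` -/
noncomputable def BWt_menu (PP QQ : Finset (Pt × Pt) → Finset Pt) (x : ℝ) (H k : ℕ)
    (U : Finset (Pt × Pt)) : Finset (Finset (Pt × Pt)) :=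
  (U.powerset ×ˢ U.powerset ×ˢ U.powerset ×ˢ range (k + 4)).image fun c =>
    mn G x H k (PP c.1) (QQ c.1) c.2.1 c.2.2.1 c.2.2.2

theorem BWt_menu_card {H D k : ℕ} (h : NG q t H D k) (PP QQ : Finset (Pt × Pt) → Finset Pt)
    (x : ℝ) (U : Finset (Pt × Pt)) (hU : (U.card : ℝ) ≤ 3 * bt0 q t H) :
    ((BWt_menu G PP QQ x H k U).card : ℝ) ≤ Real.exp (10 * bt0 q t H) := by
  have a : (BWt_menu G PP QQ x H k U).card ≤ 2 ^ U.card * (2 ^ U.card * (2 ^ U.card * (k + 4))) := by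
    unfold BWt_menu
    refine card_image_le.trans (le_of_eq ?_)
    simp only [card_product, card_powerset, card_range]
  have b : (2 : ℝ) ^ U.card ≤ Real.exp (3 * bt0 q t H) := by
    refine le_trans ?_ (Real.exp_le_exp.2 hU)
    rw [← mul_one (U.card : ℝ), Real.exp_nat_mul]
    exact pow_le_pow_left₀ (by norm_num) (by linarith [Real.add_one_le_exp (1 : ℝ)]) _
  have c := BWt_exp h
  calc _ ≤ (2 : ℝ) ^ U.card * (2 ^ U.card * (2 ^ U.card * (k + 4))) := by exact_mod_cast a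
    _ ≤ Real.exp (3 * bt0 q t H) * (Real.exp (3 * bt0 q t H) * (Real.exp (3 * bt0 q t H) *
        Real.exp (bt0 q t H))) := by gcongr
    _ = _ := by
      rw [← Real.exp_add, ← Real.exp_add, ← Real.exp_add]
      congr 1
      ring

/-- `Cov` is contained in the image of the tuples (pair, `T1`, `W`, three subsets of `T1 ∪ W`,
index). `sum_small_le` with `x = exp (-4 j)` and with `x = exp (-2 j)` bounds the sums over `T1` and
`W` by `exp (t0 (4 j + 1))` (`le_at0`); the menu has at most `8 ^ (3 t0) (k + 4) ≤ exp (8 t0)`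
items; `pool_factor`, `at0_le`. -/
theorem wt_Cov {H D k : ℕ} (h : NG q t H D k) (PP QQ : Finset (Pt × Pt) → Finset Pt) (x : ℝ)
    (j : ℕ) (F : Finset (Finset Pt × Finset Pt)) {β y : ℝ} (hy : 0 ≤ y) (hj : (j : ℝ) ≤ 2 * y)
    (hF : (F.card : ℝ) ≤ Real.exp (k * (y + t + 1) / (4 * H)))
    (hβ : β ≤ (H : ℝ) ^ 4 * Real.exp (-y)) :
    wtC (bp q t H k) (aw H k) (Cov G PP QQ x H k j F β) ≤ Real.exp (-(9 * k / H)) := by
  have p0 := bp_nonneg q t H k
  have H1 := h.H_ge'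
  have H0 : (0 : ℝ) < H := by linarith
  have k0 := h.k_pos
  have j0 : (0 : ℝ) ≤ j := Nat.cast_nonneg j
  have t0 : 0 ≤ bt0 q t H := h.t0_pos.le
  set E := Real.exp (-((10 + y + t) * k / H)) with hE
  have E0 : 0 ≤ E := (Real.exp_pos _).le
  have sub : Cov G PP QQ x H k j F β ⊆ (selIn F fun XY =>
      ((G.pool XY.1 XY.2).card : ℝ) ≤ (H : ℝ) ^ 4 * Real.exp t * Real.exp (4 * j) * (q : ℝ) ^ t).biUnion
      fun XY => (selIn (selIn (G.pool XY.1 XY.2).powerset fun T => (T.card : ℝ) ≤ bt0 q t H)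
        fun T1 => ((G.pool (PP T1) (QQ T1)).card : ℝ) ≤
          35 * Real.exp (2 * j) * (q : ℝ) ^ t).biUnion
        fun T1 => (selIn (selIn (G.pool (PP T1) (QQ T1)).powerset
          fun W => (W.card : ℝ) ≤ 2 * bt0 q t H) fun W => Disjoint T1 W).biUnion fun W =>
          (selIn (BWt_menu G PP QQ x H k (T1 ∪ W))
            fun B => (B.card : ℝ) ≤ β * (q : ℝ) ^ t).image fun B => (T1 ∪ W, B) := by
    intro z hz
    obtain ⟨XY, h1, T1, W, h2, h3, h4, h5, h6, h7, h8, h9, ⟨Ts, s1, A, s2, B, s3, i, s4, s5⟩,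
      h10⟩ := mem_sel.1 hz
    rw [h9] at s1 s2 s3
    refine mem_biUnion.2 ⟨XY, mem_selIn.2 ⟨h1, h3⟩, mem_biUnion.2 ⟨T1, mem_selIn.2
      ⟨mem_selIn.2 ⟨mem_powerset.2 h2, h4⟩, h6⟩, mem_biUnion.2 ⟨W, mem_selIn.2
        ⟨mem_selIn.2 ⟨mem_powerset.2 h5, h7⟩, h8⟩, mem_image.2 ⟨z.2, mem_selIn.2
          ⟨mem_image.2 ⟨(Ts, A, B, i), ?_, s5.symm⟩, h10⟩, Prod.ext h9.symm rfl⟩⟩⟩⟩
    exact mem_product.2 ⟨mem_powerset.2 s1, mem_product.2 ⟨mem_powerset.2 s2,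
      mem_product.2 ⟨mem_powerset.2 s3, mem_range.2 (Nat.lt_succ_of_le s4)⟩⟩⟩
  refine (AWt_mono p0 _ sub).trans ((wtC_biUnion_le p0 _ _ _).trans ?_)
  refine (sum_le_card_nsmul _ _ (Real.exp (bt0 q t H * (4 * j) + bt0 q t H) *
    (Real.exp (2 * bt0 q t H * (2 * j) + bt0 q t H) * (Real.exp (10 * bt0 q t H) * E)))
    fun XY hXY => ?_).trans ?_
  · refine (wtC_biUnion_le p0 _ _ _).trans ?_
    have s1 := (sum_le_sum_of_subset_of_nonneg (selIn_subset _ fun T1 =>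
      ((G.pool (PP T1) (QQ T1)).card : ℝ) ≤ 35 * Real.exp (2 * j) * (q : ℝ) ^ t)
      fun _ _ _ => by positivity).trans
      (BWt_small h (G.pool XY.1 XY.2) (bt0 q t H) (by positivity) (mem_selIn.1 hXY).2)
    refine le_trans ?_ (mul_le_mul_of_nonneg_right s1 (by positivity))
    rw [sum_mul]
    refine sum_le_sum fun T1 hT => (wtC_biUnion_le p0 _ _ _).trans ?_
    have c35 : (35 : ℝ) ≤ (H : ℝ) ^ 4 * Real.exp t :=
      le_trans (le_trans (by linarith) (le_self_pow₀ (by linarith) (by norm_num)))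
        (le_mul_of_one_le_right (by positivity) (Real.one_le_exp (Nat.cast_nonneg _)))
    have s2 := (sum_le_sum_of_subset_of_nonneg (selIn_subset _ fun W => Disjoint T1 W)
      fun _ _ _ => by positivity).trans
      (BWt_small h (G.pool (PP T1) (QQ T1)) (a := 2 * j) (2 * bt0 q t H) (by positivity)
        ((mem_selIn.1 hT).2.trans (by gcongr)))
    refine le_trans ?_ (mul_le_mul_of_nonneg_left
      (mul_le_mul_of_nonneg_right s2 (by positivity)) (by positivity))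
    rw [sum_mul, mul_sum]
    refine sum_le_sum fun W hW => (wtC_image_le p0 _ _ _).trans ?_
    have d := (mem_selIn.1 hW).2
    refine (sum_le_card_nsmul _ _ (bp q t H k ^ T1.card * (bp q t H k ^ W.card * E))
      fun B hB => ?_).trans ?_
    · have := h.pool_factor (B := B.card) hy
        ((mem_selIn.1 hB).2.trans (mul_le_mul_of_nonneg_right hβ (by positivity)))
      simp only []
      rw [card_union_of_disjoint d, pow_add, mul_assoc]
      gcongr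
    · have u : ((T1 ∪ W).card : ℝ) ≤ 3 * bt0 q t H := by
        have u1 := (mem_selIn.1 (mem_selIn.1 hT).1).2
        have u2 := (mem_selIn.1 (mem_selIn.1 hW).1).2
        rw [card_union_of_disjoint d]
        push_cast
        linarith
      have : ((selIn (BWt_menu G PP QQ x H k (T1 ∪ W))
          fun B => (B.card : ℝ) ≤ β * (q : ℝ) ^ t).card : ℝ) ≤ Real.exp (10 * bt0 q t H) :=
        le_trans (by exact_mod_cast card_le_card (selIn_subset _ _))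
          (BWt_menu_card G h PP QQ x _ u)
      rw [nsmul_eq_mul]
      refine (mul_le_mul_of_nonneg_right this (by positivity)).trans (le_of_eq ?_)
      ring
  · rw [nsmul_eq_mul]
    have a0 : ((selIn F fun XY => ((G.pool XY.1 XY.2).card : ℝ) ≤
        (H : ℝ) ^ 4 * Real.exp t * Real.exp (4 * j) * (q : ℝ) ^ t).card : ℝ) ≤
        Real.exp (k * (y + t + 1) / (4 * H)) :=
      le_trans (by exact_mod_cast card_le_card (selIn_subset _ _)) hF
    refine (mul_le_mul_of_nonneg_right a0 (by positivity)).trans ?_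
    rw [hE, ← Real.exp_add, ← Real.exp_add, ← Real.exp_add, ← Real.exp_add, Real.exp_le_exp]
    have b1 : bt0 q t H ≤ k / H / 100 := by
      refine h.at0_le.trans ?_
      rw [div_div]
      refine div_le_div_of_nonneg_left k0.le (by positivity) ?_
      nlinarith
    have b2 : (k : ℝ) * (y + t + 1) / (4 * H) = k / H * (y + t + 1) / 4 := by field_simp
    have b3 : (10 + y + t) * (k : ℝ) / H = (10 + y + t) * (k / H) := by ring
    have b4 : 9 * (k : ℝ) / H = 9 * (k / H) := by ring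
    rw [b2, b3, b4]
    have u0 : (0 : ℝ) ≤ k / H := by positivity
    generalize (k : ℝ) / H = u at b1 u0 ⊢
    have b5 : bt0 q t H * j ≤ u / 100 * (2 * y) := mul_le_mul b1 hj j0 (by positivity)
    have b6 := mul_nonneg u0 hy
    have b7 := mul_nonneg u0 (Nat.cast_nonneg (α := ℝ) t)
    nlinarith

end Pool.Agent.Work.MP_e10cd8_co.Gap
end
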