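import Mathlib

/-!
Moments of one group of independent points.
Paper: team store file h70_e10cd8_gap.md, part A1.
-/

namespace Pool.Agent.Work.MP_e10cd8_co.Gap.One

open Finset

noncomputable section

variable {α : Type} [DecidableEq α]

/-- tuples of `m` members of `P` -/
def tup {β : Type} (P : Finset β) (m : ℕ) : Finset (Fin m → β) :=
  Fintype.piFinset fun _ : Fin m => P

theorem card_tup {β : Type} (P : Finset β) (m : ℕ) : (tup P m).card = P.card ^ m := by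
  simp [tup]

theorem sum_tup_prod {β : Type} (P : Finset β) (m : ℕ) (f : β → ℝ) :
    ∑ w ∈ tup P m, ∏ i, f (w i) = (∑ a ∈ P, f a) ^ m := by
  rw [tup, ← prod_univ_sum (fun _ : Fin m => P) fun _ a => f a]
  simp

theorem sum_tup_succ {β : Type} (P : Finset β) (m : ℕ) (φ : (Fin (m + 1) → β) → ℝ) :
    ∑ w ∈ tup P (m + 1), φ w = ∑ a ∈ P, ∑ w ∈ tup P m, φ (Fin.cons a w) := by
  rw [← sum_product']
  refine sum_nbij' (fun w => (w 0, Fin.tail w)) (fun p => Fin.cons p.1 p.2) ?_ ?_ ?_ ?_ ?_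
  · intro w hw
    simp only [tup, Fintype.mem_piFinset, mem_product] at hw ⊢
    exact ⟨hw 0, fun i => hw _⟩
  · intro p hp
    simp only [tup, Fintype.mem_piFinset, mem_product] at hp ⊢
    intro i
    refine Fin.cases ?_ (fun j => ?_) i
    · exact hp.1
    · exact hp.2 j
  · intro w _
    exact Fin.cons_self_tail w
  · intro p _
    simp
  · intro w _
    rw [Fin.cons_self_tail]

/-- the sum of `y` over a tuple -/
def sm {β : Type} (y : β → ℝ) {m : ℕ} (w : Fin m → β) : ℝ := ∑ k, y (w k)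

theorem sm_cons {β : Type} (y : β → ℝ) {m : ℕ} (a : β) (w : Fin m → β) :
    sm y (Fin.cons a w : Fin (m + 1) → β) = y a + sm y w := by
  simp [sm, Fin.sum_univ_succ]

theorem sum_one_tup {β : Type} (P : Finset β) (m : ℕ) :
    ∑ _w ∈ tup P m, (1 : ℝ) = (P.card : ℝ) ^ m := by
  simp [card_tup]

theorem mom1 {β : Type} (P : Finset β) (y : β → ℝ) (h : ∑ a ∈ P, y a = 0) (m : ℕ) :
    ∑ w ∈ tup P m, sm y w = 0 := by
  induction m with
  | zero => simp [sm]
  | succ m ih =>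
    rw [sum_tup_succ]
    have e : ∀ a (w : Fin m → β), sm y (Fin.cons a w : Fin (m + 1) → β) =
        y a * 1 + 1 * sm y w := fun a w => by rw [sm_cons]; ring
    simp only [e, sum_add_distrib, ← mul_sum, ← sum_mul, h, ih]
    simp

theorem mom2 {β : Type} (P : Finset β) (y z : β → ℝ) (hy : ∑ a ∈ P, y a = 0)
    (hz : ∑ a ∈ P, z a = 0) {c : ℝ} (hc : ∑ a ∈ P, y a * z a = P.card * c) (m : ℕ) :
    ∑ w ∈ tup P m, sm y w * sm z w = (P.card : ℝ) ^ m * (m * c) := by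
  induction m with
  | zero => simp [sm]
  | succ m ih =>
    rw [sum_tup_succ]
    have e : ∀ a (w : Fin m → β), sm y (Fin.cons a w : Fin (m + 1) → β) *
        sm z (Fin.cons a w : Fin (m + 1) → β) =
        (y a * z a) * 1 + y a * sm z w + z a * sm y w + 1 * (sm y w * sm z w) :=
      fun a w => by rw [sm_cons, sm_cons]; ring
    simp only [e, sum_add_distrib, ← mul_sum, ← sum_mul, hy, hz, hc, ih, sum_one_tup]
    simp only [sum_const, nsmul_eq_mul]
    push_cast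
    ring

theorem mom4 {β : Type} (P : Finset β) (y1 y2 y3 y4 : β → ℝ) (h1 : ∑ a ∈ P, y1 a = 0)
    (h2 : ∑ a ∈ P, y2 a = 0) (h3 : ∑ a ∈ P, y3 a = 0) (h4 : ∑ a ∈ P, y4 a = 0)
    {c12 c13 c14 c23 c24 c34 d : ℝ}
    (k12 : ∑ a ∈ P, y1 a * y2 a = P.card * c12) (k13 : ∑ a ∈ P, y1 a * y3 a = P.card * c13)
    (k14 : ∑ a ∈ P, y1 a * y4 a = P.card * c14) (k23 : ∑ a ∈ P, y2 a * y3 a = P.card * c23)
    (k24 : ∑ a ∈ P, y2 a * y4 a = P.card * c24) (k34 : ∑ a ∈ P, y3 a * y4 a = P.card * c34)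
    (kd : ∑ a ∈ P, y1 a * y2 a * y3 a * y4 a = P.card * d) (m : ℕ) :
    ∑ w ∈ tup P m, sm y1 w * sm y2 w * sm y3 w * sm y4 w =
      (P.card : ℝ) ^ m * (m * d + m * (m - 1) * (c12 * c34 + c13 * c24 + c14 * c23)) := by
  induction m with
  | zero => simp [sm]
  | succ m ih =>
    rw [sum_tup_succ]
    have e : ∀ a (w : Fin m → β), sm y1 (Fin.cons a w : Fin (m + 1) → β) *
        sm y2 (Fin.cons a w : Fin (m + 1) → β) * sm y3 (Fin.cons a w : Fin (m + 1) → β) *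
        sm y4 (Fin.cons a w : Fin (m + 1) → β) =
        (y1 a * y2 a * y3 a * y4 a) * 1 + (y1 a * y2 a * y3 a) * sm y4 w +
        (y1 a * y2 a * y4 a) * sm y3 w + (y1 a * y3 a * y4 a) * sm y2 w +
        (y2 a * y3 a * y4 a) * sm y1 w +
        (y1 a * y2 a) * (sm y3 w * sm y4 w) + (y1 a * y3 a) * (sm y2 w * sm y4 w) +
        (y1 a * y4 a) * (sm y2 w * sm y3 w) + (y2 a * y3 a) * (sm y1 w * sm y4 w) +
        (y2 a * y4 a) * (sm y1 w * sm y3 w) + (y3 a * y4 a) * (sm y1 w * sm y2 w) +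
        y1 a * (sm y2 w * sm y3 w * sm y4 w) + y2 a * (sm y1 w * sm y3 w * sm y4 w) +
        y3 a * (sm y1 w * sm y2 w * sm y4 w) + y4 a * (sm y1 w * sm y2 w * sm y3 w) +
        1 * (sm y1 w * sm y2 w * sm y3 w * sm y4 w) :=
      fun a w => by rw [sm_cons, sm_cons, sm_cons, sm_cons]; ring
    simp only [e, sum_add_distrib]
    simp only [← sum_mul_sum]
    rw [h1, h2, h3, h4, k12, k13, k14, k23, k24, k34, kd, ih, mom1 P y1 h1, mom1 P y2 h2,
      mom1 P y3 h3, mom1 P y4 h4, mom2 P y1 y2 h1 h2 k12, mom2 P y1 y3 h1 h3 k13,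
      mom2 P y1 y4 h1 h4 k14, mom2 P y2 y3 h2 h3 k23, mom2 P y2 y4 h2 h4 k24,
      mom2 P y3 y4 h3 h4 k34, sum_one_tup]
    simp only [sum_const, nsmul_eq_mul]
    push_cast
    ring

/-- `q` times the share of `b` in `P` -/
def tau (q : ℕ) (P b : Finset α) : ℝ := q * (b ∩ P).card / P.card

/-- one group of points -/
abbrev Grp (q : ℕ) (α : Type) : Type := (Fin (2 * q) → α) × (Fin q → α)

def grp (q : ℕ) (P : Finset α) : Finset (Grp q α) := tup P (2 * q) ×ˢ tup P q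

def ind (b : Finset α) (a : α) : ℝ := if a ∈ b then 1 else 0

/-- `1` when the tuple misses `b`, else `0` -/
def kil (b : Finset α) {m : ℕ} (w : Fin m → α) : ℝ := ∏ i, (1 - ind b (w i))

def uu {q : ℕ} (b : Finset α) (w : Grp q α) : ℝ := kil b w.1 * (1 - sm (ind b) w.2)

def xi {q : ℕ} (P b : Finset α) (w : Grp q α) : ℝ := kil b w.1 * (tau q P b - sm (ind b) w.2)

def kap (q : ℕ) (τ : ℝ) : ℝ := (1 - τ / q) ^ (2 * q)

omit [DecidableEq α] in
theorem card_grp (q : ℕ) (P : Finset α) :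
    ((grp q P).card : ℝ) = (P.card : ℝ) ^ (2 * q) * (P.card : ℝ) ^ q := by
  rw [grp, card_product, card_tup, card_tup]
  push_cast
  rfl

theorem sum_ind (P b : Finset α) : ∑ a ∈ P, ind b a = (b ∩ P).card := by
  unfold ind
  rw [sum_boole, filter_mem_eq_inter, inter_comm]

theorem ind_mul (b c : Finset α) (a : α) : ind b a * ind c a = ind (b ∩ c) a := by
  unfold ind
  by_cases h : a ∈ b <;> by_cases k : a ∈ c <;> simp [h, k]

theorem tau_nonneg (q : ℕ) (P b : Finset α) : 0 ≤ tau q P b := by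
  unfold tau
  positivity

theorem tau_mono (q : ℕ) (P : Finset α) {b c : Finset α} (h : b ⊆ c) : tau q P b ≤ tau q P c := by
  unfold tau
  have : ((b ∩ P).card : ℝ) ≤ (c ∩ P).card := by
    exact_mod_cast card_le_card (inter_subset_inter_right h)
  gcongr

theorem tau_le (q : ℕ) (P b : Finset α) : tau q P b ≤ q := by
  unfold tau
  have : ((b ∩ P).card : ℝ) ≤ P.card := by exact_mod_cast card_le_card inter_subset_right
  rw [mul_div_assoc]
  exact mul_le_of_le_one_right (Nat.cast_nonneg _) (div_le_one_of_le₀ this (Nat.cast_nonneg _))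

theorem sum_ind_tau {q : ℕ} (hq : 0 < q) {P : Finset α} (hP : P.Nonempty) (b : Finset α) :
    ∑ a ∈ P, ind b a = P.card * (tau q P b / q) := by
  have n0 : (0 : ℝ) < P.card := by exact_mod_cast hP.card_pos
  have q0 : (0 : ℝ) < q := by exact_mod_cast hq
  rw [sum_ind, tau]
  field_simp

theorem kil_nonneg (b : Finset α) {m : ℕ} (w : Fin m → α) : 0 ≤ kil b w :=
  prod_nonneg fun i _ => by unfold ind; split_ifs <;> norm_num

theorem kil_le (b : Finset α) {m : ℕ} (w : Fin m → α) : kil b w ≤ 1 :=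
  prod_le_one (fun i _ => by unfold ind; split_ifs <;> norm_num)
    fun i _ => by unfold ind; split_ifs <;> norm_num

theorem kil_sq (b : Finset α) {m : ℕ} (w : Fin m → α) : kil b w * kil b w = kil b w := by
  unfold kil
  rw [← prod_mul_distrib]
  exact prod_congr rfl fun i _ => by unfold ind; split_ifs <;> norm_num

theorem sum_kil {q : ℕ} (hq : 0 < q) {P : Finset α} (hP : P.Nonempty) (b : Finset α) :
    ∑ w ∈ tup P (2 * q), kil b w = (P.card : ℝ) ^ (2 * q) * kap q (tau q P b) := by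
  unfold kil
  rw [sum_tup_prod P (2 * q) fun a => 1 - ind b a, sum_sub_distrib, sum_ind_tau hq hP, kap,
    ← mul_pow]
  congr 1
  simp only [sum_const, nsmul_eq_mul]
  ring

/-- the centred indicator -/
def cen (q : ℕ) (P b : Finset α) (a : α) : ℝ := tau q P b / q - ind b a

theorem sm_cen {q : ℕ} (hq : 0 < q) (P b : Finset α) (w : Fin q → α) :
    tau q P b - sm (ind b) w = sm (cen q P b) w := by
  have q0 : (q : ℝ) ≠ 0 := by exact_mod_cast hq.ne'
  unfold sm cen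
  rw [sum_sub_distrib, sum_const, card_univ, Fintype.card_fin, nsmul_eq_mul]
  field_simp

theorem sum_cen {q : ℕ} (hq : 0 < q) {P : Finset α} (hP : P.Nonempty) (b : Finset α) :
    ∑ a ∈ P, cen q P b a = 0 := by
  unfold cen
  rw [sum_sub_distrib, sum_ind_tau hq hP, sum_const, nsmul_eq_mul, sub_self]

theorem sum_cen2 {q : ℕ} (hq : 0 < q) {P : Finset α} (hP : P.Nonempty) (b c : Finset α) :
    ∑ a ∈ P, cen q P b a * cen q P c a =
      P.card * (tau q P (b ∩ c) / q - tau q P b / q * (tau q P c / q)) := by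
  have e : ∀ a, cen q P b a * cen q P c a = tau q P b / q * (tau q P c / q) -
      tau q P b / q * ind c a - tau q P c / q * ind b a + ind (b ∩ c) a := fun a => by
    rw [← ind_mul]; unfold cen; ring
  simp only [e, sum_add_distrib, sum_sub_distrib, ← mul_sum, sum_ind_tau hq hP, sum_const,
    nsmul_eq_mul]
  ring

theorem sum_cen4 {q : ℕ} (hq : 0 < q) {P : Finset α} (hP : P.Nonempty) (b1 b2 b3 b4 : Finset α)
    (p : Finset α → ℝ) (hp : ∀ b, p b = tau q P b / q) :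
    ∑ a ∈ P, cen q P b1 a * cen q P b2 a * cen q P b3 a * cen q P b4 a =
      P.card * (p (b1 ∩ b2 ∩ b3 ∩ b4) - (p b1 * p (b2 ∩ b3 ∩ b4) + p b2 * p (b1 ∩ b3 ∩ b4) +
        p b3 * p (b1 ∩ b2 ∩ b4) + p b4 * p (b1 ∩ b2 ∩ b3)) +
        (p b1 * p b2 * p (b3 ∩ b4) + p b1 * p b3 * p (b2 ∩ b4) + p b1 * p b4 * p (b2 ∩ b3) +
        p b2 * p b3 * p (b1 ∩ b4) + p b2 * p b4 * p (b1 ∩ b3) + p b3 * p b4 * p (b1 ∩ b2)) -
        3 * (p b1 * p b2 * p b3 * p b4)) := by
  have e : ∀ a, cen q P b1 a * cen q P b2 a * cen q P b3 a * cen q P b4 a =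
      ind (b1 ∩ b2 ∩ b3 ∩ b4) a - (p b1 * ind (b2 ∩ b3 ∩ b4) a + p b2 * ind (b1 ∩ b3 ∩ b4) a +
        p b3 * ind (b1 ∩ b2 ∩ b4) a + p b4 * ind (b1 ∩ b2 ∩ b3) a) +
        (p b1 * p b2 * ind (b3 ∩ b4) a + p b1 * p b3 * ind (b2 ∩ b4) a +
        p b1 * p b4 * ind (b2 ∩ b3) a + p b2 * p b3 * ind (b1 ∩ b4) a +
        p b2 * p b4 * ind (b1 ∩ b3) a + p b3 * p b4 * ind (b1 ∩ b2) a) -
        (p b1 * p b2 * p b3 * ind b4 a + p b1 * p b2 * p b4 * ind b3 a +
        p b1 * p b3 * p b4 * ind b2 a + p b2 * p b3 * p b4 * ind b1 a) +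
        p b1 * p b2 * p b3 * p b4 := fun a => by
    simp only [← ind_mul, cen, ← hp]
    ring
  simp only [e, sum_add_distrib, sum_sub_distrib, ← mul_sum, sum_ind_tau hq hP, sum_const,
    nsmul_eq_mul, ← hp]
  ring

section sums

variable {q : ℕ} (hq : 0 < q) {P : Finset α} (hP : P.Nonempty)
include hq hP

theorem sum_uu (b : Finset α) : ∑ w ∈ grp q P, uu b w =
    (grp q P).card * (kap q (tau q P b) * (1 - tau q P b)) := by
  have e : ∀ w : Fin q → α, 1 - sm (ind b) w = (1 - tau q P b) * 1 + sm (cen q P b) w :=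
    fun w => by rw [← sm_cen hq]; ring
  rw [card_grp, grp, sum_product]
  simp only [uu, ← mul_sum, ← sum_mul, e, sum_add_distrib, sum_one_tup,
    mom1 P _ (sum_cen hq hP b), sum_kil hq hP]
  ring

theorem sum_var (b : Finset α) : ∑ w ∈ tup P q, sm (cen q P b) w * sm (cen q P b) w =
    (P.card : ℝ) ^ q * (tau q P b * (1 - tau q P b / q)) := by
  have q0 : (q : ℝ) ≠ 0 := by exact_mod_cast hq.ne'
  rw [mom2 P _ _ (sum_cen hq hP b) (sum_cen hq hP b) (sum_cen2 hq hP b b), inter_self]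
  field_simp

theorem sum_xi_xi (b : Finset α) : ∑ w ∈ grp q P, xi P b w * xi P b w =
    (grp q P).card * (kap q (tau q P b) * (tau q P b * (1 - tau q P b / q))) := by
  have e : ∀ w : Grp q α, xi P b w * xi P b w =
      kil b w.1 * (sm (cen q P b) w.2 * sm (cen q P b) w.2) := fun w => by
    rw [xi, sm_cen hq]
    linear_combination (sm (cen q P b) w.2 * sm (cen q P b) w.2) * kil_sq b w.1
  rw [card_grp, grp, sum_product]
  simp only [e, ← mul_sum, ← sum_mul, sum_var hq hP, sum_kil hq hP]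
  ring

theorem sum_uu_xi (b : Finset α) : ∑ w ∈ grp q P, uu b w * xi P b w =
    (grp q P).card * (kap q (tau q P b) * (tau q P b * (1 - tau q P b / q))) := by
  have e : ∀ w : Grp q α, uu b w * xi P b w = kil b w.1 * ((1 - tau q P b) * sm (cen q P b) w.2 +
      sm (cen q P b) w.2 * sm (cen q P b) w.2) := fun w => by
    rw [xi, uu, ← sm_cen hq]
    linear_combination ((1 - sm (ind b) w.2) * (tau q P b - sm (ind b) w.2)) * kil_sq b w.1
  rw [card_grp, grp, sum_product]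
  simp only [e, ← mul_sum, ← sum_mul, sum_add_distrib, sum_var hq hP, sum_kil hq hP,
    mom1 P _ (sum_cen hq hP b)]
  ring

theorem sum_uu_uu (b : Finset α) : ∑ w ∈ grp q P, uu b w * uu b w =
    (grp q P).card * (kap q (tau q P b) *
      (tau q P b * (1 - tau q P b / q) + (1 - tau q P b) ^ 2)) := by
  have e : ∀ w : Grp q α, uu b w * uu b w = kil b w.1 * ((1 - tau q P b) ^ 2 * 1 +
      2 * (1 - tau q P b) * sm (cen q P b) w.2 +
      sm (cen q P b) w.2 * sm (cen q P b) w.2) := fun w => by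
    rw [uu, ← sm_cen hq]
    linear_combination ((1 - sm (ind b) w.2) * (1 - sm (ind b) w.2)) * kil_sq b w.1
  rw [card_grp, grp, sum_product]
  simp only [e, ← mul_sum, ← sum_mul, sum_add_distrib, sum_var hq hP, sum_kil hq hP,
    mom1 P _ (sum_cen hq hP b), sum_one_tup]
  ring

end sums

theorem m2_le {a b : ℝ} (ha : 0 ≤ a ∧ a ≤ 2) (hb : 0 ≤ b ∧ b ≤ 2) : 0 ≤ a * b ∧ a * b ≤ 4 :=
  ⟨mul_nonneg ha.1 hb.1, by nlinarith [ha.1, ha.2, hb.1, hb.2]⟩

theorem m3_le {a b c : ℝ} (ha : 0 ≤ a ∧ a ≤ 2) (hb : 0 ≤ b ∧ b ≤ 2) (hc : 0 ≤ c ∧ c ≤ 2) :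
    0 ≤ a * b * c ∧ a * b * c ≤ 8 := by
  obtain ⟨h0, h1⟩ := m2_le ha hb
  exact ⟨mul_nonneg h0 hc.1, by nlinarith [hc.1, hc.2]⟩

theorem pair_le {Q a b c d X Y : ℝ} (hQ : 2 ≤ Q) (ha : 0 ≤ a ∧ a ≤ 2) (hb : 0 ≤ b ∧ b ≤ 2)
    (hc : 0 ≤ c ∧ c ≤ 2) (hd : 0 ≤ d ∧ d ≤ 2) (hX : 0 ≤ X ∧ X ≤ 2) (hY : 0 ≤ Y ∧ Y ≤ 2) :
    |Q * (Q - 1) * ((X / Q - a / Q * (b / Q)) * (Y / Q - c / Q * (d / Q)))| ≤ X * Y + 24 / Q := by
  have Q0 : 0 < Q := by linarith
  obtain ⟨u, hu⟩ : ∃ u, u = 1 / Q := ⟨_, rfl⟩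
  have u0 : 0 < u := by rw [hu]; positivity
  have u1 : u ≤ 1 / 2 := by rw [hu]; exact one_div_le_one_div_of_le two_pos hQ
  have e : Q * (Q - 1) * ((X / Q - a / Q * (b / Q)) * (Y / Q - c / Q * (d / Q))) =
      (1 - u) * ((X - a * b * u) * (Y - c * d * u)) := by rw [hu]; field_simp
  obtain ⟨k0, k1⟩ := m2_le ha hb
  obtain ⟨l0, l1⟩ := m2_le hc hd
  have h1 : |X - a * b * u| ≤ X + 4 * u := abs_le.2 ⟨by nlinarith [hX.1], by nlinarith⟩
  have h2 : |Y - c * d * u| ≤ Y + 4 * u := abs_le.2 ⟨by nlinarith [hY.1], by nlinarith⟩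
  have h3 : |1 - u| ≤ 1 := abs_le.2 ⟨by linarith, by linarith⟩
  rw [e, abs_mul, abs_mul, show 24 / Q = 24 * u by rw [hu]; ring]
  have h4 := mul_le_mul h1 h2 (abs_nonneg _) (by linarith [hX.1])
  refine (mul_le_of_le_one_left (by positivity) h3).trans (h4.trans ?_)
  nlinarith [hX.2, hY.2]

theorem diag_le {u T M A B C : ℝ} (u0 : 0 < u) (u1 : u ≤ 1 / 2) (hT : 0 ≤ T) (hM : T ≤ M)
    (hA : 0 ≤ A ∧ A ≤ 16) (hB : 0 ≤ B ∧ B ≤ 48) (hC : 0 ≤ C ∧ C ≤ 16) :
    |T - u * A + u * (u * B) - 3 * (u * (u * (u * C)))| ≤ M + 60 * u := by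
  have b0 : 0 ≤ u * B := mul_nonneg u0.le hB.1
  have b1 : u * B ≤ 24 := by nlinarith [hB.1, hB.2]
  have c0 : 0 ≤ u * C := mul_nonneg u0.le hC.1
  have c1 : u * C ≤ 8 := by nlinarith [hC.1, hC.2]
  have c2 : 0 ≤ u * (u * C) := mul_nonneg u0.le c0
  have c3 : u * (u * C) ≤ 4 := by nlinarith
  have a1 := mul_le_mul_of_nonneg_left hA.2 u0.le
  have a2 := mul_le_mul_of_nonneg_left b1 u0.le
  have a3 := mul_le_mul_of_nonneg_left c3 u0.le
  have a4 := mul_nonneg u0.le hA.1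
  have a5 := mul_nonneg u0.le b0
  have a6 := mul_nonneg u0.le c2
  exact abs_le.2 ⟨by linarith, by linarith⟩

/-- the bound of one group -/
def bd (q : ℕ) (P b1 b2 b3 b4 : Finset α) : ℝ :=
  tau q P (b1 ∩ b2) * tau q P (b3 ∩ b4) + tau q P (b1 ∩ b3) * tau q P (b2 ∩ b4) +
    tau q P (b1 ∩ b4) * tau q P (b2 ∩ b3) + tau q P (b1 ∩ b2 ∩ b3) + 160 / q

theorem one_group {q : ℕ} (hq : 2 ≤ q) {P : Finset α} (hP : P.Nonempty) (b1 b2 b3 b4 : Finset α)
    (h1 : tau q P b1 ≤ 2) (h2 : tau q P b2 ≤ 2) (h3 : tau q P b3 ≤ 2) (h4 : tau q P b4 ≤ 2) :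
    |∑ w ∈ grp q P, xi P b1 w * xi P b2 w * xi P b3 w * xi P b4 w| ≤
      (grp q P).card * bd q P b1 b2 b3 b4 := by
  have hq0 : 0 < q := by omega
  have Q2 : (2 : ℝ) ≤ q := by exact_mod_cast hq
  have Q0 : (0 : ℝ) < q := by linarith
  have e : ∀ w : Grp q α, xi P b1 w * xi P b2 w * xi P b3 w * xi P b4 w =
      (kil b1 w.1 * kil b2 w.1 * kil b3 w.1 * kil b4 w.1) * (sm (cen q P b1) w.2 *
        sm (cen q P b2) w.2 * sm (cen q P b3) w.2 * sm (cen q P b4) w.2) := fun w => by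
    simp only [xi, sm_cen hq0]
    ring
  have hk : |∑ w ∈ tup P (2 * q), kil b1 w * kil b2 w * kil b3 w * kil b4 w| ≤
      (P.card : ℝ) ^ (2 * q) := by
    rw [← sum_one_tup]
    refine (abs_sum_le_sum_abs _ _).trans (sum_le_sum fun w _ => ?_)
    have n1 := kil_nonneg b1 w
    have n2 := kil_nonneg b2 w
    have n3 := kil_nonneg b3 w
    have n4 := kil_nonneg b4 w
    rw [abs_of_nonneg (by positivity)]
    exact mul_le_one₀ (mul_le_one₀ (mul_le_one₀ (kil_le _ _) n2 (kil_le _ _)) n3 (kil_le _ _)) n4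
      (kil_le _ _)
  have hm := mom4 P _ _ _ _ (sum_cen hq0 hP b1) (sum_cen hq0 hP b2) (sum_cen hq0 hP b3)
    (sum_cen hq0 hP b4) (sum_cen2 hq0 hP b1 b2) (sum_cen2 hq0 hP b1 b3) (sum_cen2 hq0 hP b1 b4)
    (sum_cen2 hq0 hP b2 b3) (sum_cen2 hq0 hP b2 b4) (sum_cen2 hq0 hP b3 b4)
    (sum_cen4 hq0 hP b1 b2 b3 b4 _ fun _ => rfl) q
  rw [card_grp, grp, sum_product]
  simp only [e]
  rw [← sum_mul_sum, hm, abs_mul, abs_mul, abs_of_nonneg (by positivity : 0 ≤ (P.card : ℝ) ^ q),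
    mul_assoc ((P.card : ℝ) ^ (2 * q))]
  refine mul_le_mul hk (mul_le_mul_of_nonneg_left ?_ (by positivity)) (by positivity)
    (by positivity)
  have s : ∀ {b c : Finset α}, b ⊆ c → tau q P c ≤ 2 → 0 ≤ tau q P b ∧ tau q P b ≤ 2 :=
    fun h k => ⟨tau_nonneg _ _ _, (tau_mono q P h).trans k⟩
  have t1 := s Subset.rfl h1
  have t2 := s Subset.rfl h2
  have t3 := s Subset.rfl h3
  have t4 := s Subset.rfl h4
  have x12 := s (inter_subset_right (s₁ := b1)) h2
  have x13 := s (inter_subset_right (s₁ := b1)) h3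
  have x14 := s (inter_subset_right (s₁ := b1)) h4
  have x23 := s (inter_subset_right (s₁ := b2)) h3
  have x24 := s (inter_subset_right (s₁ := b2)) h4
  have x34 := s (inter_subset_right (s₁ := b3)) h4
  have y1 := m2_le t1 (s (inter_subset_right (s₁ := b2 ∩ b3)) h4)
  have y2 := m2_le t2 (s (inter_subset_right (s₁ := b1 ∩ b3)) h4)
  have y3 := m2_le t3 (s (inter_subset_right (s₁ := b1 ∩ b2)) h4)
  have y4 := m2_le t4 (s (inter_subset_right (s₁ := b1 ∩ b2)) h3)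
  have z1 := m3_le t1 t2 x34
  have z2 := m3_le t1 t3 x24
  have z3 := m3_le t1 t4 x23
  have z4 := m3_le t2 t3 x14
  have z5 := m3_le t2 t4 x13
  have z6 := m3_le t3 t4 x12
  have z7 := m3_le t1 t2 t3
  have p1 := pair_le Q2 t1 t2 t3 t4 x12 x34
  have p2 := pair_le Q2 t1 t3 t2 t4 x13 x24
  have p3 := pair_le Q2 t1 t4 t2 t3 x14 x23
  have p4 := diag_le (u := 1 / q) (by positivity) (one_div_le_one_div_of_le two_pos Q2)
    (tau_nonneg q P (b1 ∩ b2 ∩ b3 ∩ b4)) (tau_mono q P inter_subset_left)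
    (A := tau q P b1 * tau q P (b2 ∩ b3 ∩ b4) + tau q P b2 * tau q P (b1 ∩ b3 ∩ b4) +
      tau q P b3 * tau q P (b1 ∩ b2 ∩ b4) + tau q P b4 * tau q P (b1 ∩ b2 ∩ b3))
    (B := tau q P b1 * tau q P b2 * tau q P (b3 ∩ b4) +
      tau q P b1 * tau q P b3 * tau q P (b2 ∩ b4) + tau q P b1 * tau q P b4 * tau q P (b2 ∩ b3) +
      tau q P b2 * tau q P b3 * tau q P (b1 ∩ b4) + tau q P b2 * tau q P b4 * tau q P (b1 ∩ b3) +
      tau q P b3 * tau q P b4 * tau q P (b1 ∩ b2))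
    (C := tau q P b1 * tau q P b2 * tau q P b3 * tau q P b4)
    ⟨by linarith [y1.1, y2.1, y3.1, y4.1], by linarith [y1.2, y2.2, y3.2, y4.2]⟩
    ⟨by linarith [z1.1, z2.1, z3.1, z4.1, z5.1, z6.1],
      by linarith [z1.2, z2.2, z3.2, z4.2, z5.2, z6.2]⟩
    ⟨mul_nonneg z7.1 t4.1, by nlinarith [z7.1, z7.2, t4.1, t4.2]⟩
  refine le_trans (le_of_eq ?_) (((abs_add_le _ _).trans (add_le_add ((abs_add_le _ _).trans
    (add_le_add ((abs_add_le _ _).trans (add_le_add p1 p2)) p3)) p4)).trans ?_)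
  · congr 1
    field_simp
    ring
  · have : 0 < 1 / (q : ℝ) := by positivity
    rw [bd, show (24 : ℝ) / q = 24 * (1 / q) by ring, show (160 : ℝ) / q = 160 * (1 / q) by ring]
    linarith

/-- samples of `g` groups -/
def smp (q g : ℕ) (P : Finset α) : Finset (Fin g → Grp q α) := tup (grp q P) g

def FF {q g : ℕ} (b : Finset α) (W : Fin g → Grp q α) : ℝ := ∏ j, uu b (W j)

def FT {q g : ℕ} (P b : Finset α) (W : Fin g → Grp q α) : ℝ :=
  if tau q P b ≤ 2 then ∏ j, xi P b (W j) else 0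

theorem FT_zero {q g : ℕ} {P b : Finset α} (h : 2 < tau q P b) (W : Fin g → Grp q α) :
    FT P b W = 0 := if_neg (not_le.2 h)

omit [DecidableEq α] in
theorem card_smp (q g : ℕ) (P : Finset α) :
    ((smp q g P).card : ℝ) = ((grp q P).card : ℝ) ^ g := by
  rw [smp, card_tup]
  push_cast
  rfl

omit [DecidableEq α] in
theorem smp_nonempty (q g : ℕ) {P : Finset α} (hP : P.Nonempty) : (smp q g P).Nonempty := by
  have n0 : (0 : ℝ) < P.card := by exact_mod_cast hP.card_pos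
  have : (0 : ℝ) < (smp q g P).card := by rw [card_smp, card_grp]; positivity
  exact card_pos.1 (by exact_mod_cast this)

omit [DecidableEq α] in
theorem card_all [Fintype α] (q g : ℕ) :
    Fintype.card (Fin g → Grp q α) = Fintype.card α ^ (3 * q * g) := by
  simp only [Fintype.card_fun, Fintype.card_prod, Fintype.card_fin]
  ring

theorem kap_nonneg (q : ℕ) (τ : ℝ) : 0 ≤ kap q τ := by
  rw [kap, pow_mul]
  positivity

theorem kap_le {q : ℕ} (hq : 0 < q) {τ : ℝ} (h : τ ≤ q) : kap q τ ≤ Real.exp (-(2 * τ)) := by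
  have q0 : (0 : ℝ) < q := by exact_mod_cast hq
  have h1 : 0 ≤ 1 - τ / q := sub_nonneg.2 (div_le_one_of_le₀ h q0.le)
  have h2 : 1 - τ / q ≤ Real.exp (-(τ / q)) := by linarith [Real.add_one_le_exp (-(τ / q))]
  refine (pow_le_pow_left₀ h1 h2 _).trans (le_of_eq ?_)
  rw [← Real.exp_nat_mul]
  congr 1
  push_cast
  field_simp

theorem le_kap {q : ℕ} (hq : 0 < q) {τ : ℝ} (h0 : 0 ≤ τ) (h : τ ≤ 1 / 2) : 1 / 4 ≤ kap q τ := by
  have q1 : (1 : ℝ) ≤ q := by exact_mod_cast hq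
  have h1 : τ / q ≤ 1 / 2 := (div_le_self h0 q1).trans h
  have h2 := one_add_mul_le_pow (a := -(τ / q)) (by linarith) q
  rw [show 1 + (q : ℝ) * -(τ / q) = 1 - τ by field_simp; ring, ← sub_eq_add_neg] at h2
  rw [kap, mul_comm, pow_mul]
  nlinarith

theorem pow_diff {v d : ℝ} (hv : 0 ≤ v) (hd : 0 ≤ d) (h : v + d ≤ 3) (g : ℕ) :
    (v + d) ^ g - v ^ g ≤ 4 ^ g * d := by
  induction g with
  | zero => simpa using hd
  | succ g ih =>
    have h1 : v ^ g ≤ 4 ^ g := pow_le_pow_left₀ hv (by linarith) g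
    have h2 : 0 ≤ (v + d) ^ g - v ^ g := sub_nonneg.2 (pow_le_pow_left₀ hv (by linarith) g)
    have h3 := mul_le_mul h ih h2 (by norm_num)
    have h4 := mul_le_mul_of_nonneg_left h1 hd
    rw [pow_succ, pow_succ, pow_succ]
    nlinarith

section groups

variable {q g : ℕ} (hq : 2 ≤ q) {P : Finset α} (hP : P.Nonempty)
include hq hP

theorem sum_FF (b : Finset α) : ∑ W ∈ smp q g P, FF b W =
    (smp q g P).card * (kap q (tau q P b) * (1 - tau q P b)) ^ g := by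
  rw [card_smp, smp]
  simp only [FF]
  rw [sum_tup_prod (grp q P) g (uu b), sum_uu (by omega) hP, mul_pow]

theorem signal0 (hg : Odd g) (b : Finset α) :
    (∑ W ∈ smp q g P, FF b W) * (tau q P b - 1) ≤ 0 := by
  have h1 : 0 ≤ (1 - tau q P b) ^ (g + 1) := hg.add_one.pow_nonneg _
  have h2 := pow_nonneg (kap_nonneg q (tau q P b)) g
  have h3 := mul_nonneg (Nat.cast_nonneg (α := ℝ) (smp q g P).card) (mul_nonneg h2 h1)
  rw [sum_FF hq hP, mul_pow]
  rw [pow_succ] at h3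
  linarith

theorem signal1 (_hg : Odd g) (b : Finset α) (h : tau q P b ≤ 1 / 2) :
    (∑ W ∈ smp q g P, FF b W) * (tau q P b - 1) ≤ -((smp q g P).card / (2 * 8 ^ g)) := by
  have h1 := le_kap (q := q) (by omega) (tau_nonneg q P b) h
  have h2 : (1 / 8 : ℝ) ≤ kap q (tau q P b) * (1 - tau q P b) := by nlinarith
  have h3 := pow_le_pow_left₀ (by norm_num) h2 g
  have h4 : (1 / 8 : ℝ) ^ g * (1 / 2) ≤
      (kap q (tau q P b) * (1 - tau q P b)) ^ g * (1 - tau q P b) :=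
    mul_le_mul h3 (by linarith) (by norm_num) (le_trans (by positivity) h3)
  have h5 := mul_le_mul_of_nonneg_left h4 (Nat.cast_nonneg (α := ℝ) (smp q g P).card)
  rw [sum_FF hq hP, show ((smp q g P).card : ℝ) / (2 * 8 ^ g) =
    (smp q g P).card * ((1 / 8 : ℝ) ^ g * (1 / 2)) by rw [one_div, inv_pow]; field_simp]
  linarith

theorem ltwo (b : Finset α) : ∑ W ∈ smp q g P, (FF b W - FT P b W) ^ 2 ≤
    (smp q g P).card * (4 ^ g * (tau q P b - 1) ^ 2) := by
  have hq0 : 0 < q := by omega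
  have q0 : (0 : ℝ) < q := by exact_mod_cast hq0
  have t0 := tau_nonneg q P b
  have k0 := kap_nonneg q (tau q P b)
  have k1 := kap_le hq0 (tau_le q P b)
  have v0 : 0 ≤ tau q P b * (1 - tau q P b / q) :=
    mul_nonneg t0 (sub_nonneg.2 (div_le_one_of_le₀ (tau_le q P b) q0.le))
  have v1 : tau q P b * (1 - tau q P b / q) ≤ tau q P b :=
    mul_le_of_le_one_right t0 (sub_le_self _ (by positivity))
  have s1 := sum_tup_prod (grp q P) g fun w => uu b w * uu b w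
  rw [sum_uu_uu hq0 hP, mul_pow] at s1
  rw [card_smp, smp]
  by_cases h : tau q P b ≤ 2
  · have s2 := sum_tup_prod (grp q P) g fun w => uu b w * xi P b w
    have s3 := sum_tup_prod (grp q P) g fun w => xi P b w * xi P b w
    rw [sum_uu_xi hq0 hP, mul_pow] at s2
    rw [sum_xi_xi hq0 hP, mul_pow] at s3
    have e : ∀ W : Fin g → Grp q α, (FF b W - FT P b W) ^ 2 = ∏ j, uu b (W j) * uu b (W j) -
        2 * ∏ j, uu b (W j) * xi P b (W j) + ∏ j, xi P b (W j) * xi P b (W j) := fun W => by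
      simp only [prod_mul_distrib, FF, FT, if_pos h]
      ring
    simp only [e, sum_add_distrib, sum_sub_distrib, ← mul_sum]
    rw [s1, s2, s3]
    have k2 : kap q (tau q P b) ^ g ≤ 1 :=
      pow_le_one₀ k0 (k1.trans (Real.exp_le_one_iff.2 (by linarith)))
    have d1 := pow_diff v0 (sq_nonneg (1 - tau q P b)) (by nlinarith) g
    have d2 : kap q (tau q P b) ^ g * ((tau q P b * (1 - tau q P b / q) + (1 - tau q P b) ^ 2) ^ g -
        (tau q P b * (1 - tau q P b / q)) ^ g) ≤ 4 ^ g * (1 - tau q P b) ^ 2 :=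
      (mul_le_mul_of_nonneg_left d1 (pow_nonneg k0 g)).trans
        (mul_le_of_le_one_left (by positivity) k2)
    have d3 := mul_le_mul_of_nonneg_left d2 (show (0 : ℝ) ≤ ((grp q P).card : ℝ) ^ g by positivity)
    rw [mul_pow (kap q (tau q P b)), mul_pow (kap q (tau q P b)),
      show (tau q P b - 1) ^ 2 = (1 - tau q P b) ^ 2 by ring]
    linarith
  · have e : ∀ W : Fin g → Grp q α, (FF b W - FT P b W) ^ 2 = ∏ j, uu b (W j) * uu b (W j) :=
      fun W => by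
        simp only [prod_mul_distrib, FF, FT, if_neg h]
        ring
    simp only [e]
    rw [s1]
    refine mul_le_mul_of_nonneg_left ?_ (by positivity)
    rw [not_le] at h
    have a1 : tau q P b ≤ Real.exp (tau q P b) := by linarith [Real.add_one_le_exp (tau q P b)]
    have a2 : tau q P b ^ 2 ≤ Real.exp (2 * tau q P b) := by
      rw [two_mul, Real.exp_add, sq]
      exact mul_le_mul a1 a1 t0 (Real.exp_pos _).le
    have a3 : kap q (tau q P b) * (tau q P b * (1 - tau q P b / q) + (1 - tau q P b) ^ 2) ≤ 1 := by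
      refine (mul_le_mul k1 (le_trans (by nlinarith) a2) (by positivity)
        (Real.exp_pos _).le).trans (le_of_eq ?_)
      rw [← Real.exp_add, neg_add_cancel, Real.exp_zero]
    refine (pow_le_one₀ (by positivity) a3).trans ?_
    exact one_le_mul_of_one_le_of_one_le (one_le_pow₀ (by norm_num)) (by nlinarith)

theorem four (b1 b2 b3 b4 : Finset α) (h1 : tau q P b1 ≤ 2) (h2 : tau q P b2 ≤ 2)
    (h3 : tau q P b3 ≤ 2) (h4 : tau q P b4 ≤ 2) :
    |∑ W ∈ smp q g P, FT P b1 W * FT P b2 W * FT P b3 W * FT P b4 W| ≤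
      (smp q g P).card * bd q P b1 b2 b3 b4 ^ g := by
  have s := sum_tup_prod (grp q P) g fun w => xi P b1 w * xi P b2 w * xi P b3 w * xi P b4 w
  simp only [prod_mul_distrib] at s
  simp only [FT, if_pos h1, if_pos h2, if_pos h3, if_pos h4]
  rw [card_smp, smp, s, abs_pow, ← mul_pow]
  exact pow_le_pow_left₀ (abs_nonneg _) (one_group hq hP b1 b2 b3 b4 h1 h2 h3 h4) g

end groups

end

end Pool.Agent.Work.MP_e10cd8_co.Gap.One
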