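import Pool.Agent.Work.MP_e10cd8_co.Far.Main
import Pool.Agent.Work.MP_e10cd8_co.Gap.BWt
import Pool.Agent.Work.MP_e10cd8_co.Gap.One

-- merged part: Pool.Agent.Work.MP_e10cd8_co.Uni.LKL
section

end

-- merged part: Pool.Agent.Work.MP_e10cd8_co.Gap.KDefs
section
/-!
Definitions for the containers at sharp cost. Paper: team store file h70_e10cd8_gap.md, part A.
-/

namespace Pool.Agent.Work.MP_e10cd8_co.Gap

open Finset Four All Uni

noncomputable section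

/-- mean of `f` over `Ω` -/
def Av {ω : Type} (Ω : Finset ω) (f : ω → ℝ) : ℝ := (∑ w ∈ Ω, f w) / Ω.card

/-- tuples of length `N` with entries in `Ω` -/
def tup {ω : Type} (N : ℕ) (Ω : Finset ω) : Finset (Fin N → ω) := Fintype.piFinset fun _ => Ω

/-- all groups of sample points in `P`: `2 q` points that kill and `q` points that are counted -/
def grp {Pt : Type} (q : ℕ) (P : Finset Pt) : Finset ((Fin (2 * q) → Pt) × (Fin q → Pt)) :=
  tup (2 * q) P ×ˢ tup q P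

/-- loss of one level of the recursion -/
def cW (t : ℕ) (Γ Om : ℝ) : ℝ :=
  2 * (Real.exp (400 * (t + 1)) * (8000 * (t : ℝ) ^ 3 * Γ) ^ 4 * (16 * t * Om) ^ 8)

variable {q t r : ℕ} {Pt Pt' : Type} [Fintype Pt] [DecidableEq Pt] (G : GP q t Pt)

/-- containers at sharp cost -/
def KLs (x A Γ : ℝ) : Prop :=
  ∀ Om : ℝ, 1 ≤ Om → ∃ F : Finset (Finset Pt),
    (F.card : ℝ) ≤ Real.exp (A * t * q * Real.log q * (t + lam q Om)) ∧
      G.Cont x Om Γ (fun _ => True) F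

def NN (Y : Finset Pt) (f : Pt → ℝ) (a : Pt) : ℝ := ∑ b ∈ Y, f b * psi G a b

def tb (P : Finset Pt) (b : Pt) : ℝ := ms q P (G.pl b)

def kil (γ : (Fin (2 * q) → Pt) × (Fin q → Pt)) (b : Pt) : ℝ := ∏ i, (1 - ind (γ.1 i ∈ G.pl b))

def cn (γ : (Fin (2 * q) → Pt) × (Fin q → Pt)) (b : Pt) : ℝ := ∑ i, ind (γ.2 i ∈ G.pl b)

/-- the centred factor of one group -/
def xc (P : Finset Pt) (γ : (Fin (2 * q) → Pt) × (Fin q → Pt)) (b : Pt) : ℝ :=
  kil G γ b * (tb G P b - cn G γ b)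

/-- the test function of the decoder -/
def FF {g : ℕ} (T : Fin g → (Fin (2 * q) → Pt) × (Fin q → Pt)) (b : Pt) : ℝ :=
  ∏ j, kil G (T j) b * (1 - cn G (T j) b)

/-- its centred part -/
def FT (P : Finset Pt) {g : ℕ} (T : Fin g → (Fin (2 * q) → Pt) × (Fin q → Pt)) (b : Pt) : ℝ :=
  ind (tb G P b ≤ 2) * ∏ j, xc G P (T j) b

def k2 (P Y : Finset Pt) (J : ℕ) (h : Pt) : ℝ := ∑ b ∈ Y.erase h, XX G P h b ^ J

def PW (P Y : Finset Pt) (J : ℕ) : ℝ := ∑ b ∈ Y, ∑ h ∈ univ.erase b, XX G P b h ^ J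

/-- side conditions of the fourth moment method -/
structure CP (P Y : Finset Pt) (r : ℕ) (K : ℝ) : Prop where
  hq : 4096 ≤ q
  hn : q ≤ P.card
  hn2 : (P.card : ℝ) ^ 2 ≤ 2 * (q : ℝ) ^ (t + 1)
  hr : 6 * r + 8 ≤ t + 1
  hv : ∑ h, (tb G P h / q) ^ (4 * (t + 1)) ≤ 2 ^ (4 * (t + 1) + 2) * (q : ℝ) ^ r
  hK : 1 ≤ K
  hY : (Y.card : ℝ) * P.card ≤ K * (q : ℝ) ^ (t + r + 2)

/-- points outside the centre that project into `X'` -/
def cone (z : Fin r → Pt) (p : Pt → Pt') (X' : Finset Pt') : Finset Pt :=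
  sel fun a => okz G z a ∧ p a ∈ X'

/-- points of `U` that project into `X'` and are alone in their fibre -/
def unq (z : Fin r → Pt) (p : Pt → Pt') (U : Finset Pt) (X' : Finset Pt') : Finset Pt :=
  selIn U fun a => okz G z a ∧ p a ∈ X' ∧ ∀ a' ∈ U, okz G z a' → p a' = p a → a' = a

end

end Pool.Agent.Work.MP_e10cd8_co.Gap
end

-- merged part: Pool.Agent.Work.MP_e10cd8_co.Gap.Desc
section
/-! One generic projection. Paper: team store file h70_e10cd8_gap.md, part A2. -/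

namespace Pool.Agent.Work.MP_e10cd8_co.Gap

open Finset Four All Uni

variable {q t s r : ℕ} {Pt Pt' : Type} [Fintype Pt] [DecidableEq Pt] [Fintype Pt'] [DecidableEq Pt']

theorem Ds_mk {α : Type} [Fintype α] (g : α → ℝ) (g0 : ∀ z, 0 ≤ g z) (y : ℝ) :
    ((sel fun z => y < g z).card : ℝ) * y ≤ ∑ z, g z := by
  rw [card_sel, sum_mul]
  refine sum_le_sum fun z _ => ?_
  by_cases k : y < g z
  · rw [ind_pos k, one_mul]
    exact k.le
  · rw [ind_neg k, zero_mul]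
    exact g0 z

theorem Ds_var (G : GP q t Pt) (S : Finset Pt) {r : ℕ} (hr : r ≤ t) :
    ∑ z : Fin r → Pt, ((Fintype.card Pt : ℝ) ^ r * thr G S z - S.card * (gs q t : ℝ) ^ r) ^ 2 ≤
      ((Fintype.card Pt : ℝ) ^ r) ^ 2 * (S.card * (gs q t : ℝ) ^ r) := by
  obtain ⟨-, -, g3⟩ := gs_bounds G hr
  have c0 : (0 : ℝ) ≤ (Fintype.card Pt : ℝ) ^ r := by positivity
  have m1 := sum_thr G S r
  have m2 : ∑ z : Fin r → Pt, thr G S z ^ 2 ≤
      S.card * (gs q t : ℝ) ^ r + S.card * (S.card * (gs q (t - 1) : ℝ) ^ r) := by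
    simp only [thr, card_selIn, sq, sum_mul_sum]
    rw [sum_comm, ← mul_add, ← nsmul_eq_mul]
    refine sum_le_card_nsmul _ _ _ fun b hb => ?_
    rw [sum_comm]
    have : ∀ b' ∈ S, ∑ z : Fin r → Pt, ind (univ.image z ⊆ G.pl b) * ind (univ.image z ⊆ G.pl b') ≤
        (if b' = b then (gs q t : ℝ) ^ r else 0) + (gs q (t - 1) : ℝ) ^ r := fun b' _ => by
      have e : ∑ z : Fin r → Pt, ind (univ.image z ⊆ G.pl b) * ind (univ.image z ⊆ G.pl b') =
          ((G.pl b ∩ G.pl b').card : ℝ) ^ r := by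
        rw [← cnt_fun]
        refine sum_congr rfl fun z _ => ?_
        simp only [ind, subset_inter_iff]
        split_ifs <;> simp_all
      rw [e]
      split_ifs with k
      · rw [k, inter_self, G.deg]
        exact le_add_of_nonneg_right (by positivity)
      · rw [G.codeg (Ne.symm k), zero_add]
    refine (sum_le_sum this).trans (le_of_eq ?_)
    rw [sum_add_distrib, sum_ite_eq', if_pos hb, sum_const, nsmul_eq_mul]
  have cc : (Fintype.card (Fin r → Pt) : ℝ) = (Fintype.card Pt : ℝ) ^ r := by simp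
  generalize (Fintype.card Pt : ℝ) ^ r = c at *
  generalize (gs q t : ℝ) ^ r = d at *
  have : ∑ z : Fin r → Pt, (c * thr G S z - S.card * d) ^ 2 = c ^ 2 * ∑ z : Fin r → Pt,
      thr G S z ^ 2 - 2 * c * (S.card * d) * ∑ z : Fin r → Pt, thr G S z +
        c * (S.card * d) ^ 2 := by
    have u : c * (S.card * d) ^ 2 = ∑ _z : Fin r → Pt, (S.card * d) ^ 2 := by
      rw [sum_const, card_univ, nsmul_eq_mul, cc]
    rw [mul_sum, mul_sum, ← sum_sub_distrib, u, ← sum_add_distrib]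
    exact sum_congr rfl fun _ _ => by ring
  rw [this, m1]
  nlinarith [mul_le_mul_of_nonneg_left m2 (sq_nonneg c),
    mul_le_mul_of_nonneg_left g3 (mul_nonneg c0 (sq_nonneg (S.card : ℝ)))]

omit [Fintype Pt'] [DecidableEq Pt'] in
theorem unq_card (G : GP q t Pt) (z : Fin r → Pt) (p : Pt → Pt') (U : Finset Pt)
    (X' : Finset Pt') : (unq G z p U X').card ≤ X'.card ∧ unq G z p U X' ⊆ U ∧
      unq G z p U X' ⊆ cone G z p X' := by
  refine ⟨card_le_card_of_injOn p (fun a ha => (mem_selIn.1 (mem_coe.1 ha)).2.2.1)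
    fun a ha a' ha' e => ?_, selIn_subset _ _, fun a ha =>
      mem_sel.2 ⟨(mem_selIn.1 ha).2.1, (mem_selIn.1 ha).2.2.1⟩⟩
  obtain ⟨k1, k2, -⟩ := mem_selIn.1 (mem_coe.1 ha)
  exact (mem_selIn.1 (mem_coe.1 ha')).2.2.2 a k1 k2 e

/-- a fibre lies in the span of the centre and one of its points -/
theorem cone_card {G : GP q t Pt} {G' : GP q (s + 1) Pt'} {z : Fin r → Pt} {p : Pt → Pt'}
    {f : Pt' → Pt} (h : G.rk (univ.image z) = r → MPrj G G' (univ.image z) p f)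
    (X' : Finset Pt') : ((cone G z p X').card : ℝ) ≤ 2 * (q : ℝ) ^ r * X'.card := by
  have : cone G z p X' ⊆ X'.biUnion fun y => sel fun a => okz G z a ∧ p a = y := fun a ha =>
    mem_biUnion.2 ⟨_, (mem_sel.1 ha).2, mem_sel.2 ⟨(mem_sel.1 ha).1, rfl⟩⟩
  rw [mul_comm]
  refine (Nat.cast_le.2 (card_le_card this)).trans (GP.Boost_bi _ _ _ _ (by positivity) le_rfl
    fun y _ => ?_)
  obtain e | ⟨a, ha⟩ := (sel fun a => okz G z a ∧ p a = y).eq_empty_or_nonempty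
  · rw [e, card_empty, Nat.cast_zero]
    positivity
  obtain ⟨o, rfl⟩ := mem_sel.1 ha
  have h := h o.1
  have k : (sel fun a' => okz G z a' ∧ p a' = p a) ⊆ G.cl (insert a (univ.image z)) := by
    intro a' ha'
    obtain ⟨o', e⟩ := mem_sel.1 ha'
    refine G.mem_perp.2 fun b hb => (G.symm _ _).1 ?_
    obtain ⟨k1, k2⟩ := insert_subset_iff.1 (G.mem_perp.1 hb)
    obtain ⟨b', rfl⟩ := h.surj b k2
    exact (h.inc a' o'.2 b').1 (e ▸ (h.inc a o.2 b').2 k1)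
  have k2 := G.rk_insert a (univ.image z)
  rw [o.1] at k2
  have k3 := (card_le_card k).trans ((G.card_cl _).le.trans
    (((gs_strictMono G.two_le).monotone k2).trans (gs_succ_le G.two_le r).2))
  exact_mod_cast k3

variable {G : GP q t Pt} {G' : GP q (s + 1) Pt'} {π : (Fin r → Pt) → Pt → Pt'}
  {φ : (Fin r → Pt) → Pt' → Pt}

/-- a good tuple of centres -/
theorem Ds_pick (hp : ∀ z, G.rk (univ.image z) = r → MPrj G G' (univ.image z) (π z) (φ z))
    (ht : t = s + 1 + r) {δ T : ℝ} (hδ0 : 0 < δ) (hδ : δ ≤ 1 / 10) (hq : 200 ≤ q * δ) (hT : 0 < T)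
    {U P S : Finset Pt} (hP : P.Nonempty) (hPU : P ⊆ U) (hI : ∑ b ∈ S, (G.cnt P b : ℝ) ≤ T)
    (hU : 1000 * (U.card : ℝ) ≤ δ ^ 3 * q ^ s) (hS : 1000 * (q : ℝ) ^ r ≤ δ ^ 3 * S.card) :
    ∃ z : Fin r → Pt, G.rk (univ.image z) = r ∧
      (1 - δ) * (S.card * (gs q t : ℝ) ^ r) ≤ (Fintype.card Pt : ℝ) ^ r * thr G S z ∧
      (Fintype.card Pt : ℝ) ^ r * ∑ b ∈ selIn S fun b => univ.image z ⊆ G.pl b, (G.cnt P b : ℝ) ≤
        (1 + δ) * ((gs q t : ℝ) ^ r * T) ∧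
      ((selIn P fun a => ¬ (okz G z a ∧ ∀ a' ∈ U, okz G z a' → π z a' = π z a → a' = a)).card : ℝ) ≤
        δ * P.card := by
  have q0 : (0 : ℝ) < q := by exact_mod_cast lt_of_lt_of_le two_pos G.two_le
  have hr : r ≤ t := by omega
  obtain ⟨g1, g2, -⟩ := gs_bounds G hr
  have p0 : (0 : ℝ) < P.card := Nat.cast_pos.2 hP.card_pos
  have u1 : (1 : ℝ) ≤ U.card := by exact_mod_cast (hP.mono hPU).card_pos
  have s0 := pow_pos q0 s
  have r0 := pow_pos q0 r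
  have c0 : (0 : ℝ) < (Fintype.card Pt : ℝ) ^ r :=
    pow_pos (lt_of_lt_of_le (pow_pos q0 t) G.le_card_pt) r
  have cc : ((univ : Finset (Fin r → Pt)).card : ℝ) = (Fintype.card Pt : ℝ) ^ r := by simp
  have d3 := pow_pos hδ0 3
  have S0 : (0 : ℝ) < S.card := by
    by_contra k
    nlinarith [mul_le_mul_of_nonneg_left (not_lt.1 k) d3.le]
  have b1 := degen G hr
  have b2 := (Ds_mk (fun z : Fin r → Pt => ((Fintype.card Pt : ℝ) ^ r * thr G S z -
    S.card * (gs q t : ℝ) ^ r) ^ 2) (fun _ => sq_nonneg _)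
    ((δ * (S.card * (gs q t : ℝ) ^ r)) ^ 2)).trans (Ds_var G S hr)
  have b3 := Ds_mk (fun z : Fin r → Pt => (Fintype.card Pt : ℝ) ^ r *
    ∑ b ∈ selIn S fun b => univ.image z ⊆ G.pl b, (G.cnt P b : ℝ))
    (fun _ => mul_nonneg c0.le (sum_nonneg fun _ _ => Nat.cast_nonneg _))
    ((1 + δ) * ((gs q t : ℝ) ^ r * T))
  have e3 : ∑ z : Fin r → Pt, ∑ b ∈ selIn S fun b => univ.image z ⊆ G.pl b, (G.cnt P b : ℝ) =
      (gs q t : ℝ) ^ r * ∑ b ∈ S, (G.cnt P b : ℝ) := by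
    have : ∀ z : Fin r → Pt, ∑ b ∈ selIn S fun b => univ.image z ⊆ G.pl b, (G.cnt P b : ℝ) =
        ∑ b ∈ S, ind (univ.image z ⊆ G.pl b) * (G.cnt P b : ℝ) := fun z => by
      classical
      simp only [selIn, ind, sum_filter, ite_mul, one_mul, zero_mul]
      exact sum_congr rfl fun b _ => by congr
    simp only [this]
    rw [sum_comm, mul_sum]
    exact sum_congr rfl fun b _ => by rw [← sum_mul, cnt_fun, G.deg]
  rw [← mul_sum, e3] at b3
  obtain ⟨g, hg⟩ : ∃ g : (Fin r → Pt) → ℝ, ∀ z, g z = ∑ a ∈ P,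
      (ind (¬ ∃ b, univ.image z ⊆ G.pl b ∧ a ∉ G.pl b) + ∑ a' ∈ U,
        ind (a ≠ a' ∧ okz G z a ∧ okz G z a' ∧ π z a = π z a')) := ⟨_, fun _ => rfl⟩
  have g0 : ∀ z, 0 ≤ g z := fun z => by
    rw [hg]
    exact sum_nonneg fun _ _ => add_nonneg (ind_nonneg _) (sum_nonneg fun _ _ => ind_nonneg _)
  have g4 : ∑ z, g z ≤ P.card * (8 * (Fintype.card Pt : ℝ) ^ r / q ^ s +
      U.card * (8 * (Fintype.card Pt : ℝ) ^ r / q ^ s)) := by
    simp only [hg]
    rw [sum_comm, ← nsmul_eq_mul]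
    refine sum_le_card_nsmul _ _ _ fun a _ => ?_
    rw [sum_add_distrib, ← card_sel]
    refine add_le_add (nok G ht a) ?_
    rw [sum_comm, ← nsmul_eq_mul]
    refine sum_le_card_nsmul _ _ _ fun a' _ => ?_
    by_cases e : a = a'
    · rw [sum_eq_zero fun z _ => ind_neg fun k => k.1 e]
      positivity
    · refine le_trans (le_of_eq ?_) (col hp ht a a' e)
      rw [card_selIn]
      exact sum_congr rfl fun z _ => congrArg ind (propext ⟨fun k => k.2, fun k => ⟨e, k⟩⟩)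
  have b4 := (Ds_mk g g0 (δ * P.card)).trans g4
  obtain ⟨B1, h1⟩ : ∃ B, B = sel fun z : Fin r → Pt => G.rk (univ.image z) ≠ r := ⟨_, rfl⟩
  obtain ⟨B2, h2⟩ : ∃ B, B = sel fun z : Fin r → Pt => (δ * (S.card * (gs q t : ℝ) ^ r)) ^ 2 <
    ((Fintype.card Pt : ℝ) ^ r * thr G S z - S.card * (gs q t : ℝ) ^ r) ^ 2 := ⟨_, rfl⟩
  obtain ⟨B3, h3⟩ : ∃ B, B = sel fun z : Fin r → Pt => (1 + δ) * ((gs q t : ℝ) ^ r * T) <
    (Fintype.card Pt : ℝ) ^ r *
      ∑ b ∈ selIn S fun b => univ.image z ⊆ G.pl b, (G.cnt P b : ℝ) := ⟨_, rfl⟩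
  obtain ⟨B4, h4⟩ : ∃ B, B = sel fun z : Fin r → Pt => δ * P.card < g z := ⟨_, rfl⟩
  rw [← h1] at b1
  rw [← h2] at b2
  rw [← h3] at b3
  rw [← h4] at b4
  have n1 : (0 : ℝ) ≤ B1.card := Nat.cast_nonneg _
  have n2 : (0 : ℝ) ≤ B2.card := Nat.cast_nonneg _
  have n3 : (0 : ℝ) ≤ B3.card := Nat.cast_nonneg _
  have n4 : (0 : ℝ) ≤ B4.card := Nat.cast_nonneg _
  have tot : ((B1 ∪ B2 ∪ B3 ∪ B4).card : ℝ) < (univ : Finset (Fin r → Pt)).card := by
    have k : ((B1 ∪ B2 ∪ B3 ∪ B4).card : ℝ) ≤ B1.card + B2.card + B3.card + B4.card := by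
      exact_mod_cast (card_union_le _ _).trans (Nat.add_le_add_right ((card_union_le _ _).trans
        (Nat.add_le_add_right (card_union_le _ _) _)) _)
    rw [cc]
    generalize (Fintype.card Pt : ℝ) ^ r = c at *
    generalize (gs q t : ℝ) ^ r = d at *
    generalize (q : ℝ) ^ r = w at *
    have d0 : 0 < d := by
      by_contra k
      nlinarith only [mul_le_mul_of_nonneg_right (not_lt.1 k) r0.le, g2, c0]
    have k1 : (B1.card : ℝ) ≤ δ * c / 100 := by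
      refine le_of_mul_le_mul_right ?_ q0
      nlinarith only [b1, mul_le_mul_of_nonneg_left hq c0.le]
    have k2 : (B2.card : ℝ) ≤ δ * c / 500 := by
      have v1 : (B2.card : ℝ) * (δ ^ 2 * (S.card * d)) ≤ c ^ 2 :=
        le_of_mul_le_mul_right (by linarith only [b2]) (mul_pos S0 d0)
      have v2 : 500 * c ≤ δ ^ 3 * S.card * d := by
        linarith only [g2, mul_le_mul_of_nonneg_right hS d0.le]
      refine le_of_mul_le_mul_right ?_ (mul_pos (pow_pos hδ0 2) (mul_pos S0 d0))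
      linarith only [v1, mul_le_mul_of_nonneg_left v2 c0.le]
    have k3 : (B3.card : ℝ) ≤ (1 - δ / 2) * c := by
      have v1 : (B3.card : ℝ) * (1 + δ) ≤ c := le_of_mul_le_mul_right
        (by linarith only [b3, mul_le_mul_of_nonneg_left hI (mul_pos c0 d0).le]) (mul_pos d0 hT)
      refine le_of_mul_le_mul_right (v1.trans ?_) (show 0 < 1 + δ by linarith only [hδ0])
      nlinarith only [mul_nonneg c0.le (mul_nonneg hδ0.le (show 0 ≤ 1 - δ by linarith only [hδ]))]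
    have k4 : (B4.card : ℝ) ≤ δ * c / 500 := by
      obtain ⟨e, he⟩ : ∃ e, e = 8 * c / (q : ℝ) ^ s := ⟨_, rfl⟩
      have e0 : 0 ≤ e := by rw [he]; positivity
      have e1 : e * q ^ s = 8 * c := by rw [he]; field_simp
      rw [← he] at b4
      have v1 : (B4.card : ℝ) * δ ≤ 2 * (U.card * e) := le_of_mul_le_mul_right (by
        nlinarith only [b4, mul_le_mul_of_nonneg_right u1 (mul_nonneg p0.le e0)]) p0
      have v2 : 1000 * (U.card * e) ≤ δ ^ 3 * (8 * c) := by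
        rw [← e1]
        linarith only [mul_le_mul_of_nonneg_right hU e0]
      refine le_of_mul_le_mul_right (v1.trans ?_) hδ0
      linarith only [v2, mul_le_mul_of_nonneg_left hδ (mul_nonneg (sq_nonneg δ) c0.le),
        mul_nonneg (sq_nonneg δ) c0.le]
    nlinarith only [k, k1, k2, k3, k4, mul_pos hδ0 c0]
  obtain ⟨z, -, hz⟩ := exists_mem_notMem_of_card_lt_card (Nat.cast_lt.1 tot)
  simp only [h1, h2, h3, h4, mem_union, mem_sel, not_or, not_lt, not_not] at hz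
  obtain ⟨⟨⟨z1, z2⟩, z3⟩, z4⟩ := hz
  refine ⟨z, z1, ?_, z3, le_trans ?_ z4⟩
  · have := (abs_le_of_sq_le_sq' z2 (by positivity)).1
    linarith only [this]
  · rw [hg, card_selIn]
    refine sum_le_sum fun a ha => ?_
    have n1 := ind_nonneg (¬ ∃ b, univ.image z ⊆ G.pl b ∧ a ∉ G.pl b)
    have n2 : 0 ≤ ∑ a' ∈ U, ind (a ≠ a' ∧ okz G z a ∧ okz G z a' ∧ π z a = π z a') :=
      sum_nonneg fun _ _ => ind_nonneg _
    by_cases o : okz G z a
    · by_cases k : ∀ a' ∈ U, okz G z a' → π z a' = π z a → a' = a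
      · rw [ind_neg fun u => u ⟨o, k⟩]
        linarith only [n1, n2]
      · push Not at k
        obtain ⟨a', ha', k1, k2, k3⟩ := k
        have := single_le_sum (f := fun a' => ind (a ≠ a' ∧ okz G z a ∧ okz G z a' ∧
          π z a = π z a')) (fun _ _ => ind_nonneg _) ha'
        rw [ind_pos ⟨k3.symm, o, k1, k2.symm⟩] at this
        exact (ind_le_one _).trans (by linarith only [n1, this])
    · rw [ind_pos (p := ¬ ∃ b, univ.image z ⊆ G.pl b ∧ a ∉ G.pl b) fun u => o ⟨z1, u⟩]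
      exact (ind_le_one _).trans (by linarith only [n2])

theorem desc (hp : ∀ z, G.rk (univ.image z) = r → MPrj G G' (univ.image z) (π z) (φ z))
    (ht : t = s + 1 + r) {U P S : Finset Pt} (hP : P ⊆ U) (hne : P.Nonempty) (hS : S.Nonempty)
    {δ x x' Om Om' Γ : ℝ} (hδ : 0 < δ) (hδ1 : δ ≤ 1 / 10) (hq : 200 ≤ δ * q) (hx : 0 < x)
    (hx' : x * (1 + 5 * δ) ≤ x') (hO : 0 ≤ Om) (hO' : 8 * Om ≤ δ * Om') (hΓ : 0 ≤ Γ)
    {F' : Finset (Finset Pt')} (hF : G'.Cont x' Om' Γ (fun _ => True) F')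
    (hI : ∑ b ∈ S, (G.cnt P b : ℝ) ≤ x * P.card * S.card / q)
    (hE : (q : ℝ) ^ (t + 1) ≤ P.card * S.card * Om)
    (hU : 1000 * (U.card : ℝ) ≤ δ ^ 3 * (q : ℝ) ^ s) (hS' : 1000 * (q : ℝ) ^ r ≤ δ ^ 3 * S.card) :
    ∃ z : Fin r → Pt, ∃ X' ∈ F', (X'.card : ℝ) * S.card ≤ 4 * Γ * (q : ℝ) ^ (t + 1) ∧
      δ * P.card ≤ 4 * (P ∩ unq G z (π z) U X').card := by
  have q0 : (0 : ℝ) < q := by exact_mod_cast lt_of_lt_of_le two_pos G.two_le
  have hr : r ≤ t := by omega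
  obtain ⟨g1, g2, -⟩ := gs_bounds G hr
  have r0 := pow_pos q0 r
  have t0 := pow_pos q0 (t + 1)
  have c0 : (0 : ℝ) < (Fintype.card Pt : ℝ) ^ r :=
    pow_pos (lt_of_lt_of_le (pow_pos q0 t) G.le_card_pt) r
  have p0 : (0 : ℝ) < P.card := Nat.cast_pos.2 hne.card_pos
  have S0 : (0 : ℝ) < S.card := Nat.cast_pos.2 hS.card_pos
  obtain ⟨z, z1, z2, z3, z4⟩ := Ds_pick hp ht hδ hδ1 (mul_comm δ q ▸ hq) (by positivity) hne hP hI
    hU hS'
  have h := hp z z1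
  obtain ⟨Sz, hSz⟩ : ∃ Sz, Sz = selIn S fun b => univ.image z ⊆ G.pl b := ⟨_, rfl⟩
  have e0 : thr G S z = Sz.card := by rw [hSz]; rfl
  rw [e0] at z2
  rw [← hSz] at z3
  obtain ⟨c'⟩ : Nonempty Pt' := Fintype.card_pos_iff.1 (by rw [G'.card_pt, gs_succ]; omega)
  have hσ : ∀ b, ∃ b', b ∈ Sz → φ z b' = b := fun b => by
    by_cases k : b ∈ Sz
    · rw [hSz] at k
      obtain ⟨b', e⟩ := h.surj b (mem_selIn.1 k).2
      exact ⟨b', fun _ => e⟩
    · exact ⟨c', fun u => absurd u k⟩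
  choose σ hσ using hσ
  have i1 : Set.InjOn σ Sz := fun b hb b' hb' e => by
    rw [← hσ b hb, ← hσ b' hb', e]
  have e1 : (Sz.image σ).card = Sz.card := card_image_of_injOn i1
  have e2 : ∀ a, okz G z a → G'.cnt (Sz.image σ) (π z a) ≤ G.cnt Sz a := fun a o => by
    refine le_trans (card_le_card (t := (G.pl a ∩ Sz).image σ) fun u hu => ?_) card_image_le
    obtain ⟨b, hb, rfl⟩ := mem_image.1 (mem_inter.1 hu).2
    refine mem_image_of_mem _ (mem_inter.2 ⟨(G.symm _ _).1 ?_, hb⟩)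
    rw [← hσ b hb]
    exact (h.inc a o.2 _).1 ((G'.symm _ _).1 (mem_inter.1 hu).1)
  obtain ⟨ok, hok⟩ : ∃ ok : Pt → Prop, ∀ a, ok a ↔
    (okz G z a ∧ ∀ a' ∈ U, okz G z a' → π z a' = π z a → a' = a) := ⟨_, fun _ => Iff.rfl⟩
  simp only [← hok] at z4
  obtain ⟨Pl, hPl⟩ : ∃ Pl, Pl = selIn P fun a => ok a ∧ π z a ∈ G'.low x' (Sz.image σ) := ⟨_, rfl⟩
  obtain ⟨Ph, hPh⟩ : ∃ Ph, Ph = selIn P fun a => ok a ∧ π z a ∉ G'.low x' (Sz.image σ) := ⟨_, rfl⟩
  have e3 : (P.card : ℝ) ≤ Pl.card + Ph.card + (selIn P fun a => ¬ ok a).card := by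
    have : P ⊆ Pl ∪ Ph ∪ selIn P fun a => ¬ ok a := fun a ha => by
      simp only [hPl, hPh, mem_union, mem_selIn]
      tauto
    exact_mod_cast (card_le_card this).trans ((card_union_le _ _).trans
      (Nat.add_le_add_right (card_union_le _ _) _))
  have e4 : (Ph.card : ℝ) * (x' * Sz.card / q) ≤ ∑ b ∈ Sz, (G.cnt P b : ℝ) := by
    have k : ∑ b ∈ Sz, (G.cnt P b : ℝ) = ∑ a ∈ P, (G.cnt Sz a : ℝ) := by
      exact_mod_cast G.sum_cnt_comm P Sz
    rw [k, ← nsmul_eq_mul, ← sum_const]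
    refine le_trans (sum_le_sum fun a ha => ?_) (sum_le_sum_of_subset_of_nonneg
      (hPh ▸ selIn_subset _ _ : Ph ⊆ P) fun a _ _ => Nat.cast_nonneg _)
    obtain ⟨-, k1, k2⟩ := mem_selIn.1 (hPh ▸ ha)
    rw [G'.mem_low, not_le, e1] at k2
    exact k2.le.trans (Nat.cast_le.2 (e2 a ((hok a).1 k1).1))
  have e5 : (Pl.card : ℝ) ≤ (G'.low x' (Sz.image σ)).card := by
    refine Nat.cast_le.2 (card_le_card_of_injOn (π z) (fun a ha => ?_) fun a ha a' ha' e => ?_)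
    · exact (mem_selIn.1 (hPl ▸ mem_coe.1 ha)).2.2
    · obtain ⟨k1, k2, -⟩ := mem_selIn.1 (hPl ▸ mem_coe.1 ha)
      obtain ⟨-, k3, -⟩ := mem_selIn.1 (hPl ▸ mem_coe.1 ha')
      exact ((hok a').1 k3).2 a (hP k1) ((hok a).1 k2).1 e
  have w1 : (q : ℝ) ^ (t + 1) = q ^ (s + 1 + 1) * q ^ r := by
    rw [← pow_add]
    congr 1
    omega
  have w0 := pow_pos q0 (s + 1 + 1)
  generalize (Fintype.card Pt : ℝ) ^ r = c at *
  generalize (gs q t : ℝ) ^ r = d at *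
  have d0 : 0 < d := by
    by_contra k
    nlinarith only [mul_le_mul_of_nonneg_right (not_lt.1 k) r0.le, g2, c0]
  have m1 : 9 * (S.card : ℝ) ≤ 20 * (q ^ r * Sz.card) := by
    refine le_of_mul_le_mul_right ?_ d0
    nlinarith only [z2, mul_le_mul_of_nonneg_right g2 (Nat.cast_nonneg (α := ℝ) Sz.card),
      mul_le_mul_of_nonneg_right hδ1 (mul_pos S0 d0).le]
  have m0 : (0 : ℝ) < Sz.card := by
    by_contra k
    nlinarith only [m1, S0, mul_le_mul_of_nonneg_left (not_lt.1 k) r0.le]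
  have l0 : (0 : ℝ) ≤ Ph.card := Nat.cast_nonneg _
  have m2 : (Ph.card : ℝ) * ((1 + 5 * δ) * (1 - δ)) ≤ (1 + δ) * P.card := by
    have k1 : (Ph.card : ℝ) * (x * (1 + 5 * δ) * Sz.card / q) ≤ ∑ b ∈ Sz, (G.cnt P b : ℝ) :=
      le_trans (by gcongr) e4
    have k2 := (mul_le_mul_of_nonneg_left k1 c0.le).trans z3
    have k3 := mul_le_mul_of_nonneg_left z2
      (show 0 ≤ Ph.card * (x * (1 + 5 * δ)) / q by positivity)
    refine le_of_mul_le_mul_right ?_ (show 0 < x * (S.card * d) / q by positivity)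
    calc _ = Ph.card * (x * (1 + 5 * δ)) / q * ((1 - δ) * (S.card * d)) := by ring
      _ ≤ _ := k3
      _ = c * (Ph.card * (x * (1 + 5 * δ) * Sz.card / q)) := by ring
      _ ≤ _ := k2
      _ = _ := by ring
  have m3 : δ * P.card ≤ 2 * Pl.card := by
    have k0 : 0 < (1 + 5 * δ) * (1 - δ) := mul_pos (by linarith only [hδ]) (by linarith only [hδ1])
    have k1 : 1 + δ ≤ (1 - 3 * δ / 2) * ((1 + 5 * δ) * (1 - δ)) := by
      nlinarith only [hδ, hδ1, mul_pos hδ hδ, mul_pos hδ (mul_pos hδ hδ),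
        mul_le_mul_of_nonneg_left hδ1 hδ.le]
    have k2 : (Ph.card : ℝ) ≤ (1 - 3 * δ / 2) * P.card := le_of_mul_le_mul_right
      (m2.trans (by linarith only [mul_le_mul_of_nonneg_right k1 p0.le])) k0
    linarith only [k2, e3, z4]
  obtain ⟨X, hX, a1, a2⟩ := hF (Sz.image σ) trivial ⟨card_pos.1 (by
    rw [e1]; exact Nat.cast_pos.1 m0), by
      rw [e1]
      refine le_of_mul_le_mul_right ?_ r0
      have o0 : 0 ≤ Om' := by
        by_contra k
        nlinarith only [hO', hO, mul_pos hδ (neg_pos.2 (not_le.1 k))]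
      have k1 : δ * P.card ≤ 2 * (G'.low x' (Sz.image σ)).card := by linarith only [m3, e5]
      have k2 := mul_le_mul k1 m1 (by positivity) (by positivity)
      have k3 := mul_le_mul_of_nonneg_right k2 o0
      have k4 := mul_le_mul_of_nonneg_left hO' (mul_pos p0 S0).le
      rw [← w1]
      nlinarith only [k3, k4, hE, t0]⟩
  refine ⟨z, X, hX, ?_, m3.trans ?_⟩
  · rw [e1] at a2
    rw [w1]
    nlinarith only [mul_le_mul_of_nonneg_left m1 (Nat.cast_nonneg (α := ℝ) X.card),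
      mul_le_mul_of_nonneg_right a2 r0.le, mul_nonneg hΓ (mul_pos w0 r0).le]
  · have : Pl ⊆ P ∩ unq G z (π z) U X := fun a ha => by
      obtain ⟨k1, k2, k3⟩ := mem_selIn.1 (hPl ▸ ha)
      exact mem_inter.2 ⟨k1, mem_selIn.2 ⟨hP k1, ((hok a).1 k2).1, a1 k3, ((hok a).1 k2).2⟩⟩
    have k := (Nat.cast_le (α := ℝ)).2 (card_le_card this)
    linarith only [k, Nat.cast_nonneg (α := ℝ) Pl.card]

end Pool.Agent.Work.MP_e10cd8_co.Gap
end

-- merged part: Pool.Agent.Work.MP_e10cd8_co.Gap.Pen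
section
/-! Masses, partners and pencils. -/

namespace Pool.Agent.Work.MP_e10cd8_co.Gap

open Finset Four All Uni

variable {q t : ℕ} {Pt : Type} [Fintype Pt] [DecidableEq Pt] (G : GP q t Pt) {P : Finset Pt}

omit [Fintype Pt] in
theorem ms_nonneg (q : ℕ) (P A : Finset Pt) : 0 ≤ ms q P A := by
  unfold ms
  positivity

omit [Fintype Pt] in
theorem ms_mono (q : ℕ) (P : Finset Pt) {A B : Finset Pt} (h : A ⊆ B) : ms q P A ≤ ms q P B := by
  have h1 : ((A ∩ P).card : ℝ) ≤ (B ∩ P).card := by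
    exact_mod_cast card_le_card (inter_subset_inter_right h)
  unfold ms
  gcongr

omit [Fintype Pt] in
theorem ms_le (q : ℕ) (P A : Finset Pt) : ms q P A ≤ q := by
  have h1 : ((A ∩ P).card : ℝ) ≤ P.card := by exact_mod_cast card_le_card inter_subset_right
  exact div_le_of_le_mul₀ (Nat.cast_nonneg _) (Nat.cast_nonneg _)
    (mul_le_mul_of_nonneg_left h1 (Nat.cast_nonneg _))

theorem ms_univ (q : ℕ) (hP : P.Nonempty) : ms q P univ = q := by
  have h1 : (P.card : ℝ) ≠ 0 := by exact_mod_cast hP.card_pos.ne'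
  rw [ms, univ_inter, mul_div_assoc, div_self h1, mul_one]

theorem XX_comm (P : Finset Pt) (b h : Pt) : XX G P b h = XX G P h b := by
  rw [XX, XX, inter_comm]

theorem XX_le (P : Finset Pt) (b h : Pt) : 0 ≤ XX G P b h ∧ XX G P b h ≤ tb G P b := by
  exact ⟨ms_nonneg _ _ _, ms_mono _ _ inter_subset_left⟩

theorem tb_low (hP : P.Nonempty) {x : ℝ} {b : Pt} : b ∈ G.low x P ↔ tb G P b ≤ x := by
  have h1 : (0 : ℝ) < P.card := by exact_mod_cast hP.card_pos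
  have hq : (2 : ℝ) ≤ q := by exact_mod_cast G.two_le
  rw [G.mem_low, tb, ms, div_le_iff₀ h1, le_div_iff₀ (by linarith), mul_comm]
  rfl

/-- `mix_cnt` for `A ∩ P`, times `(q / n) ^ 2` -/
theorem mix_ms (hP : P.Nonempty) (A : Finset Pt) :
    ∑ b, (ms q P (A ∩ G.pl b) - ms q P A / q) ^ 2 ≤ ms q P A * ((q : ℝ) ^ t / P.card) := by
  have h1 : (0 : ℝ) < P.card := by exact_mod_cast hP.card_pos
  have hq : (2 : ℝ) ≤ q := by exact_mod_cast G.two_le
  have hq0 : (0 : ℝ) < q := by linarith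
  have h2 := mul_le_mul_of_nonneg_left (G.mix_cnt (A ∩ P)) (sq_nonneg ((q : ℝ) / P.card))
  rw [mul_sum] at h2
  refine le_of_eq_of_le (sum_congr rfl fun b _ => ?_) (h2.trans_eq ?_)
  · rw [ms, ms, GP.cnt, inter_comm A, inter_assoc]
    field_simp
  · rw [ms]
    field_simp

/-- `mix_ms` with `A = univ` -/
theorem mix_tb (hP : P.Nonempty) : ∑ b, (tb G P b - 1) ^ 2 ≤ (q : ℝ) ^ (t + 1) / P.card := by
  have hq : (2 : ℝ) ≤ q := by exact_mod_cast G.two_le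
  have h := mix_ms G hP univ
  rw [ms_univ q hP, div_self (by linarith), ← mul_div_assoc, ← pow_succ'] at h
  simpa only [univ_inter, tb] using h

/-- for `2 α / q < X ≤ 2` we have `X ^ i ≤ 2 ^ (i - 2) X ^ 2 ≤ 2 ^ i (X - α / q) ^ 2`; `mix_ms` -/
theorem part_hi (hP : P.Nonempty) (A : Finset Pt) {i : ℕ} (hi : 2 ≤ i) :
    ∑ b, ind (2 * ms q P A / q < ms q P (A ∩ G.pl b) ∧ ms q P (A ∩ G.pl b) ≤ 2) *
      ms q P (A ∩ G.pl b) ^ i ≤ 2 ^ i * ms q P A * ((q : ℝ) ^ t / P.card) := by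
  rw [mul_assoc]
  refine le_trans (sum_le_sum fun b _ => ?_)
    ((mul_sum _ _ _).ge.trans (mul_le_mul_of_nonneg_left (mix_ms G hP A) (by positivity)))
  by_cases h : 2 * ms q P A / q < ms q P (A ∩ G.pl b) ∧ ms q P (A ∩ G.pl b) ≤ 2
  · obtain ⟨k, rfl⟩ := Nat.exists_eq_add_of_le' hi
    have h0 := ms_nonneg q P (A ∩ G.pl b)
    have h1 := pow_le_pow_left₀ h0 h.2 k
    have h2 := h.1
    rw [mul_div_assoc] at h2
    rw [ind_pos h, one_mul, pow_add, pow_add, mul_assoc]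
    refine mul_le_mul h1 ?_ (sq_nonneg _) (by positivity)
    rw [← mul_pow]
    exact pow_le_pow_left₀ h0 (by linarith) 2
  · rw [ind_neg h, zero_mul]
    positivity

/-- each term is at most `(4 / q) ^ j` or a term of `part_hi`; `card_pt_le` -/
theorem part_all (hP : P.Nonempty) {A : Finset Pt} (hA : ms q P A ≤ 2) {j : ℕ} (hj : 2 ≤ j)
    (hn : (P.card : ℝ) ≤ (q : ℝ) ^ j) :
    ∑ b, ms q P (A ∩ G.pl b) ^ j ≤ 4 ^ (j + 1) * ((q : ℝ) ^ t / P.card) := by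
  have h1 : (0 : ℝ) < P.card := by exact_mod_cast hP.card_pos
  have hq : (2 : ℝ) ≤ q := by exact_mod_cast G.two_le
  have hq0 : (0 : ℝ) < q := by linarith
  have h2 := part_hi G hP A hj
  have h3 : ∀ b, ms q P (A ∩ G.pl b) ^ j ≤ (4 / (q : ℝ)) ^ j +
      ind (2 * ms q P A / q < ms q P (A ∩ G.pl b) ∧ ms q P (A ∩ G.pl b) ≤ 2) *
        ms q P (A ∩ G.pl b) ^ j := fun b => by
    have h0 := ms_nonneg q P (A ∩ G.pl b)
    by_cases h : 2 * ms q P A / q < ms q P (A ∩ G.pl b)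
    · rw [ind_pos ⟨h, (ms_mono q P inter_subset_left).trans hA⟩, one_mul]
      exact le_add_of_nonneg_left (by positivity)
    · rw [ind_neg fun k => h k.1, zero_mul, add_zero]
      refine pow_le_pow_left₀ h0 ((not_lt.1 h).trans ?_) j
      gcongr
      linarith
  have h4 : (Fintype.card Pt : ℝ) * (4 / (q : ℝ)) ^ j ≤ 2 * 4 ^ j * ((q : ℝ) ^ t / P.card) := by
    have h5 : (4 / (q : ℝ)) ^ j ≤ 4 ^ j / P.card := by
      rw [div_pow]
      gcongr
    refine (mul_le_mul G.card_pt_le h5 (by positivity) (by positivity)).trans_eq ?_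
    ring
  have h6 : (2 : ℝ) ^ j * ms q P A ≤ 4 ^ j * 2 :=
    mul_le_mul (pow_le_pow_left₀ (by norm_num) (by norm_num) j) hA (ms_nonneg _ _ _) (by positivity)
  have h7 := mul_le_mul_of_nonneg_right h6 (show 0 ≤ (q : ℝ) ^ t / P.card by positivity)
  have h8 := sum_le_sum fun b (_ : b ∈ (univ : Finset Pt)) => h3 b
  rw [sum_add_distrib, sum_const, card_univ, nsmul_eq_mul] at h8
  rw [pow_succ]
  linarith

/-- `card_cl`, `rk_two`, `gs q 2 = q + 1` -/
theorem pen_card {b h0 : Pt} (h : b ≠ h0) : (pen G b h0).card = q := by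
  rw [pen, card_erase_of_mem (G.subset_cl _ (mem_insert_self _ _)), G.card_cl, G.rk_two _ _ h]
  simp [gs, sum_range_succ]

theorem pen_line {b h0 x y : Pt} (h : b ≠ h0) (e : x ≠ y) (hx : x ∈ G.cl {b, h0})
    (hy : y ∈ G.cl {b, h0}) :
    G.cl {x, y} = G.cl {b, h0} ∧ G.pl x ∩ G.pl y = G.pl b ∩ G.pl h0 := by
  have h1 : G.cl {x, y} = G.cl {b, h0} := eq_of_subset_of_card_le
    ((G.cl_mono (insert_subset hx (singleton_subset_iff.2 hy))).trans (G.cl_cl _).le)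
    (by rw [G.card_cl, G.card_cl, G.rk_two _ _ h, G.rk_two _ _ e])
  exact ⟨h1, by rw [← G.perp_pair, ← G.perp_pair, ← G.perp_cl, h1, G.perp_cl]⟩

/-- `cl {b, h} ⊆ cl {b, h0}`, both have `q + 1` elements; `perp_pair`, `perp_cl` -/
theorem pen_mem {b h0 h : Pt} (h1 : b ≠ h0) (h2 : h ∈ pen G b h0) :
    h ≠ b ∧ G.cl {b, h} = G.cl {b, h0} ∧ h0 ∈ pen G b h ∧
      G.pl b ∩ G.pl h = G.pl b ∩ G.pl h0 := by
  have h3 := mem_erase.1 h2
  have h4 := pen_line G h1 h3.1.symm (G.subset_cl _ (mem_insert_self _ _)) h3.2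
  refine ⟨h3.1, h4.1, mem_erase.2 ⟨h1.symm, ?_⟩, h4.2⟩
  rw [h4.1]
  exact G.subset_cl _ (mem_insert_of_mem (mem_singleton_self _))

/-- the relation `h ∈ pen b h0` is symmetric on `univ.erase b` with classes of size `q` -/
theorem pen_avg (P : Finset Pt) (b : Pt) (u : Pt → ℝ → ℝ) :
    q * ∑ h ∈ univ.erase b, u h (XX G P b h) =
      ∑ h0 ∈ univ.erase b, ∑ h ∈ pen G b h0, u h (XX G P b h0) := by
  rw [sum_comm' (s' := fun h => pen G b h) (t' := univ.erase b), mul_sum]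
  · refine sum_congr rfl fun h hh => ?_
    have h1 := (mem_erase.1 hh).1.symm
    rw [sum_congr rfl fun h0 k => show u h (XX G P b h0) = u h (XX G P b h) by
      rw [XX, XX, (pen_mem G h1 k).2.2.2], sum_const, pen_card G h1, nsmul_eq_mul]
  · intro h0 h
    refine ⟨fun k => ?_, fun k => ?_⟩
    · have h1 := pen_mem G (mem_erase.1 k.1).1.symm k.2
      exact ⟨h1.2.2.1, mem_erase.2 ⟨h1.1, mem_univ _⟩⟩
    · have h1 := pen_mem G (mem_erase.1 k.2).1.symm k.1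
      exact ⟨mem_erase.2 ⟨h1.1, mem_univ _⟩, h1.2.2.1⟩

theorem pen_sum (P Y : Finset Pt) :
    ∑ h ∈ Y, tb G P h = q * ((∑ a ∈ P, G.cnt Y a : ℕ) : ℝ) / P.card := by
  rw [← G.sum_cnt_comm, Nat.cast_sum, mul_sum, sum_div]
  rfl

/-- a point outside `pl b ∩ pl h0` lies on at most one member: two members `h ≠ h'` have
`cl {h, h'} = cl {b, h0}`, so `pl h ∩ pl h' = pl b ∩ pl h0` -/
theorem pen_up (P : Finset Pt) {b h0 : Pt} (h : b ≠ h0) :
    ∑ h ∈ pen G b h0, tb G P h ≤ q * XX G P b h0 + q := by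
  have h1 : ∀ a ∈ P, G.cnt (pen G b h0) a ≤ q * (if a ∈ G.pl b ∩ G.pl h0 then 1 else 0) + 1 := by
    intro a _
    split_ifs with k
    · have := (card_le_card (inter_subset_right (s₁ := G.pl a))).trans (pen_card G h).le
      rw [GP.cnt]
      omega
    · refine le_trans (card_le_one.2 fun x hx y hy => by_contra fun e => k ?_) (by omega)
      have h2 := mem_inter.1 hx
      have h3 := mem_inter.1 hy
      rw [← (pen_line G h e (mem_erase.1 h2.2).2 (mem_erase.1 h3.2).2).2]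
      exact mem_inter.2 ⟨(G.symm _ _).1 h2.1, (G.symm _ _).1 h3.1⟩
  have h2 := sum_le_sum h1
  rw [sum_add_distrib, ← mul_sum, sum_boole, sum_const, smul_eq_mul, mul_one, filter_mem_eq_inter,
    inter_comm] at h2
  have h3 : ((∑ a ∈ P, G.cnt (pen G b h0) a : ℕ) : ℝ) ≤
      q * ((G.pl b ∩ G.pl h0 ∩ P).card : ℝ) + P.card := by exact_mod_cast h2
  rw [pen_sum, XX, ms]
  rcases (Nat.cast_nonneg (α := ℝ) P.card).eq_or_lt with e | e
  · simp [← e]
  · rw [div_le_iff₀ e]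
    refine (mul_le_mul_of_nonneg_left h3 (Nat.cast_nonneg _)).trans_eq ?_
    field_simp

/-- a point of `U = pl b ∩ pl h0` lies on all `q` members; a point `a ∉ pl b` lies on a member:
`perp (insert a U)` is not empty as `rk (insert a U) ≤ t` (`rk_insert`, `rk_perp`, `card_perp`) -/
theorem pen_lo (hP : P.Nonempty) {b h0 : Pt} (h : b ≠ h0) :
    q * XX G P b h0 + q - tb G P b ≤ ∑ h ∈ pen G b h0, tb G P h := by
  have h1 : ∀ a ∈ P, q * (if a ∈ G.pl b ∩ G.pl h0 then 1 else 0) + 1 ≤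
      G.cnt (pen G b h0) a + (if a ∈ G.pl b then 1 else 0) := by
    intro a _
    by_cases k : a ∈ G.pl b ∩ G.pl h0
    · have h2 : G.pl a ∩ pen G b h0 = pen G b h0 := inter_eq_right.2 fun x hx =>
        (G.symm _ _).1 (G.mem_perp.1 (mem_erase.1 hx).2 (by rwa [G.perp_pair]))
      rw [if_pos k, if_pos (mem_inter.1 k).1, GP.cnt, h2, pen_card G h, mul_one]
    · rw [if_neg k]
      split_ifs with k'
      · omega
      · have h2 := G.rk_insert a (G.perp {b, h0})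
        have ht := G.ht
        rw [G.rk_perp, G.rk_two _ _ h] at h2
        have h3 : 0 < (G.perp (insert a (G.perp {b, h0}))).card := by
          rw [G.card_perp]
          exact lt_of_le_of_lt (Nat.zero_le _) (gs_strictMono G.two_le (show 0 < _ by omega))
        obtain ⟨x, hx⟩ := card_pos.1 h3
        have h4 := insert_subset_iff.1 (G.mem_perp.1 hx)
        have h5 : 0 < (G.pl a ∩ pen G b h0).card := card_pos.2 ⟨x, mem_inter.2 ⟨(G.symm _ _).1 h4.1,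
          mem_erase.2 ⟨fun e => k' (e ▸ h4.1), G.mem_perp.2 h4.2⟩⟩⟩
        rw [GP.cnt]
        omega
  have h2 := sum_le_sum h1
  rw [sum_add_distrib, sum_add_distrib, ← mul_sum, sum_boole, sum_boole, sum_const, smul_eq_mul,
    mul_one, filter_mem_eq_inter, filter_mem_eq_inter, inter_comm, inter_comm P] at h2
  have h3 : q * ((G.pl b ∩ G.pl h0 ∩ P).card : ℝ) + P.card ≤
      ((∑ a ∈ P, G.cnt (pen G b h0) a : ℕ) : ℝ) + (G.pl b ∩ P).card := by exact_mod_cast h2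
  have e : (0 : ℝ) < P.card := by exact_mod_cast hP.card_pos
  rw [pen_sum, XX, tb, ms, ms, le_div_iff₀ e]
  refine le_of_eq_of_le ?_
    (mul_le_mul_of_nonneg_left (sub_le_iff_le_add.2 h3) (Nat.cast_nonneg q))
  field_simp

end Pool.Agent.Work.MP_e10cd8_co.Gap
end

-- merged part: Pool.Agent.Work.MP_e10cd8_co.Gap.Pair
section
/-! The weight of pairs. -/

namespace Pool.Agent.Work.MP_e10cd8_co.Gap

open Finset Four All Uni

variable {q t : ℕ} {Pt : Type} [Fintype Pt] [DecidableEq Pt] (G : GP q t Pt) {P : Finset Pt}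

theorem Pair_swap (Y : Finset Pt) (f : Pt → Pt → ℝ) :
    ∑ h, ∑ b ∈ Y.erase h, f h b = ∑ b ∈ Y, ∑ h ∈ univ.erase b, f h b :=
  sum_comm' fun h b => by
    simp only [mem_univ, mem_erase, true_and, and_true, ne_comm]

include G in
theorem Pair_q : (0 : ℝ) < q := by
  have := G.two_le
  positivity

theorem Pair_tb (P : Finset Pt) (h : Pt) : 0 ≤ tb G P h := ms_nonneg _ _ _

theorem Pair_hi (hP : P.Nonempty) (Y : Finset Pt) (h : Pt) {i : ℕ} (hi : 2 ≤ i) :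
    ∑ b ∈ Y, ind (2 * tb G P h / q < XX G P h b ∧ XX G P h b ≤ 2) * XX G P h b ^ i ≤
      2 ^ i * tb G P h * ((q : ℝ) ^ t / P.card) :=
  (sum_le_sum_of_subset_of_nonneg (subset_univ Y) fun b _ _ =>
    mul_nonneg (ind_nonneg _) (pow_nonneg (XX_le G P h b).1 _)).trans (part_hi G hP (G.pl h) hi)

/-- one hyperplane `b`: if `X = XX b h0 > 8 / q` then `pen_lo`, `pen_card` give
`∑ (tb h - 1) ≥ 3 q X / 4` over the pencil, the members with `tb h - 1 < X / 4` carry at most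
`q X / 4`; then `pen_avg` -/
theorem pair_one (hP : P.Nonempty) {b : Pt} (hb : tb G P b ≤ 2) {J : ℕ} (hJ : 1 ≤ J) :
    ∑ h ∈ univ.erase b, XX G P b h ^ J ≤ Fintype.card Pt * (8 / (q : ℝ)) ^ J +
      2 * ∑ h ∈ univ.erase b, ind (0 < XX G P b h ∧ XX G P b h / 4 ≤ tb G P h - 1) *
        (XX G P b h ^ (J - 1) * (tb G P h - 1)) := by
  have hq := Pair_q G
  obtain ⟨J, rfl⟩ : ∃ i, J = i + 1 := ⟨J - 1, by omega⟩
  rw [Nat.add_sub_cancel]
  have av := pen_avg G P b fun h X => ind (0 < X ∧ X / 4 ≤ tb G P h - 1) * (X ^ J * (tb G P h - 1))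
  have key : ∀ h0 ∈ univ.erase b, q * XX G P b h0 ^ (J + 1) ≤ q * (8 / (q : ℝ)) ^ (J + 1) +
      2 * ∑ h ∈ pen G b h0, ind (0 < XX G P b h0 ∧ XX G P b h0 / 4 ≤ tb G P h - 1) *
        (XX G P b h0 ^ J * (tb G P h - 1)) := by
    intro h0 hh
    have hne : b ≠ h0 := (mem_erase.1 hh).1.symm
    have lo := pen_lo G hP hne
    have x0 := (XX_le G P b h0).1
    generalize XX G P b h0 = X at *
    have xJ : 0 ≤ X ^ J := pow_nonneg x0 _
    rcases le_or_gt X (8 / q) with hX | hX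
    · have h1 := mul_le_mul_of_nonneg_left (pow_le_pow_left₀ x0 hX (J + 1)) hq.le
      have h2 : 0 ≤ ∑ h ∈ pen G b h0, ind (0 < X ∧ X / 4 ≤ tb G P h - 1) *
          (X ^ J * (tb G P h - 1)) := sum_nonneg fun h _ => by
        by_cases k : 0 < X ∧ X / 4 ≤ tb G P h - 1
        · rw [ind_pos k, one_mul]
          exact mul_nonneg xJ (by linarith [k.1, k.2])
        · rw [ind_neg k, zero_mul]
      linarith
    · rw [div_lt_iff₀ hq] at hX
      have xp : 0 < X := by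
        by_contra hc
        nlinarith
      have h1 : ∑ h ∈ pen G b h0, X ^ J * (tb G P h - (1 + X / 4)) ≤ ∑ h ∈ pen G b h0,
          ind (0 < X ∧ X / 4 ≤ tb G P h - 1) * (X ^ J * (tb G P h - 1)) :=
        sum_le_sum fun h _ => by
          by_cases k : 0 < X ∧ X / 4 ≤ tb G P h - 1
          · rw [ind_pos k, one_mul]
            exact mul_le_mul_of_nonneg_left (by linarith) xJ
          · rw [ind_neg k, zero_mul]
            refine mul_nonpos_of_nonneg_of_nonpos xJ ?_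
            linarith [not_le.1 fun k' => k ⟨xp, k'⟩]
      rw [← mul_sum, sum_sub_distrib, sum_const, pen_card G hne, nsmul_eq_mul] at h1
      have h2 : X ^ J * (q * X / 2) ≤
          X ^ J * (∑ h ∈ pen G b h0, tb G P h - q * (1 + X / 4)) :=
        mul_le_mul_of_nonneg_left (by nlinarith) xJ
      have h3 : (0 : ℝ) ≤ q * (8 / (q : ℝ)) ^ (J + 1) := by positivity
      rw [pow_succ X]
      linarith
  have h1 := sum_le_sum key
  rw [sum_add_distrib, ← mul_sum, ← mul_sum, ← mul_sum, ← av, sum_const, nsmul_eq_mul] at h1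
  have h2 : ((univ.erase b).card : ℝ) * (8 / (q : ℝ)) ^ (J + 1) ≤
      Fintype.card Pt * (8 / (q : ℝ)) ^ (J + 1) :=
    mul_le_mul_of_nonneg_right (by exact_mod_cast card_le_univ _) (by positivity)
  refine le_of_mul_le_mul_left ?_ hq
  have h3 := mul_le_mul_of_nonneg_left h2 hq.le
  linarith

/-- `pair_one`; for `X ≤ 2 tb h / q` the term is at most `(2 tb h / q) ^ (J - 1) tb h`; else use
`X (tb h - 1) tb h ≤ 6 (tb h - 1) ^ 2` (`X ≤ 4 (tb h - 1)`, `X ≤ 2`), exchange the sums,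
`part_hi` with `A = pl h`, `i = J - 2`, then `mix_tb` -/
theorem pair (hP : P.Nonempty) {Y : Finset Pt} (hY : ∀ b ∈ Y, tb G P b ≤ 2) {J : ℕ} (hJ : 4 ≤ J) :
    PW G P Y J ≤ 3 * 2 ^ J * (((q : ℝ) ^ (t + 1) / P.card) ^ 2 / q) +
      2 ^ J * Y.card * q * ∑ h, (tb G P h / q) ^ J +
      Y.card * Fintype.card Pt * (8 / (q : ℝ)) ^ J := by
  have hq := Pair_q G
  obtain ⟨J, rfl⟩ : ∃ i, J = i + 2 := ⟨J - 2, by omega⟩
  have hn : (0 : ℝ) ≤ (q : ℝ) ^ t / P.card := by positivity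
  have term : ∀ b ∈ Y, ∀ h, ind (0 < XX G P b h ∧ XX G P b h / 4 ≤ tb G P h - 1) *
      (XX G P b h ^ (J + 1) * (tb G P h - 1)) ≤ 2 ^ (J + 1) * q * (tb G P h / q) ^ (J + 2) +
      6 * (tb G P h - 1) ^ 2 / tb G P h *
        (ind (2 * tb G P h / q < XX G P h b ∧ XX G P h b ≤ 2) * XX G P h b ^ J) := by
    intro b hb h
    have x0 := (XX_le G P b h).1
    have x2 := (XX_le G P b h).2.trans (hY b hb)
    have t0 := Pair_tb G P h
    rw [XX_comm G P h b]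
    generalize XX G P b h = X at *
    generalize tb G P h = τ at *
    have xJ : 0 ≤ X ^ J := pow_nonneg x0 _
    have p1 : (0 : ℝ) ≤ 2 ^ (J + 1) * q * (τ / q) ^ (J + 2) := by positivity
    have p2 : 0 ≤ 6 * (τ - 1) ^ 2 / τ * (ind (2 * τ / q < X ∧ X ≤ 2) * X ^ J) :=
      mul_nonneg (by positivity) (mul_nonneg (ind_nonneg _) xJ)
    by_cases k : 0 < X ∧ X / 4 ≤ τ - 1
    swap
    · rw [ind_neg k, zero_mul]
      linarith
    rw [ind_pos k, one_mul]
    obtain ⟨k1, k2⟩ := k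
    rcases le_or_gt X (2 * τ / q) with hX | hX
    · have h1 : X ^ (J + 1) * (τ - 1) ≤ (2 * τ / q) ^ (J + 1) * τ :=
        mul_le_mul (pow_le_pow_left₀ x0 hX _) (by linarith) (by linarith) (by positivity)
      have h2 : (2 * τ / q) ^ (J + 1) * τ = 2 ^ (J + 1) * q * (τ / q) ^ (J + 2) := by
        rw [mul_div_assoc, mul_pow, pow_succ (τ / q) (J + 1)]
        field_simp
      linarith
    · rw [ind_pos ⟨hX, x2⟩, one_mul]
      have h1 : X * (τ - 1) ≤ 6 * (τ - 1) ^ 2 / τ := by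
        rw [le_div_iff₀ (by linarith)]
        have a1 : X * (τ - 1) ^ 2 ≤ 2 * (τ - 1) ^ 2 :=
          mul_le_mul_of_nonneg_right x2 (sq_nonneg _)
        have a2 : X * (τ - 1) ≤ 4 * (τ - 1) * (τ - 1) :=
          mul_le_mul_of_nonneg_right (by linarith) (by linarith)
        nlinarith
      have h2 := mul_le_mul_of_nonneg_right h1 xJ
      rw [pow_succ X]
      nlinarith
  have h1 : PW G P Y (J + 2) ≤ ∑ b ∈ Y, (Fintype.card Pt * (8 / (q : ℝ)) ^ (J + 2) +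
      2 * ∑ h, (2 ^ (J + 1) * q * (tb G P h / q) ^ (J + 2) + 6 * (tb G P h - 1) ^ 2 / tb G P h *
        (ind (2 * tb G P h / q < XX G P h b ∧ XX G P h b ≤ 2) * XX G P h b ^ J))) := by
    refine sum_le_sum fun b hb => (pair_one G hP (hY b hb) (by omega)).trans ?_
    refine add_le_add le_rfl (mul_le_mul_of_nonneg_left ?_ two_pos.le)
    refine (sum_le_sum fun h _ => term b hb h).trans
      (sum_le_sum_of_subset_of_nonneg (subset_univ _) fun h _ _ => ?_)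
    have t0 := Pair_tb G P h
    exact add_nonneg (by positivity) (mul_nonneg (by positivity)
      (mul_nonneg (ind_nonneg _) (pow_nonneg (XX_le G P h b).1 _)))
  have h2 : ∑ b ∈ Y, ∑ h, 6 * (tb G P h - 1) ^ 2 / tb G P h *
      (ind (2 * tb G P h / q < XX G P h b ∧ XX G P h b ≤ 2) * XX G P h b ^ J) ≤
      ∑ h, 6 * 2 ^ J * ((q : ℝ) ^ t / P.card) * (tb G P h - 1) ^ 2 := by
    rw [sum_comm]
    refine sum_le_sum fun h _ => ?_
    have t0 := Pair_tb G P h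
    rw [← mul_sum]
    refine (mul_le_mul_of_nonneg_left (Pair_hi G hP Y h (by omega)) (by positivity)).trans ?_
    rcases t0.eq_or_lt with e | e
    · rw [← e, div_zero, zero_mul]
      positivity
    · refine le_of_eq ?_
      field_simp
  rw [← mul_sum] at h2
  have h3 := mul_le_mul_of_nonneg_left (mix_tb G hP)
    (by positivity : (0 : ℝ) ≤ 6 * 2 ^ J * ((q : ℝ) ^ t / P.card))
  have h4 : ((q : ℝ) ^ (t + 1) / P.card) ^ 2 / q =
      (q : ℝ) ^ t / P.card * ((q : ℝ) ^ (t + 1) / P.card) := by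
    field_simp
    ring
  simp only [sum_add_distrib, ← mul_sum, sum_const, nsmul_eq_mul, mul_add] at h1
  rw [h4, pow_succ (2 : ℝ), pow_succ (2 : ℝ)]
  rw [pow_succ (2 : ℝ)] at h1
  linarith

/-- `pen_avg` with `u h X = tb h * X ^ J`, `pen_up`, `X ≤ 2`, then exchange the sums -/
theorem tb_k2 (P : Finset Pt) {Y : Finset Pt} (hY : ∀ b ∈ Y, tb G P b ≤ 2) (J : ℕ) :
    ∑ h, tb G P h * k2 G P Y J h ≤ 3 * PW G P Y J := by
  have hq := Pair_q G
  simp only [k2, PW, mul_sum]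
  rw [Pair_swap Y fun h b => tb G P h * XX G P h b ^ J]
  refine sum_le_sum fun b hb => le_of_mul_le_mul_left ?_ hq
  simp only [fun h => XX_comm G P h b]
  rw [pen_avg G P b fun h X => tb G P h * X ^ J, mul_sum]
  refine sum_le_sum fun h0 hh => ?_
  have h1 := pen_up G P (mem_erase.1 hh).1.symm
  have h2 := mul_le_mul_of_nonneg_left ((XX_le G P b h0).2.trans (hY b hb)) hq.le
  rw [← sum_mul, ← mul_assoc]
  exact mul_le_mul_of_nonneg_right (by linarith) (pow_nonneg (XX_le G P b h0).1 _)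

/-- `k2 h ≤ a + k1` with `a = |Y| (2 tb h / q) ^ J` and `k1` the terms with `X > 2 tb h / q`;
`k1 ≤ 2 ^ J tb h q ^ t / n` (`part_hi`), `k1 ≤ k2`; `tb h / q ≤ 1`; `tb_k2` -/
theorem k2_sq (hP : P.Nonempty) {Y : Finset Pt} (hY : ∀ b ∈ Y, tb G P b ≤ 2) {J : ℕ} (hJ : 2 ≤ J) :
    ∑ h, k2 G P Y J h ^ 2 ≤ 2 * (Y.card : ℝ) ^ 2 * 4 ^ J * ∑ h, (tb G P h / q) ^ J +
      6 * 2 ^ J * ((q : ℝ) ^ t / P.card) * PW G P Y J := by
  have hq := Pair_q G
  have hn : (0 : ℝ) ≤ (q : ℝ) ^ t / P.card := by positivity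
  have key : ∀ h, k2 G P Y J h ^ 2 ≤ 2 * (Y.card : ℝ) ^ 2 * 4 ^ J * (tb G P h / q) ^ J +
      2 * 2 ^ J * ((q : ℝ) ^ t / P.card) * (tb G P h * k2 G P Y J h) := by
    intro h
    have t0 := Pair_tb G P h
    have a1 := Pair_hi G hP (Y.erase h) h hJ
    have a0 : 0 ≤ ∑ b ∈ Y.erase h, ind (2 * tb G P h / q < XX G P h b ∧ XX G P h b ≤ 2) *
        XX G P h b ^ J :=
      sum_nonneg fun b _ => mul_nonneg (ind_nonneg _) (pow_nonneg (XX_le G P h b).1 _)
    have a2 : ∑ b ∈ Y.erase h, ind (2 * tb G P h / q < XX G P h b ∧ XX G P h b ≤ 2) *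
        XX G P h b ^ J ≤ k2 G P Y J h := sum_le_sum fun b _ =>
      mul_le_of_le_one_left (pow_nonneg (XX_le G P h b).1 _) (ind_le_one _)
    have a3 : k2 G P Y J h ≤ ∑ b ∈ Y.erase h, ((2 * tb G P h / q) ^ J +
        ind (2 * tb G P h / q < XX G P h b ∧ XX G P h b ≤ 2) * XX G P h b ^ J) := by
      refine sum_le_sum fun b hb => ?_
      have x0 := (XX_le G P h b).1
      rcases le_or_gt (XX G P h b) (2 * tb G P h / q) with hX | hX
      · exact (pow_le_pow_left₀ x0 hX _).trans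
          (le_add_of_nonneg_right (mul_nonneg (ind_nonneg _) (pow_nonneg x0 _)))
      · rw [ind_pos ⟨hX, by
          rw [XX_comm]; exact (XX_le G P b h).2.trans (hY b (mem_of_mem_erase hb))⟩, one_mul]
        exact le_add_of_nonneg_left (by positivity)
    rw [sum_add_distrib, sum_const, nsmul_eq_mul] at a3
    have a4 : ((Y.erase h).card : ℝ) * (2 * tb G P h / q) ^ J ≤
        Y.card * (2 ^ J * (tb G P h / q) ^ J) := by
      rw [mul_div_assoc, mul_pow]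
      exact mul_le_mul_of_nonneg_right (by exact_mod_cast card_erase_le) (by positivity)
    have a5 : (tb G P h / q) ^ J ≤ 1 :=
      pow_le_one₀ (by positivity) ((div_le_one hq).2 (ms_le _ _ _))
    have a6 : (0 : ℝ) ≤ (tb G P h / q) ^ J := by positivity
    have a7 : (4 : ℝ) ^ J = 2 ^ J * 2 ^ J := by rw [← mul_pow]; norm_num
    rw [a7]
    generalize ∑ b ∈ Y.erase h, ind (2 * tb G P h / q < XX G P h b ∧ XX G P h b ≤ 2) *
      XX G P h b ^ J = k1 at *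
    generalize (tb G P h / q) ^ J = w at *
    have b1 : k2 G P Y J h ^ 2 ≤ (Y.card * (2 ^ J * w) + k1) ^ 2 :=
      pow_le_pow_left₀ (a0.trans a2) (by linarith) 2
    have b2 : k1 * k1 ≤ 2 ^ J * tb G P h * ((q : ℝ) ^ t / P.card) * k2 G P Y J h :=
      mul_le_mul a1 a2 a0 (a0.trans a1)
    have b3 : ((Y.card : ℝ) * 2 ^ J) ^ 2 * (w * w) ≤ ((Y.card : ℝ) * 2 ^ J) ^ 2 * w :=
      mul_le_mul_of_nonneg_left (mul_le_of_le_one_left a6 a5) (sq_nonneg _)
    nlinarith [sq_nonneg ((Y.card : ℝ) * (2 ^ J * w) - k1)]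
  have h1 := sum_le_sum fun h (_ : h ∈ univ) => key h
  rw [sum_add_distrib, ← mul_sum, ← mul_sum] at h1
  have h2 := mul_le_mul_of_nonneg_left (tb_k2 G P hY J)
    (by positivity : (0 : ℝ) ≤ 2 * 2 ^ J * ((q : ℝ) ^ t / P.card))
  linarith

/-- diagonal terms give the first summand. For `b ≠ b'`, `h ∈ cl {b, b'}`: if `b = h` the terms
sum to `k2 h`; else `b' ∈ pen b h` (`pen_mem`), `q` choices, `XX b b' = XX h b` -/
theorem om_sum (P : Finset Pt) {Y : Finset Pt} (hY : ∀ b ∈ Y, tb G P b ≤ 2) (J : ℕ) (h : Pt) :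
    ∑ b ∈ Y, ∑ b' ∈ Y, XX G P b b' ^ J * om G b b' h ≤
      q * 2 ^ J * ind (h ∈ Y) + (q + 1) * k2 G P Y J h := by
  have hq := Pair_q G
  have k0 : 0 ≤ k2 G P Y J h := sum_nonneg fun b _ => pow_nonneg (XX_le G P h b).1 _
  have key : ∀ b ∈ Y, ∑ b' ∈ Y, XX G P b b' ^ J * om G b b' h ≤
      (if h = b then q * 2 ^ J + k2 G P Y J h else 0) +
        (if b ≠ h then q * XX G P h b ^ J else 0) := by
    intro b hb
    rw [← add_sum_erase Y _ hb, om, if_pos rfl]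
    have e : ∑ b' ∈ Y.erase b, XX G P b b' ^ J * om G b b' h =
        ∑ b' ∈ Y.erase b, XX G P b b' ^ J * ind (h ∈ G.cl {b, b'}) :=
      sum_congr rfl fun b' hb' => by rw [om, if_neg (mem_erase.1 hb').1.symm]
    rw [e]
    by_cases k : h = b
    · subst k
      rw [if_pos rfl, if_neg (not_not.2 rfl), ind_pos rfl, mul_one, add_zero, mul_comm]
      refine add_le_add (mul_le_mul_of_nonneg_left (pow_le_pow_left₀ (XX_le G P h h).1
        ((XX_le G P h h).2.trans (hY h hb)) _) hq.le) (sum_le_sum fun b' _ =>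
        mul_le_of_le_one_right (pow_nonneg (XX_le G P h b').1 _) (ind_le_one _))
    · rw [if_neg k, if_pos (Ne.symm k), ind_neg k, mul_zero, mul_zero, zero_add, zero_add]
      have x0 : 0 ≤ XX G P h b ^ J := pow_nonneg (XX_le G P h b).1 _
      have h1 : ∑ b' ∈ Y.erase b, XX G P b b' ^ J * ind (h ∈ G.cl {b, b'}) ≤
          ∑ b', if b' ∈ pen G b h then XX G P h b ^ J else 0 := by
        refine le_trans (sum_le_sum fun b' hb' => ?_)
          (sum_le_sum_of_subset_of_nonneg (subset_univ _) fun b' _ _ => by split_ifs <;> linarith)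
        by_cases m : h ∈ G.cl {b, b'}
        · obtain ⟨-, -, m1, m2⟩ := pen_mem G (mem_erase.1 hb').1.symm (mem_erase.2 ⟨k, m⟩)
          rw [ind_pos m, mul_one, if_pos m1, XX_comm G P h b, XX, XX, m2]
        · rw [ind_neg m, mul_zero]
          split_ifs <;> linarith
      rwa [sum_ite_mem, univ_inter, sum_const, pen_card G (Ne.symm k), nsmul_eq_mul] at h1
  have h1 := sum_le_sum key
  rw [sum_add_distrib, sum_ite_eq, ← sum_filter, filter_ne', ← mul_sum] at h1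
  change _ ≤ _ + q * k2 G P Y J h at h1
  by_cases m : h ∈ Y
  · rw [if_pos m] at h1
    rw [ind_pos m]
    linarith
  · rw [if_neg m] at h1
    rw [ind_neg m]
    linarith

end Pool.Agent.Work.MP_e10cd8_co.Gap
end

-- merged part: Pool.Agent.Work.MP_e10cd8_co.Gap.T4R
section
/-! The correlation of four hyperplanes. -/

namespace Pool.Agent.Work.MP_e10cd8_co.Gap

open Finset Four All

variable {q t : ℕ} {Pt : Type} [Fintype Pt] [DecidableEq Pt] (G : GP q t Pt)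

theorem R_ind (A : Finset Pt) (a b : Pt) :
    ind (insert b A ⊆ G.pl a) = ind (A ⊆ G.pl a) * ind (a ∈ G.pl b) := by
  rw [insert_subset_iff, G.symm b a]
  by_cases h1 : A ⊆ G.pl a <;> by_cases h2 : a ∈ G.pl b <;> simp [ind, h1, h2]

theorem R_perp (A : Finset Pt) : ∑ a, ind (A ⊆ G.pl a) = (gs q (t + 1 - G.rk A) : ℝ) := by
  rw [← card_sel, G.card_perp']

theorem R_zero (b : Pt) (l : List Pt) : ∀ A : Finset Pt, b ∉ G.cl (A ∪ l.toFinset) →
    ∑ a, ind (A ⊆ G.pl a) * (l.map (psi G a)).prod * psi G a b = -((q : ℝ) - 1) ^ l.length := by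
  induction l with
  | nil =>
    intro A h
    rw [List.toFinset_nil, union_empty] at h
    have h1 := G.rk_lt (subset_insert b A) (mem_insert_self _ _) h
    have h2 := G.rk_insert b A
    have h3 := G.rk_le (insert b A)
    have e : ∀ a, ind (A ⊆ G.pl a) * ([].map (psi G a)).prod * psi G a b =
        q * ind (insert b A ⊆ G.pl a) - ind (A ⊆ G.pl a) := fun a => by
      rw [R_ind, psi, List.map_nil, List.prod_nil]
      ring
    rw [sum_congr rfl fun a _ => e a, sum_sub_distrib, ← mul_sum, R_perp, R_perp,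
      show t + 1 - G.rk A = t + 1 - G.rk (insert b A) + 1 by omega, gs_succ]
    push_cast
    simp
  | cons c l ih =>
    intro A h
    have h1 : b ∉ G.cl (insert c A ∪ l.toFinset) := by
      rwa [List.toFinset_cons, union_insert, ← insert_union] at h
    have h2 : b ∉ G.cl (A ∪ l.toFinset) := fun k =>
      h1 (G.cl_mono (union_subset_union_left (subset_insert _ _)) k)
    have e : ∀ a, ind (A ⊆ G.pl a) * ((c :: l).map (psi G a)).prod * psi G a b =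
        q * (ind (insert c A ⊆ G.pl a) * (l.map (psi G a)).prod * psi G a b) -
          ind (A ⊆ G.pl a) * (l.map (psi G a)).prod * psi G a b := fun a => by
      rw [R_ind, List.map_cons, List.prod_cons, psi.eq_1 G a c]
      ring
    rw [sum_congr rfl fun a _ => e a, sum_sub_distrib, ← mul_sum, ih _ h1, ih _ h2,
      List.length_cons]
    ring

theorem R_abs (l : List Pt) : ∀ A : Finset Pt,
    (∑ a, ind (A ⊆ G.pl a) * (l.map fun b => q * ind (a ∈ G.pl b) + 1).prod) *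
      (q : ℝ) ^ G.rk (A ∪ l.toFinset) ≤ 2 * 2 ^ l.length * (q : ℝ) ^ (t + l.length) := by
  have q2 : (2 : ℝ) ≤ q := by exact_mod_cast G.two_le
  induction l with
  | nil =>
    intro A
    simp only [List.map_nil, List.prod_nil, mul_one, List.toFinset_nil, union_empty,
      List.length_nil, pow_zero, add_zero]
    rw [R_perp]
    have h1 : (gs q (t + 1 - G.rk A) : ℝ) * q ≤ 2 * (q : ℝ) ^ (t + 1 - G.rk A) := by
      exact_mod_cast gs_mul_le G.two_le _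
    have h2 : (q : ℝ) ^ (t + 1 - G.rk A) * q ^ G.rk A = q ^ t * q := by
      rw [← pow_add, Nat.sub_add_cancel (G.rk_le A), pow_succ]
    refine le_of_mul_le_mul_right ?_ (by linarith : (0 : ℝ) < q)
    have h3 := mul_le_mul_of_nonneg_right h1 (by positivity : (0 : ℝ) ≤ (q : ℝ) ^ G.rk A)
    linarith
  | cons c l ih =>
    intro A
    have e : ∀ a, ind (A ⊆ G.pl a) * ((c :: l).map fun b => q * ind (a ∈ G.pl b) + 1).prod =
        q * (ind (insert c A ⊆ G.pl a) * (l.map fun b => q * ind (a ∈ G.pl b) + 1).prod) +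
          ind (A ⊆ G.pl a) * (l.map fun b => q * ind (a ∈ G.pl b) + 1).prod := fun a => by
      rw [R_ind, List.map_cons, List.prod_cons]
      ring
    have h1 := ih (insert c A)
    have h2 := ih A
    have h3 : (q : ℝ) ^ G.rk (insert c (A ∪ l.toFinset)) ≤ q ^ G.rk (A ∪ l.toFinset) * q := by
      rw [← pow_succ]
      exact pow_le_pow_right₀ (by linarith) (G.rk_insert _ _)
    have h4 : 0 ≤ ∑ a, ind (A ⊆ G.pl a) * (l.map fun b => q * ind (a ∈ G.pl b) + 1).prod :=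
      sum_nonneg fun a _ => mul_nonneg (ind_nonneg _) (List.prod_nonneg fun x hx => by
        obtain ⟨b, -, rfl⟩ := List.mem_map.1 hx
        have := ind_nonneg (a ∈ G.pl b)
        positivity)
    rw [insert_union] at h1
    rw [sum_congr rfl fun a _ => e a, sum_add_distrib, ← mul_sum, List.toFinset_cons, union_insert,
      List.length_cons, ← add_assoc, pow_succ, pow_succ]
    have h5 := mul_le_mul_of_nonneg_left h3 h4
    have h6 := mul_le_mul_of_nonneg_right h1 (by linarith : (0 : ℝ) ≤ q)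
    have h7 := mul_le_mul_of_nonneg_right h2 (by linarith : (0 : ℝ) ≤ q)
    linarith

theorem RR_zero {b1 b2 b3 b4 : Pt} (h : b4 ∉ G.cl {b1, b2, b3}) : RR G b1 b2 b3 b4 = 0 := by
  have k := R_zero G b4 [b1, b2, b3] ∅ (by simpa using h)
  simp only [empty_subset, ind_pos, List.map_cons, List.map_nil, List.prod_cons, List.prod_nil,
    List.length_cons, List.length_nil, one_mul, mul_one, ← mul_assoc] at k
  rw [RR, k]
  ring

theorem RR_23 (b1 b2 b3 b4 : Pt) : RR G b1 b2 b3 b4 = RR G b1 b3 b2 b4 := by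
  unfold RR
  congr 1
  exact sum_congr rfl fun a _ => by ring

theorem RR_34 (b1 b2 b3 b4 : Pt) : RR G b1 b2 b3 b4 = RR G b1 b2 b4 b3 := by
  unfold RR
  congr 1
  exact sum_congr rfl fun a _ => by ring

theorem RR_sw (b1 b2 b3 b4 : Pt) : RR G b1 b2 b3 b4 = RR G b3 b4 b1 b2 := by
  unfold RR
  congr 1
  exact sum_congr rfl fun a _ => by ring

theorem R_rk3 (b1 b2 b3 : Pt) : G.rk {b1, b2, b3} ≤ 3 := by
  have h1 := G.rk_insert b1 {b2, b3}
  have h2 := G.rk_insert b2 {b3}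
  have h3 := G.rk_one b3
  omega

theorem RR_le (ht : 3 ≤ t) (b1 b2 b3 b4 : Pt) {i : ℕ} (hi : i ≤ G.rk {b1, b2, b3, b4}) :
    |RR G b1 b2 b3 b4| * (q : ℝ) ^ i ≤ 33 * (q : ℝ) ^ (t + 4) := by
  have q2 : (2 : ℝ) ≤ q := by exact_mod_cast G.two_le
  have k := R_abs G [b1, b2, b3, b4] ∅
  simp only [empty_subset, ind_pos, List.map_cons, List.map_nil, List.prod_cons, List.prod_nil,
    List.length_cons, List.length_nil, one_mul, mul_one, ← mul_assoc, empty_union,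
    List.toFinset_cons, List.toFinset_nil, insert_empty_eq] at k
  have p : ∀ a b, |psi G a b| ≤ q * ind (a ∈ G.pl b) + 1 := fun a b => by
    have := mul_nonneg (by linarith : (0 : ℝ) ≤ q) (ind_nonneg (a ∈ G.pl b))
    rw [psi, abs_le]
    constructor <;> linarith
  have h1 : |RR G b1 b2 b3 b4| ≤ ∑ a, (q * ind (a ∈ G.pl b1) + 1) * (q * ind (a ∈ G.pl b2) + 1) *
      (q * ind (a ∈ G.pl b3) + 1) * (q * ind (a ∈ G.pl b4) + 1) + (q : ℝ) ^ 3 := by
    refine (abs_add_le _ _).trans (add_le_add ((abs_sum_le_sum_abs _ _).trans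
      (sum_le_sum fun a _ => ?_)) ?_)
    · rw [abs_mul, abs_mul, abs_mul]
      have := (abs_nonneg _).trans (p a b1)
      have := (abs_nonneg _).trans (p a b2)
      have := (abs_nonneg _).trans (p a b3)
      gcongr <;> exact p _ _
    · rw [abs_pow, abs_of_nonneg (by linarith)]
      gcongr <;> linarith
  have h2 : (q : ℝ) ^ i ≤ q ^ G.rk {b1, b2, b3, b4} := pow_le_pow_right₀ (by linarith) hi
  have h3 : (q : ℝ) ^ 3 * q ^ G.rk {b1, b2, b3, b4} ≤ q ^ (t + 4) := by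
    rw [← pow_add]
    refine pow_le_pow_right₀ (by linarith) ?_
    have := G.rk_insert b1 {b2, b3, b4}
    have := R_rk3 G b2 b3 b4
    omega
  have h4 := mul_le_mul h1 h2 (by positivity) ((abs_nonneg _).trans h1)
  rw [add_mul] at h4
  norm_num at k
  linarith

theorem RR_le' (ht : 3 ≤ t) (b1 b2 b3 b4 : Pt) {i j : ℕ} (hi : i ≤ G.rk {b1, b2, b3, b4})
    (hj : j + i = t + 4) : |RR G b1 b2 b3 b4| ≤ 33 * (q : ℝ) ^ j := by
  have q2 : (2 : ℝ) ≤ q := by exact_mod_cast G.two_le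
  have h := RR_le G ht b1 b2 b3 b4 hi
  rw [← hj, pow_add, ← mul_assoc] at h
  exact le_of_mul_le_mul_right h (by positivity)

theorem sum_RR (ht : 3 ≤ t) (b1 b2 b3 : Pt) :
    ∑ b4, |RR G b1 b2 b3 b4| ≤ 66 * (q : ℝ) ^ (t + 3) := by
  have q2 : (2 : ℝ) ≤ q := by exact_mod_cast G.two_le
  have r3 := R_rk3 G b1 b2 b3
  have h1 : ∑ b4, |RR G b1 b2 b3 b4| ≤
      ∑ b4 ∈ G.cl {b1, b2, b3}, 33 * (q : ℝ) ^ (t + 4 - G.rk {b1, b2, b3}) := by
    rw [← sum_subset (subset_univ (G.cl {b1, b2, b3})) fun b _ hb => by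
      rw [RR_zero G hb, abs_zero]]
    refine sum_le_sum fun b _ => RR_le' G ht _ _ _ _ (i := G.rk {b1, b2, b3})
      (G.rk_mono fun x hx => ?_) (by omega)
    simp only [mem_insert, mem_singleton] at hx ⊢
    tauto
  rw [sum_const, nsmul_eq_mul, G.card_cl] at h1
  have h2 : (gs q (G.rk {b1, b2, b3}) : ℝ) * q ≤ 2 * (q : ℝ) ^ G.rk {b1, b2, b3} := by
    exact_mod_cast gs_mul_le G.two_le _
  have h3 : (q : ℝ) ^ G.rk {b1, b2, b3} * q ^ (t + 4 - G.rk {b1, b2, b3}) = q ^ (t + 3) * q := by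
    rw [← pow_add, ← pow_succ]
    congr 1
    omega
  refine h1.trans (le_of_mul_le_mul_right ?_ (by linarith : (0 : ℝ) < q))
  have h4 := mul_le_mul_of_nonneg_right h2
    (by positivity : (0 : ℝ) ≤ (q : ℝ) ^ (t + 4 - G.rk {b1, b2, b3}))
  linarith

/-- exchange on a line -/
theorem line_eq {a b c : Pt} (h : b ≠ c) (k : c ∈ G.cl {b, a}) : G.cl {b, c} = G.cl {b, a} := by
  refine eq_of_subset_of_card_le ?_ ?_
  · rw [← G.cl_cl {b, a}]
    exact G.cl_mono (insert_subset (G.subset_cl _ (mem_insert_self _ _)) (singleton_subset_iff.2 k))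
  · rw [G.card_cl, G.card_cl, G.rk_two b c h]
    refine (gs_strictMono G.two_le).monotone ?_
    have := G.rk_insert b {a}
    have := G.rk_one a
    omega

/-- two lines in a plane meet -/
theorem lines_meet {b1 b2 b3 b4 : Pt} (h12 : b1 ≠ b2) (h34 : b3 ≠ b4)
    (h : G.rk {b1, b2, b3, b4} ≤ 3) : ∃ h, h ∈ G.cl {b1, b2} ∧ h ∈ G.cl {b3, b4} := by
  have t2 := G.ht
  have a1 : G.rk (G.perp {b1, b2}) = t - 1 := by rw [G.rk_perp, G.rk_two _ _ h12]; omega
  have a2 : G.rk (G.perp {b3, b4}) = t - 1 := by rw [G.rk_perp, G.rk_two _ _ h34]; omega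
  have a3 : t - 2 ≤ G.rk (G.perp {b1, b2, b3, b4}) := by rw [G.rk_perp]; omega
  have s1 : G.perp {b1, b2, b3, b4} ⊆ G.perp {b1, b2} := G.perp_anti fun x hx => by
    simp only [mem_insert, mem_singleton] at hx ⊢
    tauto
  have s2 : G.perp {b1, b2, b3, b4} ⊆ G.perp {b3, b4} :=
    G.perp_anti ((subset_insert _ _).trans (subset_insert _ _))
  have key : ∃ y, G.perp {b3, b4} ⊆ G.cl (insert y (G.perp {b1, b2})) := by
    by_cases c : G.perp {b3, b4} ⊆ G.perp {b1, b2, b3, b4}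
    · exact ⟨b1, c.trans (s1.trans ((subset_insert _ _).trans (G.subset_cl _)))⟩
    obtain ⟨y, y1, y2⟩ := not_subset.1 c
    refine ⟨y, Eq.trans_subset (eq_of_subset_of_card_le ?_ ?_).symm
      (G.cl_mono (insert_subset_insert y s1))⟩
    · rw [← G.cl_perp {b3, b4}]
      exact G.cl_mono (insert_subset y1 s2)
    · rw [G.card_cl, ← G.cl_perp {b3, b4}, G.card_cl, a2]
      refine (gs_strictMono G.two_le).monotone ?_
      have := G.rk_lt (subset_insert y _) (mem_insert_self _ _) (by rwa [G.cl_perp])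
      omega
  obtain ⟨y, hy⟩ := key
  have c : 0 < (G.perp (insert y (G.perp {b1, b2}))).card := by
    rw [G.card_perp]
    have := G.rk_insert y (G.perp {b1, b2})
    exact (gs_strictMono G.two_le (by omega : 0 < _)).trans_le' (Nat.zero_le _)
  obtain ⟨z, hz⟩ := card_pos.1 c
  refine ⟨z, G.perp_anti (subset_insert _ _) hz, G.perp_anti hy ?_⟩
  rwa [G.perp_cl]

theorem om_nonneg (b1 b2 h : Pt) : 0 ≤ om G b1 b2 h := by
  unfold om
  split_ifs
  · exact mul_nonneg (Nat.cast_nonneg _) (ind_nonneg _)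
  · exact ind_nonneg _

theorem RR_om1 (ht : 3 ≤ t) {b1 b3 b4 : Pt} (h34 : b3 ≠ b4) : |RR G b1 b1 b3 b4| ≤
    33 * (q : ℝ) ^ (t + 1) * ∑ h, om G b1 b1 h * om G b3 b4 h := by
  have one := single_le_sum (f := fun h => om G b1 b1 h * om G b3 b4 h)
    (fun h _ => mul_nonneg (om_nonneg G _ _ _) (om_nonneg G _ _ _)) (mem_univ b1)
  by_cases c : b4 ∈ G.cl {b1, b1, b3}
  · rw [insert_idem, pair_comm] at c
    have k : b1 ∈ G.cl {b3, b4} := by
      rw [line_eq G h34 c]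
      exact G.subset_cl _ (by simp)
    have e : om G b1 b1 b1 * om G b3 b4 b1 = q := by
      rw [om, om, if_pos rfl, if_neg h34, ind_pos rfl, ind_pos k, mul_one, mul_one]
    refine (RR_le' G ht _ _ _ _ (i := 2) (j := t + 1 + 1) ((G.rk_two _ _ h34).ge.trans
      (G.rk_mono ((subset_insert _ _).trans (subset_insert _ _)))) (by omega)).trans ?_
    rw [pow_succ _ (t + 1), ← mul_assoc]
    exact mul_le_mul_of_nonneg_left (e.ge.trans one) (by positivity)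
  · rw [RR_zero G c, abs_zero]
    exact mul_nonneg (by positivity)
      ((mul_nonneg (om_nonneg G _ _ _) (om_nonneg G _ _ _)).trans one)

theorem RR_om (ht : 3 ≤ t) (b1 b2 b3 b4 : Pt) : |RR G b1 b2 b3 b4| ≤
    33 * (q : ℝ) ^ (t + 1) * ∑ h, om G b1 b2 h * om G b3 b4 h +
      33 * (q : ℝ) ^ (t + 2) * (ind (b1 = b2) * ind (b3 = b4)) := by
  have one := fun z => single_le_sum (f := fun h => om G b1 b2 h * om G b3 b4 h)
    (fun h _ => mul_nonneg (om_nonneg G _ _ _) (om_nonneg G _ _ _)) (mem_univ z)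
  have n1 : 0 ≤ 33 * (q : ℝ) ^ (t + 1) * ∑ h, om G b1 b2 h * om G b3 b4 h :=
    mul_nonneg (by positivity)
      ((mul_nonneg (om_nonneg G _ _ _) (om_nonneg G _ _ _)).trans (one b1))
  have n2 : 0 ≤ 33 * (q : ℝ) ^ (t + 2) * (ind (b1 = b2) * ind (b3 = b4)) :=
    mul_nonneg (by positivity) (mul_nonneg (ind_nonneg _) (ind_nonneg _))
  by_cases h12 : b1 = b2 <;> by_cases h34 : b3 = b4
  · subst h12 h34
    by_cases h13 : b1 = b3
    · subst h13
      have e : om G b1 b1 b1 * om G b1 b1 b1 = q * q := by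
        rw [om, if_pos rfl, ind_pos rfl, mul_one]
      refine (RR_le' G ht _ _ _ _ (i := 1) (j := t + 1 + 1 + 1)
        (G.one_le_rk (insert_nonempty _ _)) (by omega)).trans (le_add_of_le_of_nonneg ?_ n2)
      rw [pow_succ _ (t + 1 + 1), pow_succ _ (t + 1), mul_assoc, ← mul_assoc 33]
      exact mul_le_mul_of_nonneg_left (e.ge.trans (one b1)) (by positivity)
    · refine (RR_le' G ht _ _ _ _ (i := 2) (j := t + 2) ((G.rk_two _ _ h13).ge.trans
        (G.rk_mono fun x hx => ?_)) (by omega)).trans (le_add_of_nonneg_of_le n1 ?_)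
      · simp only [mem_insert, mem_singleton] at hx ⊢
        tauto
      · rw [ind_pos rfl, ind_pos rfl, mul_one, mul_one]
  · subst h12
    exact le_add_of_le_of_nonneg (RR_om1 G ht h34) n2
  · subst h34
    refine le_add_of_le_of_nonneg ?_ n2
    rw [RR_sw, sum_congr rfl fun h _ => mul_comm (om G b1 b2 h) _]
    exact RR_om1 G ht h12
  refine le_add_of_le_of_nonneg ?_ n2
  by_cases c : b4 ∈ G.cl {b1, b2, b3}
  swap
  · rwa [RR_zero G c, abs_zero]
  have s12 : ({b1, b2} : Finset Pt) ⊆ {b1, b2, b3, b4} := fun x hx => by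
    simp only [mem_insert, mem_singleton] at hx ⊢
    tauto
  by_cases d : ({b3, b4} : Finset Pt) ⊆ G.cl {b1, b2}
  · have e : (q : ℝ) ≤ ∑ h, om G b1 b2 h * om G b3 b4 h := by
      have e1 : ∑ h ∈ G.cl {b3, b4}, (1 : ℝ) ≤ ∑ h, om G b1 b2 h * om G b3 b4 h := by
        refine (sum_le_sum fun h hh => ?_).trans (sum_le_sum_of_subset_of_nonneg (subset_univ _)
          fun h _ _ => mul_nonneg (om_nonneg G _ _ _) (om_nonneg G _ _ _))
        rw [om, om, if_neg h12, if_neg h34, ind_pos hh,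
          ind_pos ((G.cl_mono d).trans (G.cl_cl _).le hh), mul_one]
      rw [sum_const, G.card_cl, G.rk_two _ _ h34] at e1
      simp [gs, sum_range_succ] at e1
      linarith
    refine (RR_le' G ht _ _ _ _ (i := 2) (j := t + 1 + 1) ((G.rk_two _ _ h12).ge.trans
      (G.rk_mono s12)) (by omega)).trans ?_
    rw [pow_succ _ (t + 1), ← mul_assoc]
    exact mul_le_mul_of_nonneg_left e (by positivity)
  · obtain ⟨y, y1, y2⟩ := not_subset.1 d
    have r1 := G.rk_lt s12 (mem_insert_of_mem (mem_insert_of_mem y1)) y2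
    rw [G.rk_two _ _ h12] at r1
    have r2 : G.rk {b1, b2, b3, b4} ≤ 3 := by
      refine (G.rk_mono fun x hx => ?_).trans ((G.rk_cl _).le.trans (R_rk3 G b1 b2 b3))
      simp only [mem_insert, mem_singleton] at hx
      rcases hx with rfl | rfl | rfl | rfl
      · exact G.subset_cl _ (by simp)
      · exact G.subset_cl _ (by simp)
      · exact G.subset_cl _ (by simp)
      · exact c
    obtain ⟨z, z1, z2⟩ := lines_meet G h12 h34 r2
    have e : om G b1 b2 z * om G b3 b4 z = 1 := by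
      rw [om, om, if_neg h12, if_neg h34, ind_pos z1, ind_pos z2, mul_one]
    refine (RR_le' G ht _ _ _ _ (i := 3) (j := t + 1) r1 (by omega)).trans ?_
    exact le_mul_of_one_le_right (by positivity) (e.ge.trans (one z))

end Pool.Agent.Work.MP_e10cd8_co.Gap
end

-- merged part: Pool.Agent.Work.MP_e10cd8_co.Gap.Rel
section
/-! The fourth moment kernel. -/

namespace Pool.Agent.Work.MP_e10cd8_co.Gap

open Finset Four All Uni

variable {q t : ℕ} {Pt : Type} [Fintype Pt] [DecidableEq Pt] (G : GP q t Pt)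

theorem psi_sum {P : Finset Pt} (hP : P.Nonempty) (b : Pt) :
    ∑ a ∈ P, psi G a b = P.card * (tb G P b - 1) := by
  have n0 : (P.card : ℝ) ≠ 0 := by exact_mod_cast hP.card_pos.ne'
  have h1 : ∑ a ∈ P, ind (a ∈ G.pl b) = ((G.pl b ∩ P).card : ℝ) := by
    rw [inter_comm, ← filter_mem_eq_inter, ← sum_boole]
    refine sum_congr rfl fun a _ => ?_
    split_ifs with h
    · exact ind_pos h
    · exact ind_neg h
  simp only [psi, sum_sub_distrib, ← mul_sum, h1, sum_const, nsmul_eq_mul, tb, ms]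
  field_simp

/-- `GP.mix` for `f` extended by zero outside `Y`, times `q ^ 2`; `G.symm` -/
theorem NN_sq (Y : Finset Pt) (f : Pt → ℝ) :
    ∑ a, NN G Y f a ^ 2 ≤ (q : ℝ) ^ (t + 1) * ∑ b ∈ Y, f b ^ 2 := by
  have q0 : (0 : ℝ) < q := by exact_mod_cast lt_of_lt_of_le two_pos G.two_le
  have h := G.mix fun b => if b ∈ Y then f b else 0
  have e1 : ∑ x, (if x ∈ Y then f x else 0) ^ 2 = ∑ b ∈ Y, f b ^ 2 := by
    simp only [ite_pow, zero_pow two_ne_zero, sum_ite_mem, univ_inter]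
  have e2 : ∀ a, NN G Y f a = q * (∑ x ∈ G.pl a, (if x ∈ Y then f x else 0) -
      (∑ x, if x ∈ Y then f x else 0) / q) := fun a => by
    rw [mul_sub, mul_div_cancel₀ _ q0.ne', sum_ite_mem, sum_ite_mem, univ_inter, inter_comm,
      ← sum_ite_mem, mul_sum, ← sum_sub_distrib]
    refine sum_congr rfl fun b _ => ?_
    rw [psi, G.symm a b]
    split_ifs with k
    · rw [ind_pos k]
      ring
    · rw [ind_neg k]
      ring
  rw [e1] at h
  simp only [e2, mul_pow, ← mul_sum]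
  refine (mul_le_mul_of_nonneg_left h (by positivity)).trans (le_of_eq ?_)
  field_simp
  ring

/-- the right side equals the left side plus `(q - 1) ^ 3 (∑ f) ^ 4` -/
theorem NN_four (Y : Finset Pt) (f : Pt → ℝ) :
    ∑ a, NN G Y f a ^ 4 ≤ ∑ b1 ∈ Y, ∑ b2 ∈ Y, ∑ b3 ∈ Y, ∑ b4 ∈ Y,
      f b1 * f b2 * f b3 * f b4 * RR G b1 b2 b3 b4 := by
  have q1 : (1 : ℝ) ≤ q := by exact_mod_cast le_trans one_le_two G.two_le
  have e : ∀ u : Pt → ℝ, (∑ b ∈ Y, u b) ^ 4 =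
      ∑ b1 ∈ Y, ∑ b2 ∈ Y, ∑ b3 ∈ Y, ∑ b4 ∈ Y, u b1 * u b2 * u b3 * u b4 := fun u => by
    simp only [← mul_sum, ← sum_mul]
    ring
  have h : ∑ b1 ∈ Y, ∑ b2 ∈ Y, ∑ b3 ∈ Y, ∑ b4 ∈ Y, f b1 * f b2 * f b3 * f b4 * RR G b1 b2 b3 b4 =
      ∑ a, NN G Y f a ^ 4 + (∑ b ∈ Y, f b) ^ 4 * ((q : ℝ) - 1) ^ 3 := by
    simp only [NN, e, sum_mul]
    rw [sum_comm (s := univ), ← sum_add_distrib]
    refine sum_congr rfl fun b1 _ => ?_
    rw [sum_comm (s := univ), ← sum_add_distrib]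
    refine sum_congr rfl fun b2 _ => ?_
    rw [sum_comm (s := univ), ← sum_add_distrib]
    refine sum_congr rfl fun b3 _ => ?_
    rw [sum_comm (s := univ), ← sum_add_distrib]
    refine sum_congr rfl fun b4 _ => ?_
    rw [RR, mul_add, mul_sum]
    congr 1
    exact sum_congr rfl fun a _ => by ring
  rw [h]
  exact le_add_of_nonneg_right (mul_nonneg (by positivity) (pow_nonneg (by linarith) _))

theorem RR_a (b1 b2 b3 b4 : Pt) : RR G b1 b2 b3 b4 = RR G b1 b3 b2 b4 := RR_23 G b1 b2 b3 b4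

theorem RR_b (b1 b2 b3 b4 : Pt) : RR G b1 b2 b3 b4 = RR G b1 b4 b2 b3 := by
  rw [RR_34, RR_23]

theorem RR_crude (ht : 3 ≤ t) (b1 b2 b3 b4 : Pt) :
    |RR G b1 b2 b3 b4| ≤ 33 * (q : ℝ) ^ (t + 3) :=
  RR_le' G ht b1 b2 b3 b4 (i := 1) (G.one_le_rk (insert_nonempty _ _)) rfl

end Pool.Agent.Work.MP_e10cd8_co.Gap
end

-- merged part: Pool.Agent.Work.MP_e10cd8_co.Gap.Av
section
/-! Means over tuples. -/

namespace Pool.Agent.Work.MP_e10cd8_co.Gap

open Finset Four All Uni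

variable {ω : Type} {Ω : Finset ω}

theorem Av_sum {κ : Type} (I : Finset κ) (f : κ → ω → ℝ) :
    Av Ω (fun w => ∑ i ∈ I, f i w) = ∑ i ∈ I, Av Ω (f i) := by
  unfold Av
  rw [sum_comm, sum_div]

theorem Av_mul (c : ℝ) (f : ω → ℝ) : Av Ω (fun w => c * f w) = c * Av Ω f := by
  unfold Av
  rw [← mul_sum, mul_div_assoc]

theorem Av_add (f g : ω → ℝ) : Av Ω (fun w => f w + g w) = Av Ω f + Av Ω g := by
  unfold Av
  rw [sum_add_distrib, add_div]

theorem Av_sub (f g : ω → ℝ) : Av Ω (fun w => f w - g w) = Av Ω f - Av Ω g := by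
  unfold Av
  rw [sum_sub_distrib, sub_div]

theorem Av_congr {f g : ω → ℝ} (h : ∀ w ∈ Ω, f w = g w) : Av Ω f = Av Ω g := by
  unfold Av
  rw [sum_congr rfl h]

theorem Av_mono {f g : ω → ℝ} (h : ∀ w ∈ Ω, f w ≤ g w) : Av Ω f ≤ Av Ω g :=
  div_le_div_of_nonneg_right (sum_le_sum h) (Nat.cast_nonneg _)

theorem Av_nonneg {f : ω → ℝ} (h : ∀ w ∈ Ω, 0 ≤ f w) : 0 ≤ Av Ω f :=
  div_nonneg (sum_nonneg h) (Nat.cast_nonneg _)

theorem Av_const (hΩ : Ω.Nonempty) (c : ℝ) : Av Ω (fun _ => c) = c := by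
  have n0 : (Ω.card : ℝ) ≠ 0 := by exact_mod_cast hΩ.card_pos.ne'
  unfold Av
  rw [sum_const, nsmul_eq_mul, mul_div_cancel_left₀ _ n0]

theorem abs_Av_le (f : ω → ℝ) : |Av Ω f| ≤ Av Ω fun w => |f w| := by
  unfold Av
  rw [abs_div, Nat.abs_cast]
  exact div_le_div_of_nonneg_right (abs_sum_le_sum_abs _ _) (Nat.cast_nonneg _)

theorem exists_ge_Av (hΩ : Ω.Nonempty) (f : ω → ℝ) : ∃ w ∈ Ω, Av Ω f ≤ f w := by
  have n0 : (Ω.card : ℝ) ≠ 0 := by exact_mod_cast hΩ.card_pos.ne'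
  refine exists_le_of_sum_le hΩ (le_of_eq ?_)
  rw [sum_const, nsmul_eq_mul, Av, mul_div_cancel₀ _ n0]

theorem tup_nonempty (hΩ : Ω.Nonempty) (N : ℕ) : (tup N Ω).Nonempty :=
  Fintype.piFinset_nonempty.2 fun _ => hΩ

theorem grp_nonempty (hΩ : Ω.Nonempty) (q : ℕ) : (grp q Ω).Nonempty :=
  (tup_nonempty hΩ _).product (tup_nonempty hΩ _)

theorem Av_card (N : ℕ) : ((tup N Ω).card : ℝ) = (Ω.card : ℝ) ^ N := by
  exact_mod_cast One.card_tup Ω N

theorem Av_tup (N : ℕ) (f : ω → ℝ) : Av (tup N Ω) (fun T => ∏ j, f (T j)) = Av Ω f ^ N := by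
  unfold Av
  rw [Av_card, div_pow]
  exact congrArg (· / _) (One.sum_tup_prod Ω N f)

theorem Av_prod {ω' : Type} (B : Finset ω') (f : ω → ℝ) (g : ω' → ℝ) :
    Av (Ω ×ˢ B) (fun w => f w.1 * g w.2) = Av Ω f * Av B g := by
  unfold Av
  rw [sum_product, card_product, div_mul_div_comm, sum_mul_sum]
  push_cast
  rfl

theorem Av_succ (N : ℕ) (F : (Fin (N + 1) → ω) → ℝ) :
    Av (tup (N + 1) Ω) F = Av Ω fun a => Av (tup N Ω) fun T => F (Fin.cons a T) := by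
  unfold Av
  rw [Av_card, Av_card, ← sum_div, div_div, ← pow_succ]
  exact congrArg (· / _) (One.sum_tup_succ Ω N F)

theorem Av_zero (hΩ : Ω.Nonempty) {z : ω → ℝ} (h : Av Ω z = 0) : ∑ a ∈ Ω, z a = 0 := by
  have n0 : (Ω.card : ℝ) ≠ 0 := by exact_mod_cast hΩ.card_pos.ne'
  exact (div_eq_zero_iff.1 h).resolve_right n0

theorem Av_eq (hΩ : Ω.Nonempty) (z : ω → ℝ) : ∑ a ∈ Ω, z a = Ω.card * Av Ω z := by
  have n0 : (Ω.card : ℝ) ≠ 0 := by exact_mod_cast hΩ.card_pos.ne'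
  rw [Av, mul_div_cancel₀ _ n0]

theorem Av_of (hΩ : Ω.Nonempty) {f : ω → ℝ} {c : ℝ} (h : ∑ a ∈ Ω, f a = Ω.card * c) :
    Av Ω f = c := by
  have n0 : (Ω.card : ℝ) ≠ 0 := by exact_mod_cast hΩ.card_pos.ne'
  rw [Av, h, mul_div_cancel_left₀ _ n0]

theorem mom1 (hΩ : Ω.Nonempty) (N : ℕ) (z : ω → ℝ) :
    Av (tup N Ω) (fun T => ∑ i, z (T i)) = N * Av Ω z := by
  induction N with
  | zero => simp [Av]
  | succ N ih =>
    rw [Av_succ]
    simp only [Fin.sum_univ_succ, Fin.cons_zero, Fin.cons_succ, Av_add, ih,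
      Av_const (tup_nonempty hΩ N), Av_const hΩ]
    push_cast
    ring

theorem mom2 (hΩ : Ω.Nonempty) (N : ℕ) {z1 z2 : ω → ℝ} (h1 : Av Ω z1 = 0) (h2 : Av Ω z2 = 0) :
    Av (tup N Ω) (fun T => (∑ i, z1 (T i)) * ∑ i, z2 (T i)) = N * Av Ω fun a => z1 a * z2 a := by
  refine Av_of (tup_nonempty hΩ N) ?_
  rw [Av_card]
  exact One.mom2 Ω z1 z2 (Av_zero hΩ h1) (Av_zero hΩ h2) (Av_eq hΩ _) N

theorem mom4 (hΩ : Ω.Nonempty) (N : ℕ) {z1 z2 z3 z4 : ω → ℝ} (h1 : Av Ω z1 = 0)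
    (h2 : Av Ω z2 = 0) (h3 : Av Ω z3 = 0) (h4 : Av Ω z4 = 0) :
    Av (tup N Ω) (fun T => (∑ i, z1 (T i)) * (∑ i, z2 (T i)) * (∑ i, z3 (T i)) *
        ∑ i, z4 (T i)) =
      N * Av Ω (fun a => z1 a * z2 a * z3 a * z4 a) + N * (N - 1) *
        (Av Ω (fun a => z1 a * z2 a) * Av Ω (fun a => z3 a * z4 a) +
          Av Ω (fun a => z1 a * z3 a) * Av Ω (fun a => z2 a * z4 a) +
          Av Ω (fun a => z1 a * z4 a) * Av Ω (fun a => z2 a * z3 a)) := by
  refine Av_of (tup_nonempty hΩ N) ?_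
  rw [Av_card]
  exact One.mom4 Ω z1 z2 z3 z4 (Av_zero hΩ h1) (Av_zero hΩ h2) (Av_zero hΩ h3) (Av_zero hΩ h4)
    (Av_eq hΩ _) (Av_eq hΩ _) (Av_eq hΩ _) (Av_eq hΩ _) (Av_eq hΩ _) (Av_eq hΩ _) (Av_eq hΩ _) N

end Pool.Agent.Work.MP_e10cd8_co.Gap
end

-- merged part: Pool.Agent.Work.MP_e10cd8_co.Gap.Grp
section
/-! Moments of the test function. -/

namespace Pool.Agent.Work.MP_e10cd8_co.Gap

open Finset Four All Uni

variable {q t : ℕ} {Pt : Type} [Fintype Pt] [DecidableEq Pt] (G : GP q t Pt) {P : Finset Pt}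

omit [Fintype Pt] in
theorem Grp_ind (A : Finset Pt) (a : Pt) : ind (a ∈ A) = One.ind A a := by
  unfold One.ind
  split_ifs with h
  · exact ind_pos h
  · exact ind_neg h

theorem Grp_kil (γ : (Fin (2 * q) → Pt) × (Fin q → Pt)) (b : Pt) :
    kil G γ b = One.kil (G.pl b) γ.1 := by
  simp only [kil, One.kil, Grp_ind]

theorem Grp_cn (γ : (Fin (2 * q) → Pt) × (Fin q → Pt)) (b : Pt) :
    cn G γ b = One.sm (One.ind (G.pl b)) γ.2 := by
  simp only [cn, One.sm, Grp_ind]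

theorem Grp_xc (γ : (Fin (2 * q) → Pt) × (Fin q → Pt)) (b : Pt) :
    xc G P γ b = One.xi P (G.pl b) γ := by
  rw [xc, Grp_kil, Grp_cn]
  rfl

theorem Grp_FF {g : ℕ} (T : Fin g → (Fin (2 * q) → Pt) × (Fin q → Pt)) (b : Pt) :
    FF G T b = One.FF (G.pl b) T := by
  simp only [FF, One.FF, One.uu, Grp_kil, Grp_cn]

theorem Grp_FT {g : ℕ} (T : Fin g → (Fin (2 * q) → Pt) × (Fin q → Pt)) (b : Pt) :
    FT G P T b = One.FT P (G.pl b) T := by
  simp only [FT, One.FT, Grp_xc]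
  split_ifs with h
  · rw [ind_pos (p := tb G P b ≤ 2) h, one_mul]
  · rw [ind_neg (p := tb G P b ≤ 2) h, zero_mul]

theorem Grp_le {ω : Type} {Ω : Finset ω} (hΩ : Ω.Nonempty) {S c : ℝ} (h : S ≤ Ω.card * c) :
    S / Ω.card ≤ c := by
  have n0 : (0 : ℝ) < Ω.card := by exact_mod_cast hΩ.card_pos
  rwa [div_le_iff₀' n0]

include G in
theorem Av_ind (P A : Finset Pt) : Av P (fun a => ind (a ∈ A)) = ms q P A / q := by
  have q0 : (q : ℝ) ≠ 0 := by exact_mod_cast (lt_of_lt_of_le two_pos G.two_le).ne'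
  simp only [Av, ms, Grp_ind, One.sum_ind]
  rw [mul_div_assoc, mul_div_cancel_left₀ _ q0]

theorem kil_bounds (γ : (Fin (2 * q) → Pt) × (Fin q → Pt)) (b : Pt) :
    0 ≤ kil G γ b ∧ kil G γ b ≤ 1 ∧ kil G γ b * kil G γ b = kil G γ b := by
  rw [Grp_kil]
  exact ⟨One.kil_nonneg _ _, One.kil_le _ _, One.kil_sq _ _⟩

theorem sig_le (hP : P.Nonempty) {g : ℕ} (hg : Odd g) (b : Pt) :
    Av (tup g (grp q P)) (fun T => FF G T b) * (tb G P b - 1) ≤ 0 ∧ (tb G P b ≤ 1 / 2 →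
      Av (tup g (grp q P)) (fun T => FF G T b) * (tb G P b - 1) ≤ -((1 / 8) ^ g / 2)) := by
  have hn := tup_nonempty (grp_nonempty hP q) g
  have n0 : (0 : ℝ) < (tup g (grp q P)).card := by exact_mod_cast hn.card_pos
  simp only [Av, Grp_FF]
  rw [div_mul_eq_mul_div]
  refine ⟨div_nonpos_of_nonpos_of_nonneg (One.signal0 G.two_le hP hg (G.pl b)) n0.le,
    fun h => Grp_le hn ((One.signal1 G.two_le hP hg (G.pl b) h).trans (le_of_eq ?_))⟩
  rw [one_div, inv_pow]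
  change -(((tup g (grp q P)).card : ℝ) / _) = _
  field_simp

theorem grp_L2 (hP : P.Nonempty) (g : ℕ) (b : Pt) :
    Av (tup g (grp q P)) (fun T => (FF G T b - FT G P T b) ^ 2) ≤ 4 ^ g * (tb G P b - 1) ^ 2 := by
  simp only [Av, Grp_FF, Grp_FT]
  exact Grp_le (tup_nonempty (grp_nonempty hP q) g) (One.ltwo G.two_le hP (G.pl b))

theorem grp_four (hP : P.Nonempty) {b1 b2 b3 b4 : Pt} (h1 : tb G P b1 ≤ 2) (h2 : tb G P b2 ≤ 2)
    (h3 : tb G P b3 ≤ 2) (h4 : tb G P b4 ≤ 2) :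
    |Av (grp q P) fun γ => xc G P γ b1 * xc G P γ b2 * xc G P γ b3 * xc G P γ b4| ≤
      XX G P b1 b2 * XX G P b3 b4 + XX G P b1 b3 * XX G P b2 b4 + XX G P b1 b4 * XX G P b2 b3 +
        ms q P (G.pl b1 ∩ G.pl b2 ∩ G.pl b3) + 160 / q := by
  simp only [Av, Grp_xc]
  rw [abs_div, Nat.abs_cast]
  exact Grp_le (grp_nonempty hP q) (One.one_group G.two_le hP _ _ _ _ h1 h2 h3 h4)

theorem Grp_five {a b c d e : ℝ} (ha : 0 ≤ a) (hb : 0 ≤ b) (hc : 0 ≤ c) (hd : 0 ≤ d) (he : 0 ≤ e)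
    (g : ℕ) : (a + b + c + d + e) ^ g ≤ 5 ^ g * (a ^ g + b ^ g + c ^ g + d ^ g + e ^ g) := by
  have pa := pow_nonneg ha g
  have pb := pow_nonneg hb g
  have pc := pow_nonneg hc g
  have pd := pow_nonneg hd g
  have pe := pow_nonneg he g
  have key : ∀ m : ℝ, a + b + c + d + e ≤ 5 * m →
      m ^ g ≤ a ^ g + b ^ g + c ^ g + d ^ g + e ^ g →
      (a + b + c + d + e) ^ g ≤ 5 ^ g * (a ^ g + b ^ g + c ^ g + d ^ g + e ^ g) :=
    fun m h k => (pow_le_pow_left₀ (by positivity) h g).trans (by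
      rw [mul_pow]
      exact mul_le_mul_of_nonneg_left k (by positivity))
  by_cases k1 : a + b + c + d + e ≤ 5 * a
  · exact key a k1 (by linarith)
  by_cases k2 : a + b + c + d + e ≤ 5 * b
  · exact key b k2 (by linarith)
  by_cases k3 : a + b + c + d + e ≤ 5 * c
  · exact key c k3 (by linarith)
  by_cases k4 : a + b + c + d + e ≤ 5 * d
  · exact key d k4 (by linarith)
  exact key e (by linarith) (by linarith)

theorem tup_four (hP : P.Nonempty) (g : ℕ) {b1 b2 b3 b4 : Pt} (h1 : tb G P b1 ≤ 2)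
    (h2 : tb G P b2 ≤ 2) (h3 : tb G P b3 ≤ 2) (h4 : tb G P b4 ≤ 2) :
    |Av (tup g (grp q P)) fun T => FT G P T b1 * FT G P T b2 * FT G P T b3 * FT G P T b4| ≤
      5 ^ g * ((XX G P b1 b2 * XX G P b3 b4) ^ g + (XX G P b1 b3 * XX G P b2 b4) ^ g +
        (XX G P b1 b4 * XX G P b2 b3) ^ g + ms q P (G.pl b1 ∩ G.pl b2 ∩ G.pl b3) ^ g +
        (160 / (q : ℝ)) ^ g) := by
  have x0 : ∀ b h, 0 ≤ XX G P b h := fun b h => One.tau_nonneg q P _
  simp only [Av, Grp_FT]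
  rw [abs_div, Nat.abs_cast]
  exact (Grp_le (tup_nonempty (grp_nonempty hP q) g)
    (One.four G.two_le hP _ _ _ _ h1 h2 h3 h4)).trans (Grp_five (mul_nonneg (x0 _ _) (x0 _ _))
      (mul_nonneg (x0 _ _) (x0 _ _)) (mul_nonneg (x0 _ _) (x0 _ _)) (One.tau_nonneg q P _)
      (by positivity) g)

end Pool.Agent.Work.MP_e10cd8_co.Gap
end

-- merged part: Pool.Agent.Work.MP_e10cd8_co.Gap.Mom
section
/-! The fourth moment. Here `S = q ^ (t + 1) / n` and `J = 4 (t + 1)`. -/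

namespace Pool.Agent.Work.MP_e10cd8_co.Gap

open Finset Four All Uni

variable {q t r : ℕ} {Pt : Type} [Fintype Pt] [DecidableEq Pt] {G : GP q t Pt} {P Y : Finset Pt}
  {K : ℝ}

omit [Fintype Pt] [DecidableEq Pt] in
theorem Mom_sq (Y : Finset Pt) (a : Pt → Pt → ℝ) :
    ∑ b1 ∈ Y, ∑ b2 ∈ Y, ∑ b3 ∈ Y, ∑ b4 ∈ Y, a b1 b2 * a b3 b4 = (∑ b ∈ Y, ∑ b' ∈ Y, a b b') ^ 2 := by
  simp only [← mul_sum, ← sum_mul, sq]

omit [DecidableEq Pt] in
theorem Mom_comm (Y : Finset Pt) (f : Pt → Pt → Pt → Pt → Pt → ℝ) :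
    ∑ a, ∑ b1 ∈ Y, ∑ b2 ∈ Y, ∑ b3 ∈ Y, ∑ b4 ∈ Y, f a b1 b2 b3 b4 =
      ∑ b1 ∈ Y, ∑ b2 ∈ Y, ∑ b3 ∈ Y, ∑ b4 ∈ Y, ∑ a, f a b1 b2 b3 b4 := by
  rw [sum_comm]
  refine sum_congr rfl fun _ _ => ?_
  rw [sum_comm]
  refine sum_congr rfl fun _ _ => ?_
  rw [sum_comm]
  exact sum_congr rfl fun _ _ => sum_comm

theorem Mom_om (G : GP q t Pt) (b b' a : Pt) : 0 ≤ om G b b' a := by
  unfold om
  split_ifs
  · exact mul_nonneg (Nat.cast_nonneg _) (ind_nonneg _)
  · exact ind_nonneg _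

theorem CP.ne (h : CP G P Y r K) : P.Nonempty := by
  have := h.hq
  exact card_pos.1 (lt_of_lt_of_le (by omega) h.hn)

theorem CP.mono (h : CP G P Y r K) {Y' : Finset Pt} (h' : Y' ⊆ Y) : CP G P Y' r K := by
  refine ⟨h.hq, h.hn, h.hn2, h.hr, h.hv, h.hK, le_trans ?_ h.hY⟩
  have : (Y'.card : ℝ) ≤ Y.card := by exact_mod_cast card_le_card h'
  gcongr

/-- `(n q ^ (3 r + 4)) ^ 2 ≤ 2 q ^ (t + 1) q ^ (t + 1)` -/
theorem CP.base (h : CP G P Y r K) :
    (q : ℝ) ^ (3 * r + 4) ≤ 2 * ((q : ℝ) ^ (t + 1) / P.card) ∧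
      (Y.card : ℝ) ≤ K * (q : ℝ) ^ (r + 1) * ((q : ℝ) ^ (t + 1) / P.card) ∧
      1 ≤ (q : ℝ) ^ (t + 1) / P.card ∧ (P.card : ℝ) ≤ (q : ℝ) ^ (4 * (t + 1)) := by
  have hq : (2 : ℝ) ≤ q := by exact_mod_cast G.two_le
  have hq1 : (1 : ℝ) ≤ q := by linarith
  have hn : (0 : ℝ) < P.card := by exact_mod_cast card_pos.2 h.ne
  have hr := h.hr
  have h1 : (q : ℝ) ^ (3 * r + 4) ≤ 2 * ((q : ℝ) ^ (t + 1) / P.card) := by
    rw [← mul_div_assoc, le_div_iff₀ hn]
    refine (pow_le_pow_iff_left₀ (by positivity) (by positivity) two_ne_zero).1 ?_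
    have h2 : ((q : ℝ) ^ (3 * r + 4)) ^ 2 ≤ (q : ℝ) ^ (t + 1) := by
      rw [← pow_mul]
      exact pow_le_pow_right₀ hq1 (by omega)
    have h3 : (0 : ℝ) ≤ (q : ℝ) ^ (t + 1) := by positivity
    calc ((q : ℝ) ^ (3 * r + 4) * P.card) ^ 2 = ((q : ℝ) ^ (3 * r + 4)) ^ 2 * (P.card : ℝ) ^ 2 :=
          mul_pow _ _ _
      _ ≤ (q : ℝ) ^ (t + 1) * (2 * (q : ℝ) ^ (t + 1)) :=
          mul_le_mul h2 h.hn2 (by positivity) h3
      _ ≤ _ := by nlinarith [mul_nonneg h3 h3]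
  have h4 : (2 : ℝ) ≤ (q : ℝ) ^ (3 * r + 4) := hq.trans (le_self_pow₀ hq1 (by omega))
  have h5 : 1 ≤ (q : ℝ) ^ (t + 1) / P.card := by linarith
  refine ⟨h1, ?_, h5, ?_⟩
  · rw [← mul_div_assoc, le_div_iff₀ hn, mul_assoc, ← pow_add]
    rw [show r + 1 + (t + 1) = t + r + 2 by omega]
    exact h.hY
  · rw [le_div_iff₀ hn, one_mul] at h5
    exact h5.trans (pow_le_pow_right₀ hq1 (by omega))

/-- `pair`, `CP.hv`, `CP.base`; `|Y| q ^ (r + 1) ≤ 2 K S ^ 2 / q`; `|Y| ≤ 2 q ^ t`, and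
`4 q ^ (2 t) / q ^ J ≤ 4 S ^ 2 / q` as `n ^ 2 ≤ q ^ (J + 1)` -/
theorem CP.pw (h : CP G P Y r K) (hY : ∀ b ∈ Y, tb G P b ≤ 2) :
    PW G P Y (4 * (t + 1)) ≤ 15 * 8 ^ (4 * (t + 1)) * K * (((q : ℝ) ^ (t + 1) / P.card) ^ 2 / q) := by
  obtain ⟨b1, b2, b3, -⟩ := h.base
  have hp := pair G h.ne hY (J := 4 * (t + 1)) (by omega)
  have hv := h.hv
  have hc := G.card_pt_le
  have hq : (2 : ℝ) ≤ q := by exact_mod_cast G.two_le
  have hq1 : (1 : ℝ) ≤ q := by linarith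
  have hq0 : (0 : ℝ) < q := by linarith
  have hr := h.hr
  have hK := h.hK
  generalize (q : ℝ) ^ (t + 1) / P.card = S at *
  set J := 4 * (t + 1) with hJ
  have hS : 0 < S := by linarith
  have hW : 0 ≤ K * (S ^ 2 / q) := by positivity
  have e8 : (0 : ℝ) < 8 ^ J := by positivity
  have a1 : 3 * 2 ^ J * (S ^ 2 / q) ≤ 3 * 8 ^ J * (K * (S ^ 2 / q)) := by
    have : S ^ 2 / q ≤ K * (S ^ 2 / q) := le_mul_of_one_le_left (by positivity) hK
    gcongr
    norm_num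
  have a2 : (Y.card : ℝ) * (q : ℝ) ^ (r + 1) ≤ 2 * (K * (S ^ 2 / q)) := by
    have : (q : ℝ) ^ (r + 1) * (q : ℝ) ^ (r + 1) * q ≤ 2 * S := by
      rw [← pow_add, ← pow_succ]
      exact (pow_le_pow_right₀ hq1 (by omega)).trans b1
    calc (Y.card : ℝ) * (q : ℝ) ^ (r + 1) ≤ K * (q : ℝ) ^ (r + 1) * S * (q : ℝ) ^ (r + 1) := by
          gcongr
      _ = K * S / q * ((q : ℝ) ^ (r + 1) * (q : ℝ) ^ (r + 1) * q) := by field_simp
      _ ≤ K * S / q * (2 * S) := by gcongr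
      _ = _ := by ring
  have a3 : 2 ^ J * Y.card * q * ∑ h, (tb G P h / q) ^ J ≤ 8 * 8 ^ J * (K * (S ^ 2 / q)) := by
    have e : (2 : ℝ) ^ J * 2 ^ J ≤ 8 ^ J := by
      rw [← mul_pow]
      gcongr
      norm_num
    calc 2 ^ J * Y.card * q * ∑ h, (tb G P h / q) ^ J
        ≤ 2 ^ J * Y.card * q * (2 ^ (J + 2) * (q : ℝ) ^ r) := by gcongr
      _ = 4 * (2 ^ J * 2 ^ J) * (Y.card * (q : ℝ) ^ (r + 1)) := by ring
      _ ≤ 4 * 8 ^ J * (2 * (K * (S ^ 2 / q))) := by gcongr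
      _ = _ := by ring
  have a4 : (Y.card : ℝ) * Fintype.card Pt * (8 / (q : ℝ)) ^ J ≤ 2 * 8 ^ J * (K * (S ^ 2 / q)) := by
    have e : (q : ℝ) ^ (r + 1) * (q : ℝ) ^ t * q ≤ (q : ℝ) ^ J := by
      rw [← pow_add, ← pow_succ]
      exact pow_le_pow_right₀ hq1 (by omega)
    have e2 : S ≤ S ^ 2 := le_self_pow₀ b3 two_ne_zero
    calc (Y.card : ℝ) * Fintype.card Pt * (8 / (q : ℝ)) ^ J
        ≤ K * (q : ℝ) ^ (r + 1) * S * (2 * (q : ℝ) ^ t) * (8 / (q : ℝ)) ^ J := by gcongr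
      _ = 2 * 8 ^ J * (K * (S / q)) * (((q : ℝ) ^ (r + 1) * (q : ℝ) ^ t * q) / (q : ℝ) ^ J) := by
          rw [div_pow]
          field_simp
      _ ≤ 2 * 8 ^ J * (K * (S ^ 2 / q)) * 1 := by
          gcongr
          exact div_le_one_of_le₀ e (by positivity)
      _ = _ := mul_one _
  nlinarith [mul_nonneg e8.le hW]

/-- the diagonal adds `2 ^ J |Y|` -/
theorem CP.pw2 (h : CP G P Y r K) (hY : ∀ b ∈ Y, tb G P b ≤ 2) :
    ∑ b ∈ Y, ∑ b' ∈ Y, XX G P b b' ^ (4 * (t + 1)) ≤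
      17 * 8 ^ (4 * (t + 1)) * K * (((q : ℝ) ^ (t + 1) / P.card) ^ 2 / q) := by
  obtain ⟨b1, b2, b3, -⟩ := h.base
  have hp := h.pw hY
  have hq : (2 : ℝ) ≤ q := by exact_mod_cast G.two_le
  have hq1 : (1 : ℝ) ≤ q := by linarith
  have hq0 : (0 : ℝ) < q := by linarith
  have hK := h.hK
  generalize (q : ℝ) ^ (t + 1) / P.card = S at *
  set J := 4 * (t + 1) with hJ
  have hS : 0 < S := by linarith
  have a1 : ∑ b ∈ Y, ∑ b' ∈ Y, XX G P b b' ^ J ≤ Y.card * 8 ^ J + PW G P Y J := by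
    rw [PW, ← nsmul_eq_mul, ← sum_const, ← sum_add_distrib]
    refine sum_le_sum fun b hb => ?_
    have e1 : ∑ b' ∈ Y, XX G P b b' ^ J ≤ ∑ b', XX G P b b' ^ J :=
      sum_le_sum_of_subset_of_nonneg (subset_univ _) fun b' _ _ => pow_nonneg (XX_le G P b b').1 _
    rw [← add_sum_erase univ _ (mem_univ b)] at e1
    have e2 : XX G P b b ^ J ≤ 8 ^ J :=
      pow_le_pow_left₀ (XX_le G P b b).1 (by linarith [(XX_le G P b b).2, hY b hb]) _
    linarith
  have a2 : (Y.card : ℝ) ≤ 2 * (K * (S ^ 2 / q)) := by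
    have : (q : ℝ) ^ (r + 1) * q ≤ 2 * S := by
      rw [← pow_succ]
      exact (pow_le_pow_right₀ hq1 (by omega)).trans b1
    calc (Y.card : ℝ) ≤ K * (q : ℝ) ^ (r + 1) * S := b2
      _ = K * S / q * ((q : ℝ) ^ (r + 1) * q) := by field_simp
      _ ≤ K * S / q * (2 * S) := by gcongr
      _ = _ := by ring
  have e8 : (0 : ℝ) ≤ 8 ^ J := by positivity
  nlinarith [mul_le_mul_of_nonneg_right a2 e8]

/-- `k2_sq`, `CP.pw`, `|Y| ^ 2 q ^ r ≤ 2 K ^ 2 S ^ 3 / q ^ 2`, `q ^ t / n = S / q` -/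
theorem CP.k2b (h : CP G P Y r K) (hY : ∀ b ∈ Y, tb G P b ≤ 2) :
    ∑ a, k2 G P Y (4 * (t + 1)) a ^ 2 ≤
      106 * 16 ^ (4 * (t + 1)) * K ^ 2 * (((q : ℝ) ^ (t + 1) / P.card) ^ 3 / q ^ 2) := by
  obtain ⟨b1, b2, b3, -⟩ := h.base
  have hp := h.pw hY
  have hk := k2_sq G h.ne hY (J := 4 * (t + 1)) (by omega)
  have hv := h.hv
  have hq : (2 : ℝ) ≤ q := by exact_mod_cast G.two_le
  have hq1 : (1 : ℝ) ≤ q := by linarith
  have hq0 : (0 : ℝ) < q := by linarith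
  have hK := h.hK
  have e0 : (q : ℝ) ^ t / P.card = (q : ℝ) ^ (t + 1) / P.card / q := by
    rw [pow_succ]
    field_simp
  rw [e0] at hk
  generalize (q : ℝ) ^ (t + 1) / P.card = S at *
  set J := 4 * (t + 1) with hJ
  have hS : 0 < S := by linarith
  have a1 : (Y.card : ℝ) ^ 2 * (q : ℝ) ^ r ≤ 2 * (K ^ 2 * (S ^ 3 / q ^ 2)) := by
    have : ((q : ℝ) ^ (r + 1)) ^ 2 * (q : ℝ) ^ r * q ^ 2 ≤ 2 * S := by
      rw [← pow_mul, ← pow_add, ← pow_add]
      exact (pow_le_pow_right₀ hq1 (by omega)).trans b1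
    calc (Y.card : ℝ) ^ 2 * (q : ℝ) ^ r ≤ (K * (q : ℝ) ^ (r + 1) * S) ^ 2 * (q : ℝ) ^ r := by
          gcongr
      _ = K ^ 2 * S ^ 2 / q ^ 2 * (((q : ℝ) ^ (r + 1)) ^ 2 * (q : ℝ) ^ r * q ^ 2) := by field_simp
      _ ≤ K ^ 2 * S ^ 2 / q ^ 2 * (2 * S) := by gcongr
      _ = _ := by ring
  have a2 : 2 * (Y.card : ℝ) ^ 2 * 4 ^ J * ∑ h, (tb G P h / q) ^ J ≤
      16 * 16 ^ J * (K ^ 2 * (S ^ 3 / q ^ 2)) := by
    have e : (4 : ℝ) ^ J * 2 ^ J ≤ 16 ^ J := by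
      rw [← mul_pow]
      gcongr
      norm_num
    calc 2 * (Y.card : ℝ) ^ 2 * 4 ^ J * ∑ h, (tb G P h / q) ^ J
        ≤ 2 * (Y.card : ℝ) ^ 2 * 4 ^ J * (2 ^ (J + 2) * (q : ℝ) ^ r) := by gcongr
      _ = 8 * (4 ^ J * 2 ^ J) * ((Y.card : ℝ) ^ 2 * (q : ℝ) ^ r) := by ring
      _ ≤ 8 * 16 ^ J * (2 * (K ^ 2 * (S ^ 3 / q ^ 2))) := by gcongr
      _ = _ := by ring
  have a3 : 6 * 2 ^ J * (S / q) * PW G P Y J ≤ 90 * 16 ^ J * (K ^ 2 * (S ^ 3 / q ^ 2)) := by
    have e : (2 : ℝ) ^ J * 8 ^ J = 16 ^ J := by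
      rw [← mul_pow]
      norm_num
    have e2 : K ≤ K ^ 2 := le_self_pow₀ hK two_ne_zero
    calc 6 * 2 ^ J * (S / q) * PW G P Y J
        ≤ 6 * 2 ^ J * (S / q) * (15 * 8 ^ J * K * (S ^ 2 / q)) := by gcongr
      _ = 90 * (2 ^ J * 8 ^ J) * (K * (S ^ 3 / q ^ 2)) := by field_simp; ring
      _ ≤ 90 * 16 ^ J * (K ^ 2 * (S ^ 3 / q ^ 2)) := by rw [e]; gcongr
  linarith

/-- `RR_crude`, `|Y| ≤ 2 q ^ t`, `q ^ (5 t + 3) ≤ q ^ (8 t + 9)`, `1 ≤ q ^ (t + 1) S ^ 3` -/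
theorem CP.term1 (h : CP G P Y r K) :
    ∑ b1 ∈ Y, ∑ b2 ∈ Y, ∑ b3 ∈ Y, ∑ b4 ∈ Y,
        |RR G b1 b2 b3 b4| * (160 / (q : ℝ)) ^ (8 * (t + 1) + 1) ≤
      528 * 160 ^ (8 * (t + 1) + 1) * ((q : ℝ) ^ (t + 1) * ((q : ℝ) ^ (t + 1) / P.card) ^ 3) := by
  obtain ⟨-, -, b3, -⟩ := h.base
  have hq : (2 : ℝ) ≤ q := by exact_mod_cast G.two_le
  have hq1 : (1 : ℝ) ≤ q := by linarith
  have hq0 : (0 : ℝ) < q := by linarith
  have hc : (Y.card : ℝ) ≤ 2 * (q : ℝ) ^ t :=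
    le_trans (by exact_mod_cast card_le_univ Y) G.card_pt_le
  generalize (q : ℝ) ^ (t + 1) / P.card = S at *
  set g := 8 * (t + 1) + 1 with hg
  have e : ((q : ℝ) ^ t) ^ 4 * (q : ℝ) ^ (t + 3) ≤ (q : ℝ) ^ g := by
    rw [← pow_mul, ← pow_add]
    exact pow_le_pow_right₀ hq1 (by omega)
  have e2 : 1 ≤ (q : ℝ) ^ (t + 1) * S ^ 3 :=
    one_le_mul_of_one_le_of_one_le (one_le_pow₀ hq1) (one_le_pow₀ b3)
  calc ∑ b1 ∈ Y, ∑ b2 ∈ Y, ∑ b3 ∈ Y, ∑ b4 ∈ Y, |RR G b1 b2 b3 b4| * (160 / (q : ℝ)) ^ g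
      ≤ ∑ b1 ∈ Y, ∑ b2 ∈ Y, ∑ b3 ∈ Y, ∑ b4 ∈ Y, 33 * (q : ℝ) ^ (t + 3) * (160 / (q : ℝ)) ^ g := by
        gcongr with b1 _ b2 _ b3 _ b4 _
        exact RR_crude G (by have := h.hr; omega) _ _ _ _
    _ = (Y.card : ℝ) ^ 4 * (33 * (q : ℝ) ^ (t + 3) * (160 / (q : ℝ)) ^ g) := by
        simp only [sum_const, nsmul_eq_mul]
        ring
    _ ≤ (2 * (q : ℝ) ^ t) ^ 4 * (33 * (q : ℝ) ^ (t + 3) * (160 / (q : ℝ)) ^ g) := by gcongr
    _ = 528 * 160 ^ g * ((((q : ℝ) ^ t) ^ 4 * (q : ℝ) ^ (t + 3)) / (q : ℝ) ^ g) := by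
        rw [div_pow]
        field_simp
        ring
    _ ≤ _ := by
        gcongr
        exact (div_le_one_of_le₀ e (by positivity)).trans e2

/-- `M ^ (2 J + 1) ≤ 2 X ^ J M ^ J` with `X = XX b1 b2`; `sum_RR`, `part_all` with
`A = pl b1 ∩ pl b2`, `CP.pw2` -/
theorem CP.term2 (h : CP G P Y r K) (hY : ∀ b ∈ Y, tb G P b ≤ 2) :
    ∑ b1 ∈ Y, ∑ b2 ∈ Y, ∑ b3 ∈ Y, ∑ b4 ∈ Y,
        |RR G b1 b2 b3 b4| * ms q P (G.pl b1 ∩ G.pl b2 ∩ G.pl b3) ^ (8 * (t + 1) + 1) ≤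
      9000 * 32 ^ (4 * (t + 1)) * K * ((q : ℝ) ^ (t + 1) * ((q : ℝ) ^ (t + 1) / P.card) ^ 3) := by
  obtain ⟨-, -, b3, b4⟩ := h.base
  have hp := h.pw2 hY
  have hq : (2 : ℝ) ≤ q := by exact_mod_cast G.two_le
  have hq0 : (0 : ℝ) < q := by linarith
  have hK := h.hK
  have e0 : (q : ℝ) ^ t / P.card = (q : ℝ) ^ (t + 1) / P.card / q := by
    rw [pow_succ]
    field_simp
  have eg : 8 * (t + 1) + 1 = 4 * (t + 1) + 4 * (t + 1) + 1 := by omega
  rw [eg]
  set J := 4 * (t + 1) with hJ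
  have a1 : ∀ b1 ∈ Y, ∀ b2, ∑ b3 ∈ Y, ∑ b4 ∈ Y,
      |RR G b1 b2 b3 b4| * ms q P (G.pl b1 ∩ G.pl b2 ∩ G.pl b3) ^ (J + J + 1) ≤
      132 * (q : ℝ) ^ (t + 3) * (4 ^ (J + 1) * ((q : ℝ) ^ t / P.card)) * XX G P b1 b2 ^ J := by
    intro b1 h1 b2
    have hX := XX_le G P b1 b2
    have hX2 : XX G P b1 b2 ≤ 2 := hX.2.trans (hY b1 h1)
    have hpa := part_all G h.ne (A := G.pl b1 ∩ G.pl b2) hX2 (j := J) (by omega) b4
    have hXJ : 0 ≤ XX G P b1 b2 ^ J := pow_nonneg hX.1 _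
    calc ∑ b3 ∈ Y, ∑ b4 ∈ Y,
          |RR G b1 b2 b3 b4| * ms q P (G.pl b1 ∩ G.pl b2 ∩ G.pl b3) ^ (J + J + 1)
        ≤ ∑ b3 ∈ Y, 132 * (q : ℝ) ^ (t + 3) * XX G P b1 b2 ^ J *
            ms q P (G.pl b1 ∩ G.pl b2 ∩ G.pl b3) ^ J := by
          refine sum_le_sum fun b3 _ => ?_
          have m0 := ms_nonneg q P (G.pl b1 ∩ G.pl b2 ∩ G.pl b3)
          have m1 : ms q P (G.pl b1 ∩ G.pl b2 ∩ G.pl b3) ≤ XX G P b1 b2 :=
            ms_mono q P inter_subset_left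
          have m2 : ∑ b4 ∈ Y, |RR G b1 b2 b3 b4| ≤ 66 * (q : ℝ) ^ (t + 3) :=
            le_trans (sum_le_sum_of_subset_of_nonneg (subset_univ _) fun _ _ _ => abs_nonneg _)
              (sum_RR G (by have := h.hr; omega) b1 b2 b3)
          rw [← sum_mul]
          generalize ms q P (G.pl b1 ∩ G.pl b2 ∩ G.pl b3) = M at *
          calc (∑ b4 ∈ Y, |RR G b1 b2 b3 b4|) * M ^ (J + J + 1)
              = (∑ b4 ∈ Y, |RR G b1 b2 b3 b4|) * (M ^ J * M ^ J * M) := by rw [pow_succ, pow_add]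
            _ ≤ 66 * (q : ℝ) ^ (t + 3) * (XX G P b1 b2 ^ J * M ^ J * 2) := by
                gcongr
                exact m1.trans hX2
            _ = _ := by ring
      _ ≤ 132 * (q : ℝ) ^ (t + 3) * XX G P b1 b2 ^ J * (4 ^ (J + 1) * ((q : ℝ) ^ t / P.card)) := by
          rw [← mul_sum]
          gcongr
          exact le_trans (sum_le_sum_of_subset_of_nonneg (subset_univ _) fun _ _ _ =>
            pow_nonneg (ms_nonneg _ _ _) _) hpa
      _ = _ := by ring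
  refine (sum_le_sum fun b1 h1 => sum_le_sum fun b2 _ => a1 b1 h1 b2).trans ?_
  simp only [← mul_sum]
  rw [e0]
  generalize (q : ℝ) ^ (t + 1) / P.card = S at *
  have hS : 0 < S := by linarith
  have e : (4 : ℝ) ^ J * 8 ^ J = 32 ^ J := by
    rw [← mul_pow]
    norm_num
  calc 132 * (q : ℝ) ^ (t + 3) * (4 ^ (J + 1) * (S / q)) * ∑ b1 ∈ Y, ∑ b2 ∈ Y, XX G P b1 b2 ^ J
      ≤ 132 * (q : ℝ) ^ (t + 3) * (4 ^ (J + 1) * (S / q)) * (17 * 8 ^ J * K * (S ^ 2 / q)) := by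
        gcongr
    _ = 8976 * (4 ^ J * 8 ^ J) * K * ((q : ℝ) ^ (t + 1) * S ^ 3) := by
        field_simp
        ring
    _ ≤ _ := by
        rw [e]
        gcongr
        norm_num

/-- `RR_om`: the sum is at most `33 q ^ (t + 1) ∑ h, k h ^ 2 + 33 q ^ (t + 2) (2 ^ J |Y|) ^ 2`
with `k h` the left side of `om_sum`; `k ^ 2 ≤ 2 q ^ 2 4 ^ J ind + 8 q ^ 2 k2 ^ 2`; `CP.k2b`;
`q ^ 2 |Y| ≤ 4 K S ^ 3`, `q |Y| ^ 2 ≤ 2 K ^ 2 S ^ 3`; `66 + 264 + 27984 ≤ 30000` -/
theorem CP.term3 (h : CP G P Y r K) (hY : ∀ b ∈ Y, tb G P b ≤ 2) :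
    ∑ b1 ∈ Y, ∑ b2 ∈ Y, ∑ b3 ∈ Y, ∑ b4 ∈ Y,
        |RR G b1 b2 b3 b4| * (XX G P b1 b2 ^ (4 * (t + 1)) * XX G P b3 b4 ^ (4 * (t + 1))) ≤
      30000 * 16 ^ (4 * (t + 1)) * K ^ 2 *
        ((q : ℝ) ^ (t + 1) * ((q : ℝ) ^ (t + 1) / P.card) ^ 3) := by
  obtain ⟨b1, b2, b3, -⟩ := h.base
  have hk := h.k2b hY
  have hq : (2 : ℝ) ≤ q := by exact_mod_cast G.two_le
  have hq1 : (1 : ℝ) ≤ q := by linarith
  have hq0 : (0 : ℝ) < q := by linarith
  have hK := h.hK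
  set J := 4 * (t + 1) with hJ
  generalize (q : ℝ) ^ (t + 1) / P.card = S at *
  have hS : 0 < S := by linarith
  have hX : ∀ b b', 0 ≤ XX G P b b' ^ J := fun b b' => pow_nonneg (XX_le G P b b').1 _
  have a0 : ∑ b1 ∈ Y, ∑ b2 ∈ Y, ∑ b3 ∈ Y, ∑ b4 ∈ Y,
      |RR G b1 b2 b3 b4| * (XX G P b1 b2 ^ J * XX G P b3 b4 ^ J) ≤
      33 * (q : ℝ) ^ (t + 1) * ∑ a, (∑ b ∈ Y, ∑ b' ∈ Y, XX G P b b' ^ J * om G b b' a) ^ 2 +
        33 * (q : ℝ) ^ (t + 2) * (∑ b ∈ Y, ∑ b' ∈ Y, XX G P b b' ^ J * ind (b = b')) ^ 2 := by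
    simp only [← Mom_sq]
    rw [Mom_comm]
    simp only [mul_sum, ← sum_add_distrib]
    refine sum_le_sum fun b1 _ => sum_le_sum fun b2 _ => sum_le_sum fun b3 _ =>
      sum_le_sum fun b4 _ => ?_
    refine (mul_le_mul_of_nonneg_right (RR_om G (by have := h.hr; omega) b1 b2 b3 b4)
      (mul_nonneg (hX _ _) (hX _ _))).trans (le_of_eq ?_)
    rw [add_mul, mul_sum, sum_mul]
    congr 1
    · exact sum_congr rfl fun a _ => by ring
    · ring
  have a1 : ∑ a, (∑ b ∈ Y, ∑ b' ∈ Y, XX G P b b' ^ J * om G b b' a) ^ 2 ≤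
      2 * q ^ 2 * (2 ^ J) ^ 2 * Y.card + 8 * q ^ 2 * ∑ a, k2 G P Y J a ^ 2 := by
    have e1 : (Y.card : ℝ) = ∑ a, ind (a ∈ Y) := by
      rw [← card_sel]
      congr 2
      ext a
      simp
    rw [e1, mul_sum, mul_sum, ← sum_add_distrib]
    refine sum_le_sum fun a _ => ?_
    have e2 := om_sum G P hY J a
    have e3 : 0 ≤ ∑ b ∈ Y, ∑ b' ∈ Y, XX G P b b' ^ J * om G b b' a :=
      sum_nonneg fun b _ => sum_nonneg fun b' _ => mul_nonneg (hX _ _) (Mom_om G _ _ _)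
    have e4 : 0 ≤ k2 G P Y J a := sum_nonneg fun b _ => hX _ _
    have e5 : ind (a ∈ Y) ^ 2 = ind (a ∈ Y) := by
      by_cases ha : a ∈ Y
      · rw [ind_pos ha, one_pow]
      · rw [ind_neg ha]
        norm_num
    have e6 : ((q : ℝ) + 1) * k2 G P Y J a ≤ 2 * q * k2 G P Y J a := by
      gcongr
      linarith
    refine (pow_le_pow_left₀ e3 (e2.trans (add_le_add le_rfl e6)) 2).trans ?_
    nlinarith [sq_nonneg (q * 2 ^ J * ind (a ∈ Y) - 2 * q * k2 G P Y J a),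
      congrArg (fun x => 2 * (q : ℝ) ^ 2 * (2 ^ J) ^ 2 * x) e5]
  have a2 : ∑ b ∈ Y, ∑ b' ∈ Y, XX G P b b' ^ J * ind (b = b') ≤ Y.card * 2 ^ J := by
    rw [← nsmul_eq_mul, ← sum_const]
    refine sum_le_sum fun b hb => ?_
    rw [sum_eq_single_of_mem b hb fun b' _ hb' => by rw [ind_neg (Ne.symm hb'), mul_zero],
      ind_pos rfl, mul_one]
    exact pow_le_pow_left₀ (XX_le G P b b).1 ((XX_le G P b b).2.trans (hY b hb)) _
  have a3 : 0 ≤ ∑ b ∈ Y, ∑ b' ∈ Y, XX G P b b' ^ J * ind (b = b') :=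
    sum_nonneg fun b _ => sum_nonneg fun b' _ => mul_nonneg (hX _ _) (ind_nonneg _)
  have e16 : ((2 : ℝ) ^ J) ^ 2 ≤ 16 ^ J := by
    rw [← pow_mul, mul_comm J 2, pow_mul]
    gcongr
    norm_num
  have a4 : (q : ℝ) ^ 2 * Y.card ≤ 2 * (K ^ 2 * S ^ 3) := by
    have : (q : ℝ) ^ 2 * (q : ℝ) ^ (r + 1) ≤ 2 * S := by
      rw [← pow_add]
      exact (pow_le_pow_right₀ hq1 (by omega)).trans b1
    have e2 : K ≤ K ^ 2 := le_self_pow₀ hK two_ne_zero
    have e3 : S ^ 2 ≤ S ^ 3 := pow_le_pow_right₀ b3 (by norm_num)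
    calc (q : ℝ) ^ 2 * Y.card ≤ (q : ℝ) ^ 2 * (K * (q : ℝ) ^ (r + 1) * S) := by gcongr
      _ = K * S * ((q : ℝ) ^ 2 * (q : ℝ) ^ (r + 1)) := by ring
      _ ≤ K * S * (2 * S) := by gcongr
      _ = 2 * (K * S ^ 2) := by ring
      _ ≤ _ := by gcongr
  have a5 : (q : ℝ) * (Y.card : ℝ) ^ 2 ≤ 2 * (K ^ 2 * S ^ 3) := by
    have : (q : ℝ) * ((q : ℝ) ^ (r + 1)) ^ 2 ≤ 2 * S := by
      rw [← pow_mul, ← pow_succ']
      exact (pow_le_pow_right₀ hq1 (by omega)).trans b1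
    calc (q : ℝ) * (Y.card : ℝ) ^ 2 ≤ q * (K * (q : ℝ) ^ (r + 1) * S) ^ 2 := by gcongr
      _ = K ^ 2 * S ^ 2 * (q * ((q : ℝ) ^ (r + 1)) ^ 2) := by ring
      _ ≤ K ^ 2 * S ^ 2 * (2 * S) := by gcongr
      _ = _ := by ring
  have a6 : ∑ a, (∑ b ∈ Y, ∑ b' ∈ Y, XX G P b b' ^ J * om G b b' a) ^ 2 ≤
      852 * (16 ^ J * (K ^ 2 * S ^ 3)) := by
    calc _ ≤ _ := a1
      _ ≤ 2 * q ^ 2 * 16 ^ J * Y.card + 8 * q ^ 2 * (106 * 16 ^ J * K ^ 2 * (S ^ 3 / q ^ 2)) := by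
          gcongr
      _ = 2 * 16 ^ J * ((q : ℝ) ^ 2 * Y.card) + 848 * (16 ^ J * (K ^ 2 * S ^ 3)) := by
          field_simp
          ring
      _ ≤ 2 * 16 ^ J * (2 * (K ^ 2 * S ^ 3)) + 848 * (16 ^ J * (K ^ 2 * S ^ 3)) := by gcongr
      _ = _ := by ring
  have a7 : q * (∑ b ∈ Y, ∑ b' ∈ Y, XX G P b b' ^ J * ind (b = b')) ^ 2 ≤
      2 * (16 ^ J * (K ^ 2 * S ^ 3)) := by
    calc _ ≤ q * ((Y.card : ℝ) * 2 ^ J) ^ 2 := by gcongr
      _ = ((2 : ℝ) ^ J) ^ 2 * (q * (Y.card : ℝ) ^ 2) := by ring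
      _ ≤ 16 ^ J * (2 * (K ^ 2 * S ^ 3)) := by gcongr
      _ = _ := by ring
  have hQ : (0 : ℝ) ≤ (q : ℝ) ^ (t + 1) := by positivity
  have hZ : (0 : ℝ) ≤ 16 ^ J * (K ^ 2 * S ^ 3) := by positivity
  rw [show (q : ℝ) ^ (t + 2) = (q : ℝ) ^ (t + 1) * q from pow_succ _ _] at a0
  nlinarith [mul_le_mul_of_nonneg_left a6 hQ, mul_le_mul_of_nonneg_left a7 hQ, mul_nonneg hQ hZ]

/-- Replace `Y` by `Yt = selIn Y (tb ≤ 2)` (`FT` vanishes outside, `CP.mono`). `NN_four`, `Av_mono`,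
`Av_sum`, `tup_four`; `(X X') ^ (2 J + 1) ≤ 4 ^ (J + 1) X ^ J X' ^ J`; the other two matchings
by `RR_a`, `RR_b` and `sum_comm`; `5 ^ g 160 ^ g 3000 ≤ 2000 ^ g` for `g ≥ 9`. -/
theorem CP.mom_four (h : CP G P Y r K) :
    Av (tup (8 * (t + 1) + 1) (grp q P)) (fun T => ∑ a, NN G Y (FT G P T) a ^ 4) ≤
      2000 ^ (8 * (t + 1) + 1) * K ^ 2 * (P.card * ((q : ℝ) ^ (t + 1) / P.card) ^ 4) := by
  set Yt := selIn Y fun b => tb G P b ≤ 2 with hYt
  have h' : CP G P Yt r K := h.mono (selIn_subset _ _)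
  have hY : ∀ b ∈ Yt, tb G P b ≤ 2 := fun b hb => (mem_selIn.1 hb).2
  have t1 := h'.term1
  have t2 := h'.term2 hY
  have t3 := h'.term3 hY
  obtain ⟨-, -, b3, -⟩ := h.base
  have hn : (0 : ℝ) < P.card := by exact_mod_cast card_pos.2 h.ne
  have hK := h.hK
  have eZ : (P.card : ℝ) * ((q : ℝ) ^ (t + 1) / P.card) ^ 4 =
      (q : ℝ) ^ (t + 1) * ((q : ℝ) ^ (t + 1) / P.card) ^ 3 := by field_simp
  have hZ : 0 ≤ (q : ℝ) ^ (t + 1) * ((q : ℝ) ^ (t + 1) / P.card) ^ 3 := by positivity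
  rw [eZ]
  generalize (q : ℝ) ^ (t + 1) * ((q : ℝ) ^ (t + 1) / P.card) ^ 3 = Z at *
  have eg : 8 * (t + 1) + 1 = 4 * (t + 1) + 4 * (t + 1) + 1 := by omega
  rw [eg] at t1 t2 ⊢
  have hJ4 : 4 ≤ 4 * (t + 1) := by omega
  generalize 4 * (t + 1) = J at *
  set g := J + J + 1 with hg
  have eN : ∀ (T : Fin g → (Fin (2 * q) → Pt) × (Fin q → Pt)) a,
      NN G Y (FT G P T) a = NN G Yt (FT G P T) a := by
    intro T a
    refine (sum_subset (selIn_subset _ _) fun b hb hb' => ?_).symm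
    rw [FT, ind_neg fun k => hb' (mem_selIn.2 ⟨hb, k⟩), zero_mul, zero_mul]
  have p1 : ∑ b1 ∈ Yt, ∑ b2 ∈ Yt, ∑ b3 ∈ Yt, ∑ b4 ∈ Yt,
      |RR G b1 b2 b3 b4| * (XX G P b1 b2 * XX G P b3 b4) ^ g ≤
      4 ^ (J + 1) * (30000 * 16 ^ J * K ^ 2 * Z) := by
    refine le_trans ?_ (mul_le_mul_of_nonneg_left t3 (by positivity))
    simp only [mul_sum]
    refine sum_le_sum fun b1 h1 => sum_le_sum fun b2 _ => sum_le_sum fun b3 h3 =>
      sum_le_sum fun b4 _ => ?_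
    have x1 := XX_le G P b1 b2
    have x2 := XX_le G P b3 b4
    have x3 : XX G P b1 b2 * XX G P b3 b4 ≤ 4 := by
      nlinarith [x1.2.trans (hY b1 h1), x2.2.trans (hY b3 h3), x1.1, x2.1]
    have x4 := mul_nonneg x1.1 x2.1
    rw [← mul_pow, hg, add_assoc, pow_add]
    generalize XX G P b1 b2 * XX G P b3 b4 = x at *
    calc |RR G b1 b2 b3 b4| * (x ^ J * x ^ (J + 1)) ≤ |RR G b1 b2 b3 b4| * (x ^ J * 4 ^ (J + 1)) := by
          gcongr
      _ = _ := by ring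
  have p2 : ∑ b1 ∈ Yt, ∑ b2 ∈ Yt, ∑ b3 ∈ Yt, ∑ b4 ∈ Yt,
      |RR G b1 b2 b3 b4| * (XX G P b1 b3 * XX G P b2 b4) ^ g ≤
      4 ^ (J + 1) * (30000 * 16 ^ J * K ^ 2 * Z) := by
    refine le_trans (le_of_eq (sum_congr rfl fun b1 _ => ?_)) p1
    rw [sum_comm]
    exact sum_congr rfl fun _ _ => sum_congr rfl fun _ _ => sum_congr rfl fun _ _ => by
      rw [RR_a]
  have p3 : ∑ b1 ∈ Yt, ∑ b2 ∈ Yt, ∑ b3 ∈ Yt, ∑ b4 ∈ Yt,
      |RR G b1 b2 b3 b4| * (XX G P b1 b4 * XX G P b2 b3) ^ g ≤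
      4 ^ (J + 1) * (30000 * 16 ^ J * K ^ 2 * Z) := by
    refine le_trans (le_of_eq (sum_congr rfl fun b1 _ => ?_)) p1
    rw [sum_congr rfl fun _ _ => sum_comm, sum_comm]
    exact sum_congr rfl fun _ _ => sum_congr rfl fun _ _ => sum_congr rfl fun _ _ => by
      rw [RR_b]
  have m1 : Av (tup g (grp q P)) (fun T => ∑ a, NN G Y (FT G P T) a ^ 4) ≤
      ∑ b1 ∈ Yt, ∑ b2 ∈ Yt, ∑ b3 ∈ Yt, ∑ b4 ∈ Yt, 5 ^ g *
        (|RR G b1 b2 b3 b4| * (XX G P b1 b2 * XX G P b3 b4) ^ g +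
          |RR G b1 b2 b3 b4| * (XX G P b1 b3 * XX G P b2 b4) ^ g +
          |RR G b1 b2 b3 b4| * (XX G P b1 b4 * XX G P b2 b3) ^ g +
          |RR G b1 b2 b3 b4| * ms q P (G.pl b1 ∩ G.pl b2 ∩ G.pl b3) ^ g +
          |RR G b1 b2 b3 b4| * (160 / (q : ℝ)) ^ g) := by
    simp only [eN]
    refine (Av_mono fun T _ => NN_four G Yt (FT G P T)).trans ?_
    simp only [Av_sum]
    refine sum_le_sum fun b1 h1 => sum_le_sum fun b2 h2 => sum_le_sum fun b3 h3 =>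
      sum_le_sum fun b4 h4 => ?_
    have f := tup_four G h.ne g (hY b1 h1) (hY b2 h2) (hY b3 h3) (hY b4 h4)
    rw [Av_congr (g := fun T => RR G b1 b2 b3 b4 *
      (FT G P T b1 * FT G P T b2 * FT G P T b3 * FT G P T b4)) fun T _ => mul_comm _ _, Av_mul]
    refine (le_abs_self _).trans ?_
    rw [abs_mul]
    refine (mul_le_mul_of_nonneg_left f (abs_nonneg _)).trans (le_of_eq ?_)
    ring
  simp only [← mul_sum, sum_add_distrib] at m1
  have k2 : K ≤ K ^ 2 := le_self_pow₀ hK two_ne_zero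
  have k1 : 1 ≤ K ^ 2 := hK.trans k2
  have n1 : (4 : ℝ) ^ (J + 1) * 16 ^ J ≤ 4 * 25600 ^ J := by
    rw [pow_succ, mul_right_comm, ← mul_pow, mul_comm]
    gcongr
    norm_num
  have n2 : (32 : ℝ) ^ J ≤ 25600 ^ J := by
    gcongr
    norm_num
  have n3 : (160 : ℝ) ^ g = 160 * 25600 ^ J := by
    rw [hg, pow_succ, pow_add, ← mul_pow, mul_comm]
    norm_num
  have n4 : (2000 : ℝ) ^ g = 5 ^ g * (400 * ((25 / 4) ^ J * 25600 ^ J)) := by
    rw [← mul_pow, show (2000 : ℝ) = 5 * 400 by norm_num, mul_pow, hg, pow_succ (400 : ℝ),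
      pow_add (400 : ℝ), ← mul_pow (400 : ℝ), mul_comm _ (400 : ℝ)]
    norm_num
  have n5 : (1500 : ℝ) ≤ (25 / 4) ^ J :=
    le_trans (by norm_num) (pow_le_pow_right₀ (by norm_num) hJ4)
  have hV : (0 : ℝ) ≤ 25600 ^ J * (K ^ 2 * Z) := by positivity
  have q1 : (4 : ℝ) ^ (J + 1) * (30000 * 16 ^ J * K ^ 2 * Z) ≤ 120000 * (25600 ^ J * (K ^ 2 * Z)) := by
    nlinarith [mul_le_mul_of_nonneg_right n1 (show 0 ≤ K ^ 2 * Z by positivity)]
  have q2 : 9000 * 32 ^ J * K * Z ≤ 9000 * (25600 ^ J * (K ^ 2 * Z)) := by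
    calc 9000 * 32 ^ J * K * Z ≤ 9000 * 25600 ^ J * K ^ 2 * Z := by gcongr
      _ = _ := by ring
  have q3 : 528 * 160 ^ g * Z ≤ 84480 * (25600 ^ J * (K ^ 2 * Z)) := by
    rw [n3]
    calc 528 * (160 * 25600 ^ J) * Z ≤ 528 * (160 * 25600 ^ J) * (K ^ 2 * Z) := by
          gcongr
          exact le_mul_of_one_le_left hZ k1
      _ = _ := by ring
  refine m1.trans ?_
  rw [n4, mul_assoc, mul_assoc]
  gcongr
  nlinarith [mul_le_mul_of_nonneg_right n5 hV]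

end Pool.Agent.Work.MP_e10cd8_co.Gap
end

-- merged part: Pool.Agent.Work.MP_e10cd8_co.Gap.Corr
section
/-! Reconstruction from a sample. -/

namespace Pool.Agent.Work.MP_e10cd8_co.Gap

open Finset Four All Uni

theorem corr_p1 {u v σ : ℝ} (hσ : 0 < σ) (h : u + v ≤ -(σ / 2)) :
    σ ^ 4 ≤ 16 * σ ^ 2 * u ^ 2 + 256 * v ^ 4 := by
  have hv : 0 ≤ v ^ 4 := by positivity
  have hu : 0 ≤ σ ^ 2 * u ^ 2 := by positivity
  rcases le_total u (-(σ / 4)) with h1 | h1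
  · have h2 : σ ^ 2 ≤ (-4 * u) ^ 2 := pow_le_pow_left₀ hσ.le (by linarith) 2
    have h3 := mul_le_mul_of_nonneg_left h2 (sq_nonneg σ)
    nlinarith
  · have h3 : σ ^ 4 ≤ (-4 * v) ^ 4 := pow_le_pow_left₀ hσ.le (by linarith) 4
    nlinarith

theorem corr_p2 (u v c : ℝ) : -(c ^ 3 * (u + v)) ≤ c ^ 4 + 2 * c ^ 2 * u ^ 2 + 8 * v ^ 4 := by
  have h0 : 0 ≤ c ^ 4 := by positivity
  nlinarith [sq_nonneg (v ^ 2 - c ^ 2 / 8), mul_nonneg (sq_nonneg c) (sq_nonneg (v + c / 4)),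
    mul_nonneg (sq_nonneg c) (sq_nonneg (u + c / 4))]

theorem corr_c1 {Pt : Type} [Fintype Pt] [DecidableEq Pt] (u v : Pt → ℝ) {σ : ℝ} (hσ : 0 < σ) :
    σ ^ 4 * ((sel fun a => u a + v a ≤ -(σ / 2)).card : ℝ) ≤
      16 * σ ^ 2 * ∑ a, u a ^ 2 + 256 * ∑ a, v a ^ 4 := by
  rw [mul_sum, mul_sum, ← sum_add_distrib, mul_comm, ← nsmul_eq_mul, ← sum_const]
  refine (sum_le_sum fun a ha => corr_p1 (u := u a) (v := v a) hσ (by simpa using ha)).trans ?_
  exact sum_le_sum_of_subset_of_nonneg (subset_univ _) fun a _ _ => by positivity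

theorem corr_c2 {Pt : Type} [Fintype Pt] [DecidableEq Pt] (u v : Pt → ℝ) (P : Finset Pt) {σ c : ℝ}
    (hσ : 0 < σ) (hc : 0 < c) :
    -(c ^ 3 * ∑ a ∈ P, (u a + v a)) ≤ P.card * (c ^ 3 * σ / 2) +
      c ^ 4 * ((P ∩ sel fun a => u a + v a ≤ -(σ / 2)).card : ℝ) +
      2 * c ^ 2 * ∑ a, u a ^ 2 + 8 * ∑ a, v a ^ 4 := by
  classical
  set X : Finset Pt := sel fun a => u a + v a ≤ -(σ / 2) with hX
  have e1 : ((P ∩ X).card : ℝ) = ∑ a ∈ P, if a ∈ X then (1 : ℝ) else 0 := by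
    rw [sum_boole, filter_mem_eq_inter]
  have a1 : ∑ a ∈ P, u a ^ 2 ≤ ∑ a, u a ^ 2 :=
    sum_le_sum_of_subset_of_nonneg (subset_univ _) fun a _ _ => by positivity
  have a2 : ∑ a ∈ P, v a ^ 4 ≤ ∑ a, v a ^ 4 :=
    sum_le_sum_of_subset_of_nonneg (subset_univ _) fun a _ _ => by positivity
  have a3 : -(c ^ 3 * ∑ a ∈ P, (u a + v a)) ≤ P.card * (c ^ 3 * σ / 2) +
      c ^ 4 * ((P ∩ X).card : ℝ) + 2 * c ^ 2 * ∑ a ∈ P, u a ^ 2 + 8 * ∑ a ∈ P, v a ^ 4 := by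
    rw [e1, ← nsmul_eq_mul, ← sum_const, mul_sum, mul_sum, mul_sum, mul_sum, ← sum_neg_distrib,
      ← sum_add_distrib, ← sum_add_distrib, ← sum_add_distrib]
    refine sum_le_sum fun a _ => ?_
    have p1 : 0 ≤ c ^ 3 * σ / 2 := by positivity
    have p2 : 0 ≤ 2 * c ^ 2 * u a ^ 2 := by positivity
    have p3 : 0 ≤ 8 * v a ^ 4 := by positivity
    split_ifs with ha
    · linarith [corr_p2 (u a) (v a) c]
    · have hb : -(σ / 2) ≤ u a + v a := by
        rw [hX, mem_sel] at ha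
        exact (not_le.1 ha).le
      have := mul_le_mul_of_nonneg_left hb (pow_pos hc 3).le
      linarith
  have a4 := mul_le_mul_of_nonneg_left a1 (by positivity : (0 : ℝ) ≤ 2 * c ^ 2)
  linarith

/-- With `X w = {a | u + v ≤ - σ / 2}`: `ind (a ∈ X) ≤ 16 u ^ 2 / σ ^ 2 + 256 v ^ 4 / σ ^ 4`, so
the mean of `|X|` is at most `2 B n`. Pointwise
`- (u + v) ≤ σ / 2 + B σ ind (a ∈ X) + 2 u ^ 2 / (B σ) + 8 v ^ 4 / (B σ) ^ 3`; sum over `P` and
average: the mean of `|P ∩ X|` is at least `n / (4 B)`. `exists_ge_Av` for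
`|P ∩ X| - |X| / (16 B ^ 2)`. -/
theorem select {ω Pt : Type} [Fintype Pt] [DecidableEq Pt] {Ω : Finset ω} (hΩ : Ω.Nonempty)
    (u v : ω → Pt → ℝ) (P : Finset Pt) {σ B : ℝ} (hσ : 0 < σ) (hB : 1 ≤ B)
    (h1 : Av Ω (fun w => ∑ a ∈ P, (u w a + v w a)) ≤ -(P.card * σ))
    (h2 : Av Ω (fun w => ∑ a, u w a ^ 2) ≤ B * P.card * σ ^ 2 / 16)
    (h4 : Av Ω (fun w => ∑ a, v w a ^ 4) ≤ B * P.card * σ ^ 4 / 256) :
    ∃ w ∈ Ω, (P.card : ℝ) ≤ 8 * B * (P ∩ sel fun a => u w a + v w a ≤ -(σ / 2)).card ∧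
      ((sel fun a => u w a + v w a ≤ -(σ / 2)).card : ℝ) ≤ 16 * B ^ 2 * P.card := by
  have hB0 : 0 < B := by linarith
  have hn : (0 : ℝ) ≤ P.card := Nat.cast_nonneg _
  obtain ⟨w, hw, hle⟩ := exists_ge_Av hΩ fun w =>
    (-(B * σ) ^ 3) * ∑ a ∈ P, (u w a + v w a) - 3 * (B * σ) ^ 2 * ∑ a, u w a ^ 2 -
      (8 + 16 * B ^ 2) * ∑ a, v w a ^ 4
  rw [Av_sub, Av_sub, Av_mul, Av_mul, Av_mul] at hle
  refine ⟨w, hw, ?_⟩
  have c1 := corr_c1 (u w) (v w) hσ
  have c2 := corr_c2 (u w) (v w) P hσ (mul_pos hB0 hσ)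
  have c3 : ((P ∩ sel fun a => u w a + v w a ≤ -(σ / 2)).card : ℝ) ≤ P.card := by
    exact_mod_cast card_le_card inter_subset_left
  have c4 : (0 : ℝ) ≤ (sel fun a => u w a + v w a ≤ -(σ / 2)).card := Nat.cast_nonneg _
  generalize ((P ∩ sel fun a => u w a + v w a ≤ -(σ / 2)).card : ℝ) = x at *
  generalize ((sel fun a => u w a + v w a ≤ -(σ / 2)).card : ℝ) = y at *
  generalize (P.card : ℝ) = n at *
  have d1 := mul_le_mul_of_nonneg_left h1 (by positivity : (0 : ℝ) ≤ (B * σ) ^ 3)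
  have d2 := mul_le_mul_of_nonneg_left h2 (by positivity : (0 : ℝ) ≤ 3 * (B * σ) ^ 2)
  have d4 := mul_le_mul_of_nonneg_left h4 (by positivity : (0 : ℝ) ≤ 8 + 16 * B ^ 2)
  have d5 := mul_le_mul_of_nonneg_left c1 (by positivity : (0 : ℝ) ≤ B ^ 2 / 16)
  have d6 : σ ^ 4 * n * B ≤ σ ^ 4 * n * B ^ 3 :=
    mul_le_mul_of_nonneg_left (le_self_pow₀ hB (by norm_num)) (by positivity)
  have d7 : 0 ≤ σ ^ 4 * n * B ^ 3 := by positivity
  have key : σ ^ 4 * B ^ 2 * (B * n / 8 + y / 16) ≤ σ ^ 4 * B ^ 2 * (B ^ 2 * x) := by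
    nlinarith
  have k2 := le_of_mul_le_mul_left key (by positivity)
  have k3 : 0 ≤ B * n := by positivity
  constructor
  · refine le_of_mul_le_mul_left ?_ hB0
    nlinarith
  · have := mul_le_mul_of_nonneg_left c3 (sq_nonneg B)
    linarith

variable {q t : ℕ} {Pt : Type} [Fintype Pt] [DecidableEq Pt] (G : GP q t Pt)

theorem corr_exp (t : ℕ) :
    (16 : ℝ) * ((10 ^ 8) ^ (8 * (t + 1) + 1)) ^ 2 ≤ Real.exp (400 * (t + 1)) := by
  have h1 : (100 : ℝ) ≤ Real.exp 5 := by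
    have h2 : (2.7 : ℝ) ^ 5 ≤ Real.exp 1 ^ 5 :=
      pow_le_pow_left₀ (by norm_num) (by linarith [Real.exp_one_gt_d9]) 5
    rw [← Real.exp_nat_mul] at h2
    norm_num at h2 ⊢
    linarith
  have h3 : (16 : ℝ) * ((10 ^ 8) ^ (8 * (t + 1) + 1)) ^ 2 ≤ 100 ^ (8 * (8 * (t + 1) + 1) + 1) := by
    rw [pow_succ (100 : ℝ), pow_mul (100 : ℝ), ← pow_mul, mul_comm _ 2, pow_mul, mul_comm]
    have e : ((10 : ℝ) ^ 8) ^ 2 = 100 ^ 8 := by norm_num
    rw [e]
    exact mul_le_mul_of_nonneg_left (by norm_num) (by positivity)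
  refine h3.trans ((pow_le_pow_left₀ (by norm_num) h1 _).trans ?_)
  rw [← Real.exp_nat_mul, Real.exp_le_exp]
  have : (0 : ℝ) ≤ t := Nat.cast_nonneg _
  push_cast
  linarith

theorem corr_sig {P Y S : Finset Pt} (hP : P.Nonempty) (h1 : S ⊆ Y) (h2 : S ⊆ G.low (1 / 2) P)
    {g : ℕ} (hg : Odd g) :
    Av (tup g (grp q P)) (fun T => ∑ a ∈ P, NN G Y (FF G T) a) ≤
      -(P.card * (S.card * (1 / 8) ^ g / 2)) := by
  have hn : (0 : ℝ) ≤ P.card := Nat.cast_nonneg _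
  have e1 : Av (tup g (grp q P)) (fun T => ∑ a ∈ P, NN G Y (FF G T) a) =
      ∑ b ∈ Y, P.card * (Av (tup g (grp q P)) (fun T => FF G T b) * (tb G P b - 1)) := by
    have e2 : (fun T : Fin g → (Fin (2 * q) → Pt) × (Fin q → Pt) => ∑ a ∈ P, NN G Y (FF G T) a) =
        fun T => ∑ b ∈ Y, (P.card * (tb G P b - 1)) * FF G T b := by
      funext T
      unfold NN
      rw [sum_comm]
      refine sum_congr rfl fun b _ => ?_
      rw [← mul_sum, psi_sum G hP, mul_comm]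
    rw [e2, Av_sum]
    refine sum_congr rfl fun b _ => ?_
    rw [Av_mul]
    ring
  rw [e1, ← sum_sdiff h1]
  have a1 : ∑ b ∈ Y \ S, P.card * (Av (tup g (grp q P)) (fun T => FF G T b) * (tb G P b - 1)) ≤
      0 := sum_nonpos fun b _ => mul_nonpos_of_nonneg_of_nonpos hn (sig_le G hP hg b).1
  have a2 : ∑ b ∈ S, P.card * (Av (tup g (grp q P)) (fun T => FF G T b) * (tb G P b - 1)) ≤
      ∑ _b ∈ S, P.card * -((1 / 8 : ℝ) ^ g / 2) := sum_le_sum fun b hb =>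
    mul_le_mul_of_nonneg_left ((sig_le G hP hg b).2 ((tb_low G hP).1 (h2 hb))) hn
  rw [sum_const, nsmul_eq_mul] at a2
  linarith

theorem corr_two {P : Finset Pt} (Y : Finset Pt) (hP : P.Nonempty) (g : ℕ) :
    Av (tup g (grp q P)) (fun T => ∑ a, NN G Y (fun b => FF G T b - FT G P T b) a ^ 2) ≤
      4 ^ g * (P.card * ((q : ℝ) ^ (t + 1) / P.card) ^ 2) := by
  have hn : (0 : ℝ) < P.card := by exact_mod_cast hP.card_pos
  refine (Av_mono fun T _ => NN_sq G Y fun b => FF G T b - FT G P T b).trans ?_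
  rw [Av_mul, Av_sum]
  have a1 : ∑ b ∈ Y, Av (tup g (grp q P)) (fun T => (FF G T b - FT G P T b) ^ 2) ≤
      4 ^ g * ((q : ℝ) ^ (t + 1) / P.card) := by
    refine (sum_le_sum fun b _ => grp_L2 G hP g b).trans ?_
    rw [← mul_sum]
    refine mul_le_mul_of_nonneg_left (le_trans ?_ (mix_tb G hP)) (by positivity)
    exact sum_le_sum_of_subset_of_nonneg (subset_univ _) fun a _ _ => by positivity
  refine (mul_le_mul_of_nonneg_left a1 (by positivity)).trans (le_of_eq ?_)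
  field_simp

theorem corr_n2 {g : ℕ} (hg : 1 ≤ g) {K Om n σ S : ℝ} (hK : 1 ≤ K) (hO : 1 ≤ Om) (hn : 0 ≤ n)
    (h0 : 0 ≤ S) (hS : S ≤ 2 * 8 ^ g * Om * σ) :
    4 ^ g * (n * S ^ 2) ≤ (10 ^ 8) ^ g * K ^ 2 * Om ^ 4 * n * σ ^ 2 / 16 := by
  have a1 : S ^ 2 ≤ (2 * 8 ^ g * Om * σ) ^ 2 := pow_le_pow_left₀ h0 hS 2
  have a2 : (64 : ℝ) * (4 ^ g * (8 ^ g) ^ 2) ≤ (10 ^ 8) ^ g := by
    have b1 : (64 : ℝ) ≤ 64 ^ g := le_self_pow₀ (by norm_num) (by omega)
    refine (mul_le_mul_of_nonneg_right b1 (by positivity)).trans ?_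
    rw [← pow_mul, mul_comm g 2, pow_mul, ← mul_pow, ← mul_pow]
    exact pow_le_pow_left₀ (by norm_num) (by norm_num) g
  have a3 : Om ^ 2 ≤ K ^ 2 * Om ^ 4 :=
    (pow_le_pow_right₀ hO (by norm_num)).trans
      (le_mul_of_one_le_left (by positivity) (one_le_pow₀ hK))
  have a4 := mul_le_mul a2 a3 (by positivity) (by positivity)
  have a5 := mul_le_mul_of_nonneg_left a4 (by positivity : 0 ≤ n * σ ^ 2)
  have a6 := mul_le_mul_of_nonneg_left a1 (by positivity : 0 ≤ 4 ^ g * n)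
  generalize (4 : ℝ) ^ g = x at *
  generalize (8 : ℝ) ^ g = y at *
  generalize ((10 : ℝ) ^ 8) ^ g = z at *
  linarith

theorem corr_n4 {g : ℕ} (hg : 4 ≤ g) {K Om n σ S : ℝ} (hn : 0 ≤ n)
    (h0 : 0 ≤ S) (hS : S ≤ 2 * 8 ^ g * Om * σ) :
    2000 ^ g * K ^ 2 * (n * S ^ 4) ≤ (10 ^ 8) ^ g * K ^ 2 * Om ^ 4 * n * σ ^ 4 / 256 := by
  have a1 : S ^ 4 ≤ (2 * 8 ^ g * Om * σ) ^ 4 := pow_le_pow_left₀ h0 hS 4
  have a2 : (4096 : ℝ) * (2000 ^ g * (8 ^ g) ^ 4) ≤ (10 ^ 8) ^ g := by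
    have b1 : (4096 : ℝ) ≤ 12 ^ g :=
      le_trans (by norm_num) (pow_le_pow_right₀ (by norm_num : (1 : ℝ) ≤ 12) hg)
    refine (mul_le_mul_of_nonneg_right b1 (by positivity)).trans ?_
    rw [← pow_mul, mul_comm g 4, pow_mul, ← mul_pow, ← mul_pow]
    exact pow_le_pow_left₀ (by norm_num) (by norm_num) g
  have a5 := mul_le_mul_of_nonneg_left a2 (by positivity : 0 ≤ K ^ 2 * Om ^ 4 * n * σ ^ 4)
  have a6 := mul_le_mul_of_nonneg_left a1 (by positivity : 0 ≤ 2000 ^ g * K ^ 2 * n)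
  generalize (2000 : ℝ) ^ g = x at *
  generalize (8 : ℝ) ^ g = y at *
  generalize ((10 : ℝ) ^ 8) ^ g = z at *
  linarith

/-- `select` with `g = 8 (t + 1) + 1`, `u = NN Y (FF - FT)`, `v = NN Y FT`, `σ = |S| 8⁻¹ ^ g / 2`,
`B = (10 ^ 8) ^ g K ^ 2 Om ^ 4`; `q ^ (t + 1) / n ≤ 2 8 ^ g Om σ`. First: `psi_sum`, `sig_le`,
`tb_low`. Second: `NN_sq`, `grp_L2`, `mix_tb`. Fourth: `CP.mom_four`. `16 B ^ 2 ≤ W` by
`10 ^ 16 ≤ exp 37`. -/
theorem corr_one {P Y S : Finset Pt} {r : ℕ} {K Om : ℝ} (h : CP G P Y r K) (h1 : S ⊆ Y)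
    (h2 : S ⊆ G.low (1 / 2) P) (hO : 1 ≤ Om) (h3 : (q : ℝ) ^ (t + 1) ≤ P.card * S.card * Om) :
    ∃ T : Fin (8 * (t + 1) + 1) → (Fin (2 * q) → Pt) × (Fin q → Pt),
      (P.card : ℝ) ≤ Real.exp (400 * (t + 1)) * K ^ 4 * Om ^ 8 * (P ∩ sel fun a =>
        NN G Y (FF G T) a ≤ -(S.card * (1 / 8) ^ (8 * (t + 1) + 1) / 2 / 2)).card ∧
      ((sel fun a => NN G Y (FF G T) a ≤ -(S.card * (1 / 8) ^ (8 * (t + 1) + 1) / 2 / 2)).card : ℝ) ≤
        Real.exp (400 * (t + 1)) * K ^ 4 * Om ^ 8 * P.card := by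
  have hP := h.ne
  have hn : (0 : ℝ) < P.card := by exact_mod_cast hP.card_pos
  have hq : (0 : ℝ) < (q : ℝ) ^ (t + 1) := by
    have : (0 : ℝ) < q := by exact_mod_cast lt_of_lt_of_le (by norm_num) G.two_le
    positivity
  have hS : (0 : ℝ) < S.card := by
    by_contra hc
    have e : (S.card : ℝ) = 0 := le_antisymm (not_lt.1 hc) (Nat.cast_nonneg _)
    rw [e] at h3
    linarith
  have hK := h.hK
  have hE := corr_exp t
  have m4 := h.mom_four
  have hodd : Odd (8 * (t + 1) + 1) := ⟨4 * (t + 1), by ring⟩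
  have hg4 : 4 ≤ 8 * (t + 1) + 1 := by omega
  generalize 8 * (t + 1) + 1 = g at *
  have hσ : (0 : ℝ) < S.card * (1 / 8) ^ g / 2 := by positivity
  have hB : (1 : ℝ) ≤ (10 ^ 8) ^ g * K ^ 2 * Om ^ 4 :=
    one_le_mul_of_one_le_of_one_le
      (one_le_mul_of_one_le_of_one_le (one_le_pow₀ (by norm_num)) (one_le_pow₀ hK)) (one_le_pow₀ hO)
  have hS0 : (q : ℝ) ^ (t + 1) / P.card ≤ 2 * 8 ^ g * Om * (S.card * (1 / 8) ^ g / 2) := by
    have e : (8 : ℝ) ^ g * (1 / 8) ^ g = 1 := by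
      rw [← mul_pow]
      norm_num
    rw [div_le_iff₀ hn]
    calc (q : ℝ) ^ (t + 1) ≤ P.card * S.card * Om * (8 ^ g * (1 / 8) ^ g) := by rwa [e, mul_one]
      _ = _ := by ring
  have euv : ∀ (T : Fin g → (Fin (2 * q) → Pt) × (Fin q → Pt)) (a : Pt),
      NN G Y (fun b => FF G T b - FT G P T b) a + NN G Y (FT G P T) a = NN G Y (FF G T) a := by
    intro T a
    unfold NN
    rw [← sum_add_distrib]
    exact sum_congr rfl fun b _ => by ring
  obtain ⟨T, -, a1, a2⟩ := select (tup_nonempty (grp_nonempty hP q) g)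
    (fun T a => NN G Y (fun b => FF G T b - FT G P T b) a) (fun T a => NN G Y (FT G P T) a) P hσ hB
    (by simp only [euv]; exact corr_sig G hP h1 h2 hodd)
    ((corr_two G Y hP g).trans (corr_n2 (by omega) hK hO hn.le (by positivity) hS0))
    (m4.trans (corr_n4 hg4 hn.le (by positivity) hS0))
  simp only [euv] at a1 a2
  have hW : 16 * ((10 ^ 8) ^ g * K ^ 2 * Om ^ 4) ^ 2 ≤ Real.exp (400 * (t + 1)) * K ^ 4 * Om ^ 8 := by
    have := mul_le_mul_of_nonneg_right hE (by positivity : 0 ≤ K ^ 4 * Om ^ 8)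
    linarith
  have hW2 : 8 * ((10 ^ 8) ^ g * K ^ 2 * Om ^ 4) ≤ Real.exp (400 * (t + 1)) * K ^ 4 * Om ^ 8 := by
    refine le_trans ?_ hW
    generalize (10 ^ 8) ^ g * K ^ 2 * Om ^ 4 = B at hB
    nlinarith
  exact ⟨T, a1.trans (mul_le_mul_of_nonneg_right hW2 (Nat.cast_nonneg _)),
    a2.trans (mul_le_mul_of_nonneg_right hW hn.le)⟩

/-- the family is the image of all pairs (sample, `m ≤ |Pt|`); there are at most
`(q ^ (t + 1)) ^ (3 q g + 1)` (`card_pt_succ_le`) -/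
theorem corr4 (Y : Finset Pt) : ∃ F : Finset (Finset Pt),
    (F.card : ℝ) ≤ Real.exp (30 * (t + 1) ^ 2 * q * Real.log q) ∧
      ∀ (P S : Finset Pt) (r : ℕ) (K Om : ℝ), CP G P Y r K → S ⊆ Y → S ⊆ G.low (1 / 2) P →
        1 ≤ Om → (q : ℝ) ^ (t + 1) ≤ P.card * S.card * Om → ∃ X ∈ F,
          (P.card : ℝ) ≤ Real.exp (400 * (t + 1)) * K ^ 4 * Om ^ 8 * (P ∩ X).card ∧
          (X.card : ℝ) ≤ Real.exp (400 * (t + 1)) * K ^ 4 * Om ^ 8 * P.card := by
  classical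
  refine ⟨((univ : Finset (Fin (8 * (t + 1) + 1) → (Fin (2 * q) → Pt) × (Fin q → Pt))) ×ˢ
    range (Fintype.card Pt + 1)).image fun w => sel fun a =>
      NN G Y (FF G w.1) a ≤ -((w.2 : ℝ) * (1 / 8) ^ (8 * (t + 1) + 1) / 2 / 2), ?_, ?_⟩
  · have hq1 : 1 ≤ q := le_trans (by norm_num) G.two_le
    have hq : (0 : ℝ) < q := by exact_mod_cast hq1
    have hc := G.card_pt_succ_le
    have e : Real.exp (30 * (t + 1) ^ 2 * q * Real.log q) =
        ((q ^ (30 * (t + 1) ^ 2 * q) : ℕ) : ℝ) := by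
      rw [Nat.cast_pow]
      conv_rhs => rw [← Real.exp_log hq, ← Real.exp_nat_mul]
      push_cast
      rfl
    rw [e, Nat.cast_le]
    refine card_image_le.trans ?_
    rw [card_product, card_range, card_univ, Fintype.card_fun, Fintype.card_prod, Fintype.card_fun,
      Fintype.card_fun, Fintype.card_fin, Fintype.card_fin, Fintype.card_fin, ← pow_add, ← pow_mul]
    refine (Nat.mul_le_mul (Nat.pow_le_pow_left ((Nat.le_succ _).trans hc) _) hc).trans ?_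
    rw [← pow_mul, ← pow_add]
    refine Nat.pow_le_pow_right hq1 ?_
    obtain ⟨q', rfl⟩ := Nat.exists_eq_add_of_le hq1
    nlinarith [Nat.zero_le (t * t * q'), Nat.zero_le (t * q'), Nat.zero_le (t * t)]
  · intro P S r K Om h h1 h2 hO h3
    obtain ⟨T, a1, a2⟩ := corr_one G h h1 h2 hO h3
    exact ⟨_, mem_image.2 ⟨(T, S.card), mem_product.2 ⟨mem_univ _,
      mem_range.2 (Nat.lt_succ_of_le (card_le_univ S))⟩, rfl⟩, a1, a2⟩

end Pool.Agent.Work.MP_e10cd8_co.Gap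
end

-- merged part: Pool.Agent.Work.MP_e10cd8_co.Gap.Greedy
section
/-! Greedy removal of heavy subspaces, and the moment bound for what is left. -/

namespace Pool.Agent.Work.MP_e10cd8_co.Gap

open Finset Four All

variable {q t : ℕ} {Pt : Type} [Fintype Pt] [DecidableEq Pt]

theorem gr_perp_le (G : GP q t Pt) (r : ℕ) (A : Finset Pt) (h : t ≤ G.rk A + r) :
    ((G.perp A).card : ℝ) ≤ 2 * (q : ℝ) ^ r := by
  have h1 : gs q (t + 1 - G.rk A) ≤ gs q (r + 1) := (gs_strictMono G.two_le).monotone (by omega)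
  have h2 := (gs_succ_le G.two_le r).2
  rw [G.card_perp]
  exact_mod_cast h1.trans h2

theorem gr_step (G : GP q t Pt) (P A : Finset Pt) (f : Pt → ℝ) :
    ∑ h ∈ G.perp A, f h * (G.cnt P h : ℝ) = ∑ a ∈ P, ∑ h ∈ G.perp (insert a A), f h := by
  have e1 : ∀ h, (G.cnt P h : ℝ) = ∑ a ∈ P, if a ∈ G.pl h then (1 : ℝ) else 0 := by
    intro h
    rw [sum_boole, GP.cnt, inter_comm, filter_mem_eq_inter]
  have e2 : ∀ a, G.perp (insert a A) = (G.perp A).filter fun h => a ∈ G.pl h := by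
    intro a
    ext h
    rw [mem_filter, G.mem_perp, G.mem_perp, insert_subset_iff, and_comm]
  simp only [e1, e2, mul_sum, sum_filter]
  rw [sum_comm]
  refine sum_congr rfl fun a _ => sum_congr rfl fun h _ => ?_
  split_ifs <;> simp

theorem heavy (G : GP q t Pt) (r : ℕ) (P : Finset Pt) (hP : P.Nonempty) (la : ℝ) (hla : 1 ≤ la)
    (hh : ∀ A, G.rk A + r + 1 ≤ t → ((G.cl A ∩ P).card : ℝ) * la ≤ P.card) (j : ℕ) :
    ∀ A, ∑ h ∈ G.perp A, ((G.cnt P h : ℝ) / P.card) ^ j ≤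
      2 * (q : ℝ) ^ r * (2 ^ j + (q * la) ^ (t - r - G.rk A) * (2 / la) ^ j) := by
  have hq : (2 : ℝ) ≤ q := by exact_mod_cast G.two_le
  have hn : (0 : ℝ) < P.card := by exact_mod_cast hP.card_pos
  have hla0 : 0 < la := by linarith
  have hql : (1 : ℝ) ≤ q * la := by nlinarith
  have hc0 : ∀ h, 0 ≤ (G.cnt P h : ℝ) / P.card := fun h => by positivity
  have hc1 : ∀ h, (G.cnt P h : ℝ) / P.card ≤ 1 := fun h => by
    rw [div_le_one hn]
    exact_mod_cast card_le_card inter_subset_right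
  have hsmall : ∀ (j : ℕ) A, t ≤ G.rk A + r → ∑ h ∈ G.perp A, ((G.cnt P h : ℝ) / P.card) ^ j ≤
      2 * (q : ℝ) ^ r * (2 ^ j + (q * la) ^ (t - r - G.rk A) * (2 / la) ^ j) := by
    intro j A hA
    have h1 : ∑ h ∈ G.perp A, ((G.cnt P h : ℝ) / P.card) ^ j ≤ (G.perp A).card := by
      refine (sum_le_card_nsmul _ _ 1 fun h _ => pow_le_one₀ (hc0 h) (hc1 h)).trans ?_
      simp
    have h2 : (1 : ℝ) ≤ 2 ^ j := one_le_pow₀ (by norm_num)
    have h3 : 0 ≤ (q * la) ^ (t - r - G.rk A) * (2 / la) ^ j := by positivity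
    refine h1.trans ((gr_perp_le G r A hA).trans ?_)
    exact le_mul_of_one_le_right (by positivity) (by linarith)
  induction j with
  | zero =>
    intro A
    by_cases hA : t ≤ G.rk A + r
    · exact hsmall 0 A hA
    obtain ⟨e, he⟩ : ∃ e, t = G.rk A + r + e := ⟨t - (G.rk A + r), by omega⟩
    have e1 : t - r - G.rk A = e := by omega
    have e2 : t + 1 - G.rk A = r + e + 1 := by omega
    have h2 : (gs q (r + e + 1) : ℝ) ≤ 2 * (q : ℝ) ^ (r + e) := by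
      exact_mod_cast (gs_succ_le G.two_le (r + e)).2
    have h3 : (q : ℝ) ^ e ≤ (q * la) ^ e :=
      pow_le_pow_left₀ (by positivity) (le_mul_of_one_le_right (by positivity) hla) e
    simp only [pow_zero, sum_const, nsmul_eq_mul, mul_one]
    rw [G.card_perp, e1, e2]
    refine h2.trans ?_
    rw [pow_add, ← mul_assoc]
    exact mul_le_mul_of_nonneg_left (by linarith) (by positivity)
  | succ j ih =>
    intro A
    by_cases hA : t ≤ G.rk A + r
    · exact hsmall _ A hA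
    obtain ⟨e, he⟩ : ∃ e, t = G.rk A + r + e + 1 := ⟨t - (G.rk A + r + 1), by omega⟩
    have e1 : t - r - G.rk A = e + 1 := by omega
    set B : ℕ → ℝ := fun u => 2 * (q : ℝ) ^ r * (2 ^ j + (q * la) ^ u * (2 / la) ^ j) with hB
    have hBm : ∀ u v, u ≤ v → B u ≤ B v := fun u v huv => by
      have := pow_le_pow_right₀ hql huv
      simp only [hB]
      gcongr
    have hB0 : ∀ u, 0 ≤ B u := fun u => by simp only [hB]; positivity
    have hpt : ∀ a ∈ P, ∑ h ∈ G.perp (insert a A), ((G.cnt P h : ℝ) / P.card) ^ j ≤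
        (if a ∈ G.cl A then B (e + 1) else 0) + B e := by
      intro a _
      refine (ih (insert a A)).trans ?_
      split_ifs with ha
      · have := G.rk_mono (subset_insert a A)
        have h1 := hBm (t - r - G.rk (insert a A)) (e + 1) (by omega)
        have h2 := hB0 e
        exact h1.trans (by linarith)
      · have := G.rk_lt (subset_insert a A) (mem_insert_self a A) ha
        rw [zero_add]
        exact hBm _ _ (by omega)
    have hsum : ∑ h ∈ G.perp A, ((G.cnt P h : ℝ) / P.card) ^ j * (G.cnt P h : ℝ) ≤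
        (G.cl A ∩ P).card * B (e + 1) + P.card * B e := by
      rw [gr_step]
      refine (sum_le_sum hpt).trans (le_of_eq ?_)
      rw [sum_add_distrib, ← sum_filter, sum_const, sum_const, filter_mem_eq_inter, inter_comm,
        nsmul_eq_mul, nsmul_eq_mul]
    have h4 : ((G.cl A ∩ P).card : ℝ) ≤ P.card / la := by
      rw [le_div_iff₀ hla0]
      exact hh A (by omega)
    have h5 : ∑ h ∈ G.perp A, ((G.cnt P h : ℝ) / P.card) ^ (j + 1) ≤ B (e + 1) / la + B e := by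
      have e3 : ∑ h ∈ G.perp A, ((G.cnt P h : ℝ) / P.card) ^ (j + 1) =
          (∑ h ∈ G.perp A, ((G.cnt P h : ℝ) / P.card) ^ j * (G.cnt P h : ℝ)) / P.card := by
        rw [sum_div]
        exact sum_congr rfl fun h _ => by rw [pow_succ, mul_div_assoc]
      rw [e3, div_le_iff₀ hn]
      refine hsum.trans ?_
      have := mul_le_mul_of_nonneg_right h4 (hB0 (e + 1))
      have e4 : (B (e + 1) / la + B e) * P.card = P.card / la * B (e + 1) + P.card * B e := by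
        ring
      rw [e4]
      linarith
    refine h5.trans ?_
    rw [e1]
    have e5 : B (e + 1) / la + B e = 2 * (q : ℝ) ^ r *
        ((1 / la + 1) * 2 ^ j + (q + 1) * ((q * la) ^ e * (2 / la) ^ j)) := by
      simp only [hB]
      field_simp
      ring
    have e6 : (q * la) ^ (e + 1) * (2 / la) ^ (j + 1) =
        (2 * q) * ((q * la) ^ e * (2 / la) ^ j) := by
      rw [pow_succ, pow_succ]
      field_simp
    have h6 : 1 / la ≤ 1 := by rw [div_le_one hla0]; exact hla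
    have h7 : 0 ≤ (q * la) ^ e * (2 / la) ^ j := by positivity
    have h8 : (0 : ℝ) ≤ 2 ^ j := by positivity
    rw [e5, e6, pow_succ]
    refine mul_le_mul_of_nonneg_left ?_ (by positivity)
    nlinarith

/-- a family of unions of at most `h` subspaces of rank at most `d` -/
theorem greedy (G : GP q t Pt) (d h : ℕ) : ∃ FU : Finset (Finset Pt),
    FU.card ≤ (q ^ ((t + 1) * (t + 1)) + 1) ^ h ∧ ∀ P : Finset Pt, P.Nonempty → ∃ U ∈ FU,
      U.card ≤ h * gs q d ∧ ∀ A, G.rk A ≤ d → (G.cl A ∩ (P \ U)).card * h ≤ P.card := by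
  classical
  let C : Finset (Finset Pt) := sel fun R => G.cl R = R ∧ G.rk R ≤ d
  let un : Finset C → Finset Pt := fun T => T.biUnion fun W => W.1
  refine ⟨(sel fun T : Finset C => T.card ≤ h).image un, ?_, fun P hP => ?_⟩
  · refine card_image_le.trans ((GeoA_small h).trans (Nat.pow_le_pow_left ?_ h))
    rw [Fintype.card_coe]
    refine Nat.succ_le_succ (le_trans (card_le_card fun R hR => ?_) G.card_closed_le)
    exact mem_sel.2 (mem_sel.1 hR).1
  obtain ⟨T, -, hT⟩ := exists_max_image (univ : Finset (Finset C))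
    (fun T => (((P ∩ un T).card * h : ℕ) : ℤ) - (T.card * P.card : ℕ)) univ_nonempty
  have hn := hP.card_pos
  have hTh : T.card ≤ h := by
    have h0 := hT ∅ (mem_univ _)
    have h1 : (P ∩ un T).card ≤ P.card := card_le_card inter_subset_left
    have h2 : (P ∩ un T).card * h ≤ P.card * h := Nat.mul_le_mul_right _ h1
    simp only [un, biUnion_empty, inter_empty, card_empty, zero_mul, Nat.cast_zero, sub_self]
      at h0
    have h3 : T.card * P.card ≤ h * P.card := by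
      rw [mul_comm h]
      simp only [un] at h2
      omega
    exact Nat.le_of_mul_le_mul_right h3 hn
  refine ⟨un T, mem_image_of_mem _ (mem_sel.2 hTh), ?_, fun A hA => ?_⟩
  · refine (card_biUnion_le_card_mul _ _ (gs q d) fun W _ => ?_).trans
      (Nat.mul_le_mul_right _ hTh)
    obtain ⟨h1, h2⟩ := mem_sel.1 W.2
    rw [← h1, G.card_cl]
    exact (gs_strictMono G.two_le).monotone h2
  · let W : C := ⟨G.cl A, mem_sel.2 ⟨G.cl_cl A, by rw [G.rk_cl]; exact hA⟩⟩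
    have h0 := hT (insert W T) (mem_univ _)
    have h1 : (P ∩ un (insert W T)).card = (G.cl A ∩ (P \ un T)).card + (P ∩ un T).card := by
      rw [← card_union_of_disjoint]
      · congr 1
        ext a
        simp only [un, biUnion_insert, mem_inter, mem_union, mem_sdiff, W]
        tauto
      · exact disjoint_left.2 fun a h1 h2 =>
          (mem_sdiff.1 (mem_inter.1 h1).2).2 (mem_inter.1 h2).2
    have h2 : (insert W T).card * P.card ≤ T.card * P.card + P.card := by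
      rw [← Nat.succ_mul]
      exact Nat.mul_le_mul_right _ (card_insert_le _ _)
    simp only [h1, add_mul] at h0
    omega

theorem greedy_heavy (G : GP q t Pt) (r : ℕ) (hr : r + 1 ≤ t) (hq : 10000 ≤ q) :
    ∃ FU : Finset (Finset Pt), (FU.card : ℝ) ≤ Real.exp ((t + 1) ^ 2 * q * Real.log q) ∧
      ∀ P : Finset Pt, P.Nonempty → ∃ U ∈ FU,
        (U.card : ℝ) * q ≤ 2 * Real.sqrt q * (q : ℝ) ^ (t - r - 1) ∧
        (P.card ≤ 2 * (P \ U).card →
          ∑ h, ((G.cnt (P \ U) h : ℝ) / (P \ U).card) ^ (4 * (t + 1)) ≤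
            2 ^ (4 * (t + 1) + 2) * (q : ℝ) ^ r) := by
  obtain ⟨FU, hF, hU⟩ := greedy G (t - r - 1) (Nat.sqrt q)
  set h := Nat.sqrt q with hh
  have h1 : h * h ≤ q := Nat.sqrt_le q
  have h2 : q < (h + 1) * (h + 1) := Nat.lt_succ_sqrt q
  have h3 : 100 ≤ h := by nlinarith
  have hq0 : (0 : ℝ) < q := by exact_mod_cast (by omega : 0 < q)
  refine ⟨FU, ?_, fun P hP => ?_⟩
  · have h4 : q ^ ((t + 1) * (t + 1)) + 1 ≤ q ^ ((t + 1) * (t + 1) * 2) := by
      have h5 : 2 ≤ q ^ ((t + 1) * (t + 1)) :=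
        G.two_le.trans (Nat.le_self_pow (by positivity) q)
      rw [pow_mul q _ 2, sq]
      nlinarith
    have h5 : FU.card ≤ q ^ ((t + 1) * (t + 1) * q) := by
      refine hF.trans ((Nat.pow_le_pow_left h4 h).trans ?_)
      rw [← pow_mul, mul_assoc]
      exact Nat.pow_le_pow_right (by omega) (Nat.mul_le_mul_left _ (by nlinarith))
    have h6 : (((t + 1) * (t + 1) * q : ℕ) : ℝ) = (t + 1) ^ 2 * q := by
      push_cast
      ring
    rw [← h6, Real.exp_nat_mul, Real.exp_log hq0]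
    exact_mod_cast h5
  obtain ⟨U, hUF, hc, hA⟩ := hU P hP
  refine ⟨U, hUF, ?_, fun hhalf => ?_⟩
  · have h4 : U.card * q ≤ h * (2 * q ^ (t - r - 1)) := by
      refine (Nat.mul_le_mul_right _ hc).trans ?_
      rw [mul_assoc]
      exact Nat.mul_le_mul_left _ (gs_mul_le G.two_le _)
    have h5 : (h : ℝ) ≤ Real.sqrt q := Real.le_sqrt_of_sq_le (by rw [sq]; exact_mod_cast h1)
    have h6 : (U.card : ℝ) * q ≤ h * (2 * (q : ℝ) ^ (t - r - 1)) := by exact_mod_cast h4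
    refine h6.trans ?_
    have h7 : (0 : ℝ) ≤ (q : ℝ) ^ (t - r - 1) := by positivity
    nlinarith
  have hP' : (P \ U).Nonempty := card_pos.1 (by have := hP.card_pos; omega)
  have hh' : (100 : ℝ) ≤ h := by exact_mod_cast h3
  have hla : (1 : ℝ) ≤ (h : ℝ) / 2 := by linarith
  have key := heavy G r (P \ U) hP' ((h : ℝ) / 2) hla (fun A hr' => by
    have h4 : (G.cl A ∩ (P \ U)).card * h ≤ 2 * (P \ U).card := (hA A (by omega)).trans hhalf
    have h5 : ((G.cl A ∩ (P \ U)).card : ℝ) * h ≤ 2 * (P \ U).card := by exact_mod_cast h4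
    linarith) (4 * (t + 1)) ∅
  have e0 : G.perp ∅ = univ := eq_univ_of_forall fun z => G.mem_perp.2 (empty_subset _)
  rw [e0, G.rk_empty, Nat.sub_zero] at key
  refine key.trans ?_
  set la : ℝ := (h : ℝ) / 2 with hl
  have hq3 : (q : ℝ) * la ≤ la ^ 4 := by
    have h4 : (q : ℝ) ≤ (h + 1) * (h + 1) := by exact_mod_cast h2.le
    have h5 : (h : ℝ) = 2 * la := by rw [hl]; ring
    have h6 : (50 : ℝ) ≤ la := by linarith
    have h7 : (q : ℝ) ≤ la ^ 3 := by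
      rw [h5] at h4
      nlinarith [mul_nonneg (sub_nonneg.2 h6) (sq_nonneg la)]
    calc (q : ℝ) * la ≤ la ^ 3 * la := by gcongr
      _ = la ^ 4 := by ring
  have h8 : ((q : ℝ) * la) ^ (t - r) ≤ la ^ (4 * (t + 1)) := by
    refine (pow_le_pow_left₀ (by positivity) hq3 _).trans ?_
    rw [← pow_mul]
    exact pow_le_pow_right₀ hla (by omega)
  have h9 : ((q : ℝ) * la) ^ (t - r) * (2 / la) ^ (4 * (t + 1)) ≤ 2 ^ (4 * (t + 1)) := by
    refine (mul_le_mul_of_nonneg_right h8 (by positivity)).trans (le_of_eq ?_)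
    rw [← mul_pow]
    congr 1
    field_simp
  have h10 : (0 : ℝ) ≤ (q : ℝ) ^ r := by positivity
  rw [pow_add]
  nlinarith

end Pool.Agent.Work.MP_e10cd8_co.Gap
end

-- merged part: Pool.Agent.Work.MP_e10cd8_co.Gap.Core
section
/-! A container for a part of the smaller side. -/

namespace Pool.Agent.Work.MP_e10cd8_co.Gap
open Finset Four All Uni

variable {q t s r : ℕ} {Pt Pt' : Type} [Fintype Pt] [DecidableEq Pt] [Fintype Pt'] [DecidableEq Pt']

theorem co_sum (G : GP q t Pt) {x : ℝ} {P S : Finset Pt} (h : P ⊆ G.low x S) :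
    ∑ a ∈ P, (G.cnt S a : ℝ) ≤ x * P.card * S.card / q := by
  refine (sum_le_card_nsmul _ _ _ fun a ha => G.mem_low.1 (h ha)).trans (le_of_eq ?_)
  rw [nsmul_eq_mul]
  ring

theorem co_swap (G : GP q t Pt) (P S : Finset Pt) :
    ∑ b ∈ S, (G.cnt P b : ℝ) = ∑ a ∈ P, (G.cnt S a : ℝ) := by
  exact_mod_cast G.sum_cnt_comm P S

/-- the low part of `S` has no larger average -/
theorem co_avg (G : GP q t Pt) {x : ℝ} (hx : x ≤ 1 / 2) {P S : Finset Pt} (h : P ⊆ G.low x S) :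
    ∑ b ∈ S ∩ G.low (1 / 2) P, (G.cnt P b : ℝ) ≤ x * (S ∩ G.low (1 / 2) P).card * P.card / q := by
  have q0 : (0 : ℝ) < q := by exact_mod_cast lt_of_lt_of_le two_pos G.two_le
  have h1 := co_sum G h
  have h2 := co_swap G P S
  have h3 := sum_inter_add_sum_sdiff S (G.low (1 / 2) P) fun b => (G.cnt P b : ℝ)
  have h4 : ((S \ G.low (1 / 2) P).card : ℝ) * (x * P.card / q) ≤
      ∑ b ∈ S \ G.low (1 / 2) P, (G.cnt P b : ℝ) := by
    rw [← nsmul_eq_mul]
    refine card_nsmul_le_sum _ _ _ fun b hb => ?_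
    have k := (mem_sdiff.1 hb).2
    rw [G.mem_low, not_le] at k
    refine le_trans (div_le_div_of_nonneg_right ?_ q0.le) k.le
    exact mul_le_mul_of_nonneg_right hx (Nat.cast_nonneg _)
  have h5 : (S.card : ℝ) = (S ∩ G.low (1 / 2) P).card + (S \ G.low (1 / 2) P).card := by
    exact_mod_cast (card_inter_add_card_sdiff S _).symm
  rw [h5] at h1
  have e : x * P.card * ((S ∩ G.low (1 / 2) P).card + (S \ G.low (1 / 2) P).card : ℝ) / q =
      x * (S ∩ G.low (1 / 2) P).card * P.card / q +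
        ((S \ G.low (1 / 2) P).card : ℝ) * (x * P.card / q) := by ring
  linarith

theorem co_W {Γ Om : ℝ} (h10 : 10 ≤ t) (hOm : 1 ≤ Om) (hΓ : 1 ≤ Γ) :
    8000 * (t : ℝ) ^ 3 * Γ * Om ≤ cW t Γ Om := by
  have t1 : (10 : ℝ) ≤ t := by exact_mod_cast h10
  have k1 : (1 : ℝ) ≤ t ^ 3 := one_le_pow₀ (by linarith)
  have k2 : (1 : ℝ) ≤ 8000 * t ^ 3 * Γ := by nlinarith
  have k3 : Om ≤ 16 * t * Om := by nlinarith
  have k4 : 8000 * (t : ℝ) ^ 3 * Γ ≤ (8000 * t ^ 3 * Γ) ^ 4 := le_self_pow₀ k2 (by norm_num)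
  have k5 : Om ≤ (16 * t * Om) ^ 8 := k3.trans (le_self_pow₀ (by linarith) (by norm_num))
  have k6 : (1 : ℝ) ≤ Real.exp (400 * (t + 1)) := Real.one_le_exp (by positivity)
  have k7 := mul_le_mul k4 k5 (by linarith) (by positivity)
  have k8 : (0 : ℝ) ≤ (8000 * t ^ 3 * Γ) ^ 4 * (16 * t * Om) ^ 8 := by positivity
  rw [cW]
  nlinarith

theorem co_count (G : GP q t Pt) (hr : r ≤ t) (hq : 10 ≤ q) {a a' b c f : ℝ} (hf : 0 ≤ f)
    (ha : a ≤ Real.exp ((t + 1) ^ 2 * q * Real.log q))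
    (ha' : a' ≤ Real.exp ((t + 1) ^ 2 * q * Real.log q))
    (hb : b ≤ Real.exp (30 * (t + 1) ^ 2 * q * Real.log q))
    (hc : c ≤ (a + a' + b) * (1 + (Fintype.card (Fin r → Pt) : ℝ) * f)) :
    c ≤ (f + 1) * Real.exp (40 * (t + 1) ^ 2 * q * Real.log q) := by
  have q1 : (10 : ℝ) ≤ q := by exact_mod_cast hq
  have l1 : 1 ≤ Real.log q := by
    rw [Real.le_log_iff_exp_le (by linarith)]
    linarith [Real.exp_one_lt_d9]
  obtain ⟨u, hu⟩ : ∃ u : ℝ, u = (t + 1) ^ 2 * q * Real.log q := ⟨_, rfl⟩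
  have t1 : (1 : ℝ) ≤ (t + 1) ^ 2 := one_le_pow₀ (by linarith [Nat.cast_nonneg (α := ℝ) t])
  have u1 : 1 ≤ u := by
    rw [hu]
    exact one_le_mul_of_one_le_of_one_le (one_le_mul_of_one_le_of_one_le t1 (by linarith)) l1
  have k1 : (Fintype.card (Fin r → Pt) : ℝ) ≤ Real.exp u := by
    have : Fintype.card (Fin r → Pt) ≤ q ^ ((t + 1) * (t + 1)) := by
      rw [Fintype.card_fun, Fintype.card_fin, pow_mul]
      exact (Nat.pow_le_pow_left ((Nat.le_succ _).trans G.card_pt_succ_le) _).trans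
        (Nat.pow_le_pow_right (Nat.pow_pos (by omega)) (by omega))
    refine ((Nat.cast_le (α := ℝ)).2 this).trans ?_
    rw [Nat.cast_pow, ← Real.exp_log (show (0 : ℝ) < q by linarith), ← Real.exp_nat_mul,
      Real.exp_le_exp, hu]
    push_cast
    rw [← sq]
    refine mul_le_mul_of_nonneg_right ?_ (by linarith)
    exact le_mul_of_one_le_right (by positivity) (by linarith)
  have e1 : 30 * ((t : ℝ) + 1) ^ 2 * q * Real.log q = 30 * u := by rw [hu]; ring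
  have e2 : 40 * ((t : ℝ) + 1) ^ 2 * q * Real.log q = 40 * u := by rw [hu]; ring
  rw [← hu] at ha ha'
  rw [e1] at hb
  rw [e2]
  have k2 : Real.exp u ≤ Real.exp (30 * u) := Real.exp_le_exp.2 (by linarith)
  have k3 : 2 ≤ Real.exp u := by linarith [Real.add_one_le_exp u]
  have k3' : 3 ≤ Real.exp (2 * u) := by linarith [Real.add_one_le_exp (2 * u)]
  have k4 : a + a' + b ≤ Real.exp (30 * u) * Real.exp (2 * u) := by
    nlinarith [Real.exp_pos (30 * u)]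
  have k5 : 1 + (Fintype.card (Fin r → Pt) : ℝ) * f ≤ (f + 1) * Real.exp u := by
    nlinarith [mul_le_mul_of_nonneg_right k1 hf]
  have k6 : Real.exp (30 * u) * Real.exp (2 * u) * Real.exp u ≤ Real.exp (40 * u) := by
    rw [← Real.exp_add, ← Real.exp_add]
    exact Real.exp_le_exp.2 (by linarith)
  refine hc.trans ((mul_le_mul k4 k5 (by positivity) (by positivity)).trans ?_)
  nlinarith

theorem co_small (G : GP q t Pt) : ((sel fun T : Finset Pt => T.card ≤ 2 * q).card : ℝ) ≤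
    Real.exp ((t + 1) ^ 2 * q * Real.log q) := by
  have q2 := G.two_le
  have t2 := G.ht
  have h5 : (sel fun T : Finset Pt => T.card ≤ 2 * q).card ≤ q ^ ((t + 1) * (t + 1) * q) := by
    refine (GeoA_small _).trans ((Nat.pow_le_pow_left G.card_pt_succ_le _).trans ?_)
    rw [← pow_mul, mul_assoc]
    exact Nat.pow_le_pow_right (by omega)
      (Nat.mul_le_mul_left _ (Nat.mul_le_mul_right _ (by omega)))
  have h6 : (((t + 1) * (t + 1) * q : ℕ) : ℝ) = (t + 1) ^ 2 * q := by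
    push_cast
    ring
  rw [← h6, Real.exp_nat_mul, Real.exp_log (by exact_mod_cast (by omega : 0 < q))]
  exact_mod_cast h5

variable {G : GP q t Pt} {G' : GP q (s + 1) Pt'}

theorem core (hp : ∀ R, G.rk R = r → ∃ π φ, MPrj G G' R π φ) (ht : t = s + 1 + r) (h10 : 10 ≤ t)
    (hr : 6 * r + 8 ≤ t + 1) (hq : 10 ^ 7 * t ^ 6 ≤ q) {x x' Om Om' Γ : ℝ} (hx : 0 < x)
    (hx1 : x ≤ 1 / 4) (hx' : x * (1 + 5 / t) ≤ x') (hO : 1 ≤ Om) (hO' : 32 * t * Om ≤ Om')
    (hΓ : 1 ≤ Γ) {F' : Finset (Finset Pt')} (hF : G'.Cont x' Om' Γ (fun _ => True) F') :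
    ∃ F : Finset (Finset Pt),
      (F.card : ℝ) ≤ (F'.card + 1) * Real.exp (40 * (t + 1) ^ 2 * q * Real.log q) ∧
      ∀ P S : Finset Pt, P.Nonempty → P ⊆ G.low x S →
        (P.card : ℝ) ^ 2 ≤ 2 * (q : ℝ) ^ (t + 1) → (q : ℝ) ^ (t + 1) ≤ P.card * S.card * Om →
        ∃ X ∈ F, (P.card : ℝ) ≤ cW t Γ Om * (P ∩ X).card ∧ (X.card : ℝ) ≤ cW t Γ Om * P.card := by
  obtain ⟨c'⟩ : Nonempty Pt' := Fintype.card_pos_iff.1 (by rw [G'.card_pt, gs_succ]; omega)
  obtain ⟨c⟩ : Nonempty Pt := Fintype.card_pos_iff.1 (by rw [G.card_pt, gs_succ]; omega)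
  have hp' : ∀ z : Fin r → Pt, ∃ π φ, G.rk (univ.image z) = r → MPrj G G' (univ.image z) π φ :=
    fun z => by
      by_cases k : G.rk (univ.image z) = r
      · obtain ⟨π, φ, h⟩ := hp _ k
        exact ⟨π, φ, fun _ => h⟩
      · exact ⟨fun _ => c', fun _ => c, fun h => absurd h k⟩
  choose π φ hp' using hp'
  have t1 : (10 : ℝ) ≤ t := by exact_mod_cast h10
  have t0 : (0 : ℝ) < t := by linarith
  have t6 : 1 ≤ t ^ 6 := Nat.one_le_pow _ _ (by omega)
  have qn : 10000 ≤ q := by omega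
  have q7 : (10 : ℝ) ^ 7 * t ^ 6 ≤ q := by exact_mod_cast hq
  have q1 : (10000 : ℝ) ≤ q := by exact_mod_cast qn
  have q0 : (0 : ℝ) < q := by linarith
  have t3 : (1 : ℝ) ≤ t ^ 3 := one_le_pow₀ (by linarith)
  have hK : (1 : ℝ) ≤ 8000 * t ^ 3 * Γ :=
    one_le_mul_of_one_le_of_one_le (by linarith only [t3]) hΓ
  have hO16 : 1 ≤ 16 * t * Om := one_le_mul_of_one_le_of_one_le (by linarith only [t1]) hO
  have O0 : 0 ≤ Om := by linarith only [hO]
  have G0 : 0 ≤ Γ := by linarith only [hΓ]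
  have hW := co_W h10 hO hΓ
  have hd : (0 : ℝ) < 1 / t := by positivity
  have hd1 : (1 : ℝ) / t ≤ 1 / 10 := one_div_le_one_div_of_le (by norm_num) t1
  have hqd : 200 ≤ 1 / t * (q : ℝ) := by
    have : (t : ℝ) ≤ t ^ 6 := le_self_pow₀ (by linarith) (by norm_num)
    rw [mul_comm, mul_one_div, le_div_iff₀ t0]
    linarith
  have hxd : x * (1 + 5 * (1 / t)) ≤ x' := by rwa [mul_one_div]
  have d3 : ∀ a b : ℝ, 1000 * t ^ 3 * a ≤ b → 1000 * a ≤ (1 / t) ^ 3 * b := fun a b h => by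
    rw [one_div, inv_pow, ← div_eq_inv_mul, le_div_iff₀ (by positivity)]
    linarith
  have dO : ∀ a : ℝ, a ≤ 4 → 8 * (a * Om) ≤ 1 / t * Om' := fun a h => by
    rw [one_div, ← div_eq_inv_mul, le_div_iff₀ t0]
    linarith only [mul_le_mul_of_nonneg_right h (mul_nonneg t0.le O0), hO']
  obtain ⟨FU, hFU, hU⟩ := greedy_heavy G r (by omega) qn
  choose F4 h41 h42 using fun Y => corr4 G Y
  refine ⟨(sel fun T : Finset Pt => T.card ≤ 2 * q) ∪
    ((FU ∪ (FU ×ˢ (univ : Finset (Fin r → Pt)) ×ˢ F').image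
      fun y => unq G y.2.1 (π y.2.1) y.1 y.2.2) ∪
    (F4 univ ∪ ((univ : Finset (Fin r → Pt)) ×ˢ F').biUnion
      fun y => F4 (cone G y.1 (π y.1) y.2))), ?_, fun P S hP hPS hn hE => ?_⟩
  · refine co_count G (r := r) (by omega) (by omega) (Nat.cast_nonneg _) hFU (co_small G)
      le_rfl ?_
    have k1 : (((FU ×ˢ (univ : Finset (Fin r → Pt)) ×ˢ F').image
        fun y => unq G y.2.1 (π y.2.1) y.1 y.2.2).card : ℝ) ≤
        FU.card * ((Fintype.card (Fin r → Pt) : ℝ) * F'.card) := by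
      have := card_image_le (s := FU ×ˢ (univ : Finset (Fin r → Pt)) ×ˢ F')
        (f := fun y => unq G y.2.1 (π y.2.1) y.1 y.2.2)
      rw [card_product, card_product, card_univ] at this
      exact_mod_cast this
    have k2 : ((((univ : Finset (Fin r → Pt)) ×ˢ F').biUnion
        fun y => F4 (cone G y.1 (π y.1) y.2)).card : ℝ) ≤ (Fintype.card (Fin r → Pt) : ℝ) * F'.card *
          Real.exp (30 * (t + 1) ^ 2 * q * Real.log q) := by
      refine (Nat.cast_le.2 card_biUnion_le).trans ?_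
      rw [Nat.cast_sum]
      refine (sum_le_card_nsmul _ _ _ fun y _ => h41 _).trans (le_of_eq ?_)
      rw [nsmul_eq_mul, card_product, card_univ, Nat.cast_mul]
    refine (Nat.cast_le.2 ((card_union_le _ _).trans (add_le_add le_rfl ((card_union_le _ _).trans
      (add_le_add (card_union_le _ _) (card_union_le _ _)))))).trans ?_
    push_cast
    have k3 := h41 univ
    have k4 : 0 ≤ ((sel fun T : Finset Pt => T.card ≤ 2 * q).card : ℝ) *
        ((Fintype.card (Fin r → Pt) : ℝ) * F'.card) := by positivity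
    linarith only [k1, k2, k3, k4]
  obtain ⟨U, hUF, hUc, hV⟩ := hU P hP
  rw [show t - r - 1 = s by omega] at hUc
  have n0 : (0 : ℝ) < P.card := by exact_mod_cast hP.card_pos
  have s0 : (0 : ℝ) < S.card := by
    by_contra k
    have : (S.card : ℝ) = 0 := le_antisymm (not_lt.1 k) (Nat.cast_nonneg _)
    rw [this, mul_zero, zero_mul] at hE
    linarith only [hE, pow_pos q0 (t + 1)]
  have hU3 : 1000 * (t : ℝ) ^ 3 * U.card ≤ (q : ℝ) ^ s := by
    have k1 : 2000 * (t : ℝ) ^ 3 ≤ Real.sqrt q := Real.le_sqrt_of_sq_le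
      (by linarith only [q7, pow_nonneg t0.le 6])
    have k2 := Real.mul_self_sqrt q0.le
    have k3 : 0 < Real.sqrt q := Real.sqrt_pos.2 q0
    have k4 : (U.card : ℝ) * Real.sqrt q ≤ 2 * (q : ℝ) ^ s := by
      refine le_of_mul_le_mul_right ?_ k3
      rw [mul_assoc, k2]
      linarith only [hUc]
    linarith only [k4, mul_le_mul_of_nonneg_left k1 (Nat.cast_nonneg (α := ℝ) U.card)]
  have GO : 1 ≤ Γ * Om := one_le_mul_of_one_le_of_one_le hΓ hO
  have W0 : 8000 * (t : ℝ) ^ 3 ≤ cW t Γ Om := by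
    linarith only [hW, mul_le_mul_of_nonneg_left GO (pow_nonneg t0.le 3)]
  have W1 : 1 ≤ cW t Γ Om := by linarith only [W0, t3]
  by_cases h2q : P.card ≤ 2 * q
  · refine ⟨P, mem_union_left _ (mem_sel.2 h2q), ?_, ?_⟩
    · rw [inter_self]
      exact le_mul_of_one_le_left n0.le W1
    · exact le_mul_of_one_le_left n0.le W1
  refine Exists.imp (fun X (k : X ∈ _ ∧ _) => ⟨mem_union_right _ k.1, k.2⟩) ?_
  by_cases hc : P.card ≤ 2 * (P \ U).card
  · -- the bulk is outside the heavy subspaces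
    have hV' := hV hc
    set P' := P \ U with hP'
    have sub : P' ⊆ P := sdiff_subset
    have c1 : (P.card : ℝ) ≤ 2 * P'.card := by exact_mod_cast hc
    have c2 : (P'.card : ℝ) ≤ P.card := by exact_mod_cast card_le_card sub
    have p0 : (0 : ℝ) < P'.card := by linarith only [c1, n0]
    have ne : P'.Nonempty := card_pos.1 (by exact_mod_cast p0)
    have hn' : (P'.card : ℝ) ^ 2 ≤ 2 * (q : ℝ) ^ (t + 1) :=
      (pow_le_pow_left₀ p0.le c2 2).trans hn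
    set S1 := S ∩ G.low (1 / 2) P' with hS1
    have c3 : (S.card : ℝ) ≤ 2 * S1.card := by
      have k1 := G.half_low hx (sub.trans hPS)
      have k2 : (S ∩ G.low (2 * x) P').card ≤ S1.card :=
        card_le_card (inter_subset_inter_left (G.low_mono (by linarith only [hx1]) _))
      exact_mod_cast k1.trans (Nat.mul_le_mul_left 2 k2)
    have hE1 : (q : ℝ) ^ (t + 1) ≤ S1.card * P'.card * (4 * Om) := by
      refine hE.trans ?_
      have := mul_le_mul c1 c3 s0.le (by positivity)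
      linarith only [mul_le_mul_of_nonneg_right this O0]
    have hV2 : ∑ h, (tb G P' h / q) ^ (4 * (t + 1)) ≤ 2 ^ (4 * (t + 1) + 2) * (q : ℝ) ^ r := by
      refine le_trans (le_of_eq (sum_congr rfl fun h _ => ?_)) hV'
      rw [tb, ms, GP.cnt]
      congr 1
      field_simp
    have fin : ∀ Y S', (Y.card : ℝ) * P'.card ≤ 8000 * t ^ 3 * Γ * (q : ℝ) ^ (t + r + 2) →
        S' ⊆ Y → S' ⊆ S1 → (S1.card : ℝ) ≤ 4 * t * S'.card → ∃ X ∈ F4 Y,
          (P.card : ℝ) ≤ cW t Γ Om * (P ∩ X).card ∧ (X.card : ℝ) ≤ cW t Γ Om * P.card := by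
      intro Y S' a1 a2 a3 a4
      obtain ⟨X, hX, b1, b2⟩ := h42 Y P' S' r _ (16 * t * Om)
        ⟨by omega, by omega, hn', hr, hV2, hK, a1⟩ a2 (a3.trans inter_subset_right) hO16 (by
        refine hE1.trans ?_
        have := mul_le_mul_of_nonneg_right a4 (show 0 ≤ (P'.card : ℝ) * (4 * Om) by positivity)
        linarith only [this])
      have b3 : ((P' ∩ X).card : ℝ) ≤ (P ∩ X).card := by
        exact_mod_cast card_le_card (inter_subset_inter_right sub)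
      have w0 : 0 ≤ Real.exp (400 * (t + 1)) * (8000 * t ^ 3 * Γ) ^ 4 * (16 * t * Om) ^ 8 := by
        positivity
      rw [cW]
      generalize Real.exp (400 * (t + 1)) * (8000 * t ^ 3 * Γ) ^ 4 * (16 * t * Om) ^ 8 = w at *
      refine ⟨X, hX, ?_, ?_⟩
      · linarith only [mul_le_mul_of_nonneg_left b3 w0, b1, c1]
      · linarith only [mul_le_mul_of_nonneg_left c2 w0, mul_nonneg w0 n0.le, b2]
    by_cases hsm : (P'.card : ℝ) ≤ 4000 * t ^ 3 * (q : ℝ) ^ (r + 2)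
    · obtain ⟨X, hX, b⟩ := fin univ S1 (by
        rw [card_univ, show t + r + 2 = t + (r + 2) by omega, pow_add]
        have k1 := mul_le_mul G.card_pt_le hsm p0.le (by positivity)
        have k2 : 0 ≤ 8000 * (t : ℝ) ^ 3 * ((q : ℝ) ^ t * q ^ (r + 2)) := by positivity
        linarith only [k1, mul_le_mul_of_nonneg_left hΓ k2]) (subset_univ _) Subset.rfl
        (le_mul_of_one_le_left (Nat.cast_nonneg _) (by linarith only [t1]))
      exact ⟨X, mem_union_right _ (mem_union_left _ hX), b⟩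
    · have hbig := (not_le.1 hsm).le
      have r0 := pow_pos q0 r
      have ne1 : S1.Nonempty := card_pos.1 (by exact_mod_cast (show (0 : ℝ) < S1.card by linarith only [c3, s0]))
      have k1 : 1000 * (t : ℝ) ^ 3 * S1.card ≤ (q : ℝ) ^ s := by
        have l1 := G.card_low_le (x := 1 / 2) (by norm_num) P'
        have l2 : (S1.card : ℝ) ≤ (G.low (1 / 2) P').card := by
          exact_mod_cast card_le_card inter_subset_right
        have l3 := mul_le_mul l2 hbig (by positivity) (Nat.cast_nonneg _)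
        rw [show t + 1 = s + (r + 2) by omega, pow_add] at l1
        refine le_of_mul_le_mul_right ?_ (pow_pos q0 (r + 2))
        linarith only [l1, l3]
      have k2 : 1000 * (t : ℝ) ^ 3 * (q : ℝ) ^ r ≤ P'.card := by
        refine le_trans ?_ hbig
        have : (q : ℝ) ^ r ≤ q ^ (r + 2) := pow_le_pow_right₀ (by linarith only [q1]) (by omega)
        exact mul_le_mul (by linarith only [t3]) this r0.le (by positivity)
      obtain ⟨z, X', hX', a1, a2⟩ := desc hp' ht (Subset.refl S1) ne1 ne hd hd1 hqd hx hxd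
        (by positivity) (dO 4 le_rfl) G0 hF
        ((co_swap G _ _).trans_le (co_avg G (by linarith only [hx1]) (sub.trans hPS))) hE1 (d3 _ _ k1)
        (d3 _ _ k2)
      obtain ⟨X, hX, b⟩ := fin (cone G z (π z) X') (S1 ∩ unq G z (π z) S1 X') (by
        have l1 := mul_le_mul_of_nonneg_right (cone_card (hp' z) X') p0.le
        have l2 := mul_le_mul_of_nonneg_left a1 (show 0 ≤ 2 * (q : ℝ) ^ r by positivity)
        have l3 : (q : ℝ) ^ r * q ^ (t + 1) ≤ q ^ (t + r + 2) := by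
          rw [← pow_add]
          exact pow_le_pow_right₀ (by linarith only [q1]) (by omega)
        have l4 := mul_le_mul_of_nonneg_left l3 G0
        have l5 : 0 ≤ Γ * (q : ℝ) ^ (t + r + 2) := by positivity
        linarith only [l1, l2, l4, l5, mul_le_mul_of_nonneg_right t3 l5])
        (inter_subset_right.trans (unq_card G z _ _ _).2.2) inter_subset_left (by
        rw [one_div, ← div_eq_inv_mul, div_le_iff₀ t0] at a2
        linarith only [a2])
      exact ⟨X, mem_union_right _ (mem_union_right _ (mem_biUnion.2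
        ⟨(z, X'), mem_product.2 ⟨mem_univ _, hX'⟩, hX⟩)), b⟩
  · -- the bulk is inside the heavy subspaces
    have c1 : (P.card : ℝ) ≤ 2 * (P ∩ U).card := by
      have := card_inter_add_card_sdiff P U
      exact_mod_cast (by omega : P.card ≤ 2 * (P ∩ U).card)
    have i0 : (0 : ℝ) < (P ∩ U).card := by linarith only [c1, n0]
    by_cases hS : 1000 * (t : ℝ) ^ 3 * (q : ℝ) ^ r ≤ S.card
    · obtain ⟨z, X', hX', a1, a2⟩ := desc hp' ht (inter_subset_right : P ∩ U ⊆ U)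
        (card_pos.1 (by exact_mod_cast i0)) (card_pos.1 (by exact_mod_cast s0)) hd hd1 hqd hx hxd
        (show 0 ≤ 2 * Om by positivity) (dO 2 (by norm_num)) G0 hF
        ((co_swap G _ _).trans_le (co_sum G (inter_subset_left.trans hPS))) (by
          refine hE.trans ?_
          have := mul_le_mul_of_nonneg_right c1 (show 0 ≤ (S.card : ℝ) * Om by positivity)
          linarith only [this]) (d3 _ _ hU3) (d3 _ _ hS)
      refine ⟨unq G z (π z) U X', mem_union_left _ (mem_union_right _ (mem_image.2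
        ⟨(U, z, X'), mem_product.2 ⟨hUF, mem_product.2 ⟨mem_univ _, hX'⟩⟩, rfl⟩)), ?_, ?_⟩
      · rw [one_div, ← div_eq_inv_mul, div_le_iff₀ t0] at a2
        have l1 : ((P ∩ U ∩ unq G z (π z) U X').card : ℝ) ≤ (P ∩ unq G z (π z) U X').card := by
          exact_mod_cast card_le_card (inter_subset_inter_right inter_subset_left)
        have l2 : 8 * (t : ℝ) ≤ cW t Γ Om := by
          have : (t : ℝ) ≤ t ^ 3 := le_self_pow₀ (by linarith only [t1]) (by norm_num)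
          linarith only [this, W0, t3]
        have l3 := mul_le_mul_of_nonneg_right l2
          (Nat.cast_nonneg (α := ℝ) (P ∩ unq G z (π z) U X').card)
        linarith only [c1, a2, l3, mul_le_mul_of_nonneg_left l1 t0.le]
      · have l1 : ((unq G z (π z) U X').card : ℝ) ≤ X'.card := by exact_mod_cast (unq_card G z _ U X').1
        have l2 : (X'.card : ℝ) ≤ 4 * Γ * Om * P.card := by
          refine le_of_mul_le_mul_right (a1.trans ?_) s0
          linarith only [mul_le_mul_of_nonneg_left hE G0]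
        have l3 : 4 * Γ * Om ≤ cW t Γ Om := by
          linarith only [hW, GO, mul_le_mul_of_nonneg_right t3 (mul_nonneg G0 O0)]
        exact l1.trans (l2.trans (mul_le_mul_of_nonneg_right l3 n0.le))
    · refine ⟨U, mem_union_left _ (mem_union_left _ hUF), ?_, ?_⟩
      · exact c1.trans (mul_le_mul_of_nonneg_right (by linarith only [W0, t3]) i0.le)
      · have l1 : (q : ℝ) ^ s ≤ 1000 * t ^ 3 * Om * P.card := by
          have l2 := mul_le_mul_of_nonneg_left (not_le.1 hS).le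
            (show 0 ≤ (P.card : ℝ) * Om by positivity)
          have l3 : (q : ℝ) ^ s * q ^ r ≤ q ^ (t + 1) := by
            rw [← pow_add]
            exact pow_le_pow_right₀ (by linarith only [q1]) (by omega)
          refine le_of_mul_le_mul_right ?_ (pow_pos q0 r)
          linarith only [l2, l3, hE]
        have l4 : (U.card : ℝ) ≤ Om * P.card := by
          refine le_of_mul_le_mul_left ?_ (show (0 : ℝ) < 1000 * t ^ 3 by positivity)
          linarith only [l1, hU3]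
        have l5 : Om ≤ cW t Γ Om := (le_mul_of_one_le_left O0 hK).trans hW
        exact l4.trans (mul_le_mul_of_nonneg_right l5 n0.le)

end Pool.Agent.Work.MP_e10cd8_co.Gap
end
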