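import Pool.Agent.Work.MP_e10cd8_co.Gap.Rich3
import Pool.Agent.Work.MP_e10cd8_co.Gap.BWt
import Pool.Agent.Work.MP_e10cd8_co.Exact.XAsym
import Pool.Agent.Work.MP_e10cd8_co.All.AAsym
import Pool.Agent.Work.MP_e10cd8_co.Mid.KL
import Pool.Agent.Work.MP_e10cd8_co.Far.Main

-- merged part: Pool.Agent.Work.MP_e10cd8_co.All.Val
section

end

-- merged part: Pool.Agent.Work.MP_e10cd8_co.All.ASt2
section

end

-- merged part: Pool.Agent.Work.MP_e10cd8_co.Gap.BVal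
section
/-! Valid samples of a sparse set of flags. Compare `All/Val`. -/

namespace Pool.Agent.Work.MP_e10cd8_co.Gap

open Finset Four All

variable {q t : ℕ} {Pt : Type} [Fintype Pt] [DecidableEq Pt] (G : GP q t Pt)

/-- double counting -/
theorem BVal_cnt {ι : Type} (Z : Finset ι) (f : ι → Pt) (p : Pt → ι → Prop)
    (hp : ∀ a u, p a u ↔ a ∈ G.pl (f u)) {x e : ℝ} (hx : 0 < x) (he : 0 ≤ e) {P : Finset Pt}
    (hP : ∀ a ∈ P, ((selIn Z (p a)).card : ℝ) ≤ e) :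
    ((selIn Z fun u => f u ∉ G.low x P).card : ℝ) ≤ e * q / x := by
  have q0 : (0 : ℝ) < q := Nat.cast_pos.2 (lt_of_lt_of_le two_pos G.two_le)
  rcases P.eq_empty_or_nonempty with rfl | hne
  · rw [eq_empty_of_forall_notMem (s := selIn Z fun u => f u ∉ G.low x ∅) fun z hz =>
      (mem_selIn.1 hz).2 (G.mem_low.2 (by simp [GP.cnt])), card_empty, Nat.cast_zero]
    positivity
  have p0 : (0 : ℝ) < P.card := Nat.cast_pos.2 hne.card_pos
  have e1 : ∀ u, (G.cnt P (f u) : ℝ) = ∑ a ∈ P, ind (p a u) := fun u => by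
    rw [← card_selIn, GP.cnt]
    refine congrArg _ (congrArg _ ?_)
    ext a
    rw [mem_inter, mem_selIn, and_comm, hp]
  have h1 : ((selIn Z fun u => f u ∉ G.low x P).card : ℝ) * (x * P.card / q) ≤ P.card * e := by
    calc _ ≤ ∑ u ∈ selIn Z fun u => f u ∉ G.low x P, (G.cnt P (f u) : ℝ) := by
          rw [← nsmul_eq_mul]
          exact card_nsmul_le_sum _ _ _ fun u hu =>
            (not_le.1 fun k => (mem_selIn.1 hu).2 (G.mem_low.2 k)).le
      _ ≤ ∑ u ∈ Z, (G.cnt P (f u) : ℝ) :=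
          sum_le_sum_of_subset_of_nonneg (selIn_subset _ _) fun _ _ _ => Nat.cast_nonneg _
      _ = ∑ a ∈ P, ((selIn Z (p a)).card : ℝ) := by
          simp only [e1, card_selIn]
          exact sum_comm
      _ ≤ _ := by
          rw [← nsmul_eq_mul]
          exact sum_le_card_nsmul _ _ _ hP
  refine le_of_mul_le_mul_right (h1.trans (le_of_eq ?_))
    (show 0 < x * P.card / q by positivity)
  field_simp

/-- sample `Z'` at rate `am0 / (8 ad)` -/
theorem smp {H D k : ℕ} (h : NG q t H D k) {x : ℝ} (hx : 1 / (H : ℝ) ≤ x)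
    {Z : Finset (Pt × Pt)} (hk : Z.card ≤ k) (hZ : G.sparse (8 * ad q H k) Z) :
    Smp G (G.Pof (am0 q t)) (G.Pio (am0 q t)) x H k Z := by
  intro Z' h'
  have q1 := h.q_ge
  have H1 := h.H_ge'
  have k0 := h.k_pos
  have q0 := h.q0
  have H0 := h.H0
  have x0 : 0 < x := lt_of_lt_of_le (by positivity) hx
  have L0 := h.L0
  have t2 := h.t2
  have hm : 0 < am0 q t := by unfold am0; positivity
  have d0 : (0 : ℝ) < ad q H k := hm.trans_le h.am0_le
  obtain ⟨d, hd'⟩ : ∃ d : ℝ, d = 8 * ad q H k := ⟨_, rfl⟩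
  have hd : am0 q t ≤ d := by linarith [h.am0_le]
  have d1 : 0 < d := hm.trans_le hd
  have t0 := h.t0_pos
  have h0 : 0 ≤ am0 q t / d := by positivity
  have h01 : am0 q t / d ≤ 1 := (div_le_one d1).2 hd
  have a1 := PG.Sparse1_test Z' (fun (a : Pt) z => a ∈ G.pl z.2) hm hd
  have a2 := PG.Sparse1_test Z' (fun (b : Pt) z => z.1 ∈ G.pl b) hm hd
  have a3 := markov h0 h01 (Ω := Z') (f := fun T => ((T ∩ Z').card : ℝ))
    (fun _ _ => Nat.cast_nonneg _) t0
  rw [Ex_card, inter_self] at a3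
  have a4 : am0 q t / d * Z'.card / bt0 q t H ≤ 1 / 10 := by
    have b1 : (Z'.card : ℝ) ≤ k := by exact_mod_cast (card_le_card h').trans hk
    have b2 : (k : ℝ) ≤ ad q H k * (H ^ 3 * q) := (div_le_iff₀ (by positivity)).1 h.ad_ge
    have b3 : (30 : ℝ) * (t + 1) ≤ 8 * (H * t) := by nlinarith
    rw [div_le_iff₀ t0, div_mul_eq_mul_div, div_le_iff₀ d1]
    calc am0 q t * Z'.card ≤ am0 q t * (ad q H k * (H ^ 3 * q)) :=
          mul_le_mul_of_nonneg_left (b1.trans b2) hm.le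
      _ = (30 * (t + 1)) * (1 / 10 * (H ^ 3 * q * Real.log q) * ad q H k) := by
          unfold am0
          ring
      _ ≤ 8 * (H * t) * (1 / 10 * (H ^ 3 * q * Real.log q) * ad q H k) :=
          mul_le_mul_of_nonneg_right b3 (by positivity)
      _ = _ := by
          unfold bt0
          rw [hd']
          ring
  have a5 : Fintype.card Pt * Real.exp (-am0 q t / 3) ≤ 1 / 10 := by
    rw [show -am0 q t / 3 = -(((t + 1 : ℕ) : ℝ) * Real.log q) by unfold am0; push_cast; ring,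
      Real.exp_neg, Real.exp_nat_mul, Real.exp_log q0, ← div_eq_mul_inv,
      div_le_iff₀ (by positivity), pow_succ]
    refine G.card_pt_le.trans ?_
    have : 0 ≤ (q : ℝ) ^ t * ((q : ℝ) - 20) := mul_nonneg (by positivity) (by linarith)
    linarith
  obtain ⟨T, hT, k'⟩ := exists_of_Pr_lt_one (((Pr_or h0 h01 _ _).trans (add_le_add
    ((Pr_or h0 h01 _ _).trans (add_le_add (a1.trans a5) (a2.trans a5))) (a3.trans a4))).trans_lt
      (by norm_num))
  obtain ⟨k1, k3⟩ := not_or.1 k'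
  obtain ⟨k1, k2⟩ := not_or.1 k1
  rw [not_not] at k1 k2
  rw [inter_eq_left.2 hT] at k3
  have hb : 4 * d * q / x ≤ 5 * k / H := by
    have b1 : (ad q H k : ℝ) * (H ^ 3 * q) ≤ 2 * k := (le_div_iff₀ (by positivity)).1 h.ad_le
    have b2 : 4 * d * q / x ≤ 4 * d * q / (1 / H) :=
      div_le_div_of_nonneg_left (by positivity) (by positivity) hx
    refine b2.trans ?_
    rw [div_div_eq_mul_div, div_one, le_div_iff₀ H0, hd']
    refine le_of_mul_le_mul_right ?_ H0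
    have c1 : 64 * (k : ℝ) ≤ k * H := by nlinarith
    nlinarith
  have hc : ∀ {n : ℕ}, n ≤ 8 * ad q H k → (n : ℝ) ≤ d := fun hn => by
    rw [hd']
    exact_mod_cast hn
  refine ⟨T, hT, (not_le.1 k3).le, fun z hz => ?_, fun P' hP' => ?_, fun Q' hQ' => ?_⟩
  · exact G.mem_pool.2 ⟨G.mem_flags.1 (hZ.1 hz),
      G.ASt2_Pof.2 ((k1 z.1).1 (hc ((PG.Sparse1_sel h' _).trans (hZ.2 z hz).1))),
      G.ASt2_Pio.2 ((k2 z.2).1 (hc ((PG.Sparse1_sel h' _).trans (hZ.2 z hz).2)))⟩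
  · exact (BVal_cnt G Z' Prod.snd _ (fun _ _ => Iff.rfl) x0 (by positivity)
      fun a ha => (k1 a).2 (G.ASt2_Pof.1 (hP' ha))).trans hb
  · exact (BVal_cnt G Z' Prod.fst _ (fun _ _ => G.symm _ _) x0 (by positivity)
      fun a ha => (k2 a).2 (G.ASt2_Pio.1 (hQ' ha))).trans hb

theorem valid_BB {PP QQ : Finset (Pt × Pt) → Finset Pt} {x : ℝ} {H k : ℕ}
    {Z Z' T : Finset (Pt × Pt)} (h' : Z' ⊆ Z) (hv : Valid G PP QQ x H k Z Z' T) :
    (Z'.card : ℝ) - 10 * k / H ≤ (Z ∩ G.BB x (PP T) (QQ T)).card := by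
  have a1 := hv.lp _ Subset.rfl
  have a2 := hv.lq _ Subset.rfl
  have a3 : Z' ⊆ (Z ∩ G.BB x (PP T) (QQ T)) ∪ ((selIn Z' fun z => z.2 ∉ G.low x (PP T)) ∪
      selIn Z' fun z => z.1 ∉ G.low x (QQ T)) := fun z hz => by
    by_contra n
    rw [mem_union, mem_union, mem_selIn, mem_selIn, not_or, not_or, not_and, not_and] at n
    obtain ⟨c1, c2, c3⟩ := G.mem_pool.1 (hv.all (h' hz))
    exact n.1 (mem_inter.2 ⟨h' hz, G.mem_pool.2 ⟨c1, mem_inter.2 ⟨c2, not_not.1 (n.2.2 hz)⟩,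
      mem_inter.2 ⟨c3, not_not.1 (n.2.1 hz)⟩⟩⟩)
  have a4 := (Nat.cast_le (α := ℝ)).2 ((card_le_card a3).trans ((card_union_le _ _).trans
    (Nat.add_le_add_left (card_union_le _ _) _)))
  rw [Nat.cast_add, Nat.cast_add] at a4
  have a5 : 10 * (k : ℝ) / H = 5 * k / H + 5 * k / H := by ring
  linarith

end Pool.Agent.Work.MP_e10cd8_co.Gap
end

-- merged part: Pool.Agent.Work.MP_e10cd8_co.Gap.BHit
section
/-! The fine reduction and the final pools. Compare `All/Red`, `All/Hit`. -/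

namespace Pool.Agent.Work.MP_e10cd8_co.Gap

open Finset Four All

variable {q t : ℕ} {Pt : Type} [Fintype Pt] [DecidableEq Pt] (G : GP q t Pt)

theorem exists_fine {H D k : ℕ} (h : NG q t H D k) {Z : Finset (Pt × Pt)} (hZ : G.indep Z)
    (hk : Z.card ≤ k) (hk' : k ≤ 5 * Z.card) :
    ∃ T2 Zs s, Fine G H D k Z T2 Zs s ∧ (s = 16 * t * D ∨
      (∃ Zl, Kids (fun u z => z ∈ cpool G T2 u) 1000 H k Z Zl s) ∨
      ∃ Zl, Kids (hi G T2) 10000 H k Z Zl s) := by
  have H1 := h.H_ge'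
  have k1 := h.one
  have D1 := h.D1
  have t2 := h.t2
  have k0 := h.k_pos
  have z1 : (k : ℝ) ≤ 5 * Z.card := by exact_mod_cast hk'
  have z2 : 10 ^ 7 * ((k : ℝ) / H) ≤ k := by
    rw [← mul_div_assoc, div_le_iff₀ h.H0]
    nlinarith
  have w1 := Nat.le_ceil (1000 * (k : ℝ) / H)
  have w2 := Nat.ceil_lt_add_one (show 0 ≤ 1000 * (k : ℝ) / H by positivity)
  generalize ⌈1000 * (k : ℝ) / H⌉₊ = w at w1 w2
  rw [mul_div_assoc] at w1 w2
  have d1 : 1 ≤ t * D := Nat.mul_pos (by have := h.ht; omega) (by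
    exact_mod_cast (by linarith : (0 : ℝ) < D))
  obtain ⟨T2, a1, a2, s, a3, Zs, a4, a5, a6, a7⟩ := fine3 G hZ d1 (w := w)
    (by exact_mod_cast (by linarith : 26 * (w : ℝ) ≤ Z.card))
  have c : ∀ {n : ℕ}, w ≤ n → 1000 * (k : ℝ) / H ≤ n := fun hn => by
    rw [mul_div_assoc]
    exact w1.trans (Nat.cast_le.2 hn)
  refine ⟨T2, Zs, s, ⟨hZ, hk, by rw [mul_div_assoc]; linarith, a1, ?_, by rwa [mul_assoc], a4, c a5,
    a6⟩, a7.imp (fun e => by rwa [mul_assoc]) (Or.imp ?_ ?_)⟩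
  · have e1 : T2.card * (t * D) ≤ 8 * (t + 1) * k := a2.trans (Nat.mul_le_mul_left _ hk)
    have e2 : (T2.card : ℝ) * (t * D) ≤ 8 * (t + 1) * k := by exact_mod_cast e1
    have e3 : (T2.card : ℝ) * D ≤ 12 * k :=
      le_of_mul_le_mul_left (by nlinarith) (show (0 : ℝ) < t by linarith)
    exact le_of_mul_le_mul_left (by linarith [h.fine_le]) (show (0 : ℝ) < D by linarith)
  · rintro ⟨Zl, b1, b2, b3⟩
    exact ⟨Zl, b1, c b2, b3⟩
  · rintro ⟨Zl, b1, b2, b3⟩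
    have b4 : 10 * (w : ℝ) ≤ Zl.card := by exact_mod_cast b2
    exact ⟨Zl, b1, by rw [mul_div_assoc]; linarith, b3⟩

theorem hit_st2 {H D k : ℕ} (h : NG q t H D k) {Z T2 Zs : Finset (Pt × Pt)} {s j : ℕ}
    (hF : Fine G H D k Z T2 Zs s) {P Q : Finset Pt} (hZ : Z ⊆ G.pool P Q)
    (hO : (P.card : ℝ) * Q.card ≤ 29 * Real.exp j ^ 2 * (q : ℝ) ^ (t + 1))
    (hj : (j : ℝ) ≤ 6 * Real.log (Real.log q)) (hx : ax q H k s ≤ 1 / 4) :
    s ≤ k ∧ ∃ A ⊆ Z, (A.card : ℝ) ≤ bt0 q t H ∧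
      3 * (k : ℝ) / H ≤ (Z ∩ G.st2 P Q (bm2 q) (ax q H k s) A).card ∧
      ((G.st2 P Q (bm2 q) (ax q H k s) A).card : ℝ) ≤ 2 * ax q H k s * (q : ℝ) ^ t := by
  have H1 := h.H1
  have H0 := h.H0
  have q1 : (1 : ℝ) ≤ q := le_trans (by norm_num) h.q_ge
  have k0 := h.k_pos
  have l0 : 0 ≤ Real.log (Real.log q) := le_trans zero_le_one h.ell_ge
  have s0 : (0 : ℝ) ≤ s := Nat.cast_nonneg _
  have D0 : (0 : ℝ) ≤ D := Nat.cast_nonneg _
  have sD := (h.s_ge hF.s16).1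
  have x0 : 0 < ax q H k s := by
    unfold ax
    positivity
  have zz : Zs ⊆ Z := hF.zs
  have zk : (Zs.card : ℝ) ≤ k := by exact_mod_cast (card_le_card zz).trans hF.hk
  have e1 : ax q H k s * (1000 * (k : ℝ) / H) = 1000 * ((s + 1) * q) := by
    unfold ax
    field_simp
  have sq0 : (0 : ℝ) ≤ (s + 1) * q := by positivity
  refine ⟨?_, ?_⟩
  · have h1 : (H : ℝ) * (s + 1) * q ≤ 1 / 4 * k := by
      rw [← div_le_iff₀ k0]
      exact hx
    have h2 : ((s : ℝ) + 1) * 1 ≤ (s + 1) * q := mul_le_mul_of_nonneg_left q1 (by linarith)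
    have h3 := mul_le_mul_of_nonneg_right H1 sq0
    have h4 : (s : ℝ) ≤ k := by linarith
    exact_mod_cast h4
  obtain ⟨A, a1, a2, a3, a4⟩ := G.stage2 (m := bm2 q) (x := ax q H k s) hF.sp (zz.trans hZ)
    h.bm2_bounds.1 (by
      have := h.bm2_bounds.2
      push_cast
      linarith) x0 hx (by
      have := mul_le_mul_of_nonneg_left hF.zsc x0.le
      push_cast
      linarith) hO (h.ax_sq_ge s j hj)
  refine ⟨A, a1.trans zz, a2.trans ?_, ?_, a4⟩
  · have t0 := h.t0_pos.le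
    rw [div_le_iff₀ (by positivity)]
    have h1 := mul_le_mul_of_nonneg_left (zk.trans h.le_at0) l0
    have h2 : (H : ℝ) ^ 2 ≤ H ^ 3 := pow_le_pow_right₀ H1 (by norm_num)
    have h3 := mul_le_mul_of_nonneg_right h2 l0
    have h4 : 6000 * ((H : ℝ) ^ 2 * Real.log (Real.log q)) ≤ s + 1 := by linarith [h.hD2]
    have h5 := mul_le_mul_of_nonneg_left h4 t0
    unfold bm2
    push_cast
    linarith
  · have h1 : Zs.card ≤ 2 * (Z ∩ G.st2 P Q (bm2 q) (ax q H k s) A).card :=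
      a3.trans (Nat.mul_le_mul_left _ (card_le_card (inter_subset_inter_right zz)))
    have h2 : (Zs.card : ℝ) ≤ 2 * (Z ∩ G.st2 P Q (bm2 q) (ax q H k s) A).card := by
      exact_mod_cast h1
    have h3 := hF.zsc
    have h4 : 0 ≤ (k : ℝ) / H := by positivity
    rw [mul_div_assoc] at h3 ⊢
    linarith

/-- `dominate2` with the flags whose pool has at most `θ` elements -/
theorem hit_par {H D k : ℕ} (h : NG q t H D k) {Z T2 Zs : Finset (Pt × Pt)} {s : ℕ}
    (hF : Fine G H D k Z T2 Zs s) (pf : Pt × Pt → Finset (Pt × Pt)) {θ : ℝ}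
    (hθ : 0 ≤ θ) {Zl : Finset (Pt × Pt)} (hl : Zl ⊆ Z) (hc : 1000 * (k : ℝ) / H ≤ Zl.card)
    (hp : ∀ z ∈ Zl, s ≤ 16 * (selIn Z fun u => z ∈ pf u ∧ ((pf u).card : ℝ) ≤ θ).card) :
    ∃ B ⊆ Z, 2 * (B.card : ℝ) ≤ bt0 q t H ∧ 3 * (k : ℝ) / H ≤ (Z ∩ B.biUnion pf).card ∧
      ((B.biUnion pf).card : ℝ) ≤ 32 * k * θ / s := by
  have H0 := h.H0
  have k0 := h.k_pos
  have D0 : (0 : ℝ) < D := by linarith [h.D1]
  have sD := (h.s_ge hF.s16).1
  have s0 : (0 : ℝ) < s := by linarith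
  have zk := hF.hk
  have sk : (s : ℝ) ≤ 16 * k := by
    have h1 : (0 : ℝ) < Zl.card := lt_of_lt_of_le (by positivity) hc
    obtain ⟨z, hz⟩ := card_pos.1 (Nat.cast_pos.1 h1)
    exact_mod_cast (hp z hz).trans
      (Nat.mul_le_mul_left _ ((card_le_card (selIn_subset _ _)).trans zk))
  obtain ⟨B, b1, b2, b3⟩ := dominate2
    (selIn Z fun u => ((pf u).card : ℝ) ≤ θ) Zl (fun z u => z ∈ pf u)
    (d := (s : ℝ) / 16) (by positivity) (fun z hz => by
      have h1 : s ≤ 16 * (selIn (selIn Z fun u => ((pf u).card : ℝ) ≤ θ)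
          fun u => z ∈ pf u).card :=
        (hp z hz).trans (Nat.mul_le_mul_left _ (card_le_card fun y hy => by
          rw [mem_selIn] at hy
          exact mem_selIn.2 ⟨mem_selIn.2 ⟨hy.1, hy.2.2⟩, hy.2.1⟩))
      rw [div_le_iff₀' (by norm_num)]
      exact_mod_cast h1) ⌈16 * (k : ℝ) / s⌉₊ (by
      have h1 : ((selIn Z fun u => ((pf u).card : ℝ) ≤ θ).card : ℝ) ≤ k := by
        exact_mod_cast (card_le_card (selIn_subset _ _)).trans zk
      have h2 := Nat.le_ceil (16 * (k : ℝ) / s)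
      rw [div_le_iff₀ s0] at h2
      linarith)
  have c1 : (B.card : ℝ) * s ≤ 32 * k := by
    have h1 : (B.card : ℝ) ≤ ⌈16 * (k : ℝ) / s⌉₊ := by exact_mod_cast b2
    have h2 := Nat.ceil_lt_add_one (show 0 ≤ 16 * (k : ℝ) / s by positivity)
    have h3 : (B.card : ℝ) - 1 ≤ 16 * (k : ℝ) / s := by linarith
    rw [le_div_iff₀ s0] at h3
    linarith
  refine ⟨B, b1.trans (selIn_subset _ _), ?_, ?_, ?_⟩
  · have h1 := h.fine_le
    have h2 := mul_le_mul_of_nonneg_left sD (Nat.cast_nonneg (α := ℝ) B.card)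
    refine le_of_mul_le_mul_left ?_ D0
    linarith
  · have h1 : Zl.card ≤ 2 * (Z ∩ B.biUnion pf).card :=
      b3.trans (Nat.mul_le_mul_left _ (card_le_card fun z hz =>
        mem_inter.2 ⟨hl (mem_selIn.1 hz).1, mem_biUnion.2 (mem_selIn.1 hz).2⟩))
    have h2 : (Zl.card : ℝ) ≤ 2 * (Z ∩ B.biUnion pf).card := by exact_mod_cast h1
    have h4 : 0 ≤ (k : ℝ) / H := by positivity
    rw [mul_div_assoc] at hc ⊢
    linarith
  · have h1 : ((B.biUnion pf).card : ℝ) ≤ ∑ a ∈ B, ((pf a).card : ℝ) := by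
      exact_mod_cast card_biUnion_le
    have h2 := sum_le_card_nsmul B (fun a => ((pf a).card : ℝ)) θ
      fun a ha => (mem_selIn.1 (b1 ha)).2
    rw [nsmul_eq_mul] at h2
    have h3 := mul_le_mul_of_nonneg_right (h1.trans h2) s0.le
    have h4 := mul_le_mul_of_nonneg_right c1 hθ
    rw [le_div_iff₀ s0]
    linarith

end Pool.Agent.Work.MP_e10cd8_co.Gap
end

-- merged part: Pool.Agent.Work.MP_e10cd8_co.All.CapA
section

end

-- merged part: Pool.Agent.Work.MP_e10cd8_co.Gap.BCapA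
section
/-! Case A: the general containers (paper 6). -/

namespace Pool.Agent.Work.MP_e10cd8_co.Gap

open Finset Four All

theorem BA_num {q t H D k : ℕ} (h : NG q t H D k) {M : ℝ} (hM : 0 ≤ M) :
    M + 2 * (H * t * q * Real.log q * (t + (4 + 3 * M))) ≤ k * (M / 2 + t + 1) / (4 * H) := by
  have hH := h.H_ge'
  have H0 := h.H0
  have w0 := h.w1
  have t2 := h.t2
  have a1 := h.div (c := 56 * H) (by
    have b1 : (56 : ℝ) ≤ (H : ℝ) ^ 4 := le_trans (by linarith) (le_self_pow₀ h.H1 (by norm_num))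
    calc 56 * (H : ℝ) ≤ (H : ℝ) ^ 4 * H := mul_le_mul_of_nonneg_right b1 H0.le
      _ = _ := by ring)
  have e1 : (k : ℝ) * (M / 2 + t + 1) / (4 * H) = k / H * (M / 2 + t + 1) / 4 := by field_simp
  have e2 : (H : ℝ) * t * q * Real.log q = H * (t * q * Real.log q) := by ring
  rw [e1, e2]
  generalize (t : ℝ) * q * Real.log q = w at w0 a1
  have w1 : 1 ≤ H * w := one_le_mul_of_one_le_of_one_le h.H1 (by linarith)
  have a2 := mul_le_mul_of_nonneg_right a1 (show 0 ≤ M / 2 + t + 1 by linarith)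
  rw [mul_assoc 56] at a2
  generalize H * w = v at w1 a2
  have a3 : M ≤ v * M := le_mul_of_one_le_left hM w1
  have a4 : 0 ≤ v * t := by positivity
  nlinarith

variable {q t : ℕ} {Pt : Type} [Fintype Pt] [DecidableEq Pt] (G : GP q t Pt)

/-- union over `i ≤ j` of the squares of the families of `KLp` at `Om = 9 exp i ^ 2`;
`lam ≤ 4 + 3 max j ℓ`; `ext_of_BB`, `pool_of_cont` -/
theorem kl_pairs {H D k : ℕ} (h : NG q t H D k) {x A Γ : ℝ} (hx : x ≤ 1 / 8)
    (hA : A ≤ H) (hΓ0 : 1 ≤ Γ) (hΓ : Γ ≤ H) (hK : KLb G x A Γ) :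
    ∃ F : ℕ → Finset (Finset Pt × Finset Pt), Monotone F ∧
      (∀ j : ℕ, ((F j).card : ℝ) ≤
        Real.exp (k * (max (j : ℝ) (Real.log (Real.log q)) / 2 + t + 1) / (4 * H))) ∧
      ∀ (j : ℕ) (P Q : Finset Pt), (q : ℝ) ^ t / Real.exp j ≤ (G.BB x P Q).card →
        ∃ XY ∈ F j, G.BB x P Q ⊆ G.pool XY.1 XY.2 ∧
          ((G.pool XY.1 XY.2).card : ℝ) ≤
            (H : ℝ) ^ 4 * Real.exp t * Real.exp (4 * j) * (q : ℝ) ^ t := by
  classical
  have hl := h.ell_ge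
  have hH := h.H_ge'
  have hq := h.q_ge
  have L0 : 0 ≤ Real.log q := Real.log_nonneg (by linarith)
  have E1 : ∀ i : ℕ, 1 ≤ Real.exp i := fun i => Real.one_le_exp (Nat.cast_nonneg _)
  have O1 : ∀ i : ℕ, 1 ≤ 9 * Real.exp i ^ 2 := fun i => by
    have : 1 ≤ Real.exp i ^ 2 := one_le_pow₀ (E1 i)
    linarith
  choose Φ c1 c2 using fun i : ℕ => hK (9 * Real.exp i ^ 2) (O1 i)
  refine ⟨fun j => (range (j + 1)).biUnion fun i => Φ i ×ˢ Φ i, fun a b hab => ?_, fun j => ?_,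
    fun j P Q hB => ?_⟩
  · exact biUnion_subset_biUnion_of_subset_left _ (range_mono (by omega))
  · have m1 := le_max_left (j : ℝ) (Real.log (Real.log q))
    have j0 : (0 : ℝ) ≤ j := Nat.cast_nonneg _
    have a0 := BA_num h (j0.trans m1)
    have a1 : ∀ i ∈ range (j + 1), (((Φ i ×ˢ Φ i).card : ℕ) : ℝ) ≤
        Real.exp (2 * (H * t * q * Real.log q *
          (t + (4 + 3 * max (j : ℝ) (Real.log (Real.log q)))))) := by
      intro i hi
      obtain ⟨b1, b2⟩ := CapA_lam (Nat.lt_succ_iff.1 (mem_range.1 hi)) hl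
      have b3 : ((Φ i).card : ℝ) ≤
          Real.exp (H * t * q * Real.log q *
          (t + (4 + 3 * max (j : ℝ) (Real.log (Real.log q))))) := by
        refine (c1 i).trans (Real.exp_le_exp.2 ?_)
        refine mul_le_mul ?_ (by linarith) (by linarith [h.t2]) (by positivity)
        gcongr
      rw [card_product, two_mul, Real.exp_add]
      push_cast
      exact mul_le_mul b3 b3 (Nat.cast_nonneg _) (Real.exp_pos _).le
    have a2 : ((((range (j + 1)).biUnion fun i => Φ i ×ˢ Φ i).card : ℕ) : ℝ) ≤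
        ∑ i ∈ range (j + 1), (((Φ i ×ˢ Φ i).card : ℕ) : ℝ) := by
      exact_mod_cast card_biUnion_le
    have a3 := sum_le_card_nsmul _ _ _ a1
    rw [card_range, nsmul_eq_mul] at a3
    have a4 : ((j + 1 : ℕ) : ℝ) ≤ Real.exp (max (j : ℝ) (Real.log (Real.log q))) := by
      have := Real.add_one_le_exp (max (j : ℝ) (Real.log (Real.log q)))
      push_cast
      linarith
    refine (a2.trans a3).trans ((mul_le_mul_of_nonneg_right a4 (Real.exp_pos _).le).trans ?_)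
    rw [← Real.exp_add]
    exact Real.exp_le_exp.2 a0
  · have hx4 : x ≤ 1 / 4 := by linarith
    obtain ⟨e1, e2, -⟩ := G.ext_of_BB hx4 (E1 j) P Q hB
    obtain ⟨Y, y1, y2, y3⟩ := c2 j P trivial e1
    obtain ⟨X, x1, x2, x3⟩ := c2 j Q trivial e2
    obtain ⟨p1, p2⟩ := G.pool_of_cont hx4 (E1 j) hΓ0 P Q hB x2 x3 y2 y3
    refine ⟨(X, Y), mem_biUnion.2 ⟨j, self_mem_range_succ j, mem_product.2 ⟨x1, y1⟩⟩, p1,
      p2.trans (mul_le_mul_of_nonneg_right ?_ (by positivity))⟩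
    have j0 : (0 : ℝ) ≤ j := Nat.cast_nonneg _
    have b1 : Real.exp j ^ 2 ≤ Real.exp (4 * j) := by
      rw [sq, ← Real.exp_add]
      exact Real.exp_le_exp.2 (by linarith)
    have b2 : Γ ^ 2 ≤ (H : ℝ) ^ 2 := pow_le_pow_left₀ (by linarith) hΓ 2
    have b3 : 12 * Γ ^ 2 ≤ (H : ℝ) ^ 4 * Real.exp t := by
      have b4 : 12 * (H : ℝ) ^ 2 ≤ (H : ℝ) ^ 2 * (H : ℝ) ^ 2 :=
        mul_le_mul_of_nonneg_right (by nlinarith) (by positivity)
      have b5 : (H : ℝ) ^ 4 = (H : ℝ) ^ 2 * (H : ℝ) ^ 2 := by ring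
      have b6 : (H : ℝ) ^ 4 ≤ (H : ℝ) ^ 4 * Real.exp t :=
        le_mul_of_one_le_right (by positivity) (Real.one_le_exp (Nat.cast_nonneg _))
      linarith
    exact mul_le_mul b3 b1 (by positivity) (by positivity)

/-- the top level qualifies -/
theorem BA_top {H D k : ℕ} (h : NG q t H D k) {PP QQ : Finset (Pt × Pt) → Finset Pt} {x : ℝ}
    {Z Z' T : Finset (Pt × Pt)} (h' : Z' ⊆ Z) (hc : 100 * (k : ℝ) / H ≤ Z'.card)
    (hv : Valid G PP QQ x H k Z Z' T) :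
    3 * (k : ℝ) / H ≤ (Z ∩ G.BB x (PP T) (QQ T)).card ∧
      (q : ℝ) ^ t / Real.exp (aJ q t) ≤ (G.BB x (PP T) (QQ T)).card := by
  have a1 := valid_BB G h' hv
  have a2 := h.one
  have a3 : ((Z ∩ G.BB x (PP T) (QQ T)).card : ℝ) ≤ (G.BB x (PP T) (QQ T)).card := by
    exact_mod_cast card_le_card inter_subset_right
  rw [mul_div_assoc] at a1 hc ⊢
  refine ⟨by linarith, ((div_le_one (Real.exp_pos _)).2 (h.pow_le_exp_aJ)).trans (by linarith)⟩

/-- the tiny pools of the cheap parents -/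
theorem BA_par {H D k : ℕ} (h : NG q t H D k) {Z T2 Zs : Finset (Pt × Pt)} {s : ℕ}
    (hF : Fine G H D k Z T2 Zs s) {Zl : Finset (Pt × Pt)}
    (hl : Kids (fun u z => z ∈ cpool G T2 u) 1000 H k Z Zl s) :
    ∃ B ⊆ Z, 2 * (B.card : ℝ) ≤ bt0 q t H ∧
      3 * (k : ℝ) / H ≤ (Z ∩ B.biUnion (cpool G T2)).card ∧
      ((B.biUnion (cpool G T2)).card : ℝ) ≤
        Real.exp (-(Real.log (Real.log q) / 2)) * (q : ℝ) ^ t := by
  have q2 : (0 : ℝ) < (q : ℝ) ^ 2 := pow_pos h.q0 2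
  obtain ⟨B, b1, b2, b3, b4⟩ := hit_par G h hF (cpool G T2) (θ := 12 * (q : ℝ) ^ t / (q : ℝ) ^ 2)
    (by positivity) hl.sub hl.big (fun z hz =>
      (hl.many z hz).trans (Nat.mul_le_mul_left 16 (card_le_card fun u hu => mem_selIn.2
        ⟨(mem_selIn.1 hu).1, (mem_selIn.1 hu).2, (le_div_iff₀ q2).2 (card_cpool G T2 u)⟩)))
  refine ⟨B, b1, b2, b3, b4.trans ?_⟩
  have s1 := (h.s_ge hF.s16).2
  have a1 : (k : ℝ) * ((q : ℝ) ^ t / (q : ℝ) ^ 2) ≤
      Real.exp (-(Real.log (Real.log q) / 2)) * (q : ℝ) ^ t := by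
    rw [← mul_div_assoc, div_le_iff₀ q2, mul_right_comm (Real.exp _)]
    exact mul_le_mul_of_nonneg_right h.tiny_le (by positivity)
  refine le_trans ?_ a1
  rw [div_le_iff₀ (by linarith), mul_div_assoc]
  have a2 : 0 ≤ (k : ℝ) * ((q : ℝ) ^ t / (q : ℝ) ^ 2) := by positivity
  nlinarith

/-- `lev T` = least `j` with `q^t / exp j ≤ |BB|` (`0` if there is none; for valid `T` the level
`aJ` qualifies by `valid_BB`), so `|BB| ≤ 5 exp (-j) q^t` (`card_BB_le`). `two_rounds`; menu item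
`0` if `ℓ ≤ j`; else item `s + 3` or item `2`. -/
theorem cap_A {H D k : ℕ} (h : NG q t H D k) {x A Γ : ℝ} (hx : x ≤ 1 / 8)
    (hA : A ≤ H) (hΓ0 : 1 ≤ Γ) (hΓ : Γ ≤ H) (hK : KLb G x A Γ) :
    ∃ F : ℕ → Finset (Finset Pt × Finset Pt),
      (∀ j : ℕ, ((F j).card : ℝ) ≤
        Real.exp (k * (max (j : ℝ) (Real.log (Real.log q)) / 2 + t + 1) / (4 * H))) ∧
      ∀ (PP QQ : Finset (Pt × Pt) → Finset Pt) (Z T2 Zs : Finset (Pt × Pt)) (s : ℕ),
        Smp G PP QQ x H k Z → Fine G H D k Z T2 Zs s →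
        (s = 16 * t * D ∨ ∃ Zl, Kids (fun u z => z ∈ cpool G T2 u) 1000 H k Z Zl s) →
        ∃ j ≤ aJ q t, hits (Cov G PP QQ x H k j (F j)
          ((H : ℝ) ^ 4 * Real.exp (-(max (j : ℝ) (Real.log (Real.log q)) / 2)))) (aw H k) Z := by
  classical
  obtain ⟨F, hFm, hFc, hF⟩ := kl_pairs G h hx hA hΓ0 hΓ hK
  refine ⟨F, hFc, ?_⟩
  intro PP QQ Z T2 Zs s hS hFi hs
  have hx4 : x ≤ 1 / 4 := by linarith
  have hH := h.H_ge'
  have hl := h.ell_ge
  have k1 := h.one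
  have hZ : 100 * (k : ℝ) / H ≤ Z.card := by
    have := hFi.big
    rw [mul_div_assoc] at this ⊢
    linarith
  let lev : Finset (Pt × Pt) → ℕ := fun T =>
    if hT : ∃ j : ℕ, (q : ℝ) ^ t / Real.exp j ≤ (G.BB x (PP T) (QQ T)).card then Nat.find hT
    else 0
  have hlev : ∀ T, (q : ℝ) ^ t / Real.exp (aJ q t) ≤ (G.BB x (PP T) (QQ T)).card →
      (q : ℝ) ^ t / Real.exp (lev T) ≤ (G.BB x (PP T) (QQ T)).card ∧ lev T ≤ aJ q t ∧
      ∀ i < lev T, ¬ (q : ℝ) ^ t / Real.exp i ≤ (G.BB x (PP T) (QQ T)).card := by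
    intro T hT
    have hex : ∃ j : ℕ, (q : ℝ) ^ t / Real.exp j ≤ (G.BB x (PP T) (QQ T)).card := ⟨_, hT⟩
    have e : lev T = Nat.find hex := dif_pos hex
    rw [e]
    exact ⟨Nat.find_spec hex, Nat.find_min' hex hT, fun i hi => Nat.find_min hex hi⟩
  obtain ⟨Ts, Z', h', hc, hv, hit⟩ := two_rounds G h hx hS hZ lev F hFm
    (fun Z' h' hc T hv => (hlev T (BA_top G h h' hc hv).2).1)
    (fun T hv => by
      obtain ⟨XY, c1, c2, c3⟩ := hF (lev T) _ _ (hlev T (BA_top G h Subset.rfl hZ hv).2).1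
      refine ⟨XY, c1, c3, ?_⟩
      have a1 := valid_BB G Subset.rfl hv
      have a2 := hFi.big
      have a3 : ((Z ∩ G.BB x (PP T) (QQ T)).card : ℝ) ≤ (Z ∩ G.pool XY.1 XY.2).card := by
        exact_mod_cast card_le_card (inter_subset_inter_left c2)
      rw [mul_div_assoc] at a1 a2 ⊢
      linarith)
  obtain ⟨t1, t2⟩ := BA_top G h h' hc hv
  obtain ⟨hQ, hJ, hmin⟩ := hlev Ts t2
  refine ⟨lev Ts, hJ, ?_⟩
  generalize lev Ts = j at hit hQ hmin
  have j0 : (0 : ℝ) ≤ j := Nat.cast_nonneg _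
  have qt : (0 : ℝ) ≤ (q : ℝ) ^ t := by positivity
  have H3 : (5 : ℝ) ≤ (H : ℝ) ^ 4 :=
    le_trans (by linarith) (le_self_pow₀ (by linarith) (by norm_num))
  have a0 : 0 ≤ bt0 q t H := le_trans (by positivity) hFi.t2c
  rcases le_or_gt (Real.log (Real.log q)) j with hj | hj
  · rw [max_eq_left hj]
    refine hit ∅ ∅ 0 _ (empty_subset _) (empty_subset _) (by simpa using a0) (by omega) ?_ t1
    refine (G.CapA_lev hx4 hmin).trans (mul_le_mul_of_nonneg_right ?_ qt)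
    exact mul_le_mul H3 (Real.exp_le_exp.2 (by linarith)) (Real.exp_pos _).le (by positivity)
  rw [max_eq_right hj.le]
  have hE : Real.exp (-(Real.log (Real.log q) / 2)) * (q : ℝ) ^ t ≤
      (H : ℝ) ^ 4 * Real.exp (-(Real.log (Real.log q) / 2)) * (q : ℝ) ^ t :=
    mul_le_mul_of_nonneg_right (le_mul_of_one_le_left (Real.exp_pos _).le (by linarith)) qt
  rcases hs with hs | ⟨Zl, hZl⟩
  · obtain ⟨-, -, -, hO, -⟩ := G.ext_of_BB hx4 (Real.one_le_exp j0) _ _ hQ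
    obtain ⟨x1, x2⟩ := h.ax_small
    rw [← hs] at x1 x2
    obtain ⟨hsk, A', b1, b2, b3, b4⟩ := hit_st2 G h hFi hv.all hO (by linarith) x2
    refine hit A' ∅ (s + 3) _ b1 (empty_subset _) (by simpa using b2) (by omega) ?_ b3
    exact b4.trans ((mul_le_mul_of_nonneg_right x1 qt).trans hE)
  · obtain ⟨B, b1, b2, b3, b4⟩ := BA_par G h hFi hZl
    have := hFi.t2c
    exact hit T2 B 2 _ hFi.t2 b1 (by linarith) (by omega) (b4.trans hE) b3

end Pool.Agent.Work.MP_e10cd8_co.Gap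
end

-- merged part: Pool.Agent.Work.MP_e10cd8_co.All.CapB
section

end

-- merged part: Pool.Agent.Work.MP_e10cd8_co.Gap.BCapB
section
/-! Case B: the cheap containers. Compare `All/CapB`. -/

namespace Pool.Agent.Work.MP_e10cd8_co.Gap

open Finset Four All

variable {q t : ℕ} {Pt : Type} [Fintype Pt] [DecidableEq Pt] (G : GP q t Pt)

/-- the increasing family of container pairs -/
theorem BB_fam {H D k : ℕ} (h : NG q t H D k) {α : Type} [DecidableEq α] (F0 : ℕ → Finset α)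
    (hF0 : ∀ j : ℕ, ((F0 j).card : ℝ) ≤
      Real.exp (3000 * (t + 1) * (t + 1 + j) * q * Real.log q)) (j : ℕ) :
    (((range (j + 1)).biUnion F0).card : ℝ) ≤
      Real.exp (k * ((j : ℝ) / 2 + t + 1) / (4 * H)) := by
  have hH := h.H_ge'
  have H0 := h.H0
  have q0 := h.q0
  have L0 := h.L0
  have t2 := h.t2
  have w0 := h.w1
  have hj : (0 : ℝ) ≤ j := Nat.cast_nonneg _
  have a1 := h.div (c := 10 ^ 7) (hH.trans (le_self_pow₀ h.H1 (by norm_num)))
  have h1 : (((range (j + 1)).biUnion F0).card : ℝ) ≤ ∑ i ∈ range (j + 1), ((F0 i).card : ℝ) := by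
    exact_mod_cast card_biUnion_le
  have h2 : ∀ i ∈ range (j + 1), ((F0 i).card : ℝ) ≤
      Real.exp (6000 * (t * q * Real.log q) * (t + 1 + j)) := by
    intro i hi
    refine (hF0 i).trans (Real.exp_le_exp.2 ?_)
    have b1 : (i : ℝ) ≤ j := by exact_mod_cast Nat.lt_succ_iff.1 (mem_range.1 hi)
    have b2 : (t : ℝ) + 1 ≤ 2 * t := by linarith
    calc _ ≤ 3000 * (2 * t) * (t + 1 + j) * q * Real.log q := by gcongr
      _ = _ := by ring
  have h3 := sum_le_card_nsmul _ _ _ h2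
  rw [card_range, nsmul_eq_mul] at h3
  have h4 : ((j + 1 : ℕ) : ℝ) ≤ Real.exp j := by
    push_cast
    exact Real.add_one_le_exp _
  refine (h1.trans (h3.trans (mul_le_mul_of_nonneg_right h4 (Real.exp_pos _).le))).trans ?_
  rw [← Real.exp_add, Real.exp_le_exp,
    show (k : ℝ) * (j / 2 + t + 1) / (4 * H) = k / H * (j / 2 + t + 1) / 4 by field_simp]
  generalize (t : ℝ) * q * Real.log q = w at w0 a1 ⊢
  have a2 := mul_le_mul_of_nonneg_right a1 (show 0 ≤ (j : ℝ) / 2 + t + 1 by linarith)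
  have a3 := mul_le_mul_of_nonneg_right w0 hj
  have a4 : 0 ≤ w * t := by positivity
  nlinarith

/-- both spans of the flag meet the allowed sets in many points -/
def BB_rich (T2 : Finset (Pt × Pt)) (P Q : Finset Pt) (j : ℕ) (u : Pt × Pt) : Prop :=
  G.CapB_rich T2 P Q (G.rk (G.spn T2 u.1)) (G.rk (G.spn (sw T2) u.2)) j u

/-- the level condition -/
def BB_Q (x : ℝ) (T2 Z Zl : Finset (Pt × Pt)) (P Q : Finset Pt) (j : ℕ) : Prop :=
  (q : ℝ) ^ t / Real.exp j ≤ (G.BB x P Q).card ∧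
    Zl.card ≤ 2 * (selIn Zl fun z => ∃ u ∈ Z, hi G T2 u z ∧ BB_rich G T2 P Q j u).card

omit [Fintype Pt] [DecidableEq Pt] in
theorem BB_pt {H D k : ℕ} (h : NG q t H D k) {u : ℕ} (hu : u ≤ t) {R : Finset Pt}
    (hR : R.Nonempty) : (q : ℝ) ^ u ≤ Real.exp (aJ q t) * q * R.card := by
  have hq : (1 : ℝ) ≤ q := by linarith only [h.q_ge]
  have a1 : (1 : ℝ) ≤ R.card := by exact_mod_cast card_pos.2 hR
  have a2 := (pow_le_pow_right₀ hq hu).trans h.pow_le_exp_aJ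
  rw [mul_assoc]
  exact a2.trans (le_mul_of_one_le_right (Real.exp_pos _).le (one_le_mul_of_one_le_of_one_le hq a1))

theorem BB_top {H D k : ℕ} (h : NG q t H D k) {x : ℝ}
    {PP QQ : Finset (Pt × Pt) → Finset Pt} {Z T2 Zs Zl Z' T : Finset (Pt × Pt)} {s : ℕ}
    (hF : Fine G H D k Z T2 Zs s) (hK : Kids (hi G T2) 10000 H k Z Zl s) (h' : Z' ⊆ Z)
    (hc : 100 * (k : ℝ) / H ≤ Z'.card) (hv : Valid G PP QQ x H k Z Z' T) :
    BB_Q G x T2 Z Zl (PP T) (QQ T) (aJ q t) := by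
  constructor
  · have a1 := valid_BB G h' hv
    have a2 : ((Z ∩ G.BB x (PP T) (QQ T)).card : ℝ) ≤ (G.BB x (PP T) (QQ T)).card := by
      exact_mod_cast card_le_card inter_subset_right
    have a3 := h.one
    have a4 : (q : ℝ) ^ t / Real.exp (aJ q t) ≤ 1 :=
      (div_le_one (Real.exp_pos _)).2 h.pow_le_exp_aJ
    rw [mul_div_assoc] at a1 hc
    linarith only [a1, a2, a3, a4, hc]
  · have s1 : 1000 ≤ s := by exact_mod_cast (h.s_ge hF.s16).2
    have : Zl ⊆ selIn Zl fun z => ∃ u ∈ Z, hi G T2 u z ∧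
        BB_rich G T2 (PP T) (QQ T) (aJ q t) u := by
      intro z hz
      have a1 := hK.many z hz
      obtain ⟨u, hu⟩ := card_pos.1 (show 0 < (selIn Z fun u => hi G T2 u z).card by omega)
      obtain ⟨u1, u2⟩ := mem_selIn.1 hu
      have hp := G.mem_pool.1 (hv.all u1)
      obtain ⟨r1, r2⟩ := G.Span_rk hF.ind hF.t2 u1
      exact mem_selIn.2 ⟨hz, u, u1, u2, BB_pt h r1 ⟨u.1, mem_inter.2 ⟨G.mem_spn _ _, hp.2.1⟩⟩,
        BB_pt h r2 ⟨u.2, mem_inter.2 ⟨G.mem_spn _ _, hp.2.2⟩⟩⟩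
    have := card_le_card this
    omega

theorem BB_t {H D k : ℕ} (h : NG q t H D k) :
    600 * ((t : ℝ) + 1) ^ 4 ≤ (H : ℝ) ^ 4 * Real.exp t := by
  have a1 := Real.pow_div_factorial_le_exp ((t : ℝ) + 1) (by positivity) 4
  have a2 : Real.exp 1 ≤ 3 := Real.exp_one_lt_d9.le.trans (by norm_num)
  have a3 : ((Nat.factorial 4 : ℕ) : ℝ) = 24 := by norm_num [Nat.factorial]
  have a4 : (10 : ℝ) ^ 7 ≤ (H : ℝ) ^ 4 := h.H_ge'.trans (le_self_pow₀ h.H1 (by norm_num))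
  have e0 := Real.exp_pos (t : ℝ)
  rw [a3, Real.exp_add] at a1
  linarith [mul_le_mul_of_nonneg_left a2 e0.le, mul_le_mul_of_nonneg_right a4 e0.le]

/-- the container pair holds many flags -/
theorem BB_pair {H D k j : ℕ} (h : NG q t H D k) {x : ℝ} (hx : x ≤ 1 / 8)
    {PP QQ : Finset (Pt × Pt) → Finset Pt} {Z T2 Zs Zl T : Finset (Pt × Pt)} {s : ℕ}
    (hF : Fine G H D k Z T2 Zs s) (hK : Kids (hi G T2) 10000 H k Z Zl s)
    (hv : Valid G PP QQ x H k Z Z T) (hQ : BB_Q G x T2 Z Zl (PP T) (QQ T) j)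
    {F : Finset (Finset Pt × Finset Pt)}
    (hR : ∀ K : Finset (Finset Pt × Finset Pt),
      (∀ y ∈ K, G.cl y.1 = y.1 ∧ G.cl y.2 = y.2 ∧ G.rk y.1 ≤ t ∧ G.rk y.2 ≤ t ∧
        t + 1 ≤ G.rk y.1 + G.rk y.2 ∧ (q : ℝ) ^ G.rk y.1 ≤ Real.exp j * q * (y.1 ∩ PP T).card ∧
        (q : ℝ) ^ G.rk y.2 ≤ Real.exp j * q * (y.2 ∩ QQ T).card) →
      ∀ W : Finset (Pt × Pt), W.Nonempty → (∀ z ∈ W, ∃ y ∈ K, z.1 ∈ y.1 ∧ z.2 ∈ y.2) →
      ∃ XY ∈ F, ((G.pool XY.1 XY.2).card : ℝ) ≤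
          600 * (t + 1) ^ 4 * Real.exp (4 * j) * (q : ℝ) ^ t ∧
        ∃ P' ⊆ PP T, ∃ Q' ⊆ QQ T, ∃ W' ⊆ W, W.card ≤ 2 * W'.card ∧
          ∀ z ∈ W', z.2 ∈ G.low (1 / 8) P' → z.1 ∈ G.low (1 / 8) Q' →
            z.1 ∈ XY.1 ∧ z.2 ∈ XY.2) :
    ∃ XY ∈ F, ((G.pool XY.1 XY.2).card : ℝ) ≤
        (H : ℝ) ^ 4 * Real.exp t * Real.exp (4 * j) * (q : ℝ) ^ t ∧
      100 * (k : ℝ) / H ≤ (Z ∩ G.pool XY.1 XY.2).card := by
  classical
  have k1 := h.one
  have hb := hK.big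
  have hW := hQ.2
  rw [mul_div_assoc] at hb
  obtain ⟨W, hWd⟩ : ∃ W, W = selIn Zl fun z => ∃ u ∈ Z, hi G T2 u z ∧
    BB_rich G T2 (PP T) (QQ T) j u := ⟨_, rfl⟩
  rw [← hWd] at hW
  have hW' : (Zl.card : ℝ) ≤ 2 * W.card := by exact_mod_cast hW
  obtain ⟨XY, hXY, c0, P', hP', Q', hQ', W', w1, w2, c⟩ := hR
    ((selIn Z fun u => t + 1 ≤ G.rk (G.spn T2 u.1) + G.rk (G.spn (sw T2) u.2) ∧
      BB_rich G T2 (PP T) (QQ T) j u).image fun u => (G.spn T2 u.1, G.spn (sw T2) u.2))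
    (fun y hy => by
      obtain ⟨u, hu, rfl⟩ := mem_image.1 hy
      obtain ⟨u1, u2, u3⟩ := mem_selIn.1 hu
      obtain ⟨r1, r2⟩ := G.Span_rk hF.ind hF.t2 u1
      exact ⟨G.cl_spn _ _, G.cl_spn _ _, r1, r2, u2, u3⟩) W
    (card_pos.1 (by exact_mod_cast (by linarith only [hb, hW', k1] : (0 : ℝ) < W.card)))
    (fun z hz => by
      rw [hWd, mem_selIn] at hz
      obtain ⟨-, u, u1, u2, u3⟩ := hz
      exact ⟨_, mem_image_of_mem _ (mem_selIn.2 ⟨u1, u2.2.2.2, u3⟩), u2.1⟩)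
  refine ⟨XY, hXY, c0.trans (mul_le_mul_of_nonneg_right (mul_le_mul_of_nonneg_right (BB_t h)
    (Real.exp_pos _).le) (pow_nonneg (Nat.cast_nonneg _) _)), ?_⟩
  have b1 := hv.lp P' hP'
  have b2 := hv.lq Q' hQ'
  have b3 : W' ⊆ (Z ∩ G.pool XY.1 XY.2) ∪ (selIn Z fun z => z.2 ∉ G.low x P') ∪
      selIn Z fun z => z.1 ∉ G.low x Q' := by
    intro z hz
    have hZ := hK.sub (selIn_subset _ _ (hWd ▸ w1 hz))
    rw [mem_union, mem_union, mem_selIn, mem_selIn, mem_inter, G.mem_pool]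
    by_cases e1 : z.2 ∈ G.low x P'
    · by_cases e2 : z.1 ∈ G.low x Q'
      · exact Or.inl (Or.inl ⟨hZ, (G.mem_pool.1 (hv.all hZ)).1,
          c z hz (G.low_mono hx _ e1) (G.low_mono hx _ e2)⟩)
      · exact Or.inr ⟨hZ, e2⟩
    · exact Or.inl (Or.inr ⟨hZ, e1⟩)
  have b4 := (card_le_card b3).trans ((card_union_le _ _).trans
    (Nat.add_le_add_right (card_union_le _ _) _))
  have b5 : (W'.card : ℝ) ≤ (Z ∩ G.pool XY.1 XY.2).card +
      (selIn Z fun z => z.2 ∉ G.low x P').card +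
        (selIn Z fun z => z.1 ∉ G.low x Q').card := by exact_mod_cast b4
  have b6 : (W.card : ℝ) ≤ 2 * W'.card := by exact_mod_cast w2
  rw [mul_div_assoc] at b1 b2 ⊢
  linarith only [b1, b2, b5, b6, hb, hW', k1]

/-- a parent that is not rich has a small pool -/
theorem BB_poor {H D k i : ℕ} (h : NG q t H D k) {Z T2 Zs : Finset (Pt × Pt)} {s : ℕ}
    (hF : Fine G H D k Z T2 Zs s) (P Q : Finset Pt) {z : Pt × Pt} (hz : z ∈ Z)
    (hn : ¬ BB_rich G T2 P Q i z) :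
    ((G.ppool T2 P Q z).card : ℝ) ≤ 2 * (q : ℝ) ^ t / (Real.exp i * q) := by
  have q0 := h.q0
  obtain ⟨r1, r2⟩ := G.Span_rk hF.ind hF.t2 hz
  rw [BB_rich, GP.CapB_rich, not_and_or, not_le, not_le] at hn
  rcases hn with hn | hn
  · exact GP.CapB_div (pow_pos q0 _) (mul_pos (Real.exp_pos _) q0) (pow_pos q0 _).le
      (G.card_ppool_left T2 P Q z rfl r1) hn
  · exact GP.CapB_div (pow_pos q0 _) (mul_pos (Real.exp_pos _) q0) (pow_pos q0 _).le
      (G.card_ppool_right T2 P Q z rfl r2) hn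

theorem BB_mem {Z T2 : Finset (Pt × Pt)} (hZ : G.indep Z) (hT : T2 ⊆ Z) {P Q : Finset Pt}
    {u z : Pt × Pt} (hz : z ∈ Z) (hp : z ∈ G.pool P Q) (h : hi G T2 u z) :
    z ∈ G.ppool T2 P Q u := by
  obtain ⟨-, p1, p2⟩ := G.mem_pool.1 hp
  exact (G.Red_mem T2 P Q _ _).2 ⟨mem_inter.2 ⟨h.1.1, p1⟩, mem_inter.2 ⟨h.1.2, p2⟩, h.2.1,
    G.spn_subset_pl hZ hT hz, h.2.2.1,
    G.spn_subset_pl (z := z.swap) (G.indep_sw hZ) (sw_mono hT) (mem_sw.2 hz)⟩

/-- the size of the union of the pools of the parents -/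
theorem BB_par {H D k i s : ℕ} (h : NG q t H D k) (hs : (1 : ℝ) ≤ s)
    (hg : (k : ℝ) ≤ 16 * H * Real.exp (((i + 1 : ℕ) : ℝ) / 2) * q * s) :
    32 * k * (2 * (q : ℝ) ^ t / (Real.exp i * q)) / s ≤
      (H : ℝ) ^ 4 * Real.exp (-(((i + 1 : ℕ) : ℝ) / 2)) * (q : ℝ) ^ t := by
  have q0 : (0 : ℝ) < q := by linarith only [h.q_ge]
  have hH := h.H_ge'
  have s0 : (0 : ℝ) < s := by linarith only [hs]
  have hE := Real.exp_pos i
  have hM := Real.exp_pos (-(((i + 1 : ℕ) : ℝ) / 2))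
  have a1 := (GP.CapB_exp i).1
  generalize Real.exp (-(((i + 1 : ℕ) : ℝ) / 2)) = M at *
  generalize Real.exp (((i + 1 : ℕ) : ℝ) / 2) = N at *
  generalize Real.exp i = E at *
  have H0 : (0 : ℝ) ≤ H := Nat.cast_nonneg _
  have a2 : (k : ℝ) ≤ 48 * H * (M * E * q * s) := by
    have := mul_le_mul_of_nonneg_right a1 (mul_nonneg H0 (mul_pos q0 s0).le)
    linarith only [this, hg]
  have a3 : 3072 * (H : ℝ) ≤ (H : ℝ) ^ 4 := by
    have b1 : (H : ℝ) ≤ (H : ℝ) ^ 3 := le_self_pow₀ (by linarith only [hH]) (by norm_num)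
    have b2 := mul_le_mul_of_nonneg_right (by linarith only [b1, hH] : 3072 ≤ (H : ℝ) ^ 3) H0
    linarith only [b2]
  have a4 := mul_le_mul_of_nonneg_right a3 (mul_pos (mul_pos (mul_pos hM hE) q0) s0).le
  have a5 : 64 * (k : ℝ) ≤ (H : ℝ) ^ 4 * (M * E * q * s) := by linarith only [a2, a4]
  have a6 := mul_le_mul_of_nonneg_right a5 (pow_pos q0 t).le
  rw [← mul_div_assoc, div_div, div_le_iff₀ (mul_pos (mul_pos hE q0) s0)]
  linarith only [a6]

/-- the level of the second sample -/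
theorem BB_ax {H D k j s : ℕ} (h : NG q t H D k) (hs : (1 : ℝ) ≤ s)
    (hg : 16 * H * Real.exp ((j : ℝ) / 2) * q * s < k) :
    (j : ℝ) ≤ 6 * Real.log (Real.log q) ∧ ax q H k s ≤ 1 / 4 ∧
      2 * ax q H k s ≤ (H : ℝ) ^ 4 * Real.exp (-((j : ℝ) / 2)) := by
  have q0 : (0 : ℝ) < q := by linarith only [h.q_ge]
  have hH : (1 : ℝ) ≤ H := by linarith only [h.H_ge']
  have H3 : (1 : ℝ) ≤ (H : ℝ) ^ 4 := one_le_pow₀ hH
  have k0 := h.k_pos
  have hE := Real.exp_pos ((j : ℝ) / 2)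
  have hE1 : 1 ≤ Real.exp ((j : ℝ) / 2) :=
    Real.one_le_exp (div_nonneg (Nat.cast_nonneg _) (by norm_num))
  have hL : (0 : ℝ) < Real.log q := by
    have a1 := h.L_ge
    have a2 : (1 : ℝ) ≤ (H : ℝ) ^ 6 := one_le_pow₀ hH
    linarith only [a1, a2]
  have x0 : 0 ≤ ax q H k s :=
    div_nonneg (mul_nonneg (mul_nonneg (Nat.cast_nonneg _) (by linarith only [hs])) q0.le) k0.le
  have hx : ax q H k s * Real.exp ((j : ℝ) / 2) ≤ 1 / 8 := by
    rw [ax, div_mul_eq_mul_div, div_le_iff₀ k0]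
    have := mul_le_mul_of_nonneg_left hs
      (mul_nonneg (mul_nonneg (by linarith only [hH] : (0 : ℝ) ≤ H) hE.le) q0.le)
    linarith only [this, hg]
  refine ⟨?_, ?_, ?_⟩
  · have a1 : Real.exp ((j : ℝ) / 2) * q ≤ Real.log q ^ 3 * q := by
      have b1 := mul_le_mul_of_nonneg_left (one_le_mul_of_one_le_of_one_le hH hs)
        (mul_pos hE q0).le
      have b2 := mul_pos hE q0
      linarith only [b1, b2, hg, h.k_le]
    have a2 := (Real.le_log_iff_exp_le (pow_pos hL 3)).2 (le_of_mul_le_mul_right a1 q0)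
    rw [Real.log_pow] at a2
    push_cast at a2
    linarith only [a2]
  · have := mul_le_mul_of_nonneg_left hE1 x0
    linarith only [this, hx]
  · rw [Real.exp_neg, ← div_eq_mul_inv, le_div_iff₀ hE]
    linarith only [hx, H3]

/-- levels, two rounds and the outcome as in `All.GP.cap_B` -/
theorem cap_B {H D k : ℕ} (h : NG q t H D k) {x : ℝ} (hx : x ≤ 1 / 8) :
    ∃ F : ℕ → Finset (Finset Pt × Finset Pt),
      (∀ j : ℕ, ((F j).card : ℝ) ≤ Real.exp (k * ((j : ℝ) / 2 + t + 1) / (4 * H))) ∧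
      ∀ (PP QQ : Finset (Pt × Pt) → Finset Pt) (Z T2 Zs Zl : Finset (Pt × Pt)) (s : ℕ),
        Smp G PP QQ x H k Z → Fine G H D k Z T2 Zs s →
        Kids (hi G T2) 10000 H k Z Zl s →
        ∃ j ≤ aJ q t, hits (Cov G PP QQ x H k j (F j)
          ((H : ℝ) ^ 4 * Real.exp (-((j : ℝ) / 2)))) (aw H k) Z := by
  classical
  choose F0 hF0 hF1 using rich3 G h.hq (by have := h.t_sq; omega)
  refine ⟨fun j => (range (j + 1)).biUnion F0, BB_fam h F0 hF0, ?_⟩
  intro PP QQ Z T2 Zs Zl s hS hF hK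
  have k1 := h.one
  have hH : (10 : ℝ) ^ 7 ≤ (H : ℝ) ^ 4 :=
    h.H_ge'.trans (le_self_pow₀ (by linarith only [h.H_ge']) (by norm_num))
  have hZ : 100 * (k : ℝ) / H ≤ Z.card := by
    have := hF.big
    rw [mul_div_assoc] at this ⊢
    linarith only [this, k1]
  obtain ⟨lev, hlev⟩ : ∃ lev : Finset (Pt × Pt) → ℕ, ∀ T,
      BB_Q G x T2 Z Zl (PP T) (QQ T) (aJ q t) →
        BB_Q G x T2 Z Zl (PP T) (QQ T) (lev T) ∧ lev T ≤ aJ q t ∧
          ∀ i < lev T, ¬ BB_Q G x T2 Z Zl (PP T) (QQ T) i := by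
    refine ⟨fun T => if hT : ∃ j, BB_Q G x T2 Z Zl (PP T) (QQ T) j then Nat.find hT else 0,
      fun T hT => ?_⟩
    have hT' : ∃ j, BB_Q G x T2 Z Zl (PP T) (QQ T) j := ⟨_, hT⟩
    simp only [dif_pos hT']
    exact ⟨Nat.find_spec hT', Nat.find_min' hT' hT, fun i hi => Nat.find_min hT' hi⟩
  obtain ⟨Ts, Z', h', hc, hv, hit⟩ := two_rounds G h hx hS hZ lev
    (fun j => (range (j + 1)).biUnion F0)
    (fun i j hij => biUnion_subset_biUnion_of_subset_left _ (range_subset_range.2 (by omega)))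
    (fun Z' h' hc T hv => (hlev T (BB_top G h hF hK h' hc hv)).1.1)
    (fun T hv => by
      obtain ⟨XY, a, b⟩ := BB_pair G h hx hF hK hv
        (hlev T (BB_top G h hF hK Subset.rfl hZ hv)).1
        (hF1 (lev T) (PP T) (QQ T))
      exact ⟨XY, mem_biUnion.2 ⟨lev T, mem_range.2 (Nat.lt_succ_self _), a⟩, b⟩)
  obtain ⟨hQ, hJ, hmin⟩ := hlev Ts (BB_top G h hF hK h' hc hv)
  refine ⟨lev Ts, hJ, ?_⟩
  generalize lev Ts = j at hit hQ hmin
  have qt : (0 : ℝ) ≤ (q : ℝ) ^ t := pow_nonneg (Nat.cast_nonneg _) _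
  have hx4 : x ≤ 1 / 4 := by linarith only [hx]
  have ha : (0 : ℝ) ≤ bt0 q t H := (Nat.cast_nonneg _).trans hv.card
  have hB : ∀ β : ℝ, ((G.BB x (PP Ts) (QQ Ts)).card : ℝ) ≤ β * (q : ℝ) ^ t →
      hits (Cov G PP QQ x H k j ((range (j + 1)).biUnion F0) β) (aw H k) Z := by
    intro β hβ
    refine hit ∅ ∅ 0 β (empty_subset _) (empty_subset _) (by simpa using ha) (by omega) hβ ?_
    have a1 := valid_BB G h' hv
    rw [mul_div_assoc] at a1 hc ⊢
    exact le_trans (by linarith only [hc, k1]) a1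
  rcases j with _ | i
  · refine hB _ ((G.card_BB_le hx4 _ _).trans (mul_le_mul_of_nonneg_right ?_ qt))
    simp only [Nat.cast_zero, zero_div, neg_zero, Real.exp_zero]
    linarith only [hH]
  have hn := hmin i (Nat.lt_succ_self i)
  rw [BB_Q, not_and_or, not_le, not_le] at hn
  rcases hn with hn | hn
  · refine hB _ (hn.le.trans ?_)
    rw [div_le_iff₀ (Real.exp_pos _)]
    have a1 := mul_le_mul_of_nonneg_right (by linarith only [hH] : 3 ≤ (H : ℝ) ^ 4)
      (mul_pos (Real.exp_pos (-(((i + 1 : ℕ) : ℝ) / 2))) (Real.exp_pos i)).le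
    have a2 : 1 ≤ (H : ℝ) ^ 4 * (Real.exp (-(((i + 1 : ℕ) : ℝ) / 2)) * Real.exp i) := by
      linarith only [a1, (GP.CapB_exp i).2]
    linarith only [mul_le_mul_of_nonneg_right a2 qt]
  have hs : (1 : ℝ) ≤ s := by linarith only [(h.s_ge hF.s16).2]
  rcases le_or_gt (k : ℝ) (16 * H * Real.exp (((i + 1 : ℕ) : ℝ) / 2) * q * s) with hg | hg
  · obtain ⟨B, b1, b2, b3, b4⟩ := hit_par G h hF (G.ppool T2 (PP Ts) (QQ Ts))
      (θ := 2 * (q : ℝ) ^ t / (Real.exp i * q))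
      (div_nonneg (by linarith only [qt]) (mul_nonneg (Real.exp_pos _).le (Nat.cast_nonneg _)))
      (Zl := selIn Zl fun z => ¬ ∃ z' ∈ Z, hi G T2 z' z ∧
        BB_rich G T2 (PP Ts) (QQ Ts) i z') ((selIn_subset _ _).trans hK.sub)
      (by
        have c1 : Zl ⊆ (selIn Zl fun z => ∃ z' ∈ Z, hi G T2 z' z ∧
            BB_rich G T2 (PP Ts) (QQ Ts) i z') ∪ selIn Zl fun z => ¬ ∃ z' ∈ Z,
              hi G T2 z' z ∧ BB_rich G T2 (PP Ts) (QQ Ts) i z' := by
          intro z hz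
          rw [mem_union, mem_selIn, mem_selIn]
          exact (em _).imp (fun e => ⟨hz, e⟩) fun e => ⟨hz, e⟩
        have c2 := (card_le_card c1).trans (card_union_le _ _)
        have c3 : Zl.card ≤ 2 * (selIn Zl fun z => ¬ ∃ z' ∈ Z,
            hi G T2 z' z ∧ BB_rich G T2 (PP Ts) (QQ Ts) i z').card := by omega
        have c4 : (Zl.card : ℝ) ≤ 2 * (selIn Zl fun z => ¬ ∃ z' ∈ Z,
            hi G T2 z' z ∧ BB_rich G T2 (PP Ts) (QQ Ts) i z').card := by exact_mod_cast c3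
        have c5 := hK.big
        rw [mul_div_assoc] at c5 ⊢
        linarith only [c4, c5, k1])
      (fun z hz => by
        rw [mem_selIn] at hz
        refine (hK.many z hz.1).trans (Nat.mul_le_mul_left 16 (card_le_card fun z' hz' => ?_))
        rw [mem_selIn] at hz' ⊢
        exact ⟨hz'.1, BB_mem G hF.ind hF.t2 (hK.sub hz.1) (hv.all (hK.sub hz.1)) hz'.2,
          BB_poor G h hF _ _ hz'.1 fun e => hz.2 ⟨z', hz'.1, hz'.2, e⟩⟩)
    exact hit T2 B 1 _ hF.t2 b1 (by linarith only [hF.t2c, b2]) (by omega)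
      (b4.trans (BB_par h hs hg)) b3
  · obtain ⟨c1, c2, c3⟩ := BB_ax h hs hg
    obtain ⟨d1, A, d2, d3, d4, d5⟩ := hit_st2 G h hF hv.all
      (G.ext_of_BB hx4 (Real.one_le_exp (Nat.cast_nonneg _)) _ _ hQ.1).2.2.2.1 c1 c2
    exact hit A ∅ (s + 3) _ d2 (empty_subset _) (by simpa using d3) (by omega)
      (d5.trans (mul_le_mul_of_nonneg_right c3 qt)) d4

end Pool.Agent.Work.MP_e10cd8_co.Gap
end

-- merged part: Pool.Agent.Work.MP_e10cd8_co.All.ACover
section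

end

-- merged part: Pool.Agent.Work.MP_e10cd8_co.Gap.BCover
section
/-! The cover of all independent sets and the host. Compare `All/ACover`. -/

namespace Pool.Agent.Work.MP_e10cd8_co.Gap

open Finset Four All

variable {q t : ℕ} {Pt : Type} [Fintype Pt] [DecidableEq Pt] (G : GP q t Pt)

/-- members `(∅, popQ T0 A)` over all small `T0` and `A` -/
theorem pop_cover {H D k : ℕ} (h : NG q t H D k) :
    ∃ C : Finset (Finset (Pt × Pt) × Finset (Pt × Pt)),
      wtC (bp q t H k) (aw H k) C ≤ Real.exp (-(9 * k / H)) ∧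
      ∀ T0 ⊆ G.flags, T0.card ≤ 8 * (t + 1) * (H ^ 3 * q) → ∀ A : Finset Pt, A.card ≤ H ^ 3 * q →
        (∅, popQ G T0 A) ∈ C := by
  have H1 := h.H_ge'
  have H0 := h.H0
  have q0 := h.q_ge
  have qp := h.q0
  have t2 := h.t2
  have L0 := h.L0
  have q2 : (q : ℝ) ≤ (q : ℝ) ^ (2 * t) := le_self_pow₀ (by linarith) (by have := h.ht; omega)
  have fl1 : (G.flags.card : ℝ) + 1 ≤ (q : ℝ) ^ (2 * t) := by
    have := mul_le_mul_of_nonneg_left q0 (Nat.cast_nonneg (α := ℝ) G.flags.card)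
    linarith [G.card_flags.2]
  have c1 := ACover_cnt G.flags qp (2 * t) (8 * (t + 1) * (H ^ 3 * q)) fl1
  have c2 := ACover_cnt (univ : Finset Pt) qp (t + 1) (H ^ 3 * q)
    (by exact_mod_cast G.card_pt_succ_le)
  refine ⟨((selIn G.flags.powerset fun T => T.card ≤ 8 * (t + 1) * (H ^ 3 * q)) ×ˢ
    selIn (univ : Finset Pt).powerset fun A => A.card ≤ H ^ 3 * q).image
      fun y => (∅, popQ G y.1 y.2), ?_, fun T0 a1 a2 A a3 => mem_image.2 ⟨(T0, A), mem_product.2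
        ⟨mem_selIn.2 ⟨mem_powerset.2 a1, a2⟩,
          mem_selIn.2 ⟨mem_powerset.2 (subset_univ _), a3⟩⟩, rfl⟩⟩
  refine (wtC_image_le (bp_nonneg q t H k) _ _ _).trans ?_
  refine (sum_le_card_nsmul _ _ (Real.exp (-((10 + 0 + t) * k / H))) fun y hy => ?_).trans ?_
  · rw [card_empty, pow_zero, one_mul]
    refine h.pool_factor le_rfl ?_
    rw [neg_zero, Real.exp_zero, mul_one]
    have a2 : (y.2.card : ℝ) ≤ H ^ 3 * q := by
      exact_mod_cast (mem_selIn.1 (mem_product.1 hy).2).2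
    have a3 : (4 : ℝ) ≤ H := by linarith
    refine le_of_mul_le_mul_right ((card_popQ G y.1 y.2).trans ?_) qp
    calc 4 * (y.2.card : ℝ) * (q : ℝ) ^ t ≤ H * (H ^ 3 * q) * (q : ℝ) ^ t := by gcongr
      _ = _ := by ring
  · rw [nsmul_eq_mul, card_product, Nat.cast_mul]
    refine (mul_le_mul_of_nonneg_right (mul_le_mul c1 c2 (Nat.cast_nonneg _) (Real.exp_pos _).le)
      (Real.exp_pos _).le).trans ?_
    rw [← Real.exp_add, ← Real.exp_add, Real.exp_le_exp]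
    have a1 := h.div (c := 17 * (H : ℝ) ^ 3) (by
      calc 17 * (H : ℝ) ^ 3 ≤ H ^ 2 * (H : ℝ) ^ 3 := by gcongr; nlinarith
        _ = _ := by ring)
    have a2 := mul_le_mul_of_nonneg_left a1 (show (0 : ℝ) ≤ t + 1 by linarith)
    have a3 : 0 ≤ (t + 1) * ((H : ℝ) ^ 3 * q * Real.log q) * (t - 1) :=
      mul_nonneg (by positivity) (by linarith)
    push_cast
    rw [mul_div_assoc, mul_div_assoc]
    linarith

theorem cover_all {H D k : ℕ} (h : NG q t H D k) {x A Γ : ℝ} (hx0 : 1 / (H : ℝ) ≤ x)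
    (hx : x ≤ 1 / 8) (hA : A ≤ H) (hΓ0 : 1 ≤ Γ) (hΓ : Γ ≤ H) (hK : KLb G x A Γ) :
    ∃ C : Finset (Finset (Pt × Pt) × Finset (Pt × Pt)),
      wtC (bp q t H k) (aw H k) C * G.flags.card ≤ 1 ∧
      ∀ I, G.indep I → I.card = k → hits C (aw H k) I := by
  obtain ⟨C1, w1, g1⟩ := pop_cover G h
  obtain ⟨FA, fa, ga⟩ := cap_A G h hx hA hΓ0 hΓ hK
  obtain ⟨FB, fb, gb⟩ := cap_B G h hx
  have p0 := bp_nonneg q t H k
  have q0 := h.q_ge
  have qp := h.q0
  have H1 := h.H_ge'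
  have hJ : ((aJ q t + 1 : ℕ) : ℝ) ≤ q := Nat.cast_le.2 h.aJ_le
  have e0 := Real.exp_pos (-(9 * (k : ℝ) / H))
  have key : ∀ C : ℕ → Finset (Finset (Pt × Pt) × Finset (Pt × Pt)),
      (∀ j, wtC (bp q t H k) (aw H k) (C j) ≤ Real.exp (-(9 * k / H))) →
      wtC (bp q t H k) (aw H k) ((range (aJ q t + 1)).biUnion C) ≤
        q * Real.exp (-(9 * k / H)) := fun C hC => by
    refine (wtC_biUnion_le p0 _ _ _).trans ((sum_le_card_nsmul _ _ _ fun j _ => hC j).trans ?_)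
    rw [nsmul_eq_mul, card_range]
    exact mul_le_mul_of_nonneg_right hJ e0.le
  have wa := key (fun j => Cov G (G.Pof (am0 q t)) (G.Pio (am0 q t)) x H k j (FA j)
      ((H : ℝ) ^ 4 * Real.exp (-(max (j : ℝ) (Real.log (Real.log q)) / 2)))) fun j => by
    have j0 : (0 : ℝ) ≤ j := Nat.cast_nonneg _
    have j1 := le_max_left (j : ℝ) (Real.log (Real.log q))
    exact wt_Cov G h _ _ x j _ (by linarith) (by linarith) (fa j) le_rfl
  have wb := key (fun j => Cov G (G.Pof (am0 q t)) (G.Pio (am0 q t)) x H k j (FB j)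
      ((H : ℝ) ^ 4 * Real.exp (-((j : ℝ) / 2)))) fun j => by
    have j0 : (0 : ℝ) ≤ j := Nat.cast_nonneg _
    exact wt_Cov G h _ _ x j _ (by linarith) (by linarith) (fb j) le_rfl
  refine ⟨C1 ∪ (_ ∪ _), (mul_le_mul_of_nonneg_right ((wtC_union_le p0 _ _ _).trans (add_le_add w1
    ((wtC_union_le p0 _ _ _).trans (add_le_add wa wb)))) (Nat.cast_nonneg _)).trans ?_,
    fun I hI hk => ?_⟩
  · have a1 : (q : ℝ) ^ (2 * t + 1) ≤ Real.exp (k / H) := by
      rw [← Real.exp_log (pow_pos qp (2 * t + 1)), Real.log_pow]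
      refine Real.exp_le_exp.2 (le_trans ?_ (h.div (one_le_pow₀ h.H1)))
      rw [one_mul]
      push_cast
      exact mul_le_mul_of_nonneg_right (by nlinarith [h.t2]) h.L0.le
    have a2 : 3 * (G.flags.card * q : ℝ) ≤ Real.exp (9 * k / H) := by
      refine le_trans ?_ (a1.trans (Real.exp_le_exp.2 ?_))
      · rw [pow_succ]
        linarith [G.card_flags.2, mul_le_mul_of_nonneg_left q0 (pow_pos qp (2 * t)).le,
          pow_pos qp (2 * t)]
      · rw [mul_div_assoc]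
        linarith [h.one]
    have a3 := mul_le_mul_of_nonneg_left a2 e0.le
    rw [← Real.exp_add, neg_add_cancel, Real.exp_zero] at a3
    have a4 := mul_le_mul_of_nonneg_left (show (1 : ℝ) ≤ q by linarith)
      (mul_nonneg e0.le (Nat.cast_nonneg (α := ℝ) G.flags.card))
    linarith
  have d1 : 1 ≤ ad q H k := Nat.le_add_left _ _
  obtain ⟨T0, t1, t2, hc⟩ := coarse2 G hI d1 (m := H ^ 3 * q) (hk.trans_le h.ad_nat) (aw H k)
  rw [hk] at t2 hc
  rcases hc with ⟨A', a1, a2⟩ | ⟨Z, z1, z2, z3⟩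
  · refine ⟨_, mem_union_left _ (g1 T0 (t1.trans hI.1) ?_ A' a1), empty_subset _, ?_⟩
    · refine Nat.le_of_mul_le_mul_right (t2.trans ?_) d1
      rw [mul_assoc (8 * (t + 1)), mul_comm (H ^ 3 * q)]
      exact Nat.mul_le_mul_left _ h.ad_nat
    · rwa [sdiff_empty]
  have z4 : Z.card ≤ k := hk ▸ card_le_card z1
  have z5 : k ≤ 5 * Z.card := by
    have b1 : (k : ℝ) ≤ 4 * Z.card + 4 * aw H k := by exact_mod_cast z3
    have b2 := h.aw_le
    have b3 : 10 ^ 7 * ((k : ℝ) / H) ≤ k := by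
      rw [← mul_div_assoc, div_le_iff₀ h.H0]
      nlinarith [h.k_pos]
    rw [mul_div_assoc] at b2
    exact_mod_cast (by linarith [h.one] : (k : ℝ) ≤ 5 * Z.card)
  have hS := smp G h hx0 z4 z2
  obtain ⟨T2, Zs, s, hF, hs⟩ := exists_fine G h (G.indep_mono hI z1) z4 z5
  rcases or_assoc.2 hs with hc | ⟨Zl, hl⟩
  · obtain ⟨j, hj, hh⟩ := ga _ _ Z T2 Zs s hS hF hc
    exact hits_mono ((subset_biUnion_of_mem _ (mem_range.2 (Nat.lt_succ_of_le hj))).trans
      (subset_union_left.trans subset_union_right)) z1 hh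
  · obtain ⟨j, hj, hh⟩ := gb _ _ Z T2 Zs Zl s hS hF hl
    exact hits_mono ((subset_biUnion_of_mem _ (mem_range.2 (Nat.lt_succ_of_le hj))).trans
      (subset_union_right.trans subset_union_right)) z1 hh

theorem host {H D k : ℕ} (h : NG q t H D k) {x A Γ : ℝ} (hx0 : 1 / (H : ℝ) ≤ x)
    (hx : x ≤ 1 / 8) (hA : A ≤ H) (hΓ0 : 1 ≤ Γ) (hΓ : Γ ≤ H) (hK : KLb G x A Γ) :
    ∃ X ⊆ G.flags, (k : ℝ) * (q : ℝ) ^ t / (q * ((H : ℝ) ^ 10 * Real.exp t)) - 1 ≤ X.card ∧
      ∀ I ⊆ X, G.indep I → I.card ≠ k := by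
  obtain ⟨C, h1, h2⟩ := cover_all G h hx0 hx hA hΓ0 hΓ hK
  have p0 := bp_nonneg q t H k
  have H1 := h.H1
  have Hp := h.H0
  have qp := h.q0
  have h3 : (k : ℝ) * (q : ℝ) ^ t / (q * ((H : ℝ) ^ 10 * Real.exp t)) ≤
      bp q t H k * G.flags.card := by
    refine le_of_mul_le_mul_right ?_ qp
    rw [mul_assoc]
    refine le_trans (le_of_eq ?_) (mul_le_mul_of_nonneg_left G.card_flags.1 p0)
    rw [bp, two_mul, pow_add]
    field_simp
  have h4 : 1 < (k : ℝ) * (q : ℝ) ^ t / (q * ((H : ℝ) ^ 10 * Real.exp t)) := by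
    rw [one_lt_div (by positivity)]
    have a1 : (q : ℝ) ≤ k := Nat.cast_le.2 h.q_le_k
    have a4 : (H : ℝ) ^ 5 ≤ (H : ℝ) ^ 6 := pow_le_pow_right₀ H1 (by norm_num)
    have a5 : (H : ℝ) ^ 5 * Real.exp 1 < q := by
      linarith [h.Hq, pow_pos Hp 6, mul_le_mul_of_nonneg_left
        (Real.exp_one_lt_d9.le.trans (by norm_num : _ ≤ (3 : ℝ))) (pow_pos Hp 5).le]
    have a6 := pow_lt_pow_left₀ a5 (by positivity) (show t ≠ 0 by have := h.ht; omega)
    rw [mul_pow, ← Real.exp_nat_mul, mul_one, ← pow_mul] at a6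
    have a7 : (H : ℝ) ^ 10 ≤ (H : ℝ) ^ (5 * t) := pow_le_pow_right₀ H1 (by have := h.ht; omega)
    calc (q : ℝ) * ((H : ℝ) ^ 10 * Real.exp t) < q * (q : ℝ) ^ t := mul_lt_mul_of_pos_left
          ((mul_le_mul_of_nonneg_right a7 (Real.exp_pos _).le).trans_lt a6) qp
      _ ≤ _ := by gcongr
  obtain ⟨X, x1, x2, x3⟩ := sample G.flags p0 h.bp_le_one (aw H k) C h1 (h4.trans_le h3)
  exact ⟨X, x1, by linarith, fun I hI hi e => x3 I hI (h2 I hi e)⟩

end Pool.Agent.Work.MP_e10cd8_co.Gap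
end

-- merged part: Pool.Agent.Work.MP_e10cd8_co.Far.All
section
-- merged part: Pool.Agent.Work.MP_e10cd8_co.Mid.Val
section
/-! Valid samples, levels and the weight of the cover (paper 4). -/

namespace Pool.Agent.Work.MP_e10cd8_co.Mid
open Finset Four

variable {q d k o : ℕ} [Fact q.Prime]

/-- a point on many hyperplanes of `Z` is on a hyperplane of the sample -/
theorem Val_test {φ : Type} [DecidableEq φ] (Z : Finset φ) (g : φ → V q d) :
    Pr (1 / 10000) Z (fun T => ∃ a ∈ sel fun a : V q d => 10000 * ((d + 1) * Real.log q) ≤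
      (selIn Z fun z => a ⬝ᵥ g z = 0).card, Disjoint T (selIn Z fun z => a ⬝ᵥ g z = 0)) ≤ 1 / q := by
  have q0 : (0 : ℝ) < q := Nat.cast_pos.2 (Fact.out : q.Prime).pos
  refine (Pr_exists (by norm_num) (by norm_num) _ _).trans
    ((sum_le_card_nsmul _ _ (1 / (q : ℝ) ^ (d + 1)) fun a ha => ?_).trans ?_)
  · refine (Ex_emp _).le.trans ?_
    rw [inter_eq_left.2 (selIn_subset _ _)]
    refine (pow_le_pow_left₀ (by norm_num) (Real.one_sub_le_exp_neg (1 / 10000)) _).trans ?_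
    conv_rhs => rw [← Real.exp_log q0]
    rw [← Real.exp_nat_mul, ← Real.exp_nat_mul, one_div (Real.exp _), ← Real.exp_neg,
      Real.exp_le_exp]
    have := mem_sel.1 ha
    push_cast
    linarith
  · have := card_le_univ (sel fun a : V q d => 10000 * ((d + 1) * Real.log q) ≤
      (selIn Z fun z => a ⬝ᵥ g z = 0).card)
    rw [card_V] at this
    rw [nsmul_eq_mul, mul_one_div, div_le_div_iff₀ (by positivity) q0, one_mul, pow_succ]
    exact mul_le_mul_of_nonneg_right (by exact_mod_cast this) q0.le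

/-- double counting -/
theorem Val_count {φ : Type} (Z : Finset φ) (g : φ → V q d) {P : Finset (V q d)} (hP : P.Nonempty)
    {θ : ℝ} (h : ∀ a ∈ P, ((selIn Z fun z => a ⬝ᵥ g z = 0).card : ℝ) ≤ θ) :
    ((selIn Z fun z => g z ∉ low (1 / 256) P).card : ℝ) ≤ 256 * q * θ := by
  have q0 : (0 : ℝ) < q := Nat.cast_pos.2 (Fact.out : q.Prime).pos
  have p0 : (0 : ℝ) < P.card := Nat.cast_pos.2 hP.card_pos
  have e : ∀ b, (cnt P b : ℝ) = ∑ a ∈ P, ind (a ⬝ᵥ b = 0) := fun b => by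
    rw [← card_selIn, cnt]
    congr 2
    ext a
    simp [pl, and_comm]
  have b1 : ((selIn Z fun z => g z ∉ low (1 / 256) P).card : ℝ) * (1 / 256 * P.card / q) ≤
      P.card * θ := by
    calc _ ≤ ∑ z ∈ selIn Z fun z => g z ∉ low (1 / 256) P, (cnt P (g z) : ℝ) := by
          rw [← nsmul_eq_mul]
          exact card_nsmul_le_sum _ _ _ fun z hz =>
            (not_le.1 fun c => (mem_selIn.1 hz).2 (mem_low.2 c)).le
      _ ≤ ∑ z ∈ Z, (cnt P (g z) : ℝ) :=
          sum_le_sum_of_subset_of_nonneg (selIn_subset _ _) fun _ _ _ => Nat.cast_nonneg _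
      _ = ∑ a ∈ P, ((selIn Z fun z => a ⬝ᵥ g z = 0).card : ℝ) := by
          simp only [e, card_selIn]
          exact sum_comm
      _ ≤ _ := by
          rw [← nsmul_eq_mul]
          exact sum_le_card_nsmul _ _ _ h
  refine le_of_mul_le_mul_right (b1.trans (le_of_eq ?_)) (by positivity)
  field_simp

omit [Fact q.Prime] in
theorem HP.q_ge (h : HP q d k o) : (500 : ℝ) ≤ q := by
  have := h.hL
  rcases Nat.eq_zero_or_pos q with rfl | q0
  · norm_num at this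
  · linarith [Real.log_le_sub_one_of_pos (x := q) (Nat.cast_pos.2 q0)]

omit [Fact q.Prime] in
theorem HP.k_ge (h : HP q d k o) : (10000 : ℝ) ≤ k := by
  have d1 : (1 : ℝ) ≤ d := by exact_mod_cast h.hd
  have a := mul_le_mul d1 h.q_ge (by norm_num) (by linarith)
  have b := mul_le_mul a h.hL (by norm_num) (by linarith)
  nlinarith [h.hk]

omit [Fact q.Prime] in
theorem HP.L_le (h : HP q d k o) : Real.log q ≤ o := by
  have := Nat.le_ceil (Real.log q)
  rw [h.ho]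
  push_cast
  linarith [Nat.cast_nonneg (α := ℝ) d]

/-- Bernoulli rate `1 / 10000`, `markov`, `Ex_emp`, threshold `10000 (d + 1) log q` -/
theorem valid_exists (h : HP q d k o) {Z : Finset (V q d × V q d)} (hZ : Z.card ≤ k) :
    ∃ T, Valid k Z T := by
  have q1 := h.q_ge
  have k1 := h.k_ge
  have L1 := h.hL
  have d1 : (1 : ℝ) ≤ d := by exact_mod_cast h.hd
  have h0 : (0 : ℝ) ≤ 1 / 10000 := by norm_num
  have h1 : (1 / 10000 : ℝ) ≤ 1 := by norm_num
  have a3 := markov h0 h1 (Ω := Z) (f := fun T => ((T ∩ Z).card : ℝ))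
    (fun _ _ => Nat.cast_nonneg _) (t := k / 5000) (by linarith)
  rw [Ex_card, inter_self] at a3
  have a4 : (1 / 10000 : ℝ) * Z.card / (k / 5000) ≤ 1 / 2 := by
    have : (Z.card : ℝ) ≤ k := by exact_mod_cast hZ
    rw [div_le_iff₀ (by linarith)]
    linarith
  have a5 : (1 : ℝ) / q ≤ 1 / 500 := one_div_le_one_div_of_le (by norm_num) q1
  obtain ⟨T, hT, n⟩ := exists_of_Pr_lt_one ((Pr_or h0 h1 _ _).trans_lt
    (lt_of_le_of_lt (add_le_add (a3.trans a4) ((Pr_or h0 h1 _ _).trans (add_le_add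
      ((Val_test Z Prod.snd).trans a5) ((Val_test Z Prod.fst).trans a5)))) (by norm_num)))
  simp only [not_or, not_exists, not_and, mem_sel] at n
  obtain ⟨n1, n2, n3⟩ := n
  rw [inter_eq_left.2 hT] at n1
  have b : 256 * (q : ℝ) * (10000 * ((d + 1) * Real.log q)) ≤ k / 20 := by
    have := mul_le_mul_of_nonneg_right d1 (mul_nonneg (by linarith) (by linarith) :
      0 ≤ q * Real.log q)
    nlinarith [h.hk]
  refine ⟨T, hT, (not_le.1 n1).le, fun P hP ne => (Val_count Z Prod.snd ne fun a ha => ?_).trans b,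
    fun Q hQ ne => (Val_count Z Prod.fst ne fun a ha => ?_).trans b⟩
  · exact (not_le.1 fun c => n2 a c (disjoint_left.2 fun z h1 h2 =>
      mem_sel.1 (hP ha) z h1 (mem_selIn.1 h2).2)).le
  · exact (not_le.1 fun c => n3 a c (disjoint_left.2 fun z h1 h2 =>
      mem_sel.1 (hQ ha) z h1 ((dotProduct_comm _ _).trans (mem_selIn.1 h2).2))).le

theorem indep_sub {I T : Finset (V q d × V q d)} (h : indep I) (hT : T ⊆ I) :
    I ⊆ PP T ×ˢ QQ T := fun u hu =>
  mem_product.2 ⟨mem_sel.2 fun z hz => h u hu z (hT hz), mem_sel.2 fun z hz => h z (hT hz) u hu⟩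

theorem bad_big {Z T : Finset (V q d × V q d)} (h : Valid k Z T) (hZ : Z ⊆ PP T ×ˢ QQ T) :
    (Z.card : ℝ) ≤ (Z ∩ Bad T).card + k / 10 := by
  obtain rfl | ⟨u, hu⟩ := Z.eq_empty_or_nonempty
  · rw [card_empty, Nat.cast_zero]
    positivity
  have a1 := h.lp _ Subset.rfl ⟨_, (mem_product.1 (hZ hu)).1⟩
  have a2 := h.lq _ Subset.rfl ⟨_, (mem_product.1 (hZ hu)).2⟩
  have a3 : Z.card ≤ (Z ∩ Bad T).card + ((selIn Z fun z => z.2 ∉ low (1 / 256) (PP T)).card +
      (selIn Z fun z => z.1 ∉ low (1 / 256) (QQ T)).card) := by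
    refine le_trans (card_le_card fun z hz => ?_)
      ((card_union_le _ _).trans (add_le_add le_rfl (card_union_le _ _)))
    by_contra n
    simp only [mem_union, mem_selIn, not_or, not_and, not_not] at n
    obtain ⟨b1, b2⟩ := mem_product.1 (hZ hz)
    exact n.1 (mem_inter.2 ⟨hz, mem_product.2
      ⟨mem_inter.2 ⟨b1, n.2.2 hz⟩, mem_inter.2 ⟨b2, n.2.1 hz⟩⟩⟩)
  have a4 := (Nat.cast_le (α := ℝ)).2 a3
  push_cast at a4
  linarith

/-- the least `j`; `card_low_le` -/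
theorem level {T : Finset (V q d × V q d)} (h : (Bad T).Nonempty) :
    ∃ j ≤ ⌈d * Real.log q⌉₊, (q : ℝ) ^ d ≤ (Bad T).card * Real.exp j ∧
      ((Bad T).card : ℝ) * Real.exp j ≤ 12 * (q : ℝ) ^ (d + 2) := by
  classical
  have q1 : (1 : ℝ) ≤ q := Nat.one_le_cast.2 (Fact.out : q.Prime).pos
  have b1 : (1 : ℝ) ≤ (Bad T).card := Nat.one_le_cast.2 h.card_pos
  have a0 : (q : ℝ) ^ d ≤ (Bad T).card * Real.exp (⌈d * Real.log q⌉₊ : ℕ) := by
    refine le_trans ?_ (le_mul_of_one_le_left (Real.exp_pos _).le b1)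
    conv_lhs => rw [← Real.exp_log (lt_of_lt_of_le one_pos q1), ← Real.exp_nat_mul]
    exact Real.exp_le_exp.2 (Nat.le_ceil _)
  have ex : ∃ j : ℕ, (q : ℝ) ^ d ≤ (Bad T).card * Real.exp j := ⟨_, a0⟩
  refine ⟨Nat.find ex, Nat.find_min' ex a0, Nat.find_spec ex, ?_⟩
  have p0 : (0 : ℝ) ≤ (q : ℝ) ^ (d + 2) := by positivity
  rcases e : Nat.find ex with _ | j
  · have a1 := card_low_le (x := 1 / 256) (by norm_num) (QQ T)
    have a2 : (Bad T).card ≤ (low (1 / 256) (QQ T)).card * (QQ T).card := by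
      rw [← card_product]
      exact card_le_card (product_subset_product inter_subset_right inter_subset_left)
    have a3 := (Nat.cast_le (α := ℝ)).2 a2
    rw [Nat.cast_zero, Real.exp_zero, mul_one]
    push_cast at a3
    linarith
  · have a1 := not_le.1 (Nat.find_min ex (m := j) (by omega))
    have a2 : (q : ℝ) ^ d ≤ (q : ℝ) ^ (d + 2) := pow_le_pow_right₀ q1 (by omega)
    have a3 := Real.exp_one_lt_d9
    have a4 : 0 ≤ ((Bad T).card : ℝ) * Real.exp j := by positivity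
    rw [Nat.cast_succ, Real.exp_add, ← mul_assoc]
    nlinarith

theorem pq_le {T : Finset (V q d × V q d)} {j : ℕ} (h : (q : ℝ) ^ d ≤ (Bad T).card * Real.exp j) :
    ((PP T).card : ℝ) * (QQ T).card ≤ 16 * (q : ℝ) ^ (d + 4) * Real.exp j := by
  have q0 : (0 : ℝ) < q := Nat.cast_pos.2 (Fact.out : q.Prime).pos
  have a1 := card_low_le (x := 1 / 256) (by norm_num) (QQ T)
  have a2 := card_low_le (x := 1 / 256) (by norm_num) (PP T)
  have a3 : (Bad T).card ≤ (low (1 / 256) (QQ T)).card * (low (1 / 256) (PP T)).card := by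
    rw [← card_product]
    exact card_le_card (product_subset_product inter_subset_right inter_subset_right)
  have a4 : ((Bad T).card : ℝ) ≤ (low (1 / 256) (QQ T)).card * (low (1 / 256) (PP T)).card := by
    exact_mod_cast a3
  refine le_of_mul_le_mul_right ?_ (pow_pos q0 d)
  calc _ ≤ ((PP T).card : ℝ) * (QQ T).card * ((low (1 / 256) (QQ T)).card *
        (low (1 / 256) (PP T)).card * Real.exp j) := by
        have := h.trans (mul_le_mul_of_nonneg_right a4 (Real.exp_pos _).le)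
        gcongr
    _ = ((low (1 / 256) (QQ T)).card * (QQ T).card) * ((low (1 / 256) (PP T)).card * (PP T).card) *
        Real.exp j := by ring
    _ ≤ (4 * (q : ℝ) ^ (d + 2)) * (4 * (q : ℝ) ^ (d + 2)) * Real.exp j := by gcongr
    _ = _ := by ring

theorem Val_small {φ : Type} [DecidableEq φ] (Ω : Finset φ) {p a : ℝ} (t : ℝ) (hp : 0 ≤ p)
    (ha : 0 ≤ a) (h : p * Ω.card ≤ Real.exp a) :
    ∑ T ∈ selIn Ω.powerset (fun T => (T.card : ℝ) ≤ t), p ^ T.card ≤ Real.exp (t * a + 1) := by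
  have e0 := Real.exp_pos a
  refine (sum_small_le Ω (x := 1 / Real.exp a) hp (by positivity)
    (div_le_one_of_le₀ (Real.one_le_exp ha) e0.le)).trans (Real.exp_le_exp.2 ?_)
  rw [one_div_one_div, Real.log_exp, mul_assoc, one_div_mul_eq_div]
  exact add_le_add le_rfl (div_le_one_of_le₀ h e0.le)

/-- `sum_small_le` twice, `choose_mul_pow_le`; compare `All/AWt` -/
theorem wt_Cov (h : HP q d k o) (j : ℕ) {F : Finset (Finset (V q d) × Finset (V q d))}
    (hF : (F.card : ℝ) ≤ Real.exp (1500001 * d * q * Real.log q * (o + j))) :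
    wtC (1 / ((q : ℝ) ^ d * Real.exp o ^ 6)) (k / 2 + 1) (Cov k o j F) ≤ Real.exp (-(k * o)) := by
  have q1 := h.q_ge
  have k1 := h.k_ge
  have o1 : (500 : ℝ) ≤ o := h.hL.trans h.L_le
  have j0 : (0 : ℝ) ≤ j := Nat.cast_nonneg j
  have q0 : (0 : ℝ) < q := by linarith
  have qw : (q : ℝ) ≤ Real.exp o := (Real.log_le_iff_le_exp q0).1 h.L_le
  obtain ⟨w, hw⟩ : ∃ w, w = Real.exp o := ⟨_, rfl⟩
  rw [← hw] at qw
  have w0 : 0 < w := by linarith
  have w1 : 1 ≤ w := by linarith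
  obtain ⟨p, hp⟩ : ∃ p, p = 1 / ((q : ℝ) ^ d * w ^ 6) := ⟨_, rfl⟩
  have p0 : 0 ≤ p := hp ▸ by positivity
  have p1 : p * (q : ℝ) ^ d = 1 / w ^ 6 := by
    rw [hp]
    field_simp
  rw [← hw, ← hp]
  obtain ⟨E, hE⟩ : ∃ E, E = Real.exp (-((j + 3 * o) * (k / 2))) := ⟨_, rfl⟩
  have E0 : 0 ≤ E := hE ▸ (Real.exp_pos _).le
  have pool : ∀ B : ℕ, (B : ℝ) * Real.exp j ≤ 12 * (q : ℝ) ^ (d + 2) →
      (B.choose (k / 2 + 1) : ℝ) * p ^ (k / 2 + 1) ≤ E := fun B hB => by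
    refine (choose_mul_pow_le B _ (by omega) p0).trans ?_
    have c1 : (k : ℝ) / 2 ≤ (k / 2 + 1 : ℕ) := by
      rw [div_le_iff₀ two_pos]
      exact_mod_cast (by omega : k ≤ (k / 2 + 1) * 2)
    have c2 : Real.exp 1 * B * p / (k / 2 + 1 : ℕ) ≤ Real.exp (-(j + 3 * o)) := by
      refine (div_le_self (by positivity) (by linarith)).trans ?_
      rw [Real.exp_neg, Real.exp_add, show (3 : ℝ) * o = (3 : ℕ) * o by norm_num, Real.exp_nat_mul,
        ← hw, ← one_div, le_div_iff₀ (by positivity)]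
      have c3 : Real.exp 1 * 12 ≤ w := by linarith [Real.exp_one_lt_d9]
      calc _ = Real.exp 1 * (B * Real.exp j) * p * w ^ 3 := by ring
        _ ≤ Real.exp 1 * (12 * (q : ℝ) ^ (d + 2)) * p * w ^ 3 := by gcongr
        _ = Real.exp 1 * 12 * (q : ℝ) ^ 2 * (p * (q : ℝ) ^ d) * w ^ 3 := by ring
        _ ≤ w * w ^ 2 * (p * (q : ℝ) ^ d) * w ^ 3 := by gcongr
        _ = 1 := by
          rw [p1]
          field_simp
    refine (pow_le_pow_left₀ (by positivity) c2 _).trans ?_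
    rw [← Real.exp_nat_mul, hE, Real.exp_le_exp]
    nlinarith [mul_le_mul_of_nonneg_right c1 (by linarith : (0 : ℝ) ≤ j + 3 * o)]
  have sub : Cov k o j F ⊆ (selIn F fun XY =>
      (XY.1.card : ℝ) * XY.2.card ≤ (q : ℝ) ^ d * Real.exp (o + j : ℕ) ^ 585).biUnion
      fun XY => (selIn (selIn (XY.1 ×ˢ XY.2).powerset fun T => (T.card : ℝ) ≤ k / 5000)
        fun T1 => ((PP T1).card : ℝ) * (QQ T1).card ≤ 16 * (q : ℝ) ^ (d + 4) * Real.exp j).biUnion
        fun T1 => (selIn (selIn (PP T1 ×ˢ QQ T1).powerset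
          fun T => (T.card : ℝ) ≤ k / 5000) fun T0 => Disjoint T1 T0).biUnion fun T0 =>
          (selIn {Bad T1, Bad T0} fun B => (B.card : ℝ) * Real.exp j ≤
            12 * (q : ℝ) ^ (d + 2)).image fun B => (T1 ∪ T0, B) := by
    intro z hz
    obtain ⟨XY, h1, T1, T0, h2, h3, h4, h5, h6, h7, h8, h9, h10, h11⟩ := mem_sel.1 hz
    exact mem_biUnion.2 ⟨XY, mem_selIn.2 ⟨h1, h3⟩, mem_biUnion.2 ⟨T1, mem_selIn.2
      ⟨mem_selIn.2 ⟨mem_powerset.2 h2, h4⟩, h6⟩, mem_biUnion.2 ⟨T0, mem_selIn.2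
        ⟨mem_selIn.2 ⟨mem_powerset.2 h5, h7⟩, h8⟩, mem_image.2 ⟨z.2, mem_selIn.2
          ⟨mem_insert.2 (h10.imp_right mem_singleton.2), h11⟩, Prod.ext h9.symm rfl⟩⟩⟩⟩
  refine (sum_le_sum_of_subset_of_nonneg sub fun _ _ _ => by positivity).trans
    ((wtC_biUnion_le p0 _ _ _).trans ?_)
  have w6 : 1 / w ^ 6 ≤ 1 := div_le_one_of_le₀ (one_le_pow₀ w1) (by positivity)
  refine (sum_le_card_nsmul _ _ (Real.exp (k / 5000 * (585 * (o + j)) + 1) *
    (Real.exp (k / 5000 * j + 1) * (2 * E))) fun XY hXY => ?_).trans ?_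
  · refine (wtC_biUnion_le p0 _ _ _).trans ?_
    have s1 := (sum_le_sum_of_subset_of_nonneg (selIn_subset _ fun T1 =>
      ((PP T1).card : ℝ) * (QQ T1).card ≤ 16 * (q : ℝ) ^ (d + 4) * Real.exp j)
      fun _ _ _ => by positivity).trans
      (Val_small (XY.1 ×ˢ XY.2) (a := 585 * (o + j)) (k / 5000) p0 (by positivity) (by
        rw [card_product, Nat.cast_mul]
        refine (mul_le_mul_of_nonneg_left (mem_selIn.1 hXY).2 p0).trans ?_
        rw [← mul_assoc, p1, ← Real.exp_nat_mul]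
        push_cast
        exact mul_le_of_le_one_left (Real.exp_pos _).le w6))
    refine le_trans ?_ (mul_le_mul_of_nonneg_right s1 (by positivity))
    rw [sum_mul]
    refine sum_le_sum fun T1 hT => (wtC_biUnion_le p0 _ _ _).trans ?_
    have s2 := (sum_le_sum_of_subset_of_nonneg (selIn_subset _ fun T0 => Disjoint T1 T0)
      fun _ _ _ => by positivity).trans
      (Val_small (PP T1 ×ˢ QQ T1) (a := j) (k / 5000) p0 j0 (by
        rw [card_product, Nat.cast_mul]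
        refine (mul_le_mul_of_nonneg_left (mem_selIn.1 hT).2 p0).trans ?_
        rw [← mul_assoc]
        refine mul_le_of_le_one_left (Real.exp_pos _).le ?_
        calc _ = 16 * (q : ℝ) ^ 4 * (p * (q : ℝ) ^ d) := by ring
          _ ≤ w ^ 2 * w ^ 4 * (p * (q : ℝ) ^ d) := by
            have : 16 ≤ w ^ 2 := by nlinarith
            gcongr
          _ = 1 := by
            rw [p1]
            field_simp))
    refine le_trans ?_ (mul_le_mul_of_nonneg_left
      (mul_le_mul_of_nonneg_right s2 (by positivity)) (by positivity))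
    rw [sum_mul, mul_sum]
    refine sum_le_sum fun T0 hW => (wtC_image_le p0 _ _ _).trans ?_
    refine (sum_le_card_nsmul _ _ (p ^ T1.card * (p ^ T0.card * E)) fun B hB => ?_).trans ?_
    · have := pool B.card (mem_selIn.1 hB).2
      simp only []
      rw [card_union_of_disjoint (mem_selIn.1 hW).2, pow_add, mul_assoc]
      gcongr
    · have : ((selIn {Bad T1, Bad T0} fun B => (B.card : ℝ) * Real.exp j ≤
          12 * (q : ℝ) ^ (d + 2)).card : ℝ) ≤ 2 := by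
        exact_mod_cast (card_le_card (selIn_subset _ _)).trans card_le_two
      rw [nsmul_eq_mul]
      refine (mul_le_mul_of_nonneg_right this (by positivity)).trans (le_of_eq ?_)
      ring
  · rw [nsmul_eq_mul]
    have a0 := le_trans (Nat.cast_le.2 (card_le_card (selIn_subset F fun XY =>
      (XY.1.card : ℝ) * XY.2.card ≤ (q : ℝ) ^ d * Real.exp (o + j : ℕ) ^ 585))) hF
    have a1 : (2 : ℝ) ≤ Real.exp 1 := by linarith [Real.add_one_le_exp (1 : ℝ)]
    refine (mul_le_mul a0 (mul_le_mul_of_nonneg_left (mul_le_mul_of_nonneg_left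
      (mul_le_mul_of_nonneg_right a1 E0) (Real.exp_pos _).le) (Real.exp_pos _).le)
      (by positivity) (Real.exp_pos _).le).trans ?_
    rw [hE, ← Real.exp_add, ← Real.exp_add, ← Real.exp_add, ← Real.exp_add, Real.exp_le_exp]
    have b1 := mul_le_mul_of_nonneg_right h.hk (by linarith : (0 : ℝ) ≤ o + j)
    have b2 := mul_nonneg (by linarith : (0 : ℝ) ≤ k) j0
    have b3 := mul_le_mul k1 o1 (by norm_num) (by linarith)
    nlinarith

end Pool.Agent.Work.MP_e10cd8_co.Mid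
end

-- merged part: Pool.Agent.Work.MP_e10cd8_co.Mid.Host
section
/-! The cover of all independent sets and the host digraph (paper 4). -/

namespace Pool.Agent.Work.MP_e10cd8_co.Mid
open Finset Four

variable {q d k o : ℕ} [Fact q.Prime]

theorem Host_hit (h : HP q d k o) (F : ℕ → Finset (Finset (V q d) × Finset (V q d)))
    (hF : ∀ i ≤ ⌈d * Real.log q⌉₊, KLp (o + i) (F i)) {I : Finset (V q d × V q d)} (hI : indep I)
    (hk : I.card = k) : ∃ j ≤ ⌈d * Real.log q⌉₊,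
      hits (Cov k o j ((range (j + 1)).biUnion F)) (k / 2 + 1) I := by
  have k1 := h.k_ge
  have q0 : (0 : ℝ) < q := by linarith [h.q_ge]
  have ck : (I.card : ℝ) = k := by exact_mod_cast hk
  have ne : ∀ {Z B : Finset (V q d × V q d)}, (0 : ℝ) < (Z ∩ B).card → B.Nonempty := fun c =>
    (card_pos.1 (Nat.cast_pos.1 c)).mono inter_subset_right
  obtain ⟨T0, v0⟩ := valid_exists h hk.le
  have b0 := bad_big v0 (indep_sub hI v0.sub)
  obtain ⟨j0, l0, l1, l2⟩ := level (T := T0) (ne (Z := I) (by linarith))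
  obtain ⟨XY, x1, P, p1, S, s1, p2, s2, p3, s3⟩ := (hF j0 l0).2 (PP T0)
    (QQ T0 ∩ low (1 / 256) (PP T0)) inter_subset_right (l1.trans (by
      have a : (Bad T0).card ≤ (PP T0).card * (QQ T0 ∩ low (1 / 256) (PP T0)).card := by
        rw [← card_product]
        exact card_le_card (product_subset_product_left inter_subset_left)
      refine mul_le_mul (by exact_mod_cast a) (Real.exp_le_exp.2 ?_) (Real.exp_pos _).le
        (by positivity)
      exact_mod_cast Nat.le_add_left _ _))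
  have x2 := (hF j0 l0).1 XY x1
  have c1 := v0.lp P p1 p2
  have c2 := v0.lq S (s1.trans inter_subset_left) s2
  obtain ⟨Z, hZ⟩ : ∃ Z, Z = (I ∩ XY.1 ×ˢ XY.2) \ T0 := ⟨_, rfl⟩
  have z1 : Z ⊆ I := hZ ▸ sdiff_subset.trans inter_subset_left
  have z2 : I.card ≤ Z.card + (T0.card + ((selIn I fun z => z.2 ∉ low (1 / 256) P).card +
      (selIn I fun z => z.1 ∉ low (1 / 256) S).card)) := by
    refine le_trans (card_le_card fun z hz => ?_) ((card_union_le _ _).trans (add_le_add le_rfl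
      ((card_union_le _ _).trans (add_le_add le_rfl (card_union_le _ _)))))
    by_contra n
    simp only [mem_union, mem_selIn, not_or, not_and, not_not] at n
    exact n.1 (hZ ▸ mem_sdiff.2 ⟨mem_inter.2 ⟨hz, mem_product.2
      ⟨s3 (low_mono (by norm_num) _ (n.2.2.2 hz)), p3 (low_mono (by norm_num) _ (n.2.2.1 hz))⟩⟩,
      n.2.1⟩)
  have z3 := (Nat.cast_le (α := ℝ)).2 z2
  push_cast at z3
  have t0 := v0.card
  obtain ⟨T1, v1⟩ := valid_exists h ((card_le_card z1).trans hk.le)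
  have i1 := indep_sub hI (v1.sub.trans z1)
  have b1 := bad_big v1 (z1.trans i1)
  have t1 := v1.card
  obtain ⟨j1, m0, m1, m2⟩ := level (T := T1) (ne (Z := Z) (by linarith))
  obtain ⟨B, j, e0, e1, e2, e3, e4, e5⟩ : ∃ (B : Finset (V q d × V q d)) (j : ℕ),
      j ≤ ⌈d * Real.log q⌉₊ ∧ j0 ≤ j ∧ j1 ≤ j ∧ (B = Bad T1 ∨ B = Bad T0) ∧
      (B.card : ℝ) * Real.exp j ≤ 12 * (q : ℝ) ^ (d + 2) ∧ 7 / 10 * (k : ℝ) ≤ (I ∩ B).card := by
    rcases le_total j0 j1 with c | c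
    · have : ((Z ∩ Bad T1).card : ℝ) ≤ (I ∩ Bad T1).card :=
        Nat.cast_le.2 (card_le_card (inter_subset_inter_right z1))
      exact ⟨_, j1, m0, c, le_rfl, Or.inl rfl, m2, by linarith⟩
    · exact ⟨_, j0, l0, le_rfl, c, Or.inr rfl, l2, by linarith⟩
  refine ⟨j, e0, (T1 ∪ T0, B), mem_sel.2 ⟨XY, mem_biUnion.2 ⟨j0, mem_range.2 (by omega), x1⟩, T1, T0,
    v1.sub.trans (hZ ▸ sdiff_subset.trans inter_subset_right), x2.trans ?_, t1, v0.sub.trans i1,
    (pq_le m1).trans ?_, t0, (hZ ▸ sdiff_disjoint : Disjoint Z T0).mono_left v1.sub, rfl, e3, e4⟩,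
    union_subset (v1.sub.trans z1) v0.sub, ?_⟩
  · gcongr
  · gcongr
  · have a1 := (Nat.cast_le (α := ℝ)).2 ((card_le_card_sdiff_add_card (s := I ∩ B)
      (t := T1 ∪ T0)).trans (add_le_add le_rfl (card_union_le _ _)))
    have a2 : ((k / 2 : ℕ) : ℝ) ≤ k / 2 := Nat.cast_div_le
    rw [← Nat.cast_le (α := ℝ)]
    push_cast at a1 ⊢
    linarith

/-- two rounds; the family of level `j` is the union of the families of `kl` for `om = o + i`,
`i ≤ j` -/
theorem cover_all (h : HP q d k o) :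
    ∃ C : Finset (Finset (V q d × V q d) × Finset (V q d × V q d)),
      wtC (1 / ((q : ℝ) ^ d * Real.exp o ^ 6)) (k / 2 + 1) C * (q : ℝ) ^ (2 * d) ≤ 1 ∧
      ∀ I, indep I → I.card = k → hits C (k / 2 + 1) I := by
  have q1 := h.q_ge
  have L1 := h.hL
  have o1 : (500 : ℝ) ≤ o := L1.trans h.L_le
  have d1 : (1 : ℝ) ≤ d := by exact_mod_cast h.hd
  have q0 : (0 : ℝ) < q := by linarith
  obtain ⟨x, hx⟩ : ∃ x, x = d * Real.log q := ⟨_, rfl⟩
  have x1 : Real.log q ≤ x := hx ▸ le_mul_of_one_le_left (by linarith) d1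
  have x2 : (d : ℝ) ≤ x := hx ▸ le_mul_of_one_le_right (by linarith) (by linarith)
  have x3 : (q : ℝ) ^ d = Real.exp x := by rw [hx, Real.exp_nat_mul, Real.exp_log q0]
  have x4 := (Nat.ceil_lt_add_one (a := x) (by linarith)).le
  have o2 : (o : ℝ) = d + ⌈Real.log q⌉₊ := by exact_mod_cast h.ho
  have y : ∀ i : ℕ, ∃ F : Finset (Finset (V q d) × Finset (V q d)), i ≤ ⌈x⌉₊ →
      (F.card : ℝ) ≤ Real.exp (1500000 * d * q * Real.log q * (o + i : ℕ)) ∧ KLp (o + i) F :=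
    fun i => by
    by_cases c : i ≤ ⌈x⌉₊
    · obtain ⟨F, f⟩ := kl (om := o + i) h.hL h.hd (by
        push_cast
        linarith [Nat.le_ceil (Real.log q), Nat.cast_nonneg (α := ℝ) i]) (by
        have a1 : (i : ℝ) ≤ ⌈x⌉₊ := by exact_mod_cast c
        have a2 := (Nat.ceil_lt_add_one (a := Real.log q) (by linarith)).le
        have a3 := Real.pow_div_factorial_le_exp x (by linarith) 3
        have a4 : 500 * 500 * x ≤ x ^ 3 := by
          rw [pow_succ, sq]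
          gcongr <;> linarith
        rw [← Nat.cast_le (α := ℝ)]
        push_cast
        norm_num [Nat.factorial] at a3
        linarith)
      exact ⟨F, fun _ => f⟩
    · exact ⟨∅, fun c' => (c c').elim⟩
  choose F hF using y
  refine ⟨(range (⌈x⌉₊ + 1)).biUnion fun j => Cov k o j ((range (j + 1)).biUnion F), ?_,
    fun I h1 h2 => ?_⟩
  · have e : ∀ n : ℕ, ((n + 1 : ℕ) : ℝ) ≤ Real.exp n := fun n => by
      push_cast
      exact Real.add_one_le_exp _
    have u : x ≤ d * q * Real.log q := by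
      rw [mul_right_comm, ← hx]
      exact le_mul_of_one_le_right (by linarith) (by linarith)
    refine (mul_le_mul_of_nonneg_right ((wtC_biUnion_le (by positivity) _ _ _).trans
      (sum_le_card_nsmul _ _ (Real.exp (-(k * o))) fun j hj => wt_Cov h j ?_))
      (by positivity)).trans ?_
    · refine (Nat.cast_le.2 card_biUnion_le).trans ?_
      rw [Nat.cast_sum]
      refine (sum_le_card_nsmul _ _ (Real.exp (1500000 * d * q * Real.log q * (o + j)))
        fun i hi => (hF i (by have := mem_range.1 hi; have := mem_range.1 hj; omega)).1.trans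
          (Real.exp_le_exp.2 (mul_le_mul_of_nonneg_left ?_ (by positivity)))).trans ?_
      · exact_mod_cast Nat.add_le_add_left (Nat.lt_succ_iff.1 (mem_range.1 hi)) o
      · rw [nsmul_eq_mul, card_range]
        refine (mul_le_mul_of_nonneg_right (e j) (Real.exp_pos _).le).trans ?_
        rw [← Real.exp_add, Real.exp_le_exp]
        have j0 : (0 : ℝ) ≤ j := Nat.cast_nonneg _
        nlinarith [mul_le_mul_of_nonneg_right (by linarith : 1 ≤ d * q * Real.log q)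
          (by linarith : (0 : ℝ) ≤ o + j)]
    · rw [nsmul_eq_mul, card_range, mul_comm 2, pow_mul, x3]
      refine (mul_le_mul_of_nonneg_right (mul_le_mul_of_nonneg_right (e _) (Real.exp_pos _).le)
        (by positivity)).trans ?_
      rw [← Real.exp_nat_mul, ← Real.exp_add, ← Real.exp_add, Real.exp_le_one_iff]
      have := h.hk
      have := mul_le_mul_of_nonneg_left (by linarith : (1 : ℝ) ≤ o) (Nat.cast_nonneg k)
      push_cast
      nlinarith
  · obtain ⟨j, j1, j2⟩ := Host_hit h F (fun i hi => (hF i (hx ▸ hi)).2) h1 h2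
    exact hits_mono (subset_biUnion_of_mem (fun j => Cov k o j ((range (j + 1)).biUnion F))
      (mem_range.2 (Nat.lt_succ_of_le (hx ▸ j1)))) Subset.rfl j2

theorem card_verts (hd : 1 ≤ d) : (q : ℝ) ^ (2 * d) ≤ 4 * (verts (q := q) (d := d)).card := by
  have q2 : (2 : ℝ) ≤ q := by exact_mod_cast (Fact.out : q.Prime).two_le
  have p2 : (2 : ℝ) ≤ (q : ℝ) ^ d := q2.trans (le_self_pow₀ (by linarith) (by omega))
  have a : ∀ a ∈ univ.erase (0 : V q d), (q : ℝ) ^ d / 2 ≤ ∑ b, ind (a ⬝ᵥ b ≠ 0) := fun a ha => by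
    have c1 := card_perp (Submodule.span (ZMod q) {a})
    rw [finrank_span_singleton (mem_erase.1 ha).1, pow_one] at c1
    have c2 : q ^ d ≤ (sel fun b : V q d => a ⬝ᵥ b ≠ 0).card + (sel fun b : V q d =>
        ∀ u ∈ Submodule.span (ZMod q) {a}, u ⬝ᵥ b = 0).card := by
      rw [← card_V, ← card_univ]
      refine le_trans (card_le_card fun b _ => ?_) (card_union_le _ _)
      by_cases c : a ⬝ᵥ b = 0
      · refine mem_union_right _ (mem_sel.2 fun u hu => ?_)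
        obtain ⟨l, rfl⟩ := Submodule.mem_span_singleton.1 hu
        rw [smul_dotProduct, c, smul_zero]
      · exact mem_union_left _ (mem_sel.2 c)
    have c3 := (Nat.cast_le (α := ℝ)).2 c2
    have c4 := congrArg (Nat.cast (R := ℝ)) c1
    rw [← card_sel]
    push_cast at c3 c4
    nlinarith [mul_le_mul_of_nonneg_left q2 (Nat.cast_nonneg (α := ℝ) (sel fun b : V q d =>
      ∀ u ∈ Submodule.span (ZMod q) {a}, u ⬝ᵥ b = 0).card)]
  have b := (card_nsmul_le_sum _ _ _ a).trans (sum_le_sum_of_subset_of_nonneg (subset_univ _)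
    fun _ _ _ => sum_nonneg fun _ _ => ind_nonneg _)
  rw [nsmul_eq_mul, cast_card_erase_of_mem (mem_univ _), card_univ, card_V, Nat.cast_pow] at b
  rw [verts, card_sel, Fintype.sum_prod_type, mul_comm 2, pow_mul]
  nlinarith

/-- `sample`; the empty set if the expected size is at most one -/
theorem host (h : HP q d k o) : ∃ X ⊆ verts (q := q) (d := d),
    (q : ℝ) ^ d / (4 * Real.exp o ^ 6) - 1 ≤ X.card ∧ ∀ I ⊆ X, indep I → I.card ≠ k := by
  have q1 := h.q_ge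
  have k1 := h.k_ge
  have q0 : (0 : ℝ) < q := by linarith
  obtain ⟨C, c1, c2⟩ := cover_all h
  have a : (q : ℝ) ^ d / (4 * Real.exp o ^ 6) ≤
      1 / ((q : ℝ) ^ d * Real.exp o ^ 6) * (verts (q := q) (d := d)).card := by
    have := card_verts (q := q) h.hd
    rw [one_div_mul_eq_div, div_le_div_iff₀ (by positivity) (by positivity), ← mul_assoc, ← mul_assoc,
      ← pow_add, ← two_mul, mul_comm _ (4 : ℝ)]
    gcongr
  rcases lt_or_ge 1 (1 / ((q : ℝ) ^ d * Real.exp o ^ 6) * (verts (q := q) (d := d)).card) with c | c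
  · have u : ((verts (q := q) (d := d)).card : ℝ) ≤ (q : ℝ) ^ (2 * d) := by
      have := card_le_univ (verts (q := q) (d := d))
      rw [Fintype.card_prod, card_V, ← pow_add, ← two_mul] at this
      exact_mod_cast this
    obtain ⟨X, x1, x2, x3⟩ := sample verts (by positivity) (div_le_one_of_le₀
      (one_le_mul_of_one_le_of_one_le (one_le_pow₀ (by linarith))
        (one_le_pow₀ (Real.one_le_exp (Nat.cast_nonneg _)))) (by positivity)) _ C
      ((mul_le_mul_of_nonneg_left u (sum_nonneg fun _ _ => by positivity)).trans c1) c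
    exact ⟨X, x1, by linarith, fun I i1 i2 i3 => x3 I i1 (c2 I i2 i3)⟩
  · refine ⟨∅, empty_subset _, by rw [card_empty, Nat.cast_zero]; linarith, fun I i1 _ i3 => ?_⟩
    rw [subset_empty.1 i1, card_empty] at i3
    rw [← i3] at k1
    norm_num at k1

/-- a triangular system of `d + 1` vectors is linearly independent; compare `Four.PG.digraph` -/
theorem digraph {X : Finset (V q d × V q d)} (hX : X ⊆ verts)
    (h : ∀ I ⊆ X, indep I → I.card ≠ k) {N : ℕ} (hN : N ≤ X.card) :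
    ∃ D : Digraph (Fin N), (∀ v, ¬ D.Adj v v) ∧
      (¬ ∃ S : Finset (Fin N), S.card = k ∧ ∀ u ∈ S, ∀ v ∈ S, ¬ D.Adj u v) ∧
      ¬ ∃ f : Fin (d + 1) → Fin N, Function.Injective f ∧ ∀ i j, i < j → D.Adj (f i) (f j) := by
  obtain ⟨e⟩ : Nonempty (Fin N ↪ X) := Function.Embedding.nonempty_of_card_le (by simpa using hN)
  have n : ∀ v, (e v).1.1 ⬝ᵥ (e v).1.2 ≠ 0 := fun v =>
    (mem_sel (p := fun z : V q d × V q d => z.1 ⬝ᵥ z.2 ≠ 0)).1 (hX (e v).2)
  refine ⟨⟨fun u v => (e u).1.1 ⬝ᵥ (e v).1.2 = 0⟩, n, ?_, ?_⟩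
  · rintro ⟨S, h1, h2⟩
    refine h (S.image fun u => (e u).1) (fun z hz => ?_) (fun z hz z' hz' => ?_) ?_
    · obtain ⟨u, -, rfl⟩ := mem_image.1 hz
      exact (e u).2
    · obtain ⟨u, hu, rfl⟩ := mem_image.1 hz
      obtain ⟨v, hv, rfl⟩ := mem_image.1 hz'
      exact h2 u hu v hv
    · rw [card_image_of_injective _ fun u v a => e.injective (Subtype.ext a), h1]
  · rintro ⟨f, -, hf⟩
    obtain ⟨A, hA⟩ : ∃ A : Matrix (Fin (d + 1)) (Fin d) (ZMod q), ∀ i, A i = (e (f i)).1.2 :=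
      ⟨Matrix.of _, fun _ => rfl⟩
    obtain ⟨B, hB⟩ : ∃ B : Matrix (Fin (d + 1)) (Fin d) (ZMod q), ∀ i, B i = (e (f i)).1.1 :=
      ⟨Matrix.of _, fun _ => rfl⟩
    have m : ∀ i j, (A * B.transpose) i j = (e (f j)).1.1 ⬝ᵥ (e (f i)).1.2 := fun i j => by
      rw [dotProduct_comm, ← hA, ← hB]
      rfl
    have u : IsUnit (A * B.transpose) := by
      rw [Matrix.isUnit_iff_isUnit_det, Matrix.det_of_isUpperTriangular fun i j c =>
        (m i j).trans (hf j i c), isUnit_iff_ne_zero]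
      exact prod_ne_zero_iff.2 fun i _ => m i i ▸ n (f i)
    have := (Matrix.rank_mul_le_left A B.transpose).trans (Matrix.rank_le_width A)
    rw [Matrix.rank_of_isUnit _ u, Fintype.card_fin] at this
    omega

end Pool.Agent.Work.MP_e10cd8_co.Mid
end

-- merged part: Pool.Agent.Work.MP_e10cd8_co.Mid.Top
section
/-! The lower bound (paper 5). -/

namespace Pool.Agent.Work.MP_e10cd8_co.Mid
open Finset Four

/-- `Nat.exists_prime_lt_and_le_two_mul` -/
theorem prime_pick : ∃ x0 : ℝ, 2 ≤ x0 ∧ ∀ x : ℝ, x0 ≤ x → ∃ q : ℕ, q.Prime ∧ 500 ≤ Real.log q ∧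
    (q : ℝ) ≤ x ∧ 2 * 10 ^ 8 * (q : ℝ) * Real.log q ≤ x ∧ x ≤ 8 * 10 ^ 8 * q * Real.log x := by
  obtain ⟨M, hM⟩ : ∃ M : ℝ, M = Real.exp 500 := ⟨_, rfl⟩
  have M1 : 1 ≤ M := hM ▸ Real.one_le_exp (by norm_num)
  refine ⟨(16 * 10 ^ 8 * M) ^ 2, by nlinarith, fun x hx => ?_⟩
  have x3 : 3 ≤ x := by nlinarith
  have x0 : 0 < x := by linarith
  have l1 : 1 ≤ Real.log x := (Real.le_log_iff_exp_le x0).2 (by linarith [Real.exp_one_lt_d9])
  have s1 : 16 * 10 ^ 8 * M ≤ √x := Real.le_sqrt_of_sq_le hx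
  have s2 : Real.log x ≤ 2 * √x := by
    have := Real.log_le_sub_one_of_pos (Real.sqrt_pos.2 x0)
    rw [Real.log_sqrt x0.le] at this
    linarith
  obtain ⟨y, hy⟩ : ∃ y : ℝ, y * (2 * 10 ^ 8 * Real.log x) = x :=
    ⟨x / _, div_mul_cancel₀ _ (by positivity)⟩
  have y4 : 4 * M ≤ y := by
    refine le_of_mul_le_mul_right (a := 2 * 10 ^ 8 * Real.log x) ?_ (by positivity)
    rw [hy]
    have := Real.mul_self_sqrt x0.le
    have s0 := Real.sqrt_nonneg x
    nlinarith [mul_le_mul_of_nonneg_right s1 s0, mul_le_mul_of_nonneg_left s2 (by linarith : 0 ≤ M)]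
  have n0 : ⌊y / 2⌋₊ ≠ 0 := (Nat.floor_pos.2 (by linarith)).ne'
  obtain ⟨q, hq, h1, h2⟩ := Nat.exists_prime_lt_and_le_two_mul _ n0
  have a1 : y / 2 ≤ q := (Nat.lt_floor_add_one _).le.trans (by exact_mod_cast h1)
  have a2 : (q : ℝ) ≤ y := by
    have : (q : ℝ) ≤ 2 * ⌊y / 2⌋₊ := by exact_mod_cast h2
    linarith [Nat.floor_le (a := y / 2) (by linarith)]
  have a3 : y ≤ x := by nlinarith
  have q0 : (0 : ℝ) < q := by linarith
  have a4 : Real.log q ≤ Real.log x := Real.log_le_log q0 (a2.trans a3)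
  have a5 : 500 ≤ Real.log q := (Real.le_log_iff_exp_le q0).2 (by linarith)
  refine ⟨q, hq, a5, a2.trans a3, ?_, ?_⟩
  · nlinarith [mul_le_mul a2 a4 (by linarith) (by linarith)]
  · nlinarith [mul_le_mul_of_nonneg_right a1 (by linarith : 0 ≤ Real.log x)]

theorem lower : ∃ c : ℝ, 0 < c ∧ ∀ n m N : ℕ, 2 ≤ m → 2 * m ≤ n →
    (∀ G : Digraph (Fin N), (∀ v, ¬ G.Adj v v) →
      (∃ S : Finset (Fin N), S.card = n ∧ ∀ u ∈ S, ∀ v ∈ S, ¬ G.Adj u v) ∨
        ∃ f : Fin m → Fin N, Function.Injective f ∧ ∀ i j, i < j → G.Adj (f i) (f j)) →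
    (c * n / (m * Real.log (n / m))) ^ m / (n : ℝ) ^ 8 ≤ N := by
  obtain ⟨x0, x2, hx⟩ := prime_pick
  have l2 : 0 < Real.log 2 := Real.log_pos one_lt_two
  obtain ⟨c, c0, c1, c2⟩ : ∃ c : ℝ, 0 < c ∧ c * (8 * 10 ^ 8 * Real.exp 6) ≤ 1 ∧
      c * x0 ≤ Real.log 2 :=
    ⟨min (1 / (8 * 10 ^ 8 * Real.exp 6)) (Real.log 2 / x0), lt_min (by positivity) (by positivity),
      (le_div_iff₀ (by positivity)).1 (min_le_left _ _),
      (le_div_iff₀ (by positivity)).1 (min_le_right _ _)⟩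
  refine ⟨c, c0, fun n m N hm hn H => ?_⟩
  have m2 : (2 : ℝ) ≤ m := by exact_mod_cast hm
  have nm : 2 * (m : ℝ) ≤ n := by exact_mod_cast hn
  have m0 : (0 : ℝ) < m := by linarith
  obtain ⟨x, hxe⟩ : ∃ x : ℝ, x = n / m := ⟨_, rfl⟩
  have xm : x * m = n := hxe ▸ div_mul_cancel₀ _ m0.ne'
  have x2' : 2 ≤ x := hxe ▸ (le_div_iff₀ m0).2 nm
  have lx : Real.log 2 ≤ Real.log x := Real.log_le_log two_pos x2'
  have e : c * n / (m * Real.log (n / m)) = c * x / Real.log x := by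
    rw [← hxe, ← xm, ← mul_assoc, mul_comm (m : ℝ), mul_div_mul_right _ _ m0.ne']
  rw [e]
  have b0 : 0 ≤ c * x / Real.log x := div_nonneg (by positivity) (by linarith)
  have n1 : (1 : ℝ) ≤ n := by linarith
  rcases le_total x0 x with k | k
  · obtain ⟨q, hq, a1, a2, a3, a4⟩ := hx x k
    have := Fact.mk hq
    obtain ⟨d, rfl⟩ : ∃ d, m = d + 1 := ⟨m - 1, by omega⟩
    have q0 : (0 : ℝ) < q := Nat.cast_pos.2 hq.pos
    have P : HP q d n (d + ⌈Real.log q⌉₊) := ⟨a1, by omega, rfl, by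
      rw [← xm]
      push_cast
      have : (0 : ℝ) ≤ d := Nat.cast_nonneg _
      nlinarith [mul_le_mul_of_nonneg_right a3 this]⟩
    obtain ⟨X, hX, h1, h2⟩ := host P
    have h3 : X.card + 1 ≤ N := by
      by_contra h
      obtain ⟨D, d1, d2, d3⟩ := digraph hX h2 (N := N) (by omega)
      exact (H D d1).elim d2 d3
    have h4 : (X.card : ℝ) + 1 ≤ N := by exact_mod_cast h3
    refine le_trans ?_ (le_trans (by linarith) h4 : (q : ℝ) ^ d /
      (4 * Real.exp (d + ⌈Real.log q⌉₊ : ℕ) ^ 6) ≤ N)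
    have b1 : c * x / Real.log x ≤ q / Real.exp 6 := by
      rw [div_le_div_iff₀ (by linarith) (Real.exp_pos _)]
      have t1 := mul_le_mul_of_nonneg_left a4 (mul_pos c0 (Real.exp_pos 6)).le
      have t2 := mul_le_mul_of_nonneg_right c1 (mul_nonneg q0.le (by linarith : 0 ≤ Real.log x))
      nlinarith
    have b2 : Real.exp (d + ⌈Real.log q⌉₊ : ℕ) ^ 6 ≤ Real.exp 6 ^ (d + 1) * (q : ℝ) ^ 6 := by
      conv_rhs => rw [← Real.exp_log q0]
      rw [← Real.exp_nat_mul, ← Real.exp_nat_mul, ← Real.exp_nat_mul, ← Real.exp_add,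
        Real.exp_le_exp]
      have := Nat.ceil_lt_add_one (a := Real.log q) (by linarith)
      push_cast
      linarith
    have b3 : 4 * (q : ℝ) ^ 7 ≤ (n : ℝ) ^ 8 := by
      have : (q : ℝ) ≤ n := by nlinarith
      rw [pow_succ' (n : ℝ) 7]
      exact mul_le_mul (by linarith) (pow_le_pow_left₀ q0.le this _) (by positivity) (by positivity)
    calc _ ≤ (q / Real.exp 6) ^ (d + 1) / (4 * (q : ℝ) ^ 7) := by gcongr
      _ = (q : ℝ) ^ d / (4 * (Real.exp 6 ^ (d + 1) * (q : ℝ) ^ 6)) := by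
        rw [div_pow]
        field_simp
        ring
      _ ≤ _ := by gcongr
  · have N1 : 1 ≤ N := by
      rcases H ⊥ (fun _ h => h) with ⟨S, h, -⟩ | ⟨f, -, -⟩
      · have := card_le_univ S
        rw [Fintype.card_fin] at this
        omega
      · exact Nat.succ_le_of_lt (f ⟨0, by omega⟩).pos
    refine le_trans ((div_le_one (by positivity)).2 ((pow_le_one₀ b0 ?_).trans (one_le_pow₀ n1)))
      (Nat.one_le_cast.2 N1)
    rw [div_le_one (by linarith)]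
    nlinarith

end Pool.Agent.Work.MP_e10cd8_co.Mid
end

-- merged part: Pool.Agent.Work.MP_e10cd8_co.Mid.Fin
section
/-! The two lower bounds in one formula, and the two-sided bound from an upper bound. -/

namespace Pool.Agent.Work.MP_e10cd8_co.Mid
open Finset Real

theorem lowA : ∃ A : ℕ, ∀ n j N : ℕ, 3 ≤ n →
    (∀ G : Digraph (Fin N), (∀ v, ¬ G.Adj v v) →
      (∃ S : Finset (Fin N), S.card = n ∧ ∀ u ∈ S, ∀ v ∈ S, ¬ G.Adj u v) ∨
        ∃ f : Fin (j + 2) → Fin N, Function.Injective f ∧ ∀ i j, i < j → G.Adj (f i) (f j)) →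
    n ≤ N ∧ (n : ℝ) ^ (j + 1) / log n ^ j / ((j + 2 : ℕ) : ℝ) ^ (A * (j + 2)) ≤ N := by
  obtain ⟨A, h⟩ := Uni.lower_succ
  refine ⟨A, fun n j N h3 m2 => ?_⟩
  have m3 : n ≤ N := by
    rcases m2 ⟨fun _ _ => False⟩ fun _ h => h with ⟨T, t, -⟩ | ⟨f, -, t⟩
    · simpa [t] using card_le_univ T
    · exact (t 0 1 (by simp)).elim
  refine ⟨m3, ?_⟩
  rcases j with _ | j
  · refine le_trans ?_ (Nat.cast_le.2 m3)
    rw [pow_zero, div_one, zero_add, pow_one]
    exact div_le_self (Nat.cast_nonneg _) (one_le_pow₀ (by norm_num))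
  · by_contra k
    rw [div_div, mul_comm] at k
    obtain ⟨G, g1, g2, g3⟩ := h n j _ h3 (not_le.1 k).le
    exact (m2 G g1).elim g2 g3

theorem lowB : ∃ c : ℝ, 0 < c ∧ ∀ n j N : ℕ, 2 * (j + 2) ≤ n →
    (∀ G : Digraph (Fin N), (∀ v, ¬ G.Adj v v) →
      (∃ S : Finset (Fin N), S.card = n ∧ ∀ u ∈ S, ∀ v ∈ S, ¬ G.Adj u v) ∨
        ∃ f : Fin (j + 2) → Fin N, Function.Injective f ∧ ∀ i j, i < j → G.Adj (f i) (f j)) →
    c ^ (j + 2) * (n : ℝ) ^ (j + 1) / ((j + 2).factorial * log n ^ j) / (n : ℝ) ^ 8 ≤ N := by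
  obtain ⟨c, c0, h⟩ := lower
  refine ⟨c / exp 1, by positivity, fun n j N hn m2 => le_trans
    (div_le_div_of_nonneg_right ?_ (by positivity)) (h n _ N (by omega) hn m2)⟩
  have m0 : (2 : ℝ) ≤ (j + 2 : ℕ) := by exact_mod_cast Nat.le_add_left 2 j
  have n0 : 2 * ((j + 2 : ℕ) : ℝ) ≤ n := by exact_mod_cast hn
  have l1 : 0 < log (n / (j + 2 : ℕ)) := log_pos ((one_lt_div (by linarith)).2 (by linarith))
  have l2 : log (n / (j + 2 : ℕ)) ≤ log n := log_le_log (div_pos (by linarith) (by linarith))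
    (div_le_self (by linarith) (by linarith))
  have l3 : log n ^ 2 ≤ n := by
    have e := add_one_le_exp (log n / 2 - 1)
    have f : exp (log n / 2 - 1) ^ 2 * exp 1 ^ 2 = n := by
      rw [← mul_pow, ← exp_add, ← exp_nat_mul, sub_add_cancel, Nat.cast_ofNat,
        mul_div_cancel₀ _ two_ne_zero, exp_log (by linarith)]
    have g : 4 ≤ exp 1 ^ 2 := by nlinarith [exp_one_gt_d9]
    nlinarith [pow_le_pow_left₀ (by linarith : 0 ≤ log n / 2 - 1 + 1) e 2]
  have f0 : (0 : ℝ) < (j + 2).factorial := Nat.cast_pos.2 (Nat.factorial_pos _)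
  have f1 : ((j + 2 : ℕ) : ℝ) ^ (j + 2) ≤ exp 1 ^ (j + 2) * (j + 2).factorial := by
    rw [← div_le_iff₀ f0, exp_one_pow]
    exact pow_div_factorial_le_exp _ (Nat.cast_nonneg _) _
  generalize ((j + 2 : ℕ) : ℝ) = m at *
  have l0 := l1.trans_le l2
  calc _ = c ^ (j + 2) * n ^ (j + 1) * log n ^ 2 /
        (exp 1 ^ (j + 2) * (j + 2).factorial * log n ^ (j + 2)) := by
        rw [div_pow, pow_add (log n)]
        field_simp
    _ ≤ c ^ (j + 2) * n ^ (j + 1) * n / (m ^ (j + 2) * log (n / m) ^ (j + 2)) := by gcongr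
    _ = _ := by
        rw [div_pow, mul_pow, mul_pow, mul_assoc, ← pow_succ]

theorem sharp_of {θ : ℝ} (hθ : θ < 1) (hU : ∃ C : ℝ, 1 ≤ C ∧ ∃ n₀ : ℕ, ∀ n j N : ℕ, n₀ ≤ n →
    ((j + 2 : ℕ) : ℝ) ≤ (n : ℝ) ^ θ →
    C ^ (j + 2) * (n : ℝ) ^ (j + 1) / ((j + 2).factorial * log n ^ j) < N →
      ∀ G : Digraph (Fin N), (∀ v, ¬ G.Adj v v) →
      (∃ S : Finset (Fin N), S.card = n ∧ ∀ u ∈ S, ∀ v ∈ S, ¬ G.Adj u v) ∨
      ∃ f : Fin (j + 2) → Fin N, Function.Injective f ∧ ∀ i j, i < j → G.Adj (f i) (f j)) :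
    ∃ (A : ℕ) (c C : ℝ) (n₀ : ℕ), 0 < c ∧ ∀ n m : ℕ, n₀ ≤ n → 2 ≤ m → (m : ℝ) ≤ (n : ℝ) ^ θ →
      ∃ k : ℕ,
        IsLeast {N : ℕ | ∀ G : Digraph (Fin N), (∀ v, ¬ G.Adj v v) →
          (∃ S : Finset (Fin N), S.card = n ∧ ∀ u ∈ S, ∀ v ∈ S, ¬ G.Adj u v) ∨
            ∃ f : Fin m → Fin N, Function.Injective f ∧ ∀ i j, i < j → G.Adj (f i) (f j)} k ∧
        c ^ m * (n : ℝ) ^ (m - 1) / (m.factorial * log n ^ (m - 2)) /
            min ((m : ℝ) ^ (A * m)) ((n : ℝ) ^ 8) ≤ k ∧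
          (k : ℝ) ≤ C ^ m * (n : ℝ) ^ (m - 1) / (m.factorial * log n ^ (m - 2)) := by
  obtain ⟨A, hA⟩ := lowA
  obtain ⟨c, c0, hB⟩ := lowB
  obtain ⟨C, C1, n₀, h'⟩ := hU
  obtain ⟨n₁, h1⟩ := Filter.eventually_atTop.1 (((tendsto_rpow_atTop (sub_pos.2 hθ)).comp
    (tendsto_natCast_atTop_atTop (R := ℝ))).eventually_ge_atTop 2)
  refine ⟨A, min 1 c, 2 * C, max (max n₀ n₁) 3, lt_min one_pos c0, fun n m hn hm hmn => ?_⟩
  obtain ⟨j, rfl⟩ : ∃ j, m = j + 2 := ⟨m - 2, by omega⟩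
  rw [show j + 2 - 1 = j + 1 from rfl, show j + 2 - 2 = j from rfl]
  have h0 : n₀ ≤ n := le_of_max_le_left (le_of_max_le_left hn)
  have h3 : 3 ≤ n := le_of_max_le_right hn
  have n3 : (3 : ℝ) ≤ n := by exact_mod_cast h3
  have l0 : 0 < log n := log_pos (by linarith)
  have h2 : 2 * (j + 2) ≤ n := by
    have a := mul_le_mul (h1 n (le_of_max_le_right (le_of_max_le_left hn))) hmn
      (Nat.cast_nonneg _) (rpow_nonneg (Nat.cast_nonneg _) _)
    rw [Function.comp, ← rpow_add (by linarith), sub_add_cancel, rpow_one] at a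
    exact_mod_cast a
  set S := {N : ℕ | ∀ G : Digraph (Fin N), (∀ v, ¬ G.Adj v v) →
      (∃ S : Finset (Fin N), S.card = n ∧ ∀ u ∈ S, ∀ v ∈ S, ¬ G.Adj u v) ∨
        ∃ f : Fin (j + 2) → Fin N, Function.Injective f ∧
          ∀ i i', i < i' → G.Adj (f i) (f i')} with hS
  have m1 : ⌊C ^ (j + 2) * (n : ℝ) ^ (j + 1) / ((j + 2).factorial * log n ^ j)⌋₊ + 1 ∈ S :=
    h' n j _ h0 hmn (by exact_mod_cast Nat.lt_floor_add_one _)
  have m2 : sInf S ∈ S := Nat.sInf_mem ⟨_, m1⟩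
  obtain ⟨m3, m5⟩ := hA n j _ h3 m2
  have m4 : (n : ℝ) ≤ (sInf S : ℕ) := by exact_mod_cast m3
  have c1 : 0 ≤ min 1 c := (lt_min one_pos c0).le
  have f1 : (1 : ℝ) ≤ (j + 2).factorial := Nat.one_le_cast.2 (Nat.factorial_pos _)
  refine ⟨sInf S, ⟨m2, fun N hN => Nat.sInf_le hN⟩, ?_, ?_⟩
  · rcases min_choice (((j + 2 : ℕ) : ℝ) ^ (A * (j + 2))) ((n : ℝ) ^ 8) with e | e <;> rw [e]
    · refine le_trans (div_le_div_of_nonneg_right ?_ (by positivity)) m5
      exact div_le_div₀ (by positivity) (mul_le_of_le_one_left (by positivity)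
        (pow_le_one₀ c1 (min_le_left _ _))) (by positivity)
        (le_mul_of_one_le_left (by positivity) f1)
    · refine le_trans ?_ (hB n j _ h2 m2)
      gcongr
      exact min_le_right _ _
  · have a1 := (Nat.cast_le (α := ℝ)).2 (Nat.sInf_le m1)
    have a2 := Nat.floor_le (show 0 ≤ C ^ (j + 2) * (n : ℝ) ^ (j + 1) /
      ((j + 2).factorial * log n ^ j) by positivity)
    have a3 : (2 : ℝ) ≤ 2 ^ (j + 2) := le_self_pow₀ (by norm_num) (by omega)
    push_cast at a1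
    rw [mul_pow, mul_assoc, mul_div_assoc]
    refine le_trans ?_ (mul_le_mul_of_nonneg_right a3 (by positivity))
    linarith

/-- the lower bound of `sharp_of` contains the lower bound of `Uni.uniform` -/
theorem contains {c : ℝ} (hc : 0 < c) (A : ℕ) : ∃ B : ℕ, ∀ (m : ℕ) (x l y : ℝ), 2 ≤ m → 0 ≤ x →
    0 < l → 0 < y → x / ((m : ℝ) ^ (B * m) * l) ≤
      c ^ m * x / (m.factorial * l) / min ((m : ℝ) ^ (A * m)) y := by
  obtain ⟨e, he⟩ := pow_unbounded_of_one_lt (1 / c) (one_lt_two (α := ℝ))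
  refine ⟨e + 1 + A, fun m x l y hm hx hl hy => ?_⟩
  have m2 : (2 : ℝ) ≤ m := by exact_mod_cast hm
  have f0 : (0 : ℝ) < m.factorial := Nat.cast_pos.2 (Nat.factorial_pos _)
  have f1 : (m.factorial : ℝ) ≤ (m : ℝ) ^ m := by exact_mod_cast Nat.factorial_le_pow m
  have f2 : (1 / c) ^ m ≤ ((m : ℝ) ^ e) ^ m := pow_le_pow_left₀ (by positivity)
    (he.le.trans (pow_le_pow_left₀ zero_le_two m2 e)) m
  calc _ = x / (((m : ℝ) ^ e) ^ m * (m : ℝ) ^ m * l * (m : ℝ) ^ (A * m)) := by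
        rw [add_mul, add_mul, pow_add, pow_add, one_mul, pow_mul (m : ℝ) e, mul_right_comm]
    _ ≤ x / ((1 / c) ^ m * m.factorial * l * min ((m : ℝ) ^ (A * m)) y) := by
        have := lt_min (show 0 < (m : ℝ) ^ (A * m) by positivity) hy
        gcongr
        exact min_le_left _ _
    _ = _ := by
        rw [div_div, one_div_pow]
        field_simp

end Pool.Agent.Work.MP_e10cd8_co.Mid
end

-- merged part: Pool.Agent.Work.MP_e10cd8_co.Far.Sharp
section
/-! The two-sided bound for all `2 ≤ m ≤ n / 2`. -/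

namespace Pool.Agent.Work.MP_e10cd8_co.Far
open Finset Real

theorem sharp_log {n m : ℝ} (j : ℕ) (hm : m = (j + 2 : ℕ)) (hn : 2 * m ≤ n) :
    0 < log (n / m) ∧ log n ≤ m * log (n / m) ∧ log (n / m) ^ 2 ≤ n := by
  have m0 : 2 ≤ m := by rw [hm]; exact_mod_cast Nat.le_add_left 2 j
  have a : log 2 ≤ log (n / m) := log_le_log two_pos (by rw [le_div_iff₀ (by linarith)]; exact hn)
  have l2 : 0 < log 2 := log_pos one_lt_two
  have b : log m ≤ (m - 1) * log 2 := by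
    have c : m ≤ 2 ^ (j + 1) := by
      rw [hm]
      exact_mod_cast (Nat.lt_two_pow_self (n := j + 1))
    have d := log_le_log (by linarith) c
    rw [log_pow] at d
    refine d.trans_eq ?_
    rw [hm]
    push_cast
    ring
  have e : log (n / m) = log n - log m := log_div (by linarith) (by linarith)
  have l1 : log (n / m) ≤ log n := by linarith [log_nonneg (show 1 ≤ m by linarith)]
  refine ⟨by linarith, by nlinarith [mul_le_mul_of_nonneg_left a (show 0 ≤ m - 1 by linarith)],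
    (pow_le_pow_left₀ (by linarith) l1 2).trans ?_⟩
  have e := add_one_le_exp (log n / 2 - 1)
  have f : exp (log n / 2 - 1) ^ 2 * exp 1 ^ 2 = n := by
    rw [← mul_pow, ← exp_add, ← exp_nat_mul, sub_add_cancel, Nat.cast_ofNat,
      mul_div_cancel₀ _ two_ne_zero, exp_log (by linarith)]
  have g : 4 ≤ exp 1 ^ 2 := by nlinarith [exp_one_gt_d9]
  nlinarith [pow_le_pow_left₀ (by linarith : 0 ≤ log n / 2 - 1 + 1) e 2]

theorem sharpF : ∃ (A : ℕ) (c C : ℝ), 0 < c ∧ ∀ n m : ℕ, 2 ≤ m → 2 * m ≤ n →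
    ∃ k : ℕ,
      IsLeast {N : ℕ | ∀ G : Digraph (Fin N), (∀ v, ¬ G.Adj v v) →
        (∃ S : Finset (Fin N), S.card = n ∧ ∀ u ∈ S, ∀ v ∈ S, ¬ G.Adj u v) ∨
          ∃ f : Fin m → Fin N, Function.Injective f ∧ ∀ i j, i < j → G.Adj (f i) (f j)} k ∧
      c ^ m * (n : ℝ) ^ (m - 1) / (m.factorial * log (n / m) ^ (m - 2)) /
          min ((m : ℝ) ^ (A * m)) ((n : ℝ) ^ 8) ≤ k ∧
        (k : ℝ) ≤ C ^ m * (n : ℝ) ^ (m - 1) / (m.factorial * log (n / m) ^ (m - 2)) := by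
  obtain ⟨A, hA⟩ := Mid.lowA
  obtain ⟨c, c0, hB⟩ := Mid.lower
  obtain ⟨C, C1, h'⟩ := upperF
  refine ⟨A + 1, min 1 (c / exp 1), 2 * C, lt_min one_pos (by positivity), fun n m hm h2 => ?_⟩
  obtain ⟨j, rfl⟩ : ∃ j, m = j + 2 := ⟨m - 2, by omega⟩
  rw [show j + 2 - 1 = j + 1 from rfl, show j + 2 - 2 = j from rfl]
  have h3 : 3 ≤ n := by omega
  have n3 : (3 : ℝ) ≤ n := by exact_mod_cast h3
  have l0 : 0 < log n := log_pos (by linarith)
  obtain ⟨l1, l2, l3⟩ := sharp_log (n := n) j rfl (by exact_mod_cast h2)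
  set S := {N : ℕ | ∀ G : Digraph (Fin N), (∀ v, ¬ G.Adj v v) →
      (∃ S : Finset (Fin N), S.card = n ∧ ∀ u ∈ S, ∀ v ∈ S, ¬ G.Adj u v) ∨
        ∃ f : Fin (j + 2) → Fin N, Function.Injective f ∧
          ∀ i i', i < i' → G.Adj (f i) (f i')} with hS
  have m1 : ⌊C ^ (j + 2) * (n : ℝ) ^ (j + 1) /
      ((j + 2).factorial * log (n / (j + 2 : ℕ)) ^ j)⌋₊ + 1 ∈ S :=
    h' n j _ h2 (by exact_mod_cast Nat.lt_floor_add_one _)
  have m2 : sInf S ∈ S := Nat.sInf_mem ⟨_, m1⟩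
  obtain ⟨m3, m5⟩ := hA n j _ h3 m2
  have m6 := hB n _ _ hm h2 m2
  have m4 : (n : ℝ) ≤ (sInf S : ℕ) := by exact_mod_cast m3
  have c1 : 0 ≤ min 1 (c / exp 1) := (lt_min one_pos (by positivity)).le
  have f0 : (0 : ℝ) < (j + 2).factorial := Nat.cast_pos.2 (Nat.factorial_pos _)
  have f1 : (1 : ℝ) ≤ (j + 2).factorial := Nat.one_le_cast.2 (Nat.factorial_pos _)
  have f2 : ((j + 2 : ℕ) : ℝ) ^ (j + 2) ≤ exp 1 ^ (j + 2) * (j + 2).factorial := by
    rw [← div_le_iff₀ f0, exp_one_pow]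
    exact pow_div_factorial_le_exp _ (Nat.cast_nonneg _) _
  have m0 : (2 : ℝ) ≤ (j + 2 : ℕ) := by exact_mod_cast hm
  refine ⟨sInf S, ⟨m2, fun N hN => Nat.sInf_le hN⟩, ?_, ?_⟩
  · generalize ((j + 2 : ℕ) : ℝ) = m at *
    have m7 : 0 < m := by linarith
    rcases min_choice (m ^ ((A + 1) * (j + 2))) ((n : ℝ) ^ 8) with e | e <;> rw [e]
    · refine le_trans ?_ m5
      have a : log n ^ j ≤ log (n / m) ^ j * m ^ (j + 2) := by
        refine (pow_le_pow_left₀ l0.le l2 j).trans ?_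
        rw [mul_pow, mul_comm]
        exact mul_le_mul_of_nonneg_left (pow_le_pow_right₀ (by linarith) (by omega))
          (by positivity)
      calc _ ≤ 1 * (n : ℝ) ^ (j + 1) / (1 * log (n / m) ^ j) / m ^ ((A + 1) * (j + 2)) := by
            gcongr
            exact pow_le_one₀ c1 (min_le_left _ _)
        _ = (n : ℝ) ^ (j + 1) / (log (n / m) ^ j * m ^ (j + 2)) / m ^ (A * (j + 2)) := by
            rw [add_mul, one_mul (j + 2), pow_add m (A * (j + 2))]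
            field_simp
        _ ≤ _ := by gcongr
    · refine le_trans (div_le_div_of_nonneg_right ?_ (by positivity)) m6
      calc _ ≤ (c / exp 1) ^ (j + 2) * (n : ℝ) ^ (j + 1) /
            ((j + 2).factorial * log (n / m) ^ j) := by
            gcongr
            exact min_le_right _ _
        _ = c ^ (j + 2) * n ^ (j + 1) * log (n / m) ^ 2 /
            (exp 1 ^ (j + 2) * (j + 2).factorial * log (n / m) ^ (j + 2)) := by
            rw [div_pow, pow_add (log (n / m))]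
            field_simp
        _ ≤ c ^ (j + 2) * n ^ (j + 1) * n / (m ^ (j + 2) * log (n / m) ^ (j + 2)) := by gcongr
        _ = _ := by rw [div_pow, mul_pow, mul_pow, mul_assoc, ← pow_succ]
  · have a1 := (Nat.cast_le (α := ℝ)).2 (Nat.sInf_le m1)
    have a2 := Nat.floor_le (show 0 ≤ C ^ (j + 2) * (n : ℝ) ^ (j + 1) /
      ((j + 2).factorial * log (n / (j + 2 : ℕ)) ^ j) by positivity)
    have a3 : (2 : ℝ) ≤ 2 ^ (j + 2) := le_self_pow₀ (by norm_num) (by omega)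
    rw [Nat.cast_succ] at a1
    rw [mul_pow, mul_assoc, mul_div_assoc]
    refine le_trans ?_ (mul_le_mul_of_nonneg_right a3 (by positivity))
    linarith

end Pool.Agent.Work.MP_e10cd8_co.Far
end

-- merged part: Pool.Agent.Work.MP_e10cd8_co.Far.All
section
/-! The two-sided bound for all `n ≥ 1` and `m ≥ 2`. -/

namespace Pool.Agent.Work.MP_e10cd8_co.Far
open Finset Real Pool.Agent.Work.MP_e10cd8_co.Upper

theorem all_es (n j : ℕ) (G : Digraph (Fin (3 ^ (n + (j + 1))))) (hG : ∀ v, ¬ G.Adj v v) :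
    (∃ S : Finset (Fin (3 ^ (n + (j + 1)))), S.card = n ∧ ∀ u ∈ S, ∀ v ∈ S, ¬ G.Adj u v) ∨
      ∃ f : Fin (j + 2) → Fin (3 ^ (n + (j + 1))), Function.Injective f ∧
        ∀ i j, i < j → G.Adj (f i) (f j) := by
  by_contra k
  rw [not_or] at k
  have a := main_es G.Adj hG (α := 3) (β := 3) (by norm_num) (by norm_num) (by norm_num) _ n (j + 1)
    univ rfl (fun S _ hS => by
      by_contra c
      obtain ⟨S', s1, s2⟩ := exists_subset_card_eq (s := S) (n := n) (not_le.1 c).le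
      exact k.1 ⟨S', s2, fun u hu v hv => hS u (s1 hu) v (s1 hv)⟩)
    fun ⟨f, _, hf⟩ => k.2 ⟨f, fun a b e => by
      by_contra c
      rcases lt_or_gt_of_ne c with t | t
      · exact hG _ (e ▸ hf a b t)
      · exact hG _ (e ▸ hf b a t), hf⟩
  rw [card_univ, Fintype.card_fin, ← pow_add] at a
  push_cast at a
  linarith

theorem sharpAll : ∃ (A : ℕ) (c C : ℝ), 0 < c ∧ ∀ n m : ℕ, 1 ≤ n → 2 ≤ m →
    ∃ k : ℕ,
      IsLeast {N : ℕ | ∀ G : Digraph (Fin N), (∀ v, ¬ G.Adj v v) →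
        (∃ S : Finset (Fin N), S.card = n ∧ ∀ u ∈ S, ∀ v ∈ S, ¬ G.Adj u v) ∨
          ∃ f : Fin m → Fin N, Function.Injective f ∧ ∀ i j, i < j → G.Adj (f i) (f j)} k ∧
      c ^ m * ((n + m - 2).choose (m - 1) : ℝ) / log (2 + n / m) ^ (m - 2) /
          min ((m : ℝ) ^ (A * m)) ((n : ℝ) ^ 8) ≤ k ∧
        (k : ℝ) ≤ C ^ m * ((n + m - 2).choose (m - 1) : ℝ) / log (2 + n / m) ^ (m - 2) := by
  obtain ⟨A, c, C, c0, h⟩ := sharpF
  refine ⟨A, min (c / 4) (1 / 16), max (2 * |C|) 54, lt_min (by positivity) (by norm_num),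
    fun n m hn hm => ?_⟩
  obtain ⟨j, rfl⟩ : ∃ j, m = j + 2 := ⟨m - 2, by omega⟩
  rw [show j + 2 - 1 = j + 1 from rfl, show j + 2 - 2 = j from rfl,
    show n + (j + 2) - 2 = n + j from rfl]
  have m0 : (2 : ℝ) ≤ (j + 2 : ℕ) := by exact_mod_cast hm
  have n1 : (1 : ℝ) ≤ n := by exact_mod_cast hn
  have x0 : (0 : ℝ) < n / (j + 2 : ℕ) := by positivity
  have l2 : 1 / 2 ≤ log (2 + n / (j + 2 : ℕ)) :=
    le_trans (by linarith [log_two_gt_d9]) (log_le_log two_pos (by linarith))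
  have c1 : 0 ≤ min (c / 4) (1 / 16) := (lt_min (by positivity) (by norm_num)).le
  have y1 : 1 ≤ min (((j + 2 : ℕ) : ℝ) ^ (A * (j + 2))) ((n : ℝ) ^ 8) :=
    le_min (one_le_pow₀ (by linarith)) (one_le_pow₀ n1)
  rcases le_or_gt (2 * (j + 2)) n with h2 | h2
  · obtain ⟨k, k1, k2, k3⟩ := h n _ hm h2
    rw [show j + 2 - 1 = j + 1 from rfl, show j + 2 - 2 = j from rfl] at k2 k3
    have n2 : 2 * ((j + 2 : ℕ) : ℝ) ≤ n := by exact_mod_cast h2
    have x2 : (2 : ℝ) ≤ n / (j + 2 : ℕ) := by rw [le_div_iff₀ (by linarith)]; exact n2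
    have f0 : (0 : ℝ) < (j + 1).factorial := Nat.cast_pos.2 (Nat.factorial_pos _)
    have f1 : ((j + 2).factorial : ℝ) = (j + 2 : ℕ) * (j + 1).factorial := by
      rw [Nat.factorial_succ (j + 1)]
      push_cast
      ring
    have f2 : ((j + 2 : ℕ) : ℝ) ≤ 2 ^ (j + 2) := by
      exact_mod_cast (Nat.lt_two_pow_self (n := j + 2)).le
    have b1 : (n : ℝ) ^ (j + 1) / (j + 1).factorial ≤ (n + j).choose (j + 1) := by
      have := Nat.pow_le_choose (α := ℝ) (j + 1) (n + j)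
      rwa [show n + j + 1 - (j + 1) = n by omega] at this
    have b2 : ((n + j).choose (j + 1) : ℝ) ≤ 2 ^ (j + 2) * ((n : ℝ) ^ (j + 1) / (j + 1).factorial) := by
      refine (Nat.choose_le_pow_div (j + 1) (n + j)).trans ?_
      have e : ((n + j : ℕ) : ℝ) ≤ 2 * n := by exact_mod_cast (by omega : n + j ≤ 2 * n)
      rw [← mul_div_assoc]
      refine div_le_div_of_nonneg_right ((pow_le_pow_left₀ (by positivity) e _).trans ?_) f0.le
      rw [mul_pow]
      exact mul_le_mul_of_nonneg_right (pow_le_pow_right₀ one_le_two (by omega)) (by positivity)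
    rw [f1] at k2 k3
    generalize ((j + 2 : ℕ) : ℝ) = m at *
    generalize (n : ℝ) / m = x at *
    have m1 : 0 < m := by linarith
    have l0 : 0 < log x := log_pos (by linarith)
    have l1 : log x ≤ log (2 + x) := log_le_log x0 (by linarith)
    have l3 : log (2 + x) ≤ 2 * log x := by
      have := log_le_log (by linarith) (show 2 + x ≤ x ^ 2 by nlinarith)
      rwa [log_pow, Nat.cast_ofNat] at this
    refine ⟨k, k1, le_trans (div_le_div_of_nonneg_right ?_ (by linarith)) k2, k3.trans ?_⟩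
    · calc _ ≤ (c / 4) ^ (j + 2) * (2 ^ (j + 2) * ((n : ℝ) ^ (j + 1) / (j + 1).factorial)) /
            log x ^ j := by
            gcongr
            exact min_le_left _ _
        _ = c ^ (j + 2) * (n : ℝ) ^ (j + 1) / (2 ^ (j + 2) * (j + 1).factorial * log x ^ j) := by
            rw [div_pow, show (4 : ℝ) = 2 * 2 by norm_num, mul_pow]
            field_simp
        _ ≤ _ := by gcongr
    · have l4 : log (2 + x) ^ j ≤ 2 ^ (j + 2) * log x ^ j := by
        refine (pow_le_pow_left₀ (by linarith) l3 j).trans ?_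
        rw [mul_pow]
        exact mul_le_mul_of_nonneg_right (pow_le_pow_right₀ one_le_two (by omega)) (by positivity)
      have l5 : 0 < log (2 + x) := by linarith
      calc _ ≤ |C| ^ (j + 2) * (n : ℝ) ^ (j + 1) / (1 * (j + 1).factorial * log x ^ j) := by
            refine div_le_div₀ (by positivity) (mul_le_mul_of_nonneg_right ?_ (by positivity))
              (by positivity) (by gcongr; linarith)
            rw [← abs_pow]
            exact le_abs_self _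
        _ = (2 * |C|) ^ (j + 2) * ((n : ℝ) ^ (j + 1) / (j + 1).factorial) /
            (2 ^ (j + 2) * log x ^ j) := by
            rw [mul_pow]
            field_simp
        _ ≤ _ := by
            gcongr
            exact le_max_left _ _
  · set S := {N : ℕ | ∀ G : Digraph (Fin N), (∀ v, ¬ G.Adj v v) →
      (∃ S : Finset (Fin N), S.card = n ∧ ∀ u ∈ S, ∀ v ∈ S, ¬ G.Adj u v) ∨
        ∃ f : Fin (j + 2) → Fin N, Function.Injective f ∧
          ∀ i i', i < i' → G.Adj (f i) (f i')} with hS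
    have m1 : 3 ^ (n + (j + 1)) ∈ S := all_es n j
    have m2 : sInf S ∈ S := Nat.sInf_mem ⟨_, m1⟩
    have m3 : n ≤ sInf S := by
      rcases m2 ⟨fun _ _ => False⟩ fun _ h => h with ⟨T, t, -⟩ | ⟨f, -, t⟩
      · simpa [t] using card_le_univ T
      · exact (t 0 1 (by simp)).elim
    have m4 : (n : ℝ) ≤ (sInf S : ℕ) := by exact_mod_cast m3
    have m5 : ((sInf S : ℕ) : ℝ) ≤ 27 ^ (j + 2) := by
      have a : sInf S ≤ (3 ^ 3) ^ (j + 2) := by
        rw [← pow_mul]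
        exact (Nat.sInf_le m1).trans (Nat.pow_le_pow_right (by norm_num) (by omega))
      exact_mod_cast a
    have b1 : (1 : ℝ) ≤ (n + j).choose (j + 1) := by
      exact_mod_cast Nat.choose_pos (by omega : j + 1 ≤ n + j)
    have b2 : ((n + j).choose (j + 1) : ℝ) ≤ 8 ^ (j + 2) := by
      have a : (n + j).choose (j + 1) ≤ (2 ^ 3) ^ (j + 2) := by
        rw [← pow_mul]
        exact (Nat.choose_le_two_pow _ _).trans (Nat.pow_le_pow_right (by norm_num) (by omega))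
      exact_mod_cast a
    have x2 : (n : ℝ) / (j + 2 : ℕ) ≤ 1 + 1 := by
      rw [div_le_iff₀ (by linarith)]
      exact_mod_cast (by omega : n ≤ (1 + 1) * (j + 2))
    generalize (n : ℝ) / (j + 2 : ℕ) = x at *
    have l3 : log (2 + x) ≤ 2 := by
      have := log_le_log (by linarith) (show 2 + x ≤ 2 ^ 2 by linarith)
      rw [log_pow, Nat.cast_ofNat] at this
      linarith [log_two_lt_d9]
    have l5 : 0 < log (2 + x) := by linarith
    refine ⟨sInf S, ⟨m2, fun N hN => Nat.sInf_le hN⟩,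
      (div_le_self (by positivity) y1).trans (le_trans ?_ (n1.trans m4)), m5.trans ?_⟩
    · calc _ ≤ (1 / 16 : ℝ) ^ (j + 2) * 8 ^ (j + 2) / (1 / 2) ^ j := by
            gcongr
            exact min_le_right _ _
        _ ≤ _ := by
            rw [← mul_pow, div_le_one (by positivity), show (1 / 16 * 8 : ℝ) = 1 / 2 by norm_num]
            exact pow_le_pow_of_le_one (by norm_num) (by norm_num) (by omega)
    · calc (27 : ℝ) ^ (j + 2) = 54 ^ (j + 2) * 1 / 2 ^ (j + 2) := by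
            rw [mul_one, ← div_pow]; norm_num
        _ ≤ _ := by
            refine div_le_div₀ (by positivity) (by gcongr; exact le_max_right _ _) (by positivity)
              ((pow_le_pow_left₀ l5.le l3 j).trans (pow_le_pow_right₀ one_le_two (by omega)))

end Pool.Agent.Work.MP_e10cd8_co.Far
end
end

-- merged part: Pool.Agent.Work.MP_e10cd8_co.Gap.TopN
section
/-! From the sampled flag digraph to the two-sided bound without loss. -/

namespace Pool.Agent.Work.MP_e10cd8_co.Gap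

open Finset Four All Uni Real

theorem top_pow {a L : ℝ} (i : ℕ) (L0 : 0 ≤ L) (h : a * (i + 1).factorial ≤ L) :
    a * L ^ i ≤ exp L := by
  have f : (0 : ℝ) < (i + 1).factorial := Nat.cast_pos.2 (Nat.factorial_pos _)
  refine le_trans ?_ (pow_div_factorial_le_exp L L0 (i + 1))
  rw [le_div_iff₀ f, pow_succ]
  calc a * L ^ i * (i + 1).factorial = L ^ i * (a * (i + 1).factorial) := by ring
    _ ≤ _ := by gcongr

theorem top_num {H : ℝ} (H1 : 1 ≤ H) {n j q : ℕ} (L2 : ((j + 3 : ℕ) : ℝ) ^ 2 ≤ n)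
    (L1 : 1 ≤ log n) (q0 : 1 ≤ q) (h : (n : ℝ) ≤ 5 * (H ^ 6 * (j + 2 : ℕ)) * q * log n) :
    (1 / (180 * H ^ 16)) ^ (j + 3) * ((n + (j + 1)).choose (j + 2) : ℝ) /
        log (2 + n / (j + 3 : ℕ)) ^ (j + 1) ≤
      n * (q : ℝ) ^ (j + 2) / (q * H ^ 10 * exp (j + 2 : ℕ)) := by
  have m3 : (3 : ℝ) ≤ (j + 3 : ℕ) := by exact_mod_cast (by omega : 3 ≤ j + 3)
  have t2 : (2 : ℝ) ≤ (j + 2 : ℕ) := by exact_mod_cast (by omega : 2 ≤ j + 2)
  have n0 : (0 : ℝ) < n := lt_of_lt_of_le (by positivity) L2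
  have q1 : (1 : ℝ) ≤ q := by exact_mod_cast q0
  have l1 : log n / 2 ≤ log (2 + n / (j + 3 : ℕ)) := by
    have a := log_le_log (by positivity) L2
    rw [log_pow, Nat.cast_ofNat] at a
    have b : log (n / (j + 3 : ℕ)) ≤ log (2 + n / (j + 3 : ℕ)) :=
      log_le_log (by positivity) (by linarith)
    rw [log_div n0.ne' (by positivity)] at b
    linarith
  have e3 : exp (j + 2 : ℕ) ≤ 3 ^ (j + 2) := by
    rw [← exp_one_pow]
    exact pow_le_pow_left₀ (exp_pos _).le (by linarith [exp_one_lt_d9]) _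
  have f0 : (0 : ℝ) < (j + 2).factorial := Nat.cast_pos.2 (Nat.factorial_pos _)
  have c1 : ((n + (j + 1)).choose (j + 2) : ℝ) ≤
      (6 * n) ^ (j + 2) / ((j + 2 : ℕ) : ℝ) ^ (j + 1) := by
    refine (Nat.choose_le_pow_div (j + 2) (n + (j + 1))).trans ?_
    have a : ((n + (j + 1) : ℕ) : ℝ) ≤ 2 * n := by
      have : ((j + 3 : ℕ) : ℝ) ≤ n := le_trans (le_self_pow₀ (by linarith) two_ne_zero) L2
      push_cast at this ⊢
      linarith
    have b := (pow_div_factorial_le_exp ((j + 2 : ℕ) : ℝ) (by linarith) (j + 2)).trans e3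
    have d : ((j + 2 : ℕ) : ℝ) ^ (j + 1) ≤ ((j + 2 : ℕ) : ℝ) ^ (j + 2) :=
      pow_le_pow_right₀ (by linarith) (by omega)
    rw [div_le_iff₀ f0] at b
    rw [div_le_div_iff₀ f0 (by positivity)]
    calc _ ≤ (2 * n : ℝ) ^ (j + 2) * (3 ^ (j + 2) * (j + 2).factorial) := by
          gcongr
          exact d.trans b
      _ = _ := by rw [← mul_assoc, ← mul_pow]; congr 2; ring
  generalize ((n + (j + 1)).choose (j + 2) : ℝ) = B at *
  generalize log (2 + n / (j + 3 : ℕ)) = l at *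
  generalize ((j + 2 : ℕ) : ℝ) = t at *
  generalize log (n : ℝ) = L at *
  have H0 : 0 < H := by linarith
  have t0 : 0 < t := by linarith
  have L0 : 0 < L := by linarith
  have w : 6 ^ (j + 2) * 2 ^ (j + 1) * (5 * H ^ 6) ^ (j + 1) * (H ^ 10 * 3 ^ (j + 2)) ≤
      (180 * H ^ 16) ^ (j + 3) := by
    have h6 : 1 ≤ H ^ 6 := one_le_pow₀ H1
    have h10 : 1 ≤ H ^ 10 := one_le_pow₀ H1
    calc _ ≤ 6 ^ (j + 3) * 2 ^ (j + 3) * (5 * H ^ 6) ^ (j + 3) *
          ((H ^ 10) ^ (j + 3) * 3 ^ (j + 3)) := by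
          have a1 : H ^ 10 ≤ (H ^ 10) ^ (j + 3) := le_self_pow₀ h10 (by omega)
          gcongr <;> first | omega | linarith
      _ = _ := by simp only [← mul_pow]; congr 1; ring
  have q2 : n / (5 * (H ^ 6 * t) * L) ≤ q := by
    rw [div_le_iff₀ (by positivity)]
    linarith
  calc _ ≤ (1 / (180 * H ^ 16)) ^ (j + 3) * ((6 * n) ^ (j + 2) / t ^ (j + 1)) /
        (L / 2) ^ (j + 1) := by gcongr
    _ = (6 ^ (j + 2) * 2 ^ (j + 1) * (5 * H ^ 6) ^ (j + 1) * (H ^ 10 * 3 ^ (j + 2)) /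
          (180 * H ^ 16) ^ (j + 3)) *
        (n * (n / (5 * (H ^ 6 * t) * L)) ^ (j + 1) / (H ^ 10 * 3 ^ (j + 2))) := by
        simp only [div_pow, mul_pow, one_pow]
        field_simp
        ring
    _ ≤ 1 * (n * (q : ℝ) ^ (j + 1) / (H ^ 10 * exp t)) := by
        gcongr
        exact (div_le_one (by positivity)).2 w
    _ = _ := by
        rw [pow_succ (q : ℝ) (j + 1)]
        field_simp

theorem top_of {H : ℕ} (H7 : 10 ^ 7 ≤ H) (host : ∀ q j D k : ℕ, q.Prime → 1000 ≤ q →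
    ((j + 2 : ℕ) : ℝ) ≤ log q → 10 ^ 7 * log q ^ 6 ≤ q → (D : ℝ) ^ 2 ≤ log q →
    1000 * (H : ℝ) ^ 3 * log (log q) ≤ D → (H : ℝ) ^ 6 * (j + 2 : ℕ) * q * log q ≤ k →
    (k : ℝ) ≤ 5 * ((H : ℝ) ^ 6 * (j + 2 : ℕ)) * q * log q →
    ∃ (Pt : Type) (_ : Fintype Pt) (_ : DecidableEq Pt) (G : GP q (j + 2) Pt), ∃ X ⊆ G.flags,
      (k : ℝ) * (q : ℝ) ^ (j + 2) / (q * (H : ℝ) ^ 10 * exp (j + 2 : ℕ)) - 1 ≤ X.card ∧
        ∀ I ⊆ X, G.indep I → I.card ≠ k) :
    ∃ c C : ℝ, 0 < c ∧ ∀ n m : ℕ, 1 ≤ n → 2 ≤ m → ∃ k : ℕ,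
      IsLeast {N : ℕ | ∀ G : Digraph (Fin N), (∀ v, ¬ G.Adj v v) →
        (∃ S : Finset (Fin N), S.card = n ∧ ∀ u ∈ S, ∀ v ∈ S, ¬ G.Adj u v) ∨
          ∃ f : Fin m → Fin N, Function.Injective f ∧ ∀ i j, i < j → G.Adj (f i) (f j)} k ∧
      c ^ m * ((n + m - 2).choose (m - 1) : ℝ) / log (2 + n / m) ^ (m - 2) ≤ k ∧
        (k : ℝ) ≤ C ^ m * ((n + m - 2).choose (m - 1) : ℝ) / log (2 + n / m) ^ (m - 2) := by
  obtain ⟨A, c, C, c0, h⟩ := Far.sharpAll
  have H1 : (10 : ℝ) ^ 7 ≤ H := by exact_mod_cast H7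
  have H2 : (1 : ℝ) ≤ H := by linarith
  obtain ⟨M, hM⟩ : ∃ M : ℝ, M = 10 ^ 11 * (H : ℝ) ^ 30 := ⟨_, rfl⟩
  have M1 : 10 ^ 11 ≤ M := hM ▸ le_mul_of_one_le_right (by norm_num) (one_le_pow₀ H2)
  obtain ⟨Y, hY⟩ : ∃ Y : ℝ, Y = 2 ^ A * exp (8 * M) := ⟨_, rfl⟩
  have y1 : 1 ≤ exp (8 * M) := one_le_exp (by linarith)
  have y2 : (1 : ℝ) ≤ 2 ^ A := one_le_pow₀ one_le_two
  have y3 : 2 ^ A ≤ Y := hY ▸ le_mul_of_one_le_right (by linarith) y1
  have y4 : exp (8 * M) ≤ Y := hY ▸ le_mul_of_one_le_left (by linarith) y2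
  have y0 : 0 < Y := by linarith
  have c1 : 0 < min (c / Y) (1 / (180 * (H : ℝ) ^ 16)) := lt_min (by positivity) (by positivity)
  refine ⟨_, C, c1, fun n m hn hm => ?_⟩
  obtain ⟨k, k1, k2, k3⟩ := h n m hn hm
  refine ⟨k, k1, ?_, k3⟩
  have n1 : (1 : ℝ) ≤ n := by exact_mod_cast hn
  have m2 : (2 : ℝ) ≤ m := by exact_mod_cast hm
  have l1 : (0 : ℝ) ≤ n / m := by positivity
  have l0 : 0 < log (2 + n / m) := log_pos (by linarith)
  by_cases z : min ((m : ℝ) ^ (A * m)) ((n : ℝ) ^ 8) ≤ Y ^ m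
  · refine le_trans ?_ k2
    calc _ ≤ (c / Y) ^ m * ((n + m - 2).choose (m - 1) : ℝ) / log (2 + n / m) ^ (m - 2) := by
          gcongr
          exact min_le_left _ _
      _ = c ^ m * ((n + m - 2).choose (m - 1) : ℝ) / log (2 + n / m) ^ (m - 2) / Y ^ m := by
          rw [div_pow]
          ring
      _ ≤ _ := div_le_div_of_nonneg_left (by positivity) (lt_min (by positivity) (by positivity)) z
  obtain ⟨z1, z2⟩ := lt_min_iff.1 (not_le.1 z)
  obtain ⟨j, rfl⟩ : ∃ j, m = j + 3 := by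
    refine ⟨m - 3, ?_⟩
    by_contra e
    obtain rfl : m = 2 := by omega
    rw [pow_mul, Nat.cast_ofNat] at z1
    exact z1.not_ge (pow_le_pow_left₀ (by linarith) y3 2)
  rw [show j + 3 - 1 = j + 2 from rfl, show j + 3 - 2 = j + 1 from rfl,
    show n + (j + 3) - 2 = n + (j + 1) from rfl]
  have t2 : (2 : ℝ) ≤ (j + 2 : ℕ) := by exact_mod_cast (by omega : 2 ≤ j + 2)
  have t3 : ((j + 3 : ℕ) : ℝ) = (j + 2 : ℕ) + 1 := by push_cast; ring
  have g1 : M * (j + 3 : ℕ) ≤ log n := by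
    have a := (pow_le_pow_left₀ (exp_pos _).le y4 (j + 3)).trans z2.le
    rw [← exp_nat_mul, ← le_log_iff_exp_le (by positivity), log_pow, Nat.cast_ofNat] at a
    linarith
  have g2 : 3 * M ≤ log n := by nlinarith
  have g3 : 2 * ((j + 3 : ℕ) : ℝ) ≤ log n := by nlinarith
  have H6 : (10 : ℝ) ^ 7 ≤ (H : ℝ) ^ 6 := H1.trans (le_self_pow₀ H2 (by norm_num))
  have g4 : (4 * ((H : ℝ) ^ 6 * (j + 2 : ℕ)) * log n) ^ 5 ≤ n := by
    have a := top_pow (a := 4 ^ 5 * (H : ℝ) ^ 30) (L := log n) 10 (by linarith) (by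
      have : 0 ≤ (H : ℝ) ^ 30 := by positivity
      norm_num [Nat.factorial]
      linarith)
    rw [exp_log (by linarith)] at a
    refine le_trans ?_ a
    calc _ ≤ (4 * ((H : ℝ) ^ 6 * log n) * log n) ^ 5 := by gcongr <;> linarith
      _ = _ := by ring
  obtain ⟨q, a1, a2, a3, a4, a5, a6, a7, a8⟩ :=
    prime_pick ((H : ℝ) ^ 6 * (j + 2 : ℕ)) (by nlinarith) n (by linarith) g4
  have K1 : 2 * ((j + 2 : ℕ) : ℝ) ≤ (H : ℝ) ^ 6 * (j + 2 : ℕ) := by nlinarith
  have K2 : 1000 ≤ (H : ℝ) ^ 6 * (j + 2 : ℕ) := by nlinarith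
  have q1 : (1000 : ℝ) ≤ q := (K2.trans (le_self_pow₀ (by linarith) two_ne_zero)).trans a2
  have H3 : (1 : ℝ) ≤ (H : ℝ) ^ 3 := one_le_pow₀ H2
  obtain ⟨D, d1, d2⟩ := D_ex (a := 1000 * (H : ℝ) ^ 3) (L := log q) (by linarith) (by
    have b1 : (H : ℝ) ^ 12 * H ≤ (H : ℝ) ^ 30 := by
      rw [← pow_succ]
      exact pow_le_pow_right₀ H2 (by norm_num)
    have b2 := mul_le_mul_of_nonneg_left H1 (by positivity : 0 ≤ (H : ℝ) ^ 12)
    have b3 : 0 ≤ (H : ℝ) ^ 12 := by positivity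
    linarith)
  have q2 : 10 ^ 7 * log q ^ 6 ≤ q := by
    have a := top_pow (a := 10 ^ 7) (L := log q) 6 (by linarith) (by
      norm_num [Nat.factorial]
      linarith)
    rwa [exp_log (by linarith)] at a
  obtain ⟨Pt, i1, i2, G, X, x1, x2, x3⟩ :=
    host q j D n a1 (by exact_mod_cast q1) (by linarith) q2 d1 d2 a5 a7
  have x4 : X.card + 1 ≤ k := by
    by_contra e
    obtain ⟨G', g1, g2, g3⟩ := G.digraph x1 x3 (N := k) (by omega)
    exact (k1.1 G' g1).elim g2 g3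
  have x5 : (X.card : ℝ) + 1 ≤ k := by exact_mod_cast x4
  have x6 := top_num H2 (n := n) (j := j) (q := q)
    ((pow_le_pow_left₀ (by linarith) (by linarith) 2).trans a8) (by linarith) a1.one_le a6
  refine le_trans ?_ (x6.trans (by linarith))
  gcongr
  exact min_le_right _ _

end Pool.Agent.Work.MP_e10cd8_co.Gap
end
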