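import Pool.Agent.Work.MP_e10cd8_co.Gap.Core
import Pool.Agent.Work.MP_e10cd8_co.Gap.TopN

-- merged part: Pool.Agent.Work.MP_e10cd8_co.Gap.Step
section
/-! The recursion. -/

namespace Pool.Agent.Work.MP_e10cd8_co.Gap

open Finset Four All Uni

variable {q t s r : ℕ} {Pt Pt' : Type} [Fintype Pt] [DecidableEq Pt] [Fintype Pt'] [DecidableEq Pt']

/-- union of the families of `boost` over `U ∈ F0` (`Boost_bi`) -/
theorem boost_all (G : GP q t Pt) (hq : 1000 ≤ q) (F0 : Finset (Finset Pt)) {A0 W : ℝ}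
    (hA : (F0.card : ℝ) ≤ Real.exp A0) (hW : 1 ≤ W) :
    ∃ F : Finset (Finset Pt),
      (F.card : ℝ) ≤ Real.exp (A0 + 300 * (t + 1) * q * Real.log q * (1 + Real.log W)) ∧
      ∀ U ∈ F0, ∀ X ⊆ U, X.Nonempty → (U.card : ℝ) ≤ W * X.card →
        ∃ Y ∈ F, G.low (1 / 8) X ⊆ Y ∧ (Y.card : ℝ) * X.card ≤ 4 * (q : ℝ) ^ (t + 1) := by
  choose B b1 b2 using fun U => G.boost hq U hW
  refine ⟨F0.biUnion B, ?_, fun U hU X h1 h2 h3 => ?_⟩
  · rw [Real.exp_add]
    exact GP.Boost_bi _ _ _ _ (Real.exp_pos _).le hA fun U _ => b1 U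
  · obtain ⟨Y, y1, y2⟩ := b2 U X h1 h2 h3
    exact ⟨Y, mem_biUnion.2 ⟨U, hU, y1⟩, y2⟩

theorem step_half (G : GP q t Pt) {P Z Y : Finset Pt} {K : ℝ} (hK : 0 ≤ K)
    (hZ : Z ⊆ G.low (1 / 16) P) (hne : Z.Nonempty) (hY : G.low (1 / 8) Z ⊆ Y)
    (h1 : (Y.card : ℝ) * Z.card ≤ 4 * (q : ℝ) ^ (t + 1))
    (h2 : (q : ℝ) ^ (t + 1) ≤ Z.card * P.card * K) :
    (P.card : ℝ) ≤ 2 * (P ∩ Y).card ∧ (Y.card : ℝ) ≤ 8 * K * (P ∩ Y).card := by
  have a1 := G.half_low (by norm_num) hZ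
  rw [show (2 : ℝ) * (1 / 16) = 1 / 8 by norm_num] at a1
  have a2 : P.card ≤ 2 * (P ∩ Y).card :=
    a1.trans (Nat.mul_le_mul_left _ (card_le_card (inter_subset_inter_left hY)))
  have a3 : (P.card : ℝ) ≤ 2 * (P ∩ Y).card := by exact_mod_cast a2
  have z0 : (0 : ℝ) < Z.card := Nat.cast_pos.2 hne.card_pos
  refine ⟨a3, le_of_mul_le_mul_right ?_ z0⟩
  have a4 := mul_le_mul_of_nonneg_left a3 (mul_nonneg z0.le hK)
  linarith

theorem step_markov (G : GP q t Pt) {x δ : ℝ} (hx : 0 < x) (hδ : 0 < δ) (hδ1 : δ ≤ 1)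
    {P S : Finset Pt} (hS : S ⊆ G.low x P) (hne : S.Nonempty) :
    δ * P.card ≤ 2 * (P ∩ G.low (x * (1 + δ)) S).card := by
  have hq : (2 : ℝ) ≤ q := by exact_mod_cast G.two_le
  have hq0 : (0 : ℝ) < q := by linarith
  have hS0 : (0 : ℝ) < S.card := by exact_mod_cast hne.card_pos
  have h1 : ∑ b ∈ S, (G.cnt P b : ℝ) ≤ S.card * (x * P.card / q) := by
    rw [← nsmul_eq_mul, ← sum_const]
    exact sum_le_sum fun b hb => G.mem_low.1 (hS hb)
  have h2 : ∑ b ∈ S, (G.cnt P b : ℝ) = ∑ a ∈ P, (G.cnt S a : ℝ) := by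
    exact_mod_cast G.sum_cnt_comm P S
  have h3 : ((P \ G.low (x * (1 + δ)) S).card : ℝ) * (x * (1 + δ) * S.card / q) ≤
      ∑ a ∈ P, (G.cnt S a : ℝ) := by
    rw [← nsmul_eq_mul, ← sum_const]
    refine le_trans (sum_le_sum fun a ha => ?_)
      (sum_le_sum_of_subset_of_nonneg (sdiff_subset (t := G.low (x * (1 + δ)) S))
        fun a _ _ => Nat.cast_nonneg _)
    have := (mem_sdiff.1 ha).2
    rw [G.mem_low, not_le] at this
    exact this.le
  have h4 : ((1 + δ) * ((P \ G.low (x * (1 + δ)) S).card : ℝ)) * (x * S.card / q) ≤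
      P.card * (x * S.card / q) := by
    calc ((1 + δ) * ((P \ G.low (x * (1 + δ)) S).card : ℝ)) * (x * S.card / q)
        = ((P \ G.low (x * (1 + δ)) S).card : ℝ) * (x * (1 + δ) * S.card / q) := by ring
      _ ≤ S.card * (x * P.card / q) := by linarith
      _ = _ := by ring
  have h5 := le_of_mul_le_mul_right h4 (by positivity)
  have h7 : ((P \ G.low (x * (1 + δ)) S).card : ℝ) + (P ∩ G.low (x * (1 + δ)) S).card = P.card := by
    exact_mod_cast card_sdiff_add_card_inter P (G.low (x * (1 + δ)) S)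
  have h8 : (0 : ℝ) ≤ (P ∩ G.low (x * (1 + δ)) S).card := Nat.cast_nonneg _
  generalize ((P ∩ G.low (x * (1 + δ)) S).card : ℝ) = u at *
  generalize ((P \ G.low (x * (1 + δ)) S).card : ℝ) = v at *
  rw [← h7] at h5 ⊢
  have := mul_le_mul_of_nonneg_right hδ1 h8
  linarith

theorem step_ne {A : Finset Pt} {c d : ℝ} (hd : 0 < d) (h : d ≤ c * A.card) : A.Nonempty := by
  rw [← card_pos]
  by_contra k
  have : A.card = 0 := by omega
  rw [this] at h
  simp only [Nat.cast_zero, mul_zero] at h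
  linarith

/-- `V = 16 W ^ 2 (2 Om / δ)`, `F2 = boost_all F1 V`, `F3 = boost_all F2 V`, `cont_of_corr` over
`F2 ∪ F3` with `c = 2`, `W = V`. Let `S = low x P`, `|S| |P| ≤ 2 q ^ (t + 1)` (`GeoB_low`).
`|S| ≤ |P|`: `h S P` (`low_mono`) gives `X1`; boost `S ∩ X1`; `half_low`. `|P| < |S|`:
`Pc = P ∩ low (x (1 + δ)) S` has `δ |P| ≤ 2 |Pc|` (Markov, `sum_cnt_comm`); `h Pc S` gives `X1`;
boost `Pc ∩ X1` to `Y1`; `S1 = S ∩ low (1 / 8) (Pc ∩ X1)` has half of `S` (`half_low` at level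
`1 / 16`); boost `S1` inside `Y1`; `half_low`. -/
theorem chain (G : GP q t Pt) (hq : 1000 ≤ q) {x δ Om W A0 : ℝ} (hx : 0 < x) (hx1 : x ≤ 1 / 32)
    (hδ : 0 < δ) (hδ1 : δ ≤ 1) (hO : 1 ≤ Om) (hW : 1 ≤ W) {F1 : Finset (Finset Pt)}
    (hA : (F1.card : ℝ) ≤ Real.exp A0)
    (h : ∀ P S : Finset Pt, P.Nonempty → P ⊆ G.low (x * (1 + δ)) S →
      (P.card : ℝ) ^ 2 ≤ 2 * (q : ℝ) ^ (t + 1) →
      (q : ℝ) ^ (t + 1) ≤ P.card * S.card * (2 * Om / δ) →
      ∃ X ∈ F1, (P.card : ℝ) ≤ W * (P ∩ X).card ∧ (X.card : ℝ) ≤ W * P.card) :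
    ∃ F : Finset (Finset Pt), (F.card : ℝ) ≤ Real.exp (A0 + 1 +
        900 * (t + 1) * q * Real.log q * (1 + Real.log (16 * W ^ 2 * (2 * Om / δ)))) ∧
      G.Cont x Om 8 (fun _ => True) F := by
  obtain ⟨O, hO'⟩ : ∃ O, O = 2 * Om / δ := ⟨_, rfl⟩
  have eO : δ * O = 2 * Om := by rw [hO']; field_simp
  rw [← hO'] at h ⊢
  have O1 : 2 * Om ≤ O := by
    rw [hO', le_div_iff₀ hδ]
    have := mul_le_mul_of_nonneg_left hδ1 (show 0 ≤ 2 * Om by linarith)
    linarith
  have W2 : W ≤ W ^ 2 := le_self_pow₀ hW two_ne_zero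
  have O0 : 0 ≤ O := by linarith
  have v1 : W ^ 2 ≤ 16 * W ^ 2 * O := by
    have := mul_le_mul_of_nonneg_left (show 1 ≤ 16 * O by linarith) (sq_nonneg W)
    linarith
  have v2 : 8 * (W * O) ≤ 16 * W ^ 2 * O := by
    have := mul_le_mul_of_nonneg_right W2 O0
    have := mul_nonneg (sq_nonneg W) O0
    linarith
  have v3 : W * Om ≤ W * O := mul_le_mul_of_nonneg_left (by linarith) (by linarith)
  have v4 : O ≤ W * O := le_mul_of_one_le_left O0 hW
  generalize 16 * W ^ 2 * O = V at *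
  have V1 : 1 ≤ V := by linarith
  obtain ⟨F2, c2, p2⟩ := boost_all G hq F1 hA V1
  obtain ⟨F3, c3, p3⟩ := boost_all G hq F2 c2 V1
  have c0 : 0 ≤ 300 * ((t : ℝ) + 1) * q * Real.log q * (1 + Real.log V) := by
    have := KStep_log hq
    have := Real.log_nonneg V1
    positivity
  have c4 : ((F2 ∪ F3).card : ℝ) ≤ Real.exp (1 + (A0 + 300 * ((t : ℝ) + 1) * q * Real.log q *
      (1 + Real.log V) + 300 * ((t : ℝ) + 1) * q * Real.log q * (1 + Real.log V))) := by
    have e1 : ((F2 ∪ F3).card : ℝ) ≤ F2.card + F3.card := by exact_mod_cast card_union_le _ _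
    have e2 := c2.trans (Real.exp_le_exp.2 (le_add_of_nonneg_right c0))
    rw [Real.exp_add 1]
    have e3 := mul_le_mul_of_nonneg_right (show 2 ≤ Real.exp 1 by linarith [Real.add_one_le_exp 1])
      (Real.exp_pos (A0 + 300 * ((t : ℝ) + 1) * q * Real.log q *
      (1 + Real.log V) + 300 * ((t : ℝ) + 1) * q * Real.log q * (1 + Real.log V))).le
    linarith
  obtain ⟨F, c5, p5⟩ := G.cont_of_corr hq (F2 ∪ F3) (c := 2) c4 V1 hx.le (by linarith)
  refine ⟨F, c5.trans (le_of_eq (congrArg _ (by ring))), fun P _ hE => ?_⟩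
  obtain ⟨hP, hE⟩ := hE
  suffices k : ∃ U ∈ F2 ∪ F3, (P.card : ℝ) ≤ 2 * (P ∩ U).card ∧ (U.card : ℝ) ≤ V * (P ∩ U).card by
    obtain ⟨U, u1, u2, u3⟩ := k
    obtain ⟨Y, y1, y2, y3⟩ := p5 P hP U u1 u2 u3
    exact ⟨Y, y1, y2, by linarith⟩
  have g1 := G.GeoB_low (x := x) (by linarith) P
  have s16 : G.low x P ⊆ G.low (1 / 16) P := G.low_mono (by linarith) P
  have sδ : G.low x P ⊆ G.low (x * (1 + δ)) P :=
    G.low_mono (le_mul_of_one_le_right hx.le (by linarith)) P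
  obtain ⟨S, hS⟩ : ∃ S, S = G.low x P := ⟨_, rfl⟩
  have sx : S ⊆ G.low x P := hS.subset
  rw [← hS] at hE g1 s16 sδ
  have Q0 : (0 : ℝ) < (q : ℝ) ^ (t + 1) := by
    have : (0 : ℝ) < q := by exact_mod_cast (show 0 < q by omega)
    positivity
  have p0 : (0 : ℝ) < P.card := Nat.cast_pos.2 hP.card_pos
  have Sne : S.Nonempty := step_ne (c := P.card * Om) Q0 (by linarith)
  have s0 : (0 : ℝ) < S.card := Nat.cast_pos.2 Sne.card_pos
  have W0 : 0 < W := by linarith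
  have m0 : (0 : ℝ) ≤ S.card * P.card := by positivity
  rcases le_total (S.card : ℝ) P.card with hc | hc
  · obtain ⟨X, x1, x2, x3⟩ := h S P Sne sδ
      (by have := mul_le_mul_of_nonneg_left hc s0.le; linarith)
      (by have := mul_le_mul_of_nonneg_left (show Om ≤ O by linarith) m0; linarith)
    have ne := step_ne s0 x2
    have z0 : (0 : ℝ) ≤ (S ∩ X).card := Nat.cast_nonneg _
    obtain ⟨Y, y1, y2, y3⟩ := p2 X x1 (S ∩ X) inter_subset_right ne (by
      have := mul_le_mul_of_nonneg_left x2 W0.le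
      have := mul_le_mul_of_nonneg_right v1 z0
      linarith)
    obtain ⟨k1, k2⟩ := step_half G (K := W * Om) (by positivity) (inter_subset_left.trans s16) ne
      y2 y3 (by
        have := mul_le_mul_of_nonneg_right x2 (show 0 ≤ (P.card : ℝ) * Om by positivity)
        linarith)
    exact ⟨Y, mem_union_left _ y1, k1,
      k2.trans (mul_le_mul_of_nonneg_right (by linarith) (Nat.cast_nonneg _))⟩
  · have mk := step_markov G hx hδ hδ1 sx Sne
    have l16 : G.low (x * (1 + δ)) S ⊆ G.low (1 / 16) S := G.low_mono (by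
      have := mul_le_mul_of_nonneg_left hδ1 hx.le
      linarith) S
    obtain ⟨C, hC⟩ : ∃ C, C = P ∩ G.low (x * (1 + δ)) S := ⟨_, rfl⟩
    have C1 : C ⊆ G.low (x * (1 + δ)) S := hC.subset.trans inter_subset_right
    have C2 : (C.card : ℝ) ≤ P.card := by
      exact_mod_cast card_le_card (hC.subset.trans inter_subset_left)
    rw [← hC] at mk
    have Cne : C.Nonempty := step_ne (mul_pos hδ p0) mk
    have cc : (0 : ℝ) < C.card := Nat.cast_pos.2 Cne.card_pos
    have E2 : (q : ℝ) ^ (t + 1) ≤ C.card * S.card * O := by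
      have := mul_le_mul_of_nonneg_left mk (mul_nonneg s0.le O0)
      have e : S.card * O * (δ * P.card) = 2 * (S.card * P.card * Om) := by
        rw [show S.card * O * (δ * P.card) = S.card * P.card * (δ * O) by ring, eO]
        ring
      linarith
    obtain ⟨X, x1, x2, x3⟩ := h C S Cne C1 (by
      have a := mul_le_mul C2 (C2.trans hc) cc.le p0.le
      linarith) E2
    have ne := step_ne cc x2
    have z0 : (0 : ℝ) ≤ (C ∩ X).card := Nat.cast_nonneg _
    obtain ⟨Y, y1, y2, y3⟩ := p2 X x1 (C ∩ X) inter_subset_right ne (by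
      have := mul_le_mul_of_nonneg_left x2 W0.le
      have := mul_le_mul_of_nonneg_right v1 z0
      linarith)
    obtain ⟨k1, k2⟩ := step_half G (P := S) (K := W * O) (by positivity)
      (inter_subset_left.trans (C1.trans l16)) ne y2 y3 (by
        have := mul_le_mul_of_nonneg_right x2 (show 0 ≤ (S.card : ℝ) * O by positivity)
        linarith)
    have ne2 := step_ne s0 k1
    obtain ⟨Y2, w1, w2, w3⟩ := p3 Y y1 (S ∩ Y) inter_subset_right ne2
      (k2.trans (mul_le_mul_of_nonneg_right (by linarith) (Nat.cast_nonneg _)))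
    obtain ⟨k3, k4⟩ := step_half G (K := 2 * Om) (by positivity) (inter_subset_left.trans s16) ne2
      w2 w3 (by
        have := mul_le_mul_of_nonneg_right k1 (show 0 ≤ (P.card : ℝ) * Om by positivity)
        linarith)
    exact ⟨Y2, mem_union_right _ w1, k3,
      k4.trans (mul_le_mul_of_nonneg_right (by linarith) (Nat.cast_nonneg _))⟩

theorem step_lg {w : ℝ} (hw : 1000 ≤ w) : Real.log w ≤ w / 100 := by
  have h1 := Real.log_le_sub_one_of_pos (show 0 < w / 1024 by linarith)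
  rw [Real.log_div (by linarith) (by norm_num), show (1024 : ℝ) = 2 ^ 10 by norm_num,
    Real.log_pow] at h1
  have := Real.log_two_lt_d9
  push_cast at h1
  linarith

/-- `log t ≤ t / 100` for `t ≥ 1000`, `log Γ ≤ Γ` -/
theorem step_log {t : ℕ} (ht : 1000 ≤ t) {Γ Om : ℝ} (hΓ : 8 ≤ Γ) (hO : 1 ≤ Om) :
    1 ≤ cW t Γ (2 * Om / (1 / t)) ∧
      1 + Real.log (16 * cW t Γ (2 * Om / (1 / t)) ^ 2 * (2 * Om / (1 / t))) ≤
        120 * Γ * (t + Real.log Om) := by
  have t1 : (1000 : ℝ) ≤ t := by exact_mod_cast ht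
  have e0 : 2 * Om / (1 / (t : ℝ)) = 2 * t * Om := by field_simp
  rw [e0]
  unfold cW
  have lt := step_lg t1
  generalize (t : ℝ) = w at *
  have w0 : 0 < w := by linarith
  have O0 : 0 < Om := by linarith
  have G0 : 0 < Γ := by linarith
  have a1 : 1 ≤ Real.exp (400 * (w + 1)) := Real.one_le_exp (by linarith)
  have a2 : 1 ≤ w ^ 3 * Γ := one_le_mul_of_one_le_of_one_le (one_le_pow₀ (by linarith)) (by linarith)
  have a3 : 1 ≤ w * Om := one_le_mul_of_one_le_of_one_le (by linarith) hO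
  have a4 : 1 ≤ w * (w * Om) := one_le_mul_of_one_le_of_one_le (by linarith) a3
  refine ⟨?_, ?_⟩
  · have b1 : 1 ≤ (8000 * w ^ 3 * Γ) ^ 4 := one_le_pow₀ (by linarith)
    have b2 : 1 ≤ (16 * w * (2 * w * Om)) ^ 8 := one_le_pow₀ (by linarith)
    have := one_le_mul_of_one_le_of_one_le (one_le_mul_of_one_le_of_one_le a1 b1) b2
    linarith
  · have l2 : Real.log 2 ≤ Real.log w := Real.log_le_log (by norm_num) (by linarith)
    have l16 : Real.log 16 ≤ Real.log w := Real.log_le_log (by norm_num) (by linarith)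
    have l8 : Real.log 8000 ≤ 2 * Real.log w := by
      rw [two_mul, ← Real.log_mul w0.ne' w0.ne']
      refine Real.log_le_log (by norm_num) ?_
      have := mul_le_mul t1 t1 (by norm_num) w0.le
      linarith
    have lG := Real.log_le_sub_one_of_pos G0
    have lO := Real.log_nonneg hO
    have m1 := mul_le_mul_of_nonneg_right hΓ lO
    have m2 := mul_le_mul_of_nonneg_right hΓ w0.le
    have m3 := mul_le_mul_of_nonneg_left t1 G0.le
    simp (disch := positivity) only [Real.log_mul, Real.log_pow, Real.log_exp]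
    push_cast
    linarith

/-- `core` with level `x (1 + 1 / t)`, `2 Om / (1 / t)` and the lower family at `64 t ^ 2 Om`;
`chain` with `δ = 1 / t`; `step_log`; `12 (s + 1) ≤ 11 t`, `log (64 t ^ 2) ≤ r`,
`|F'| + 1 ≤ exp (1 + _)`, `Cont_mono` -/
theorem step {G : GP q t Pt} {G' : GP q (s + 1) Pt'}
    (hp : ∀ R, G.rk R = r → ∃ π φ, MPrj G G' R π φ) (ht : t = s + 1 + r) (h0 : 1000 ≤ t)
    (hr : r = (t - 7) / 6) (hq : 10 ^ 7 * t ^ 6 ≤ q) {x x' A Γ : ℝ} (hx : 0 < x)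
    (hx1 : x ≤ 1 / 32) (hx' : x * (1 + 7 / t) ≤ x') (hΓ : 8 ≤ Γ) (hA : 10 ^ 7 * Γ ≤ A)
    (hK : KLs G' x' A Γ) : KLs G x A Γ := by
  intro Om hO
  have t1 : (1000 : ℝ) ≤ t := by exact_mod_cast h0
  have hq0 : 1000 ≤ q := le_trans (by
    have : 1 ≤ t ^ 6 := Nat.one_le_pow _ _ (by omega)
    omega) hq
  have t0 : (0 : ℝ) < t := by linarith
  have e0 : 2 * Om / (1 / (t : ℝ)) = 2 * t * Om := by field_simp
  have tO : 1 ≤ (t : ℝ) * Om := one_le_mul_of_one_le_of_one_le (by linarith) hO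
  have tO2 : 1 ≤ (t : ℝ) * (t * Om) := one_le_mul_of_one_le_of_one_le (by linarith) tO
  have d1 : 1 / (t : ℝ) ≤ 1 / 1000 := one_div_le_one_div_of_le (by norm_num) t1
  have d0 : 0 < 1 / (t : ℝ) := by positivity
  obtain ⟨F', f1, f2⟩ := hK (64 * t ^ 2 * Om) (by linarith)
  obtain ⟨F1, c1, c2⟩ := core (x := x * (1 + 1 / t)) (Om := 2 * Om / (1 / t)) hp ht (by omega)
    (by omega) hq (by positivity)
    (by have := mul_le_mul_of_nonneg_left d1 hx.le; linarith)
    (by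
      refine le_trans ?_ hx'
      rw [mul_assoc]
      refine mul_le_mul_of_nonneg_left ?_ hx.le
      have := mul_le_mul_of_nonneg_left d1 d0.le
      rw [show (5 : ℝ) / t = 5 * (1 / t) by ring, show (7 : ℝ) / t = 7 * (1 / t) by ring]
      linarith)
    (by rw [e0]; linarith) (by rw [e0]; exact le_of_eq (by ring)) (by linarith) f2
  obtain ⟨g1, g2⟩ := step_log h0 hΓ hO
  have l1 := KStep_log hq0
  have l2 := Real.log_nonneg l1
  have lO := Real.log_nonneg hO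
  have q1 : (1000 : ℝ) ≤ q := by exact_mod_cast hq0
  have M1 : 1 ≤ (q : ℝ) * Real.log q := one_le_mul_of_one_le_of_one_le (by linarith) l1
  have u1 : (12 : ℝ) * ((s + 1 : ℕ) : ℝ) ≤ 11 * t := by
    exact_mod_cast (show 12 * (s + 1) ≤ 11 * t by omega)
  have u0 : (0 : ℝ) ≤ ((s + 1 : ℕ) : ℝ) := Nat.cast_nonneg _
  have la : lam q (64 * t ^ 2 * Om) ≤ lam q Om + t / 12 := by
    unfold lam
    have l64 : Real.log 64 ≤ Real.log t := Real.log_le_log (by norm_num) (by linarith)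
    have := step_lg t1
    simp (disch := positivity) only [Real.log_mul, Real.log_pow]
    push_cast
    linarith
  have lb : Real.log Om ≤ lam q Om := by unfold lam; linarith
  have A0 : 0 ≤ A := by linarith
  have T0 : 0 ≤ (t : ℝ) + lam q Om := by linarith
  have E1 : A * ((s + 1 : ℕ) : ℝ) * q * Real.log q * (((s + 1 : ℕ) : ℝ) + lam q (64 * t ^ 2 * Om)) ≤
      11 / 12 * (A * t * q * Real.log q * (t + lam q Om)) := by
    have a := mul_le_mul (show ((s + 1 : ℕ) : ℝ) ≤ 11 / 12 * t by linarith)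
      (show ((s + 1 : ℕ) : ℝ) + lam q (64 * t ^ 2 * Om) ≤ t + lam q Om by linarith)
      (by linarith [(KStep_lam hq0 (show 1 ≤ 64 * (t : ℝ) ^ 2 * Om by linarith) le_rfl).1])
      (by linarith)
    have b := mul_le_mul_of_nonneg_left a (show 0 ≤ A * (q * Real.log q) by positivity)
    linarith
  have E0 : 0 ≤ 11 / 12 * (A * t * q * Real.log q * (t + lam q Om)) := by positivity
  have c3 : (F1.card : ℝ) ≤ Real.exp (1 + 11 / 12 * (A * t * q * Real.log q * (t + lam q Om)) +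
      40 * (t + 1) ^ 2 * q * Real.log q) := by
    rw [Real.exp_add, Real.exp_add]
    refine c1.trans (mul_le_mul_of_nonneg_right ?_ (Real.exp_pos _).le)
    have a := f1.trans (Real.exp_le_exp.2 E1)
    have b := Real.one_le_exp E0
    have c := mul_le_mul_of_nonneg_right (show 2 ≤ Real.exp 1 by linarith [Real.add_one_le_exp 1])
      (Real.exp_pos (11 / 12 * (A * t * q * Real.log q * (t + lam q Om)))).le
    linarith
  obtain ⟨F, k1, k2⟩ := chain G hq0 hx hx1 d0 (by linarith) hO g1 c3 c2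
  refine ⟨F, k1.trans (Real.exp_le_exp.2 ?_), G.Cont_mono le_rfl le_rfl hΓ k2⟩
  generalize 1 + Real.log (16 * cW t Γ (2 * Om / (1 / t)) ^ 2 * (2 * Om / (1 / t))) = V at *
  have V1 : V ≤ 120 * Γ * (t + lam q Om) :=
    g2.trans (mul_le_mul_of_nonneg_left (by linarith) (by linarith))
  have T1 : (t : ℝ) ≤ t + lam q Om := by linarith
  clear E1 E0 c3 k1 k2 c2 c1 f1 f2 la
  generalize (t : ℝ) + lam q Om = T at *
  generalize (t : ℝ) = w at *
  obtain ⟨M, hM⟩ : ∃ M, M = (q : ℝ) * Real.log q := ⟨_, rfl⟩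
  rw [← hM] at M1
  have M0 : 0 ≤ M := by linarith
  have n1 : 1 ≤ w * T := one_le_mul_of_one_le_of_one_le (by linarith) (by linarith)
  have n2 : 1 ≤ w * T * M := one_le_mul_of_one_le_of_one_le n1 M1
  have n3 : (w + 1) ^ 2 * M ≤ 4 * (w * T) * M := by
    refine mul_le_mul_of_nonneg_right ?_ M0
    have := mul_le_mul_of_nonneg_left T1 t0.le
    have := mul_le_mul_of_nonneg_left (show 1 ≤ w by linarith) t0.le
    linarith
  have n4 : (w + 1) * V * M ≤ 2 * w * (120 * Γ * T) * M := by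
    refine mul_le_mul_of_nonneg_right ?_ M0
    exact (mul_le_mul_of_nonneg_left V1 (by linarith)).trans
      (mul_le_mul_of_nonneg_right (by linarith) (by positivity))
  have n5 := mul_le_mul_of_nonneg_right hA (zero_le_one.trans n2)
  have n6 := mul_le_mul_of_nonneg_right hΓ (zero_le_one.trans n2)
  calc _ = 2 + 11 / 12 * (A * (w * T * M)) + 40 * ((w + 1) ^ 2 * M) + 900 * ((w + 1) * V * M) := by
        rw [hM]; ring
    _ ≤ A * (w * T * M) := by linarith
    _ = _ := by rw [hM]; ring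

/-- Strong induction on `j` for the level `x0 (1 + 168 / (j + 2))`, as in `Uni.kl_poly`, with
`x0 = 1 / (100 B 1002 ^ 100)`, `Γ = B`, `A = 10 ^ 7 B + B ^ 2 1002 ^ 100`. For `j + 2 < 1000` use
`kl_poly`, `KLp_mono`, `lam ≤ t (t + lam)`. Else `step` with `exists_mprj`. At the end
`Cont_mono`; `exists_tower`. -/
theorem kl_sharp : ∃ x A Γ : ℝ, 0 < x ∧ x ≤ 1 / 8 ∧ 0 ≤ A ∧ 1 ≤ Γ ∧
    ∀ q j : ℕ, q.Prime → 1000 ≤ q → 10 ^ 7 * (j + 2) ^ 6 ≤ q →
      ∃ (Pt : Type) (_ : Fintype Pt) (_ : DecidableEq Pt) (G : GP q (j + 2) Pt), KLs G x A Γ := by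
  obtain ⟨B, hB, hk⟩ := kl_poly
  obtain ⟨C, C1, C2⟩ : ∃ C : ℝ, 1 ≤ C ∧ ∀ j : ℕ, j + 2 < 1000 → ((j : ℝ) + 2) ^ 100 ≤ C :=
    ⟨1002 ^ 100, one_le_pow₀ (by norm_num), fun j hj => pow_le_pow_left₀ (by positivity) (by
      have : (j : ℝ) ≤ 1000 := by exact_mod_cast (show j ≤ 1000 by omega)
      linarith) _⟩
  have B0 : 0 < B := by linarith
  have BC : 8 ≤ B * C := hB.trans (le_mul_of_one_le_right B0.le C1)
  obtain ⟨y, hy⟩ : ∃ y, y = 1 / (B * C) := ⟨_, rfl⟩
  have y0 : 0 < y := by rw [hy]; positivity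
  have y1 : y ≤ 1 / 8 := by rw [hy]; exact one_div_le_one_div_of_le (by norm_num) BC
  have A1 : 0 ≤ B ^ 2 * C := by positivity
  refine ⟨y / 100, 10 ^ 7 * B + B ^ 2 * C, B, by positivity, by linarith, by positivity,
    by linarith, fun q j hq hq0 hj => ?_⟩
  obtain ⟨Pt, i1, i2, G, hp⟩ := exists_tower q hq
  have l1 := KStep_log hq0
  have main : ∀ j : ℕ, 10 ^ 7 * (j + 2) ^ 6 ≤ q →
      KLs (G j) (y / 100 * (1 + 168 / ((j + 2 : ℕ) : ℝ))) (10 ^ 7 * B + B ^ 2 * C) B := by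
    intro j
    induction j using Nat.strong_induction_on with
    | _ j ih =>
    intro hj
    have j2 : (2 : ℝ) ≤ ((j + 2 : ℕ) : ℝ) := by exact_mod_cast (show 2 ≤ j + 2 by omega)
    by_cases h : j + 2 < 1000
    · intro Om hO
      have j0 : (0 : ℝ) < ((j : ℝ) + 2) ^ 100 := by positivity
      have d : 168 / ((j + 2 : ℕ) : ℝ) ≤ 84 := by
        rw [div_le_iff₀ (by linarith)]
        linarith
      obtain ⟨F, a1, a2⟩ := KLp_mono (G j) hq0 (x := y / 100 * (1 + 168 / ((j + 2 : ℕ) : ℝ)))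
        (A := 10 ^ 7 * B + B ^ 2 * C) (by
          have a : y ≤ 1 / (B * ((j : ℝ) + 2) ^ 100) := by
            rw [hy]
            exact one_div_le_one_div_of_le (by positivity)
              (mul_le_mul_of_nonneg_left (C2 j h) B0.le)
          have := mul_le_mul_of_nonneg_left d y0.le
          linarith)
        (by have := mul_le_mul_of_nonneg_left (C2 j h) (sq_nonneg B); linarith) le_rfl
        (hk q Pt G hq0 hp j) Om hO
      refine ⟨F, a1.trans (Real.exp_le_exp.2 ?_), a2⟩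
      have l2 := (KStep_lam hq0 hO le_rfl).1
      generalize ((j + 2 : ℕ) : ℝ) = w at *
      have a : lam q Om ≤ w * (w + lam q Om) :=
        le_trans (by linarith) (le_mul_of_one_le_left (by linarith) (by linarith))
      have b := mul_le_mul_of_nonneg_left a
        (show 0 ≤ (10 ^ 7 * B + B ^ 2 * C) * q * Real.log q by positivity)
      linarith
    · obtain ⟨s, r, rfl, hr⟩ : ∃ s r, j = s + r ∧ r = (j + 2 - 7) / 6 :=
        ⟨j - (j + 2 - 7) / 6, (j + 2 - 7) / 6, by omega, rfl⟩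
      have i0 := ih s (by omega)
        (le_trans (Nat.mul_le_mul_left _ (Nat.pow_le_pow_left (by omega) _)) hj)
      have t1 : (1000 : ℝ) ≤ ((s + r + 2 : ℕ) : ℝ) := by
        exact_mod_cast (show 1000 ≤ s + r + 2 by omega)
      have u1 : (12 : ℝ) * ((s + 2 : ℕ) : ℝ) ≤ 11 * ((s + r + 2 : ℕ) : ℝ) := by
        exact_mod_cast (show 12 * (s + 2) ≤ 11 * (s + r + 2) by omega)
      have u0 : (0 : ℝ) < ((s + 2 : ℕ) : ℝ) := by exact_mod_cast (show 0 < s + 2 by omega)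
      have d1 : 1 / ((s + r + 2 : ℕ) : ℝ) ≤ 1 / 1000 := one_div_le_one_div_of_le (by norm_num) t1
      have d0 : 0 < 1 / ((s + r + 2 : ℕ) : ℝ) := by positivity
      have d2 : 12 / 11 * (1 / ((s + r + 2 : ℕ) : ℝ)) ≤ 1 / ((s + 2 : ℕ) : ℝ) := by
        rw [mul_one_div, div_le_div_iff₀ (by linarith) u0]
        linarith
      refine step (s := s + 1) (exists_mprj Pt G hp s r) (by omega) (by omega) hr hj
        (by positivity) ?_ ?_ hB (by linarith) i0
      · rw [div_eq_mul_one_div (168 : ℝ)]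
        have := mul_le_mul_of_nonneg_left d1 y0.le
        linarith
      · rw [div_eq_mul_one_div (168 : ℝ), div_eq_mul_one_div (7 : ℝ),
          div_eq_mul_one_div (168 : ℝ) ((s + 2 : ℕ) : ℝ), mul_assoc]
        refine mul_le_mul_of_nonneg_left ?_ (by positivity)
        have := mul_le_mul_of_nonneg_left d1 d0.le
        linarith
  refine ⟨Pt j, i1 j, i2 j, G j, fun Om hO => ?_⟩
  obtain ⟨F, a1, a2⟩ := main j hj Om hO
  refine ⟨F, a1, (G j).Cont_mono (le_mul_of_one_le_right (by positivity) ?_) le_rfl le_rfl a2⟩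
  have : (0 : ℝ) ≤ 168 / ((j + 2 : ℕ) : ℝ) := by positivity
  linarith

end Pool.Agent.Work.MP_e10cd8_co.Gap
end

-- merged part: Pool.Agent.Work.MP_e10cd8_co.Gap.Top
section
/-! The two-sided bound without loss. -/

namespace Pool.Agent.Work.MP_e10cd8_co.Gap

open Finset Four All Uni Real

theorem sharp : ∃ c C : ℝ, 0 < c ∧ ∀ n m : ℕ, 1 ≤ n → 2 ≤ m → ∃ k : ℕ,
    IsLeast {N : ℕ | ∀ G : Digraph (Fin N), (∀ v, ¬ G.Adj v v) →
      (∃ S : Finset (Fin N), S.card = n ∧ ∀ u ∈ S, ∀ v ∈ S, ¬ G.Adj u v) ∨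
        ∃ f : Fin m → Fin N, Function.Injective f ∧ ∀ i j, i < j → G.Adj (f i) (f j)} k ∧
    c ^ m * ((n + m - 2).choose (m - 1) : ℝ) / log (2 + n / m) ^ (m - 2) ≤ k ∧
      (k : ℝ) ≤ C ^ m * ((n + m - 2).choose (m - 1) : ℝ) / log (2 + n / m) ^ (m - 2) := by
  obtain ⟨x, A, Γ, x0, x1, A0, g1, h⟩ := kl_sharp
  obtain ⟨H, hH⟩ := exists_nat_ge (10 ^ 7 + 1 / x + A + Γ)
  have x2 : 0 < 1 / x := by positivity
  refine top_of (H := H) (by exact_mod_cast (by linarith : (10 : ℝ) ^ 7 ≤ H))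
    fun q j D k a1 a2 a3 a4 a5 a6 a7 a8 => ?_
  have n : NG q (j + 2) H D k := ⟨by omega, by exact_mod_cast (by linarith : (10 : ℝ) ^ 7 ≤ H),
    a3, a4, a5, a6, a7, by linarith⟩
  obtain ⟨Pt, i1, i2, G, hG⟩ := h q j a1 a2 n.t6
  obtain ⟨X, b1, b2, b3⟩ := host G n (x := x) (A := A) (Γ := Γ)
    (by rw [one_div_le (by linarith) x0]; linarith) x1 (by linarith) g1 (by linarith) hG
  exact ⟨Pt, i1, i2, G, X, b1, by rwa [mul_assoc (q : ℝ)], b3⟩

end Pool.Agent.Work.MP_e10cd8_co.Gap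
end
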